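import Pool.Agent.LibBR70.JB1

/-! Row JB4 (only Mathlib): a fixed smooth function at the points of a compact set; finitely many
functions.
Plan. `‖iteratedFDeriv ℝ k g y‖` is continuous in `y` (`ContDiff.continuous_iteratedFDeriv`), hence
bounded on the compact set; `C ≤ C exp (C ℓ)` for `C ≥ 0`. -/

open Set Filter Topology
open scoped ContDiff

namespace BR

variable {ι : Type} {E F : Type} [NormedAddCommGroup E] [NormedSpace ℝ E]
  [NormedAddCommGroup F] [NormedSpace ℝ F] {ℓ : ι → ℝ} {x : ι → E}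

theorem EB_compact (hℓ : ∀ i, 0 ≤ ℓ i) {g : E → F} (hg : ContDiff ℝ ∞ g) {K : Set E}
    (hK : IsCompact K) (hx : ∀ i, x i ∈ K) : EB ℓ (fun _ => g) x := by
  refine ⟨fun _ => hg, fun k => ?_⟩
  have hc : Continuous fun y => iteratedFDeriv ℝ k g y :=
    hg.continuous_iteratedFDeriv (by exact_mod_cast le_top)
  obtain ⟨C, hC⟩ := hK.exists_bound_of_continuousOn hc.continuousOn
  refine ⟨max C 0, fun i => ?_⟩
  have h0 : 0 ≤ max C 0 := le_max_right _ _
  have h1 : 1 ≤ Real.exp (max C 0 * ℓ i) := Real.one_le_exp (mul_nonneg h0 (hℓ i))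
  calc ‖iteratedFDeriv ℝ k g (x i)‖ ≤ C := hC _ (hx i)
    _ ≤ max C 0 := le_max_left _ _
    _ = max C 0 * 1 := (mul_one _).symm
    _ ≤ max C 0 * Real.exp (max C 0 * ℓ i) := mul_le_mul_of_nonneg_left h1 h0

theorem EB_finite (hℓ : ∀ i, 0 ≤ ℓ i) {J : Type} [Finite J] {g : J → E → F}
    (hg : ∀ j, ContDiff ℝ ∞ (g j)) {K : Set E} (hK : IsCompact K) (hx : ∀ i, x i ∈ K)
    (j : ι → J) : EB ℓ (fun i => g (j i)) x := by
  refine ⟨fun i => hg (j i), fun k => ?_⟩
  have hb : ∀ a : J, ∃ C : ℝ, ∀ y ∈ K, ‖iteratedFDeriv ℝ k (g a) y‖ ≤ C := by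
    intro a
    have hc : Continuous fun y => iteratedFDeriv ℝ k (g a) y :=
      (hg a).continuous_iteratedFDeriv (by exact_mod_cast le_top)
    exact hK.exists_bound_of_continuousOn hc.continuousOn
  choose c hc using hb
  obtain ⟨C, hC⟩ := (Set.finite_range c).bddAbove
  refine ⟨max C 0, fun i => ?_⟩
  have h0 : 0 ≤ max C 0 := le_max_right _ _
  have h1 : 1 ≤ Real.exp (max C 0 * ℓ i) := Real.one_le_exp (mul_nonneg h0 (hℓ i))
  calc ‖iteratedFDeriv ℝ k (g (j i)) (x i)‖ ≤ c (j i) := hc _ _ (hx i)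
    _ ≤ C := hC ⟨j i, rfl⟩
    _ ≤ max C 0 := le_max_left _ _
    _ = max C 0 * 1 := (mul_one _).symm
    _ ≤ max C 0 * Real.exp (max C 0 * ℓ i) := mul_le_mul_of_nonneg_left h1 h0

end BR
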