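import Pool.Agent.LibBR70.JB3
import Pool.Agent.LibBR70.JB4

/-! Row JB6 (only Mathlib, cites JB1-JB4): the class `RB`.
Plan. `RB_iff`: unfold; index set `{p : E × F // p.1 ∈ K}`, `ℓ p = ‖p.2‖`. Then `RB_add`, `RB_mul`,
`RB_fderiv_apply`, `RB_inv`, `RB_rpow`, `RB_fst`, `RB_snd` are the corresponding statements for `EB`.
`RB_fst`: derivatives of the linear map `fst`: order 0 is bounded since `K` is bounded and `C exp (C ‖v‖) ≥ C`,
order 1 is `fst`, the others vanish. `RB_snd`: order 0 is `‖(x, v)‖`-like: `‖v‖ ≤ exp ‖v‖`. -/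

open Set Filter Topology
open scoped ContDiff

namespace BR

variable {E F G : Type} [NormedAddCommGroup E] [NormedSpace ℝ E]
  [NormedAddCommGroup F] [NormedSpace ℝ F] [NormedAddCommGroup G] [NormedSpace ℝ G] {K : Set E}

theorem RB_iff {f : E × F → G} : RB K f ↔ ContDiff ℝ ∞ f ∧
    EB (fun p : {p : E × F // p.1 ∈ K} => ‖p.1.2‖) (fun _ => f) (fun p => p.1) := by
  constructor
  · intro hf
    refine ⟨hf.1, ⟨fun _ => hf.1, fun k => ?_⟩⟩
    obtain ⟨C, hC⟩ := hf.2 k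
    exact ⟨C, fun p => hC p.1.1 p.2 p.1.2⟩
  · intro hf
    refine ⟨hf.1, fun k => ?_⟩
    obtain ⟨C, hC⟩ := hf.2.bound k
    exact ⟨C, fun x hx v => hC ⟨(x, v), hx⟩⟩

theorem RB_const (c : G) : RB K (fun _ : E × F => c) := by
  refine RB_iff.2 ⟨contDiff_const, EB_const (C := ‖c‖) (fun _ => norm_nonneg _) fun p => ?_⟩
  have h1 : 1 ≤ Real.exp (‖c‖ * ‖p.1.2‖) := Real.one_le_exp (by positivity)
  nlinarith [norm_nonneg c]

theorem RB_fst (hK : Bornology.IsBounded K) : RB K (fun p : E × F => p.1) := by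
  refine ⟨contDiff_fst, fun k => ?_⟩
  cases k with
  | zero =>
    obtain ⟨M, hM⟩ := hK.exists_norm_le
    refine ⟨|M|, fun x hx v => ?_⟩
    rw [norm_iteratedFDeriv_zero]
    have h1 : 1 ≤ Real.exp (|M| * ‖v‖) := Real.one_le_exp (by positivity)
    have h2 : ‖x‖ ≤ |M| := (hM x hx).trans (le_abs_self M)
    show ‖x‖ ≤ _
    nlinarith [abs_nonneg M]
  | succ k =>
    obtain ⟨C, hC⟩ := (RB_const (K := K) (F := F) (ContinuousLinearMap.fst ℝ E F)).2 k
    refine ⟨C, fun x hx v => ?_⟩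
    rw [← norm_iteratedFDeriv_fderiv]
    have h1 : fderiv ℝ (fun p : E × F => p.1) = fun _ => ContinuousLinearMap.fst ℝ E F := by
      funext p
      exact (ContinuousLinearMap.fst ℝ E F).fderiv
    rw [h1]
    exact hC x hx v

theorem RB_snd : RB K (fun p : E × F => p.2) := by
  refine ⟨contDiff_snd, fun k => ?_⟩
  cases k with
  | zero =>
    refine ⟨1, fun x hx v => ?_⟩
    rw [norm_iteratedFDeriv_zero]
    have h1 := Real.add_one_le_exp ‖v‖
    show ‖v‖ ≤ _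
    rw [one_mul, one_mul]
    linarith
  | succ k =>
    obtain ⟨C, hC⟩ := (RB_const (K := K) (F := F) (ContinuousLinearMap.snd ℝ E F)).2 k
    refine ⟨C, fun x hx v => ?_⟩
    rw [← norm_iteratedFDeriv_fderiv]
    have h1 : fderiv ℝ (fun p : E × F => p.2) = fun _ => ContinuousLinearMap.snd ℝ E F := by
      funext p
      exact (ContinuousLinearMap.snd ℝ E F).fderiv
    rw [h1]
    exact hC x hx v

theorem RB_add {f g : E × F → G} (hf : RB K f) (hg : RB K g) : RB K (fun p => f p + g p) := by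
  exact RB_iff.2 ⟨hf.1.add hg.1, EB_add (fun _ => norm_nonneg _) (RB_iff.1 hf).2 (RB_iff.1 hg).2⟩

theorem RB_mul {f g : E × F → ℝ} (hf : RB K f) (hg : RB K g) : RB K (fun p => f p * g p) := by
  exact RB_iff.2 ⟨hf.1.mul hg.1, EB_mul (fun _ => norm_nonneg _) (RB_iff.1 hf).2 (RB_iff.1 hg).2⟩

theorem RB_clm {f : E × F → G} (hf : RB K f) {H : Type} [NormedAddCommGroup H]
    [NormedSpace ℝ H] (L : G →L[ℝ] H) : RB K (fun p => L (f p)) := by
  exact RB_iff.2 ⟨L.contDiff.comp hf.1, EB_clm (fun _ => norm_nonneg _) (RB_iff.1 hf).2 L⟩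

theorem RB_fderiv_apply {f : E × F → G} (hf : RB K f) (v : E × F) :
    RB K (fun p => fderiv ℝ f p v) := by
  exact RB_iff.2 ⟨((contDiff_infty_iff_fderiv.1 hf.1).2).clm_apply contDiff_const,
    EB_fderiv_apply (fun _ => norm_nonneg _) (RB_iff.1 hf).2 v⟩

theorem RB_inv {f : E × F → ℝ} (hf : RB K f) (h0 : ∀ p, f p ≠ 0) {C : ℝ}
    (hC : ∀ x ∈ K, ∀ v, |f (x, v)|⁻¹ ≤ C * Real.exp (C * ‖v‖)) : RB K (fun p => (f p)⁻¹) := by
  exact RB_iff.2 ⟨hf.1.inv h0, EB_inv (C := C) (fun _ => norm_nonneg _) (RB_iff.1 hf).2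
    (fun _ => h0) fun p => hC p.1.1 p.2 p.1.2⟩

theorem RB_rpow {f : E × F → ℝ} (hf : RB K f) (h0 : ∀ p, 0 < f p) {C : ℝ}
    (hC : ∀ x ∈ K, ∀ v, |f (x, v)|⁻¹ ≤ C * Real.exp (C * ‖v‖)) (q : ℝ) :
    RB K (fun p => f p ^ q) := by
  exact RB_iff.2 ⟨hf.1.rpow_const_of_ne fun p => (h0 p).ne',
    EB_rpow (C := C) (fun _ => norm_nonneg _) (RB_iff.1 hf).2
    (fun _ => h0) (fun p => hC p.1.1 p.2 p.1.2) q⟩

end BR
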