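import Pool.Agent.LibBR70.H1m
import Pool.Agent.LibBR70.JB6

/-! Row H1n (cites H1h, H1m, JB1-JB4, JB6): the metric in normal coordinates, and scalars of the
metric along geodesics, are in the class `RB`.
Plan. `mE m (x, v)` is the pull-back of the form `m` by `Ex m x`; by invariance (`HM.inv`, polarised) it is
also the pull-back of `m` by `γ⁻¹ • Ex m x` for every `γ`:
`mE m (x, v) = (bf (m w) (∂₁ w) (∂₁ w), bf (m w) (∂₁ w) (∂₂ w), bf (m w) (∂₂ w) (∂₂ w))`, `w = γ⁻¹ • Ex m x v`, as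
functions of `(x, v)` near a given point, for the `γ` with `w ∈ D` at that point. So the derivatives at
that point are bounded by `EB_Ex`, `EB_comp` with `EB_compact` (for `m`), `EB_fderiv_apply`, products.
(`iteratedFDeriv` of the two expressions agree since they are equal everywhere.)
`RB_scal`: the same for `h (Ex m x v)` with `h` smooth and invariant. `mE_dt`: `Ex_det`, `wd_ifr`:
`dt (mE m (x, r u)) = (JB r / r)^2`. `mE_gauss`: `Ex_gauss_ip` with `w = (1, 0)`, `(0, 1)`. -/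

open MeasureTheory Set Filter Topology
open scoped ContDiff

namespace BR

open BGS

variable {Γ : Type} [Group Γ] [MulAction Γ Pl] {D : Set Pl}

private theorem H1n_det (A : Pl →L[ℝ] Pl) :
    A.det = (A (1, 0)).1 * (A (0, 1)).2 - (A (0, 1)).1 * (A (1, 0)).2 := by
  have h1 : A.det = LinearMap.det (A : Pl →ₗ[ℝ] Pl) := rfl
  rw [h1, ← LinearMap.det_toMatrix (Module.Basis.finTwoProd ℝ), Matrix.det_fin_two]
  simp [LinearMap.toMatrix_apply]

private theorem H1n_lin (A : Pl →L[ℝ] Pl) (v : Pl) : A v = v.1 • A (1, 0) + v.2 • A (0, 1) := by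
  rw [← map_smul, ← map_smul, ← map_add]
  congr 1
  ext <;> simp

private theorem H1n_eu_pos {v : Pl} (hv : v ≠ 0) : 0 < eu v := by
  refine Real.sqrt_pos.2 ?_
  by_contra hc
  push Not at hc
  apply hv
  ext
  · show v.1 = 0
    nlinarith [sq_nonneg v.1, sq_nonneg v.2]
  · show v.2 = 0
    nlinarith [sq_nonneg v.1, sq_nonneg v.2]

private theorem H1n_unit {v : Pl} (hv : v ≠ 0) : ∃ u : Pl, eu u = 1 ∧ v = eu v • u := by
  have h := H1n_eu_pos hv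
  have h0 : 0 ≤ v.1 ^ 2 + v.2 ^ 2 := by positivity
  have hs : eu v ^ 2 = v.1 ^ 2 + v.2 ^ 2 := Real.sq_sqrt h0
  refine ⟨(eu v)⁻¹ • v, ?_, ?_⟩
  · show √(((eu v)⁻¹ * v.1) ^ 2 + ((eu v)⁻¹ * v.2) ^ 2) = 1
    have e1 : ((eu v)⁻¹ * v.1) ^ 2 + ((eu v)⁻¹ * v.2) ^ 2 = 1 := by
      field_simp
      linarith
    rw [e1, Real.sqrt_one]
  · rw [smul_smul, mul_inv_cancel₀ h.ne', one_smul]

/-- Partial derivatives of a function of two variables. -/
private theorem H1n_part {Φ : Pl × Pl → Pl} (hΦ : ContDiff ℝ ∞ Φ) (p : Pl × Pl) (w : Pl) :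
    fderiv ℝ (fun v => Φ (p.1, v)) p.2 w = fderiv ℝ Φ p (0, w) := by
  have h1 : HasFDerivAt (fun v : Pl => ((p.1, v) : Pl × Pl)) (ContinuousLinearMap.inr ℝ Pl Pl) p.2 :=
    hasFDerivAt_prodMk_right p.1 p.2
  have h2 : HasFDerivAt Φ (fderiv ℝ Φ p) (p.1, p.2) :=
    ((hΦ.differentiable (by simp)) p).hasFDerivAt
  have h3 := (h2.comp p.2 h1).fderiv
  have h4 : (Φ ∘ fun v : Pl => ((p.1, v) : Pl × Pl)) = fun v => Φ (p.1, v) := rfl
  rw [h4] at h3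
  rw [h3]
  rfl

/-- The pull-back of the form `m` by `Φ`, in the second variable. -/
private noncomputable def H1n_pb (m : Pl → Co) (Φ : Pl × Pl → Pl) (p : Pl × Pl) : Co :=
  (bf (m (Φ p)) (fderiv ℝ Φ p (0, (1, 0))) (fderiv ℝ Φ p (0, (1, 0))),
    bf (m (Φ p)) (fderiv ℝ Φ p (0, (1, 0))) (fderiv ℝ Φ p (0, (0, 1))),
    bf (m (Φ p)) (fderiv ℝ Φ p (0, (0, 1))) (fderiv ℝ Φ p (0, (0, 1))))

private theorem H1n_mE (hX : Surface Γ D) {m : Pl → Co} (hm : HM Γ m) (p : Pl × Pl) :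
    mE m p = H1n_pb m (fun q : Pl × Pl => Ex m q.1 q.2) p := by
  have h1 := H1n_part (Ex_smooth hX hm) p
  have h2 : (fun v : Pl => Ex m ((p.1, v) : Pl × Pl).1 ((p.1, v) : Pl × Pl).2) = Ex m p.1 := rfl
  rw [h2] at h1
  simp only [mE, H1n_pb, h1]

private theorem H1n_pb_smooth {m : Pl → Co} (hm : ContDiff ℝ ∞ m) {Φ : Pl × Pl → Pl}
    (hΦ : ContDiff ℝ ∞ Φ) : ContDiff ℝ ∞ (H1n_pb m Φ) := by
  have h1 : ∀ v : Pl × Pl, ContDiff ℝ ∞ fun p => fderiv ℝ Φ p v := fun v =>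
    ((contDiff_infty_iff_fderiv.1 hΦ).2).clm_apply contDiff_const
  have h2 : ContDiff ℝ ∞ fun p => m (Φ p) := hm.comp hΦ
  have h3 : ∀ v w : Pl × Pl, ContDiff ℝ ∞ fun p =>
      bf (m (Φ p)) (fderiv ℝ Φ p v) (fderiv ℝ Φ p w) := by
    intro v w
    unfold bf
    exact (((h2.fst.mul (h1 v).fst).mul (h1 w).fst).add (h2.snd.fst.mul
      (((h1 v).fst.mul (h1 w).snd).add ((h1 v).snd.mul (h1 w).fst)))).add
        ((h2.snd.snd.mul (h1 v).snd).mul (h1 w).snd)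
  exact (h3 _ _).prodMk ((h3 _ _).prodMk (h3 _ _))

/-- Polarised invariance. -/
private theorem H1n_inv {m : Pl → Co} (hm : HM Γ m) (γ : Γ) (z v w : Pl) :
    bf (m (γ • z)) (fderiv ℝ (fun y : Pl => γ • y) z v) (fderiv ℝ (fun y : Pl => γ • y) z w) =
      bf (m z) v w := by
  have h1 := hm.inv γ z (v + w)
  have h2 := hm.inv γ z v
  have h3 := hm.inv γ z w
  rw [map_add] at h1
  simp only [qf, bf, Prod.fst_add, Prod.snd_add] at *
  linarith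

/-- The pull-back does not change when one composes with a deck transformation. -/
private theorem H1n_pb_deck (hX : Surface Γ D) {m : Pl → Co} (hm : HM Γ m) (γ : Γ)
    {Φ : Pl × Pl → Pl} (hΦ : ContDiff ℝ ∞ Φ) :
    H1n_pb m (fun p => γ • Φ p) = H1n_pb m Φ := by
  funext p
  have h1 : ∀ v : Pl × Pl, fderiv ℝ (fun p => γ • Φ p) p v =
      fderiv ℝ (fun y : Pl => γ • y) (Φ p) (fderiv ℝ Φ p v) := by
    intro v
    have h2 : HasFDerivAt (fun y : Pl => γ • y) (fderiv ℝ (fun y : Pl => γ • y) (Φ p)) (Φ p) :=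
      (((hX.smooth γ).differentiable (by simp)) (Φ p)).hasFDerivAt
    have h3 : HasFDerivAt Φ (fderiv ℝ Φ p) p := ((hΦ.differentiable (by simp)) p).hasFDerivAt
    have h4 := (h2.comp p h3).fderiv
    have h5 : ((fun y : Pl => γ • y) ∘ Φ) = fun p => γ • Φ p := rfl
    rw [h5] at h4
    rw [h4]
    rfl
  simp only [H1n_pb, h1, H1n_inv hm]

theorem mE_smooth (hX : Surface Γ D) {m : Pl → Co} (hm : HM Γ m) : ContDiff ℝ ∞ (mE m) := by
  have h : mE m = H1n_pb m (fun q : Pl × Pl => Ex m q.1 q.2) := funext (H1n_mE hX hm)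
  rw [h]
  exact H1n_pb_smooth hm.smooth (Ex_smooth hX hm)

theorem mE_gauss (hX : Surface Γ D) {m : Pl → Co} (hm : HM Γ m) (x v : Pl) :
    (mE m (x, v)).1 * v.1 + (mE m (x, v)).2.1 * v.2 = v.1 ∧
      (mE m (x, v)).2.1 * v.1 + (mE m (x, v)).2.2 * v.2 = v.2 := by
  have h1 := Ex_gauss_ip hX hm x v (1, 0)
  have h2 := Ex_gauss_ip hX hm x v (0, 1)
  rw [H1n_lin (fderiv ℝ (Ex m x) v) v] at h1 h2
  simp only [mE]
  simp only [bf, ip, Prod.fst_add, Prod.snd_add, Prod.smul_fst, Prod.smul_snd, smul_eq_mul,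
    mul_one, mul_zero, add_zero, zero_add] at h1 h2 ⊢
  constructor
  · linarith
  · linarith

theorem mE_dt (hX : Surface Γ D) {m : Pl → Co} (hm : HM Γ m) {x u : Pl} (hu : eu u = 1) {r : ℝ}
    (hr : 0 < r) : dt (mE m (x, r • u)) = (JB m x u r / r) ^ 2 := by
  rw [← Ex_det hX hm hu hr, mul_pow, Real.sq_sqrt (hm.pos _).2.le, H1n_det]
  simp only [mE, dt, bf]
  ring

theorem mE_zero (hX : Surface Γ D) {m : Pl → Co} (hm : HM Γ m) (x : Pl) :
    mE m (x, 0) = (1, 0, 1) := by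
  have h := hm.pos x
  simp only [mE, Ex_zero hX hm, Ex_fderiv_zero hX hm, bf_fr h.1 h.2]
  simp [ip]

private theorem H1n_dt_pos (hX : Surface Γ D) {m : Pl → Co} (hm : HM Γ m) (x v : Pl) :
    1 ≤ dt (mE m (x, v)) := by
  by_cases hv : v = 0
  · rw [hv, mE_zero hX hm]
    simp [dt]
  · obtain ⟨u, hu, hvu⟩ := H1n_unit hv
    have hr := H1n_eu_pos hv
    rw [hvu, mE_dt hX hm hu hr]
    have h1 := (JB_ge hX hm (x := x) hu hr.le).1
    have h2 : 1 ≤ JB m x u (eu v) / eu v := by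
      rw [le_div_iff₀ hr, one_mul]
      exact h1
    exact one_le_pow₀ h2

theorem mE_pos (hX : Surface Γ D) {m : Pl → Co} (hm : HM Γ m) (p : Pl × Pl) :
    1 ≤ (mE m p).1 ∧ 1 ≤ dt (mE m p) := by
  refine ⟨?_, H1n_dt_pos hX hm p.1 p.2⟩
  have h1 := Ex_expand hX hm p.1 p.2 (1, 0)
  rw [qf_eq_bf] at h1
  have h2 : eu ((1, 0) : Pl) = 1 := by simp [eu]
  rw [h2, one_pow] at h1
  exact h1

/-- The indices. -/
private abbrev H1nI (Γ : Type) [Group Γ] [MulAction Γ Pl] (D : Set Pl) (m : Pl → Co) : Type :=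
  {q : (Pl × Pl) × Γ // q.1.1 ∈ closure D ∧ q.2⁻¹ • Ex m q.1.1 q.1.2 ∈ closure D}

private theorem H1n_index (hX : Surface Γ D) (m : Pl → Co) {x : Pl} (hx : x ∈ closure D) (v : Pl) :
    ∃ i : H1nI Γ D m, i.1.1 = (x, v) := by
  obtain ⟨γ, hγ, -⟩ := hX.orbit (Ex m x v)
  exact ⟨⟨((x, v), γ⁻¹), hx, subset_closure (by rw [inv_inv]; exact hγ)⟩, rfl⟩

private theorem H1n_RB {G : Type} [NormedAddCommGroup G] [NormedSpace ℝ G] (hX : Surface Γ D)
    (m : Pl → Co) {f : Pl × Pl → G} (hf : ContDiff ℝ ∞ f)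
    (h : EB (fun i : H1nI Γ D m => ‖i.1.1.2‖) (fun _ => f) (fun i => i.1.1)) :
    RB (closure D) f := by
  refine ⟨hf, fun k => ?_⟩
  obtain ⟨C, hC⟩ := h.bound k
  refine ⟨C, fun x hx v => ?_⟩
  obtain ⟨i, hi⟩ := H1n_index hX m hx v
  have := hC i
  rw [hi] at this
  exact this

private theorem H1n_dom (hX : Surface Γ D) : IsCompact (closure D) := hX.bdd.isCompact_closure

theorem RB_mE (hX : Surface Γ D) (hO : Ori Γ) {m : Pl → Co} (hm : HM Γ m) :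
    RB (closure D) (mE m) := by
  have hℓ : ∀ i : H1nI Γ D m, 0 ≤ ‖i.1.1.2‖ := fun i => norm_nonneg _
  refine H1n_RB hX m (mE_smooth hX hm) ?_
  have hw := EB_Ex hX hO hm
  have hmw : EB (fun i : H1nI Γ D m => ‖i.1.1.2‖) (fun i p => m (i.1.2⁻¹ • Ex m p.1 p.2))
      (fun i => i.1.1) :=
    EB_comp hℓ (g := fun _ : H1nI Γ D m => m)
      (EB_compact hℓ hm.smooth (H1n_dom hX) fun i => i.2.2) hw
  have hd : ∀ v : Pl × Pl, EB (fun i : H1nI Γ D m => ‖i.1.1.2‖)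
      (fun i p => fderiv ℝ (fun p : Pl × Pl => i.1.2⁻¹ • Ex m p.1 p.2) p v)
      (fun i => i.1.1) := fun v => EB_fderiv_apply hℓ hw v
  have hb : ∀ v w : Pl × Pl, EB (fun i : H1nI Γ D m => ‖i.1.1.2‖)
      (fun i p => bf (m (i.1.2⁻¹ • Ex m p.1 p.2))
        (fderiv ℝ (fun p : Pl × Pl => i.1.2⁻¹ • Ex m p.1 p.2) p v)
        (fderiv ℝ (fun p : Pl × Pl => i.1.2⁻¹ • Ex m p.1 p.2) p w))
      (fun i => i.1.1) := by
    intro v w
    have a1 := EB_clm hℓ hmw (ContinuousLinearMap.fst ℝ ℝ (ℝ × ℝ))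
    have a2 := EB_clm hℓ (EB_clm hℓ hmw (ContinuousLinearMap.snd ℝ ℝ (ℝ × ℝ)))
      (ContinuousLinearMap.fst ℝ ℝ ℝ)
    have a3 := EB_clm hℓ (EB_clm hℓ hmw (ContinuousLinearMap.snd ℝ ℝ (ℝ × ℝ)))
      (ContinuousLinearMap.snd ℝ ℝ ℝ)
    have v1 := EB_clm hℓ (hd v) (ContinuousLinearMap.fst ℝ ℝ ℝ)
    have v2 := EB_clm hℓ (hd v) (ContinuousLinearMap.snd ℝ ℝ ℝ)
    have w1 := EB_clm hℓ (hd w) (ContinuousLinearMap.fst ℝ ℝ ℝ)
    have w2 := EB_clm hℓ (hd w) (ContinuousLinearMap.snd ℝ ℝ ℝ)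
    exact EB_add hℓ (EB_add hℓ (EB_mul hℓ (EB_mul hℓ a1 v1) w1)
      (EB_mul hℓ a2 (EB_add hℓ (EB_mul hℓ v1 w2) (EB_mul hℓ v2 w1))))
      (EB_mul hℓ (EB_mul hℓ a3 v2) w2)
  have h1 : EB (fun i : H1nI Γ D m => ‖i.1.1.2‖)
      (fun i => H1n_pb m (fun p : Pl × Pl => i.1.2⁻¹ • Ex m p.1 p.2)) (fun i => i.1.1) :=
    EB_prod hℓ (hb _ _) (EB_prod hℓ (hb _ _) (hb _ _))
  have h2 : (fun i : H1nI Γ D m => H1n_pb m (fun p : Pl × Pl => i.1.2⁻¹ • Ex m p.1 p.2)) =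
      fun _ => mE m := by
    funext i
    rw [H1n_pb_deck hX hm _ (Ex_smooth hX hm)]
    exact (funext (H1n_mE hX hm)).symm
  rw [h2] at h1
  exact h1

theorem RB_scal (hX : Surface Γ D) (hO : Ori Γ) {m : Pl → Co} (hm : HM Γ m) {h : Pl → ℝ}
    (hh : ContDiff ℝ ∞ h) (hi : ∀ (γ : Γ) z, h (γ • z) = h z) :
    RB (closure D) (fun p : Pl × Pl => h (Ex m p.1 p.2)) := by
  have hℓ : ∀ i : H1nI Γ D m, 0 ≤ ‖i.1.1.2‖ := fun i => norm_nonneg _
  refine H1n_RB hX m (hh.comp (Ex_smooth hX hm)) ?_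
  have hw := EB_Ex hX hO hm
  have h1 : EB (fun i : H1nI Γ D m => ‖i.1.1.2‖) (fun i p => h (i.1.2⁻¹ • Ex m p.1 p.2))
      (fun i => i.1.1) :=
    EB_comp hℓ (g := fun _ : H1nI Γ D m => h)
      (EB_compact hℓ hh (H1n_dom hX) fun i => i.2.2) hw
  simp only [hi] at h1
  exact h1

end BR
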