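import Pool.Agent.LibBR70.H1l

/-! Row H1p (cites H1d-plan, H1e, H1j, H1l): counting deck transformations.
Plan. The segment `t ↦ Ex m x (t • v)`, `v = Vx m x (γ • y)`, has constant speed `eu v ≤ R`. As in row H1d
(or as in row H1m): cut it in `n = ⌈R⌉ + 1` pieces of length `≤ 1`; the points of division lie in
`η_0 D, η_1 D, ..., η_n D` with `η_i⁻¹ η_{i+1}` in a fixed finite set `S` (if `z ∈ closure D` and `d(z, z') ≤ 1`
then `z' = Ex m z u`, `eu u ≤ 1`, lies in a compact set, `Surface.proper`; translate by `η_i`, `Ex_deck`,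
`Rg_ip`), `η_0 = 1`-like (`x ∈ closure D`: finitely many `η_0`) and `η_n⁻¹ γ` in a finite set. So `γ` is a product
of `n + 2` elements of one finite set `S'`: at most `(card S') ^ (n + 2)` elements. -/

open MeasureTheory Set Filter Topology
open scoped ContDiff

namespace BR

open BGS

variable {Γ : Type} [Group Γ] [MulAction Γ Pl] {D : Set Pl}

private theorem H1p_eu_smul (r : ℝ) (v : Pl) : eu (r • v) = |r| * eu v := by
  unfold eu
  have h : (r • v).1 ^ 2 + (r • v).2 ^ 2 = r ^ 2 * (v.1 ^ 2 + v.2 ^ 2) := by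
    change (r * v.1) ^ 2 + (r * v.2) ^ 2 = _
    ring
  rw [h, Real.sqrt_mul (sq_nonneg r), Real.sqrt_sq_eq_abs]

private theorem H1p_eu_nonneg (v : Pl) : 0 ≤ eu v := Real.sqrt_nonneg _

private theorem H1p_eu_ip (v : Pl) : eu v = √(ip v v) := by
  unfold eu ip
  congr 1
  ring

private theorem H1p_eu_zero {v : Pl} (h : eu v ≤ 0) : v = 0 := by
  have h1 : eu v = 0 := le_antisymm h (H1p_eu_nonneg v)
  unfold eu at h1
  rw [Real.sqrt_eq_zero (by positivity)] at h1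
  have h2 : v.1 ^ 2 = 0 := by nlinarith [sq_nonneg v.1, sq_nonneg v.2]
  have h3 : v.2 ^ 2 = 0 := by nlinarith [sq_nonneg v.1, sq_nonneg v.2]
  exact Prod.ext (pow_eq_zero_iff two_ne_zero |>.1 h2) (pow_eq_zero_iff two_ne_zero |>.1 h3)

private theorem H1p_eu_cont : Continuous eu := by
  unfold eu
  fun_prop

private theorem H1p_norm_le (v : Pl) : ‖v‖ ≤ eu v := by
  rw [Prod.norm_def]
  unfold eu
  refine max_le ?_ ?_
  · rw [Real.norm_eq_abs]
    exact Real.abs_le_sqrt (by nlinarith [sq_nonneg v.2])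
  · rw [Real.norm_eq_abs]
    exact Real.abs_le_sqrt (by nlinarith [sq_nonneg v.1])

private theorem H1p_eu_Rg (hX : Surface Γ D) {m : Pl → Co} (hm : HM Γ m) (γ : Γ) (x v : Pl) :
    eu (Rg m γ x v) = eu v := by
  rw [H1p_eu_ip, H1p_eu_ip, Rg_ip hX hm]

private theorem H1p_cpt (hX : Surface Γ D) : IsCompact (closure D) := hX.bdd.isCompact_closure

private theorem H1p_K (hX : Surface Γ D) {m : Pl → Co} (hm : HM Γ m) :
    ∃ K : Set Pl, IsCompact K ∧ closure D ⊆ K ∧ ∀ x ∈ closure D, ∀ v, eu v ≤ 1 → Ex m x v ∈ K := by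
  have h1 : IsCompact {v : Pl | eu v ≤ 1} := by
    refine Metric.isCompact_of_isClosed_isBounded (isClosed_le H1p_eu_cont continuous_const) ?_
    refine Metric.isBounded_closedBall (x := (0 : Pl)) (r := 1) |>.subset fun v hv => ?_
    rw [mem_closedBall_zero_iff]
    exact (H1p_norm_le v).trans hv
  have h2 := ((H1p_cpt hX).prod h1).image (Ex_smooth hX hm).continuous
  refine ⟨_, h2.union (H1p_cpt hX), subset_union_right, fun x hx v hv => ?_⟩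
  exact Or.inl ⟨(x, v), ⟨hx, hv⟩, rfl⟩

open scoped Pointwise in
private theorem H1p_chain (hX : Surface Γ D) (hO : Ori Γ) {m : Pl → Co} (hm : HM Γ m)
    [DecidableEq Γ] {K : Set Pl} (hK1 : closure D ⊆ K)
    (hK2 : ∀ x ∈ closure D, ∀ v, eu v ≤ 1 → Ex m x v ∈ K) (S : Finset Γ)
    (hS : ∀ γ : Γ, γ ∈ S ↔ ∃ z ∈ K, γ • z ∈ K) (n : ℕ) :
    ∀ (x v : Pl) (γ : Γ), x ∈ closure D → eu v ≤ n → γ⁻¹ • Ex m x v ∈ closure D →
      γ ∈ S ^ (n + 1) := by
  have hinv : ∀ γ : Γ, γ⁻¹ ∈ S → γ ∈ S := by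
    intro γ hγ
    obtain ⟨z, hz, hz'⟩ := (hS _).1 hγ
    exact (hS _).2 ⟨γ⁻¹ • z, hz', by rw [smul_inv_smul]; exact hz⟩
  induction n with
  | zero =>
    intro x v γ hx hv hγ
    rw [zero_add, pow_one]
    rw [Nat.cast_zero] at hv
    rw [H1p_eu_zero hv, Ex_zero hX hm] at hγ
    exact hinv γ ((hS _).2 ⟨x, hK1 hx, hK1 hγ⟩)
  | succ n ih =>
    intro x v γ hx hv hγ
    have hn : (0 : ℝ) < n + 1 := by positivity
    have hst : ((n + 1 : ℝ)⁻¹ + n * (n + 1 : ℝ)⁻¹) = 1 := by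
      field_simp
      ring
    have h1 := Ex_add hX hm (n + 1 : ℝ)⁻¹ (n * (n + 1 : ℝ)⁻¹) x v
    rw [hst, one_smul] at h1
    have hev : eu v ≤ n + 1 := by
      rw [Nat.cast_add, Nat.cast_one] at hv
      exact hv
    have h2 : Ex m x ((n + 1 : ℝ)⁻¹ • v) ∈ K := by
      refine hK2 x hx _ ?_
      rw [H1p_eu_smul, abs_of_pos (inv_pos.2 hn), inv_mul_le_iff₀ hn, mul_one]
      exact hev
    obtain ⟨η, hη, -⟩ := hX.orbit (Ex m x ((n + 1 : ℝ)⁻¹ • v))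
    have h3 : η ∈ S := (hS _).2 ⟨_, h2, hK1 (subset_closure hη)⟩
    have h4 := Ex_deck hX hO hm η (Ex m x ((n + 1 : ℝ)⁻¹ • v))
      ((n * (n + 1 : ℝ)⁻¹) • (gfl m (n + 1 : ℝ)⁻¹ (x, v)).2)
    rw [← h1] at h4
    have h5 : η * γ ∈ S ^ (n + 1) := by
      refine ih (η • Ex m x ((n + 1 : ℝ)⁻¹ • v)) (Rg m η (Ex m x ((n + 1 : ℝ)⁻¹ • v))
        ((n * (n + 1 : ℝ)⁻¹) • (gfl m (n + 1 : ℝ)⁻¹ (x, v)).2)) (η * γ) (subset_closure hη) ?_ ?_
      · rw [H1p_eu_Rg hX hm, H1p_eu_smul, gfl_eu hX hm, abs_of_nonneg (by positivity)]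
        change n * (n + 1 : ℝ)⁻¹ * eu v ≤ n
        calc n * (n + 1 : ℝ)⁻¹ * eu v ≤ n * (n + 1 : ℝ)⁻¹ * (n + 1) :=
            mul_le_mul_of_nonneg_left hev (by positivity)
          _ = n := by field_simp
      · rw [h4, mul_inv_rev, mul_smul, inv_smul_smul]
        exact hγ
    have h6 : γ = η⁻¹ * (η * γ) := by group
    rw [h6, pow_succ']
    exact Finset.mul_mem_mul (hinv _ (by rw [inv_inv]; exact h3)) h5

open scoped Pointwise in
theorem count_deck (hX : Surface Γ D) (hO : Ori Γ) {m : Pl → Co} (hm : HM Γ m) :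
    ∃ C : ℝ, ∀ R : ℝ, 0 ≤ R →
      {γ : Γ | ∃ x ∈ closure D, ∃ y ∈ closure D, eu (Vx m x (γ • y)) ≤ R}.Finite ∧
      ({γ : Γ | ∃ x ∈ closure D, ∃ y ∈ closure D, eu (Vx m x (γ • y)) ≤ R}.ncard : ℝ) ≤
        C * Real.exp (C * R) := by
  classical
  obtain ⟨K, hK, hK1, hK2⟩ := H1p_K hX hm
  obtain ⟨S, hS⟩ : ∃ S : Finset Γ, ∀ γ : Γ, γ ∈ S ↔ ∃ z ∈ K, γ • z ∈ K :=
    ⟨(hX.proper K hK).toFinset, fun γ => (hX.proper K hK).mem_toFinset⟩
  obtain ⟨a, ha⟩ : ∃ a : ℝ, a = Real.log (max (S.card : ℝ) 1) := ⟨_, rfl⟩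
  have ha0 : 0 ≤ a := by
    rw [ha]
    exact Real.log_nonneg (le_max_right _ _)
  have hea : (S.card : ℝ) ≤ Real.exp a := by
    rw [ha, Real.exp_log (lt_of_lt_of_le one_pos (le_max_right _ _))]
    exact le_max_left _ _
  refine ⟨Real.exp (2 * a), fun R hR => ?_⟩
  have hsub : {γ : Γ | ∃ x ∈ closure D, ∃ y ∈ closure D, eu (Vx m x (γ • y)) ≤ R} ⊆
      ((S ^ (⌈R⌉₊ + 1) : Finset Γ) : Set Γ) := by
    rintro γ ⟨x, hx, y, hy, hR'⟩
    refine H1p_chain hX hO hm hK1 hK2 S hS ⌈R⌉₊ x (Vx m x (γ • y)) γ hx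
      (hR'.trans (Nat.le_ceil R)) ?_
    rw [Ex_Vx hX hm, inv_smul_smul]
    exact hy
  refine ⟨(Finset.finite_toSet _).subset hsub, ?_⟩
  have h1 := Set.ncard_le_ncard hsub (Finset.finite_toSet _)
  rw [Set.ncard_coe_finset] at h1
  have h2 : (S ^ (⌈R⌉₊ + 1)).card ≤ S.card ^ (⌈R⌉₊ + 1) := Finset.card_pow_le
  have h3 : ((⌈R⌉₊ : ℝ)) ≤ R + 1 := (Nat.ceil_lt_add_one hR).le
  calc (({γ : Γ | ∃ x ∈ closure D, ∃ y ∈ closure D, eu (Vx m x (γ • y)) ≤ R}.ncard : ℕ) : ℝ)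
      ≤ ((S.card ^ (⌈R⌉₊ + 1) : ℕ) : ℝ) := by exact_mod_cast h1.trans h2
    _ = (S.card : ℝ) ^ (⌈R⌉₊ + 1) := by push_cast; rfl
    _ ≤ Real.exp a ^ (⌈R⌉₊ + 1) := pow_le_pow_left₀ (Nat.cast_nonneg _) hea _
    _ = Real.exp ((⌈R⌉₊ + 1) * a) := by
      rw [← Real.exp_nat_mul]
      push_cast
      rfl
    _ ≤ Real.exp (2 * a + a * R) := by
      refine Real.exp_le_exp.2 ?_
      nlinarith
    _ = Real.exp (2 * a) * Real.exp (a * R) := Real.exp_add _ _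
    _ ≤ Real.exp (2 * a) * Real.exp (Real.exp (2 * a) * R) := by
      refine mul_le_mul_of_nonneg_left (Real.exp_le_exp.2 ?_) (Real.exp_pos _).le
      refine mul_le_mul_of_nonneg_right ?_ hR
      have h4 := Real.add_one_le_exp (2 * a)
      linarith

private theorem H1p_free (hX : Surface Γ D) {γ : Γ} {x : Pl} (h : γ • x = x) : γ = 1 := by
  obtain ⟨η, hη, hu⟩ := hX.orbit x
  have h1 := hu (η * γ) (by
    change (η * γ) • x ∈ D
    rw [mul_smul, h]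
    exact hη)
  exact mul_eq_left.1 h1

/-- The displacement of a nontrivial deck transformation is bounded below. -/
theorem displ_pos (hX : Surface Γ D) (hO : Ori Γ) {m : Pl → Co} (hm : HM Γ m) :
    ∃ c > 0, ∀ γ : Γ, γ ≠ 1 → ∀ x : Pl, c ≤ eu (Vx m x (γ • x)) := by
  classical
  obtain ⟨K, hK, hK1, hK2⟩ := H1p_K hX hm
  obtain ⟨S, hS⟩ : ∃ S : Finset Γ, ∀ γ : Γ, γ ∈ S ↔ ∃ z ∈ K, γ • z ∈ K :=
    ⟨(hX.proper K hK).toFinset, fun γ => (hX.proper K hK).mem_toFinset⟩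
  have hne : (closure D).Nonempty := by
    obtain ⟨η, hη, -⟩ := hX.orbit 0
    exact ⟨_, subset_closure hη⟩
  have h1 : ∀ γ : Γ, γ ≠ 1 → ∃ c > 0, ∀ x ∈ closure D, c ≤ eu (Vx m x (γ • x)) := by
    intro γ hγ
    have hc : Continuous fun x : Pl => eu (Vx m x (γ • x)) :=
      H1p_eu_cont.comp ((Vx_smooth hX hm).continuous.comp
        (continuous_id.prodMk (hX.smooth γ).continuous))
    obtain ⟨x₀, -, hx₀⟩ := (H1p_cpt hX).exists_isMinOn hne hc.continuousOn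
    refine ⟨eu (Vx m x₀ (γ • x₀)), eu_Vx_pos hX hm fun h => hγ (H1p_free hX h.symm),
      fun x hx => hx₀ hx⟩
  have h2 : ∀ s : Finset Γ, ∃ c > 0, c ≤ 1 ∧ ∀ γ ∈ s, γ ≠ 1 → ∀ x ∈ closure D,
      c ≤ eu (Vx m x (γ • x)) := by
    intro s
    induction s using Finset.induction_on with
    | empty => exact ⟨1, one_pos, le_rfl, fun γ hγ => absurd hγ (Finset.notMem_empty γ)⟩
    | insert γ s _ ih =>
      obtain ⟨c, hc, hc1, hcs⟩ := ih
      by_cases hγ : γ = 1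
      · refine ⟨c, hc, hc1, fun δ hδ hδ1 => ?_⟩
        rcases Finset.mem_insert.1 hδ with rfl | h
        · exact absurd hγ hδ1
        · exact hcs δ h hδ1
      · obtain ⟨d, hd, hds⟩ := h1 γ hγ
        refine ⟨min c d, lt_min hc hd, (min_le_left _ _).trans hc1, fun δ hδ hδ1 x hx => ?_⟩
        rcases Finset.mem_insert.1 hδ with rfl | h
        · exact (min_le_right _ _).trans (hds x hx)
        · exact (min_le_left _ _).trans (hcs δ h hδ1 x hx)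
  obtain ⟨c, hc, hc1, hcS⟩ := h2 S
  have h3 : ∀ γ : Γ, γ ≠ 1 → ∀ x ∈ closure D, c ≤ eu (Vx m x (γ • x)) := by
    intro γ hγ x hx
    by_cases h : eu (Vx m x (γ • x)) ≤ 1
    · refine hcS γ ((hS γ).2 ⟨x, hK1 hx, ?_⟩) hγ x hx
      have h4 := hK2 x hx _ h
      rw [Ex_Vx hX hm] at h4
      exact h4
    · exact hc1.trans (not_le.1 h).le
  refine ⟨c, hc, fun γ hγ x => ?_⟩
  obtain ⟨η, hη, -⟩ := hX.orbit x
  have h5 := h3 (η * γ * η⁻¹) (by
    intro h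
    apply hγ
    exact conj_eq_one_iff.1 h) (η • x) (subset_closure hη)
  have h6 : (η * γ * η⁻¹) • η • x = η • γ • x := by
    rw [smul_smul, smul_smul, inv_mul_cancel_right]
  rw [h6, eu_Vx_deck hX hO hm] at h5
  exact h5

end BR
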