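import Pool.Agent.LibBR70.AB6

/-! Row AB8 (only Mathlib, cites AB5, AB6): the solution `ql` of `q'' + lam² q = g`.
Plan. `u * sinc (lam u) = ∫_0^u cos (lam s) ds` is smooth in `u`; `g` is smooth and vanishes beyond
`ρ`. Substitute `s = t + u`: `ql lam g t = ∫ s in t..ρ', (s - t) sinc (lam (s - t)) g s` with
`ρ' = max ρ t`, or differentiate under the integral sign (`g (t + u) = 0` for `u > ρ - t`;
locally in `t` the integral is over a fixed compact interval). `ql_deriv`: derivative in `t` of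
`g (t + u)` is the derivative in `u`: integrate by parts: `(ql)' t = ∫ u sinc(lam u) g'(t+u) du
= -∫ cos (lam u) g (t + u) du`, no boundary term. `ql_eq`: once more:
`(pl)' t = ∫ cos(lam u) g'(t+u) du = -g t + lam ∫ sin (lam u) g (t+u) du`, so
`q'' = -(pl)' = g - lam² q`. `pl_zero`: `g` even. `pl_bound`: `g = osc a τ`:
`cos (lam u) e^(-iτ(t+u))` is a sum of `e^(i(±lam - τ) u)`, integrate by parts once:
`|∫ e^(iκu) b(u) du| ≤ min((ρ+1) M, (2 (ρ + 1) M)/|κ|)`, `κ = lam - τ` or `-(lam + τ)`,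
`|κ| ≥ |lam - τ|` in both cases; `min(1, 1/x) ≤ 2 / (1 + x)`. -/

open Set Filter Topology MeasureTheory
open scoped ContDiff

namespace BR

theorem AB8_Ioi {E : Type} [NormedAddCommGroup E] [NormedSpace ℝ E] {F : ℝ → E} {R : ℝ}
    (h : ∀ u, R < u → F u = 0) (t : ℝ) : ∫ u in Ioi t, F u = ∫ u in t..R, F u := by
  rcases le_or_gt t R with ht | ht
  · rw [intervalIntegral.integral_of_le ht]
    refine setIntegral_eq_of_subset_of_forall_diff_eq_zero measurableSet_Ioi
      Ioc_subset_Ioi_self ?_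
    intro x hx
    apply h
    by_contra h'
    exact hx.2 ⟨hx.1, not_lt.1 h'⟩
  · have h1 : ∫ u in Ioi t, F u = 0 :=
      setIntegral_eq_zero_of_forall_eq_zero fun x hx => h x (ht.trans hx)
    have h2 : ∫ u in Ioc R t, F u = 0 :=
      setIntegral_eq_zero_of_forall_eq_zero fun x hx => h x hx.1
    rw [intervalIntegral.integral_symm, intervalIntegral.integral_of_le ht.le, h1, h2, neg_zero]

theorem AB8_shift {k g : ℝ → ℝ} {ρ : ℝ} (h : ∀ s, ρ < s → g s = 0) (t : ℝ) :
    ∫ u in Ioi (0 : ℝ), k u * g (t + u) = ∫ s in t..ρ, k (s - t) * g s := by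
  rw [AB8_Ioi (R := ρ - t) (fun u hu => by rw [h (t + u) (by linarith), mul_zero])]
  have h1 := intervalIntegral.integral_comp_add_left (a := 0) (b := ρ - t)
    (fun s => k (s - t) * g s) t
  rw [add_zero, add_sub_cancel] at h1
  rw [← h1]
  refine intervalIntegral.integral_congr fun u _ => ?_
  simp only [add_sub_cancel_left]

theorem AB8_I {φ : ℝ → ℝ} (hφ : Continuous φ) (ρ t : ℝ) :
    HasDerivAt (fun t => ∫ s in t..ρ, φ s) (-φ t) t :=
  intervalIntegral.integral_hasDerivAt_left (hφ.intervalIntegrable _ _)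
    (hφ.stronglyMeasurableAtFilter _ _) hφ.continuousAt

theorem AB8_smooth {φ : ℝ → ℝ} (hφ : ContDiff ℝ ∞ φ) (ρ : ℝ) :
    ContDiff ℝ ∞ (fun t => ∫ s in t..ρ, φ s) := by
  rw [contDiff_infty_iff_deriv]
  refine ⟨fun t => (AB8_I hφ.continuous ρ t).differentiableAt, ?_⟩
  have h1 : deriv (fun t => ∫ s in t..ρ, φ s) = fun t => -φ t :=
    funext fun t => (AB8_I hφ.continuous ρ t).deriv
  rw [h1]
  exact hφ.neg

theorem AB8_cos (lam : ℝ) : ContDiff ℝ ∞ fun s : ℝ => Real.cos (lam * s) :=
  Real.contDiff_cos.comp (contDiff_const.mul contDiff_id)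

theorem AB8_sin (lam : ℝ) : ContDiff ℝ ∞ fun s : ℝ => Real.sin (lam * s) :=
  Real.contDiff_sin.comp (contDiff_const.mul contDiff_id)

/-- the two coefficient functions -/
noncomputable def AB8C (lam : ℝ) (g : ℝ → ℝ) (ρ t : ℝ) : ℝ := ∫ s in t..ρ, Real.cos (lam * s) * g s

/-- the two coefficient functions -/
noncomputable def AB8S (lam : ℝ) (g : ℝ → ℝ) (ρ t : ℝ) : ℝ := ∫ s in t..ρ, Real.sin (lam * s) * g s

theorem AB8_pl {g : ℝ → ℝ} {ρ : ℝ} (h : Tl g ρ) (lam t : ℝ) :
    pl lam g t = Real.cos (lam * t) * AB8C lam g ρ t + Real.sin (lam * t) * AB8S lam g ρ t := by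
  unfold pl AB8C AB8S
  have c1 : Continuous fun s => Real.cos (lam * s) * g s :=
    (AB8_cos lam).continuous.mul h.smooth.continuous
  have c2 : Continuous fun s => Real.sin (lam * s) * g s :=
    (AB8_sin lam).continuous.mul h.smooth.continuous
  have d1 : Continuous fun s => Real.cos (lam * t) * (Real.cos (lam * s) * g s) :=
    continuous_const.mul c1
  have d2 : Continuous fun s => Real.sin (lam * t) * (Real.sin (lam * s) * g s) :=
    continuous_const.mul c2
  rw [AB8_shift (k := fun u => Real.cos (lam * u)) h.supp t,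
    ← intervalIntegral.integral_const_mul, ← intervalIntegral.integral_const_mul,
    ← intervalIntegral.integral_add (d1.intervalIntegrable _ _) (d2.intervalIntegrable _ _)]
  refine intervalIntegral.integral_congr fun s _ => ?_
  rw [mul_sub, Real.cos_sub]
  ring

theorem AB8_ql {g : ℝ → ℝ} {ρ : ℝ} (h : Tl g ρ) (lam t : ℝ) :
    lam * ql lam g t = Real.cos (lam * t) * AB8S lam g ρ t - Real.sin (lam * t) * AB8C lam g ρ t := by
  unfold ql AB8C AB8S
  have c1 : Continuous fun s => Real.cos (lam * s) * g s :=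
    (AB8_cos lam).continuous.mul h.smooth.continuous
  have c2 : Continuous fun s => Real.sin (lam * s) * g s :=
    (AB8_sin lam).continuous.mul h.smooth.continuous
  have d1 : Continuous fun s => Real.sin (lam * t) * (Real.cos (lam * s) * g s) :=
    continuous_const.mul c1
  have d2 : Continuous fun s => Real.cos (lam * t) * (Real.sin (lam * s) * g s) :=
    continuous_const.mul c2
  rw [AB8_shift (k := fun u => u * Real.sinc (lam * u)) h.supp t,
    ← intervalIntegral.integral_const_mul, ← intervalIntegral.integral_const_mul,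
    ← intervalIntegral.integral_const_mul,
    ← intervalIntegral.integral_sub (d2.intervalIntegrable _ _) (d1.intervalIntegrable _ _)]
  refine intervalIntegral.integral_congr fun s _ => ?_
  have e : lam * ((s - t) * Real.sinc (lam * (s - t))) = Real.sin (lam * (s - t)) := by
    by_cases h0 : lam * (s - t) = 0
    · rw [h0, Real.sinc_zero, Real.sin_zero, mul_one, h0]
    · rw [Real.sinc_of_ne_zero h0, ← mul_assoc, mul_div_cancel₀ _ h0]
  rw [← mul_assoc, e, mul_sub, Real.sin_sub]
  ring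

theorem AB8_ql0 {g : ℝ → ℝ} {ρ : ℝ} (h : Tl g ρ) (t : ℝ) :
    ql 0 g t = (∫ s in t..ρ, s * g s) - t * ∫ s in t..ρ, g s := by
  unfold ql
  have c1 : Continuous fun s => s * g s := continuous_id.mul h.smooth.continuous
  have c2 : Continuous fun s => t * g s := continuous_const.mul h.smooth.continuous
  rw [AB8_shift (k := fun u => u * Real.sinc (0 * u)) h.supp t,
    ← intervalIntegral.integral_const_mul,
    ← intervalIntegral.integral_sub (c1.intervalIntegrable _ _) (c2.intervalIntegrable _ _)]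
  refine intervalIntegral.integral_congr fun s _ => ?_
  rw [zero_mul, Real.sinc_zero]
  ring

theorem AB8_C' {g : ℝ → ℝ} {ρ : ℝ} (h : Tl g ρ) (lam t : ℝ) :
    HasDerivAt (AB8C lam g ρ) (-(Real.cos (lam * t) * g t)) t :=
  AB8_I ((AB8_cos lam).continuous.mul h.smooth.continuous) ρ t

theorem AB8_S' {g : ℝ → ℝ} {ρ : ℝ} (h : Tl g ρ) (lam t : ℝ) :
    HasDerivAt (AB8S lam g ρ) (-(Real.sin (lam * t) * g t)) t :=
  AB8_I ((AB8_sin lam).continuous.mul h.smooth.continuous) ρ t

theorem AB8_dcos (lam t : ℝ) :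
    HasDerivAt (fun s : ℝ => Real.cos (lam * s)) (-(lam * Real.sin (lam * t))) t := by
  have h1 := ((hasDerivAt_id t).const_mul lam).cos
  refine h1.congr_deriv ?_
  simp only [id_eq, mul_one]
  ring

theorem AB8_dsin (lam t : ℝ) :
    HasDerivAt (fun s : ℝ => Real.sin (lam * s)) (lam * Real.cos (lam * t)) t := by
  have h1 := ((hasDerivAt_id t).const_mul lam).sin
  refine h1.congr_deriv ?_
  simp only [id_eq, mul_one]
  ring

theorem AB8_pl' {g : ℝ → ℝ} {ρ : ℝ} (h : Tl g ρ) (lam t : ℝ) :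
    HasDerivAt (pl lam g) (-g t + lam ^ 2 * ql lam g t) t := by
  have e : pl lam g = fun t => Real.cos (lam * t) * AB8C lam g ρ t +
      Real.sin (lam * t) * AB8S lam g ρ t := funext fun t => AB8_pl h lam t
  rw [e]
  have h1 := ((AB8_dcos lam t).mul (AB8_C' h lam t)).add ((AB8_dsin lam t).mul (AB8_S' h lam t))
  refine h1.congr_deriv ?_
  have h2 := AB8_ql h lam t
  have h3 := Real.sin_sq_add_cos_sq (lam * t)
  have h4 : lam ^ 2 * ql lam g t = lam * (lam * ql lam g t) := by ring
  rw [h4, h2]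
  linear_combination (-(g t)) * h3

theorem AB8_ql' {g : ℝ → ℝ} {ρ : ℝ} (h : Tl g ρ) (lam t : ℝ) :
    HasDerivAt (ql lam g) (-(pl lam g t)) t := by
  by_cases hl : lam = 0
  · subst hl
    have e : ql 0 g = fun t => (∫ s in t..ρ, s * g s) - t * ∫ s in t..ρ, g s :=
      funext fun t => AB8_ql0 h t
    rw [e]
    have h1 := (AB8_I (continuous_id.mul h.smooth.continuous) ρ t).sub
      ((hasDerivAt_id t).mul (AB8_I h.smooth.continuous ρ t))
    refine h1.congr_deriv ?_
    rw [AB8_pl h 0 t]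
    unfold AB8C
    simp only [zero_mul, Real.cos_zero, Real.sin_zero, one_mul, add_zero, id_eq, Pi.mul_apply]
    ring
  · have e : ql lam g = fun t => (Real.cos (lam * t) * AB8S lam g ρ t -
        Real.sin (lam * t) * AB8C lam g ρ t) / lam := by
      funext t
      rw [← AB8_ql h lam t]
      field_simp
    rw [e]
    have h1 := (((AB8_dcos lam t).mul (AB8_S' h lam t)).sub
      ((AB8_dsin lam t).mul (AB8_C' h lam t))).div_const lam
    refine h1.congr_deriv ?_
    rw [AB8_pl h lam t]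
    field_simp
    ring

theorem AB8_ql_smooth {g : ℝ → ℝ} {ρ : ℝ} (h : Tl g ρ) (lam : ℝ) : ContDiff ℝ ∞ (ql lam g) := by
  by_cases hl : lam = 0
  · subst hl
    have e : ql 0 g = fun t => (∫ s in t..ρ, s * g s) - t * ∫ s in t..ρ, g s :=
      funext fun t => AB8_ql0 h t
    rw [e]
    exact (AB8_smooth (contDiff_id.mul h.smooth) ρ).sub
      (contDiff_id.mul (AB8_smooth h.smooth ρ))
  · have e : ql lam g = fun t => (Real.cos (lam * t) * AB8S lam g ρ t -
        Real.sin (lam * t) * AB8C lam g ρ t) / lam := by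
      funext t
      rw [← AB8_ql h lam t]
      field_simp
    rw [e]
    exact (((AB8_cos lam).mul (AB8_smooth ((AB8_sin lam).mul h.smooth) ρ)).sub
      ((AB8_sin lam).mul (AB8_smooth ((AB8_cos lam).mul h.smooth) ρ))).div_const lam

theorem ql_Tl {g : ℝ → ℝ} {ρ : ℝ} (h : Tl g ρ) (lam : ℝ) : Tl (ql lam g) ρ := by
  refine ⟨AB8_ql_smooth h lam, fun t ht => ?_⟩
  unfold ql
  refine setIntegral_eq_zero_of_forall_eq_zero fun u hu => ?_
  have hu0 : (0 : ℝ) < u := hu
  rw [h.supp (t + u) (by linarith), mul_zero]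

theorem ql_deriv {g : ℝ → ℝ} {ρ : ℝ} (h : Tl g ρ) (lam t : ℝ) :
    deriv (ql lam g) t = -(pl lam g t) :=
  (AB8_ql' h lam t).deriv

theorem ql_eq {g : ℝ → ℝ} {ρ : ℝ} (h : Tl g ρ) (lam t : ℝ) :
    deriv (deriv (ql lam g)) t + lam ^ 2 * ql lam g t = g t := by
  have e : deriv (ql lam g) = fun t => -(pl lam g t) := funext fun t => ql_deriv h lam t
  have e2 : deriv (fun t => -(pl lam g t)) t = -(-g t + lam ^ 2 * ql lam g t) :=
    ((AB8_pl' h lam t).neg).deriv
  rw [e, e2]
  ring

theorem pl_zero {g : ℝ → ℝ} {ρ : ℝ} (h : Tl g ρ) (he : ∀ t, g (-t) = g t) (lam : ℝ) :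
    2 * pl lam g 0 = ∫ t : ℝ, g t * Real.cos (lam * t) := by
  have h1 := integral_comp_abs (f := fun t => g t * Real.cos (lam * t))
  have h2 : ∀ t : ℝ, g |t| * Real.cos (lam * |t|) = g t * Real.cos (lam * t) := by
    intro t
    rcases le_total 0 t with ht | ht
    · rw [abs_of_nonneg ht]
    · rw [abs_of_nonpos ht, he, mul_neg, Real.cos_neg]
  simp only [h2] at h1
  rw [h1]
  unfold pl
  congr 1
  refine setIntegral_congr_fun measurableSet_Ioi fun u _ => ?_
  simp only [zero_add]
  ring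

/-- oscillating integral -/
noncomputable def AB8E (a : ℝ → ℂ) (ρ t κ : ℝ) : ℂ :=
  ∫ u in (0 : ℝ)..ρ, Complex.exp (Complex.I * κ * u) * a (t + u)

theorem AB8_norm (κ u : ℝ) : ‖Complex.exp (Complex.I * κ * u)‖ = 1 := by
  have h : Complex.I * κ * u = ((κ * u : ℝ) : ℂ) * Complex.I := by
    push_cast
    ring
  rw [h]
  exact Complex.norm_exp_ofReal_mul_I _

theorem AB8_E_bound {a : ℝ → ℂ} {ρ M t : ℝ} (hρ : 0 ≤ ρ) (ha : Amp a ρ M) (κ : ℝ) :
    (1 + |κ|) * ‖AB8E a ρ t κ‖ ≤ 3 * M * (ρ + 1) := by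
  have hb0 : ∀ s, ‖a s‖ ≤ M := fun s => by
    have := ha.bound 0 (by norm_num) s
    rwa [iteratedDeriv_zero] at this
  have hb1 : ∀ s, ‖deriv a s‖ ≤ M := fun s => by
    have := ha.bound 1 (by norm_num) s
    rwa [iteratedDeriv_one] at this
  have hM : 0 ≤ M := (norm_nonneg _).trans (hb0 0)
  have hda : ∀ s, HasDerivAt a (deriv a s) s := fun s =>
    (ha.smooth.differentiable (by simp) s).hasDerivAt
  have hac : Continuous a := ha.smooth.continuous
  have hdc : Continuous (deriv a) := ha.smooth.continuous_deriv (by simp)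
  have hec : Continuous fun u : ℝ => Complex.exp (Complex.I * κ * u) := by fun_prop
  have hsc : Continuous fun u : ℝ => t + u := by fun_prop
  have i1 : Continuous fun u : ℝ => Complex.exp (Complex.I * κ * u) * a (t + u) :=
    hec.mul (hac.comp hsc)
  have i2 : Continuous fun u : ℝ => Complex.exp (Complex.I * κ * u) * deriv a (t + u) :=
    hec.mul (hdc.comp hsc)
  have h1 : ‖AB8E a ρ t κ‖ ≤ M * ρ := by
    have := intervalIntegral.norm_integral_le_of_norm_le_const (a := 0) (b := ρ) (C := M)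
      (f := fun u : ℝ => Complex.exp (Complex.I * κ * u) * a (t + u)) (fun u _ => by
        rw [norm_mul, AB8_norm, one_mul]
        exact hb0 _)
    rwa [sub_zero, abs_of_nonneg hρ] at this
  have h2 : ‖∫ u in (0 : ℝ)..ρ, Complex.exp (Complex.I * κ * u) * deriv a (t + u)‖ ≤ M * ρ := by
    have := intervalIntegral.norm_integral_le_of_norm_le_const (a := 0) (b := ρ) (C := M)
      (f := fun u : ℝ => Complex.exp (Complex.I * κ * u) * deriv a (t + u)) (fun u _ => by
        rw [norm_mul, AB8_norm, one_mul]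
        exact hb1 _)
    rwa [sub_zero, abs_of_nonneg hρ] at this
  have hd : ∀ u : ℝ, HasDerivAt (fun u : ℝ => Complex.exp (Complex.I * κ * u) * a (t + u))
      (Complex.I * κ * (Complex.exp (Complex.I * κ * u) * a (t + u)) +
        Complex.exp (Complex.I * κ * u) * deriv a (t + u)) u := by
    intro u
    have e1 : HasDerivAt (fun u : ℝ => Complex.I * κ * (u : ℂ)) (Complex.I * κ) u := by
      have := (Complex.ofRealCLM.hasDerivAt (x := u)).const_mul (Complex.I * κ)
      simpa using this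
    have e2 := e1.cexp
    have e3 : HasDerivAt (fun u : ℝ => a (t + u)) (deriv a (t + u)) u := by
      have := (hda (t + u)).scomp u ((hasDerivAt_id u).const_add t)
      rw [one_smul] at this
      exact this
    refine (e2.mul e3).congr_deriv ?_
    ring
  have i3 : Continuous fun u : ℝ => Complex.I * κ * (Complex.exp (Complex.I * κ * u) * a (t + u)) :=
    continuous_const.mul i1
  have h3 := intervalIntegral.integral_eq_sub_of_hasDerivAt (a := 0) (b := ρ)
    (fun u _ => hd u) ((i3.add i2).intervalIntegrable _ _)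
  rw [intervalIntegral.integral_add (i3.intervalIntegrable _ _)
    (i2.intervalIntegrable _ _), intervalIntegral.integral_const_mul] at h3
  have h4 : Complex.I * κ * AB8E a ρ t κ =
      (Complex.exp (Complex.I * κ * ρ) * a (t + ρ) -
        Complex.exp (Complex.I * κ * (0 : ℝ)) * a (t + 0)) -
      ∫ u in (0 : ℝ)..ρ, Complex.exp (Complex.I * κ * u) * deriv a (t + u) := by
    rw [← h3]
    unfold AB8E
    ring
  have h5 : |κ| * ‖AB8E a ρ t κ‖ ≤ M + M + M * ρ := by
    have e : |κ| * ‖AB8E a ρ t κ‖ = ‖Complex.I * κ * AB8E a ρ t κ‖ := by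
      rw [norm_mul, norm_mul, Complex.norm_I, one_mul, Complex.norm_real, Real.norm_eq_abs]
    rw [e, h4]
    refine (norm_sub_le _ _).trans (add_le_add ((norm_sub_le _ _).trans (add_le_add ?_ ?_)) h2)
    · rw [norm_mul, AB8_norm, one_mul]
      exact hb0 _
    · rw [norm_mul, AB8_norm, one_mul]
      exact hb0 _
  nlinarith

theorem AB8_pl_eq {a : ℝ → ℂ} {ρ M : ℝ} (ha : Amp a ρ M) (τ lam t : ℝ) (ht : 0 ≤ t) :
    pl lam (osc a τ) t = (Complex.exp (-(Complex.I * τ * t)) / 2 *
      (AB8E a ρ t (lam - τ) + AB8E a ρ t (-lam - τ))).re := by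
  have hsupp : ∀ u, ρ < u → Real.cos (lam * u) * osc a τ (t + u) = 0 := by
    intro u hu
    unfold osc
    have hu2 : ρ < |t + u| := lt_of_lt_of_le (by linarith) (le_abs_self _)
    rw [ha.supp (t + u) hu2]
    simp
  unfold pl
  rw [AB8_Ioi hsupp]
  have hac : Continuous a := ha.smooth.continuous
  have hsc : Continuous fun u : ℝ => t + u := by fun_prop
  have hc : ∀ κ : ℝ, Continuous fun u : ℝ => Complex.exp (Complex.I * κ * u) * a (t + u) := by
    intro κ
    have hec : Continuous fun u : ℝ => Complex.exp (Complex.I * κ * u) := by fun_prop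
    exact hec.mul (hac.comp hsc)
  unfold AB8E
  rw [← intervalIntegral.integral_add ((hc _).intervalIntegrable _ _)
    ((hc _).intervalIntegrable _ _), ← intervalIntegral.integral_const_mul]
  have hcc : Continuous fun u : ℝ => Complex.exp (-(Complex.I * τ * t)) / 2 *
      (Complex.exp (Complex.I * ((lam - τ : ℝ) : ℂ) * u) * a (t + u) +
        Complex.exp (Complex.I * ((-lam - τ : ℝ) : ℂ) * u) * a (t + u)) :=
    continuous_const.mul ((hc _).add (hc _))
  have h1 := Complex.reCLM.intervalIntegral_comp_comm (μ := volume)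
    (hcc.intervalIntegrable 0 ρ)
  have h2 : ∀ z : ℂ, Complex.reCLM z = z.re := fun _ => rfl
  rw [h2] at h1
  rw [← h1]
  refine intervalIntegral.integral_congr fun u _ => ?_
  simp only [h2]
  unfold osc
  have h3 : (Real.cos (lam * u) : ℂ) = (Complex.exp (Complex.I * lam * u) +
      Complex.exp (-(Complex.I * lam * u))) / 2 := by
    rw [Complex.ofReal_cos, Complex.cos]
    push_cast
    congr 2
    · congr 1
      ring
    · congr 1
      ring
  have h4 : Real.cos (lam * u) * (Complex.exp (-(Complex.I * τ * ((t + u : ℝ) : ℂ))) * a (t + u)).re =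
      ((Real.cos (lam * u) : ℂ) *
        (Complex.exp (-(Complex.I * τ * ((t + u : ℝ) : ℂ))) * a (t + u))).re := by
    rw [Complex.re_ofReal_mul]
  rw [h4, h3]
  congr 1
  have e1 : Complex.exp (Complex.I * ((lam - τ : ℝ) : ℂ) * u) =
      Complex.exp (Complex.I * lam * u) * Complex.exp (-(Complex.I * τ * u)) := by
    rw [← Complex.exp_add]
    congr 1
    push_cast
    ring
  have e2 : Complex.exp (Complex.I * ((-lam - τ : ℝ) : ℂ) * u) =
      Complex.exp (-(Complex.I * lam * u)) * Complex.exp (-(Complex.I * τ * u)) := by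
    rw [← Complex.exp_add]
    congr 1
    push_cast
    ring
  have e3 : Complex.exp (-(Complex.I * τ * ((t + u : ℝ) : ℂ))) =
      Complex.exp (-(Complex.I * τ * t)) * Complex.exp (-(Complex.I * τ * u)) := by
    rw [← Complex.exp_add]
    congr 1
    push_cast
    ring
  rw [e1, e2, e3]
  ring

theorem pl_bound : ∃ C : ℝ, ∀ (a : ℝ → ℂ) (ρ M τ lam t : ℝ), 0 ≤ ρ → Amp a ρ M → 1 ≤ τ →
    0 ≤ lam → 0 ≤ t → |pl lam (osc a τ) t| ≤ C * M * (ρ + 1) / (1 + |lam - τ|) := by
  refine ⟨3, fun a ρ M τ lam t hρ ha hτ hlam ht => ?_⟩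
  rw [AB8_pl_eq ha τ lam t ht]
  have h1 := AB8_E_bound (t := t) hρ ha (lam - τ)
  have h2 := AB8_E_bound (t := t) hρ ha (-lam - τ)
  have h3 : |lam - τ| ≤ |-lam - τ| := by
    rw [abs_of_nonpos (show -lam - τ ≤ 0 by linarith)]
    rw [abs_le]
    constructor <;> linarith
  have h4 : (1 + |lam - τ|) * ‖AB8E a ρ t (-lam - τ)‖ ≤ 3 * M * (ρ + 1) :=
    (mul_le_mul_of_nonneg_right (by linarith) (norm_nonneg _)).trans h2
  have h5 : 0 < 1 + |lam - τ| := by positivity
  rw [le_div_iff₀ h5]
  have h6 : |(Complex.exp (-(Complex.I * τ * t)) / 2 *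
      (AB8E a ρ t (lam - τ) + AB8E a ρ t (-lam - τ))).re| ≤
        1 / 2 * (‖AB8E a ρ t (lam - τ)‖ + ‖AB8E a ρ t (-lam - τ)‖) := by
    refine (Complex.abs_re_le_norm _).trans ?_
    rw [norm_mul, norm_div]
    have e1 : ‖Complex.exp (-(Complex.I * τ * t))‖ = 1 := by
      have e : -(Complex.I * τ * t) = Complex.I * ((-τ : ℝ) : ℂ) * t := by
        push_cast
        ring
      rw [e]
      exact AB8_norm _ _
    have e2 : ‖(2 : ℂ)‖ = 2 := by simp
    rw [e1, e2]
    exact mul_le_mul_of_nonneg_left (norm_add_le _ _) (by norm_num)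
  calc _ ≤ 1 / 2 * (‖AB8E a ρ t (lam - τ)‖ + ‖AB8E a ρ t (-lam - τ)‖) * (1 + |lam - τ|) :=
        mul_le_mul_of_nonneg_right h6 h5.le
    _ ≤ 3 * M * (ρ + 1) := by nlinarith

end BR
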