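import Pool.Agent.LibBR70.AB5
import Pool.Agent.LibBR70.AB6
import Pool.Agent.LibBR70.AB8

/-! Row AB9 (only Mathlib, cites AB5, AB6, AB8): crude bounds.
Plan. `Ab_crude`: by `Ab_eq`, `|Ab j q σ| ≤ c ∫_{√σ}^ρ |q' t| (t² - σ)^(j-1/2) dt`; for `j ≥ 1` the
integrand is at most `S ρ^(2j-1)`, where `S` bounds `|q'|` on `[0, ρ]`. (`q' = 0` beyond `ρ`.)
`Ab_crude0`: `g = osc a τ` is even, so `g' 0 = 0` and `|g' t| ≤ t sup |g''| ≤ 4 M τ² t`; then
`∫_r^ρ t (t² - r²)^(-1/2) dt = √(ρ² - r²)`. For `j ≥ 1` use `Ab_osc` or `Ab_crude`. -/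

open Set Filter Topology MeasureTheory
open scoped ContDiff

namespace BR

private theorem AB9_deriv_zero {q : ℝ → ℝ} {ρ : ℝ} (h : Tl q ρ) {t : ℝ} (ht : ρ < t) :
    deriv q t = 0 := by
  have h1 : q =ᶠ[𝓝 t] fun _ => (0 : ℝ) := by
    filter_upwards [Ioi_mem_nhds ht] with s hs
    exact h.supp s hs
  rw [h1.deriv_eq, deriv_const]

private theorem AB9_c_nonneg (j : ℕ) : 0 ≤ 1 / (√Real.pi * Real.Gamma ((j : ℝ) + 1 / 2)) := by
  have h1 : 0 < Real.Gamma ((j : ℝ) + 1 / 2) := Real.Gamma_pos_of_pos (by positivity)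
  positivity

/-- the norm of the integral is at most the integral of a bound supported in `(√σ, ρ]` -/
private theorem AB9_int {f g : ℝ → ℝ} {r ρ B : ℝ} (hf : ∀ t, r < t → t ≤ ρ → |f t| ≤ g t)
    (hf0 : ∀ t, ρ < t → f t = 0) (hg : IntegrableOn g (Ioc r ρ))
    (hB : ∫ t in Ioc r ρ, g t ≤ B) : |∫ t in Ioi r, f t| ≤ B := by
  have hm : MeasurableSet (Ioc r ρ) := measurableSet_Ioc
  have h1 : ‖∫ t in Ioi r, f t‖ ≤ ∫ t in Ioi r, (Ioc r ρ).indicator g t := by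
    refine norm_integral_le_of_norm_le ?_ ?_
    · exact (hg.integrable_indicator hm).integrableOn
    · refine (ae_restrict_iff' measurableSet_Ioi).2 (ae_of_all _ fun t ht => ?_)
      by_cases h2 : t ≤ ρ
      · rw [indicator_of_mem (show t ∈ Ioc r ρ from ⟨ht, h2⟩), Real.norm_eq_abs]
        exact hf t ht h2
      · rw [indicator_of_notMem (fun h3 : t ∈ Ioc r ρ => h2 h3.2), hf0 t (not_le.1 h2), norm_zero]
  have h2 : ∫ t in Ioi r, (Ioc r ρ).indicator g t = ∫ t in Ioc r ρ, g t := by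
    rw [setIntegral_indicator hm]
    congr 2
    ext t
    exact ⟨fun h => h.2, fun h => ⟨h.1, h⟩⟩
  rw [h2] at h1
  exact h1.trans hB

theorem Ab_crude (j : ℕ) (hj : 1 ≤ j) : ∃ C : ℝ, ∀ (q : ℝ → ℝ) (ρ S σ : ℝ), 0 ≤ ρ → Tl q ρ →
    (∀ t, 0 ≤ t → |deriv q t| ≤ S) → 0 ≤ σ → |Ab j q σ| ≤ C * S * ρ ^ (2 * j) := by
  refine ⟨1 / (√Real.pi * Real.Gamma ((j : ℝ) + 1 / 2)), fun q ρ S σ hρ hq hS hσ => ?_⟩
  have hS0 : 0 ≤ S := (abs_nonneg _).trans (hS 0 le_rfl)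
  have hc := AB9_c_nonneg j
  have hj' : (1 : ℝ) ≤ j := by exact_mod_cast hj
  have he : 0 ≤ (j : ℝ) - 1 / 2 := by linarith
  have hr : 0 ≤ √σ := Real.sqrt_nonneg σ
  have hmain : |∫ t in Ioi (√σ), deriv q t * (t ^ 2 - σ) ^ ((j : ℝ) - 1 / 2)| ≤
      S * ρ ^ (2 * j) := by
    refine AB9_int (ρ := ρ) (g := fun _ => S * (ρ ^ 2) ^ ((j : ℝ) - 1 / 2)) ?_ ?_ ?_ ?_
    · intro t ht1 ht2
      have ht0 : 0 ≤ t := hr.trans ht1.le
      have h1 : 0 ≤ t ^ 2 - σ := by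
        have h2 : √σ ^ 2 ≤ t ^ 2 := pow_le_pow_left₀ hr ht1.le 2
        rw [Real.sq_sqrt hσ] at h2
        linarith
      have h2 : t ^ 2 - σ ≤ ρ ^ 2 := by
        have := pow_le_pow_left₀ ht0 ht2 2
        linarith
      rw [abs_mul, abs_of_nonneg (Real.rpow_nonneg h1 _)]
      exact mul_le_mul (hS t ht0) (Real.rpow_le_rpow h1 h2 he) (Real.rpow_nonneg h1 _) hS0
    · intro t ht
      rw [AB9_deriv_zero hq ht, zero_mul]
    · exact continuous_const.integrableOn_Ioc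
    · rw [setIntegral_const, smul_eq_mul, measureReal_def, Real.volume_Ioc]
      have h1 : (ENNReal.ofReal (ρ - √σ)).toReal ≤ ρ := by
        rw [ENNReal.toReal_ofReal']
        exact max_le (by linarith) hρ
      have h2 : 0 ≤ (ρ ^ 2) ^ ((j : ℝ) - 1 / 2) := Real.rpow_nonneg (sq_nonneg ρ) _
      have h3 : ρ * (ρ ^ 2) ^ ((j : ℝ) - 1 / 2) = ρ ^ (2 * j) := by
        have h4 : ρ = (ρ ^ 2) ^ ((1 : ℝ) / 2) := by
          rw [← Real.sqrt_eq_rpow, Real.sqrt_sq hρ]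
        have h5 : (ρ ^ 2) ^ ((1 : ℝ) / 2) * (ρ ^ 2) ^ ((j : ℝ) - 1 / 2) = ρ ^ (2 * j) := by
          rw [← Real.rpow_add_of_nonneg (sq_nonneg ρ) (by norm_num) he]
          have h6 : (1 : ℝ) / 2 + ((j : ℝ) - 1 / 2) = j := by ring
          rw [h6, Real.rpow_natCast, ← pow_mul]
        rw [← h4] at h5
        exact h5
      calc (ENNReal.ofReal (ρ - √σ)).toReal * (S * (ρ ^ 2) ^ ((j : ℝ) - 1 / 2))
          ≤ ρ * (S * (ρ ^ 2) ^ ((j : ℝ) - 1 / 2)) :=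
            mul_le_mul_of_nonneg_right h1 (mul_nonneg hS0 h2)
        _ = S * ρ ^ (2 * j) := by rw [← h3]; ring
  rw [Ab_eq hρ hq j hσ, abs_neg, abs_mul, abs_of_nonneg hc, mul_assoc]
  exact mul_le_mul_of_nonneg_left hmain hc

private theorem AB9_exp (τ : ℝ) {b : ℝ → ℂ} {b' : ℂ} {t : ℝ} (hb : HasDerivAt b b' t) :
    HasDerivAt (fun t : ℝ => Complex.exp (-(Complex.I * τ * t)) * b t)
      (Complex.exp (-(Complex.I * τ * t)) * (b' - Complex.I * τ * b t)) t := by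
  have h1 : HasDerivAt (fun t : ℝ => ((t : ℝ) : ℂ)) 1 t := Complex.ofRealCLM.hasDerivAt
  have h2 : HasDerivAt (fun t : ℝ => -(Complex.I * τ * t)) (-(Complex.I * τ)) t := by
    have h3 := (h1.const_mul (Complex.I * τ)).neg
    rwa [mul_one] at h3
  refine (h2.cexp.mul hb).congr_deriv ?_
  ring

private theorem AB9_norm (τ t : ℝ) : ‖Complex.exp (-(Complex.I * τ * t))‖ = 1 := by
  have h1 : -(Complex.I * τ * t) = ((-(τ * t) : ℝ) : ℂ) * Complex.I := by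
    push_cast
    ring
  rw [h1, Complex.norm_exp_ofReal_mul_I]

private theorem AB9_re {F : ℝ → ℂ} {F' : ℂ} {t : ℝ} (h : HasDerivAt F F' t) :
    HasDerivAt (fun t => (F t).re) F'.re t :=
  Complex.reCLM.hasFDerivAt.comp_hasDerivAt t h

private theorem AB9_d {a : ℝ → ℂ} {ρ M : ℝ} (ha : Amp a ρ M) (τ : ℝ) :
    (∀ t : ℝ, HasDerivAt (osc a τ)
      (Complex.exp (-(Complex.I * τ * t)) * (deriv a t - Complex.I * τ * a t)).re t) ∧
    ∀ t : ℝ, HasDerivAt (deriv (osc a τ))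
      (Complex.exp (-(Complex.I * τ * t)) * (deriv (deriv a) t - Complex.I * τ * deriv a t -
        Complex.I * τ * (deriv a t - Complex.I * τ * a t))).re t := by
  have hd0 : ∀ t, HasDerivAt a (deriv a t) t := fun t =>
    ((ha.smooth.differentiable (by simp)) t).hasDerivAt
  have hs1 : ContDiff ℝ ∞ (deriv a) := (contDiff_infty_iff_deriv.1 ha.smooth).2
  have hd1 : ∀ t, HasDerivAt (deriv a) (deriv (deriv a) t) t := fun t =>
    ((hs1.differentiable (by simp)) t).hasDerivAt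
  have h1 : ∀ t : ℝ, HasDerivAt (osc a τ)
      (Complex.exp (-(Complex.I * τ * t)) * (deriv a t - Complex.I * τ * a t)).re t := fun t =>
    AB9_re (AB9_exp τ (hd0 t))
  refine ⟨h1, fun t => ?_⟩
  have h2 : deriv (osc a τ) = fun t : ℝ =>
      (Complex.exp (-(Complex.I * τ * t)) * (deriv a t - Complex.I * τ * a t)).re :=
    funext fun t => (h1 t).deriv
  rw [h2]
  exact AB9_re (AB9_exp τ ((hd1 t).sub ((hd0 t).const_mul (Complex.I * τ))))

private theorem AB9_M {a : ℝ → ℂ} {ρ M : ℝ} (ha : Amp a ρ M) (t : ℝ) :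
    ‖a t‖ ≤ M ∧ ‖deriv a t‖ ≤ M ∧ ‖deriv (deriv a) t‖ ≤ M := by
  have h0 := ha.bound 0 (by norm_num) t
  have h1 := ha.bound 1 (by norm_num) t
  have h2 := ha.bound 2 (by norm_num) t
  rw [iteratedDeriv_zero] at h0
  rw [iteratedDeriv_one] at h1
  rw [iteratedDeriv_succ, iteratedDeriv_one] at h2
  exact ⟨h0, h1, h2⟩

private theorem AB9_two {a : ℝ → ℂ} {ρ M τ : ℝ} (ha : Amp a ρ M) (hτ : 1 ≤ τ) (t : ℝ) :
    |deriv (deriv (osc a τ)) t| ≤ 4 * M * τ ^ 2 := by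
  obtain ⟨h0, h1, h2⟩ := AB9_M ha t
  have hM : 0 ≤ M := (norm_nonneg _).trans h0
  have hτ0 : 0 ≤ τ := by linarith
  rw [((AB9_d ha τ).2 t).deriv]
  refine (Complex.abs_re_le_norm _).trans ?_
  rw [norm_mul, AB9_norm, one_mul]
  have hI : ∀ w : ℂ, ‖Complex.I * τ * w‖ = τ * ‖w‖ := by
    intro w
    rw [norm_mul, norm_mul, Complex.norm_I, one_mul, Complex.norm_real, Real.norm_eq_abs,
      abs_of_nonneg hτ0]
  have h3 : ‖deriv a t - Complex.I * τ * a t‖ ≤ M + τ * M := by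
    refine (norm_sub_le _ _).trans ?_
    rw [hI]
    exact add_le_add h1 (mul_le_mul_of_nonneg_left h0 hτ0)
  have h4 : ‖deriv (deriv a) t - Complex.I * τ * deriv a t‖ ≤ M + τ * M := by
    refine (norm_sub_le _ _).trans ?_
    rw [hI]
    exact add_le_add h2 (mul_le_mul_of_nonneg_left h1 hτ0)
  refine (norm_sub_le _ _).trans ?_
  rw [hI]
  have h5 := add_le_add h4 (mul_le_mul_of_nonneg_left h3 hτ0)
  refine h5.trans ?_
  have h6 : M + τ * M + τ * (M + τ * M) = M * (1 + τ) ^ 2 := by ring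
  rw [h6]
  have h7 : (1 + τ) ^ 2 ≤ (2 * τ) ^ 2 := pow_le_pow_left₀ (by linarith) (by linarith) 2
  nlinarith [mul_le_mul_of_nonneg_left h7 hM]

private theorem AB9_zero {a : ℝ → ℂ} {ρ M : ℝ} (ha : Amp a ρ M) (τ : ℝ) :
    deriv (osc a τ) 0 = 0 := by
  have h1 : (fun t => osc a τ (-t)) = osc a τ := funext fun t => osc_even ha τ t
  have h2 := deriv_comp_neg (osc a τ) 0
  rw [h1, neg_zero] at h2
  linarith

private theorem AB9_one {a : ℝ → ℂ} {ρ M τ : ℝ} (ha : Amp a ρ M) (hτ : 1 ≤ τ) {t : ℝ}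
    (ht : 0 ≤ t) : |deriv (osc a τ) t| ≤ 4 * M * τ ^ 2 * t := by
  have h1 := (convex_univ (𝕜 := ℝ) (E := ℝ)).norm_image_sub_le_of_norm_hasDerivWithin_le
    (f := deriv (osc a τ)) (f' := deriv (deriv (osc a τ))) (C := 4 * M * τ ^ 2)
    (x := 0) (y := t) (fun x _ => by
      have h2 := (AB9_d ha τ).2 x
      rw [← h2.deriv] at h2
      exact h2.hasDerivWithinAt) (fun x _ => by
      rw [Real.norm_eq_abs]
      exact AB9_two ha hτ x) (mem_univ _) (mem_univ _)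
  rw [AB9_zero ha τ, sub_zero, sub_zero, Real.norm_eq_abs, Real.norm_eq_abs,
    abs_of_nonneg ht] at h1
  exact h1

private theorem AB9_Tl {a : ℝ → ℂ} {ρ M : ℝ} (ha : Amp a ρ M) (τ : ℝ) : Tl (osc a τ) ρ := by
  refine ⟨osc_smooth ha τ, fun t ht => ?_⟩
  unfold osc
  rw [ha.supp t (ht.trans_le (le_abs_self t)), mul_zero, Complex.zero_re]

/-- the integral of `t (t² - σ)^(-1/2)` -/
private theorem AB9_sqrt {σ ρ : ℝ} (hσ : 0 ≤ σ) (hρ : 0 ≤ ρ) :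
    IntegrableOn (fun t => t * (t ^ 2 - σ) ^ (((0 : ℕ) : ℝ) - 1 / 2)) (Ioc (√σ) ρ) ∧
      ∫ t in Ioc (√σ) ρ, t * (t ^ 2 - σ) ^ (((0 : ℕ) : ℝ) - 1 / 2) ≤ ρ := by
  rcases le_or_gt (√σ) ρ with h | h
  · have hr : 0 ≤ √σ := Real.sqrt_nonneg σ
    have hcont : ContinuousOn (fun t : ℝ => √(t ^ 2 - σ)) (Icc (√σ) ρ) :=
      (((continuous_id.pow 2).sub continuous_const).sqrt).continuousOn
    have hpos : ∀ t, √σ < t → 0 < t ^ 2 - σ := by
      intro t ht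
      have h2 : √σ ^ 2 < t ^ 2 := pow_lt_pow_left₀ ht hr two_ne_zero
      rw [Real.sq_sqrt hσ] at h2
      linarith
    have hd : ∀ t ∈ Ioo (√σ) ρ, HasDerivAt (fun t : ℝ => √(t ^ 2 - σ))
        (t * (t ^ 2 - σ) ^ (((0 : ℕ) : ℝ) - 1 / 2)) t := by
      intro t ht
      have h1 := hpos t ht.1
      have h2 : HasDerivAt (fun t : ℝ => t ^ 2 - σ) (2 * t) t := by
        have h3 := (hasDerivAt_pow 2 t).sub_const σ
        simpa using h3
      refine (h2.sqrt h1.ne').congr_deriv ?_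
      have h3 : (t ^ 2 - σ) ^ (((0 : ℕ) : ℝ) - 1 / 2) = (√(t ^ 2 - σ))⁻¹ := by
        rw [Real.sqrt_eq_rpow, ← Real.rpow_neg h1.le]
        congr 1
        norm_num
      rw [h3]
      have h4 : √(t ^ 2 - σ) ≠ 0 := (Real.sqrt_pos.2 h1).ne'
      field_simp
    have hint : IntegrableOn (fun t => t * (t ^ 2 - σ) ^ (((0 : ℕ) : ℝ) - 1 / 2))
        (Ioc (√σ) ρ) := by
      refine intervalIntegral.integrableOn_deriv_of_nonneg hcont hd fun t ht => ?_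
      exact mul_nonneg (hr.trans ht.1.le) (Real.rpow_nonneg (hpos t ht.1).le _)
    refine ⟨hint, ?_⟩
    rw [← intervalIntegral.integral_of_le h,
      intervalIntegral.integral_eq_sub_of_hasDerivAt_of_le h hcont hd
        ((intervalIntegrable_iff_integrableOn_Ioc_of_le h).2 hint)]
    have h1 : √(ρ ^ 2 - σ) ≤ ρ := by
      rw [Real.sqrt_le_left hρ]
      linarith
    have h2 : 0 ≤ √(√σ ^ 2 - σ) := Real.sqrt_nonneg _
    linarith
  · rw [Ioc_eq_empty (not_lt.2 h.le)]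
    exact ⟨integrableOn_empty, by rw [setIntegral_empty]; exact hρ⟩

theorem Ab_crude0 (j : ℕ) : ∃ C : ℝ, ∀ (a : ℝ → ℂ) (ρ M τ σ : ℝ), 0 ≤ ρ → Amp a ρ M → 1 ≤ τ →
    0 ≤ σ → |Ab j (osc a τ) σ| ≤ C * M * (ρ + 1) ^ (2 * j + 1) * τ ^ 2 := by
  rcases Nat.eq_zero_or_pos j with rfl | hj
  · set c : ℝ := 1 / (√Real.pi * Real.Gamma (((0 : ℕ) : ℝ) + 1 / 2)) with hc
    have hc0 : 0 ≤ c := AB9_c_nonneg 0
    refine ⟨4 * c, fun a ρ M τ σ hρ ha hτ hσ => ?_⟩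
    have hM : 0 ≤ M := (norm_nonneg _).trans (AB9_M ha 0).1
    have hr : 0 ≤ √σ := Real.sqrt_nonneg σ
    obtain ⟨h1, h2⟩ := AB9_sqrt hσ hρ
    have hB : 0 ≤ 4 * M * τ ^ 2 := by positivity
    have hmain : |∫ t in Ioi (√σ), deriv (osc a τ) t *
        (t ^ 2 - σ) ^ (((0 : ℕ) : ℝ) - 1 / 2)| ≤ 4 * M * τ ^ 2 * ρ := by
      refine AB9_int (ρ := ρ)
        (g := fun t => 4 * M * τ ^ 2 * (t * (t ^ 2 - σ) ^ (((0 : ℕ) : ℝ) - 1 / 2))) ?_ ?_ ?_ ?_
      · intro t ht1 ht2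
        have ht0 : 0 ≤ t := hr.trans ht1.le
        have h3 : 0 ≤ t ^ 2 - σ := by
          have h4 : √σ ^ 2 ≤ t ^ 2 := pow_le_pow_left₀ hr ht1.le 2
          rw [Real.sq_sqrt hσ] at h4
          linarith
        rw [abs_mul, abs_of_nonneg (Real.rpow_nonneg h3 _), ← mul_assoc]
        exact mul_le_mul_of_nonneg_right (AB9_one ha hτ ht0) (Real.rpow_nonneg h3 _)
      · intro t ht
        rw [AB9_deriv_zero (AB9_Tl ha τ) ht, zero_mul]
      · exact h1.const_mul _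
      · rw [integral_const_mul]
        exact mul_le_mul_of_nonneg_left h2 hB
    rw [Ab_eq hρ (AB9_Tl ha τ) 0 hσ, abs_neg, abs_mul, abs_of_nonneg hc0]
    have h3 := mul_le_mul_of_nonneg_left hmain hc0
    refine h3.trans ?_
    have h4 : 0 ≤ c * M * τ ^ 2 := by positivity
    have h5 : (ρ + 1) ^ (2 * 0 + 1) = ρ + 1 := by norm_num
    rw [h5]
    nlinarith
  · obtain ⟨C, hC⟩ := Ab_osc hj
    refine ⟨|C|, fun a ρ M τ σ hρ ha hτ hσ => ?_⟩
    have hM : 0 ≤ M := (norm_nonneg _).trans (AB9_M ha 0).1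
    have hτ0 : 0 < τ := by linarith
    refine (hC a ρ M τ σ hρ ha hτ hσ).trans ?_
    have h1 : 1 ≤ √τ := by
      rw [Real.one_le_sqrt]
      exact hτ
    have h2 : C * M * (ρ + 1) ^ (2 * j) ≤ |C| * M * (ρ + 1) ^ (2 * j) :=
      mul_le_mul_of_nonneg_right (mul_le_mul_of_nonneg_right (le_abs_self C) hM) (by positivity)
    have h3 : 0 ≤ |C| * M * (ρ + 1) ^ (2 * j) := by positivity
    have h4 : C * M * (ρ + 1) ^ (2 * j) / √τ ≤ |C| * M * (ρ + 1) ^ (2 * j) := by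
      rw [div_le_iff₀ (by linarith)]
      refine h2.trans ?_
      exact le_mul_of_one_le_right h3 h1
    refine h4.trans ?_
    have h5 : 1 ≤ (ρ + 1) * τ ^ 2 := by
      have h6 : 1 ≤ τ ^ 2 := one_le_pow₀ hτ
      nlinarith
    have h6 : |C| * M * (ρ + 1) ^ (2 * j + 1) * τ ^ 2 =
        |C| * M * (ρ + 1) ^ (2 * j) * ((ρ + 1) * τ ^ 2) := by
      rw [pow_succ]
      ring
    rw [h6]
    exact le_mul_of_one_le_right h3 h5

end BR
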