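import Pool.Agent.LibBR70.JB_Defs

/-! Row JB7 (only Mathlib, strong): radial integration preserves the class `RB`.
A general lemma: for a smooth family `Φ : P → ℝ → G` (`P` finite-dimensional, `G` complete) the
integral `H p = ∫ s in 0..1, Φ p s` is smooth, and `‖iteratedFDeriv ℝ k H p‖ ≤ M` whenever
`‖iteratedFDeriv ℝ k (Φ · s) p‖ ≤ M` for all `s ∈ [0, 1]`; induction on `k`, for all `G`, through
`fderiv H p = ∫ s in 0..1, fderiv (Φ · s) p`. -/

open Set Filter Topology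
open scoped ContDiff

namespace BR

variable {E F : Type} [NormedAddCommGroup E] [NormedSpace ℝ E] [FiniteDimensional ℝ E]
  [NormedAddCommGroup F] [NormedSpace ℝ F] [FiniteDimensional ℝ F] {K : Set E}

section JB7_general

variable {P : Type} [NormedAddCommGroup P] [NormedSpace ℝ P] [FiniteDimensional ℝ P]

omit [FiniteDimensional ℝ P] in
private theorem JB7_smooth_fderiv {G : Type} [NormedAddCommGroup G] [NormedSpace ℝ G]
    (Φ : P → ℝ → G) (hΦ : ContDiff ℝ ∞ (Function.uncurry Φ)) :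
    ContDiff ℝ ∞ (Function.uncurry (fun (p : P) (s : ℝ) => fderiv ℝ (fun q => Φ q s) p)) := by
  have h1 : ContDiff ℝ ∞ (Function.uncurry (fun (z : P × ℝ) (q : P) => Φ q z.2)) := by
    have h2 : Function.uncurry (fun (z : P × ℝ) (q : P) => Φ q z.2)
        = Function.uncurry Φ ∘ (fun w : (P × ℝ) × P => (w.2, w.1.2)) := by
      funext w
      rfl
    rw [h2]
    exact hΦ.comp (contDiff_snd.prodMk (contDiff_snd.comp contDiff_fst))
  have h3 := ContDiff.fderiv (m := ∞) (n := ∞) h1 (contDiff_fst (𝕜 := ℝ) (E := P) (F := ℝ))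
    (by simp)
  exact h3

omit [FiniteDimensional ℝ P] in
private theorem JB7_smooth_slice {G : Type} [NormedAddCommGroup G] [NormedSpace ℝ G]
    (Φ : P → ℝ → G) (hΦ : ContDiff ℝ ∞ (Function.uncurry Φ)) (s : ℝ) :
    ContDiff ℝ ∞ (fun q => Φ q s) := by
  have h2 : (fun q => Φ q s) = Function.uncurry Φ ∘ (fun q : P => (q, s)) := by
    funext w
    rfl
  rw [h2]
  exact hΦ.comp (contDiff_id.prodMk contDiff_const)

private theorem JB7_hasFDerivAt {G : Type} [NormedAddCommGroup G] [NormedSpace ℝ G]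
    (Φ : P → ℝ → G) (hΦ : ContDiff ℝ ∞ (Function.uncurry Φ)) (p : P) :
    HasFDerivAt (fun p => ∫ s in (0 : ℝ)..1, Φ p s)
      (∫ s in (0 : ℝ)..1, fderiv ℝ (fun q => Φ q s) p) p := by
  have hc' : Continuous (Function.uncurry (fun (p : P) (s : ℝ) => fderiv ℝ (fun q => Φ q s) p)) :=
    (JB7_smooth_fderiv Φ hΦ).continuous
  have hc : Continuous (Function.uncurry Φ) := hΦ.continuous
  have hK : IsCompact (Metric.closedBall p 1 ×ˢ Icc (0 : ℝ) 1) :=
    (isCompact_closedBall p 1).prod isCompact_Icc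
  obtain ⟨M, hM⟩ := hK.exists_bound_of_continuousOn hc'.continuousOn
  have hsl : ∀ q : P, Continuous (fun s => Φ q s) := fun q => hc.comp (Continuous.prodMk_right q)
  have hsl' : ∀ q : P, Continuous (fun s => fderiv ℝ (fun q => Φ q s) q) := fun q =>
    hc'.comp (Continuous.prodMk_right q)
  refine intervalIntegral.hasFDerivAt_integral_of_dominated_of_fderiv_le
    (F := Φ) (F' := fun p s => fderiv ℝ (fun q => Φ q s) p) (bound := fun _ => M)
    (Metric.closedBall_mem_nhds p one_pos) ?_ ?_ ?_ ?_ ?_ ?_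
  · exact Eventually.of_forall fun q => (hsl q).aestronglyMeasurable
  · exact (hsl p).intervalIntegrable _ _
  · exact (hsl' p).aestronglyMeasurable
  · refine Eventually.of_forall fun t ht x hx => ?_
    rw [uIoc_of_le zero_le_one] at ht
    exact hM (x, t) ⟨hx, ht.1.le, ht.2⟩
  · exact intervalIntegrable_const
  · refine Eventually.of_forall fun t _ x _ => ?_
    exact ((JB7_smooth_slice Φ hΦ t).differentiable (by simp) x).hasFDerivAt

private theorem JB7_main (k : ℕ) : ∀ {G : Type} [NormedAddCommGroup G] [NormedSpace ℝ G]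
    (Φ : P → ℝ → G), ContDiff ℝ ∞ (Function.uncurry Φ) →
      ContDiff ℝ k (fun p => ∫ s in (0 : ℝ)..1, Φ p s) ∧
      ∀ (p : P) (M : ℝ), (∀ s ∈ Icc (0 : ℝ) 1, ‖iteratedFDeriv ℝ k (fun q => Φ q s) p‖ ≤ M) →
        ‖iteratedFDeriv ℝ k (fun p => ∫ s in (0 : ℝ)..1, Φ p s) p‖ ≤ M := by
  induction k with
  | zero =>
    intro G _ _ Φ hΦ
    refine ⟨?_, ?_⟩
    · rw [Nat.cast_zero, contDiff_zero]
      exact intervalIntegral.continuous_parametric_intervalIntegral_of_continuous'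
        hΦ.continuous 0 1
    · intro p M hM
      simp only [norm_iteratedFDeriv_zero] at hM ⊢
      have h := intervalIntegral.norm_integral_le_of_norm_le_const (a := (0 : ℝ)) (b := 1)
        (f := fun s => Φ p s) (C := M) (fun s hs => by
          rw [uIoc_of_le zero_le_one] at hs
          exact hM s ⟨hs.1.le, hs.2⟩)
      simpa using h
  | succ k ih =>
    intro G _ _ Φ hΦ
    have hfd : fderiv ℝ (fun p => ∫ s in (0 : ℝ)..1, Φ p s)
        = fun p => ∫ s in (0 : ℝ)..1, fderiv ℝ (fun q => Φ q s) p :=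
      funext fun p => (JB7_hasFDerivAt Φ hΦ p).fderiv
    obtain ⟨h1, h2⟩ := ih (fun (p : P) (s : ℝ) => fderiv ℝ (fun q => Φ q s) p)
      (JB7_smooth_fderiv Φ hΦ)
    refine ⟨?_, ?_⟩
    · rw [Nat.cast_add, Nat.cast_one, contDiff_succ_iff_fderiv]
      refine ⟨fun p => (JB7_hasFDerivAt Φ hΦ p).differentiableAt, by simp, ?_⟩
      rw [hfd]
      exact h1
    · intro p M hM
      rw [← norm_iteratedFDeriv_fderiv, hfd]
      refine h2 p M fun s hs => ?_
      have h := hM s hs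
      rw [← norm_iteratedFDeriv_fderiv] at h
      exact h

end JB7_general

private noncomputable def JB7_L (s : ℝ) : E × F →L[ℝ] E × F :=
  (ContinuousLinearMap.fst ℝ E F).prod (s • ContinuousLinearMap.snd ℝ E F)

omit [FiniteDimensional ℝ E] [FiniteDimensional ℝ F] in
private theorem JB7_L_apply (s : ℝ) (p : E × F) : JB7_L s p = (p.1, s • p.2) := rfl

omit [FiniteDimensional ℝ E] [FiniteDimensional ℝ F] in
private theorem JB7_L_norm {s : ℝ} (hs : s ∈ Icc (0 : ℝ) 1) :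
    ‖(JB7_L s : E × F →L[ℝ] E × F)‖ ≤ 1 := by
  refine ContinuousLinearMap.opNorm_le_bound _ zero_le_one fun p => ?_
  rw [JB7_L_apply, one_mul, Prod.norm_mk, norm_smul, Real.norm_of_nonneg hs.1]
  refine max_le (norm_fst_le p) ?_
  calc s * ‖p.2‖ ≤ 1 * ‖p.2‖ := mul_le_mul_of_nonneg_right hs.2 (norm_nonneg _)
    _ = ‖p.2‖ := one_mul _
    _ ≤ ‖p‖ := norm_snd_le p

omit [FiniteDimensional ℝ E] [FiniteDimensional ℝ F] in
private theorem JB7_family_smooth {f : E × F → ℝ} (hf : ContDiff ℝ ∞ f) (n : ℕ) :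
    ContDiff ℝ ∞ (Function.uncurry (fun (p : E × F) (s : ℝ) => s ^ n * f (p.1, s • p.2))) := by
  have h : Function.uncurry (fun (p : E × F) (s : ℝ) => s ^ n * f (p.1, s • p.2))
      = fun w : (E × F) × ℝ => w.2 ^ n * f (w.1.1, w.2 • w.1.2) := by
    funext w
    rfl
  rw [h]
  refine (contDiff_snd.pow n).mul (hf.comp ?_)
  exact (contDiff_fst.comp contDiff_fst).prodMk
    (contDiff_snd.smul (contDiff_snd.comp contDiff_fst))

omit [FiniteDimensional ℝ E] [FiniteDimensional ℝ F] in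
private theorem JB7_slice_bound {f : E × F → ℝ} (hf : ContDiff ℝ ∞ f) (n k : ℕ) {s : ℝ}
    (hs : s ∈ Icc (0 : ℝ) 1) (p : E × F) :
    ‖iteratedFDeriv ℝ k (fun q : E × F => s ^ n * f (q.1, s • q.2)) p‖
      ≤ ‖iteratedFDeriv ℝ k f (p.1, s • p.2)‖ := by
  have h1 : (fun q : E × F => s ^ n * f (q.1, s • q.2)) = (s ^ n) • (f ∘ (JB7_L s)) := by
    funext q
    simp [JB7_L_apply]
  have hk : ContDiff ℝ k f := hf.of_le (by exact_mod_cast le_top)
  have h2 : ContDiff ℝ k (f ∘ (JB7_L s : E × F →L[ℝ] E × F)) := hk.comp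
    (JB7_L s : E × F →L[ℝ] E × F).contDiff
  rw [h1, iteratedFDeriv_const_smul_apply h2.contDiffAt,
    ContinuousLinearMap.iteratedFDeriv_comp_right (JB7_L s) hk p le_rfl, norm_smul, norm_pow,
    Real.norm_of_nonneg hs.1]
  have h3 := ContinuousMultilinearMap.norm_compContinuousLinearMap_le
    (iteratedFDeriv ℝ k f (JB7_L s p)) (fun _ : Fin k => (JB7_L s : E × F →L[ℝ] E × F))
  have h4 : (∏ _i : Fin k, ‖(JB7_L s : E × F →L[ℝ] E × F)‖) ≤ 1 :=
    Finset.prod_le_one (fun _ _ => norm_nonneg _) (fun _ _ => JB7_L_norm hs)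
  have h5 : s ^ n ≤ 1 := pow_le_one₀ hs.1 hs.2
  calc s ^ n * ‖(iteratedFDeriv ℝ k f (JB7_L s p)).compContinuousLinearMap
          (fun _ => (JB7_L s : E × F →L[ℝ] E × F))‖
      ≤ 1 * (‖iteratedFDeriv ℝ k f (JB7_L s p)‖ * 1) := by
        refine mul_le_mul h5 (h3.trans ?_) (norm_nonneg _) zero_le_one
        exact mul_le_mul_of_nonneg_left h4 (norm_nonneg _)
    _ = ‖iteratedFDeriv ℝ k f (p.1, s • p.2)‖ := by rw [one_mul, mul_one, JB7_L_apply]

theorem radial_smooth {f : E × F → ℝ} (hf : ContDiff ℝ ∞ f) (n : ℕ) :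
    ContDiff ℝ ∞ (fun p : E × F => ∫ s in (0 : ℝ)..1, s ^ n * f (p.1, s • p.2)) := by
  rw [contDiff_infty]
  intro k
  exact (JB7_main k (fun (p : E × F) (s : ℝ) => s ^ n * f (p.1, s • p.2))
    (JB7_family_smooth hf n)).1

theorem RB_radial {f : E × F → ℝ} (hf : RB K f) (n : ℕ) :
    RB K (fun p : E × F => ∫ s in (0 : ℝ)..1, s ^ n * f (p.1, s • p.2)) := by
  refine ⟨radial_smooth hf.1 n, fun k => ?_⟩
  obtain ⟨C, hC⟩ := hf.2 k
  refine ⟨max C 0, fun x hx v => ?_⟩
  refine (JB7_main k (fun (p : E × F) (s : ℝ) => s ^ n * f (p.1, s • p.2))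
    (JB7_family_smooth hf.1 n)).2 (x, v) _ fun s hs => ?_
  refine (JB7_slice_bound hf.1 n k hs (x, v)).trans ((hC x hx (s • v)).trans ?_)
  have h0 : (0 : ℝ) ≤ max C 0 := le_max_right _ _
  have h1 : ‖s • v‖ ≤ ‖v‖ := by
    rw [norm_smul, Real.norm_of_nonneg hs.1]
    calc s * ‖v‖ ≤ 1 * ‖v‖ := mul_le_mul_of_nonneg_right hs.2 (norm_nonneg _)
      _ = ‖v‖ := one_mul _
  refine mul_le_mul (le_max_left _ _) (Real.exp_le_exp.2 ?_) (Real.exp_pos _).le h0
  exact (mul_le_mul_of_nonneg_right (le_max_left _ _) (norm_nonneg _)).trans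
    (mul_le_mul_of_nonneg_left h1 h0)

end BR
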