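import Pool.Agent.LibBR70.PX5
import Pool.Agent.LibBR70.AB9
import Pool.Agent.LibBR70.JB6
import Pool.Agent.LibBR70.JB7

/-! Row PX6 (cites PX1-PX5, AB2, AB9, JB6): integrating by parts `k` times.
`G` is a family of metrics in normal coordinates with parameter `x ∈ K`, `RB K G`, `1 ≤ G11`, `1 ≤ dt G`.
Plan. `RB_LL`: if `u` is in `RB K` then so is `(x, v) ↦ LL (G (x, ·)) (u (x, ·)) v`: the derivatives in `v` are
derivatives of the joint function in the directions `(0, (1, 0))`, `(0, (0, 1))`; `RB_mul`, `RB_inv`, `RB_rpow`,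
`RB_fderiv_apply` (JB6), `wt = dt ^ (1/2) ≥ 1`. `RB_UU`: induction, `RB_radial` (JB7).
`LL_iter`: coefficients: for `c` in `RB K` there are, for every `k`, coefficients `c_{k,i}` (`i ≤ 2k`) in `RB K` such
that for all `x`, all `q` in `Tl q ρ`, all `ε > 0`, `N ≥ 2k`:
`LL^k (c Ab N q (sg + ε)) = ∑_{i ≤ 2k} c_{k,i} Ab (N - i) q (sg + ε)`: `LL_mul`, `Ab_deriv` (twice), coefficients do not
depend on `ε`, `q`, `N`: `c ↦ (4 sg c) A_{i-2} - (c LL sg + 4 v·∇c) A_{i-1} + (LL c) A_i`.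
`smoothing`: `sb` `k` times for the smooth compactly supported functions with `ε > 0`, then `ε → 0`
(dominated convergence, `N - i ≥ 1` so everything is bounded by `Ab_crude`); the integrand lives on
`sg v ≤ ρ²`, where `|c_{k,i}| ≤ C e^(C ρ)`. -/

open MeasureTheory Set Filter Topology
open scoped ContDiff

namespace BR

open BGS

/-- A family of metrics in normal coordinates. -/
structure Fam (K : Set Pl) (G : Pl × Pl → Co) : Prop where
  pm : ∀ x, PMt (fun v => G (x, v))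
  rb : RB K G
  one : ∀ p, 1 ≤ (G p).1 ∧ 1 ≤ dt (G p)

variable {K : Set Pl} {G : Pl × Pl → Co}

theorem PX6_norm_le {v : Pl} {ρ : ℝ} (hρ : 0 ≤ ρ) (h : sg v ≤ ρ ^ 2) : ‖v‖ ≤ ρ := by
  unfold sg at h
  rw [Prod.norm_def]
  have h1 : |v.1| ≤ √(ρ ^ 2) := Real.abs_le_sqrt (by nlinarith [sq_nonneg v.2])
  have h2 : |v.2| ≤ √(ρ ^ 2) := Real.abs_le_sqrt (by nlinarith [sq_nonneg v.1])
  rw [Real.sqrt_sq hρ] at h1 h2
  exact max_le h1 h2

theorem PX6_sg_cont : Continuous sg := by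
  unfold sg
  fun_prop

theorem PX6_sg_smooth : ContDiff ℝ ∞ sg := by
  unfold sg
  fun_prop

theorem PX6_sg_nonneg (v : Pl) : 0 ≤ sg v := by
  unfold sg
  positivity

theorem PX6_dx {f : Pl × Pl → ℝ} (hf : Differentiable ℝ f) (x z : Pl) :
    dx (fun v => f (x, v)) z = fderiv ℝ f (x, z) (0, ((1 : ℝ), (0 : ℝ))) := by
  unfold dx
  have h : HasFDerivAt (fun v : Pl => f (x, v))
      ((fderiv ℝ f (x, z)).comp (ContinuousLinearMap.inr ℝ Pl Pl)) z :=
    (hf (x, z)).hasFDerivAt.comp z (hasFDerivAt_prodMk_right x z)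
  rw [h.fderiv]
  rfl

theorem PX6_dy {f : Pl × Pl → ℝ} (hf : Differentiable ℝ f) (x z : Pl) :
    dy (fun v => f (x, v)) z = fderiv ℝ f (x, z) (0, ((0 : ℝ), (1 : ℝ))) := by
  unfold dy
  have h : HasFDerivAt (fun v : Pl => f (x, v))
      ((fderiv ℝ f (x, z)).comp (ContinuousLinearMap.inr ℝ Pl Pl)) z :=
    (hf (x, z)).hasFDerivAt.comp z (hasFDerivAt_prodMk_right x z)
  rw [h.fderiv]
  rfl

theorem PX6_cmul (c : ℝ) {f : Pl × Pl → ℝ} (hf : RB K f) : RB K (fun p => c * f p) :=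
  RB_mul (RB_const c) hf

theorem PX6_sub {f g : Pl × Pl → ℝ} (hf : RB K f) (hg : RB K g) :
    RB K (fun p => f p - g p) := by
  have h := RB_add hf (PX6_cmul (-1) hg)
  have he : (fun p => f p - g p) = fun p => f p + -1 * g p := by
    funext p
    ring
  rw [he]
  exact h

theorem PX6_dt (hG : Fam K G) : RB K (fun p => dt (G p)) := by
  have h1 : RB K (fun p => (G p).1) := RB_clm hG.rb (ContinuousLinearMap.fst ℝ ℝ (ℝ × ℝ))
  have h2 : RB K (fun p => (G p).2.1) := RB_clm hG.rb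
    ((ContinuousLinearMap.fst ℝ ℝ ℝ).comp (ContinuousLinearMap.snd ℝ ℝ (ℝ × ℝ)))
  have h3 : RB K (fun p => (G p).2.2) := RB_clm hG.rb
    ((ContinuousLinearMap.snd ℝ ℝ ℝ).comp (ContinuousLinearMap.snd ℝ ℝ (ℝ × ℝ)))
  have he : (fun p => dt (G p)) = fun p => (G p).1 * (G p).2.2 - (G p).2.1 * (G p).2.1 := by
    funext p
    unfold dt
    ring
  rw [he]
  exact PX6_sub (RB_mul h1 h3) (RB_mul h2 h2)

theorem PX6_W (hG : Fam K G) (q : ℝ) :
    RB K (fun p => (wt (fun v => G (p.1, v)) p.2) ^ q) := by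
  have h := RB_rpow (PX6_dt hG) (fun p => lt_of_lt_of_le one_pos (hG.one p).2) (C := 1)
    (by
      intro x _ v
      have h1 := (hG.one (x, v)).2
      rw [abs_of_pos (lt_of_lt_of_le one_pos h1)]
      have h2 : (dt (G (x, v)))⁻¹ ≤ 1 := inv_le_one_of_one_le₀ h1
      have h3 : 1 ≤ Real.exp (1 * ‖v‖) := Real.one_le_exp (by positivity)
      linarith) (1 / 2 * q)
  have he : (fun p : Pl × Pl => (wt (fun v => G (p.1, v)) p.2) ^ q) =
      fun p => dt (G p) ^ (1 / 2 * q) := by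
    funext p
    show (√(dt (G p))) ^ q = _
    rw [Real.sqrt_eq_rpow, Real.rpow_mul (by linarith [(hG.one p).2])]
  rw [he]
  exact h

theorem RB_LL {K : Set Pl} {G : Pl × Pl → Co} (hG : Fam K G) {u : Pl × Pl → ℝ} (hu : RB K u) :
    RB K (fun p => LL (fun v => G (p.1, v)) (fun v => u (p.1, v)) p.2) := by
  have h1 : RB K (fun p => (G p).1) := RB_clm hG.rb (ContinuousLinearMap.fst ℝ ℝ (ℝ × ℝ))
  have h2 : RB K (fun p => (G p).2.1) := RB_clm hG.rb
    ((ContinuousLinearMap.fst ℝ ℝ ℝ).comp (ContinuousLinearMap.snd ℝ ℝ (ℝ × ℝ)))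
  have h3 : RB K (fun p => (G p).2.2) := RB_clm hG.rb
    ((ContinuousLinearMap.snd ℝ ℝ ℝ).comp (ContinuousLinearMap.snd ℝ ℝ (ℝ × ℝ)))
  have hW := PX6_W hG (-1)
  have hux := RB_fderiv_apply hu ((0 : Pl), ((1 : ℝ), (0 : ℝ)))
  have huy := RB_fderiv_apply hu ((0 : Pl), ((0 : ℝ), (1 : ℝ)))
  have hud : Differentiable ℝ u := hu.1.differentiable (by simp)
  have ha := RB_mul (PX6_sub (RB_mul h3 hux) (RB_mul h2 huy)) hW
  have hb := RB_mul (PX6_sub (RB_mul h1 huy) (RB_mul h2 hux)) hW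
  have had := RB_fderiv_apply ha ((0 : Pl), ((1 : ℝ), (0 : ℝ)))
  have hbd := RB_fderiv_apply hb ((0 : Pl), ((0 : ℝ), (1 : ℝ)))
  have hfin := RB_mul (RB_add had hbd) hW
  refine (iff_of_eq (congrArg (RB K) ?_)).mp hfin
  funext p
  obtain ⟨x, v⟩ := p
  unfold LL
  rw [← PX6_dx (ha.1.differentiable (by simp)) x v, ← PX6_dy (hb.1.differentiable (by simp)) x v,
    Real.rpow_neg_one, ← div_eq_mul_inv]
  congr 2
  · congr 1
    funext z
    rw [PX6_dx hud, PX6_dy hud, div_eq_mul_inv]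
    show _ = _
    rw [Real.rpow_neg_one]
  · congr 1
    funext z
    rw [PX6_dx hud, PX6_dy hud, div_eq_mul_inv]
    show _ = _
    rw [Real.rpow_neg_one]

theorem RB_UU {K : Set Pl} {G : Pl × Pl → Co} (hG : Fam K G) (j : ℕ) :
    RB K (fun p => UU (fun v => G (p.1, v)) j p.2) := by
  induction j with
  | zero => exact PX6_W hG (-(1 / 2))
  | succ j ih =>
    have h1 := RB_LL hG ih
    have h2 := RB_mul h1 (PX6_cmul (1 / 4) (PX6_W hG (1 / 2)))
    have h3 := RB_radial h2 j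
    have h4 := RB_mul (PX6_W hG (-(1 / 2))) h3
    refine (iff_of_eq (congrArg (RB K) ?_)).mp h4
    funext p
    obtain ⟨x, v⟩ := p
    show _ = (wt (fun v => G (x, v)) v) ^ (-(1 / 2) : ℝ) *
      ∫ s in (0 : ℝ)..1, s ^ j * (LL (fun v => G (x, v)) (UU (fun v => G (x, v)) j) (s • v) /
        (4 * (wt (fun v => G (x, v)) (s • v)) ^ (-(1 / 2) : ℝ)))
    congr 1
    congr 1
    funext s
    congr 1
    have hw : 0 < wt (fun v => G (x, v)) (s • v) := wt_pos (hG.pm x) _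
    have he : (wt (fun v => G (x, v)) (s • v)) ^ (-(1 / 2) : ℝ) =
        ((wt (fun v => G (x, v)) (s • v)) ^ ((1 / 2) : ℝ))⁻¹ := Real.rpow_neg hw.le _
    have hp : 0 < (wt (fun v => G (x, v)) (s • v)) ^ ((1 / 2) : ℝ) := Real.rpow_pos_of_pos hw _
    rw [he]
    field_simp

/-- Value bound. -/
theorem PX6_val {f : Pl × Pl → ℝ} (hf : RB K f) :
    ∃ C : ℝ, 0 ≤ C ∧ ∀ x ∈ K, ∀ v : Pl, ∀ ρ : ℝ, 0 ≤ ρ → ‖v‖ ≤ ρ →
      |f (x, v)| ≤ C * Real.exp (C * ρ) := by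
  obtain ⟨C, hC⟩ := hf.2 0
  refine ⟨|C|, abs_nonneg C, fun x hx v ρ hρ hv => ?_⟩
  have h := hC x hx v
  rw [norm_iteratedFDeriv_zero, Real.norm_eq_abs] at h
  refine h.trans ?_
  apply mul_le_mul (le_abs_self C) _ (Real.exp_pos _).le (abs_nonneg C)
  apply Real.exp_le_exp.2
  calc C * ‖v‖ ≤ |C| * ‖v‖ := mul_le_mul_of_nonneg_right (le_abs_self C) (norm_nonneg v)
    _ ≤ |C| * ρ := mul_le_mul_of_nonneg_left hv (abs_nonneg C)

theorem PX6_A_smooth {q : ℝ → ℝ} {ρ : ℝ} (hρ : 0 ≤ ρ) (hq : Tl q ρ) {ε : ℝ} (hε : 0 < ε)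
    (j : ℕ) : ContDiff ℝ ∞ (fun v : Pl => Ab j q (sg v + ε)) := by
  have h := (Ab_contDiffOn hρ hq j).comp_contDiff (f := fun v : Pl => sg v + ε)
    (PX6_sg_smooth.add contDiff_const)
    (fun v => by
      show 0 < sg v + ε
      have := PX6_sg_nonneg v
      linarith)
  exact h

theorem PX6_A_zero {q : ℝ → ℝ} {ρ : ℝ} (hρ : 0 ≤ ρ) (hq : Tl q ρ) {ε : ℝ} (hε : 0 < ε)
    (j : ℕ) {v : Pl} (hv : ¬ sg v ≤ ρ ^ 2) : Ab j q (sg v + ε) = 0 := by
  have := PX6_sg_nonneg v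
  apply Ab_supp hρ hq j (by linarith)
  push Not at hv
  linarith

theorem PX6_A_supp {q : ℝ → ℝ} {ρ : ℝ} (hρ : 0 ≤ ρ) (hq : Tl q ρ) {ε : ℝ} (hε : 0 < ε)
    (j : ℕ) : HasCompactSupport (fun v : Pl => Ab j q (sg v + ε)) := by
  apply HasCompactSupport.intro (isCompact_closedBall (0 : Pl) ρ)
  intro v hv
  apply PX6_A_zero hρ hq hε
  intro h
  apply hv
  rw [mem_closedBall_zero_iff]
  exact PX6_norm_le hρ h

theorem PX6_int {q : ℝ → ℝ} {ρ : ℝ} (hρ : 0 ≤ ρ) (hq : Tl q ρ) {ε : ℝ} (hε : 0 < ε)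
    (j : ℕ) {H : Pl → Co} (hH : PMt H) {e U : Pl → ℝ} (he : Continuous e) (hU : Continuous U) :
    Integrable (fun v => e v * Ab j q (sg v + ε) * U v * wt H v) := by
  apply Continuous.integrable_of_hasCompactSupport
  · exact ((he.mul (PX6_A_smooth hρ hq hε j).continuous).mul hU).mul (wt_smooth hH).continuous
  · exact (((PX6_A_supp hρ hq hε j).mul_left).mul_right).mul_right

theorem PX6_deriv1 {q : ℝ → ℝ} {ρ : ℝ} (hρ : 0 ≤ ρ) (hq : Tl q ρ) (j : ℕ) {σ : ℝ}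
    (hσ : 0 < σ) : deriv (Ab (j + 1) q) σ = -(Ab j q σ) :=
  (Ab_deriv hρ hq j hσ).deriv

theorem PX6_deriv2 {q : ℝ → ℝ} {ρ : ℝ} (hρ : 0 ≤ ρ) (hq : Tl q ρ) (j : ℕ) {σ : ℝ}
    (hσ : 0 < σ) : deriv (deriv (Ab (j + 2) q)) σ = Ab j q σ := by
  have h1 : deriv (Ab (j + 2) q) =ᶠ[𝓝 σ] fun s => -(Ab (j + 1) q s) := by
    filter_upwards [Ioi_mem_nhds hσ] with s hs
    exact PX6_deriv1 hρ hq (j + 1) hs
  rw [h1.deriv_eq, deriv.fun_neg, PX6_deriv1 hρ hq j hσ, neg_neg]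

/-- The coefficients after one step. -/
noncomputable def PX6_E (c : Pl × Pl → ℝ) (p : Pl × Pl) : ℝ := 4 * sg p.2 * c p

noncomputable def PX6_F (G : Pl × Pl → Co) (c : Pl × Pl → ℝ) (p : Pl × Pl) : ℝ :=
  -(c p * LL (fun v => G (p.1, v)) sg p.2 +
    4 * (p.2.1 * dx (fun v => c (p.1, v)) p.2 + p.2.2 * dy (fun v => c (p.1, v)) p.2))

noncomputable def PX6_H (G : Pl × Pl → Co) (c : Pl × Pl → ℝ) (p : Pl × Pl) : ℝ :=
  LL (fun v => G (p.1, v)) (fun v => c (p.1, v)) p.2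

theorem PX6_RB_v1 : RB K (fun p : Pl × Pl => p.2.1) :=
  RB_clm RB_snd (ContinuousLinearMap.fst ℝ ℝ ℝ)

theorem PX6_RB_v2 : RB K (fun p : Pl × Pl => p.2.2) :=
  RB_clm RB_snd (ContinuousLinearMap.snd ℝ ℝ ℝ)

theorem PX6_RB_sg : RB K (fun p : Pl × Pl => sg p.2) := by
  have h := RB_add (RB_mul (PX6_RB_v1 (K := K)) (PX6_RB_v1 (K := K)))
    (RB_mul (PX6_RB_v2 (K := K)) (PX6_RB_v2 (K := K)))
  refine (iff_of_eq (congrArg (RB K) ?_)).mp h
  funext p
  unfold sg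
  ring

theorem PX6_RB_E {c : Pl × Pl → ℝ} (hc : RB K c) : RB K (PX6_E c) := by
  have h := RB_mul (PX6_cmul 4 (PX6_RB_sg (K := K))) hc
  exact h

theorem PX6_RB_F (hG : Fam K G) {c : Pl × Pl → ℝ} (hc : RB K c) : RB K (PX6_F G c) := by
  have h1 := RB_mul hc (RB_LL hG (PX6_RB_sg (K := K)))
  have hcx := RB_mul (PX6_RB_v1 (K := K)) (RB_fderiv_apply hc ((0 : Pl), ((1 : ℝ), (0 : ℝ))))
  have hcy := RB_mul (PX6_RB_v2 (K := K)) (RB_fderiv_apply hc ((0 : Pl), ((0 : ℝ), (1 : ℝ))))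
  have hcd : Differentiable ℝ c := hc.1.differentiable (by simp)
  have h := PX6_cmul (-1) (RB_add h1 (PX6_cmul 4 (RB_add hcx hcy)))
  refine (iff_of_eq (congrArg (RB K) ?_)).mp h
  funext p
  obtain ⟨x, v⟩ := p
  unfold PX6_F
  rw [PX6_dx hcd, PX6_dy hcd]
  show -1 * (c (x, v) * LL (fun v => G (x, v)) sg v + _) = _
  ring

theorem PX6_RB_H (hG : Fam K G) {c : Pl × Pl → ℝ} (hc : RB K c) : RB K (PX6_H G c) :=
  RB_LL hG hc

theorem PX6_slice {f : Pl × Pl → ℝ} (hf : ContDiff ℝ ∞ f) (x : Pl) :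
    ContDiff ℝ ∞ (fun v => f (x, v)) :=
  hf.comp (contDiff_const.prodMk contDiff_id)

/-- One step of the integration by parts. -/
theorem PX6_step (hG : Fam K G) {c : Pl × Pl → ℝ} (hc : RB K c) {x : Pl} {lam2 : ℝ}
    {U : Pl → ℝ} (hU : ContDiff ℝ ∞ U) (hw : WkEig (fun v => G (x, v)) lam2 U) {q : ℝ → ℝ}
    {ρ : ℝ} (hρ : 0 ≤ ρ) (hq : Tl q ρ) {ε : ℝ} (hε : 0 < ε) (M : ℕ) :
    lam2 * ∫ v, c (x, v) * Ab (M + 2) q (sg v + ε) * U v * wt (fun v => G (x, v)) v =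
      -((∫ v, PX6_E c (x, v) * Ab M q (sg v + ε) * U v * wt (fun v => G (x, v)) v) +
        (∫ v, PX6_F G c (x, v) * Ab (M + 1) q (sg v + ε) * U v * wt (fun v => G (x, v)) v) +
        ∫ v, PX6_H G c (x, v) * Ab (M + 2) q (sg v + ε) * U v * wt (fun v => G (x, v)) v) := by
  have hP := hG.pm x
  have hcs := PX6_slice hc.1 x
  have hf : ContDiff ℝ ∞ (fun v => c (x, v) * Ab (M + 2) q (sg v + ε)) :=
    hcs.mul (PX6_A_smooth hρ hq hε (M + 2))
  have h := sb hP hU hw (f := fun v => c (x, v) * Ab (M + 2) q (sg v + ε))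
    (by exact_mod_cast contDiff_infty.1 hf 2) ((PX6_A_supp hρ hq hε (M + 2)).mul_left)
  have h' : lam2 * ∫ v, c (x, v) * Ab (M + 2) q (sg v + ε) * U v * wt (fun v => G (x, v)) v =
      -∫ v, LL (fun v => G (x, v)) (fun v => c (x, v) * Ab (M + 2) q (sg v + ε)) v * U v *
        wt (fun v => G (x, v)) v := by
    rw [h, neg_neg]
  rw [h', ← integral_add, ← integral_add]
  · congr 1
    congr 1
    funext v
    have hs : 0 < sg v + ε := by
      have := PX6_sg_nonneg v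
      linarith
    rw [LL_mul hP hcs (Ab_contDiffOn hρ hq (M + 2)) hε v, PX6_deriv1 hρ hq (M + 1) hs,
      PX6_deriv2 hρ hq M hs]
    unfold PX6_E PX6_F PX6_H
    ring
  · exact (PX6_int hρ hq hε M hP (PX6_slice (PX6_RB_E hc).1 x).continuous hU.continuous).add
      (PX6_int hρ hq hε (M + 1) hP (PX6_slice (PX6_RB_F hG hc).1 x).continuous hU.continuous)
  · exact PX6_int hρ hq hε (M + 2) hP (PX6_slice (PX6_RB_H hG hc).1 x).continuous hU.continuous
  · exact PX6_int hρ hq hε M hP (PX6_slice (PX6_RB_E hc).1 x).continuous hU.continuous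
  · exact PX6_int hρ hq hε (M + 1) hP (PX6_slice (PX6_RB_F hG hc).1 x).continuous hU.continuous

theorem PX6_ball_compact {ρ : ℝ} (hρ : 0 ≤ ρ) : IsCompact {v : Pl | sg v ≤ ρ ^ 2} := by
  apply (isCompact_closedBall (0 : Pl) ρ).of_isClosed_subset
  · exact isClosed_le PX6_sg_cont continuous_const
  · intro v hv
    rw [mem_closedBall_zero_iff]
    exact PX6_norm_le hρ hv

theorem PX6_intB {ρ : ℝ} (hρ : 0 ≤ ρ) {H : Pl → Co} (hH : PMt H) {U : Pl → ℝ}
    (hU : Continuous U) :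
    IntegrableOn (fun v => |U v| * wt H v) {v : Pl | sg v ≤ ρ ^ 2} := by
  apply ContinuousOn.integrableOn_compact (PX6_ball_compact hρ)
  exact (hU.abs.mul (wt_smooth hH).continuous).continuousOn

theorem PX6_B_nonneg {ρ : ℝ} {H : Pl → Co} (hH : PMt H) {U : Pl → ℝ} :
    0 ≤ ∫ v in {v : Pl | sg v ≤ ρ ^ 2}, |U v| * wt H v := by
  apply integral_nonneg
  intro v
  exact mul_nonneg (abs_nonneg _) (wt_pos hH v).le

/-- The pointwise bound. -/
theorem PX6_pt {c : Pl × Pl → ℝ} (hc : RB K c) {N : ℕ} (hN : 1 ≤ N) :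
    ∃ C : ℝ, 0 ≤ C ∧ ∀ x ∈ K, ∀ (q : ℝ → ℝ) (ρ S : ℝ), 0 ≤ ρ → Tl q ρ →
      (∀ t, 0 ≤ t → |deriv q t| ≤ S) → ∀ v : Pl, sg v ≤ ρ ^ 2 → ∀ σ : ℝ, 0 ≤ σ →
      |c (x, v) * Ab N q σ| ≤ C * Real.exp (C * ρ) * S := by
  obtain ⟨C0, hC0, h0⟩ := PX6_val hc
  obtain ⟨C1, h1⟩ := Ab_crude N hN
  refine ⟨C0 * |C1| * (2 * N).factorial + C0 + 1, by positivity, ?_⟩
  intro x hx q ρ S hρ hq hS v hv σ hσ
  have hS0 : 0 ≤ S := (abs_nonneg _).trans (hS 0 le_rfl)
  have ha := h0 x hx v ρ hρ (PX6_norm_le hρ hv)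
  have hb : |Ab N q σ| ≤ |C1| * S * ρ ^ (2 * N) :=
    (h1 q ρ S σ hρ hq hS hσ).trans (by
      apply mul_le_mul_of_nonneg_right _ (by positivity)
      exact mul_le_mul_of_nonneg_right (le_abs_self C1) hS0)
  have hr : ρ ^ (2 * N) ≤ (2 * N).factorial * Real.exp ρ := by
    have := Real.pow_div_factorial_le_exp ρ hρ (2 * N)
    rw [div_le_iff₀ (by positivity)] at this
    linarith
  have hb2 : |Ab N q σ| ≤ |C1| * S * ((2 * N).factorial * Real.exp ρ) :=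
    hb.trans (mul_le_mul_of_nonneg_left hr (by positivity))
  rw [abs_mul]
  calc |c (x, v)| * |Ab N q σ|
      ≤ (C0 * Real.exp (C0 * ρ)) * (|C1| * S * ((2 * N).factorial * Real.exp ρ)) :=
        mul_le_mul ha hb2 (abs_nonneg _) (by positivity)
    _ = (C0 * |C1| * (2 * N).factorial) * Real.exp ((C0 + 1) * ρ) * S := by
        rw [show (C0 + 1) * ρ = C0 * ρ + ρ by ring, Real.exp_add]
        ring
    _ ≤ (C0 * |C1| * (2 * N).factorial + C0 + 1) *
        Real.exp ((C0 * |C1| * (2 * N).factorial + C0 + 1) * ρ) * S := by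
        apply mul_le_mul_of_nonneg_right _ hS0
        apply mul_le_mul
        · linarith
        · apply Real.exp_le_exp.2
          apply mul_le_mul_of_nonneg_right _ hρ
          have : 0 ≤ C0 * |C1| * (2 * N).factorial := by positivity
          linarith
        · positivity
        · positivity

theorem PX6_three {C1 C2 C3 ρ S B : ℝ} (h1 : 0 ≤ C1) (h2 : 0 ≤ C2) (h3 : 0 ≤ C3)
    (hρ : 0 ≤ ρ) (hS : 0 ≤ S) (hB : 0 ≤ B) :
    C1 * Real.exp (C1 * ρ) * S * B + C2 * Real.exp (C2 * ρ) * S * B +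
      C3 * Real.exp (C3 * ρ) * S * B ≤
    (C1 + C2 + C3) * Real.exp ((C1 + C2 + C3) * ρ) * S * B := by
  have e1 : Real.exp (C1 * ρ) ≤ Real.exp ((C1 + C2 + C3) * ρ) :=
    Real.exp_le_exp.2 (mul_le_mul_of_nonneg_right (by linarith) hρ)
  have e2 : Real.exp (C2 * ρ) ≤ Real.exp ((C1 + C2 + C3) * ρ) :=
    Real.exp_le_exp.2 (mul_le_mul_of_nonneg_right (by linarith) hρ)
  have e3 : Real.exp (C3 * ρ) ≤ Real.exp ((C1 + C2 + C3) * ρ) :=
    Real.exp_le_exp.2 (mul_le_mul_of_nonneg_right (by linarith) hρ)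
  have hSB : 0 ≤ S * B := mul_nonneg hS hB
  have f1 := mul_le_mul_of_nonneg_right (mul_le_mul_of_nonneg_left e1 h1) hSB
  have f2 := mul_le_mul_of_nonneg_right (mul_le_mul_of_nonneg_left e2 h2) hSB
  have f3 := mul_le_mul_of_nonneg_right (mul_le_mul_of_nonneg_left e3 h3) hSB
  nlinarith [f1, f2, f3]

theorem PX6_bound (hG : Fam K G) (k : ℕ) : ∀ (N : ℕ), 2 * k + 1 ≤ N → ∀ (c : Pl × Pl → ℝ),
    RB K c → ∃ C : ℝ, 0 ≤ C ∧ ∀ x ∈ K, ∀ (lam2 : ℝ) (U : Pl → ℝ), ContDiff ℝ ∞ U →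
      WkEig (fun v => G (x, v)) lam2 U → ∀ (q : ℝ → ℝ) (ρ S : ℝ), 0 ≤ ρ → Tl q ρ →
      (∀ t, 0 ≤ t → |deriv q t| ≤ S) → ∀ ε : ℝ, 0 < ε →
      |lam2| ^ k * |∫ v, c (x, v) * Ab N q (sg v + ε) * U v * wt (fun v => G (x, v)) v| ≤
        C * Real.exp (C * ρ) * S *
          ∫ v in {v | sg v ≤ ρ ^ 2}, |U v| * wt (fun v => G (x, v)) v := by
  induction k with
  | zero =>
    intro N hN c hc
    obtain ⟨C, hC, hb⟩ := PX6_pt hc (N := N) (by omega)
    refine ⟨C, hC, ?_⟩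
    intro x hx lam2 U hU hw q ρ S hρ hq hS ε hε
    have hP := hG.pm x
    rw [pow_zero, one_mul, ← integral_const_mul]
    rw [← setIntegral_eq_integral_of_forall_compl_eq_zero (s := {v : Pl | sg v ≤ ρ ^ 2})
      (f := fun v => c (x, v) * Ab N q (sg v + ε) * U v * wt (fun v => G (x, v)) v)
      (fun v hv => by
        show c (x, v) * Ab N q (sg v + ε) * U v * wt (fun v => G (x, v)) v = 0
        rw [PX6_A_zero hρ hq hε N hv]
        ring)]
    rw [← Real.norm_eq_abs]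
    apply norm_integral_le_of_norm_le ((PX6_intB hρ hP hU.continuous).const_mul _)
    rw [ae_restrict_iff' (PX6_ball_compact hρ).measurableSet]
    refine Eventually.of_forall fun v hv => ?_
    have h1 := hb x hx q ρ S hρ hq hS v hv (sg v + ε) (by have := PX6_sg_nonneg v; linarith)
    have hwp := wt_pos hP v
    rw [Real.norm_eq_abs, abs_mul, abs_mul, abs_of_pos hwp, mul_assoc]
    exact mul_le_mul_of_nonneg_right h1 (mul_nonneg (abs_nonneg _) hwp.le)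
  | succ k ih =>
    intro N hN c hc
    obtain ⟨M, rfl⟩ : ∃ M, N = M + 2 := ⟨N - 2, by omega⟩
    obtain ⟨C1, hC1, h1⟩ := ih M (by omega) _ (PX6_RB_E hc)
    obtain ⟨C2, hC2, h2⟩ := ih (M + 1) (by omega) _ (PX6_RB_F hG hc)
    obtain ⟨C3, hC3, h3⟩ := ih (M + 2) (by omega) _ (PX6_RB_H hG hc)
    refine ⟨C1 + C2 + C3, by positivity, ?_⟩
    intro x hx lam2 U hU hw q ρ S hρ hq hS ε hε
    have hS0 : 0 ≤ S := (abs_nonneg _).trans (hS 0 le_rfl)
    have b1 := h1 x hx lam2 U hU hw q ρ S hρ hq hS ε hε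
    have b2 := h2 x hx lam2 U hU hw q ρ S hρ hq hS ε hε
    have b3 := h3 x hx lam2 U hU hw q ρ S hρ hq hS ε hε
    have hst := PX6_step hG hc (x := x) hU hw hρ hq hε M
    refine le_trans ?_ (PX6_three hC1 hC2 hC3 hρ hS0 (PX6_B_nonneg (hG.pm x)))
    have hB := PX6_B_nonneg (ρ := ρ) (U := U) (hG.pm x)
    rw [pow_succ, mul_assoc, ← abs_mul, hst, abs_neg]
    refine le_trans (mul_le_mul_of_nonneg_left (abs_add_three _ _ _) (by positivity)) ?_
    rw [mul_add, mul_add]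
    linarith

theorem smoothing {K : Set Pl} {G : Pl × Pl → Co} (hG : Fam K G) {c : Pl × Pl → ℝ}
    (hc : RB K c) (k N : ℕ) (hN : 2 * k + 1 ≤ N) :
    ∃ C : ℝ, ∀ x ∈ K, ∀ (lam2 : ℝ) (U : Pl → ℝ), ContDiff ℝ ∞ U →
      WkEig (fun v => G (x, v)) lam2 U → ∀ (q : ℝ → ℝ) (ρ S : ℝ), 0 ≤ ρ → Tl q ρ →
      (∀ t, 0 ≤ t → |deriv q t| ≤ S) →
      |lam2| ^ k * |∫ v, c (x, v) * Ab N q (sg v) * U v * wt (fun v => G (x, v)) v| ≤
        C * Real.exp (C * ρ) * S *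
          ∫ v in {v | sg v ≤ ρ ^ 2}, |U v| * wt (fun v => G (x, v)) v := by
  obtain ⟨C, hC, hb⟩ := PX6_bound hG k N hN c hc
  obtain ⟨C', hC', hpt⟩ := PX6_pt hc (N := N) (by omega)
  refine ⟨C, ?_⟩
  intro x hx lam2 U hU hw q ρ S hρ hq hS
  have hP := hG.pm x
  have hcs := (PX6_slice hc.1 x).continuous
  set F : ℕ → Pl → ℝ := fun n v =>
    c (x, v) * Ab N q (sg v + 1 / ((n : ℝ) + 1)) * U v * wt (fun v => G (x, v)) v with hF
  have hpos : ∀ n : ℕ, 0 < 1 / ((n : ℝ) + 1) := fun n => by positivity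
  have hlim : Tendsto (fun n => ∫ v, F n v) atTop
      (𝓝 (∫ v, c (x, v) * Ab N q (sg v) * U v * wt (fun v => G (x, v)) v)) := by
    apply tendsto_integral_of_dominated_convergence
      (indicator {v : Pl | sg v ≤ ρ ^ 2}
        (fun v => C' * Real.exp (C' * ρ) * S * (|U v| * wt (fun v => G (x, v)) v)))
    · intro n
      exact (PX6_int hρ hq (hpos n) N hP hcs hU.continuous).aestronglyMeasurable
    · rw [integrable_indicator_iff (PX6_ball_compact hρ).measurableSet]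
      exact (PX6_intB hρ hP hU.continuous).const_mul _
    · intro n
      refine Eventually.of_forall fun v => ?_
      by_cases hv : sg v ≤ ρ ^ 2
      · rw [indicator_of_mem (show v ∈ {v : Pl | sg v ≤ ρ ^ 2} from hv)]
        have h1 := hpt x hx q ρ S hρ hq hS v hv (sg v + 1 / ((n : ℝ) + 1))
          (by have := PX6_sg_nonneg v; have := hpos n; linarith)
        have hwp := wt_pos hP v
        simp only [hF]
        rw [Real.norm_eq_abs, abs_mul, abs_mul, abs_of_pos hwp, mul_assoc]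
        exact mul_le_mul_of_nonneg_right h1 (mul_nonneg (abs_nonneg _) hwp.le)
      · rw [indicator_of_notMem (show v ∉ {v : Pl | sg v ≤ ρ ^ 2} from hv)]
        simp only [hF]
        rw [PX6_A_zero hρ hq (hpos n) N hv]
        simp
    · have hne : ∀ᵐ v : Pl, v ≠ 0 := by
        rw [ae_iff]
        simp
      filter_upwards [hne] with v hv
      have hs : 0 < sg v := by
        rcases eq_or_lt_of_le (PX6_sg_nonneg v) with h | h
        · exfalso
          apply hv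
          unfold sg at h
          have h1 : v.1 = 0 := by nlinarith [sq_nonneg v.1, sq_nonneg v.2]
          have h2 : v.2 = 0 := by nlinarith [sq_nonneg v.1, sq_nonneg v.2]
          exact Prod.ext h1 h2
        · exact h
      have hcont : ContinuousAt (Ab N q) (sg v) :=
        (Ab_contDiffOn hρ hq N).continuousOn.continuousAt (Ioi_mem_nhds hs)
      have ht : Tendsto (fun n : ℕ => sg v + 1 / ((n : ℝ) + 1)) atTop (𝓝 (sg v)) := by
        have := (tendsto_const_nhds (x := sg v)).add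
          (tendsto_one_div_add_atTop_nhds_zero_nat (𝕜 := ℝ))
        rwa [add_zero] at this
      have hA : Tendsto (fun n : ℕ => Ab N q (sg v + 1 / ((n : ℝ) + 1))) atTop
          (𝓝 (Ab N q (sg v))) := hcont.tendsto.comp ht
      exact ((tendsto_const_nhds.mul hA).mul tendsto_const_nhds).mul tendsto_const_nhds
  have hlim2 := (hlim.abs).const_mul (|lam2| ^ k)
  refine le_of_tendsto hlim2 (Eventually.of_forall fun n => ?_)
  exact hb x hx lam2 U hU hw q ρ S hρ hq hS _ (hpos n)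

end BR
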