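import Pool.Agent.LibBR70.H1i

/-! Row H1j (cites H1h, H1i): the inverse of the exponential map is smooth.
Plan. `Ex_bij`: `hadamard` with `k = 1` and `Ex_expand`. `Ex_Vx`, `Vx_Ex`: `Function.rightInverse_invFun`,
`Function.leftInverse_invFun`. `Vx_smooth`: `Ψ (x, v) = (x, Ex m x v)` is smooth and bijective on
`Pl × Pl` and its derivative is invertible everywhere (block triangular with blocks `id` and
`fderiv (Ex m x) v`, injective by `Ex_expand`); its inverse is `(x, y) ↦ (x, Vx m x y)`, smooth by the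
inverse function theorem (`ContDiffAt.to_localInverse`, or `OpenPartialHomeomorph.contDiffAt_symm` after
making `Ψ` an `OpenPartialHomeomorph`; near each point the local inverse agrees with the global one by
injectivity). `Vx_self`: `Ex m x 0 = x`. `Vx_rev`: if `y = Ex m x v` then `x = Ex m y (-w)` with
`w = (gfl m 1 (x, v)).2` (`Ex_add` with `s = 1`, `t = -1`). -/

open MeasureTheory Set Filter Topology
open scoped ContDiff

namespace BR

open BGS

variable {Γ : Type} [Group Γ] [MulAction Γ Pl] {D : Set Pl}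

theorem Ex_bij (hX : Surface Γ D) {m : Pl → Co} (hm : HM Γ m) (x : Pl) :
    Function.Bijective (Ex m x) :=
  hadamard hX hm (Φ := Ex m x) ((Ex_smooth hX hm).comp (contDiff_const.prodMk contDiff_id))
    one_pos (fun v w => by rw [one_mul]; exact Ex_expand hX hm x v w)

theorem Ex_Vx (hX : Surface Γ D) {m : Pl → Co} (hm : HM Γ m) (x y : Pl) :
    Ex m x (Vx m x y) = y :=
  Function.rightInverse_invFun (Ex_bij hX hm x).2 y

theorem Vx_Ex (hX : Surface Γ D) {m : Pl → Co} (hm : HM Γ m) (x v : Pl) :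
    Vx m x (Ex m x v) = v :=
  Function.leftInverse_invFun (Ex_bij hX hm x).1 v

theorem Vx_self (hX : Surface Γ D) {m : Pl → Co} (hm : HM Γ m) (x : Pl) : Vx m x x = 0 := by
  have h := Vx_Ex hX hm x 0
  rwa [Ex_zero hX hm] at h

private theorem H1j_eu_zero {v : Pl} (h : eu v ^ 2 ≤ 0) : v = 0 := by
  have h1 : eu v ^ 2 = v.1 ^ 2 + v.2 ^ 2 := Real.sq_sqrt (by positivity)
  rw [h1] at h
  have h2 : v.1 = 0 := by nlinarith [sq_nonneg v.1, sq_nonneg v.2]
  have h3 : v.2 = 0 := by nlinarith [sq_nonneg v.1, sq_nonneg v.2]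
  exact Prod.ext h2 h3

private theorem H1j_inj (hX : Surface Γ D) {m : Pl → Co} (hm : HM Γ m) (a : Pl × Pl) :
    Function.Injective (fderiv ℝ (fun p : Pl × Pl => ((p.1, Ex m p.1 p.2) : Pl × Pl)) a) := by
  set Ψ : Pl × Pl → Pl × Pl := fun p => (p.1, Ex m p.1 p.2) with hΨ
  have hs : ContDiff ℝ ∞ Ψ := contDiff_fst.prodMk (Ex_smooth hX hm)
  have hd : Differentiable ℝ Ψ := hs.differentiable (by simp)
  have hE : Differentiable ℝ (Ex m a.1) :=
    ((Ex_smooth hX hm).comp (contDiff_const.prodMk contDiff_id)).differentiable (by simp)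
  rw [injective_iff_map_eq_zero]
  rintro ⟨b, c⟩ h
  have h1 : (ContinuousLinearMap.fst ℝ Pl Pl).comp (fderiv ℝ Ψ a) =
      ContinuousLinearMap.fst ℝ Pl Pl := by
    have e1 := (ContinuousLinearMap.fst ℝ Pl Pl).hasFDerivAt.comp a (hd a).hasFDerivAt
    have e2 : HasFDerivAt (fun p : Pl × Pl => p.1) (ContinuousLinearMap.fst ℝ Pl Pl) a :=
      hasFDerivAt_fst
    exact e1.unique e2
  have h2 : b = 0 := by
    have e1 := congrArg (fun f : (Pl × Pl) →L[ℝ] Pl => f (b, c)) h1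
    simp only [ContinuousLinearMap.comp_apply, h, map_zero] at e1
    exact e1.symm
  subst h2
  have h0 : HasDerivAt (fun s : ℝ => a.2 + s • c) c 0 := by
    simpa using ((hasDerivAt_id (0 : ℝ)).smul_const c).const_add a.2
  have h3 : HasDerivAt (fun s : ℝ => ((a.1, a.2 + s • c) : Pl × Pl)) ((0, c) : Pl × Pl) 0 :=
    (hasDerivAt_const (0 : ℝ) a.1).prodMk h0
  have h4 : HasFDerivAt Ψ (fderiv ℝ Ψ a) ((a.1, a.2 + (0 : ℝ) • c) : Pl × Pl) := by
    rw [zero_smul, add_zero]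
    exact (hd a).hasFDerivAt
  have h5 := (ContinuousLinearMap.snd ℝ Pl Pl).hasFDerivAt.comp_hasDerivAt (0 : ℝ)
    (h4.comp_hasDerivAt (0 : ℝ) h3)
  have h6 : HasFDerivAt (Ex m a.1) (fderiv ℝ (Ex m a.1) a.2) (a.2 + (0 : ℝ) • c) := by
    rw [zero_smul, add_zero]
    exact (hE a.2).hasFDerivAt
  have h7 := h6.comp_hasDerivAt (0 : ℝ) h0
  have h8 := h7.unique h5
  rw [h, map_zero] at h8
  have h9 := Ex_expand hX hm a.1 a.2 c
  rw [h8] at h9
  have h10 : qf (m (Ex m a.1 a.2)) 0 = 0 := by simp [qf]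
  rw [h10] at h9
  rw [H1j_eu_zero h9]
  rfl

theorem Vx_smooth (hX : Surface Γ D) {m : Pl → Co} (hm : HM Γ m) :
    ContDiff ℝ ∞ (fun p : Pl × Pl => Vx m p.1 p.2) := by
  set Ψ : Pl × Pl → Pl × Pl := fun p => (p.1, Ex m p.1 p.2) with hΨ
  set g : Pl × Pl → Pl × Pl := fun p => (p.1, Vx m p.1 p.2) with hg
  have hs : ContDiff ℝ ∞ Ψ := contDiff_fst.prodMk (Ex_smooth hX hm)
  have hd : Differentiable ℝ Ψ := hs.differentiable (by simp)
  have hΨg : ∀ q, Ψ (g q) = q := fun q => Prod.ext rfl (Ex_Vx hX hm q.1 q.2)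
  have hgΨ : ∀ q, g (Ψ q) = q := fun q => Prod.ext rfl (Vx_Ex hX hm q.1 q.2)
  have hinj : Function.Injective Ψ := Function.LeftInverse.injective hgΨ
  have hgs : ContDiff ℝ ∞ g := by
    rw [contDiff_iff_contDiffAt]
    intro q
    have hq := hΨg q
    set a := g q with ha
    have hinjd : Function.Injective (fderiv ℝ Ψ a) := H1j_inj hX hm a
    let A : (Pl × Pl) ≃L[ℝ] (Pl × Pl) :=
      (LinearEquiv.ofInjectiveEndo (fderiv ℝ Ψ a : (Pl × Pl) →ₗ[ℝ] (Pl × Pl))
        hinjd).toContinuousLinearEquiv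
    have hA : (A : (Pl × Pl) →L[ℝ] (Pl × Pl)) = fderiv ℝ Ψ a :=
      ContinuousLinearMap.ext fun v => rfl
    have hf' : HasFDerivAt Ψ (A : (Pl × Pl) →L[ℝ] (Pl × Pl)) a := by
      rw [hA]
      exact (hd a).hasFDerivAt
    have hn : (∞ : WithTop ℕ∞) ≠ 0 := by simp
    have hc : ContDiffAt ℝ ∞ Ψ a := hs.contDiffAt
    have h1 := hc.to_localInverse hf' hn
    have h2 := (hc.hasStrictFDerivAt' hf' hn).eventually_right_inverse
    rw [hq] at h1 h2
    refine h1.congr_of_eventuallyEq ?_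
    filter_upwards [h2] with y hy
    exact hinj ((hΨg y).trans hy.symm)
  exact contDiff_snd.comp hgs

/-- The segment seen from its end. -/
theorem Vx_rev (hX : Surface Γ D) {m : Pl → Co} (hm : HM Γ m) (x v : Pl) :
    Vx m (Ex m x v) x = -(gfl m 1 (x, v)).2 := by
  have h := Ex_add hX hm 1 (-1) x v
  rw [add_neg_cancel, zero_smul, Ex_zero hX hm, one_smul, neg_one_smul] at h
  have h2 := Vx_Ex hX hm (Ex m x v) (-(gfl m 1 (x, v)).2)
  rwa [← h] at h2

theorem eu_Vx_comm (hX : Surface Γ D) {m : Pl → Co} (hm : HM Γ m) (x y : Pl) :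
    eu (Vx m x y) = eu (Vx m y x) := by
  have h := Vx_rev hX hm x (Vx m x y)
  rw [Ex_Vx hX hm] at h
  have h1 : ∀ v : Pl, eu (-v) = eu v := fun v => by simp [eu]
  rw [h, h1, gfl_eu hX hm]

theorem eu_Vx_pos (hX : Surface Γ D) {m : Pl → Co} (hm : HM Γ m) {x y : Pl} (h : x ≠ y) :
    0 < eu (Vx m x y) := by
  by_contra hc
  have h0 : 0 ≤ eu (Vx m x y) := Real.sqrt_nonneg _
  have h1 : eu (Vx m x y) = 0 := le_antisymm (not_lt.1 hc) h0
  have h2 : Vx m x y = 0 := H1j_eu_zero (by rw [h1]; simp)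
  have h3 := Ex_Vx hX hm x y
  rw [h2, Ex_zero hX hm] at h3
  exact h h3

end BR
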