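import Pool.Agent.LibBR70.PX_Defs
import Pool.Agent.LibBR70.H1j
import Pool.Agent.LibBR70.H1n
import Pool.Agent.LibBGR.Per

/-! Row PX7 (cites H1h, H1j, H1n, LibBGR.Per): eigenfunctions of the surface in normal coordinates.
Plan. `weak_plane`: for `F` smooth with compact support let `P = per Γ F` (in `TestS`, `per_mem`). By `EigS`:
`∫_D wf2 (m z) (∇U) (∇P) = lam2 ∫_D U P √dt`. Unfold both sides: the right one is `per_int`; the left one is
`per_int` for `H F = wf2 (m z) (∇U) (∇F) / √dt`, since `H P = per (H F)`.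
`cv`: change of variables with the diffeomorphism `Ex m x` (`Ex_bij`):
`integral_image_eq_integral_abs_det_fderiv_smul`, `|det| √(dt (m (Ex x v))) = wt (Gx m x) v`.
`PX7_pull`: pointwise: with `A = fderiv (Ex m x) v`, gradients transform by the transpose of `A`, `mE` is the
pulled back form: `wf2 (Gx m x v) (∇(U∘Ex)) (∇(F∘Ex)) = |det A| wf2 (m (Ex x v)) (∇U) (∇F)` (algebra as in
`Cover_algebra`). `weak_normal`: for `F` on the `v`-plane put `F' = F ∘ Vx m x`, smooth, compactly supported,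
`F' ∘ Ex m x = F`; apply `weak_plane`, `cv`, `PX7_pull`. -/

open MeasureTheory Set Filter Topology
open scoped ContDiff

namespace BR

open BGS

variable {Γ : Type} [Group Γ] [MulAction Γ Pl] {D : Set Pl}

theorem PX7_lin (f : Pl → ℝ) (z v : Pl) : fderiv ℝ f z v = dx f z * v.1 + dy f z * v.2 := by
  have h1 : v = v.1 • ((1 : ℝ), (0 : ℝ)) + v.2 • ((0 : ℝ), (1 : ℝ)) := by
    ext <;> simp
  conv_lhs => rw [h1]
  rw [map_add, map_smul, map_smul]
  simp only [dx, dy, smul_eq_mul]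
  ring

theorem PX7_algebra {E F G E' F' G' a b c d p q p' q' r s r' s' : ℝ}
    (hE : E' * a ^ 2 + 2 * F' * a * c + G' * c ^ 2 = E)
    (hG : E' * b ^ 2 + 2 * F' * b * d + G' * d ^ 2 = G)
    (hF : E' * a * b + F' * (a * d + b * c) + G' * c * d = F)
    (hp : p = p' * a + q' * c) (hq : q = p' * b + q' * d)
    (hr : r = r' * a + s' * c) (hs : s = r' * b + s' * d) :
    G * p * r - F * (p * s + q * r) + E * q * s =
        (a * d - b * c) ^ 2 * (G' * p' * r' - F' * (p' * s' + q' * r') + E' * q' * s') ∧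
      E * G - F ^ 2 = (a * d - b * c) ^ 2 * (E' * G' - F' ^ 2) := by
  subst hE hG hF hp hq hr hs
  constructor <;> ring

theorem PX7_coef {A : Pl →L[ℝ] Pl} {c c' : Co} (hq : ∀ v, qf c' (A v) = qf c v) :
    c'.1 * (A (1, 0)).1 ^ 2 + 2 * c'.2.1 * (A (1, 0)).1 * (A (1, 0)).2 +
        c'.2.2 * (A (1, 0)).2 ^ 2 = c.1 ∧
      c'.1 * (A (0, 1)).1 ^ 2 + 2 * c'.2.1 * (A (0, 1)).1 * (A (0, 1)).2 +
        c'.2.2 * (A (0, 1)).2 ^ 2 = c.2.2 ∧
      c'.1 * (A (1, 0)).1 * (A (0, 1)).1 + c'.2.1 * ((A (1, 0)).1 * (A (0, 1)).2 +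
        (A (0, 1)).1 * (A (1, 0)).2) + c'.2.2 * (A (1, 0)).2 * (A (0, 1)).2 = c.2.1 := by
  have h10 := hq (1, 0)
  have h01 := hq (0, 1)
  have h11 := hq (1, 1)
  rw [PER_apply A (1, 1)] at h11
  simp only [qf] at h10 h01 h11
  refine ⟨by linarith, by linarith, by linarith⟩

theorem PX7_dens {A : Pl →L[ℝ] Pl} {c c' : Co} (hq : ∀ v, qf c' (A v) = qf c v) :
    √(dt c) = |A.det| * √(dt c') := by
  obtain ⟨h1, h2, h3⟩ := PX7_coef hq
  have hd := (PX7_algebra h1 h2 h3 (p := 0) (q := 0) (p' := 0) (q' := 0) (r := 0) (s := 0)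
    (r' := 0) (s' := 0) (by ring) (by ring) (by ring) (by ring)).2
  have hd' : dt c = A.det ^ 2 * dt c' := by
    rw [PER_det A]
    exact hd
  rw [hd', Real.sqrt_mul (sq_nonneg _), Real.sqrt_sq_eq_abs]

theorem PX7_pull {φ : Pl → Pl} {z : Pl} (hφ : DifferentiableAt ℝ φ z) {c c' : Co}
    (hpos : 0 < dt c) (hpos' : 0 < dt c') (hq : ∀ v, qf c' (fderiv ℝ φ z v) = qf c v)
    {u f : Pl → ℝ} (hu : DifferentiableAt ℝ u (φ z)) (hf : DifferentiableAt ℝ f (φ z)) :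
    wf2 c (dx (fun w => u (φ w)) z) (dy (fun w => u (φ w)) z) (dx (fun w => f (φ w)) z)
        (dy (fun w => f (φ w)) z) =
      |(fderiv ℝ φ z).det| * wf2 c' (dx u (φ z)) (dy u (φ z)) (dx f (φ z)) (dy f (φ z)) := by
  set A := fderiv ℝ φ z with hA
  have hg : ∀ g : Pl → ℝ, DifferentiableAt ℝ g (φ z) → ∀ v : Pl,
      fderiv ℝ (fun w => g (φ w)) z v = dx g (φ z) * (A v).1 + dy g (φ z) * (A v).2 := by
    intro g hg v
    have h1 : HasFDerivAt (fun w : Pl => g (φ w)) ((fderiv ℝ g (φ z)).comp A) z :=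
      hg.hasFDerivAt.comp z hφ.hasFDerivAt
    rw [h1.fderiv]
    exact PX7_lin g (φ z) (A v)
  obtain ⟨h1, h2, h3⟩ := PX7_coef hq
  obtain ⟨hN, hd⟩ := PX7_algebra h1 h2 h3 (hg u hu (1, 0)) (hg u hu (0, 1)) (hg f hf (1, 0))
    (hg f hf (0, 1))
  have hdet : A.det = (A (1, 0)).1 * (A (0, 1)).2 - (A (0, 1)).1 * (A (1, 0)).2 := PER_det A
  have hd' : dt c = A.det ^ 2 * dt c' := by
    rw [hdet]
    exact hd
  have hdet0 : A.det ≠ 0 := by
    intro h0
    rw [h0] at hd'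
    rw [hd'] at hpos
    norm_num at hpos
  have hs : √(dt c) = |A.det| * √(dt c') := PX7_dens hq
  unfold wf2
  change (c.2.2 * fderiv ℝ (fun w => u (φ w)) z (1, 0) * fderiv ℝ (fun w => f (φ w)) z (1, 0) -
    c.2.1 * (fderiv ℝ (fun w => u (φ w)) z (1, 0) * fderiv ℝ (fun w => f (φ w)) z (0, 1) +
      fderiv ℝ (fun w => u (φ w)) z (0, 1) * fderiv ℝ (fun w => f (φ w)) z (1, 0)) +
    c.1 * fderiv ℝ (fun w => u (φ w)) z (0, 1) * fderiv ℝ (fun w => f (φ w)) z (0, 1)) /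
      √(dt c) = _
  rw [hs, hN, ← hdet]
  have h1 : |A.det| ≠ 0 := abs_ne_zero.2 hdet0
  have h2 : √(dt c') ≠ 0 := (Real.sqrt_pos.2 hpos').ne'
  have h3 : A.det ^ 2 = |A.det| * |A.det| := by rw [← sq, sq_abs]
  rw [h3]
  field_simp

theorem hm_of_Mt (m : Mt Γ D) : HM Γ m.1.1 := ⟨m.1.2, m.2.pos, m.2.inv, m.2.neg⟩

/-- The density of the energy with respect to the area. -/
noncomputable def PX7_H (m : Pl → Co) (U F : Pl → ℝ) (z : Pl) : ℝ :=
  wf2 (m z) (dx U z) (dy U z) (dx F z) (dy F z) / √(dt (m z))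

theorem PX7_dx_smooth {U : Pl → ℝ} (hU : ContDiff ℝ ∞ U) : ContDiff ℝ ∞ (dx U) :=
  (hU.fderiv_right (m := ∞) (by simp)).clm_apply contDiff_const

theorem PX7_dy_smooth {U : Pl → ℝ} (hU : ContDiff ℝ ∞ U) : ContDiff ℝ ∞ (dy U) :=
  (hU.fderiv_right (m := ∞) (by simp)).clm_apply contDiff_const

theorem PX7_H_smooth {m : Pl → Co} (hm : HM Γ m) {U F : Pl → ℝ} (hU : ContDiff ℝ ∞ U)
    (hF : ContDiff ℝ ∞ F) : ContDiff ℝ ∞ (PX7_H m U F) := by
  have h1 := hm.smooth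
  have h11 : ContDiff ℝ ∞ (fun z => (m z).1) := h1.fst
  have h12 : ContDiff ℝ ∞ (fun z => (m z).2.1) := h1.snd.fst
  have h22 : ContDiff ℝ ∞ (fun z => (m z).2.2) := h1.snd.snd
  have hdt : ContDiff ℝ ∞ (fun z => dt (m z)) := by
    unfold dt
    exact (h11.mul h22).sub (h12.pow 2)
  have hs : ContDiff ℝ ∞ (fun z => √(dt (m z))) := hdt.sqrt (fun z => (hm.pos z).2.ne')
  have hs0 : ∀ z, √(dt (m z)) ≠ 0 := fun z => (Real.sqrt_pos.2 (hm.pos z).2).ne'
  have a := PX7_dx_smooth hU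
  have b := PX7_dy_smooth hU
  have c := PX7_dx_smooth hF
  have d := PX7_dy_smooth hF
  unfold PX7_H wf2
  refine ContDiff.div (ContDiff.div ?_ hs hs0) hs hs0
  exact (((h22.mul a).mul c).sub (h12.mul ((a.mul d).add (b.mul c)))).add ((h11.mul b).mul d)

theorem PX7_H_zero (m : Pl → Co) (U : Pl → ℝ) {F : Pl → ℝ} {z : Pl} (h : F =ᶠ[𝓝 z] fun _ => 0) :
    PX7_H m U F z = 0 := by
  have h1 : fderiv ℝ F z = 0 := by
    rw [h.fderiv_eq]
    simp
  unfold PX7_H wf2 dx dy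
  rw [h1]
  simp

theorem PX7_H_compact (m : Pl → Co) (U : Pl → ℝ) {F : Pl → ℝ} (hc : HasCompactSupport F) :
    HasCompactSupport (PX7_H m U F) := by
  refine HasCompactSupport.intro hc (fun z hz => PX7_H_zero m U ?_)
  have h1 : (tsupport F)ᶜ ∈ 𝓝 z := (isClosed_tsupport F).isOpen_compl.mem_nhds hz
  filter_upwards [h1] with w hw
  exact image_eq_zero_of_notMem_tsupport hw

theorem PX7_H_deck (hX : Surface Γ D) {m : Pl → Co} (hm : HM Γ m) {U F : Pl → ℝ}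
    (hU : ContDiff ℝ ∞ U) (hUi : ∀ (γ : Γ) z, U (γ • z) = U z) (hF : ContDiff ℝ ∞ F) (γ : Γ)
    (z : Pl) : PX7_H m U (fun w => F (γ • w)) z = PX7_H m U F (γ • z) := by
  have hd : ∀ v, qf (m (γ • z)) (fderiv ℝ (fun w : Pl => γ • w) z v) = qf (m z) v := hm.inv γ z
  have h1 := PX7_pull (φ := fun w : Pl => γ • w) (z := z) ((hX.smooth γ).differentiable (by simp) z)
    (hm.pos z).2 (hm.pos (γ • z)).2 hd (hU.differentiable (by simp) _)
    (hF.differentiable (by simp) _)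
  have h2 : (fun w => U (γ • w)) = U := funext fun w => hUi γ w
  rw [h2] at h1
  have h3 := PX7_dens hd
  have h4 : 0 < √(dt (m z)) := Real.sqrt_pos.2 (hm.pos z).2
  have h5 : |(fderiv ℝ (fun w : Pl => γ • w) z).det| ≠ 0 := by
    intro h0
    rw [h0, zero_mul] at h3
    exact h4.ne' h3
  unfold PX7_H
  rw [h1, h3, mul_div_mul_left _ _ h5]

theorem PX7_H_sum {κ : Type} (m : Pl → Co) (U : Pl → ℝ) (S : Finset κ) {F : κ → Pl → ℝ}
    (hF : ∀ γ ∈ S, ContDiff ℝ ∞ (F γ)) (z : Pl) :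
    PX7_H m U (fun w => ∑ γ ∈ S, F γ w) z = ∑ γ ∈ S, PX7_H m U (F γ) z := by
  have h1 : fderiv ℝ (fun w => ∑ γ ∈ S, F γ w) z = ∑ γ ∈ S, fderiv ℝ (F γ) z :=
    fderiv_fun_sum fun γ hγ => (hF γ hγ).differentiable (by simp) z
  have h2 : dx (fun w => ∑ γ ∈ S, F γ w) z = ∑ γ ∈ S, dx (F γ) z := by
    unfold dx
    rw [h1, _root_.sum_apply]
  have h3 : dy (fun w => ∑ γ ∈ S, F γ w) z = ∑ γ ∈ S, dy (F γ) z := by
    unfold dy
    rw [h1, _root_.sum_apply]
  unfold PX7_H wf2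
  rw [h2, h3, ← Finset.sum_div, ← Finset.sum_div, Finset.sum_add_distrib, Finset.sum_sub_distrib,
    ← Finset.mul_sum, ← Finset.mul_sum, ← Finset.mul_sum, Finset.sum_add_distrib,
    ← Finset.mul_sum, ← Finset.mul_sum]

theorem PX7_H_per (hX : Surface Γ D) {m : Pl → Co} (hm : HM Γ m) {U F : Pl → ℝ}
    (hU : ContDiff ℝ ∞ U) (hUi : ∀ (γ : Γ) z, U (γ • z) = U z) (hF : ContDiff ℝ ∞ F)
    (hc : HasCompactSupport F) (z : Pl) :
    PX7_H m U (per Γ F) z = per Γ (PX7_H m U F) z := by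
  obtain ⟨S, hS0, hS⟩ := PER_fin hX hc (isCompact_closedBall z 1)
  have hball : Metric.closedBall z 1 ∈ 𝓝 z := Metric.closedBall_mem_nhds z one_pos
  have h1 : per Γ F =ᶠ[𝓝 z] fun w => ∑ γ ∈ S, F (γ • w) := by
    filter_upwards [hball] with w hw
    exact hS w hw
  have h2 : PX7_H m U (per Γ F) z = PX7_H m U (fun w => ∑ γ ∈ S, F (γ • w)) z := by
    unfold PX7_H dx dy
    rw [h1.fderiv_eq]
  rw [h2, PX7_H_sum m U S (F := fun γ w => F (γ • w)) (fun γ _ => hF.comp (hX.smooth γ))]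
  unfold per
  rw [finsum_eq_sum_of_support_subset (s := S)]
  · refine Finset.sum_congr rfl fun γ _ => ?_
    exact PX7_H_deck hX hm hU hUi hF γ z
  · intro γ hγ
    by_contra hcon
    apply hγ
    show PX7_H m U F (γ • z) = 0
    rw [← PX7_H_deck hX hm hU hUi hF γ z]
    refine PX7_H_zero m U ?_
    filter_upwards [hball] with w hw
    exact hS0 w hw γ hcon

theorem weak_plane (hX : Surface Γ D) (m : Mt Γ D) {lam2 : ℝ} {U : TestS Γ}
    (h : EigS hX m lam2 U) {F : Pl → ℝ} (hF : ContDiff ℝ ∞ F) (hc : HasCompactSupport F) :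
    ∫ z, wf2 (m.1.1 z) (dx U.1 z) (dy U.1 z) (dx F z) (dy F z) =
      lam2 * ∫ z, U.1 z * F z * √(dt (m.1.1 z)) := by
  have hm := hm_of_Mt m
  have hU : ContDiff ℝ ∞ U.1 := U.2.1
  have hUi : ∀ (γ : Γ) z, U.1 (γ • z) = U.1 z := U.2.2
  have hE := h ⟨per Γ F, per_mem hX hF hc⟩
  rw [aF_apply, bF_apply] at hE
  have hrw : ∀ (G : Pl → ℝ) (z : Pl), wf2 (m.1.1 z) (dx U.1 z) (dy U.1 z) (dx G z) (dy G z) =
      PX7_H m.1.1 U.1 G z * 1 * √(dt (m.1.1 z)) := by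
    intro G z
    have h4 : √(dt (m.1.1 z)) ≠ 0 := (Real.sqrt_pos.2 (hm.pos z).2).ne'
    unfold PX7_H
    rw [mul_one, div_mul_cancel₀ _ h4]
  have hL : ∫ z in D, wf2 (m.1.1 z) (dx U.1 z) (dy U.1 z) (dx (per Γ F) z) (dy (per Γ F) z) =
      ∫ z, wf2 (m.1.1 z) (dx U.1 z) (dy U.1 z) (dx F z) (dy F z) := by
    have h1 := per_int hX m (PX7_H_smooth hm hU hF) (PX7_H_compact m.1.1 U.1 hc)
      (g := fun _ => 1) continuous_const (fun _ _ => rfl)
    have h2 : ∫ z in D, wf2 (m.1.1 z) (dx U.1 z) (dy U.1 z) (dx (per Γ F) z) (dy (per Γ F) z) =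
        ∫ z in D, per Γ (PX7_H m.1.1 U.1 F) z * 1 * √(dt (m.1.1 z)) := by
      congr 1
      funext z
      rw [hrw, PX7_H_per hX hm hU hUi hF hc]
    rw [h2, h1]
    congr 1
    funext z
    rw [hrw]
  have hR : ∫ z in D, (oneT Γ).1 z * U.1 z * per Γ F z * √(dt (m.1.1 z)) =
      ∫ z, U.1 z * F z * √(dt (m.1.1 z)) := by
    have h1 := per_int hX m hF hc (g := U.1) hU.continuous hUi
    have h2 : ∫ z in D, (oneT Γ).1 z * U.1 z * per Γ F z * √(dt (m.1.1 z)) =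
        ∫ z in D, per Γ F z * U.1 z * √(dt (m.1.1 z)) := by
      congr 1
      funext z
      show 1 * U.1 z * per Γ F z * √(dt (m.1.1 z)) = per Γ F z * U.1 z * √(dt (m.1.1 z))
      ring
    rw [h2, h1]
    congr 1
    funext z
    ring
  have hE' : ∫ z in D, wf2 (m.1.1 z) (dx U.1 z) (dy U.1 z) (dx (per Γ F) z) (dy (per Γ F) z) =
      lam2 * ∫ z in D, (oneT Γ).1 z * U.1 z * per Γ F z * √(dt (m.1.1 z)) := hE
  rw [hL, hR] at hE'
  exact hE'

theorem PX7_Ex_smooth (hX : Surface Γ D) {m : Pl → Co} (hm : HM Γ m) (x : Pl) :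
    ContDiff ℝ ∞ (Ex m x) :=
  (Ex_smooth hX hm).comp (contDiff_const.prodMk contDiff_id)

theorem PX7_Vx_smooth (hX : Surface Γ D) {m : Pl → Co} (hm : HM Γ m) (x : Pl) :
    ContDiff ℝ ∞ (Vx m x) :=
  (Vx_smooth hX hm).comp (contDiff_const.prodMk contDiff_id)

theorem PX7_qf (m : Pl → Co) (x v w : Pl) :
    qf (m (Ex m x v)) (fderiv ℝ (Ex m x) v w) = qf (Gx m x v) w := by
  rw [PER_apply (fderiv ℝ (Ex m x) v) w]
  unfold Gx mE qf bf
  simp only
  ring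

theorem PX7_wt (m : Pl → Co) (x v : Pl) :
    wt (Gx m x) v = |(fderiv ℝ (Ex m x) v).det| * √(dt (m (Ex m x v))) :=
  PX7_dens (PX7_qf m x v)

theorem cv (hX : Surface Γ D) {m : Pl → Co} (hm : HM Γ m) (x : Pl) (f : Pl → ℝ) :
    ∫ z, f z * √(dt (m z)) = ∫ v, f (Ex m x v) * wt (Gx m x) v := by
  have hE := PX7_Ex_smooth hX hm x
  have hb := Ex_bij hX hm x
  have h1 := integral_image_eq_integral_abs_det_fderiv_smul volume MeasurableSet.univ
    (f := Ex m x) (f' := fun v => fderiv ℝ (Ex m x) v)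
    (fun v _ => (hE.differentiable (by simp) v).hasFDerivAt.hasFDerivWithinAt) hb.1.injOn
    (fun z => f z * √(dt (m z)))
  rw [image_univ, hb.2.range_eq, setIntegral_univ, setIntegral_univ] at h1
  rw [h1]
  congr 1
  funext v
  rw [PX7_wt, smul_eq_mul]
  ring

theorem cv_integrable (hX : Surface Γ D) {m : Pl → Co} (hm : HM Γ m) (x : Pl) (f : Pl → ℝ) :
    Integrable (fun z => f z * √(dt (m z))) ↔
      Integrable (fun v => f (Ex m x v) * wt (Gx m x) v) := by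
  have hE := PX7_Ex_smooth hX hm x
  have hb := Ex_bij hX hm x
  have h1 := integrableOn_image_iff_integrableOn_abs_det_fderiv_smul volume MeasurableSet.univ
    (f := Ex m x) (f' := fun v => fderiv ℝ (Ex m x) v)
    (fun v _ => (hE.differentiable (by simp) v).hasFDerivAt.hasFDerivWithinAt) hb.1.injOn
    (fun z => f z * √(dt (m z)))
  rw [image_univ, hb.2.range_eq, integrableOn_univ, integrableOn_univ] at h1
  rw [h1]
  have h2 : (fun v => |(fderiv ℝ (Ex m x) v).det| • (f (Ex m x v) * √(dt (m (Ex m x v))))) =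
      fun v => f (Ex m x v) * wt (Gx m x) v := by
    funext v
    rw [PX7_wt, smul_eq_mul]
    ring
  rw [h2]

theorem Gx_PMt (hX : Surface Γ D) {m : Pl → Co} (hm : HM Γ m) (x : Pl) : PMt (Gx m x) where
  smooth := (mE_smooth hX hm).comp (contDiff_const.prodMk contDiff_id)
  pos v := ⟨one_pos.trans_le (mE_pos hX hm (x, v)).1, one_pos.trans_le (mE_pos hX hm (x, v)).2⟩
  g1 v := (mE_gauss hX hm x v).1
  g2 v := (mE_gauss hX hm x v).2
  zero := mE_zero hX hm x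

theorem weak_normal (hX : Surface Γ D) (m : Mt Γ D) {lam2 : ℝ} {U : TestS Γ}
    (h : EigS hX m lam2 U) (x : Pl) :
    WkEig (Gx m.1.1 x) lam2 (fun v => U.1 (Ex m.1.1 x v)) := by
  intro F hF hc
  have hm := hm_of_Mt m
  have hE := PX7_Ex_smooth hX hm x
  have hV := PX7_Vx_smooth hX hm x
  have hU : ContDiff ℝ ∞ U.1 := U.2.1
  set F' : Pl → ℝ := fun z => F (Vx m.1.1 x z) with hF'
  have hF's : ContDiff ℝ ∞ F' := hF.comp hV
  have hFE : ∀ v, F' (Ex m.1.1 x v) = F v := fun v => by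
    rw [hF']
    simp only
    rw [Vx_Ex hX hm]
  have hF'c : HasCompactSupport F' := by
    refine HasCompactSupport.intro ((show IsCompact (tsupport F) from hc).image hE.continuous)
      (fun z hz => ?_)
    rw [hF']
    simp only
    by_contra hcon
    apply hz
    refine ⟨Vx m.1.1 x z, subset_tsupport F hcon, Ex_Vx hX hm x z⟩
  have hw := weak_plane hX m h hF's hF'c
  have hR := cv hX hm x (fun z => U.1 z * F' z)
  have hL := cv hX hm x (PX7_H m.1.1 U.1 F')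
  have hs0 : ∀ z, √(dt (m.1.1 z)) ≠ 0 := fun z => (Real.sqrt_pos.2 (hm.pos z).2).ne'
  have e1 : ∫ z, PX7_H m.1.1 U.1 F' z * √(dt (m.1.1 z)) =
      ∫ z, wf2 (m.1.1 z) (dx U.1 z) (dy U.1 z) (dx F' z) (dy F' z) := by
    congr 1
    funext z
    unfold PX7_H
    rw [div_mul_cancel₀ _ (hs0 z)]
  have e2 : ∫ v, PX7_H m.1.1 U.1 F' (Ex m.1.1 x v) * wt (Gx m.1.1 x) v =
      ∫ v, wf2 (Gx m.1.1 x v) (dx (fun v => U.1 (Ex m.1.1 x v)) v)
        (dy (fun v => U.1 (Ex m.1.1 x v)) v) (dx F v) (dy F v) := by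
    congr 1
    funext v
    have h1 := PX7_pull (φ := Ex m.1.1 x) (z := v) (hE.differentiable (by simp) v)
      ((Gx_PMt hX hm x).pos v).2 (hm.pos (Ex m.1.1 x v)).2 (PX7_qf m.1.1 x v)
      (hU.differentiable (by simp) _) (hF's.differentiable (by simp) _)
    have h2 : (fun w => F' (Ex m.1.1 x w)) = F := funext hFE
    rw [h2] at h1
    rw [h1, PX7_wt]
    unfold PX7_H
    have h3 := hs0 (Ex m.1.1 x v)
    field_simp
  rw [e1, e2] at hL
  rw [← hL, hw, hR]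
  congr 2
  funext v
  rw [hFE]

end BR
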