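import Pool.Agent.LibBR70.PX5
import Pool.Agent.LibBR70.PX6
import Pool.Agent.LibBR70.PX7
import Pool.Agent.LibBR70.H1n
import Pool.Agent.LibBR70.H1p
import Pool.Agent.LibBGR.Per

/-! Row PX8 (cites PX5, PX6, PX7, H1n, H1p): the identity on the surface, error term and sup bound.
Plan. `Fam_Gx`: `RB_mE`, `Gx_PMt`, `mE_pos`. `identity`: `main_identity` with `weak_normal`; `Ex m x 0 = x`.
`ball_L2`: for `x ∈ closure D`: `∫_{sg v ≤ ρ²} |U(Ex x v)| w ≤ (∫_{sg v ≤ ρ²} w)^(1/2) (∫_{sg v ≤ ρ²} U² w)^(1/2)`, and both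
factors: by `cv` the integral of an invariant function `f ≥ 0` over `Ex m x {sg v ≤ ρ²}` is at most
`∑_γ ∫_{γ D} f √dt ≤ #{γ : γ D meets the set} ∫_D f √dt`, `count_deck` (`PER_one`-like change of variables).
`Eterm`: `smoothing` with `c = LL (UU 5)` (`RB_LL`, `RB_UU`), `N = 5`, `k = 2` and with `k = 0`, `q = ql lam g`,
`S = C M (ρ + 1)/(1 + |lam - τ|)` (`ql_deriv`, `pl_bound`); add the two bounds.
`sup_bound`: fix one amplitude `a₀` (real, even, `≥ 0`, smooth, supported in `[-1, 1]`, positive integral: a bump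
function); `τ = max lam 1`: `hh (osc a₀ τ) lam ≥ c₀ > 0` for `lam ≥ 1` (`∫ a₀ cos²(lam t)`, at least
`(∫ a₀ + ∫ a₀ cos(2 lam t))/2 ≥ c₀`; for bounded `lam` use compactness or choose `a₀` supported in a small
interval); `identity` with `N = 5`: `|KK| ≤ C τ²` on the support (`Ab_crude0`, `RB_UU`), `Eterm`, `ball_L2`. For
`0 ≤ lam ≤ 1` take `τ = 1` and `a₀` supported in `[-1/2, 1/2]`: `cos(t) cos(lam t) ≥ cos(1/2)² > 0` on the
support. -/

open MeasureTheory Set Filter Topology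
open scoped ContDiff

namespace BR

open BGS

variable {Γ : Type} [Group Γ] [MulAction Γ Pl] {D : Set Pl}

theorem Fam_Gx (hX : Surface Γ D) (hO : Ori Γ) {m : Pl → Co} (hm : HM Γ m) :
    Fam (closure D) (mE m) :=
  ⟨fun x => Gx_PMt hX hm x, RB_mE hX hO hm, fun p => mE_pos hX hm p⟩

theorem PX8_Ex_slice (hX : Surface Γ D) {m : Pl → Co} (hm : HM Γ m) (x : Pl) :
    ContDiff ℝ ∞ (Ex m x) :=
  (Ex_smooth hX hm).comp (contDiff_const.prodMk contDiff_id)

theorem PX8_U (hX : Surface Γ D) (m : Mt Γ D) (U : TestS Γ) (x : Pl) :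
    ContDiff ℝ ∞ (fun v => U.1 (Ex m.1.1 x v)) :=
  U.2.1.comp (PX8_Ex_slice hX (hm_of_Mt m) x)

/-- The exact formula (F). -/
theorem identity (hX : Surface Γ D) (m : Mt Γ D) (N : ℕ) {lam : ℝ} {U : TestS Γ}
    (h : EigS hX m (lam ^ 2) U) {g : ℝ → ℝ} (hg : ContDiff ℝ ∞ g) (he : ∀ t, g (-t) = g t)
    {ρ : ℝ} (hρ : 0 ≤ ρ) (hs : ∀ t, ρ < |t| → g t = 0) (x : Pl) :
    hh g lam * U.1 x =
      (∫ v, KK (Gx m.1.1 x) N g v * U.1 (Ex m.1.1 x v) * wt (Gx m.1.1 x) v) +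
      ∫ v, LL (Gx m.1.1 x) (UU (Gx m.1.1 x) N) v * Ab N (ql lam g) (sg v) *
        U.1 (Ex m.1.1 x v) * wt (Gx m.1.1 x) v := by
  have h1 := main_identity (Gx_PMt hX (hm_of_Mt m) x) N (PX8_U hX m U x) (weak_normal hX m h x)
    hg he hρ hs
  beta_reduce at h1
  rw [Ex_zero hX (hm_of_Mt m) x] at h1
  exact h1

theorem PX8_B_meas (ρ : ℝ) : MeasurableSet {v : Pl | sg v ≤ ρ ^ 2} :=
  (isClosed_le PX6_sg_cont continuous_const).measurableSet

theorem PX8_cover (hX : Surface Γ D) (hO : Ori Γ) (m : Mt Γ D) :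
    ∃ C : ℝ, 0 ≤ C ∧ ∀ f : Pl → ℝ, Continuous f → (∀ z, 0 ≤ f z) →
      (∀ (γ : Γ) z, f (γ • z) = f z) → ∀ ρ : ℝ, 0 ≤ ρ → ∀ x ∈ closure D,
      ∫ v in {v | sg v ≤ ρ ^ 2}, f (Ex m.1.1 x v) * wt (Gx m.1.1 x) v ≤
        C * Real.exp (C * ρ) * ∫ z in D, f z * √(dt (m.1.1 z)) := by
  have hm := hm_of_Mt m
  obtain ⟨C, hC⟩ := count_deck hX hO hm
  refine ⟨|C|, abs_nonneg C, ?_⟩
  intro f hf hf0 hfi ρ hρ x hx
  obtain ⟨hfin, hcard⟩ := hC ρ hρ
  set T : Set Γ := {γ : Γ | ∃ x ∈ closure D, ∃ y ∈ closure D, eu (Vx m.1.1 x (γ • y)) ≤ ρ} with hT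
  set S := hfin.toFinset with hS
  set B : Set Pl := {v : Pl | sg v ≤ ρ ^ 2} with hB
  set K' : Set Pl := Ex m.1.1 x '' B with hK'
  have hinj : Function.Injective (Ex m.1.1 x) := (Ex_bij hX hm x).1
  have hcont : Continuous fun z => f z * √(dt (m.1.1 z)) := hf.mul (BGR_rho m)
  have h1 : ∫ v in B, f (Ex m.1.1 x v) * wt (Gx m.1.1 x) v =
      ∫ v, (indicator K' f) (Ex m.1.1 x v) * wt (Gx m.1.1 x) v := by
    rw [← integral_indicator (PX8_B_meas ρ)]
    congr 1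
    funext v
    by_cases hv : v ∈ B
    · rw [indicator_of_mem hv, indicator_of_mem (mem_image_of_mem _ hv)]
    · rw [indicator_of_notMem hv, indicator_of_notMem, zero_mul]
      rintro ⟨w, hw, hwv⟩
      exact hv (hinj hwv ▸ hw)
  have h2 := cv hX hm x (indicator K' f)
  rw [h1, ← h2]
  have h3 : ∀ z, indicator K' f z * √(dt (m.1.1 z)) ≤
      ∑ γ ∈ S, indicator ((fun w : Pl => γ • w) '' D) (fun z => f z * √(dt (m.1.1 z))) z := by
    intro z
    have hnn : ∀ γ ∈ S, 0 ≤ indicator ((fun w : Pl => γ • w) '' D)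
        (fun z => f z * √(dt (m.1.1 z))) z := by
      intro γ _
      apply indicator_nonneg
      intro w _
      exact mul_nonneg (hf0 w) (Real.sqrt_nonneg _)
    by_cases hz : z ∈ K'
    · rw [indicator_of_mem hz]
      obtain ⟨v, hv, hvz⟩ := hz
      obtain ⟨γ, hγ, -⟩ := hX.orbit z
      have hzγ : z ∈ (fun w : Pl => γ⁻¹ • w) '' D := ⟨γ • z, hγ, by simp⟩
      have hγS : γ⁻¹ ∈ S := by
        rw [hS, Finite.mem_toFinset]
        refine ⟨x, hx, γ • z, subset_closure hγ, ?_⟩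
        rw [inv_smul_smul, ← hvz, Vx_Ex hX hm]
        unfold eu
        rw [Real.sqrt_le_left hρ]
        exact hv
      refine le_trans (le_of_eq ?_) (Finset.single_le_sum hnn hγS)
      rw [indicator_of_mem hzγ]
    · rw [indicator_of_notMem hz, zero_mul]
      exact Finset.sum_nonneg hnn
  have hint : ∀ γ : Γ, IntegrableOn (fun z => f z * √(dt (m.1.1 z)))
      ((fun w : Pl => γ • w) '' D) := by
    intro γ
    have hc := (Cmp_compact hX).image (hX.smooth γ).continuous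
    exact (hcont.continuousOn.integrableOn_compact hc).mono_set (image_mono subset_closure)
  have hint' : ∀ γ ∈ S, Integrable (indicator ((fun w : Pl => γ • w) '' D)
      (fun z => f z * √(dt (m.1.1 z)))) := by
    intro γ _
    rw [integrable_indicator_iff (PER_meas hX γ)]
    exact hint γ
  have h4 : ∫ z, indicator K' f z * √(dt (m.1.1 z)) ≤
      ∫ z, ∑ γ ∈ S, indicator ((fun w : Pl => γ • w) '' D) (fun z => f z * √(dt (m.1.1 z))) z := by
    apply integral_mono_of_nonneg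
    · refine Eventually.of_forall fun z => ?_
      exact mul_nonneg (indicator_nonneg (fun w _ => hf0 w) z) (Real.sqrt_nonneg _)
    · exact integrable_finsetSum S hint'
    · exact Eventually.of_forall h3
  refine h4.trans ?_
  rw [integral_finsetSum S hint']
  have h5 : ∀ γ ∈ S, ∫ z, indicator ((fun w : Pl => γ • w) '' D)
      (fun z => f z * √(dt (m.1.1 z))) z = ∫ z in D, f z * √(dt (m.1.1 z)) := by
    intro γ _
    rw [integral_indicator (PER_meas hX γ)]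
    have := PER_one hX m γ (f := fun _ => 1) hfi
    simpa only [one_mul] using this
  rw [Finset.sum_congr rfl h5, Finset.sum_const, nsmul_eq_mul]
  have hcS : (S.card : ℝ) ≤ |C| * Real.exp (|C| * ρ) := by
    rw [hS, ← Set.ncard_eq_toFinset_card T hfin]
    refine hcard.trans ?_
    apply mul_le_mul (le_abs_self C) _ (Real.exp_pos _).le (abs_nonneg C)
    exact Real.exp_le_exp.2 (mul_le_mul_of_nonneg_right (le_abs_self C) hρ)
  apply mul_le_mul_of_nonneg_right hcS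
  apply integral_nonneg
  intro z
  exact mul_nonneg (hf0 z) (Real.sqrt_nonneg _)

theorem PX8_cs (hX : Surface Γ D) (m : Mt Γ D) (U : TestS Γ) :
    ∫ z in D, |U.1 z| * √(dt (m.1.1 z)) ≤ √(bF hX m (oneT Γ) U U) := by
  obtain ⟨t, ht⟩ : ∃ t, t = ∫ z in D, |U.1 z| * √(dt (m.1.1 z)) := ⟨_, rfl⟩
  rw [← ht]
  have hρ := BGR_rho m
  have hU : Continuous U.1 := U.2.1.continuous
  apply Real.le_sqrt_of_sq_le
  have h0 : 0 ≤ ∫ z in D, (|U.1 z| - t) ^ 2 * √(dt (m.1.1 z)) := by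
    apply integral_nonneg
    intro z
    exact mul_nonneg (sq_nonneg _) (Real.sqrt_nonneg _)
  have i1 : IntegrableOn (fun z => U.1 z * U.1 z * √(dt (m.1.1 z))) D :=
    Cmp_int hX ((hU.mul hU).mul hρ)
  have i2 : IntegrableOn (fun z => 2 * t * (|U.1 z| * √(dt (m.1.1 z)))) D :=
    Cmp_int hX (continuous_const.mul (hU.abs.mul hρ))
  have i3 : IntegrableOn (fun z => t ^ 2 * √(dt (m.1.1 z))) D :=
    Cmp_int hX (continuous_const.mul hρ)
  have h1 : ∫ z in D, (|U.1 z| - t) ^ 2 * √(dt (m.1.1 z)) =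
      (∫ z in D, U.1 z * U.1 z * √(dt (m.1.1 z))) - 2 * t * t +
        t ^ 2 * ∫ z in D, √(dt (m.1.1 z)) := by
    have e2 : ∫ z in D, 2 * t * (|U.1 z| * √(dt (m.1.1 z))) = 2 * t * t := by
      rw [integral_const_mul, ← ht]
    have i12 : IntegrableOn (fun z => U.1 z * U.1 z * √(dt (m.1.1 z)) -
        2 * t * (|U.1 z| * √(dt (m.1.1 z)))) D := i1.sub i2
    rw [← e2, ← integral_const_mul, ← integral_sub i1 i2, ← integral_add i12 i3]
    congr 1
    funext z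
    have : |U.1 z| ^ 2 = U.1 z ^ 2 := sq_abs _
    show (|U.1 z| - t) ^ 2 * √(dt (m.1.1 z)) = U.1 z * U.1 z * √(dt (m.1.1 z)) -
      2 * t * (|U.1 z| * √(dt (m.1.1 z))) + t ^ 2 * √(dt (m.1.1 z))
    linear_combination √(dt (m.1.1 z)) * this
  have hb : bF hX m (oneT Γ) U U = ∫ z in D, U.1 z * U.1 z * √(dt (m.1.1 z)) := by
    rw [bF_apply]
    congr 1
    funext z
    show 1 * U.1 z * U.1 z * √(dt (m.1.1 z)) = _
    ring
  rw [hb]
  rw [m.2.area] at h1
  linarith [h0, h1]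

theorem PX8_ball (hX : Surface Γ D) (hO : Ori Γ) (m : Mt Γ D) :
    ∃ C : ℝ, 0 ≤ C ∧ ∀ (U : TestS Γ) (ρ : ℝ), 0 ≤ ρ → ∀ x ∈ closure D,
      ∫ v in {v | sg v ≤ ρ ^ 2}, |U.1 (Ex m.1.1 x v)| * wt (Gx m.1.1 x) v ≤
        C * Real.exp (C * ρ) * √(bF hX m (oneT Γ) U U) := by
  obtain ⟨C, hC, h⟩ := PX8_cover hX hO m
  refine ⟨C, hC, fun U ρ hρ x hx => ?_⟩
  have h1 := h (fun z => |U.1 z|) U.2.1.continuous.abs (fun z => abs_nonneg _)
    (fun γ z => by rw [U.2.2 γ z]) ρ hρ x hx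
  refine h1.trans ?_
  exact mul_le_mul_of_nonneg_left (PX8_cs hX m U) (by positivity)

theorem ball_L2 (hX : Surface Γ D) (hO : Ori Γ) (m : Mt Γ D) :
    ∃ C : ℝ, ∀ (U : TestS Γ) (ρ : ℝ), 0 ≤ ρ → ∀ x ∈ closure D,
      ∫ v in {v | sg v ≤ ρ ^ 2}, |U.1 (Ex m.1.1 x v)| * wt (Gx m.1.1 x) v ≤
        C * Real.exp (C * ρ) * √(bF hX m (oneT Γ) U U) := by
  obtain ⟨C, -, h⟩ := PX8_ball hX hO m
  exact ⟨C, h⟩

theorem PX8_Tl {a : ℝ → ℂ} {ρ M : ℝ} (ha : Amp a ρ M) (τ : ℝ) : Tl (osc a τ) ρ :=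
  ⟨osc_smooth ha τ, fun t ht => by
    unfold osc
    rw [ha.supp t (ht.trans_le (le_abs_self t))]
    simp⟩

theorem PX8_M {a : ℝ → ℂ} {ρ M : ℝ} (ha : Amp a ρ M) : 0 ≤ M :=
  (norm_nonneg _).trans (ha.bound 0 (by norm_num) 0)

theorem PX8_E (hX : Surface Γ D) (hO : Ori Γ) (m : Mt Γ D) :
    ∃ C : ℝ, 0 ≤ C ∧ ∀ (lam : ℝ) (U : TestS Γ), 0 ≤ lam → EigS hX m (lam ^ 2) U →
      ∀ (a : ℝ → ℂ) (ρ M τ : ℝ), 0 ≤ ρ → Amp a ρ M → 1 ≤ τ → ∀ x ∈ closure D,
      |∫ v, LL (Gx m.1.1 x) (UU (Gx m.1.1 x) 5) v * Ab 5 (ql lam (osc a τ)) (sg v) *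
        U.1 (Ex m.1.1 x v) * wt (Gx m.1.1 x) v| ≤
        C * Real.exp (C * ρ) * M * √(bF hX m (oneT Γ) U U) /
          ((1 + lam ^ 4) * (1 + |lam - τ|)) := by
  have hm := hm_of_Mt m
  have hF := Fam_Gx hX hO hm
  have hRB := RB_LL hF (RB_UU hF 5)
  obtain ⟨A, hA⟩ := smoothing hF hRB 0 5 (by norm_num)
  obtain ⟨B, hB⟩ := smoothing hF hRB 2 5 (by norm_num)
  obtain ⟨P, hP⟩ := pl_bound
  obtain ⟨Q, hQ0, hQ⟩ := PX8_ball hX hO m
  refine ⟨(|A| + |B|) * |P| * Q + (|A| + |B| + Q + 1), by positivity, ?_⟩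
  intro lam U hlam hE a ρ M τ hρ ha hτ x hx
  have hM := PX8_M ha
  set I := ∫ v, LL (Gx m.1.1 x) (UU (Gx m.1.1 x) 5) v * Ab 5 (ql lam (osc a τ)) (sg v) *
        U.1 (Ex m.1.1 x v) * wt (Gx m.1.1 x) v with hI
  set S := |P| * M * (ρ + 1) / (1 + |lam - τ|) with hS
  set J := ∫ v in {v | sg v ≤ ρ ^ 2}, |U.1 (Ex m.1.1 x v)| * wt (Gx m.1.1 x) v with hJ
  set R := √(bF hX m (oneT Γ) U U) with hR
  have hden : 0 < 1 + |lam - τ| := by positivity
  have hS0 : 0 ≤ S := by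
    rw [hS]
    positivity
  have hJ0 : 0 ≤ J := by
    rw [hJ]
    exact PX6_B_nonneg (ρ := ρ) (U := fun v => U.1 (Ex m.1.1 x v)) (Gx_PMt hX hm x)
  have hR0 : 0 ≤ R := Real.sqrt_nonneg _
  have hT := PX8_Tl ha τ
  have hq : ∀ t, 0 ≤ t → |deriv (ql lam (osc a τ)) t| ≤ S := by
    intro t ht
    rw [ql_deriv hT, abs_neg]
    refine (hP a ρ M τ lam t hρ ha hτ hlam ht).trans ?_
    rw [hS]
    apply div_le_div_of_nonneg_right _ hden.le
    have : P * (M * (ρ + 1)) ≤ |P| * (M * (ρ + 1)) :=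
      mul_le_mul_of_nonneg_right (le_abs_self P) (by positivity)
    linarith
  have hw := weak_normal hX m hE x
  have b0 := hA x hx (lam ^ 2) _ (PX8_U hX m U x) hw (ql lam (osc a τ)) ρ S hρ
    (ql_Tl hT lam) hq
  have b2 := hB x hx (lam ^ 2) _ (PX8_U hX m U x) hw (ql lam (osc a τ)) ρ S hρ
    (ql_Tl hT lam) hq
  have b0' : |I| ≤ A * Real.exp (A * ρ) * S * J := by
    rw [pow_zero, one_mul] at b0
    exact b0
  have b2' : lam ^ 4 * |I| ≤ B * Real.exp (B * ρ) * S * J := by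
    have e : |lam ^ 2| ^ 2 = lam ^ 4 := by
      rw [abs_of_nonneg (sq_nonneg lam)]
      ring
    rw [e] at b2
    exact b2
  have hball : J ≤ Q * Real.exp (Q * ρ) * R := hQ U ρ hρ x hx
  have cA : A * Real.exp (A * ρ) ≤ |A| * Real.exp ((|A| + |B|) * ρ) := by
    apply mul_le_mul (le_abs_self A) _ (Real.exp_pos _).le (abs_nonneg A)
    exact Real.exp_le_exp.2 (mul_le_mul_of_nonneg_right
      ((le_abs_self A).trans (by linarith [abs_nonneg B])) hρ)
  have cB : B * Real.exp (B * ρ) ≤ |B| * Real.exp ((|A| + |B|) * ρ) := by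
    apply mul_le_mul (le_abs_self B) _ (Real.exp_pos _).le (abs_nonneg B)
    exact Real.exp_le_exp.2 (mul_le_mul_of_nonneg_right
      ((le_abs_self B).trans (by linarith [abs_nonneg A])) hρ)
  have hSJ : 0 ≤ S * J := mul_nonneg hS0 hJ0
  have s1 : (1 + lam ^ 4) * |I| ≤ ((|A| + |B|) * Real.exp ((|A| + |B|) * ρ)) * (S * J) := by
    have d1 := mul_le_mul_of_nonneg_right cA hSJ
    have d2 := mul_le_mul_of_nonneg_right cB hSJ
    nlinarith [d1, d2, b0', b2']
  have s2 : ((|A| + |B|) * Real.exp ((|A| + |B|) * ρ)) * (S * J) ≤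
      ((|A| + |B|) * Real.exp ((|A| + |B|) * ρ)) * (S * (Q * Real.exp (Q * ρ) * R)) := by
    apply mul_le_mul_of_nonneg_left _ (by positivity)
    exact mul_le_mul_of_nonneg_left hball hS0
  have hρe : ρ + 1 ≤ Real.exp ρ := Real.add_one_le_exp ρ
  set k := |A| + |B| with hk
  have hk0 : 0 ≤ k := by positivity
  have s3 : (k * Real.exp (k * ρ)) * (S * (Q * Real.exp (Q * ρ) * R)) ≤
      (k * |P| * Q) * Real.exp ((k + Q + 1) * ρ) * M * R / (1 + |lam - τ|) := by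
    rw [hS, show (k + Q + 1) * ρ = k * ρ + Q * ρ + ρ by ring, Real.exp_add, Real.exp_add,
      le_div_iff₀ hden]
    have : (k * Real.exp (k * ρ)) * (|P| * M * (ρ + 1) / (1 + |lam - τ|) *
        (Q * Real.exp (Q * ρ) * R)) * (1 + |lam - τ|) =
        (k * |P| * Q * Real.exp (k * ρ) * Real.exp (Q * ρ) * M * R) * (ρ + 1) := by
      field_simp
    rw [this]
    have e2 : (k * |P| * Q) * (Real.exp (k * ρ) * Real.exp (Q * ρ) * Real.exp ρ) * M * R =
        (k * |P| * Q * Real.exp (k * ρ) * Real.exp (Q * ρ) * M * R) * Real.exp ρ := by ring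
    rw [e2]
    exact mul_le_mul_of_nonneg_left hρe (by positivity)
  have s4 : (k * |P| * Q) * Real.exp ((k + Q + 1) * ρ) * M * R / (1 + |lam - τ|) ≤
      ((k * |P| * Q + (k + Q + 1)) * Real.exp ((k * |P| * Q + (k + Q + 1)) * ρ) * M * R) /
        (1 + |lam - τ|) := by
    apply div_le_div_of_nonneg_right _ hden.le
    apply mul_le_mul_of_nonneg_right _ hR0
    apply mul_le_mul_of_nonneg_right _ hM
    apply mul_le_mul
    · have : 0 ≤ k + Q + 1 := by positivity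
      linarith
    · apply Real.exp_le_exp.2
      apply mul_le_mul_of_nonneg_right _ hρ
      have : 0 ≤ k * |P| * Q := by positivity
      linarith
    · positivity
    · positivity
  have hl : 0 < 1 + lam ^ 4 := by positivity
  rw [show (k * |P| * Q + (k + Q + 1)) * Real.exp ((k * |P| * Q + (k + Q + 1)) * ρ) * M * R /
    ((1 + lam ^ 4) * (1 + |lam - τ|)) = (k * |P| * Q + (k + Q + 1)) *
    Real.exp ((k * |P| * Q + (k + Q + 1)) * ρ) * M * R / (1 + |lam - τ|) / (1 + lam ^ 4) by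
      rw [div_div, mul_comm (1 + |lam - τ|)]]
  rw [le_div_iff₀ hl, mul_comm]
  exact s1.trans (s2.trans (s3.trans s4))

/-- The error term of (F) for `N = 5`. -/
theorem Eterm (hX : Surface Γ D) (hO : Ori Γ) (m : Mt Γ D) :
    ∃ C : ℝ, ∀ (lam : ℝ) (U : TestS Γ), 0 ≤ lam → EigS hX m (lam ^ 2) U →
      ∀ (a : ℝ → ℂ) (ρ M τ : ℝ), 0 ≤ ρ → Amp a ρ M → 1 ≤ τ → ∀ x ∈ closure D,
      |∫ v, LL (Gx m.1.1 x) (UU (Gx m.1.1 x) 5) v * Ab 5 (ql lam (osc a τ)) (sg v) *
        U.1 (Ex m.1.1 x v) * wt (Gx m.1.1 x) v| ≤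
        C * Real.exp (C * ρ) * M * √(bF hX m (oneT Γ) U U) /
          ((1 + lam ^ 4) * (1 + |lam - τ|)) := by
  obtain ⟨C, -, h⟩ := PX8_E hX hO m
  exact ⟨C, h⟩

/-! The fixed amplitude. -/

noncomputable def PX8_b : ContDiffBump (0 : ℝ) := ⟨1 / 4, 1 / 2, by norm_num, by norm_num⟩

noncomputable def PX8_a (t : ℝ) : ℂ := ((PX8_b t : ℝ) : ℂ)

theorem PX8_b_zero {t : ℝ} (h : 1 / 2 < |t|) : PX8_b t = 0 := by
  apply PX8_b.zero_of_le_dist
  rw [dist_zero_right, Real.norm_eq_abs]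
  exact h.le

theorem PX8_a_smooth : ContDiff ℝ ∞ PX8_a :=
  Complex.ofRealCLM.contDiff.comp PX8_b.contDiff

theorem PX8_a_supp : HasCompactSupport PX8_a := by
  apply HasCompactSupport.intro (isCompact_closedBall (0 : ℝ) (1 / 2))
  intro t ht
  unfold PX8_a
  rw [PX8_b_zero, Complex.ofReal_zero]
  rw [mem_closedBall_zero_iff, Real.norm_eq_abs] at ht
  exact not_le.1 ht

theorem PX8_amp : ∃ M : ℝ, Amp PX8_a (1 / 2) M := by
  have h1 : ∀ k : ℕ, ∃ C : ℝ, ∀ t, ‖iteratedDeriv k PX8_a t‖ ≤ C := by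
    intro k
    have hc : Continuous (iteratedFDeriv ℝ k PX8_a) :=
      PX8_a_smooth.continuous_iteratedFDeriv (by exact_mod_cast le_top)
    obtain ⟨C, hC⟩ := hc.bounded_above_of_compact_support (PX8_a_supp.iteratedFDeriv k)
    refine ⟨C, fun t => ?_⟩
    rw [← norm_iteratedFDeriv_eq_norm_iteratedDeriv]
    exact hC t
  choose C hC using h1
  refine ⟨∑ k ∈ Finset.range 5, |C k|, PX8_a_smooth, ?_, ?_, ?_⟩
  · intro t
    unfold PX8_a
    rw [PX8_b.neg, Complex.conj_ofReal]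
  · intro t ht
    unfold PX8_a
    rw [PX8_b_zero ht, Complex.ofReal_zero]
  · intro k hk t
    refine ((hC k t).trans (le_abs_self _)).trans ?_
    exact Finset.single_le_sum (f := fun k => |C k|) (fun i _ => abs_nonneg _)
      (Finset.mem_range.2 (by omega))

theorem PX8_osc (τ t : ℝ) : osc PX8_a τ t = Real.cos (τ * t) * PX8_b t := by
  unfold osc PX8_a
  rw [Complex.re_mul_ofReal]
  congr 1
  have : -(Complex.I * (τ : ℂ) * (t : ℂ)) = ((-(τ * t) : ℝ) : ℂ) * Complex.I := by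
    push_cast
    ring
  rw [this, Complex.exp_ofReal_mul_I_re, Real.cos_neg]

theorem PX8_cos {x : ℝ} (h : |x| ≤ 1 / 2) : 7 / 8 ≤ Real.cos x := by
  have h1 := Real.one_sub_sq_div_two_le_cos (x := x)
  have h2 : x ^ 2 ≤ (1 / 2) ^ 2 := by
    rw [← sq_abs]
    exact pow_le_pow_left₀ (abs_nonneg x) h 2
  nlinarith

theorem PX8_cos_int {lam : ℝ} (h : 1 ≤ lam) :
    1 / 16 ≤ ∫ t in (0 : ℝ)..(1 / 4), Real.cos (lam * t) * Real.cos (lam * t) := by
  have hl : 0 < lam := by linarith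
  have hd : ∀ t ∈ uIcc (0 : ℝ) (1 / 4), HasDerivAt
      (fun t => t / 2 + Real.sin (2 * lam * t) / (4 * lam))
      (Real.cos (lam * t) * Real.cos (lam * t)) t := by
    intro t _
    have h1 : HasDerivAt (fun t : ℝ => 2 * lam * t) (2 * lam) t := by
      simpa using (hasDerivAt_id t).const_mul (2 * lam)
    have h2 := (h1.sin.div_const (4 * lam)).const_add (0 : ℝ)
    have h3 := ((hasDerivAt_id t).div_const 2).add (h1.sin.div_const (4 * lam))
    have e : Real.cos (lam * t) * Real.cos (lam * t) =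
        1 / 2 + Real.cos (2 * lam * t) * (2 * lam) / (4 * lam) := by
      rw [show 2 * lam * t = 2 * (lam * t) by ring, Real.cos_two_mul]
      field_simp
      ring
    rw [e]
    exact h3
  rw [intervalIntegral.integral_eq_sub_of_hasDerivAt hd
    (Continuous.intervalIntegrable (by fun_prop) _ _)]
  simp only [mul_zero, Real.sin_zero, zero_div, add_zero, sub_zero]
  rw [show 2 * lam * (1 / 4) = lam / 2 by ring]
  by_cases hc : lam / 2 ≤ Real.pi
  · have hs : 0 ≤ Real.sin (lam / 2) := Real.sin_nonneg_of_nonneg_of_le_pi (by linarith) hc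
    have : 0 ≤ Real.sin (lam / 2) / (4 * lam) := by positivity
    linarith
  · push Not at hc
    have hpi := Real.pi_gt_three
    have hs := Real.neg_one_le_sin (lam / 2)
    have : -(1 / 24) ≤ Real.sin (lam / 2) / (4 * lam) := by
      rw [le_div_iff₀ (by positivity)]
      nlinarith
    linarith

theorem PX8_hh {lam : ℝ} (h : 0 ≤ lam) : 1 / 16 ≤ hh (osc PX8_a (max lam 1)) lam := by
  set τ := max lam 1 with hτ
  have hF : ∀ t, osc PX8_a τ t * Real.cos (lam * t) =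
      Real.cos (τ * t) * Real.cos (lam * t) * PX8_b t := by
    intro t
    rw [PX8_osc]
    ring
  unfold hh
  simp only [hF]
  have hcont : Continuous fun t => Real.cos (τ * t) * Real.cos (lam * t) * PX8_b t := by
    have := PX8_b.continuous
    fun_prop
  have hint : Integrable fun t => Real.cos (τ * t) * Real.cos (lam * t) * PX8_b t := by
    apply hcont.integrable_of_hasCompactSupport
    exact PX8_b.hasCompactSupport.mul_left
  have hnn : ∀ t, 0 ≤ Real.cos (τ * t) * Real.cos (lam * t) * PX8_b t := by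
    intro t
    rcases le_total 1 lam with h1 | h1
    · have : τ = lam := max_eq_left h1
      rw [this]
      exact mul_nonneg (mul_self_nonneg _) (PX8_b.nonneg)
    · have hτ1 : τ = 1 := max_eq_right h1
      by_cases ht : 1 / 2 < |t|
      · rw [PX8_b_zero ht, mul_zero]
      · push Not at ht
        apply mul_nonneg _ PX8_b.nonneg
        have c1 : 7 / 8 ≤ Real.cos (τ * t) := PX8_cos (by rw [hτ1, one_mul]; exact ht)
        have c2 : 7 / 8 ≤ Real.cos (lam * t) := PX8_cos (by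
          rw [abs_mul, abs_of_nonneg h]
          nlinarith [abs_nonneg t])
        exact mul_nonneg (by linarith) (by linarith)
  have h1 : ∫ t in Ioc (0 : ℝ) (1 / 4), Real.cos (τ * t) * Real.cos (lam * t) * PX8_b t ≤
      ∫ t, Real.cos (τ * t) * Real.cos (lam * t) * PX8_b t :=
    setIntegral_le_integral hint (Eventually.of_forall hnn)
  refine le_trans ?_ h1
  have h2 : ∫ t in Ioc (0 : ℝ) (1 / 4), Real.cos (τ * t) * Real.cos (lam * t) * PX8_b t =
      ∫ t in (0 : ℝ)..(1 / 4), Real.cos (τ * t) * Real.cos (lam * t) := by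
    rw [intervalIntegral.integral_of_le (by norm_num)]
    apply setIntegral_congr_fun measurableSet_Ioc
    intro t ht
    have hb : PX8_b t = 1 := by
      apply PX8_b.one_of_mem_closedBall
      rw [mem_closedBall_zero_iff, Real.norm_eq_abs, abs_of_pos ht.1]
      exact ht.2
    show Real.cos (τ * t) * Real.cos (lam * t) * PX8_b t = _
    rw [hb, mul_one]
  rw [h2]
  rcases le_total 1 lam with h3 | h3
  · have : τ = lam := max_eq_left h3
    rw [this]
    exact PX8_cos_int h3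
  · have hτ1 : τ = 1 := max_eq_right h3
    have h4 : ∫ t in (0 : ℝ)..(1 / 4), (1 / 2 : ℝ) ≤
        ∫ t in (0 : ℝ)..(1 / 4), Real.cos (τ * t) * Real.cos (lam * t) := by
      apply intervalIntegral.integral_mono_on (by norm_num)
      · exact Continuous.intervalIntegrable (by fun_prop) _ _
      · exact Continuous.intervalIntegrable (by fun_prop) _ _
      · intro t ht
        have hta : |t| ≤ 1 / 2 := by
          rw [abs_of_nonneg ht.1]
          linarith [ht.2]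
        have c1 : 7 / 8 ≤ Real.cos (τ * t) := PX8_cos (by rw [hτ1, one_mul]; exact hta)
        have c2 : 7 / 8 ≤ Real.cos (lam * t) := PX8_cos (by
          rw [abs_mul, abs_of_nonneg h]
          nlinarith [abs_nonneg t])
        nlinarith
    rw [intervalIntegral.integral_const] at h4
    refine le_trans ?_ h4
    norm_num

theorem PX8_KK (hX : Surface Γ D) (hO : Ori Γ) (m : Mt Γ D) {a : ℝ → ℂ} {ρ M : ℝ} (hρ : 0 ≤ ρ)
    (ha : Amp a ρ M) : ∃ C : ℝ, 0 ≤ C ∧ ∀ x ∈ closure D, ∀ τ : ℝ, 1 ≤ τ → ∀ v : Pl,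
      (sg v ≤ ρ ^ 2 → |KK (Gx m.1.1 x) 5 (osc a τ) v| ≤ C * τ ^ 2) ∧
      (¬ sg v ≤ ρ ^ 2 → KK (Gx m.1.1 x) 5 (osc a τ) v = 0) := by
  have hm := hm_of_Mt m
  have hF := Fam_Gx hX hO hm
  have hM := PX8_M ha
  choose P hP0 hP using fun j => PX6_val (RB_UU hF j)
  choose Q hQ using Ab_crude0
  refine ⟨∑ j ∈ Finset.range (5 + 1), P j * Real.exp (P j * ρ) * (|Q j| * M *
    (ρ + 1) ^ (2 * j + 1)), ?_, ?_⟩
  · apply Finset.sum_nonneg
    intro j _
    have := hP0 j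
    positivity
  intro x hx τ hτ v
  constructor
  · intro hv
    unfold KK
    refine (Finset.abs_sum_le_sum_abs _ _).trans ?_
    rw [Finset.sum_mul]
    apply Finset.sum_le_sum
    intro j _
    rw [abs_mul]
    have h1 := hP j x hx v ρ hρ (PX6_norm_le hρ hv)
    have h2 := hQ j a ρ M τ (sg v) hρ ha hτ (PX6_sg_nonneg v)
    have h3 : |Ab j (osc a τ) (sg v)| ≤ |Q j| * M * (ρ + 1) ^ (2 * j + 1) * τ ^ 2 := by
      refine h2.trans ?_
      have : Q j * (M * (ρ + 1) ^ (2 * j + 1) * τ ^ 2) ≤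
          |Q j| * (M * (ρ + 1) ^ (2 * j + 1) * τ ^ 2) :=
        mul_le_mul_of_nonneg_right (le_abs_self _) (by positivity)
      linarith
    have h4 : |UU (Gx m.1.1 x) j v| ≤ P j * Real.exp (P j * ρ) := h1
    have h5 := mul_le_mul h4 h3 (abs_nonneg _) (by have := hP0 j; positivity)
    linarith
  · intro hv
    unfold KK
    apply Finset.sum_eq_zero
    intro j _
    push Not at hv
    rw [Ab_supp hρ (PX8_Tl ha τ) j (lt_of_le_of_lt (sq_nonneg ρ) hv) hv, mul_zero]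

theorem sup_bound (hX : Surface Γ D) (hO : Ori Γ) (m : Mt Γ D) :
    ∃ C : ℝ, ∀ (lam : ℝ) (U : TestS Γ), 0 ≤ lam → EigS hX m (lam ^ 2) U → ∀ x : Pl,
      |U.1 x| ≤ C * (1 + lam) ^ 2 * √(bF hX m (oneT Γ) U U) := by
  have hm := hm_of_Mt m
  obtain ⟨M, ha⟩ := PX8_amp
  have hM := PX8_M ha
  have hρ : (0 : ℝ) ≤ 1 / 2 := by norm_num
  obtain ⟨A, hA0, hA⟩ := PX8_KK hX hO m hρ ha
  obtain ⟨B, hB0, hB⟩ := PX8_ball hX hO m
  obtain ⟨E, hE0, hE⟩ := PX8_E hX hO m
  refine ⟨16 * (A * (B * Real.exp (B * (1 / 2))) + E * Real.exp (E * (1 / 2)) * M), ?_⟩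
  intro lam U hlam hU x0
  obtain ⟨γ, hγ, -⟩ := hX.orbit x0
  rw [← U.2.2 γ x0]
  set x := γ • x0 with hx0
  have hx : x ∈ closure D := subset_closure hγ
  set τ := max lam 1 with hτd
  have hτ : 1 ≤ τ := le_max_right _ _
  set R := √(bF hX m (oneT Γ) U U) with hR
  have hR0 : 0 ≤ R := Real.sqrt_nonneg _
  have hid := identity hX m 5 hU (g := osc PX8_a τ) (osc_smooth ha τ) (osc_even ha τ)
    hρ (fun t ht => by
      unfold osc
      rw [ha.supp t ht]
      simp) x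
  have hP := Gx_PMt hX hm x
  have hUc : Continuous (fun v => U.1 (Ex m.1.1 x v)) := (PX8_U hX m U x).continuous
  have hE1 := hE lam U hlam hU PX8_a (1 / 2) M τ hρ ha hτ x hx
  have hE2 : |∫ v, LL (Gx m.1.1 x) (UU (Gx m.1.1 x) 5) v *
      Ab 5 (ql lam (osc PX8_a τ)) (sg v) * U.1 (Ex m.1.1 x v) * wt (Gx m.1.1 x) v| ≤
      E * Real.exp (E * (1 / 2)) * M * R := by
    refine hE1.trans ?_
    apply div_le_self (by positivity)
    have g1 : 1 ≤ 1 + lam ^ 4 := by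
      have : 0 ≤ lam ^ 4 := by positivity
      linarith
    have g2 : 1 ≤ 1 + |lam - τ| := by linarith [abs_nonneg (lam - τ)]
    nlinarith
  have hball := hB U (1 / 2) hρ x hx
  have hK : |∫ v, KK (Gx m.1.1 x) 5 (osc PX8_a τ) v * U.1 (Ex m.1.1 x v) *
      wt (Gx m.1.1 x) v| ≤ A * τ ^ 2 * (B * Real.exp (B * (1 / 2)) * R) := by
    refine le_trans ?_ (mul_le_mul_of_nonneg_left hball (by positivity))
    rw [← integral_const_mul]
    rw [← setIntegral_eq_integral_of_forall_compl_eq_zero (s := {v : Pl | sg v ≤ (1 / 2) ^ 2})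
      (f := fun v => KK (Gx m.1.1 x) 5 (osc PX8_a τ) v * U.1 (Ex m.1.1 x v) *
        wt (Gx m.1.1 x) v)
      (fun v hv => by
        show KK (Gx m.1.1 x) 5 (osc PX8_a τ) v * U.1 (Ex m.1.1 x v) * wt (Gx m.1.1 x) v = 0
        rw [(hA x hx τ hτ v).2 hv]
        ring)]
    rw [← Real.norm_eq_abs]
    apply norm_integral_le_of_norm_le ((PX6_intB hρ hP hUc).const_mul _)
    rw [ae_restrict_iff' (PX6_ball_compact hρ).measurableSet]
    refine Eventually.of_forall fun v hv => ?_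
    have h1 := (hA x hx τ hτ v).1 hv
    have hwp := wt_pos hP v
    rw [Real.norm_eq_abs, abs_mul, abs_mul, abs_of_pos hwp, mul_assoc]
    exact mul_le_mul_of_nonneg_right h1 (mul_nonneg (abs_nonneg _) hwp.le)
  have hhl := PX8_hh hlam
  rw [← hτd] at hhl
  have h1 : 1 / 16 * |U.1 x| ≤ A * τ ^ 2 * (B * Real.exp (B * (1 / 2)) * R) +
      E * Real.exp (E * (1 / 2)) * M * R := by
    calc 1 / 16 * |U.1 x| ≤ hh (osc PX8_a τ) lam * |U.1 x| :=
          mul_le_mul_of_nonneg_right hhl (abs_nonneg _)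
      _ = |hh (osc PX8_a τ) lam * U.1 x| := by
          rw [abs_mul, abs_of_nonneg (by linarith : 0 ≤ hh (osc PX8_a τ) lam)]
      _ ≤ _ := by
          rw [hid]
          exact (abs_add_le _ _).trans (add_le_add hK hE2)
  have hτ2 : τ ^ 2 ≤ (1 + lam) ^ 2 := by
    apply pow_le_pow_left₀ (by linarith)
    rw [hτd]
    apply max_le <;> linarith
  have h12 : 1 ≤ (1 + lam) ^ 2 := by nlinarith
  have h2 : A * τ ^ 2 * (B * Real.exp (B * (1 / 2)) * R) ≤
      A * (1 + lam) ^ 2 * (B * Real.exp (B * (1 / 2)) * R) := by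
    apply mul_le_mul_of_nonneg_right _ (by positivity)
    exact mul_le_mul_of_nonneg_left hτ2 hA0
  have h3 : E * Real.exp (E * (1 / 2)) * M * R ≤
      E * Real.exp (E * (1 / 2)) * M * R * (1 + lam) ^ 2 :=
    le_mul_of_one_le_right (by positivity) h12
  linarith

end BR
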