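import Pool.Agent.LibBR70.H1g

/-! Row H1h (cites H1e, H1g): the derivative of the exponential map (Gauss lemma).
Plan. `Ex_fderiv_rad`: for `v = r u`, derivative of `s ↦ Ex m x (s u)` at `r` (`qf_gfl`).
`Ex_fderiv_perp`: `Ex m x (r • (cos θ u + sin θ rot u)) = (gfl m r (x, cos θ u + sin θ rot u)).1`;
differentiate at `θ = 0`: left side `r fderiv (Ex m x) (r u) (rot u)`, right side the first component
of `dgf m r (x, u) (0, rot u)`, and `(0, rot u) = lift m x u 0 0 1`, so by `dgf_split` it is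
`fr (m y) (JB r • rot v)` with `(y, v) = gfl m r (x, u)`. `Ex_gauss`: expand `w = ⟨u, w⟩ u + (u ∧ w) rot u`
(`eu u = 1`), `bf_fr`. `Ex_fderiv_zero`: `Ex m x (t v) = (gfl m t (x, v)).1` has derivative `fr (m x) v` at
`t = 0`. `Ex_expand`: from `Ex_gauss` and `JB r ≥ r` for `v ≠ 0` (`v = r u`), from `Ex_fderiv_zero` and
`qf_fr` at `v = 0`. `Ex_gauss_ip`: polarise or expand again. `Ex_det`: `wd_ifr`: the determinant of
`fderiv (Ex m x) (r u)` with respect to the frames is `JB r / r > 0`. -/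

open MeasureTheory Set Filter Topology
open scoped ContDiff

namespace BR

open BGS

variable {Γ : Type} [Group Γ] [MulAction Γ Pl] {D : Set Pl}

theorem H1h_fr_add (c : Co) (v w : Pl) : fr c (v + w) = fr c v + fr c w := by
  simp only [fr, Prod.fst_add, Prod.snd_add, add_smul]
  abel

theorem H1h_fr_smul (c : Co) (t : ℝ) (v : Pl) : fr c (t • v) = t • fr c v := by
  simp only [fr, Prod.smul_fst, Prod.smul_snd, smul_add, smul_smul, smul_eq_mul]

theorem H1h_fr_zero (c : Co) : fr c 0 = 0 := by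
  simp [fr]

theorem H1h_eu_sq (v : Pl) : eu v ^ 2 = v.1 ^ 2 + v.2 ^ 2 :=
  Real.sq_sqrt (by positivity)

theorem H1h_unit {u : Pl} (hu : eu u = 1) : u.1 ^ 2 + u.2 ^ 2 = 1 := by
  rw [← H1h_eu_sq, hu, one_pow]

theorem H1h_split {u : Pl} (hu : eu u = 1) (w : Pl) : w = ip u w • u + wd u w • rot u := by
  have h := H1h_unit hu
  ext
  · simp only [ip, wd, rot, Prod.fst_add, Prod.smul_fst, smul_eq_mul]
    linear_combination (-w.1) * h
  · simp only [ip, wd, rot, Prod.snd_add, Prod.smul_snd, smul_eq_mul]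
    linear_combination (-w.2) * h

theorem H1h_det (A : Pl →L[ℝ] Pl) (v w : Pl) : wd (A v) (A w) = A.det * wd v w := by
  have h1 : A.det = LinearMap.det (A : Pl →ₗ[ℝ] Pl) := rfl
  have e : ∀ v : Pl, A v = v.1 • A (1, 0) + v.2 • A (0, 1) := by
    intro v
    rw [← map_smul, ← map_smul, ← map_add]
    congr 1
    ext <;> simp
  rw [h1, ← LinearMap.det_toMatrix (Module.Basis.finTwoProd ℝ), Matrix.det_fin_two, e v, e w]
  simp only [LinearMap.toMatrix_apply, Module.Basis.finTwoProd_zero, Module.Basis.finTwoProd_one,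
    wd, Prod.fst_add, Prod.snd_add, Prod.smul_fst, Prod.smul_snd, smul_eq_mul,
    ContinuousLinearMap.coe_coe, Module.Basis.coe_finTwoProd_repr]
  simp
  ring

theorem H1h_diffE (hX : Surface Γ D) {m : Pl → Co} (hm : HM Γ m) (x : Pl) :
    Differentiable ℝ (Ex m x) :=
  ((Ex_smooth hX hm).comp (contDiff_const.prodMk contDiff_id)).differentiable (by simp)

theorem H1h_diffG (hX : Surface Γ D) {m : Pl → Co} (hm : HM Γ m) (t : ℝ) :
    Differentiable ℝ (gfl m t) :=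
  ((gfl_smooth hX hm).comp (contDiff_const.prodMk contDiff_id)).differentiable (by simp)

theorem H1h_rad (hX : Surface Γ D) {m : Pl → Co} (hm : HM Γ m) (x u : Pl) (r : ℝ) :
    fderiv ℝ (Ex m x) (r • u) u = fr (m (Ex m x (r • u))) (gfl m r (x, u)).2 := by
  have h1 : HasDerivAt (fun s : ℝ => s • u) u r := by
    simpa using (hasDerivAt_id r).smul_const u
  have h2 := (H1h_diffE hX hm x (r • u)).hasFDerivAt.comp_hasDerivAt r h1
  exact h2.unique (qf_gfl hX hm r x u).1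

theorem H1h_perp (hX : Surface Γ D) {m : Pl → Co} (hm : HM Γ m) {x u : Pl} (hu : eu u = 1)
    (r : ℝ) : fderiv ℝ (Ex m x) (r • u) (r • rot u) =
      fr (m (Ex m x (r • u))) (JB m x u r • rot (gfl m r (x, u)).2) := by
  have h0 : HasDerivAt (fun s : ℝ => u + s • rot u) (rot u) 0 := by
    simpa using ((hasDerivAt_id (0 : ℝ)).smul_const (rot u)).const_add u
  have h1 : HasDerivAt (fun s : ℝ => r • (u + s • rot u)) (r • rot u) 0 := h0.const_smul r
  have hd : HasFDerivAt (Ex m x) (fderiv ℝ (Ex m x) (r • u)) (r • (u + (0 : ℝ) • rot u)) := by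
    rw [zero_smul, add_zero]
    exact (H1h_diffE hX hm x (r • u)).hasFDerivAt
  have h2 := hd.comp_hasDerivAt (0 : ℝ) h1
  have h3 : HasDerivAt (fun s : ℝ => ((x, u + s • rot u) : Pl × Pl)) ((0, rot u) : Pl × Pl) 0 :=
    (hasDerivAt_const (0 : ℝ) x).prodMk h0
  have hg : HasFDerivAt (gfl m r) (fderiv ℝ (gfl m r) (x, u)) (x, u + (0 : ℝ) • rot u) := by
    rw [zero_smul, add_zero]
    exact (H1h_diffG hX hm r (x, u)).hasFDerivAt
  have h4 := hg.comp_hasDerivAt (0 : ℝ) h3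
  have h5 := (ContinuousLinearMap.fst ℝ Pl Pl).hasFDerivAt.comp_hasDerivAt (0 : ℝ) h4
  have h6 : (Ex m x ∘ fun s : ℝ => r • (u + s • rot u)) =
      (ContinuousLinearMap.fst ℝ Pl Pl : Pl × Pl → Pl) ∘
        (gfl m r ∘ fun s : ℝ => ((x, u + s • rot u) : Pl × Pl)) := by
    funext s
    exact Ex_ray hX hm r x (u + s • rot u)
  rw [h6] at h2
  have h7 := h2.unique h5
  have h8 : lift m x u 0 0 1 = ((0, rot u) : Pl × Pl) := by
    have : (0 : ℝ) • u + (0 : ℝ) • rot u = 0 := by simp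
    rw [lift, this, H1h_fr_zero]
    simp [om]
  have h9 := dgf_split hX hm (x := x) hu r 0 0 1
  rw [h8] at h9
  rw [h7]
  show (dgf m r (x, u) (0, rot u)).1 = _
  rw [h9, lift, ← Ex_ray hX hm r x u]
  simp

theorem Ex_fderiv (hX : Surface Γ D) {m : Pl → Co} (hm : HM Γ m) {x u : Pl} (hu : eu u = 1)
    {r : ℝ} (hr : r ≠ 0) (w : Pl) :
    fderiv ℝ (Ex m x) (r • u) w = fr (m (Ex m x (r • u)))
      (ip u w • (gfl m r (x, u)).2 + (JB m x u r / r * wd u w) • rot (gfl m r (x, u)).2) := by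
  have h1 : fderiv ℝ (Ex m x) (r • u) (rot u) =
      fr (m (Ex m x (r • u))) ((JB m x u r / r) • rot (gfl m r (x, u)).2) := by
    have h := H1h_perp hX hm (x := x) hu r
    rw [map_smul] at h
    have h2 : fderiv ℝ (Ex m x) (r • u) (rot u) =
        r⁻¹ • (r • fderiv ℝ (Ex m x) (r • u) (rot u)) := by
      rw [smul_smul, inv_mul_cancel₀ hr, one_smul]
    rw [h2, h, ← H1h_fr_smul, smul_smul]
    congr 2
    ring
  conv_lhs => rw [H1h_split hu w]
  rw [map_add, map_smul, map_smul, H1h_rad hX hm, h1, H1h_fr_add]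
  simp only [H1h_fr_smul, smul_smul]
  rw [mul_comm (wd u w)]

theorem H1h_comb {V : Pl} (hV : eu V = 1) (a b : ℝ) : eu (a • V + b • rot V) ^ 2 = a ^ 2 + b ^ 2 := by
  have h := H1h_unit hV
  rw [H1h_eu_sq]
  simp only [rot, Prod.fst_add, Prod.snd_add, Prod.smul_fst, Prod.smul_snd, smul_eq_mul]
  linear_combination (a ^ 2 + b ^ 2) * h

theorem Ex_gauss (hX : Surface Γ D) {m : Pl → Co} (hm : HM Γ m) {x u : Pl} (hu : eu u = 1)
    {r : ℝ} (hr : r ≠ 0) (w : Pl) :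
    qf (m (Ex m x (r • u))) (fderiv ℝ (Ex m x) (r • u) w) =
      ip u w ^ 2 + (JB m x u r / r) ^ 2 * wd u w ^ 2 := by
  have hp := hm.pos (Ex m x (r • u))
  have hV : eu (gfl m r (x, u)).2 = 1 := by rw [gfl_eu hX hm]; exact hu
  rw [Ex_fderiv hX hm hu hr, qf_fr hp.1 hp.2, H1h_comb hV, mul_pow]

theorem Ex_fderiv_zero (hX : Surface Γ D) {m : Pl → Co} (hm : HM Γ m) (x w : Pl) :
    fderiv ℝ (Ex m x) 0 w = fr (m x) w := by
  have h := H1h_rad hX hm x w 0
  rw [zero_smul, Ex_zero hX hm, (gfl_isFlow hX hm).zero] at h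
  exact h

/-- polar coordinates of a nonzero vector -/
theorem H1h_polar {v : Pl} (hv : v ≠ 0) : ∃ (r : ℝ) (u : Pl), 0 < r ∧ eu u = 1 ∧ v = r • u := by
  have h0 : 0 < v.1 ^ 2 + v.2 ^ 2 := by
    rcases eq_or_ne v.1 0 with h1 | h1
    · have h2 : v.2 ≠ 0 := fun h2 => hv (Prod.ext h1 h2)
      positivity
    · positivity
  have hr : 0 < eu v := Real.sqrt_pos.2 h0
  refine ⟨eu v, (eu v)⁻¹ • v, hr, ?_, ?_⟩
  · have h1 : (eu ((eu v)⁻¹ • v)) ^ 2 = 1 := by
      rw [H1h_eu_sq]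
      simp only [Prod.smul_fst, Prod.smul_snd, smul_eq_mul]
      have h2 := H1h_eu_sq v
      field_simp
      linarith
    have h3 : 0 ≤ eu ((eu v)⁻¹ • v) := Real.sqrt_nonneg _
    nlinarith
  · rw [smul_smul, mul_inv_cancel₀ hr.ne', one_smul]

theorem Ex_gauss_ip (hX : Surface Γ D) {m : Pl → Co} (hm : HM Γ m) (x v w : Pl) :
    bf (m (Ex m x v)) (fderiv ℝ (Ex m x) v v) (fderiv ℝ (Ex m x) v w) = ip v w := by
  rcases eq_or_ne v 0 with rfl | hv
  · rw [map_zero]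
    simp [bf, ip]
  · obtain ⟨r, u, hr, hu, rfl⟩ := H1h_polar hv
    have hp := hm.pos (Ex m x (r • u))
    have hV : eu (gfl m r (x, u)).2 = 1 := by rw [gfl_eu hX hm]; exact hu
    have h1 := H1h_unit hV
    rw [map_smul, H1h_rad hX hm, Ex_fderiv hX hm hu hr.ne', ← H1h_fr_smul, bf_fr hp.1 hp.2]
    simp only [ip, wd, rot, Prod.fst_add, Prod.snd_add, Prod.smul_fst, Prod.smul_snd, smul_eq_mul]
    linear_combination (r * (u.1 * w.1 + u.2 * w.2)) * h1

theorem Ex_expand (hX : Surface Γ D) {m : Pl → Co} (hm : HM Γ m) (x v w : Pl) :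
    eu w ^ 2 ≤ qf (m (Ex m x v)) (fderiv ℝ (Ex m x) v w) := by
  rcases eq_or_ne v 0 with rfl | hv
  · have hp := hm.pos x
    rw [Ex_zero hX hm, Ex_fderiv_zero hX hm, qf_fr hp.1 hp.2]
  · obtain ⟨r, u, hr, hu, rfl⟩ := H1h_polar hv
    rw [Ex_gauss hX hm hu hr.ne', H1h_eu_sq]
    have h1 := H1h_unit hu
    have h2 : 1 ≤ JB m x u r / r := by
      rw [le_div_iff₀ hr, one_mul]
      exact (JB_ge hX hm hu hr.le).1
    have h3 : 1 ≤ (JB m x u r / r) ^ 2 := one_le_pow₀ h2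
    have h4 : w.1 ^ 2 + w.2 ^ 2 = ip u w ^ 2 + wd u w ^ 2 := by
      simp only [ip, wd]
      linear_combination (-(w.1 ^ 2 + w.2 ^ 2)) * h1
    rw [h4]
    nlinarith [sq_nonneg (wd u w)]

theorem Ex_det (hX : Surface Γ D) {m : Pl → Co} (hm : HM Γ m) {x u : Pl} (hu : eu u = 1)
    {r : ℝ} (hr : 0 < r) :
    √(dt (m (Ex m x (r • u)))) * (fderiv ℝ (Ex m x) (r • u)).det = JB m x u r / r := by
  have hp := hm.pos (Ex m x (r • u))
  have hV : eu (gfl m r (x, u)).2 = 1 := by rw [gfl_eu hX hm]; exact hu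
  have h1 := H1h_unit hV
  have h0 := H1h_unit hu
  have h2 : wd u (rot u) = 1 := by
    simp only [wd, rot]
    linear_combination h0
  have h3 := H1h_det (fderiv ℝ (Ex m x) (r • u)) u (rot u)
  rw [h2, mul_one] at h3
  rw [← h3, ← wd_ifr hp.1 hp.2, H1h_rad hX hm, Ex_fderiv hX hm hu hr.ne', ifr_fr hp.1 hp.2,
    ifr_fr hp.1 hp.2, h2]
  have h4 : ip u (rot u) = 0 := by
    simp only [ip, rot]
    ring
  rw [h4]
  simp only [wd, rot, Prod.fst_add, Prod.snd_add, Prod.smul_fst, Prod.smul_snd, smul_eq_mul]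
  linear_combination (JB m x u r / r) * h1

theorem Ex_det_zero (hX : Surface Γ D) {m : Pl → Co} (hm : HM Γ m) (x : Pl) :
    √(dt (m x)) * (fderiv ℝ (Ex m x) 0).det = 1 := by
  have hp := hm.pos x
  have h3 := H1h_det (fderiv ℝ (Ex m x) 0) (1, 0) (0, 1)
  have h2 : wd ((1, 0) : Pl) (0, 1) = 1 := by
    simp [wd]
  rw [h2, mul_one] at h3
  rw [← h3, ← wd_ifr hp.1 hp.2, Ex_fderiv_zero hX hm, Ex_fderiv_zero hX hm, ifr_fr hp.1 hp.2,
    ifr_fr hp.1 hp.2, h2]

end BR
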