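import Pool.Agent.LibBR70.AB2

/-! Row AB5 (only Mathlib, cites AB1, AB2): the transform as an integral over `t`, and Abel's
inversion formula.
Plan. `Ab_eq`: substitute `t = √(σ + v)` in `FI` (`v = t² - σ`, `dv = 2 t dt`, from `Ioi (√σ)`
onto `Ioi 0`: `integral_image_eq_integral_abs_deriv_smul` or `integral_comp_mul_deriv_Ioi`-type lemma).
`Ab_inv`: for `l > 0`: `∫ r : ℝ, Ab 0 g (l² + r²) = 2 ∫_0^∞ = ∫_0^∞ Ab 0 g (l² + w) w^(-1/2) dw`
(`w = r²`) `= -(1/π) ∫_0^∞ ∫_0^∞ P (l² + w + v) v^(-1/2) w^(-1/2) dv dw`, `P = Pq g`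
(`√π Γ(1/2) = π`), and with `s = v + w` the inner integral `∫_0^s v^(-1/2) (s - v)^(-1/2) dv = π`
(`Real.beta...`/`Complex.betaIntegral` at `(1/2, 1/2)`, or substitute `v = s sin²`), so it is
`-∫_0^∞ P (l² + s) ds = g (√(l²)) = g l` (`P` is the derivative of `s ↦ g (√s)`, which vanishes for
large `s`). Fubini is justified: the integrand is bounded by `C v^(-1/2) w^(-1/2)` on a bounded set. -/

open Set Filter Topology MeasureTheory
open scoped ContDiff

namespace BR

theorem Ab_eq {q : ℝ → ℝ} {ρ : ℝ} (hρ : 0 ≤ ρ) (h : Tl q ρ) (j : ℕ) {σ : ℝ} (hσ : 0 ≤ σ) :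
    Ab j q σ = -(1 / (√Real.pi * Real.Gamma ((j : ℝ) + 1 / 2)) *
      ∫ t in Ioi (√σ), deriv q t * (t ^ 2 - σ) ^ ((j : ℝ) - 1 / 2)) := by
  have key : FI j (Pq q) σ = ∫ t in Ioi (√σ), deriv q t * (t ^ 2 - σ) ^ ((j : ℝ) - 1 / 2) := by
    unfold FI
    have him : (fun t : ℝ => t ^ 2 - σ) '' Ioi (√σ) = Ioi 0 := by
      ext v
      constructor
      · rintro ⟨t, ht, rfl⟩
        have h1 : √σ < t := ht
        have h2 : σ < t ^ 2 := (Real.sqrt_lt' (lt_of_le_of_lt (Real.sqrt_nonneg σ) h1)).mp h1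
        exact sub_pos.mpr h2
      · intro hv
        have hv0 : (0 : ℝ) < v := hv
        refine ⟨√(σ + v), ?_, ?_⟩
        · exact Real.sqrt_lt_sqrt hσ (by linarith)
        · simp only []
          rw [Real.sq_sqrt (by linarith)]
          ring
    rw [← him, integral_image_eq_integral_abs_deriv_smul (f' := fun t => 2 * t) measurableSet_Ioi]
    · refine setIntegral_congr_fun measurableSet_Ioi ?_
      intro t ht
      have h1 : √σ < t := ht
      have h0 : 0 < t := lt_of_le_of_lt (Real.sqrt_nonneg σ) h1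
      simp only [smul_eq_mul]
      rw [abs_of_pos (by positivity)]
      unfold Pq
      rw [show σ + (t ^ 2 - σ) = t ^ 2 by ring, Real.sqrt_sq h0.le]
      field_simp
    · intro t _
      have h1 : HasDerivAt (fun t : ℝ => t ^ 2 - σ) (2 * t) t := by
        have := (hasDerivAt_pow 2 t).sub_const σ
        simpa using this
      exact h1.hasDerivWithinAt
    · intro a ha b hb hab
      have ha0 : 0 ≤ a := (Real.sqrt_nonneg σ).trans (le_of_lt ha)
      have hb0 : 0 ≤ b := (Real.sqrt_nonneg σ).trans (le_of_lt hb)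
      have h2 : a ^ 2 = b ^ 2 := by
        simp only [] at hab
        linarith
      exact (pow_left_inj₀ ha0 hb0 (by norm_num)).mp h2
  unfold Ab
  rw [key]
  ring

private theorem AB5_FI (P : ℝ → ℝ) (σ : ℝ) : FI 0 P σ = ∫ u : ℝ, P (σ + u ^ 2) := by
  have h1 : ∫ u : ℝ, P (σ + u ^ 2) = 2 * ∫ u in Ioi (0 : ℝ), P (σ + u ^ 2) := by
    rw [← integral_comp_abs (f := fun u => P (σ + u ^ 2))]
    simp only [sq_abs]
  rw [h1]
  unfold FI
  rw [← integral_comp_rpow_Ioi_of_pos (p := 2) (by norm_num), ← integral_const_mul]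
  refine setIntegral_congr_fun measurableSet_Ioi ?_
  intro u hu
  have hu0 : (0 : ℝ) < u := hu
  have e1 : u ^ ((2 : ℝ) - 1) = u := by
    rw [show (2 : ℝ) - 1 = 1 by norm_num, Real.rpow_one]
  have e2 : u ^ (2 : ℝ) = u ^ 2 := Real.rpow_two u
  have e3 : (u ^ 2) ^ (((0 : ℕ) : ℝ) - 1 / 2) = u⁻¹ := by
    rw [← Real.rpow_natCast u 2, ← Real.rpow_mul hu0.le, ← Real.rpow_neg_one]
    congr 1
    norm_num
  simp only [smul_eq_mul]
  rw [e1, e2, e3]
  field_simp

theorem Ab_inv {g : ℝ → ℝ} {ρ : ℝ} (hρ : 0 ≤ ρ) (h : Tl g ρ) {l : ℝ} (hl : 0 < l) :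
    Integrable (fun r : ℝ => Ab 0 g (l ^ 2 + r ^ 2)) ∧ ∫ r : ℝ, Ab 0 g (l ^ 2 + r ^ 2) = g l := by
  have hP : Pf (Pq g) (ρ ^ 2) := Pf_Pq hρ h
  have hl2 : 0 < l ^ 2 := by positivity
  constructor
  · have hc : Continuous (fun r : ℝ => Ab 0 g (l ^ 2 + r ^ 2)) :=
      (Ab_contDiffOn hρ h 0).continuousOn.comp_continuous (by fun_prop)
        (fun r => add_pos_of_pos_of_nonneg hl2 (sq_nonneg r))
    refine hc.integrable_of_hasCompactSupport ?_
    refine HasCompactSupport.of_support_subset_isCompact (K := Icc (-ρ) ρ) isCompact_Icc ?_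
    intro r hr
    by_contra hn
    apply hr
    have h1 : ρ < |r| := by
      by_contra hle
      push Not at hle
      exact hn (abs_le.mp hle)
    have h2 : ρ ^ 2 < r ^ 2 := by
      rw [← sq_abs r]
      exact pow_lt_pow_left₀ h1 hρ (by norm_num)
    exact Ab_supp hρ h 0 (add_pos_of_pos_of_nonneg hl2 (sq_nonneg r)) (by linarith)
  · set F : ℝ × ℝ → ℝ := fun p => Pq g (l ^ 2 + p.1 ^ 2 + p.2 ^ 2) with hF
    have hFc : Continuous F :=
      hP.smooth.continuousOn.comp_continuous (by fun_prop)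
        (fun p => add_pos_of_pos_of_nonneg (add_pos_of_pos_of_nonneg hl2 (sq_nonneg _)) (sq_nonneg _))
    have hFs : HasCompactSupport F := by
      refine HasCompactSupport.of_support_subset_isCompact (K := Icc (-ρ) ρ ×ˢ Icc (-ρ) ρ)
        (isCompact_Icc.prod isCompact_Icc) ?_
      intro p hp
      by_contra hn
      apply hp
      have h1 : ρ < |p.1| ∨ ρ < |p.2| := by
        by_contra hle
        push Not at hle
        exact hn ⟨abs_le.mp hle.1, abs_le.mp hle.2⟩
      have h2 : ρ ^ 2 < l ^ 2 + p.1 ^ 2 + p.2 ^ 2 := by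
        rcases h1 with h1 | h1
        · have h3 := pow_lt_pow_left₀ h1 hρ (n := 2) (by norm_num)
          rw [sq_abs] at h3
          nlinarith [sq_nonneg p.2]
        · have h3 := pow_lt_pow_left₀ h1 hρ (n := 2) (by norm_num)
          rw [sq_abs] at h3
          nlinarith [sq_nonneg p.1]
      exact hP.supp _ h2
    have hFi : Integrable F (volume.prod volume) := hFc.integrable_of_hasCompactSupport hFs
    have hG : √Real.pi * Real.Gamma (((0 : ℕ) : ℝ) + 1 / 2) = Real.pi := by
      rw [Nat.cast_zero, zero_add, Real.Gamma_one_half_eq]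
      exact Real.mul_self_sqrt Real.pi_pos.le
    have e1 : ∀ r : ℝ, Ab 0 g (l ^ 2 + r ^ 2) = -(1 / Real.pi) * ∫ u : ℝ, F (r, u) := by
      intro r
      unfold Ab
      rw [hG, AB5_FI]
      simp only [hF]
      ring
    have e2 : ∫ r : ℝ, Ab 0 g (l ^ 2 + r ^ 2) = -(1 / Real.pi) * ∫ p : ℝ × ℝ, F p := by
      simp only [e1]
      rw [integral_const_mul]
      congr 1
      exact (integral_prod F hFi).symm
    have e3 : ∫ p : ℝ × ℝ, F p = 2 * Real.pi * ∫ R in Ioi (0 : ℝ), R * Pq g (l ^ 2 + R ^ 2) := by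
      rw [← integral_comp_polarCoord_symm]
      have h1 : ∀ p : ℝ × ℝ, p.1 • F (polarCoord.symm p) =
          (p.1 * Pq g (l ^ 2 + p.1 ^ 2)) * (fun _ : ℝ => (1 : ℝ)) p.2 := by
        intro p
        simp only [hF, polarCoord_symm_apply, smul_eq_mul, mul_one]
        congr 2
        have := Real.cos_sq_add_sin_sq p.2
        nlinarith
      simp only [h1]
      rw [polarCoord_target, Measure.volume_eq_prod]
      rw [setIntegral_prod_mul (fun R : ℝ => R * Pq g (l ^ 2 + R ^ 2)) (fun _ : ℝ => (1 : ℝ))]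
      have h2 : ∫ _ in Ioo (-Real.pi) Real.pi, (1 : ℝ) = 2 * Real.pi := by
        rw [setIntegral_const, smul_eq_mul, mul_one, Measure.real, Real.volume_Ioo,
          ENNReal.toReal_ofReal (by linarith [Real.pi_pos])]
        ring
      rw [h2]
      ring
    have hd : ∀ R : ℝ, HasDerivAt (fun R => g (√(l ^ 2 + R ^ 2)))
        (2 * (R * Pq g (l ^ 2 + R ^ 2))) R := by
      intro R
      have hpos : 0 < l ^ 2 + R ^ 2 := add_pos_of_pos_of_nonneg hl2 (sq_nonneg R)
      have k1 : HasDerivAt g (deriv g (√(l ^ 2 + R ^ 2))) (√(l ^ 2 + R ^ 2)) :=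
        ((h.smooth.differentiable (by simp)).differentiableAt).hasDerivAt
      have k2 : HasDerivAt (fun R : ℝ => l ^ 2 + R ^ 2) (2 * R) R := by
        have := (hasDerivAt_pow 2 R).const_add (l ^ 2)
        simpa using this
      have k3 := k1.comp R (k2.sqrt hpos.ne')
      refine k3.congr_deriv ?_
      unfold Pq
      field_simp
    have e4 : ∫ R in Ioi (0 : ℝ), 2 * (R * Pq g (l ^ 2 + R ^ 2)) = 0 - g l := by
      have h1 := integral_Ioi_of_hasDerivAt_of_tendsto (a := 0) (m := 0)
        (f := fun R => g (√(l ^ 2 + R ^ 2))) (f' := fun R => 2 * (R * Pq g (l ^ 2 + R ^ 2)))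
        (hd 0).continuousAt.continuousWithinAt (fun R _ => hd R) ?_ ?_
      · rw [h1]
        congr 1
        rw [show l ^ 2 + (0 : ℝ) ^ 2 = l ^ 2 by ring, Real.sqrt_sq hl.le]
      · apply Integrable.integrableOn
        have hc : Continuous (fun R : ℝ => 2 * (R * Pq g (l ^ 2 + R ^ 2))) := by
          refine continuous_const.mul (continuous_id.mul ?_)
          exact hP.smooth.continuousOn.comp_continuous (by fun_prop)
            (fun r => add_pos_of_pos_of_nonneg hl2 (sq_nonneg r))
        refine hc.integrable_of_hasCompactSupport ?_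
        refine HasCompactSupport.of_support_subset_isCompact (K := Icc (-ρ) ρ) isCompact_Icc ?_
        intro r hr
        by_contra hn
        apply hr
        have h1 : ρ < |r| := by
          by_contra hle
          push Not at hle
          exact hn (abs_le.mp hle)
        have h2 : ρ ^ 2 < r ^ 2 := by
          rw [← sq_abs r]
          exact pow_lt_pow_left₀ h1 hρ (by norm_num)
        simp only []
        rw [hP.supp _ (by linarith)]
        ring
      · refine tendsto_const_nhds.congr' ?_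
        filter_upwards [eventually_gt_atTop (ρ + 1)] with R hR
        symm
        apply h.supp
        have hR0 : 0 ≤ R := by linarith
        calc ρ < R := by linarith
          _ = √(R ^ 2) := (Real.sqrt_sq hR0).symm
          _ ≤ √(l ^ 2 + R ^ 2) := Real.sqrt_le_sqrt (by linarith)
    rw [integral_const_mul] at e4
    rw [e2, e3]
    have hpi := Real.pi_pos.ne'
    field_simp
    linarith

end BR
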