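import Mathlib

/-! Abel transforms: definitions. -/

open Set Filter Topology MeasureTheory
open scoped ContDiff

namespace BR

/-- Smooth functions on `(0, ∞)` that vanish beyond `M`. -/
structure Pf (P : ℝ → ℝ) (M : ℝ) : Prop where
  smooth : ContDiffOn ℝ ∞ P (Ioi 0)
  supp : ∀ s, M < s → P s = 0

/-- Smooth functions on the line that vanish beyond `ρ`. -/
structure Tl (q : ℝ → ℝ) (ρ : ℝ) : Prop where
  smooth : ContDiff ℝ ∞ q
  supp : ∀ t, ρ < t → q t = 0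

/-- Fractional integral of order `j + 1/2` (without the Gamma factor). -/
noncomputable def FI (j : ℕ) (P : ℝ → ℝ) (σ : ℝ) : ℝ :=
  ∫ v in Ioi (0 : ℝ), P (σ + v) * v ^ ((j : ℝ) - 1 / 2)

/-- The derivative of `s ↦ q (√s)`. -/
noncomputable def Pq (q : ℝ → ℝ) (s : ℝ) : ℝ := deriv q (√s) / (2 * √s)

/-- The transform `A_j` of `q`. -/
noncomputable def Ab (j : ℕ) (q : ℝ → ℝ) (σ : ℝ) : ℝ :=
  -(FI j (Pq q) σ / (√Real.pi * Real.Gamma ((j : ℝ) + 1 / 2)))

/-- The solution of `q'' + lam ^ 2 q = g` that vanishes for large `t`. -/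
noncomputable def ql (lam : ℝ) (g : ℝ → ℝ) (t : ℝ) : ℝ :=
  ∫ u in Ioi (0 : ℝ), u * Real.sinc (lam * u) * g (t + u)

/-- Minus its derivative. -/
noncomputable def pl (lam : ℝ) (g : ℝ → ℝ) (t : ℝ) : ℝ :=
  ∫ u in Ioi (0 : ℝ), Real.cos (lam * u) * g (t + u)

end BR
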