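import Pool.Agent.LibBR70.FL6

/-! Row FL7 (cite FL4, FL5, FL6): the flow of a complete smooth vector field is smooth.
Plan. Prove by induction on `n : ℕ` the statement: for every finite-dimensional `E : Type`, every
`f` and `φ` with `ContDiff ℝ ∞ f` and `IsFlow f φ`: `ContDiff ℝ n (fun p : ℝ × E => φ p.1 p.2)`
(the induction hypothesis is used for `E × E`, so quantify over `E` inside the induction).
`n = 0`: `FL_cont`. Step: take `W` from `FL_ext_lin`; by `contDiff_succ_iff_hasFDerivAt` (or
`contDiff_succ_iff_fderiv`) and `FL_strict` it is enough that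
`p ↦ (toSpanSingleton ℝ (f (φ p.1 p.2))).coprod (W p.1 p.2)` is `C^n`; the first part is the
composition of `f` with the flow (induction hypothesis for `E`), for the second use
`contDiff_clm_apply_iff` and the induction hypothesis for `E × E`, `ext f`
(`FL_ext_contDiff`), composed with `p ↦ (p.1, (p.2, v))`. `FL_smooth`: `contDiff_infty`. -/

open Set Filter Topology
open scoped ContDiff

namespace BR

theorem FL7_nat (n : ℕ) : ∀ (E : Type) [NormedAddCommGroup E] [NormedSpace ℝ E]
    [FiniteDimensional ℝ E] (f : E → E), ContDiff ℝ ∞ f → ∀ φ : ℝ → E → E, IsFlow f φ →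
    ContDiff ℝ n fun p : ℝ × E => φ p.1 p.2 := by
  induction n with
  | zero =>
    intro E _ _ _ f hf φ hφ
    have h1 : ContDiff ℝ 1 f := hf.of_le (by exact_mod_cast le_top)
    exact contDiff_zero.2 (FL_cont h1 hφ)
  | succ n ih =>
    intro E _ _ _ f hf φ hφ
    obtain ⟨W, hW⟩ := FL_ext_lin hf hφ
    have h1 : ∀ p : ℝ × E, HasFDerivAt (fun p : ℝ × E => φ p.1 p.2)
        ((ContinuousLinearMap.toSpanSingleton ℝ (f (φ p.1 p.2))).coprod (W p.1 p.2)) p :=
      fun p => (FL_strict hf hφ hW p).hasFDerivAt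
    have h2 : fderiv ℝ (fun p : ℝ × E => φ p.1 p.2) = fun p : ℝ × E =>
        (ContinuousLinearMap.toSpanSingleton ℝ (f (φ p.1 p.2))).coprod (W p.1 p.2) :=
      funext fun p => (h1 p).fderiv
    have h3 : ContDiff ℝ n fun p : ℝ × E => f (φ p.1 p.2) :=
      (hf.of_le (by exact_mod_cast le_top)).comp (ih E f hf φ hφ)
    have h4 := ih (E × E) (ext f) (FL_ext_contDiff hf) _ hW
    have h5 : ∀ v : E, ContDiff ℝ n fun p : ℝ × E => W p.1 p.2 v := by
      intro v
      have h6 : ContDiff ℝ n fun p : ℝ × E => ((p.1, (p.2, v)) : ℝ × (E × E)) :=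
        contDiff_fst.prodMk (contDiff_snd.prodMk contDiff_const)
      exact (h4.comp h6).snd
    have h7 : ContDiff ℝ ((n : WithTop ℕ∞) + 1) fun p : ℝ × E => φ p.1 p.2 := by
      rw [contDiff_succ_iff_fderiv]
      refine ⟨fun p => (h1 p).differentiableAt, fun h => absurd h (by simp), ?_⟩
      rw [h2, contDiff_clm_apply_iff]
      intro y
      simp only [ContinuousLinearMap.coprod_apply, ContinuousLinearMap.toSpanSingleton_apply]
      exact (contDiff_const.smul h3).add (h5 y.2)
    exact_mod_cast h7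

theorem FL_smooth {E : Type} [NormedAddCommGroup E] [NormedSpace ℝ E] [FiniteDimensional ℝ E]
    {f : E → E} (hf : ContDiff ℝ ∞ f) {φ : ℝ → E → E} (hφ : IsFlow f φ) :
    ContDiff ℝ ∞ fun p : ℝ × E => φ p.1 p.2 :=
  contDiff_infty.2 fun n => FL7_nat n E f hf φ hφ

end BR
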