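import Pool.Agent.LibBR70.H1a

/-! Row H1d: completeness of the cover: curves of bounded speed stay in a compact set.
Plan. Let `K₀` be a closed ball of the plane which contains `closure D` in its interior, and
`c₀ > 0` with `qf (m z) v ≥ c₀ (v.1^2 + v.2^2)` for `z` in the closed ball of radius one larger
(compactness). Hence there is `δ > 0` (depending on `S`) such that a curve of speed `≤ S` that starts
in `closure D` stays for the time `δ` in `K₀`. By invariance (`HM.inv`, differentiate `γ⁻¹ • c t`: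
chain rule) a curve of speed `≤ S` that starts in `γ • closure D` stays for the time `δ` in `γ • K₀`.
Every point is in some `γ • D`. So after `n = ⌈R/δ⌉` steps the curve is in `γ_n • K₀` where
`γ_{i+1} • D` meets `γ_i • K₀`, i.e. `γ_i⁻¹ γ_{i+1}` lies in the finite set
`{γ | ∃ z ∈ K₀, γ • z ∈ K₀}` (`Surface.proper`); the union over all such chains of length `≤ n` starting from
the `γ₀` with `x ∈ γ₀ • D` is a finite union of compact sets `γ • K₀`, hence bounded. (Negative
times: reverse the curve.) -/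

open MeasureTheory Set Filter Topology
open scoped ContDiff

namespace BR

open BGS

variable {Γ : Type} [Group Γ] [MulAction Γ Pl] {D : Set Pl}

/-- On a compact set a bound for the form gives a bound for the vector. -/
private theorem H1d_speed {m : Pl → Co} (hs : ContDiff ℝ ∞ m) (hp : ∀ z, 0 < (m z).1 ∧ 0 < dt (m z))
    (r S : ℝ) : ∃ L : ℝ, 0 ≤ L ∧ ∀ z : Pl, ‖z‖ ≤ r → ∀ v : Pl, qf (m z) v ≤ S ^ 2 → ‖v‖ ≤ L := by
  have hc : Continuous m := hs.continuous
  have hE : Continuous fun z => (m z).1 := hc.fst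
  have hG : Continuous fun z => (m z).2.2 := hc.snd.snd
  have hF : Continuous fun z => (m z).2.1 := hc.snd.fst
  have hdt : Continuous fun z => dt (m z) := by
    unfold dt
    exact (hE.mul hG).sub (hF.pow 2)
  have h1 : Continuous fun z => ((m z).1 + (m z).2.2) / dt (m z) :=
    (hE.add hG).div hdt fun z => (hp z).2.ne'
  obtain ⟨M, hM⟩ := (isCompact_closedBall (0 : Pl) r).exists_bound_of_continuousOn h1.continuousOn
  refine ⟨√(|M| * S ^ 2), Real.sqrt_nonneg _, fun z hz v hv => ?_⟩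
  have hMz := hM z (mem_closedBall_zero_iff.2 hz)
  have hE0 := (hp z).1
  have hd0 := (hp z).2
  have hG0 : 0 < (m z).2.2 := by
    have h2 : 0 < (m z).1 * (m z).2.2 := by
      have := hd0
      unfold dt at this
      nlinarith [sq_nonneg (m z).2.1]
    exact (pos_iff_pos_of_mul_pos h2).1 hE0
  have hpos : 0 < ((m z).1 + (m z).2.2) / dt (m z) := div_pos (by linarith) hd0
  have hle : ((m z).1 + (m z).2.2) / dt (m z) ≤ |M| := by
    rw [Real.norm_eq_abs] at hMz
    exact (le_abs_self _).trans (hMz.trans (le_abs_self _))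
  have hle' : (m z).1 + (m z).2.2 ≤ |M| * dt (m z) := (div_le_iff₀ hd0).1 hle
  have hdt' : dt (m z) = (m z).1 * (m z).2.2 - (m z).2.1 ^ 2 := rfl
  have hq : qf (m z) v = (m z).1 * v.1 ^ 2 + 2 * (m z).2.1 * v.1 * v.2 + (m z).2.2 * v.2 ^ 2 := rfl
  have hq0 : 0 ≤ qf (m z) v := by
    have : (m z).1 * qf (m z) v = ((m z).1 * v.1 + (m z).2.1 * v.2) ^ 2 + dt (m z) * v.2 ^ 2 := by
      rw [hq, hdt']
      ring
    have h3 : 0 ≤ (m z).1 * qf (m z) v := by
      rw [this]
      positivity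
    exact nonneg_of_mul_nonneg_right h3 hE0
  have k2 : dt (m z) * v.2 ^ 2 ≤ (m z).1 * qf (m z) v := by
    have : (m z).1 * qf (m z) v = ((m z).1 * v.1 + (m z).2.1 * v.2) ^ 2 + dt (m z) * v.2 ^ 2 := by
      rw [hq, hdt']
      ring
    rw [this]
    nlinarith [sq_nonneg ((m z).1 * v.1 + (m z).2.1 * v.2)]
  have k1 : dt (m z) * v.1 ^ 2 ≤ (m z).2.2 * qf (m z) v := by
    have : (m z).2.2 * qf (m z) v = ((m z).2.2 * v.2 + (m z).2.1 * v.1) ^ 2 + dt (m z) * v.1 ^ 2 := by
      rw [hq, hdt']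
      ring
    rw [this]
    nlinarith [sq_nonneg ((m z).2.2 * v.2 + (m z).2.1 * v.1)]
  have k3 : ((m z).1 + (m z).2.2) * qf (m z) v ≤ dt (m z) * (|M| * S ^ 2) := by
    calc ((m z).1 + (m z).2.2) * qf (m z) v ≤ (|M| * dt (m z)) * S ^ 2 :=
          mul_le_mul hle' hv hq0 (by positivity)
      _ = dt (m z) * (|M| * S ^ 2) := by ring
  have k4 : v.1 ^ 2 ≤ |M| * S ^ 2 := by
    have : dt (m z) * v.1 ^ 2 ≤ dt (m z) * (|M| * S ^ 2) := by nlinarith [mul_nonneg hE0.le hq0]
    exact le_of_mul_le_mul_left this hd0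
  have k5 : v.2 ^ 2 ≤ |M| * S ^ 2 := by
    have : dt (m z) * v.2 ^ 2 ≤ dt (m z) * (|M| * S ^ 2) := by nlinarith [mul_nonneg hG0.le hq0]
    exact le_of_mul_le_mul_left this hd0
  rw [Prod.norm_def]
  exact max_le (Real.le_sqrt_of_sq_le (by rw [Real.norm_eq_abs, sq_abs]; exact k4))
    (Real.le_sqrt_of_sq_le (by rw [Real.norm_eq_abs, sq_abs]; exact k5))

/-- A curve that starts in the ball of radius `r` stays for a while in the ball of radius `r + 1`. -/
private theorem H1d_stay {m : Pl → Co} {r S L δ : ℝ} (hL0 : 0 ≤ L)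
    (hL : ∀ z : Pl, ‖z‖ ≤ r + 1 → ∀ v : Pl, qf (m z) v ≤ S ^ 2 → ‖v‖ ≤ L) (hδ : (L + 1) * δ ≤ 1)
    (c c' : ℝ → Pl) {a b : ℝ} (hab : a ≤ b) (hba : b - a ≤ δ)
    (h : ∀ t ∈ Icc a b, HasDerivAt c (c' t) t ∧ qf (m (c t)) (c' t) ≤ S ^ 2) (ha : ‖c a‖ ≤ r) :
    ‖c b‖ ≤ r + 1 := by
  have hB : ∀ t ∈ Icc a b, r + (L + 1) * (t - a) ≤ r + 1 := by
    intro t ht
    have h1 : t - a ≤ δ := by linarith [ht.2]
    have := mul_le_mul_of_nonneg_left h1 (by linarith : (0 : ℝ) ≤ L + 1)
    linarith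
  have key := image_norm_le_of_norm_deriv_right_lt_deriv_boundary' (f := c) (f' := c') (a := a) (b := b)
    (fun t ht => (h t ht).1.continuousAt.continuousWithinAt)
    (fun t ht => (h t ⟨ht.1, ht.2.le⟩).1.hasDerivWithinAt)
    (B := fun t => r + (L + 1) * (t - a)) (B' := fun _ => L + 1)
    (by simpa using ha) (by fun_prop)
    (fun t _ => by
      have h1 : HasDerivAt (fun t : ℝ => r + (L + 1) * (t - a)) ((L + 1) * 1) t :=
        (((hasDerivAt_id t).sub_const a).const_mul (L + 1)).const_add r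
      rw [mul_one] at h1
      exact h1.hasDerivWithinAt)
    (fun t ht he => by
      have hm := h t ⟨ht.1, ht.2.le⟩
      have h1 : ‖c t‖ ≤ r + 1 := by
        rw [he]
        exact hB t ⟨ht.1, ht.2.le⟩
      have := hL (c t) h1 (c' t) hm.2
      linarith)
  exact (key (right_mem_Icc.2 hab)).trans (hB b (right_mem_Icc.2 hab))

/-- The same in both directions of time. -/
private theorem H1d_stay2 {m : Pl → Co} {r S L δ : ℝ} (hL0 : 0 ≤ L)
    (hL : ∀ z : Pl, ‖z‖ ≤ r + 1 → ∀ v : Pl, qf (m z) v ≤ S ^ 2 → ‖v‖ ≤ L) (hδ : (L + 1) * δ ≤ 1)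
    (c c' : ℝ → Pl) {a b : ℝ} (hba : |b - a| ≤ δ)
    (h : ∀ t ∈ uIcc a b, HasDerivAt c (c' t) t ∧ qf (m (c t)) (c' t) ≤ S ^ 2) (ha : ‖c a‖ ≤ r) :
    ‖c b‖ ≤ r + 1 := by
  rcases le_total a b with hab | hab
  · rw [uIcc_of_le hab] at h
    exact H1d_stay hL0 hL hδ c c' hab ((le_abs_self _).trans hba) h ha
  · rw [uIcc_of_ge hab] at h
    have hba' : -b - -a ≤ δ := by
      have := neg_abs_le (b - a)
      linarith
    have key := H1d_stay hL0 hL hδ (fun t => c (-t)) (fun t => -c' (-t)) (a := -a) (b := -b)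
      (neg_le_neg hab) hba' (fun t ht => by
        have ht' : -t ∈ Icc b a := ⟨by linarith [ht.2], by linarith [ht.1]⟩
        obtain ⟨h1, h2⟩ := h (-t) ht'
        refine ⟨?_, ?_⟩
        · have h3 := h1.scomp t (hasDerivAt_neg t)
          have e : (-1 : ℝ) • c' (-t) = -c' (-t) := by simp
          rw [e] at h3
          exact h3
        · have e : qf (m (c (-t))) (-c' (-t)) = qf (m (c (-t))) (c' (-t)) := by
            unfold qf
            simp only [Prod.fst_neg, Prod.snd_neg]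
            ring
          rw [e]
          exact h2) (by simpa using ha)
    simpa using key

theorem path_bdd (hX : Surface Γ D) {m : Pl → Co} (hm : HM Γ m) (x : Pl) (R S : ℝ) :
    ∃ B : ℝ, ∀ (c c' : ℝ → Pl) (T : ℝ), 0 < T → T ≤ R → c 0 = x →
      (∀ t ∈ Ioo (-T) T, HasDerivAt c (c' t) t ∧ qf (m (c t)) (c' t) ≤ S ^ 2) →
      ∀ t ∈ Ioo (-T) T, ‖c t‖ ≤ B := by
  classical
  obtain ⟨r, hr⟩ := hX.bdd.subset_closedBall (0 : Pl)
  have hD : ∀ z ∈ D, ‖z‖ ≤ r := fun z hz => mem_closedBall_zero_iff.1 (hr hz)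
  obtain ⟨L, hL0, hL⟩ := H1d_speed hm.smooth hm.pos (r + 1) S
  set δ : ℝ := 1 / (L + 1) with hδdef
  have hδ0 : 0 < δ := by positivity
  have hδ : (L + 1) * δ ≤ 1 := by
    rw [hδdef, mul_one_div, div_self (by positivity : L + 1 ≠ 0)]
  have hK : IsCompact (Metric.closedBall (0 : Pl) (r + 1)) := isCompact_closedBall 0 (r + 1)
  have hfin := hX.proper _ hK
  -- the deck transformations act by isometries on curves
  have hcurve : ∀ (g : Γ) (c c' : ℝ → Pl) (t : ℝ), HasDerivAt c (c' t) t →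
      qf (m (c t)) (c' t) ≤ S ^ 2 →
      HasDerivAt (fun s => g • c s) (fderiv ℝ (fun w : Pl => g • w) (c t) (c' t)) t ∧
        qf (m (g • c t)) (fderiv ℝ (fun w : Pl => g • w) (c t) (c' t)) ≤ S ^ 2 := by
    intro g c c' t h1 h2
    refine ⟨?_, ?_⟩
    · have h0 : HasFDerivAt (fun w : Pl => g • w) (fderiv ℝ (fun w : Pl => g • w) (c t)) (c t) :=
        (((hX.smooth g).differentiable (by simp)) (c t)).hasFDerivAt
      exact h0.comp_hasDerivAt t h1
    · rw [hm.inv g (c t) (c' t)]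
      exact h2
  -- the sets of deck transformations
  have hA : ∀ n : ℕ, ∃ A : Finset Γ, ∀ (c c' : ℝ → Pl) (T : ℝ), 0 < T → c 0 = x →
      (∀ t ∈ Ioo (-T) T, HasDerivAt c (c' t) t ∧ qf (m (c t)) (c' t) ≤ S ^ 2) →
      ∀ t ∈ Ioo (-T) T, |t| ≤ n * δ → ∃ g ∈ A, ‖g • c t‖ ≤ r + 1 := by
    intro n
    induction n with
    | zero =>
      obtain ⟨g₀, hg₀, _⟩ := hX.orbit x
      refine ⟨{g₀}, fun c c' T _ hc _ t _ ht => ⟨g₀, Finset.mem_singleton_self _, ?_⟩⟩
      have ht0 : t = 0 := by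
        rw [Nat.cast_zero, zero_mul] at ht
        exact abs_nonpos_iff.1 ht
      rw [ht0, hc]
      have := hD _ hg₀
      linarith
    | succ n ih =>
      obtain ⟨A, hA⟩ := ih
      refine ⟨A ∪ (hfin.toFinset ×ˢ A).image (fun p => p.1 * p.2), fun c c' T hT hc h t ht htn => ?_⟩
      by_cases htn' : |t| ≤ n * δ
      · obtain ⟨g, hg, hgc⟩ := hA c c' T hT hc h t ht htn'
        exact ⟨g, Finset.mem_union_left _ hg, hgc⟩
      push Not at htn'
      -- the previous time
      set t' : ℝ := t * (n * δ / |t|) with ht'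
      have hn0 : (0 : ℝ) ≤ n * δ := by positivity
      have hta : 0 < |t| := hn0.trans_lt htn'
      have hq0 : 0 ≤ n * δ / |t| := by positivity
      have hq1 : n * δ / |t| ≤ 1 := by
        rw [div_le_one hta]
        exact htn'.le
      have hat' : |t'| = n * δ := by
        rw [ht', abs_mul, abs_of_nonneg hq0, mul_div_cancel₀ _ hta.ne']
      have hdist : |t - t'| ≤ δ := by
        have e1 : t - t' = t * (1 - n * δ / |t|) := by
          rw [ht']
          ring
        rw [e1, abs_mul, abs_of_nonneg (by linarith : 0 ≤ 1 - n * δ / |t|), mul_sub, mul_one,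
          mul_div_cancel₀ _ hta.ne']
        push_cast at htn
        linarith
      have hT' : |t| < T := abs_lt.2 ht
      have hseg : ∀ s ∈ uIcc t' t, s ∈ Ioo (-T) T := by
        intro s hs
        have hs1 : |s| ≤ max |t'| |t| := by
          rcases le_total t' t with hle | hle
          · rw [uIcc_of_le hle] at hs
            exact abs_le_max_abs_abs hs.1 hs.2
          · rw [uIcc_of_ge hle] at hs
            rw [max_comm]
            exact abs_le_max_abs_abs hs.1 hs.2
        have hs2 : |s| < T := by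
          refine hs1.trans_lt (max_lt ?_ hT')
          rw [hat']
          linarith
        exact abs_lt.1 hs2
      obtain ⟨g, hg, hgc⟩ := hA c c' T hT hc h t' (hseg t' left_mem_uIcc) hat'.le
      obtain ⟨k, hk, _⟩ := hX.orbit (c t')
      refine ⟨k, Finset.mem_union_right _ (Finset.mem_image.2 ⟨(k * g⁻¹, g), ?_, by simp⟩), ?_⟩
      · rw [Finset.mem_product]
        refine ⟨?_, hg⟩
        rw [Set.Finite.mem_toFinset]
        refine ⟨g • c t', mem_closedBall_zero_iff.2 hgc, ?_⟩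
        rw [mem_closedBall_zero_iff, smul_smul, inv_mul_cancel_right]
        have := hD _ hk
        linarith
      · exact H1d_stay2 hL0 hL hδ (fun s => k • c s)
          (fun s => fderiv ℝ (fun w : Pl => k • w) (c s) (c' s)) hdist
          (fun s hs => hcurve k c c' s (h s (hseg s hs)).1 (h s (hseg s hs)).2) (hD _ hk)
  obtain ⟨n, hn⟩ := exists_nat_ge (R / δ)
  obtain ⟨A, hA⟩ := hA n
  have hbd : ∀ g : Γ, ∃ B : ℝ, ∀ z : Pl, ‖g • z‖ ≤ r + 1 → ‖z‖ ≤ B := by
    intro g
    have hcont : Continuous fun z : Pl => g⁻¹ • z := (hX.smooth g⁻¹).continuous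
    obtain ⟨B, hB⟩ := (hK.image hcont).isBounded.subset_closedBall (0 : Pl)
    refine ⟨B, fun z hz => ?_⟩
    have h1 : z ∈ (fun z : Pl => g⁻¹ • z) '' Metric.closedBall (0 : Pl) (r + 1) :=
      ⟨g • z, mem_closedBall_zero_iff.2 hz, inv_smul_smul g z⟩
    exact mem_closedBall_zero_iff.1 (hB h1)
  choose B hB using hbd
  refine ⟨∑ g ∈ A, |B g|, fun c c' T hT hTR hc h t ht => ?_⟩
  have ht2 : |t| ≤ n * δ := by
    have h1 : |t| < T := abs_lt.2 ht
    have h2 : R ≤ n * δ := (div_le_iff₀ hδ0).1 hn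
    linarith
  obtain ⟨g, hg, hgc⟩ := hA c c' T hT hc h t ht ht2
  have h1 := (hB g (c t) hgc).trans (le_abs_self _)
  exact h1.trans (Finset.single_le_sum (f := fun g => |B g|) (fun _ _ => abs_nonneg _) hg)

end BR
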