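import Pool.Agent.LibBR70.H1a
import Pool.Agent.LibBR70.H1d
import Pool.Agent.LibBR70.FL7

/-! Row H1e (cites FL1-FL7, H1a, H1d): the geodesic flow exists, is smooth and homogeneous.
Plan. `gf_eu`: along an integral curve `(z, v)` the derivative of `v.1^2 + v.2^2` is
`2 (v.1 v.2 - v.2 v.1) om = 0`. `gfl_isFlow`: `FL_exists` (FL3): for a solution `c = (z, v)` on
`Ioo (-T) T`, `eu v` is constant and `qf (m z) z' = eu v ^ 2` (`qf_fr`), so `z` is bounded by
`path_bdd` and `v` by `gf_eu`. Then unfold `gfl` (`dif_pos`, `choose_spec`). `gfl_smooth`: `FL_smooth`.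
`gfl_add`: `FL_add`. `gfl_homog`: for fixed `s` the curve
`t ↦ ((gfl (s t) (x, v)).1, s • (gfl (s t) (x, v)).2)` is an integral curve of `gf` (`fr` is linear in
`v`, `om` linear in `w`): `FL_eq`. `Ex_ray`: `Ex m x (t • v) = (gfl m t (x, v)).1` is the case of
time one. `Ex_smooth`: composition. `Ex_add`: `gfl_add` and `Ex_ray`. -/

open MeasureTheory Set Filter Topology
open scoped ContDiff

namespace BR

open BGS

variable {Γ : Type} [Group Γ] [MulAction Γ Pl] {D : Set Pl}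

theorem H1e_fst {E F : Type} [NormedAddCommGroup E] [NormedSpace ℝ E] [NormedAddCommGroup F]
    [NormedSpace ℝ F] {c : ℝ → E × F} {c' : E × F} {t : ℝ} (h : HasDerivAt c c' t) :
    HasDerivAt (fun s => (c s).1) c'.1 t :=
  (ContinuousLinearMap.fst ℝ E F).hasFDerivAt.comp_hasDerivAt t h

theorem H1e_snd {E F : Type} [NormedAddCommGroup E] [NormedSpace ℝ E] [NormedAddCommGroup F]
    [NormedSpace ℝ F] {c : ℝ → E × F} {c' : E × F} {t : ℝ} (h : HasDerivAt c c' t) :
    HasDerivAt (fun s => (c s).2) c'.2 t :=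
  (ContinuousLinearMap.snd ℝ E F).hasFDerivAt.comp_hasDerivAt t h

theorem H1e_fr_smul (c : Co) (s : ℝ) (v : Pl) : fr c (s • v) = s • fr c v := by
  unfold fr
  simp only [Prod.smul_fst, Prod.smul_snd, smul_eq_mul, smul_add, smul_smul]

theorem H1e_om_smul (m : Pl → Co) (z : Pl) (s : ℝ) (w : Pl) : om m z (s • w) = s * om m z w := by
  unfold om
  simp only [Prod.smul_fst, Prod.smul_snd, smul_eq_mul]
  ring

theorem H1e_energy {m : Pl → Co} {c : ℝ → Pl × Pl} {T : ℝ} (hT : 0 < T)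
    (hc : ∀ t ∈ Ioo (-T) T, HasDerivAt c (gf m (c t)) t) {t : ℝ} (ht : t ∈ Ioo (-T) T) :
    eu (c t).2 = eu (c 0).2 := by
  have h1 : ∀ s ∈ Ioo (-T) T,
      HasDerivAt (fun s => (c s).2.1 ^ 2 + (c s).2.2 ^ 2) 0 s := by
    intro s hs
    have h2 := H1e_snd (hc s hs)
    have h3 := H1e_fst h2
    have h4 := H1e_snd h2
    have h5 := (h3.pow 2).add (h4.pow 2)
    refine h5.congr_deriv ?_
    unfold gf
    simp only [Prod.smul_fst, Prod.smul_snd, smul_eq_mul]
    push_cast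
    ring
  have h0 : (0 : ℝ) ∈ Ioo (-T) T := ⟨by linarith, hT⟩
  have h2 : (c t).2.1 ^ 2 + (c t).2.2 ^ 2 = (c 0).2.1 ^ 2 + (c 0).2.2 ^ 2 :=
    isOpen_Ioo.is_const_of_deriv_eq_zero (f := fun s => (c s).2.1 ^ 2 + (c s).2.2 ^ 2)
      isPreconnected_Ioo (fun s hs => (h1 s hs).differentiableAt.differentiableWithinAt)
      (fun s hs => (h1 s hs).deriv) ht h0
  unfold eu
  rw [h2]

theorem H1e_norm (v : Pl) : ‖v‖ ≤ eu v := by
  rw [Prod.norm_def, max_le_iff, Real.norm_eq_abs, Real.norm_eq_abs]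
  unfold eu
  constructor
  · exact Real.abs_le_sqrt (by nlinarith [sq_nonneg v.2])
  · exact Real.abs_le_sqrt (by nlinarith [sq_nonneg v.1])

theorem H1e_exists (hX : Surface Γ D) {m : Pl → Co} (hm : HM Γ m) : ∃ φ, IsFlow (gf m) φ := by
  have h1 : ContDiff ℝ 1 (gf m) := (gf_smooth hm.smooth hm.pos).of_le (by exact_mod_cast le_top)
  refine FL_exists h1 fun x R hR => ?_
  obtain ⟨B, hB⟩ := path_bdd hX hm x.1 R (eu x.2)
  refine ⟨max B (eu x.2), fun c T hT hTR hc0 hc t ht => ?_⟩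
  have h2 : ∀ t ∈ Ioo (-T) T, eu (c t).2 = eu x.2 := by
    intro t ht
    rw [H1e_energy hT hc ht, hc0]
  have h3 := hB (fun t => (c t).1) (fun t => fr (m (c t).1) (c t).2) T hT hTR (by rw [hc0])
    (fun t ht => ⟨(hc t ht).fst, by
      rw [qf_fr (hm.pos _).1 (hm.pos _).2, h2 t ht]⟩) t ht
  rw [Prod.norm_def]
  refine max_le_max h3 ?_
  rw [← h2 t ht]
  exact H1e_norm _

theorem gfl_isFlow (hX : Surface Γ D) {m : Pl → Co} (hm : HM Γ m) : IsFlow (gf m) (gfl m) := by
  have h := H1e_exists hX hm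
  unfold gfl
  rw [dif_pos h]
  exact h.choose_spec

theorem gfl_smooth (hX : Surface Γ D) {m : Pl → Co} (hm : HM Γ m) :
    ContDiff ℝ ∞ (fun p : ℝ × (Pl × Pl) => gfl m p.1 p.2) :=
  FL_smooth (gf_smooth hm.smooth hm.pos) (gfl_isFlow hX hm)

theorem H1e_C1 {m : Pl → Co} (hm : HM Γ m) : ContDiff ℝ 1 (gf m) :=
  (gf_smooth hm.smooth hm.pos).of_le (by exact_mod_cast le_top)

theorem gfl_add (hX : Surface Γ D) {m : Pl → Co} (hm : HM Γ m) (s t : ℝ) (p : Pl × Pl) :
    gfl m (s + t) p = gfl m s (gfl m t p) :=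
  FL_add (H1e_C1 hm) (gfl_isFlow hX hm) s t p

theorem gfl_eu (hX : Surface Γ D) {m : Pl → Co} (hm : HM Γ m) (t : ℝ) (p : Pl × Pl) :
    eu (gfl m t p).2 = eu p.2 := by
  have h := gfl_isFlow hX hm
  have h1 := H1e_energy (m := m) (c := fun s => gfl m s p) (T := |t| + 1) (by positivity)
    (fun s _ => h.deriv p s) (t := t) ⟨by linarith [neg_abs_le t], by linarith [le_abs_self t]⟩
  simp only [h.zero] at h1
  exact h1

theorem gfl_homog (hX : Surface Γ D) {m : Pl → Co} (hm : HM Γ m) (s t : ℝ) (x v : Pl) :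
    gfl m t (x, s • v) = ((gfl m (s * t) (x, v)).1, s • (gfl m (s * t) (x, v)).2) := by
  have h := gfl_isFlow hX hm
  have h1 := FL_eq (H1e_C1 hm) h
    (c := fun t => ((gfl m (s * t) (x, v)).1, s • (gfl m (s * t) (x, v)).2)) (fun t => by
      have h2 : HasDerivAt (fun t : ℝ => s * t) s t := by
        have := (hasDerivAt_id t).const_mul s
        rwa [mul_one] at this
      have h3 : HasDerivAt (fun t => gfl m (s * t) (x, v))
          (s • gf m (gfl m (s * t) (x, v))) t :=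
        HasDerivAt.scomp t (h.deriv (x, v) (s * t)) h2
      have h4 := (H1e_fst h3).prodMk ((H1e_snd h3).const_smul s)
      refine h4.congr_deriv ?_
      unfold gf
      refine Prod.ext ?_ ?_
      · simp only [Prod.smul_fst]
        rw [H1e_fr_smul]
      · simp only [Prod.smul_snd, Prod.smul_fst, smul_eq_mul]
        rw [H1e_fr_smul, H1e_om_smul]
        ext
        · simp only [Prod.smul_fst, smul_eq_mul]
          ring
        · simp only [Prod.smul_snd, smul_eq_mul]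
          ring) t
  simp only [mul_zero, h.zero] at h1
  exact h1.symm

theorem Ex_ray (hX : Surface Γ D) {m : Pl → Co} (hm : HM Γ m) (t : ℝ) (x v : Pl) :
    Ex m x (t • v) = (gfl m t (x, v)).1 := by
  unfold Ex
  rw [gfl_homog hX hm, mul_one]

theorem Ex_zero (hX : Surface Γ D) {m : Pl → Co} (hm : HM Γ m) (x : Pl) : Ex m x 0 = x := by
  have h1 := Ex_ray hX hm 0 x 0
  rw [zero_smul, (gfl_isFlow hX hm).zero] at h1
  exact h1

theorem Ex_smooth (hX : Surface Γ D) {m : Pl → Co} (hm : HM Γ m) :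
    ContDiff ℝ ∞ (fun p : Pl × Pl => Ex m p.1 p.2) := by
  have h1 : ContDiff ℝ ∞ fun p : Pl × Pl => (((1 : ℝ), p) : ℝ × (Pl × Pl)) :=
    contDiff_const.prodMk contDiff_id
  exact ((gfl_smooth hX hm).comp h1).fst

/-- A geodesic can be restarted at each of its points. -/
theorem Ex_add (hX : Surface Γ D) {m : Pl → Co} (hm : HM Γ m) (s t : ℝ) (x v : Pl) :
    Ex m x ((s + t) • v) = Ex m (Ex m x (s • v)) (t • (gfl m s (x, v)).2) := by
  rw [Ex_ray hX hm, Ex_ray hX hm, Ex_ray hX hm, add_comm s t, gfl_add hX hm]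

/-- The speed of a geodesic. -/
theorem qf_gfl (hX : Surface Γ D) {m : Pl → Co} (hm : HM Γ m) (t : ℝ) (x v : Pl) :
    HasDerivAt (fun s => Ex m x (s • v)) (fr (m (Ex m x (t • v))) (gfl m t (x, v)).2) t ∧
      qf (m (Ex m x (t • v))) (fr (m (Ex m x (t • v))) (gfl m t (x, v)).2) = eu v ^ 2 := by
  constructor
  · have h1 : (fun s => Ex m x (s • v)) = fun s => (gfl m s (x, v)).1 :=
      funext fun s => Ex_ray hX hm s x v
    rw [h1, Ex_ray hX hm]
    exact ((gfl_isFlow hX hm).deriv (x, v) t).fst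
  · rw [qf_fr (hm.pos _).1 (hm.pos _).2, gfl_eu hX hm]

end BR
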