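import Pool.Agent.LibBR70.H1b
import Pool.Agent.LibBR70.H1e

/-! Row H1k (cites H1a, H1b, H1e; strong): deck transformations commute with the geodesic flow.
Hypothesis: they preserve the orientation of the plane.
Plan. `A = fderiv (γ • ·) z` is an isometry: `bf (m (γ z)) (A v) (A w) = bf (m z) v w` (polarise
`HM.inv`). So `Rg m γ z` is linear and preserves `ip`; its determinant is positive (`wd_ifr` and
`det A > 0`), hence it is a rotation: `Rg m γ z v = (c v₁ - s v₂, s v₁ + c v₂)` with `c² + s² = 1`,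
`c = c(z)`, `s = s(z)` smooth (`(c, s) = Rg m γ z (1, 0)`). In particular
`ifr (m (γ z)) (A w) = Rg m γ z (ifr (m z) w)`.
CONNECTION: claim `ω_{γz}(A w) = om m z w - (c ds(w) - s dc(w))`. Proof: apply struct1, struct2 at `γ z` to
`A w`, `A w'`; the derivative at `z` in the direction `w` of `y ↦ ifr (m (γ y)) (fderiv (γ • ·) y w')` is
`(derivative of θ at γz in the direction A w)(A w') + θ(D²γ (w, w'))`, and `D²γ` is symmetric, so the
alternating difference of these derivatives is the left side of struct at `γ z`. On the other hand this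
function is `Rg m γ y (ifr (m y) w')`, whose derivative is `(D_w R) θ(w') + R D_w θ(w')`, and `D_w R = η(w) J R`
where `η(w) = c ds(w) - s dc(w)` and `J` is the rotation by a right angle. Comparing the two components
gives `(ω_{γz}(A w) - ω_z(w) + η(w)) θ_i(w') = (the same with w, w' exchanged)` for `i = 1, 2`;
choose `w, w'` with `θ(w) = (1, 0)`, `θ(w') = (0, 1)` to get that the one-form vanishes.
FLOW: `(z, v)` integral curve of `gf`, `z̃ = γ z`, `ṽ = R v`: `z̃' = A z' = fr (m z̃) (R v)`, and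
`ṽ' = R' v + R v' = η(z') J R v - ω(z') J R v = -ω_{z̃}(z̃') J ṽ` (`v' = -ω(z') J v`, `J` commutes with `R`).
So it is an integral curve: `FL_eq`. -/

open MeasureTheory Set Filter Topology
open scoped ContDiff

namespace BR

open BGS

variable {Γ : Type} [Group Γ] [MulAction Γ Pl] {D : Set Pl}

/-- The deck transformations preserve the orientation. -/
def Ori (Γ : Type) [Group Γ] [MulAction Γ Pl] : Prop :=
  ∀ (γ : Γ) (z : Pl), 0 < (fderiv ℝ (fun w : Pl => γ • w) z).det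

/-! ### Algebra of the frame -/

private theorem H1k_fr_add (c : Co) (v w : Pl) : fr c (v + w) = fr c v + fr c w := by
  simp only [fr, Prod.fst_add, Prod.snd_add, add_smul]
  abel

private theorem H1k_fr_smul (c : Co) (r : ℝ) (v : Pl) : fr c (r • v) = r • fr c v := by
  simp only [fr, Prod.smul_fst, Prod.smul_snd, smul_eq_mul, mul_smul, smul_add]

private theorem H1k_ifr_add (c : Co) (v w : Pl) : ifr c (v + w) = ifr c v + ifr c w := by
  ext
  · simp only [ifr, bf, Prod.fst_add, Prod.snd_add]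
    ring
  · simp only [ifr, bf, Prod.fst_add, Prod.snd_add]
    ring

private theorem H1k_ifr_smul (c : Co) (r : ℝ) (v : Pl) : ifr c (r • v) = r • ifr c v := by
  ext
  · simp only [ifr, bf, Prod.smul_fst, Prod.smul_snd, smul_eq_mul]
    ring
  · simp only [ifr, bf, Prod.smul_fst, Prod.smul_snd, smul_eq_mul]
    ring

private theorem H1k_bf_pol (c : Co) (v w : Pl) :
    bf c (v + w) (v + w) = bf c v v + 2 * bf c v w + bf c w w := by
  simp only [bf, Prod.fst_add, Prod.snd_add]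
  ring

private theorem H1k_bf_deck {m : Pl → Co} (hm : HM Γ m) (γ : Γ) (z v w : Pl) :
    bf (m (γ • z)) (fderiv ℝ (fun w : Pl => γ • w) z v) (fderiv ℝ (fun w : Pl => γ • w) z w) =
      bf (m z) v w := by
  have h1 := hm.inv γ z (v + w)
  have h2 := hm.inv γ z v
  have h3 := hm.inv γ z w
  rw [qf_eq_bf, qf_eq_bf] at h1 h2 h3
  rw [map_add, H1k_bf_pol, H1k_bf_pol] at h1
  linarith

private theorem H1k_Rg_add (m : Pl → Co) (γ : Γ) (x v w : Pl) :
    Rg m γ x (v + w) = Rg m γ x v + Rg m γ x w := by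
  simp only [Rg, H1k_fr_add, map_add, H1k_ifr_add]

private theorem H1k_Rg_smul (m : Pl → Co) (γ : Γ) (x v : Pl) (r : ℝ) :
    Rg m γ x (r • v) = r • Rg m γ x v := by
  simp only [Rg, H1k_fr_smul, map_smul, H1k_ifr_smul]

private theorem H1k_det (A : Pl →L[ℝ] Pl) (v w : Pl) : wd (A v) (A w) = A.det * wd v w := by
  have h0 : A.det = (A (1, 0)).1 * (A (0, 1)).2 - (A (0, 1)).1 * (A (1, 0)).2 := by
    have h1 : A.det = LinearMap.det (A : Pl →ₗ[ℝ] Pl) := rfl
    rw [h1, ← LinearMap.det_toMatrix (Module.Basis.finTwoProd ℝ), Matrix.det_fin_two]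
    simp [LinearMap.toMatrix_apply]
  have h2 : ∀ u : Pl, A u = u.1 • A (1, 0) + u.2 • A (0, 1) := by
    intro u
    rw [← map_smul, ← map_smul, ← map_add]
    congr 1
    ext <;> simp
  rw [h2 v, h2 w, h0]
  simp only [wd, Prod.fst_add, Prod.snd_add, Prod.smul_fst, Prod.smul_snd, smul_eq_mul]
  ring

private theorem H1k_wd_pos (hO : Ori Γ) {m : Pl → Co} (hm : HM Γ m) (γ : Γ) (x : Pl) :
    0 < wd (Rg m γ x (1, 0)) (Rg m γ x (0, 1)) := by
  have h1 := hm.pos (γ • x)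
  have h2 := hm.pos x
  have h3 := wd_ifr h2.1 h2.2 (fr (m x) (1, 0)) (fr (m x) (0, 1))
  rw [ifr_fr h2.1 h2.2, ifr_fr h2.1 h2.2] at h3
  have h4 : wd ((1, 0) : Pl) (0, 1) = 1 := by simp [wd]
  rw [h4] at h3
  have h5 : 0 < √(dt (m x)) := Real.sqrt_pos.2 h2.2
  have h6 : 0 < wd (fr (m x) (1, 0)) (fr (m x) (0, 1)) := by
    by_contra hcon
    push Not at hcon
    nlinarith
  unfold Rg
  rw [wd_ifr h1.1 h1.2, H1k_det]
  exact mul_pos (Real.sqrt_pos.2 h1.2) (mul_pos (hO γ x) h6)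

theorem Rg_ip (hX : Surface Γ D) {m : Pl → Co} (hm : HM Γ m) (γ : Γ) (x v w : Pl) :
    ip (Rg m γ x v) (Rg m γ x w) = ip v w := by
  have h1 := hm.pos (γ • x)
  have h2 := hm.pos x
  unfold Rg
  rw [← bf_eq_ip h1.1 h1.2, H1k_bf_deck hm, bf_fr h2.1 h2.2]

/-- The cosine and the sine of the rotation. -/
private noncomputable def H1k_c (m : Pl → Co) (γ : Γ) (x : Pl) : ℝ := (Rg m γ x (1, 0)).1

private noncomputable def H1k_s (m : Pl → Co) (γ : Γ) (x : Pl) : ℝ := (Rg m γ x (1, 0)).2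

private theorem H1k_sq (hX : Surface Γ D) {m : Pl → Co} (hm : HM Γ m) (γ : Γ) (x : Pl) :
    H1k_c m γ x ^ 2 + H1k_s m γ x ^ 2 = 1 := by
  have h := Rg_ip hX hm γ x (1, 0) (1, 0)
  simp only [ip] at h
  unfold H1k_c H1k_s
  linarith

private theorem H1k_form (hX : Surface Γ D) (hO : Ori Γ) {m : Pl → Co} (hm : HM Γ m) (γ : Γ)
    (x v : Pl) : Rg m γ x v = (H1k_c m γ x * v.1 - H1k_s m γ x * v.2,
      H1k_s m γ x * v.1 + H1k_c m γ x * v.2) := by
  have h1 := H1k_sq hX hm γ x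
  have h2 := Rg_ip hX hm γ x (1, 0) (0, 1)
  have h3 := Rg_ip hX hm γ x (0, 1) (0, 1)
  have h4 := H1k_wd_pos hO hm γ x
  have h5 : Rg m γ x v = v.1 • Rg m γ x (1, 0) + v.2 • Rg m γ x (0, 1) := by
    rw [← H1k_Rg_smul, ← H1k_Rg_smul, ← H1k_Rg_add]
    congr 1
    ext <;> simp
  simp only [ip, wd] at h2 h3 h4
  unfold H1k_c H1k_s at *
  set c := (Rg m γ x (1, 0)).1 with hc
  set s := (Rg m γ x (1, 0)).2 with hs
  set a := (Rg m γ x (0, 1)).1 with ha
  set b := (Rg m γ x (0, 1)).2 with hb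
  have h6 : (c * b - s * a) ^ 2 = 1 := by
    have : (c * b - s * a) ^ 2 = (c ^ 2 + s ^ 2) * (a * a + b * b) - (c * a + s * b) ^ 2 := by ring
    rw [this, h1, h2, h3]
    ring
  have h7 : c * b - s * a = 1 := by
    nlinarith
  have h8 : a = -s := by
    linear_combination (-a) * h1 + c * h2 - s * h7
  have h9 : b = c := by
    linear_combination (-b) * h1 + s * h2 + c * h7
  rw [h5]
  ext
  · simp only [Prod.fst_add, Prod.smul_fst, smul_eq_mul]
    rw [← hc, ← ha, h8]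
    ring
  · simp only [Prod.snd_add, Prod.smul_snd, smul_eq_mul]
    rw [← hs, ← hb, h9]
    ring

theorem Rg_rot (hX : Surface Γ D) (hO : Ori Γ) {m : Pl → Co} (hm : HM Γ m) (γ : Γ) (x v : Pl) :
    Rg m γ x (rot v) = rot (Rg m γ x v) := by
  rw [H1k_form hX hO hm, H1k_form hX hO hm]
  simp only [rot]
  ext
  · simp only
    ring
  · simp only
    ring

theorem Rg_smooth (hX : Surface Γ D) {m : Pl → Co} (hm : HM Γ m) (γ : Γ) :
    ContDiff ℝ ∞ (fun p : Pl × Pl => Rg m γ p.1 p.2) := by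
  have h1 : ContDiff ℝ ∞ (fun z : Pl => γ • z) := hX.smooth γ
  have h2 : ContDiff ℝ ∞ (fderiv ℝ (fun z : Pl => γ • z)) := h1.fderiv_right (by simp)
  have h3 := fr_smooth hm.smooth hm.pos
  have h4 := ifr_smooth hm.smooth hm.pos
  have h5 : ContDiff ℝ ∞ (fun p : Pl × Pl => fderiv ℝ (fun z : Pl => γ • z) p.1
      (fr (m p.1) p.2)) := (h2.comp contDiff_fst).clm_apply h3
  have h6 : ContDiff ℝ ∞ (fun p : Pl × Pl => γ • p.1) := h1.comp contDiff_fst
  exact h4.comp (h6.prodMk h5)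

theorem Rg_smul (hX : Surface Γ D) {m : Pl → Co} (hm : HM Γ m) (γ : Γ) (x v : Pl) (r : ℝ) :
    Rg m γ x (r • v) = r • Rg m γ x v :=
  H1k_Rg_smul m γ x v r

theorem Rg_mul (hX : Surface Γ D) {m : Pl → Co} (hm : HM Γ m) (γ δ : Γ) (x v : Pl) :
    Rg m (γ * δ) x v = Rg m γ (δ • x) (Rg m δ x v) := by
  have h1 : ∀ g : Γ, Differentiable ℝ (fun z : Pl => g • z) := fun g =>
    (hX.smooth g).differentiable (by simp)
  have h2 : fderiv ℝ (fun w : Pl => (γ * δ) • w) x =
      (fderiv ℝ (fun w : Pl => γ • w) (δ • x)).comp (fderiv ℝ (fun w : Pl => δ • w) x) := by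
    have h3 : (fun w : Pl => (γ * δ) • w) = (fun w : Pl => γ • w) ∘ (fun w : Pl => δ • w) := by
      funext w
      exact mul_smul γ δ w
    rw [h3]
    exact fderiv_comp x (h1 γ _) (h1 δ x)
  have h4 := hm.pos (δ • x)
  unfold Rg
  rw [h2, mul_smul, fr_ifr h4.1 h4.2]
  rfl

/-! ### The connection form -/

private theorem H1k_chain {T : Pl × Pl → ℝ} (hT : ContDiff ℝ ∞ T)
    (hadd : ∀ p a b, T (p, a + b) = T (p, a) + T (p, b))
    (hsmul : ∀ p (r : ℝ) a, T (p, r • a) = r * T (p, a)) {g : Pl → Pl} (hg : ContDiff ℝ ∞ g)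
    (z w w' : Pl) :
    fderiv ℝ (fun y => T (g y, fderiv ℝ g y w')) z w =
      fderiv ℝ (fun y => T (y, fderiv ℝ g z w')) (g z) (fderiv ℝ g z w) +
        T (g z, fderiv ℝ (fderiv ℝ g) z w w') := by
  have hTd : HasFDerivAt T (fderiv ℝ T (g z, fderiv ℝ g z w')) (g z, fderiv ℝ g z w') :=
    ((hT.differentiable (by simp)) _).hasFDerivAt
  have hgd : HasFDerivAt g (fderiv ℝ g z) z := ((hg.differentiable (by simp)) _).hasFDerivAt
  have hg2 : ContDiff ℝ ∞ (fderiv ℝ g) := hg.fderiv_right (by simp)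
  have hgd2 : HasFDerivAt (fderiv ℝ g) (fderiv ℝ (fderiv ℝ g) z) z :=
    ((hg2.differentiable (by simp)) _).hasFDerivAt
  have h1 : HasFDerivAt (fun y => fderiv ℝ g y w')
      ((ContinuousLinearMap.apply ℝ Pl w').comp (fderiv ℝ (fderiv ℝ g) z)) z :=
    (ContinuousLinearMap.apply ℝ Pl w').hasFDerivAt.comp z hgd2
  have h2 := (hTd.comp z (hgd.prodMk h1)).fderiv
  have h3 : HasFDerivAt (fun y => T (y, fderiv ℝ g z w'))
      ((fderiv ℝ T (g z, fderiv ℝ g z w')).comp (ContinuousLinearMap.inl ℝ Pl Pl)) (g z) :=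
    hTd.comp (g z) (hasFDerivAt_prodMk_left (g z) (fderiv ℝ g z w'))
  have h4 : HasFDerivAt (fun y => T (g z, y))
      ((fderiv ℝ T (g z, fderiv ℝ g z w')).comp (ContinuousLinearMap.inr ℝ Pl Pl))
      (fderiv ℝ g z w') :=
    hTd.comp (fderiv ℝ g z w') (hasFDerivAt_prodMk_right (g z) (fderiv ℝ g z w'))
  let L : Pl →ₗ[ℝ] ℝ :=
    { toFun := fun y => T (g z, y)
      map_add' := hadd (g z)
      map_smul' := fun r a => hsmul (g z) r a }
  have h5 : HasFDerivAt (fun y => T (g z, y)) (LinearMap.toContinuousLinearMap L)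
      (fderiv ℝ g z w') := (LinearMap.toContinuousLinearMap L).hasFDerivAt
  have h6 := h4.unique h5
  have h7 : ∀ b : Pl, fderiv ℝ T (g z, fderiv ℝ g z w') (0, b) = T (g z, b) := by
    intro b
    have h8 := congrArg (fun A : Pl →L[ℝ] ℝ => A b) h6
    exact h8
  have h9 : (fun y => T (g y, fderiv ℝ g y w')) = T ∘ (fun y => (g y, fderiv ℝ g y w')) := rfl
  rw [h9, h2, h3.fderiv, ← h7]
  show fderiv ℝ T (g z, fderiv ℝ g z w') (fderiv ℝ g z w, fderiv ℝ (fderiv ℝ g) z w w') =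
    fderiv ℝ T (g z, fderiv ℝ g z w') (fderiv ℝ g z w, 0) +
      fderiv ℝ T (g z, fderiv ℝ g z w') (0, fderiv ℝ (fderiv ℝ g) z w w')
  rw [← map_add, Prod.mk_add_mk, add_zero, zero_add]

private theorem H1k_symm {g : Pl → Pl} (hg : ContDiff ℝ ∞ g) (z w w' : Pl) :
    fderiv ℝ (fderiv ℝ g) z w w' = fderiv ℝ (fderiv ℝ g) z w' w := by
  have h : IsSymmSndFDerivAt ℝ g z := by
    refine (hg.contDiffAt (x := z)).isSymmSndFDerivAt ?_
    rw [minSmoothness_of_isRCLikeNormedField]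
    exact WithTop.coe_le_coe.2 (le_top : (2 : ℕ∞) ≤ ⊤)
  exact h w w'

/-- The alternating difference of the pulled back coframe. -/
private theorem H1k_alt {T : Pl × Pl → ℝ} (hT : ContDiff ℝ ∞ T)
    (hadd : ∀ p a b, T (p, a + b) = T (p, a) + T (p, b))
    (hsmul : ∀ p (r : ℝ) a, T (p, r • a) = r * T (p, a)) {g : Pl → Pl} (hg : ContDiff ℝ ∞ g)
    (z w w' : Pl) :
    fderiv ℝ (fun y => T (g y, fderiv ℝ g y w')) z w -
        fderiv ℝ (fun y => T (g y, fderiv ℝ g y w)) z w' =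
      fderiv ℝ (fun y => T (y, fderiv ℝ g z w')) (g z) (fderiv ℝ g z w) -
        fderiv ℝ (fun y => T (y, fderiv ℝ g z w)) (g z) (fderiv ℝ g z w') := by
  rw [H1k_chain hT hadd hsmul hg, H1k_chain hT hadd hsmul hg, H1k_symm hg z w w']
  ring

private theorem H1k_prod_sub {a b c d : Pl → ℝ} (ha : Differentiable ℝ a)
    (hb : Differentiable ℝ b) (hc : Differentiable ℝ c) (hd : Differentiable ℝ d) (z w : Pl) :
    fderiv ℝ (fun y => a y * b y - c y * d y) z w =
      (a z * fderiv ℝ b z w + b z * fderiv ℝ a z w) -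
        (c z * fderiv ℝ d z w + d z * fderiv ℝ c z w) := by
  have h := (((ha z).hasFDerivAt.mul (hb z).hasFDerivAt).sub
    ((hc z).hasFDerivAt.mul (hd z).hasFDerivAt)).fderiv
  have h' : (fun y => a y * b y - c y * d y) = (a * b - c * d) := rfl
  rw [h', h]
  rfl

private theorem H1k_prod_add {a b c d : Pl → ℝ} (ha : Differentiable ℝ a)
    (hb : Differentiable ℝ b) (hc : Differentiable ℝ c) (hd : Differentiable ℝ d) (z w : Pl) :
    fderiv ℝ (fun y => a y * b y + c y * d y) z w =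
      (a z * fderiv ℝ b z w + b z * fderiv ℝ a z w) +
        (c z * fderiv ℝ d z w + d z * fderiv ℝ c z w) := by
  have h := (((ha z).hasFDerivAt.mul (hb z).hasFDerivAt).add
    ((hc z).hasFDerivAt.mul (hd z).hasFDerivAt)).fderiv
  have h' : (fun y => a y * b y + c y * d y) = (a * b + c * d) := rfl
  rw [h', h]
  rfl

private theorem H1k_c_smooth (hX : Surface Γ D) {m : Pl → Co} (hm : HM Γ m) (γ : Γ) :
    ContDiff ℝ ∞ (H1k_c m γ) :=
  contDiff_fst.comp ((Rg_smooth hX hm γ).comp (contDiff_id.prodMk contDiff_const))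

private theorem H1k_s_smooth (hX : Surface Γ D) {m : Pl → Co} (hm : HM Γ m) (γ : Γ) :
    ContDiff ℝ ∞ (H1k_s m γ) :=
  contDiff_snd.comp ((Rg_smooth hX hm γ).comp (contDiff_id.prodMk contDiff_const))

private theorem H1k_dsq (hX : Surface Γ D) {m : Pl → Co} (hm : HM Γ m) (γ : Γ) (z w : Pl) :
    H1k_c m γ z * fderiv ℝ (H1k_c m γ) z w + H1k_s m γ z * fderiv ℝ (H1k_s m γ) z w = 0 := by
  have hc : Differentiable ℝ (H1k_c m γ) := (H1k_c_smooth hX hm γ).differentiable (by simp)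
  have hs : Differentiable ℝ (H1k_s m γ) := (H1k_s_smooth hX hm γ).differentiable (by simp)
  have h1 := H1k_prod_add hc hc hs hs z w
  have h2 : (fun y => H1k_c m γ y * H1k_c m γ y + H1k_s m γ y * H1k_s m γ y) =
      fun _ => (1 : ℝ) := by
    funext y
    have := H1k_sq hX hm γ y
    linarith
  rw [h2, fderiv_const_apply] at h1
  have h3 : ((0 : Pl →L[ℝ] ℝ) w) = 0 := rfl
  rw [h3] at h1
  linarith

/-- The rotation form. -/
private noncomputable def H1k_eta (m : Pl → Co) (γ : Γ) (z w : Pl) : ℝ :=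
  H1k_c m γ z * fderiv ℝ (H1k_s m γ) z w - H1k_s m γ z * fderiv ℝ (H1k_c m γ) z w

private theorem H1k_dc (hX : Surface Γ D) {m : Pl → Co} (hm : HM Γ m) (γ : Γ) (z w : Pl) :
    fderiv ℝ (H1k_c m γ) z w = -(H1k_s m γ z * H1k_eta m γ z w) := by
  have h1 := H1k_dsq hX hm γ z w
  have h2 := H1k_sq hX hm γ z
  unfold H1k_eta
  linear_combination (-fderiv ℝ (H1k_c m γ) z w) * h2 + H1k_c m γ z * h1

private theorem H1k_ds (hX : Surface Γ D) {m : Pl → Co} (hm : HM Γ m) (γ : Γ) (z w : Pl) :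
    fderiv ℝ (H1k_s m γ) z w = H1k_c m γ z * H1k_eta m γ z w := by
  have h1 := H1k_dsq hX hm γ z w
  have h2 := H1k_sq hX hm γ z
  unfold H1k_eta
  linear_combination (-fderiv ℝ (H1k_s m γ) z w) * h2 + H1k_s m γ z * h1

private theorem H1k_ifr_deck (hX : Surface Γ D) (hO : Ori Γ) {m : Pl → Co} (hm : HM Γ m)
    (γ : Γ) (y w : Pl) :
    ifr (m (γ • y)) (fderiv ℝ (fun w : Pl => γ • w) y w) =
      (H1k_c m γ y * (ifr (m y) w).1 - H1k_s m γ y * (ifr (m y) w).2,
        H1k_s m γ y * (ifr (m y) w).1 + H1k_c m γ y * (ifr (m y) w).2) := by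
  have h := hm.pos y
  rw [← H1k_form hX hO hm]
  unfold Rg
  rw [fr_ifr h.1 h.2]

private theorem H1k_om_smul (m : Pl → Co) (z : Pl) : om m z 0 = 0 := by
  simp [om]

/-- Transformation of the connection form. -/
private theorem H1k_om (hX : Surface Γ D) (hO : Ori Γ) {m : Pl → Co} (hm : HM Γ m) (γ : Γ)
    (z w : Pl) :
    om m (γ • z) (fderiv ℝ (fun w : Pl => γ • w) z w) = om m z w - H1k_eta m γ z w := by
  have hg : ContDiff ℝ ∞ (fun w : Pl => γ • w) := hX.smooth γ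
  have hc : Differentiable ℝ (H1k_c m γ) := (H1k_c_smooth hX hm γ).differentiable (by simp)
  have hs : Differentiable ℝ (H1k_s m γ) := (H1k_s_smooth hX hm γ).differentiable (by simp)
  have hI := ifr_smooth hm.smooth hm.pos
  have hT1 : ContDiff ℝ ∞ (fun p : Pl × Pl => (ifr (m p.1) p.2).1) := contDiff_fst.comp hI
  have hT2 : ContDiff ℝ ∞ (fun p : Pl × Pl => (ifr (m p.1) p.2).2) := contDiff_snd.comp hI
  have hd1 : ∀ u : Pl, Differentiable ℝ (fun y : Pl => (ifr (m y) u).1) := fun u =>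
    (hT1.comp (contDiff_id.prodMk contDiff_const)).differentiable (by simp)
  have hd2 : ∀ u : Pl, Differentiable ℝ (fun y : Pl => (ifr (m y) u).2) := fun u =>
    (hT2.comp (contDiff_id.prodMk contDiff_const)).differentiable (by simp)
  by_cases hw : w = 0
  · subst hw
    simp [om, H1k_eta]
  set w' : Pl := fr (m z) (rot (ifr (m z) w)) with hw'
  have hp := hm.pos z
  have hθ' : ifr (m z) w' = rot (ifr (m z) w) := ifr_fr hp.1 hp.2 _
  have e1 := H1k_alt hT1 (fun p a b => by simp only [H1k_ifr_add, Prod.fst_add])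
    (fun p r a => by simp only [H1k_ifr_smul, Prod.smul_fst, smul_eq_mul]) hg z w w'
  have e2 := H1k_alt hT2 (fun p a b => by simp only [H1k_ifr_add, Prod.snd_add])
    (fun p r a => by simp only [H1k_ifr_smul, Prod.smul_snd, smul_eq_mul]) hg z w w'
  have s1 := struct1 hm.smooth hm.pos (γ • z) (fderiv ℝ (fun w : Pl => γ • w) z w)
    (fderiv ℝ (fun w : Pl => γ • w) z w')
  have s2 := struct2 hm.smooth hm.pos (γ • z) (fderiv ℝ (fun w : Pl => γ • w) z w)
    (fderiv ℝ (fun w : Pl => γ • w) z w')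
  have t1 := struct1 hm.smooth hm.pos z w w'
  have t2 := struct2 hm.smooth hm.pos z w w'
  have f1 : ∀ u : Pl, (fun y : Pl => (ifr (m (γ • y)) (fderiv ℝ (fun w : Pl => γ • w) y u)).1) =
      fun y => H1k_c m γ y * (ifr (m y) u).1 - H1k_s m γ y * (ifr (m y) u).2 := fun u =>
    funext fun y => by rw [H1k_ifr_deck hX hO hm]
  have f2 : ∀ u : Pl, (fun y : Pl => (ifr (m (γ • y)) (fderiv ℝ (fun w : Pl => γ • w) y u)).2) =
      fun y => H1k_s m γ y * (ifr (m y) u).1 + H1k_c m γ y * (ifr (m y) u).2 := fun u =>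
    funext fun y => by rw [H1k_ifr_deck hX hO hm]
  simp only at e1 e2
  rw [f1 w', f1 w, H1k_prod_sub hc (hd1 w') hs (hd2 w'), H1k_prod_sub hc (hd1 w) hs (hd2 w),
    s1] at e1
  rw [f2 w', f2 w, H1k_prod_add hs (hd1 w') hc (hd2 w'), H1k_prod_add hs (hd1 w) hc (hd2 w),
    s2] at e2
  rw [H1k_ifr_deck hX hO hm, H1k_ifr_deck hX hO hm, H1k_dc hX hm, H1k_dc hX hm, H1k_ds hX hm,
    H1k_ds hX hm, hθ'] at e1 e2
  rw [hθ'] at t1 t2
  simp only [rot] at e1 e2 t1 t2
  have h0 := H1k_sq hX hm γ z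
  set c := H1k_c m γ z
  set s := H1k_s m γ z
  set θ := ifr (m z) w with hθ
  set Ω := om m (γ • z) (fderiv ℝ (fun w : Pl => γ • w) z w)
  set Ω' := om m (γ • z) (fderiv ℝ (fun w : Pl => γ • w) z w')
  set η := H1k_eta m γ z w
  set η' := H1k_eta m γ z w'
  set o := om m z w
  set o' := om m z w'
  have hθ0 : 0 < θ.1 ^ 2 + θ.2 ^ 2 := by
    rcases (add_nonneg (sq_nonneg θ.1) (sq_nonneg θ.2)).lt_or_eq with h | h
    · exact h
    · exfalso
      have h1 : θ.1 = 0 := by nlinarith [sq_nonneg θ.1, sq_nonneg θ.2]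
      have h2 : θ.2 = 0 := by nlinarith [sq_nonneg θ.1, sq_nonneg θ.2]
      apply hw
      have h3 := fr_ifr hp.1 hp.2 w
      rw [← hθ] at h3
      rw [← h3]
      simp [fr, h1, h2]
  have key : (Ω - o + η) * (θ.1 ^ 2 + θ.2 ^ 2) = 0 := by
    linear_combination (c * θ.1 - s * θ.2) * (-e1 + c * t1 - s * t2) +
      (s * θ.1 + c * θ.2) * (-e2 + s * t1 + c * t2) -
      (Ω - o + η) * (θ.1 ^ 2 + θ.2 ^ 2) * h0
  rcases mul_eq_zero.1 key with h | h
  · linarith
  · exact absurd h hθ0.ne'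

theorem gfl_deck (hX : Surface Γ D) (hO : Ori Γ) {m : Pl → Co} (hm : HM Γ m) (γ : Γ) (t : ℝ)
    (x v : Pl) : gfl m t (γ • x, Rg m γ x v) =
      (γ • (gfl m t (x, v)).1, Rg m γ (gfl m t (x, v)).1 (gfl m t (x, v)).2) := by
  have hF := gfl_isFlow hX hm
  have hg : ContDiff ℝ ∞ (fun w : Pl => γ • w) := hX.smooth γ
  have hc : Differentiable ℝ (H1k_c m γ) := (H1k_c_smooth hX hm γ).differentiable (by simp)
  have hs : Differentiable ℝ (H1k_s m γ) := (H1k_s_smooth hX hm γ).differentiable (by simp)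
  set p : ℝ → Pl × Pl := fun t => gfl m t (x, v) with hp
  have hp' : ∀ t, HasDerivAt p (gf m (p t)) t := fun t => hF.deriv (x, v) t
  have hz : ∀ t, HasDerivAt (fun t => (p t).1) (fr (m (p t).1) (p t).2) t := fun t =>
    (hasFDerivAt_fst (𝕜 := ℝ) (p := p t)).comp_hasDerivAt t (hp' t)
  have hv : ∀ t, HasDerivAt (fun t => (p t).2)
      (om m (p t).1 (fr (m (p t).1) (p t).2) • (((p t).2.2, -(p t).2.1) : Pl)) t := fun t =>
    (hasFDerivAt_snd (𝕜 := ℝ) (p := p t)).comp_hasDerivAt t (hp' t)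
  have hc0 : ∀ t, HasDerivAt (fun t => ((γ • (p t).1, Rg m γ (p t).1 (p t).2) : Pl × Pl))
      (gf m (γ • (p t).1, Rg m γ (p t).1 (p t).2)) t := by
    intro t
    set z : Pl := (p t).1 with hzdef
    set u : Pl := (p t).2 with hudef
    set z' : Pl := fr (m z) u with hz'
    have h1 : HasDerivAt (fun t => γ • (p t).1) (fderiv ℝ (fun w : Pl => γ • w) z z') t :=
      ((hg.differentiable (by simp)) z).hasFDerivAt.comp_hasDerivAt t (hz t)
    have hv1 : HasDerivAt (fun t => (p t).2.1) (om m z z' * u.2) t :=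
      HasFDerivAt.comp_hasDerivAt (f := fun t => (p t).2) (l := Prod.fst) t
        (hasFDerivAt_fst (𝕜 := ℝ) (p := (p t).2)) (hv t)
    have hv2 : HasDerivAt (fun t => (p t).2.2) (om m z z' * -u.1) t :=
      HasFDerivAt.comp_hasDerivAt (f := fun t => (p t).2) (l := Prod.snd) t
        (hasFDerivAt_snd (𝕜 := ℝ) (p := (p t).2)) (hv t)
    have hc1 : HasDerivAt (fun t => H1k_c m γ (p t).1) (fderiv ℝ (H1k_c m γ) z z') t :=
      HasFDerivAt.comp_hasDerivAt (f := fun t => (p t).1) (l := H1k_c m γ) t (hc z).hasFDerivAt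
        (hz t)
    have hs1 : HasDerivAt (fun t => H1k_s m γ (p t).1) (fderiv ℝ (H1k_s m γ) z z') t :=
      HasFDerivAt.comp_hasDerivAt (f := fun t => (p t).1) (l := H1k_s m γ) t (hs z).hasFDerivAt
        (hz t)
    have hfr : fr (m (γ • z)) (Rg m γ z u) = fderiv ℝ (fun w : Pl => γ • w) z z' := by
      have h := hm.pos (γ • z)
      unfold Rg
      rw [fr_ifr h.1 h.2]
    have hR : (fun t => Rg m γ (p t).1 (p t).2) = fun t =>
        (H1k_c m γ (p t).1 * (p t).2.1 - H1k_s m γ (p t).1 * (p t).2.2,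
          H1k_s m γ (p t).1 * (p t).2.1 + H1k_c m γ (p t).1 * (p t).2.2) :=
      funext fun t => H1k_form hX hO hm γ _ _
    have h2 : HasDerivAt (fun t => Rg m γ (p t).1 (p t).2)
        (om m (γ • z) (fderiv ℝ (fun w : Pl => γ • w) z z') •
          (((Rg m γ z u).2, -(Rg m γ z u).1) : Pl)) t := by
      rw [hR]
      have h3 := ((hc1.mul hv1).sub (hs1.mul hv2)).prodMk ((hs1.mul hv1).add (hc1.mul hv2))
      refine h3.congr_deriv ?_
      rw [H1k_om hX hO hm, H1k_form hX hO hm, H1k_dc hX hm, H1k_ds hX hm]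
      ext
      · simp only [Prod.smul_fst, smul_eq_mul]
        rw [← hzdef, ← hudef]
        ring
      · simp only [Prod.smul_snd, smul_eq_mul]
        rw [← hzdef, ← hudef]
        ring
    have h4 := h1.prodMk h2
    refine h4.congr_deriv ?_
    show _ = (fr (m (γ • z)) (Rg m γ z u), om m (γ • z) (fr (m (γ • z)) (Rg m γ z u)) •
      (((Rg m γ z u).2, -(Rg m γ z u).1) : Pl))
    rw [hfr]
  have h := FL_eq ((gf_smooth hm.smooth hm.pos).of_le (by exact_mod_cast le_top)) hF hc0 t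
  have h0 : p 0 = (x, v) := hF.zero (x, v)
  rw [h0] at h
  exact h.symm

theorem Ex_deck (hX : Surface Γ D) (hO : Ori Γ) {m : Pl → Co} (hm : HM Γ m) (γ : Γ)
    (x v : Pl) : Ex m (γ • x) (Rg m γ x v) = γ • Ex m x v := by
  unfold Ex
  rw [gfl_deck hX hO hm]

end BR
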