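import Pool.Agent.LibBR70.AB4
import Pool.Agent.LibBR70.AB5
import Pool.Agent.LibBR70.AB6

/-! Row AB7 (only Mathlib, cites AB4-AB6): the value at `0`.
Plan. `g = osc a τ` is even, smooth, compactly supported; `h lam = ∫ g t cos (lam t) dt` is even and
decays faster than any power (integrate by parts four times: `|h lam| ≤ C / (1 + lam^4)`).
`Ab 0 g 0 = -(1/π) ∫_{t>0} g' t / t dt` (`Ab_eq`). Fourier inversion (`g` is Schwartz or: `g` and its
Fourier transform are integrable and `g` is continuous: `MeasureTheory.Integrable.fourierInv_fourier_eq`):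
`g t = (1/π) ∫_{lam>0} h lam cos (lam t) dlam`, `g' t = -(1/π) ∫_{lam>0} lam h lam sin (lam t) dlam`.
Then `-(1/π) ∫_0^R g' t / t dt = (1/π²) ∫_{lam>0} lam h lam (∫_0^R sin (lam t)/t dt) dlam` (Fubini on a
bounded `t` range, `|sin (lam t)/t| ≤ lam`), and `∫_0^{R lam} sin u / u du → π/2`, boundedly
(Dirichlet integral; if it is not in Mathlib prove it or use another route, e.g. replace `1/t` by
`e^(-δt)/t`: `∫_0^∞ e^(-δt) sin (lam t)/t dt = arctan (lam/δ)`), so the value is
`(1/π²)(π/2) ∫ lam h lam = (1/(2π)) ∫_{lam>0} h lam lam dlam`. -/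

open Set Filter Topology MeasureTheory
open scoped ContDiff

namespace BR

/-- The spectral side of the test function. -/
noncomputable def hh (g : ℝ → ℝ) (lam : ℝ) : ℝ := ∫ t : ℝ, g t * Real.cos (lam * t)

/-- the spectral side of the test function, sine version -/
noncomputable def AB7s (g : ℝ → ℝ) (lam : ℝ) : ℝ := ∫ t : ℝ, g t * Real.sin (lam * t)

theorem AB7_cpt {g : ℝ → ℝ} {ρ : ℝ} (hs : ∀ t, ρ < |t| → g t = 0) : HasCompactSupport g := by
  refine HasCompactSupport.intro (K := Icc (-ρ) ρ) isCompact_Icc fun t ht => ?_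
  apply hs
  by_contra h
  exact ht (abs_le.1 (not_lt.1 h))

theorem AB7_dsupp {g : ℝ → ℝ} {ρ : ℝ} (hs : ∀ t, ρ < |t| → g t = 0) :
    ∀ t, ρ < |t| → deriv g t = 0 := by
  intro t ht
  have e : g =ᶠ[𝓝 t] fun _ => (0 : ℝ) := by
    filter_upwards [(isOpen_lt continuous_const continuous_abs).mem_nhds ht] with s hs'
    exact hs s hs'
  rw [e.deriv_eq]
  simp

theorem AB7_dsmooth {g : ℝ → ℝ} (hg : ContDiff ℝ ∞ g) : ContDiff ℝ ∞ (deriv g) :=
  (contDiff_infty_iff_deriv.1 hg).2

theorem AB7_int {g k : ℝ → ℝ} (hg : Continuous g) (hk : Continuous k) {ρ : ℝ}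
    (hs : ∀ t, ρ < |t| → g t = 0) : Integrable fun t => g t * k t :=
  (hg.mul hk).integrable_of_hasCompactSupport (AB7_cpt hs).mul_right

theorem AB7_dcos (lam t : ℝ) :
    HasDerivAt (fun s : ℝ => Real.cos (lam * s)) (-(lam * Real.sin (lam * t))) t := by
  have h1 := ((hasDerivAt_id t).const_mul lam).cos
  refine h1.congr_deriv ?_
  simp only [id_eq, mul_one]
  ring

theorem AB7_dsin (lam t : ℝ) :
    HasDerivAt (fun s : ℝ => Real.sin (lam * s)) (lam * Real.cos (lam * t)) t := by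
  have h1 := ((hasDerivAt_id t).const_mul lam).sin
  refine h1.congr_deriv ?_
  simp only [id_eq, mul_one]
  ring

theorem AB7_ccos (lam : ℝ) : Continuous fun t : ℝ => Real.cos (lam * t) := by fun_prop

theorem AB7_csin (lam : ℝ) : Continuous fun t : ℝ => Real.sin (lam * t) := by fun_prop

theorem AB7_hder {g : ℝ → ℝ} (hg : ContDiff ℝ ∞ g) (t : ℝ) : HasDerivAt g (deriv g t) t :=
  (hg.differentiable (by simp) t).hasDerivAt

theorem AB7_one {g : ℝ → ℝ} (hg : ContDiff ℝ ∞ g) {ρ : ℝ} (hs : ∀ t, ρ < |t| → g t = 0)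
    (lam : ℝ) : hh g lam * lam = -AB7s (deriv g) lam := by
  have i1 := AB7_int (AB7_dsmooth hg).continuous (AB7_csin lam) (AB7_dsupp hs)
  have i2 := AB7_int hg.continuous (AB7_ccos lam) hs
  have i3 := AB7_int hg.continuous (AB7_csin lam) hs
  have h1 := integral_eq_zero_of_hasDerivAt_of_integrable
    (f := fun t => g t * Real.sin (lam * t))
    (f' := fun t => deriv g t * Real.sin (lam * t) + lam * (g t * Real.cos (lam * t)))
    (fun t => ((AB7_hder hg t).mul (AB7_dsin lam t)).congr_deriv (by ring))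
    (i1.add (i2.const_mul lam)) i3
  rw [integral_add i1 (i2.const_mul lam), integral_const_mul] at h1
  unfold hh AB7s
  linarith

theorem AB7_two {g : ℝ → ℝ} (hg : ContDiff ℝ ∞ g) {ρ : ℝ} (hs : ∀ t, ρ < |t| → g t = 0)
    (lam : ℝ) : lam * AB7s g lam = hh (deriv g) lam := by
  have i1 := AB7_int (AB7_dsmooth hg).continuous (AB7_ccos lam) (AB7_dsupp hs)
  have i2 := AB7_int hg.continuous (AB7_csin lam) hs
  have i3 := AB7_int hg.continuous (AB7_ccos lam) hs
  have h1 := integral_eq_zero_of_hasDerivAt_of_integrable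
    (f := fun t => g t * Real.cos (lam * t))
    (f' := fun t => deriv g t * Real.cos (lam * t) - lam * (g t * Real.sin (lam * t)))
    (fun t => ((AB7_hder hg t).mul (AB7_dcos lam t)).congr_deriv (by ring))
    (i1.sub (i2.const_mul lam)) i3
  rw [integral_sub i1 (i2.const_mul lam), integral_const_mul] at h1
  unfold hh AB7s
  linarith

theorem AB7_triv {g : ℝ → ℝ} (hg : Continuous g) {ρ : ℝ} (hs : ∀ t, ρ < |t| → g t = 0)
    (lam : ℝ) : |hh g lam| ≤ ∫ t, |g t| := by
  unfold hh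
  refine (abs_integral_le_integral_abs).trans ?_
  have i0 : Integrable fun t => |g t| := by
    have := AB7_int hg (continuous_const (y := (1 : ℝ))) hs
    simp only [mul_one] at this
    exact this.abs
  refine integral_mono (AB7_int hg (AB7_ccos lam) hs).abs i0 fun t => ?_
  show |g t * Real.cos (lam * t)| ≤ |g t|
  rw [abs_mul]
  exact mul_le_of_le_one_right (abs_nonneg _) (Real.abs_cos_le_one _)

theorem AB7_pow {g : ℝ → ℝ} (hg : ContDiff ℝ ∞ g) {ρ : ℝ} (hs : ∀ t, ρ < |t| → g t = 0)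
    (k : ℕ) : ∃ C : ℝ, ∀ lam : ℝ, |lam| ^ (2 * k) * |hh g lam| ≤ C := by
  induction k generalizing g with
  | zero => exact ⟨∫ t, |g t|, fun lam => by
      rw [mul_zero, pow_zero, one_mul]
      exact AB7_triv hg.continuous hs lam⟩
  | succ k ih =>
    obtain ⟨C, hC⟩ := ih (g := deriv (deriv g)) (AB7_dsmooth (AB7_dsmooth hg))
      (AB7_dsupp (AB7_dsupp hs))
    refine ⟨C, fun lam => ?_⟩
    have h1 := AB7_one hg hs lam
    have h2 := AB7_two (AB7_dsmooth hg) (AB7_dsupp hs) lam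
    have h3 : lam * (hh g lam * lam) = -hh (deriv (deriv g)) lam := by
      rw [h1, ← h2]
      ring
    have h4 : |lam| ^ 2 * |hh g lam| = |hh (deriv (deriv g)) lam| := by
      rw [← abs_neg (hh (deriv (deriv g)) lam), ← h3, abs_mul, abs_mul]
      ring
    calc |lam| ^ (2 * (k + 1)) * |hh g lam| = |lam| ^ (2 * k) * (|lam| ^ 2 * |hh g lam|) := by ring
      _ = |lam| ^ (2 * k) * |hh (deriv (deriv g)) lam| := by rw [h4]
      _ ≤ C := hC lam

theorem hh_decay {g : ℝ → ℝ} (hg : ContDiff ℝ ∞ g) {ρ : ℝ} (hs : ∀ t, ρ < |t| → g t = 0)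
    (n : ℕ) : ∃ C : ℝ, ∀ lam : ℝ, |hh g lam| * (1 + |lam|) ^ n ≤ C := by
  obtain ⟨C, hC⟩ := AB7_pow hg hs n
  refine ⟨2 ^ n * ((∫ t, |g t|) + C), fun lam => ?_⟩
  have h0 := AB7_triv hg.continuous hs lam
  have h1 : (1 + |lam|) ^ n ≤ 2 ^ n * (1 + |lam| ^ (2 * n)) := by
    have hl : 0 ≤ |lam| := abs_nonneg _
    rcases le_total |lam| 1 with h | h
    · have e1 : (1 + |lam|) ^ n ≤ 2 ^ n := pow_le_pow_left₀ (by positivity) (by linarith) n
      have e2 : (0 : ℝ) ≤ 2 ^ n * |lam| ^ (2 * n) := by positivity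
      linarith
    · have e1 : (1 + |lam|) ^ n ≤ (2 * |lam|) ^ n := pow_le_pow_left₀ (by positivity) (by linarith) n
      have e2 : |lam| ^ n ≤ |lam| ^ (2 * n) := pow_le_pow_right₀ h (by omega)
      rw [mul_pow] at e1
      have e3 : (2 : ℝ) ^ n * |lam| ^ n ≤ 2 ^ n * |lam| ^ (2 * n) :=
        mul_le_mul_of_nonneg_left e2 (by positivity)
      have e4 : (0 : ℝ) ≤ 2 ^ n := by positivity
      linarith
  calc |hh g lam| * (1 + |lam|) ^ n ≤ |hh g lam| * (2 ^ n * (1 + |lam| ^ (2 * n))) :=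
        mul_le_mul_of_nonneg_left h1 (abs_nonneg _)
    _ = 2 ^ n * (|hh g lam| + |lam| ^ (2 * n) * |hh g lam|) := by ring
    _ ≤ 2 ^ n * ((∫ t, |g t|) + C) :=
        mul_le_mul_of_nonneg_left (add_le_add h0 (hC lam)) (by positivity)

theorem AB7_hh_cont {g : ℝ → ℝ} (hg : Continuous g) {ρ : ℝ} (hs : ∀ t, ρ < |t| → g t = 0) :
    Continuous (hh g) := by
  have i0 : Integrable fun t => |g t| := by
    have := AB7_int hg (continuous_const (y := (1 : ℝ))) hs
    simp only [mul_one] at this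
    exact this.abs
  unfold hh
  refine continuous_of_dominated (bound := fun t => |g t|) (fun lam => ?_) (fun lam => ?_) i0 ?_
  · exact (hg.mul (AB7_ccos lam)).aestronglyMeasurable
  · refine ae_of_all _ fun t => ?_
    rw [Real.norm_eq_abs, abs_mul]
    exact mul_le_of_le_one_right (abs_nonneg _) (Real.abs_cos_le_one _)
  · refine ae_of_all _ fun t => ?_
    fun_prop

theorem AB7_hint {g : ℝ → ℝ} (hg : ContDiff ℝ ∞ g) {ρ : ℝ} (hs : ∀ t, ρ < |t| → g t = 0) :
    Integrable fun lam => hh g lam * lam := by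
  obtain ⟨C, hC⟩ := hh_decay hg hs 3
  refine (integrable_inv_one_add_sq.const_mul C).mono'
    ((AB7_hh_cont hg.continuous hs).mul continuous_id).aestronglyMeasurable
    (ae_of_all _ fun lam => ?_)
  have h1 := hC lam
  rw [Real.norm_eq_abs, abs_mul, ← div_eq_mul_inv, le_div_iff₀ (by positivity)]
  refine le_trans ?_ h1
  rw [mul_assoc]
  refine mul_le_mul_of_nonneg_left ?_ (abs_nonneg _)
  have h2 : lam ^ 2 = |lam| ^ 2 := (sq_abs _).symm
  have h3 : 0 ≤ |lam| := abs_nonneg _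
  rw [h2]
  nlinarith [pow_nonneg h3 2, pow_nonneg h3 3]

/-- the Laplace transform of the sine -/
theorem AB7_lap {δ : ℝ} (hδ : 0 < δ) (t : ℝ) :
    ∫ lam in Ioi (0 : ℝ), Real.sin (lam * t) * Real.exp (-(δ * lam)) = t / (δ ^ 2 + t ^ 2) := by
  have hre : (-(δ : ℂ) + t * Complex.I).re < 0 := by simp [hδ]
  have h1 := integral_exp_mul_complex_Ioi hre 0
  have hint := integrableOn_exp_mul_complex_Ioi hre 0
  have h2 := Complex.imCLM.integral_comp_comm hint
  have h3 : ∀ z : ℂ, Complex.imCLM z = z.im := fun _ => rfl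
  simp only [h3] at h2
  rw [h1] at h2
  have h4 : ∀ lam : ℝ, (Complex.exp ((-(δ : ℂ) + t * Complex.I) * lam)).im =
      Real.sin (lam * t) * Real.exp (-(δ * lam)) := by
    intro lam
    rw [Complex.exp_im]
    simp
    ring_nf
  simp only [h4] at h2
  rw [h2]
  have h5 : (-(δ : ℂ) + t * Complex.I) ≠ 0 := by
    intro h
    rw [h] at hre
    simp at hre
  have h6 : δ ^ 2 + t ^ 2 ≠ 0 := by positivity
  simp only [Complex.ofReal_zero, mul_zero, Complex.exp_zero]
  rw [neg_div, one_div, Complex.neg_im, Complex.inv_im]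
  have h7 : Complex.normSq (-(δ : ℂ) + t * Complex.I) = δ ^ 2 + t ^ 2 := by
    rw [Complex.normSq_apply]
    simp
    ring
  rw [h7]
  simp
  ring

theorem AB7_L {g : ℝ → ℝ} (hg : ContDiff ℝ ∞ g) {ρ : ℝ} (hs : ∀ t, ρ < |t| → g t = 0)
    {δ : ℝ} (hδ : 0 < δ) :
    ∫ lam in Ioi (0 : ℝ), hh g lam * lam * Real.exp (-(δ * lam)) =
      -∫ t : ℝ, deriv g t * (t / (δ ^ 2 + t ^ 2)) := by
  have hd := (AB7_dsmooth hg).continuous
  have i0 : Integrable fun t => deriv g t := by
    have := AB7_int hd (continuous_const (y := (1 : ℝ))) (AB7_dsupp hs)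
    simpa only [mul_one] using this
  have ie : Integrable (fun lam : ℝ => Real.exp (-(δ * lam))) (volume.restrict (Ioi 0)) := by
    have h := integrableOn_exp_mul_Ioi (a := -δ) (by linarith) 0
    simp only [neg_mul] at h
    exact h
  have hF : Integrable (Function.uncurry fun (lam t : ℝ) =>
      deriv g t * Real.sin (lam * t) * Real.exp (-(δ * lam)))
      ((volume.restrict (Ioi 0)).prod volume) := by
    refine (ie.mul_prod i0).mono ?_ (ae_of_all _ fun z => ?_)
    · refine Continuous.aestronglyMeasurable ?_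
      have h1 : Continuous fun z : ℝ × ℝ => deriv g z.2 := hd.comp continuous_snd
      have h2 : Continuous fun z : ℝ × ℝ => Real.sin (z.1 * z.2) := by fun_prop
      have h3 : Continuous fun z : ℝ × ℝ => Real.exp (-(δ * z.1)) := by fun_prop
      exact (h1.mul h2).mul h3
    · rw [Function.uncurry_def, norm_mul, norm_mul, norm_mul, mul_comm ‖Real.exp _‖]
      refine mul_le_mul_of_nonneg_right ?_ (norm_nonneg _)
      exact mul_le_of_le_one_right (norm_nonneg _) (Real.abs_sin_le_one _)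
  have h1 := integral_integral_swap hF
  have h2 : ∫ lam in Ioi (0 : ℝ), hh g lam * lam * Real.exp (-(δ * lam)) =
      -∫ lam in Ioi (0 : ℝ), ∫ t : ℝ, deriv g t * Real.sin (lam * t) * Real.exp (-(δ * lam)) := by
    rw [← integral_neg]
    refine integral_congr_ae (ae_of_all _ fun lam => ?_)
    show hh g lam * lam * Real.exp (-(δ * lam)) =
      -∫ t : ℝ, deriv g t * Real.sin (lam * t) * Real.exp (-(δ * lam))
    rw [AB7_one hg hs lam, integral_mul_const]
    unfold AB7s
    ring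
  rw [h2, h1]
  congr 1
  refine integral_congr_ae (ae_of_all _ fun t => ?_)
  show ∫ lam in Ioi (0 : ℝ), deriv g t * Real.sin (lam * t) * Real.exp (-(δ * lam)) =
    deriv g t * (t / (δ ^ 2 + t ^ 2))
  rw [← AB7_lap hδ t, ← integral_const_mul]
  refine integral_congr_ae (ae_of_all _ fun lam => ?_)
  show deriv g t * Real.sin (lam * t) * Real.exp (-(δ * lam)) =
    deriv g t * (Real.sin (lam * t) * Real.exp (-(δ * lam)))
  ring

theorem AB7_seq : Tendsto (fun n : ℕ => 1 / ((n : ℝ) + 1)) atTop (𝓝 0) :=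
  tendsto_one_div_add_atTop_nhds_zero_nat

theorem AB7_main {g Dg : ℝ → ℝ} (hg : ContDiff ℝ ∞ g) {ρ : ℝ} (hs : ∀ t, ρ < |t| → g t = 0)
    (hD : Continuous Dg) (hD1 : ∀ t, deriv g t = t * Dg t) (hD2 : ∀ t, ρ < |t| → Dg t = 0) :
    ∫ lam in Ioi (0 : ℝ), hh g lam * lam = -∫ t : ℝ, Dg t := by
  have iD : Integrable Dg := by
    have := AB7_int hD (continuous_const (y := (1 : ℝ))) hD2
    simpa only [mul_one] using this
  -- left side
  have hl : Tendsto (fun n : ℕ => ∫ lam in Ioi (0 : ℝ),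
      hh g lam * lam * Real.exp (-(1 / ((n : ℝ) + 1) * lam))) atTop
      (𝓝 (∫ lam in Ioi (0 : ℝ), hh g lam * lam)) := by
    refine tendsto_integral_of_dominated_convergence (fun lam => |hh g lam * lam|) ?_
      (AB7_hint hg hs).abs.integrableOn ?_ ?_
    · intro n
      have h1 : Continuous fun lam : ℝ => Real.exp (-(1 / ((n : ℝ) + 1) * lam)) := by fun_prop
      exact (((AB7_hh_cont hg.continuous hs).mul continuous_id).mul h1).aestronglyMeasurable
    · intro n
      refine (ae_restrict_iff' measurableSet_Ioi).2 (ae_of_all _ fun lam hlam => ?_)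
      have h0 : (0 : ℝ) < lam := hlam
      rw [norm_mul, Real.norm_eq_abs]
      refine mul_le_of_le_one_right (abs_nonneg _) ?_
      rw [Real.norm_eq_abs, abs_of_pos (Real.exp_pos _), Real.exp_le_one_iff]
      have : 0 ≤ 1 / ((n : ℝ) + 1) * lam := by positivity
      linarith
    · refine ae_of_all _ fun lam => ?_
      have h1 : Tendsto (fun n : ℕ => Real.exp (-(1 / ((n : ℝ) + 1) * lam))) atTop
          (𝓝 (Real.exp (-(0 * lam)))) :=
        (Real.continuous_exp.tendsto _).comp ((AB7_seq.mul_const lam).neg)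
      have h2 := h1.const_mul (hh g lam * lam)
      rwa [zero_mul, neg_zero, Real.exp_zero, mul_one] at h2
  -- right side
  have hr : Tendsto (fun n : ℕ => -∫ t : ℝ, deriv g t * (t / ((1 / ((n : ℝ) + 1)) ^ 2 + t ^ 2)))
      atTop (𝓝 (-∫ t : ℝ, Dg t)) := by
    refine Tendsto.neg (tendsto_integral_of_dominated_convergence (fun t => |Dg t|) ?_ iD.abs ?_ ?_)
    · intro n
      have h1 : Continuous fun t : ℝ => t / ((1 / ((n : ℝ) + 1)) ^ 2 + t ^ 2) := by
        refine continuous_id.div (by fun_prop) fun t => ?_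
        positivity
      exact ((AB7_dsmooth hg).continuous.mul h1).aestronglyMeasurable
    · intro n
      refine ae_of_all _ fun t => ?_
      rw [hD1 t, Real.norm_eq_abs]
      have e : t * Dg t * (t / ((1 / ((n : ℝ) + 1)) ^ 2 + t ^ 2)) =
          Dg t * (t ^ 2 / ((1 / ((n : ℝ) + 1)) ^ 2 + t ^ 2)) := by ring
      rw [e, abs_mul]
      refine mul_le_of_le_one_right (abs_nonneg _) ?_
      have h2 : (0 : ℝ) < (1 / ((n : ℝ) + 1)) ^ 2 + t ^ 2 := by positivity
      rw [abs_of_nonneg (by positivity), div_le_one h2]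
      have : (0 : ℝ) ≤ (1 / ((n : ℝ) + 1)) ^ 2 := by positivity
      linarith
    · have h0 : ∀ᵐ t : ℝ, t ≠ 0 := by
        rw [ae_iff]
        have e : {t : ℝ | ¬ t ≠ 0} = {0} := by
          ext t
          simp
        rw [e]
        exact Real.volume_singleton
      filter_upwards [h0] with t ht
      rw [hD1 t]
      have h1 : Tendsto (fun n : ℕ => t / ((1 / ((n : ℝ) + 1)) ^ 2 + t ^ 2)) atTop
          (𝓝 (t / (0 ^ 2 + t ^ 2))) := by
        refine tendsto_const_nhds.div ((AB7_seq.pow 2).add tendsto_const_nhds) ?_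
        positivity
      have h2 := h1.const_mul (t * Dg t)
      have e : t * Dg t * (t / (0 ^ 2 + t ^ 2)) = Dg t := by
        field_simp
        ring
      rwa [e] at h2
  have h3 : ∀ n : ℕ, ∫ lam in Ioi (0 : ℝ), hh g lam * lam * Real.exp (-(1 / ((n : ℝ) + 1) * lam)) =
      -∫ t : ℝ, deriv g t * (t / ((1 / ((n : ℝ) + 1)) ^ 2 + t ^ 2)) := fun n =>
    AB7_L hg hs (by positivity)
  simp only [h3] at hl
  exact tendsto_nhds_unique hl hr

theorem Ab_zero {g : ℝ → ℝ} (hg : ContDiff ℝ ∞ g) (he : ∀ t, g (-t) = g t) {ρ : ℝ}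
    (hs : ∀ t, ρ < |t| → g t = 0) :
    Ab 0 g 0 = 1 / (2 * Real.pi) * ∫ lam in Ioi (0 : ℝ), hh g lam * lam := by
  have hs' : ∀ t, max ρ 0 < |t| → g t = 0 := fun t ht => hs t ((le_max_left _ _).trans_lt ht)
  obtain ⟨Dg, hD, hDe, hD1, hD2⟩ := even_div hg he hs'
  have hT : Tl g (max ρ 0) := ⟨hg, fun t ht => hs' t (ht.trans_le (le_abs_self t))⟩
  have hpi := Real.pi_pos
  have h1 := Ab_eq (le_max_right ρ 0) hT 0 (le_refl (0 : ℝ))
  have h2 : ∫ t in Ioi (√(0 : ℝ)), deriv g t * (t ^ 2 - 0) ^ (((0 : ℕ) : ℝ) - 1 / 2) =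
      ∫ t in Ioi (0 : ℝ), Dg t := by
    rw [Real.sqrt_zero]
    refine setIntegral_congr_fun measurableSet_Ioi fun t ht => ?_
    have h0 : (0 : ℝ) < t := ht
    show deriv g t * (t ^ 2 - 0) ^ (((0 : ℕ) : ℝ) - 1 / 2) = Dg t
    have e : (t ^ 2 - 0) ^ (((0 : ℕ) : ℝ) - 1 / 2) = t⁻¹ := by
      rw [sub_zero, Nat.cast_zero, zero_sub, Real.rpow_neg (by positivity), ← Real.sqrt_eq_rpow,
        Real.sqrt_sq h0.le]
    rw [e, hD1]
    field_simp
  have h3 : √Real.pi * Real.Gamma (((0 : ℕ) : ℝ) + 1 / 2) = Real.pi := by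
    rw [Nat.cast_zero, zero_add, Real.Gamma_one_half_eq, Real.mul_self_sqrt hpi.le]
  rw [h2, h3] at h1
  rw [h1, AB7_main hg hs' hD.continuous hD1 hD2]
  have h4 := integral_comp_abs (f := Dg)
  have h5 : ∀ t : ℝ, Dg |t| = Dg t := by
    intro t
    rcases le_total 0 t with ht | ht
    · rw [abs_of_nonneg ht]
    · rw [abs_of_nonpos ht, hDe]
  simp only [h5] at h4
  rw [h4]
  field_simp

end BR
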