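import Mathlib

/-! Families of smooth functions whose derivatives have exponential growth: definitions. -/

open Set Filter Topology
open scoped ContDiff

namespace BR

section Jets

variable {ι : Type} {E F G : Type} [NormedAddCommGroup E] [NormedSpace ℝ E]
  [NormedAddCommGroup F] [NormedSpace ℝ F] [NormedAddCommGroup G] [NormedSpace ℝ G]

/-- Smooth functions `f i` whose derivatives of every order at the points `x i` are bounded by
`C exp (C ℓ i)`, with `C` depending only on the order. -/
structure EB (ℓ : ι → ℝ) (f : ι → E → F) (x : ι → E) : Prop where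
  smooth : ∀ i, ContDiff ℝ ∞ (f i)
  bound : ∀ k : ℕ, ∃ C : ℝ, ∀ i, ‖iteratedFDeriv ℝ k (f i) (x i)‖ ≤ C * Real.exp (C * ℓ i)

/-- Functions on `E × F` with derivatives of exponential growth in the second variable, the first
variable being in `K`. -/
def RB (K : Set E) (f : E × F → G) : Prop :=
  ContDiff ℝ ∞ f ∧ ∀ k : ℕ, ∃ C : ℝ, ∀ x ∈ K, ∀ v : F,
    ‖iteratedFDeriv ℝ k f (x, v)‖ ≤ C * Real.exp (C * ‖v‖)

end Jets

end BR
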