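import Pool.Agent.LibBR70.Geo
import Pool.Agent.LibBR70.JB_Defs
import Pool.Agent.LibBR70.AB_Defs
import Pool.Agent.LibBR70.AB6
import Pool.Agent.LibBR70.AB7
import Pool.Agent.LibBR70.H1k

/-! The parametrix: definitions. `G : Pl → Co` is a metric on the `v`-plane in normal coordinates. -/

open MeasureTheory Set Filter Topology
open scoped ContDiff

namespace BR

open BGS

/-- A metric on the plane in normal coordinates at the origin. -/
structure PMt (G : Pl → Co) : Prop where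
  smooth : ContDiff ℝ ∞ G
  pos : ∀ v, 0 < (G v).1 ∧ 0 < dt (G v)
  g1 : ∀ v, (G v).1 * v.1 + (G v).2.1 * v.2 = v.1
  g2 : ∀ v, (G v).2.1 * v.1 + (G v).2.2 * v.2 = v.2
  zero : G 0 = (1, 0, 1)

/-- Area density. -/
noncomputable def wt (G : Pl → Co) (v : Pl) : ℝ := √(dt (G v))

/-- The Laplacian `(1/w) div (w G⁻¹ ∇ u)`. -/
noncomputable def LL (G : Pl → Co) (u : Pl → ℝ) (v : Pl) : ℝ :=
  (dx (fun z => ((G z).2.2 * dx u z - (G z).2.1 * dy u z) / wt G z) v +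
    dy (fun z => ((G z).1 * dy u z - (G z).2.1 * dx u z) / wt G z) v) / wt G v

/-- The squared Euclidean norm. -/
def sg (v : Pl) : ℝ := v.1 ^ 2 + v.2 ^ 2

/-- The coefficients of the parametrix. -/
noncomputable def UU (G : Pl → Co) : ℕ → Pl → ℝ
  | 0 => fun v => (wt G v) ^ (-(1 / 2) : ℝ)
  | j + 1 => fun v => (wt G v) ^ (-(1 / 2) : ℝ) *
      ∫ s in (0 : ℝ)..1, s ^ j * (LL G (UU G j) (s • v) / (4 * (wt G (s • v)) ^ (-(1 / 2) : ℝ)))

/-- The kernel. -/
noncomputable def KK (G : Pl → Co) (N : ℕ) (q : ℝ → ℝ) (v : Pl) : ℝ :=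
  ∑ j ∈ Finset.range (N + 1), UU G j v * Ab j q (sg v)

/-- The regularised kernel. -/
noncomputable def KKe (G : Pl → Co) (N : ℕ) (q : ℝ → ℝ) (ε : ℝ) (v : Pl) : ℝ :=
  ∑ j ∈ Finset.range (N + 1), UU G j v * Ab j q (sg v + ε)

/-- The metric in normal coordinates at `x`. -/
noncomputable def Gx (m : Pl → Co) (x : Pl) (v : Pl) : Co := mE m (x, v)

/-- `U` satisfies `-Δ U = lam2 U` weakly for the metric `G`. -/
def WkEig (G : Pl → Co) (lam2 : ℝ) (U : Pl → ℝ) : Prop :=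
  ∀ F : Pl → ℝ, ContDiff ℝ ∞ F → HasCompactSupport F →
    ∫ v, wf2 (G v) (dx U v) (dy U v) (dx F v) (dy F v) = lam2 * ∫ v, U v * F v * wt G v

/-- `U` is an eigenfunction on the surface. -/
def EigS {Γ : Type} [Group Γ] [MulAction Γ Pl] {D : Set Pl} (hX : Surface Γ D) (m : Mt Γ D)
    (lam2 : ℝ) (U : TestS Γ) : Prop :=
  ∀ h : TestS Γ, aF hX m U h = lam2 * bF hX m (oneT Γ) U h

end BR
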