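import Pool.Agent.LibBR70.H1m
import Pool.Agent.LibBR70.H1n

/-! Row H1o (cites H1h, H1j, H1l, H1m, JB1-JB4): all derivatives of `(x, w) ↦ Vx m x (γ w)` are at most
exponential in the distance.
Plan. Index `i = ((x, w), γ)`, `v_i = Vx m x (γ • w)`, `‖v_i‖ ≤ eu v_i ≤ 2 ‖v_i‖`. Put `A_γ (x, v) = γ⁻¹ • Ex m x v`
(`EB_Ex`) and `V_γ (x, w) = Vx m x (γ • w)`: `A_γ (x, V_γ (x, w)) = w`. Differentiating:
`∂_v A_γ (x, V) ∘ ∂_w V = id`, `∂_x A_γ (x, V) + ∂_v A_γ (x, V) ∘ ∂_x V = 0`. The determinant of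
`∂_v A_γ (x, v)` times `√(dt (m (A_γ (x, v))))` has absolute value `JB/r ≥ 1` (`Ex_det`, the deck
transformation is an isometry) resp. `1` at `v = 0`, and it is positive/nonzero everywhere, so the
entries of the inverse matrix `M_γ (x, v) = (∂_v A_γ)⁻¹` (adjugate divided by the determinant) form an
`EB` family at the points `(x, v_i)` (`EB_fderiv_apply`, `EB_mul`, `EB_inv`). Hence
`fderiv V_γ (x, w) = G_γ (x, V_γ (x, w))` where `G_γ` (values: linear maps `Pl × Pl → Pl`) is an `EB` family at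
`(x, v_i)`. Now prove by induction on `k` that the `k`-th derivative of `V_γ` is exponentially bounded:
`k = 0`: `‖V‖ ≤ exp ‖V‖`. Step `k → k + 1`: `norm_iteratedFDeriv_fderiv` and
`norm_iteratedFDeriv_comp_le` for `G_γ ∘ (fst, V_γ)` with the bounds for the orders `≤ k` of `V_γ`
(choose `D ≥ 1` so that `‖D^j (fst, V_γ)‖ ≤ D ≤ D ^ j`). -/

open MeasureTheory Set Filter Topology
open scoped ContDiff

namespace BR

open BGS

section Ode

variable {ι : Type} {E F : Type} [NormedAddCommGroup E] [NormedSpace ℝ E]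
  [NormedAddCommGroup F] [NormedSpace ℝ F] {ℓ : ι → ℝ}

private theorem H1o_id (y : E) {j : ℕ} (hj : 1 ≤ j) :
    ‖iteratedFDeriv ℝ j (fun z : E => z) y‖ ≤ 1 := by
  obtain ⟨j', rfl⟩ : ∃ j', j = j' + 1 := ⟨j - 1, by omega⟩
  rw [← norm_iteratedFDeriv_fderiv]
  have h1 : fderiv ℝ (fun z : E => z) = fun _ => ContinuousLinearMap.id ℝ E := by
    funext z
    exact fderiv_fun_id
  rw [h1]
  rcases Nat.eq_zero_or_pos j' with h0 | h0
  · subst h0
    rw [norm_iteratedFDeriv_zero]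
    exact ContinuousLinearMap.norm_id_le
  · rw [iteratedFDeriv_const_of_ne h0.ne']
    simp

/-- Bounds for solutions of `dV = G (y, V)`. -/
private theorem H1o_ode (hℓ : ∀ i, 0 ≤ ℓ i) {V : ι → E → F} {x : ι → E}
    (hV : ∀ i, ContDiff ℝ ∞ (V i)) {G : ι → E × F → E →L[ℝ] F}
    (hG : EB ℓ G (fun i => (x i, V i (x i))))
    (hVG : ∀ i y, fderiv ℝ (V i) y = G i (y, V i y))
    {C₀ : ℝ} (h0 : ∀ i, ‖V i (x i)‖ ≤ C₀ * Real.exp (C₀ * ℓ i)) : EB ℓ V x := by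
  have key : ∀ k : ℕ, ∃ C : ℝ, 1 ≤ C ∧ ∀ j ≤ k, ∀ i,
      ‖iteratedFDeriv ℝ j (V i) (x i)‖ ≤ C * Real.exp (C * ℓ i) := by
    intro k
    induction k with
    | zero =>
      refine ⟨max C₀ 1, le_max_right _ _, fun j hj i => ?_⟩
      obtain rfl : j = 0 := by omega
      rw [norm_iteratedFDeriv_zero]
      refine (h0 i).trans ?_
      have h1 : C₀ ≤ max C₀ 1 := le_max_left _ _
      have h2 : 0 ≤ max C₀ 1 := le_trans zero_le_one (le_max_right _ _)
      exact mul_le_mul h1 (Real.exp_le_exp.2 (mul_le_mul_of_nonneg_right h1 (hℓ i)))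
        (Real.exp_pos _).le h2
    | succ k ih =>
      obtain ⟨C1, hC1, h1⟩ := ih
      obtain ⟨C2, hC2, h2⟩ := EB_bound' hℓ hG k
      set C3 : ℝ := (k.factorial : ℝ) * C2 * C1 ^ k + C2 + C1 * k + C1 with hC3
      have hC10 : 0 ≤ C1 := by linarith
      have hC20 : 0 ≤ C2 := by linarith
      have hp : 0 ≤ (k.factorial : ℝ) * C2 * C1 ^ k := by positivity
      have hq : 0 ≤ C1 * (k : ℝ) := by positivity
      refine ⟨C3, by linarith, fun j hj i => ?_⟩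
      have hle : ∀ a b : ℝ, 0 ≤ a → a ≤ C3 → b ≤ C3 →
          a * Real.exp (b * ℓ i) ≤ C3 * Real.exp (C3 * ℓ i) := by
        intro a b ha h3 h4
        exact mul_le_mul h3 (Real.exp_le_exp.2 (mul_le_mul_of_nonneg_right h4 (hℓ i)))
          (Real.exp_pos _).le (by linarith)
      rcases Nat.lt_or_ge j (k + 1) with hlt | hge
      · exact (h1 j (by omega) i).trans (hle C1 C1 hC10 (by linarith) (by linarith))
      · obtain rfl : j = k + 1 := by omega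
        rw [← norm_iteratedFDeriv_fderiv]
        have hf : fderiv ℝ (V i) = G i ∘ fun y => (y, V i y) := funext fun y => hVG i y
        rw [hf]
        set Dd : ℝ := C1 * Real.exp (C1 * ℓ i) with hDd
        have hD1 : 1 ≤ Dd := by
          have : 1 ≤ Real.exp (C1 * ℓ i) := Real.one_le_exp (mul_nonneg hC10 (hℓ i))
          calc (1 : ℝ) = 1 * 1 := (one_mul 1).symm
            _ ≤ Dd := mul_le_mul hC1 this zero_le_one hC10
        have h5 := norm_iteratedFDeriv_comp_le (n := k) (N := ∞) (hG.smooth i)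
          (contDiff_id.prodMk (hV i)) (by exact_mod_cast le_top) (x i)
          (C := C2 * Real.exp (C2 * ℓ i)) (D := Dd) (fun j hj => h2 j hj i) (by
            intro j hj1 hjk
            have h6 : ‖iteratedFDeriv ℝ j (fun y => (y, V i y)) (x i)‖ ≤ Dd := by
              rw [iteratedFDeriv_prodMk (f := fun z : E => z) (n := (j : WithTop ℕ∞))
                contDiff_id.contDiffAt ((hV i).contDiffAt.of_le (by exact_mod_cast le_top)) le_rfl,
                ContinuousMultilinearMap.opNorm_prod]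
              exact max_le ((H1o_id (x i) hj1).trans hD1) (h1 j hjk i)
            exact h6.trans (le_self_pow₀ hD1 (by omega)))
        refine h5.trans ?_
        have h7 : (k.factorial : ℝ) * (C2 * Real.exp (C2 * ℓ i)) * Dd ^ k =
            ((k.factorial : ℝ) * C2 * C1 ^ k) * Real.exp ((C2 + C1 * k) * ℓ i) := by
          rw [hDd, mul_pow, ← Real.exp_nat_mul]
          have h8 : (C2 + C1 * k) * ℓ i = C2 * ℓ i + k * (C1 * ℓ i) := by ring
          rw [h8, Real.exp_add]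
          ring
        rw [h7]
        exact hle _ _ hp (by linarith) (by linarith)
  refine ⟨hV, fun k => ?_⟩
  obtain ⟨C, -, hC⟩ := key k
  exact ⟨C, fun i => hC k le_rfl i⟩

end Ode

variable {Γ : Type} [Group Γ] [MulAction Γ Pl] {D : Set Pl}

private theorem H1o_reindex {ι ι' E F : Type} [NormedAddCommGroup E] [NormedSpace ℝ E]
    [NormedAddCommGroup F] [NormedSpace ℝ F] {ℓ' : ι' → ℝ} {ℓ : ι → ℝ} {f : ι' → E → F}
    {x : ι' → E} (h : EB ℓ' f x) (φ : ι → ι') (h0 : ∀ i, 0 ≤ ℓ' i)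
    (hφ : ∀ i, ℓ' (φ i) ≤ ℓ i) : EB ℓ (fun i => f (φ i)) (fun i => x (φ i)) := by
  refine ⟨fun i => h.smooth _, fun k => ?_⟩
  obtain ⟨C, hC⟩ := h.bound k
  refine ⟨|C|, fun i => (hC (φ i)).trans ?_⟩
  have h1 : C * ℓ' (φ i) ≤ |C| * ℓ i :=
    (mul_le_mul_of_nonneg_right (le_abs_self C) (h0 _)).trans
      (mul_le_mul_of_nonneg_left (hφ i) (abs_nonneg C))
  exact mul_le_mul (le_abs_self C) (Real.exp_le_exp.2 h1) (Real.exp_pos _).le (abs_nonneg C)

private theorem H1o_lin (A : Pl →L[ℝ] Pl) (v : Pl) : A v = v.1 • A (1, 0) + v.2 • A (0, 1) := by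
  rw [← map_smul, ← map_smul, ← map_add]
  congr 1
  ext <;> simp

/-- The inverse of the linear map with columns `a`, `b`. -/
private noncomputable def H1oNI (a b : Pl) : Pl →L[ℝ] Pl :=
  (wd a b)⁻¹ •
    (b.2 • ((ContinuousLinearMap.inl ℝ ℝ ℝ).comp (ContinuousLinearMap.fst ℝ ℝ ℝ)) -
      b.1 • ((ContinuousLinearMap.inl ℝ ℝ ℝ).comp (ContinuousLinearMap.snd ℝ ℝ ℝ)) +
      (a.1 • ((ContinuousLinearMap.inr ℝ ℝ ℝ).comp (ContinuousLinearMap.snd ℝ ℝ ℝ)) -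
        a.2 • ((ContinuousLinearMap.inr ℝ ℝ ℝ).comp (ContinuousLinearMap.fst ℝ ℝ ℝ))))

private theorem H1oNI_apply {a b : Pl} (h : wd a b ≠ 0) (z : Pl) :
    H1oNI a b (z.1 • a + z.2 • b) = z := by
  have h' : a.1 * b.2 - a.2 * b.1 ≠ 0 := h
  ext
  · simp only [H1oNI, wd, ContinuousLinearMap.smul_apply, ContinuousLinearMap.add_apply,
      ContinuousLinearMap.sub_apply, ContinuousLinearMap.comp_apply, ContinuousLinearMap.inl_apply,
      ContinuousLinearMap.inr_apply, ContinuousLinearMap.coe_fst', ContinuousLinearMap.coe_snd',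
      Prod.fst_add, Prod.snd_add, Prod.smul_fst, Prod.smul_snd, Prod.fst_sub, smul_eq_mul,
      mul_zero, sub_zero, add_zero]
    field_simp
    ring
  · simp only [H1oNI, wd, ContinuousLinearMap.smul_apply, ContinuousLinearMap.add_apply,
      ContinuousLinearMap.sub_apply, ContinuousLinearMap.comp_apply, ContinuousLinearMap.inl_apply,
      ContinuousLinearMap.inr_apply, ContinuousLinearMap.coe_fst', ContinuousLinearMap.coe_snd',
      Prod.fst_add, Prod.snd_add, Prod.smul_fst, Prod.smul_snd, Prod.snd_sub, smul_eq_mul,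
      mul_zero, sub_zero, zero_add]
    field_simp
    ring

/-- `EB` for the inverse matrix. -/
private theorem H1oNI_EB {ι E : Type} [NormedAddCommGroup E] [NormedSpace ℝ E] {ℓ : ι → ℝ}
    (hℓ : ∀ i, 0 ≤ ℓ i) {x : ι → E} {a b : ι → E → Pl} (ha : EB ℓ a x) (hb : EB ℓ b x)
    (h0 : ∀ i y, wd (a i y) (b i y) ≠ 0) {C : ℝ}
    (hC : ∀ i, |wd (a i (x i)) (b i (x i))|⁻¹ ≤ C * Real.exp (C * ℓ i)) :
    EB ℓ (fun i y => H1oNI (a i y) (b i y)) x := by
  have a1 := EB_clm hℓ ha (ContinuousLinearMap.fst ℝ ℝ ℝ)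
  have a2 := EB_clm hℓ ha (ContinuousLinearMap.snd ℝ ℝ ℝ)
  have b1 := EB_clm hℓ hb (ContinuousLinearMap.fst ℝ ℝ ℝ)
  have b2 := EB_clm hℓ hb (ContinuousLinearMap.snd ℝ ℝ ℝ)
  have hd : EB ℓ (fun i y => wd (a i y) (b i y)) x :=
    EB_sub hℓ (EB_mul hℓ a1 b2) (EB_mul hℓ a2 b1)
  have hdi := EB_inv hℓ hd h0 hC
  have hc : ∀ L : Pl →L[ℝ] Pl, EB ℓ (fun (_ : ι) (_ : E) => L) x := fun L =>
    EB_const hℓ (C := ‖L‖) fun i => le_mul_of_one_le_right (norm_nonneg _)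
      (Real.one_le_exp (mul_nonneg (norm_nonneg _) (hℓ i)))
  exact EB_smul hℓ hdi (EB_add hℓ
    (EB_sub hℓ (EB_smul hℓ b2 (hc _)) (EB_smul hℓ b1 (hc _)))
    (EB_sub hℓ (EB_smul hℓ a1 (hc _)) (EB_smul hℓ a2 (hc _))))

/-- The Gram determinant of the pull-back. -/
private theorem H1o_gram (hX : Surface Γ D) {m : Pl → Co} (hm : HM Γ m) (γ : Γ) (q : Pl × Pl) :
    dt (mE m q) = dt (m (γ⁻¹ • Ex m q.1 q.2)) *
      wd (fderiv ℝ (fun p : Pl × Pl => γ⁻¹ • Ex m p.1 p.2) q (0, (1, 0)))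
        (fderiv ℝ (fun p : Pl × Pl => γ⁻¹ • Ex m p.1 p.2) q (0, (0, 1))) ^ 2 := by
  have hΦ := Ex_smooth hX hm
  have h1 : ∀ w : Pl, fderiv ℝ (fun p : Pl × Pl => γ⁻¹ • Ex m p.1 p.2) q (0, w) =
      fderiv ℝ (fun y : Pl => γ⁻¹ • y) (Ex m q.1 q.2) (fderiv ℝ (Ex m q.1) q.2 w) := by
    intro w
    have h2 : HasFDerivAt (fun y : Pl => γ⁻¹ • y) (fderiv ℝ (fun y : Pl => γ⁻¹ • y) (Ex m q.1 q.2))
        (Ex m q.1 q.2) := (((hX.smooth γ⁻¹).differentiable (by simp)) _).hasFDerivAt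
    have h3 : HasFDerivAt (fun p : Pl × Pl => Ex m p.1 p.2)
        (fderiv ℝ (fun p : Pl × Pl => Ex m p.1 p.2) q) q :=
      ((hΦ.differentiable (by simp)) q).hasFDerivAt
    have h4 : HasFDerivAt (fun v : Pl => ((q.1, v) : Pl × Pl)) (ContinuousLinearMap.inr ℝ Pl Pl)
        q.2 := hasFDerivAt_prodMk_right q.1 q.2
    have h5 := (h2.comp q h3).fderiv
    have h6 : ((fun y : Pl => γ⁻¹ • y) ∘ fun p : Pl × Pl => Ex m p.1 p.2) =
        fun p : Pl × Pl => γ⁻¹ • Ex m p.1 p.2 := rfl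
    rw [h6] at h5
    have h7 := (HasFDerivAt.comp q.2 (f := fun v : Pl => ((q.1, v) : Pl × Pl))
      (g := fun p : Pl × Pl => Ex m p.1 p.2) h3 h4).fderiv
    have h8 : ((fun p : Pl × Pl => Ex m p.1 p.2) ∘ fun v : Pl => ((q.1, v) : Pl × Pl)) =
        Ex m q.1 := rfl
    rw [h8] at h7
    rw [h5, h7]
    rfl
  have h2 : ∀ v w : Pl, bf (m (γ⁻¹ • Ex m q.1 q.2))
      (fderiv ℝ (fun y : Pl => γ⁻¹ • y) (Ex m q.1 q.2) v)
      (fderiv ℝ (fun y : Pl => γ⁻¹ • y) (Ex m q.1 q.2) w) = bf (m (Ex m q.1 q.2)) v w := by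
    intro v w
    have h1 := hm.inv γ⁻¹ (Ex m q.1 q.2) (v + w)
    have h2 := hm.inv γ⁻¹ (Ex m q.1 q.2) v
    have h3 := hm.inv γ⁻¹ (Ex m q.1 q.2) w
    rw [map_add] at h1
    simp only [qf, bf, Prod.fst_add, Prod.snd_add] at *
    linarith
  rw [h1, h1]
  simp only [mE]
  rw [← h2, ← h2 (fderiv ℝ (Ex m q.1) q.2 (1, 0)) (fderiv ℝ (Ex m q.1) q.2 (0, 1)),
    ← h2 (fderiv ℝ (Ex m q.1) q.2 (0, 1)) (fderiv ℝ (Ex m q.1) q.2 (0, 1))]
  simp only [dt, bf, wd]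
  ring

private theorem H1o_norm_le (v : Pl) : ‖v‖ ≤ eu v := by
  rw [Prod.norm_def, Real.norm_eq_abs, Real.norm_eq_abs]
  refine max_le ?_ ?_
  · exact Real.le_sqrt_of_sq_le (by rw [sq_abs]; nlinarith [sq_nonneg v.2])
  · exact Real.le_sqrt_of_sq_le (by rw [sq_abs]; nlinarith [sq_nonneg v.1])

theorem EB_Vx (hX : Surface Γ D) (hO : Ori Γ) {m : Pl → Co} (hm : HM Γ m) :
    EB (fun i : {q : (Pl × Pl) × Γ // q.1.1 ∈ closure D ∧ q.1.2 ∈ closure D} =>
      eu (Vx m i.1.1.1 (i.1.2 • i.1.1.2))) (fun i p => Vx m p.1 (i.1.2 • p.2))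
      (fun i => i.1.1) := by
  set ι : Type := {q : (Pl × Pl) × Γ // q.1.1 ∈ closure D ∧ q.1.2 ∈ closure D} with hι
  set ℓ : ι → ℝ := fun i => eu (Vx m i.1.1.1 (i.1.2 • i.1.1.2)) with hℓd
  have hℓ : ∀ i, 0 ≤ ℓ i := fun i => Real.sqrt_nonneg _
  have hDc : IsCompact (closure D) := hX.bdd.isCompact_closure
  -- the point `((x, w), v)`
  set pt : ι → (Pl × Pl) × Pl := fun i => (i.1.1, Vx m i.1.1.1 (i.1.2 • i.1.1.2)) with hpt
  set A : ι → Pl × Pl → Pl := fun i p => i.1.2⁻¹ • Ex m p.1 p.2 with hA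
  set π : (Pl × Pl) × Pl →L[ℝ] Pl × Pl :=
    ((ContinuousLinearMap.fst ℝ Pl Pl).comp (ContinuousLinearMap.fst ℝ (Pl × Pl) Pl)).prod
      (ContinuousLinearMap.snd ℝ (Pl × Pl) Pl) with hπ
  have hAw : ∀ (i : ι) (y : Pl × Pl), A i (y.1, Vx m y.1 (i.1.2 • y.2)) = y.2 := by
    intro i y
    show i.1.2⁻¹ • Ex m y.1 (Vx m y.1 (i.1.2 • y.2)) = y.2
    rw [Ex_Vx hX hm, inv_smul_smul]
  have hAs : ∀ i, ContDiff ℝ ∞ (A i) := fun i => (hX.smooth i.1.2⁻¹).comp (Ex_smooth hX hm)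
  -- `A` is an `EB` family at the points `(x, v)`
  have hEA : EB ℓ A (fun i => π (pt i)) := by
    refine H1o_reindex (EB_Ex hX hO hm) (fun i : ι => ⟨((i.1.1.1, Vx m i.1.1.1 (i.1.2 • i.1.1.2)),
      i.1.2), i.2.1, ?_⟩) (fun i => norm_nonneg _) (fun i => H1o_norm_le _)
    have := hAw i i.1.1
    show A i (i.1.1.1, Vx m i.1.1.1 (i.1.2 • i.1.1.2)) ∈ closure D
    rw [this]
    exact i.2.2
  -- bounds of the points
  obtain ⟨B, hB⟩ := hDc.isBounded.exists_norm_le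
  have hptb : ∀ i, ‖pt i‖ ≤ (|B| + 1) * Real.exp ((|B| + 1) * ℓ i) := by
    intro i
    have h1 : 1 ≤ Real.exp ((|B| + 1) * ℓ i) :=
      Real.one_le_exp (mul_nonneg (by positivity) (hℓ i))
    have h2 : ℓ i ≤ Real.exp ((|B| + 1) * ℓ i) := by
      have h3 := Real.add_one_le_exp ((|B| + 1) * ℓ i)
      have h4 : 0 ≤ |B| * ℓ i := mul_nonneg (abs_nonneg _) (hℓ i)
      nlinarith
    have h3 : ‖(pt i).1‖ ≤ |B| :=
      max_le ((hB _ i.2.1).trans (le_abs_self B)) ((hB _ i.2.2).trans (le_abs_self B))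
    have h4 : ‖(pt i).2‖ ≤ ℓ i := H1o_norm_le _
    have h5 : 0 ≤ |B| := abs_nonneg B
    refine max_le (h3.trans ?_) (h4.trans ?_)
    · nlinarith
    · nlinarith
  have hid := EB_id hℓ hptb
  have hπE : EB ℓ (fun (_ : ι) (q : (Pl × Pl) × Pl) => π q) pt := EB_clm hℓ hid π
  have hEB : EB ℓ (fun i q => A i (π q)) pt := EB_comp hℓ hEA hπE
  have hfd := EB_fderiv hEB
  have ha := EB_fderiv_apply hℓ hEB ((0 : Pl × Pl), ((1, 0) : Pl))
  have hb := EB_fderiv_apply hℓ hEB ((0 : Pl × Pl), ((0, 1) : Pl))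
  -- the determinant
  have hch : ∀ (i : ι) (q : (Pl × Pl) × Pl) (w : Pl),
      fderiv ℝ (fun q => A i (π q)) q (0, w) = fderiv ℝ (A i) (π q) (0, w) := by
    intro i q w
    have h1 : HasFDerivAt (A i) (fderiv ℝ (A i) (π q)) (π q) :=
      (((hAs i).differentiable (by simp)) _).hasFDerivAt
    have h2 := (h1.comp q π.hasFDerivAt).fderiv
    have h3 : (A i ∘ π) = fun q => A i (π q) := rfl
    rw [h3] at h2
    rw [h2]
    rfl
  have hgram : ∀ (i : ι) (q : (Pl × Pl) × Pl), dt (mE m (π q)) = dt (m (A i (π q))) *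
      wd (fderiv ℝ (fun q => A i (π q)) q (0, (1, 0)))
        (fderiv ℝ (fun q => A i (π q)) q (0, (0, 1))) ^ 2 := by
    intro i q
    rw [hch, hch]
    exact H1o_gram hX hm i.1.2 (π q)
  have hd0 : ∀ (i : ι) (q : (Pl × Pl) × Pl),
      wd (fderiv ℝ (fun q => A i (π q)) q (0, (1, 0)))
        (fderiv ℝ (fun q => A i (π q)) q (0, (0, 1))) ≠ 0 := by
    intro i q h
    have h1 := hgram i q
    have h2 := (mE_pos hX hm (π q)).2
    rw [h1, h] at h2
    norm_num at h2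
  have hdt : ContinuousOn (fun z => dt (m z)) (closure D) := by
    have h1 := hm.smooth.continuous
    have h2 : Continuous fun z => dt (m z) := by
      unfold dt
      exact (h1.fst.mul h1.snd.snd).sub (h1.snd.fst.pow 2)
    exact h2.continuousOn
  obtain ⟨C0, hC0⟩ := hDc.bddAbove_image hdt
  have hC0' : ∀ z ∈ closure D, dt (m z) ≤ C0 := fun z hz => hC0 ⟨z, hz, rfl⟩
  have hdC : ∀ i, |wd (fderiv ℝ (fun q => A i (π q)) (pt i) (0, (1, 0)))
        (fderiv ℝ (fun q => A i (π q)) (pt i) (0, (0, 1)))|⁻¹ ≤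
      (|C0| + 1) * Real.exp ((|C0| + 1) * ℓ i) := by
    intro i
    set d := wd (fderiv ℝ (fun q => A i (π q)) (pt i) (0, (1, 0)))
        (fderiv ℝ (fun q => A i (π q)) (pt i) (0, (0, 1))) with hd
    have h1 := hgram i (pt i)
    have h2 := (mE_pos hX hm (π (pt i))).2
    rw [h1, ← hd] at h2
    have h3 : A i (π (pt i)) = i.1.1.2 := hAw i i.1.1
    rw [h3] at h2
    have h4 : dt (m i.1.1.2) ≤ |C0| := (hC0' _ i.2.2).trans (le_abs_self _)
    have h5 : 0 < |d| := abs_pos.2 (hd0 i (pt i))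
    have h6 : 1 ≤ |C0| * |d| ^ 2 := by
      rw [sq_abs]
      exact h2.trans (mul_le_mul_of_nonneg_right h4 (sq_nonneg d))
    have h7 : |d|⁻¹ ≤ |C0| + 1 := by
      have h8 : |d|⁻¹ ^ 2 ≤ |C0| := by
        rw [inv_pow, inv_le_iff_one_le_mul₀ (by positivity)]
        exact h6
      nlinarith [sq_nonneg (|d|⁻¹ - 1)]
    have h8 : 1 ≤ Real.exp ((|C0| + 1) * ℓ i) :=
      Real.one_le_exp (mul_nonneg (by positivity) (hℓ i))
    refine h7.trans (le_mul_of_one_le_right (by positivity) h8)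
  have hNI := H1oNI_EB hℓ ha hb hd0 hdC
  -- the right hand side of the equation
  have hR : EB ℓ (fun (i : ι) (q : (Pl × Pl) × Pl) => ContinuousLinearMap.snd ℝ Pl Pl -
      (fderiv ℝ (fun q => A i (π q)) q).comp (ContinuousLinearMap.inl ℝ (Pl × Pl) Pl)) pt := by
    refine EB_sub hℓ (EB_const hℓ (C := ‖ContinuousLinearMap.snd ℝ Pl Pl‖) fun i =>
      le_mul_of_one_le_right (norm_nonneg _)
      (Real.one_le_exp (mul_nonneg (norm_nonneg _) (hℓ i)))) ?_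
    exact EB_clm hℓ hfd ((ContinuousLinearMap.compL ℝ (Pl × Pl) ((Pl × Pl) × Pl) Pl).flip
      (ContinuousLinearMap.inl ℝ (Pl × Pl) Pl))
  have hG := EB_clm_apply hℓ (EB_clm hℓ hNI (ContinuousLinearMap.compL ℝ (Pl × Pl) Pl Pl)) hR
  have hVs : ∀ i : ι, ContDiff ℝ ∞ (fun p : Pl × Pl => Vx m p.1 (i.1.2 • p.2)) := fun i =>
    (Vx_smooth hX hm).comp (contDiff_fst.prodMk ((hX.smooth i.1.2).comp contDiff_snd))
  refine H1o_ode (C₀ := 1) hℓ hVs hG ?_ ?_
  · intro i y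
    set V : Pl × Pl → Pl := fun p => Vx m p.1 (i.1.2 • p.2) with hV
    set Bf := fderiv ℝ (fun q => A i (π q)) (y, V y) with hBf
    have h1 : HasFDerivAt (fun q : (Pl × Pl) × Pl => A i (π q)) Bf (y, V y) :=
      (((hEB.smooth i).differentiable (by simp)) _).hasFDerivAt
    have h2 : HasFDerivAt (fun y : Pl × Pl => (y, V y))
        ((ContinuousLinearMap.id ℝ (Pl × Pl)).prod (fderiv ℝ V y)) y :=
      (hasFDerivAt_id y).prodMk (((hVs i).differentiable (by simp)) y).hasFDerivAt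
    have h3 := (h1.comp y h2).fderiv
    have h4 : ((fun q : (Pl × Pl) × Pl => A i (π q)) ∘ fun y : Pl × Pl => (y, V y)) = Prod.snd :=
      funext fun y => hAw i y
    rw [h4, fderiv_snd] at h3
    refine ContinuousLinearMap.ext fun ξ => ?_
    have h5 : ξ.2 = Bf (ξ, fderiv ℝ V y ξ) := by
      have h6 := congrArg (fun L : Pl × Pl →L[ℝ] Pl => L ξ) h3
      exact h6
    have h6 : Bf (ξ, fderiv ℝ V y ξ) = Bf (ξ, 0) + Bf (0, fderiv ℝ V y ξ) := by
      rw [← map_add]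
      simp
    have h7 : Bf (0, fderiv ℝ V y ξ) = (fderiv ℝ V y ξ).1 • Bf (0, (1, 0)) +
        (fderiv ℝ V y ξ).2 • Bf (0, (0, 1)) :=
      H1o_lin (Bf.comp (ContinuousLinearMap.inr ℝ (Pl × Pl) Pl)) (fderiv ℝ V y ξ)
    have h8 : ξ.2 - Bf (ξ, 0) = (fderiv ℝ V y ξ).1 • Bf (0, (1, 0)) +
        (fderiv ℝ V y ξ).2 • Bf (0, (0, 1)) := by
      rw [h5, h6, h7]
      abel
    show fderiv ℝ V y ξ = H1oNI (Bf (0, (1, 0))) (Bf (0, (0, 1))) (ξ.2 - Bf (ξ, 0))
    rw [h8, H1oNI_apply (hd0 i (y, V y))]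
  · intro i
    have h1 : ‖Vx m i.1.1.1 (i.1.2 • i.1.1.2)‖ ≤ ℓ i := H1o_norm_le _
    rw [one_mul, one_mul]
    have h2 := Real.add_one_le_exp (ℓ i)
    linarith

end BR
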