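import Pool.Agent.LibBR70.H1f

/-! Row H1g (cites H1f): the Jacobi fields `JA`, `JB`.
Plan. `lift`: `cp = p`, `cq = q`, `cb = b`, `ip u (lift ..).2 = 0` for `eu u = 1` (`ifr_fr`,
`ip u (rot u) = 0`, `ip (rot u) (rot u) = 1`, `wd u (rot u) = 1`). At `t = 0` the flow is the identity,
so `dgf m 0 p ξ = ξ`. Then `JA_*`, `JB_*` are `jac_q`, `jac_b`. Wronskian: derivative zero.
`dgf_split`: both sides solve the same linear equations for `(cq, cb)` (`jac_q`, `jac_b`) and have the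
same initial values: their difference `(q, b)` satisfies `q' = b`, `b' = -K q`, `q 0 = b 0 = 0`, hence
vanishes (`ODE_solution_unique`, `K` is continuous along the geodesic; or use the Wronskian with `JA`
and `JB`: `(b JB - q JB')' = 0`, `(b JA - q JA')' = 0` and `JA JB' - JA' JB = 1`). `J_smooth`: `gfl` is
smooth jointly in `(t, (x, u))`, so is its derivative (`ContDiff.fderiv_right`-type:
`dgf m t p ξ` is the derivative of the joint map in the direction `(0, ξ)`). -/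

open MeasureTheory Set Filter Topology
open scoped ContDiff

namespace BR

open BGS

variable {Γ : Type} [Group Γ] [MulAction Γ Pl] {D : Set Pl}

private theorem H1g_sq {u : Pl} (hu : eu u = 1) : u.1 ^ 2 + u.2 ^ 2 = 1 := by
  unfold eu at hu
  rwa [Real.sqrt_eq_one] at hu

private theorem H1g_ip1 {u : Pl} (hu : eu u = 1) (p q : ℝ) : ip (p • u + q • rot u) u = p := by
  have h := H1g_sq hu
  simp only [ip, rot, Prod.fst_add, Prod.snd_add, Prod.smul_fst, Prod.smul_snd, smul_eq_mul]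
  linear_combination p * h

private theorem H1g_ip2 {u : Pl} (hu : eu u = 1) (p q : ℝ) :
    ip (p • u + q • rot u) (rot u) = q := by
  have h := H1g_sq hu
  simp only [ip, rot, Prod.fst_add, Prod.snd_add, Prod.smul_fst, Prod.smul_snd, smul_eq_mul]
  linear_combination q * h

private theorem H1g_ip3 (u : Pl) (c : ℝ) : ip u (c • rot u) = 0 := by
  simp only [ip, rot, Prod.smul_fst, Prod.smul_snd, smul_eq_mul]
  ring

private theorem H1g_wd {u : Pl} (hu : eu u = 1) (c : ℝ) : wd u (c • rot u) = c := by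
  have h := H1g_sq hu
  simp only [wd, rot, Prod.smul_fst, Prod.smul_snd, smul_eq_mul]
  linear_combination c * h

private theorem H1g_dec {u : Pl} (hu : eu u = 1) (w : Pl) :
    ip w u • u + ip w (rot u) • rot u = w := by
  have h := H1g_sq hu
  ext
  · simp only [ip, rot, Prod.fst_add, Prod.smul_fst, smul_eq_mul]
    linear_combination w.1 * h
  · simp only [ip, rot, Prod.snd_add, Prod.smul_snd, smul_eq_mul]
    linear_combination w.2 * h

private theorem H1g_dec2 {u : Pl} (hu : eu u = 1) {w : Pl} (hw : ip u w = 0) :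
    wd u w • rot u = w := by
  have h := H1g_sq hu
  simp only [ip] at hw
  ext
  · simp only [wd, rot, Prod.smul_fst, smul_eq_mul]
    linear_combination w.1 * h - u.1 * hw
  · simp only [wd, rot, Prod.smul_snd, smul_eq_mul]
    linear_combination w.2 * h - u.2 * hw

theorem lift_spec {m : Pl → Co} (hp : ∀ z, 0 < (m z).1 ∧ 0 < dt (m z)) {x u : Pl}
    (hu : eu u = 1) (p q b : ℝ) :
    cp m (x, u) (lift m x u p q b) = p ∧ cq m (x, u) (lift m x u p q b) = q ∧
      cb m (x, u) (lift m x u p q b) = b ∧ ip u (lift m x u p q b).2 = 0 := by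
  have h1 : ifr (m x) (lift m x u p q b).1 = p • u + q • rot u :=
    ifr_fr (hp x).1 (hp x).2 _
  have h2 : (lift m x u p q b).2 =
      (b - om m x (fr (m x) (p • u + q • rot u))) • rot u := rfl
  refine ⟨?_, ?_, ?_, ?_⟩
  · show ip (ifr (m x) (lift m x u p q b).1) u = p
    rw [h1, H1g_ip1 hu]
  · show ip (ifr (m x) (lift m x u p q b).1) (rot u) = q
    rw [h1, H1g_ip2 hu]
  · show wd u (lift m x u p q b).2 + om m x (fr (m x) (p • u + q • rot u)) = b
    rw [h2, H1g_wd hu]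
    ring
  · rw [h2, H1g_ip3]

/-- A variation through unit vectors is determined by its components. -/
theorem lift_eq {m : Pl → Co} (hp : ∀ z, 0 < (m z).1 ∧ 0 < dt (m z)) {x u : Pl}
    (hu : eu u = 1) {ξ : Pl × Pl} (hξ : ip u ξ.2 = 0) :
    lift m x u (cp m (x, u) ξ) (cq m (x, u) ξ) (cb m (x, u) ξ) = ξ := by
  have h1 : fr (m x) (cp m (x, u) ξ • u + cq m (x, u) ξ • rot u) = ξ.1 := by
    have h2 : cp m (x, u) ξ • u + cq m (x, u) ξ • rot u = ifr (m x) ξ.1 := H1g_dec hu _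
    rw [h2, fr_ifr (hp x).1 (hp x).2]
  refine Prod.ext h1 ?_
  show (cb m (x, u) ξ - om m x (fr (m x) (cp m (x, u) ξ • u + cq m (x, u) ξ • rot u))) • rot u =
    ξ.2
  rw [h1]
  have h3 : cb m (x, u) ξ - om m x ξ.1 = wd u ξ.2 := by
    show wd u ξ.2 + om m x ξ.1 - om m x ξ.1 = wd u ξ.2
    ring
  rw [h3, H1g_dec2 hu hξ]

private theorem H1g_zero (hX : Surface Γ D) {m : Pl → Co} (hm : HM Γ m) (p ξ : Pl × Pl) :
    gfl m 0 p = p ∧ dgf m 0 p ξ = ξ := by
  have h0 := (gfl_isFlow hX hm).zero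
  refine ⟨h0 p, ?_⟩
  have h1 : gfl m 0 = fun q => q := funext h0
  rw [dgf, h1, fderiv_fun_id]
  rfl

private theorem H1g_derQ (hX : Surface Γ D) {m : Pl → Co} (hm : HM Γ m) {x u : Pl} (hu : eu u = 1)
    (p q b : ℝ) : deriv (fun s => cq m (gfl m s (x, u)) (dgf m s (x, u) (lift m x u p q b))) =
      fun s => cb m (gfl m s (x, u)) (dgf m s (x, u) (lift m x u p q b)) :=
  funext fun t => (jac_q hX hm t hu (lift_spec hm.pos hu p q b).2.2.2).deriv

private theorem H1g_ode (hX : Surface Γ D) {m : Pl → Co} (hm : HM Γ m) {x u : Pl} (hu : eu u = 1)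
    (p q b t : ℝ) :
    HasDerivAt (fun s => cq m (gfl m s (x, u)) (dgf m s (x, u) (lift m x u p q b)))
      (cb m (gfl m t (x, u)) (dgf m t (x, u) (lift m x u p q b))) t ∧
    HasDerivAt (fun s => cb m (gfl m s (x, u)) (dgf m s (x, u) (lift m x u p q b)))
      (-curv m (gfl m t (x, u)).1 * cq m (gfl m t (x, u)) (dgf m t (x, u) (lift m x u p q b))) t :=
  ⟨jac_q hX hm t hu (lift_spec hm.pos hu p q b).2.2.2,
    jac_b hX hm t hu (lift_spec hm.pos hu p q b).2.2.2⟩

/-- two solutions of the same linear equation have a constant Wronskian -/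
private theorem H1g_wr {k y z y' z' : ℝ → ℝ} (h1 : ∀ t, HasDerivAt y (z t) t)
    (h2 : ∀ t, HasDerivAt z (k t * y t) t) (h3 : ∀ t, HasDerivAt y' (z' t) t)
    (h4 : ∀ t, HasDerivAt z' (k t * y' t) t) (t : ℝ) :
    y t * z' t - z t * y' t = y 0 * z' 0 - z 0 * y' 0 := by
  have h5 : ∀ t, HasDerivAt (fun s => y s * z' s - z s * y' s) 0 t := by
    intro t
    have h6 := ((h1 t).mul (h4 t)).sub ((h2 t).mul (h3 t))
    have h7 : z t * z' t + y t * (k t * y' t) - (k t * y t * y' t + z t * z' t) = 0 := by ring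
    rw [h7] at h6
    exact h6
  exact is_const_of_deriv_eq_zero (fun t => (h5 t).differentiableAt) (fun t => (h5 t).deriv) t 0

/-- growth of the solutions of `y'' = k y`, `k ≥ 0` -/
private theorem H1g_mono {f f' : ℝ → ℝ} (h1 : ∀ t, HasDerivAt f (f' t) t)
    (h2 : ∀ t, 0 ≤ t → 0 ≤ f' t) {t : ℝ} (ht : 0 ≤ t) : f 0 ≤ f t := by
  have h3 : MonotoneOn f (Ici 0) := by
    refine monotoneOn_of_deriv_nonneg (convex_Ici 0)
      (fun t _ => (h1 t).continuousAt.continuousWithinAt)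
      (fun t _ => (h1 t).differentiableAt.differentiableWithinAt) fun t ht => ?_
    rw [interior_Ici] at ht
    rw [(h1 t).deriv]
    exact h2 t (le_of_lt ht)
  exact h3 (mem_Ici.2 le_rfl) (mem_Ici.2 ht) ht

private theorem H1g_one {f : ℝ → ℝ} (hf : Continuous f) (h0 : f 0 = 1)
    (h : ∀ t, 0 ≤ t → 1 ≤ f t ^ 2) {t : ℝ} (ht : 0 ≤ t) : 1 ≤ f t := by
  by_contra hlt
  push Not at hlt
  have h1 := h t ht
  have h2 : f t ≤ 0 := by
    by_contra h3
    push Not at h3
    nlinarith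
  have h3 : (0 : ℝ) ∈ Icc (f t) (f 0) := ⟨h2, by rw [h0]; exact zero_le_one⟩
  obtain ⟨s, hs, hs0⟩ := intermediate_value_Icc' ht hf.continuousOn h3
  have h4 := h s hs.1
  rw [hs0] at h4
  norm_num at h4

theorem J_zero (hX : Surface Γ D) {m : Pl → Co} (hm : HM Γ m) {x u : Pl} (hu : eu u = 1) :
    JA m x u 0 = 1 ∧ deriv (JA m x u) 0 = 0 ∧ JB m x u 0 = 0 ∧ deriv (JB m x u) 0 = 1 := by
  have hA := lift_spec hm.pos hu (x := x) 0 1 0
  have hB := lift_spec hm.pos hu (x := x) 0 0 1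
  have eA : JA m x u = fun s => cq m (gfl m s (x, u)) (dgf m s (x, u) (lift m x u 0 1 0)) := rfl
  have eB : JB m x u = fun s => cq m (gfl m s (x, u)) (dgf m s (x, u) (lift m x u 0 0 1)) := rfl
  rw [eA, eB, H1g_derQ hX hm hu, H1g_derQ hX hm hu]
  simp only [(H1g_zero hX hm (x, u) 0).1, (H1g_zero hX hm (x, u) (lift m x u 0 1 0)).2,
    (H1g_zero hX hm (x, u) (lift m x u 0 0 1)).2]
  exact ⟨hA.2.1, hA.2.2.1, hB.2.1, hB.2.2.1⟩

theorem JA_ode (hX : Surface Γ D) {m : Pl → Co} (hm : HM Γ m) {x u : Pl} (hu : eu u = 1)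
    (t : ℝ) : HasDerivAt (JA m x u) (deriv (JA m x u) t) t ∧
      HasDerivAt (deriv (JA m x u)) (-curv m (gfl m t (x, u)).1 * JA m x u t) t := by
  have eA : JA m x u = fun s => cq m (gfl m s (x, u)) (dgf m s (x, u) (lift m x u 0 1 0)) := rfl
  rw [eA, H1g_derQ hX hm hu]
  exact H1g_ode hX hm hu 0 1 0 t

theorem JB_ode (hX : Surface Γ D) {m : Pl → Co} (hm : HM Γ m) {x u : Pl} (hu : eu u = 1)
    (t : ℝ) : HasDerivAt (JB m x u) (deriv (JB m x u) t) t ∧
      HasDerivAt (deriv (JB m x u)) (-curv m (gfl m t (x, u)).1 * JB m x u t) t := by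
  have eB : JB m x u = fun s => cq m (gfl m s (x, u)) (dgf m s (x, u) (lift m x u 0 0 1)) := rfl
  rw [eB, H1g_derQ hX hm hu]
  exact H1g_ode hX hm hu 0 0 1 t

theorem wronski (hX : Surface Γ D) {m : Pl → Co} (hm : HM Γ m) {x u : Pl} (hu : eu u = 1)
    (t : ℝ) : JA m x u t * deriv (JB m x u) t - deriv (JA m x u) t * JB m x u t = 1 := by
  have h := H1g_wr (k := fun t => -curv m (gfl m t (x, u)).1)
    (fun t => (JA_ode hX hm hu t).1) (fun t => (JA_ode hX hm hu t).2)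
    (fun t => (JB_ode hX hm hu t).1) (fun t => (JB_ode hX hm hu t).2) t
  obtain ⟨h1, h2, h3, h4⟩ := J_zero hX hm (x := x) hu
  rw [h, h1, h2, h3, h4]
  ring

/-- The derivative of the geodesic flow in terms of the Jacobi fields. -/
theorem dgf_split (hX : Surface Γ D) {m : Pl → Co} (hm : HM Γ m) {x u : Pl} (hu : eu u = 1)
    (t p q b : ℝ) :
    dgf m t (x, u) (lift m x u p q b) =
      lift m (gfl m t (x, u)).1 (gfl m t (x, u)).2 p (q * JA m x u t + b * JB m x u t)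
        (q * deriv (JA m x u) t + b * deriv (JB m x u) t) := by
  have hs := lift_spec hm.pos hu (x := x) p q b
  set ξ := lift m x u p q b with hξ
  have hperp : ip (gfl m t (x, u)).2 (dgf m t (x, u) ξ).2 = 0 := dgf_perp hX hm t hs.2.2.2
  have hv : eu (gfl m t (x, u)).2 = 1 := by
    rw [gfl_eu hX hm]
    exact hu
  have h1 := lift_eq hm.pos (x := (gfl m t (x, u)).1) hv hperp
  have e0 : ((gfl m t (x, u)).1, (gfl m t (x, u)).2) = gfl m t (x, u) := rfl
  rw [e0] at h1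
  have hp : cp m (gfl m t (x, u)) (dgf m t (x, u) ξ) = p := by
    rw [jac_p hX hm t hu hs.2.2.2, hs.1]
  have hode := fun t => H1g_ode hX hm (x := x) hu p q b t
  rw [← hξ] at hode
  have hA1 := fun t => (JA_ode hX hm (x := x) hu t).1
  have hA2 := fun t => (JA_ode hX hm (x := x) hu t).2
  have hB1 := fun t => (JB_ode hX hm (x := x) hu t).1
  have hB2 := fun t => (JB_ode hX hm (x := x) hu t).2
  have w1 := H1g_wr (k := fun t => -curv m (gfl m t (x, u)).1) (fun t => (hode t).1)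
    (fun t => (hode t).2) hA1 hA2 t
  have w2 := H1g_wr (k := fun t => -curv m (gfl m t (x, u)).1) (fun t => (hode t).1)
    (fun t => (hode t).2) hB1 hB2 t
  obtain ⟨z1, z2, z3, z4⟩ := J_zero hX hm (x := x) hu
  have q0 : cq m (gfl m 0 (x, u)) (dgf m 0 (x, u) ξ) = q := by
    rw [(H1g_zero hX hm (x, u) ξ).1, (H1g_zero hX hm (x, u) ξ).2, hs.2.1]
  have b0 : cb m (gfl m 0 (x, u)) (dgf m 0 (x, u) ξ) = b := by
    rw [(H1g_zero hX hm (x, u) ξ).1, (H1g_zero hX hm (x, u) ξ).2, hs.2.2.1]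
  rw [q0, b0, z1, z2] at w1
  rw [q0, b0, z3, z4] at w2
  have hw := wronski hX hm (x := x) hu t
  have hq : cq m (gfl m t (x, u)) (dgf m t (x, u) ξ) = q * JA m x u t + b * JB m x u t := by
    linear_combination (-cq m (gfl m t (x, u)) (dgf m t (x, u) ξ)) * hw - JB m x u t * w1 +
      JA m x u t * w2
  have hb : cb m (gfl m t (x, u)) (dgf m t (x, u) ξ) =
      q * deriv (JA m x u) t + b * deriv (JB m x u) t := by
    linear_combination (-cb m (gfl m t (x, u)) (dgf m t (x, u) ξ)) * hw -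
      deriv (JB m x u) t * w1 + deriv (JA m x u) t * w2
  rw [hp, hq, hb] at h1
  exact h1.symm

theorem J_smooth (hX : Surface Γ D) {m : Pl → Co} (hm : HM Γ m) :
    ContDiff ℝ ∞ (fun q : (Pl × Pl) × ℝ => JA m q.1.1 q.1.2 q.2) ∧
      ContDiff ℝ ∞ (fun q : (Pl × Pl) × ℝ => JB m q.1.1 q.1.2 q.2) := by
  have hF := gfl_smooth hX hm
  have hd : ∀ (t : ℝ) (p ξ : Pl × Pl), dgf m t p ξ =
      fderiv ℝ (fun p : ℝ × (Pl × Pl) => gfl m p.1 p.2) (t, p) (0, ξ) := by
    intro t p ξ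
    have h1 : HasFDerivAt (fun p : ℝ × (Pl × Pl) => gfl m p.1 p.2)
        (fderiv ℝ (fun p : ℝ × (Pl × Pl) => gfl m p.1 p.2) (t, p)) (t, p) :=
      (hF.differentiable (by simp)).differentiableAt.hasFDerivAt
    have h2 : HasFDerivAt (fun q : Pl × Pl => ((t, q) : ℝ × (Pl × Pl)))
        ((0 : (Pl × Pl) →L[ℝ] ℝ).prod (ContinuousLinearMap.id ℝ (Pl × Pl))) p :=
      (hasFDerivAt_const t p).prodMk (hasFDerivAt_id p)
    have h3 := HasFDerivAt.comp (f := fun q : Pl × Pl => ((t, q) : ℝ × (Pl × Pl))) p h1 h2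
    have h4 : fderiv ℝ (gfl m t) p = (fderiv ℝ (fun p : ℝ × (Pl × Pl) => gfl m p.1 p.2) (t, p)).comp
        ((0 : (Pl × Pl) →L[ℝ] ℝ).prod (ContinuousLinearMap.id ℝ (Pl × Pl))) := h3.fderiv
    rw [dgf, h4]
    rfl
  have hF' : ContDiff ℝ ∞ (fderiv ℝ (fun p : ℝ × (Pl × Pl) => gfl m p.1 p.2)) :=
    hF.fderiv_right (by simp)
  have hfr := fr_smooth hm.smooth hm.pos
  have hifr := ifr_smooth hm.smooth hm.pos
  have hom := om_smooth hm.smooth hm.pos
  have hx : ContDiff ℝ ∞ (fun q : (Pl × Pl) × ℝ => q.1.1) := contDiff_fst.fst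
  have hu : ContDiff ℝ ∞ (fun q : (Pl × Pl) × ℝ => q.1.2) := contDiff_fst.snd
  have hru : ContDiff ℝ ∞ (fun q : (Pl × Pl) × ℝ => rot q.1.2) :=
    (contDiff_snd.comp hu).neg.prodMk (contDiff_fst.comp hu)
  have key : ∀ a b : ℝ, ContDiff ℝ ∞ (fun q : (Pl × Pl) × ℝ =>
      cq m (gfl m q.2 (q.1.1, q.1.2)) (dgf m q.2 (q.1.1, q.1.2) (lift m q.1.1 q.1.2 0 a b))) := by
    intro a b
    have h1 : ContDiff ℝ ∞ (fun q : (Pl × Pl) × ℝ =>
        fr (m q.1.1) ((0 : ℝ) • q.1.2 + a • rot q.1.2)) :=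
      hfr.comp (hx.prodMk ((hu.const_smul (0 : ℝ)).add (hru.const_smul a)))
    have h2 : ContDiff ℝ ∞ (fun q : (Pl × Pl) × ℝ => lift m q.1.1 q.1.2 0 a b) :=
      h1.prodMk ((contDiff_const.sub (hom.comp (hx.prodMk h1))).smul hru)
    have h3 : ContDiff ℝ ∞ (fun q : (Pl × Pl) × ℝ => (q.2, (q.1.1, q.1.2))) :=
      contDiff_snd.prodMk (hx.prodMk hu)
    have h4 : ContDiff ℝ ∞ (fun q : (Pl × Pl) × ℝ => gfl m q.2 (q.1.1, q.1.2)) := hF.comp h3
    have h5 : ContDiff ℝ ∞ (fun q : (Pl × Pl) × ℝ =>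
        dgf m q.2 (q.1.1, q.1.2) (lift m q.1.1 q.1.2 0 a b)) := by
      simp only [hd]
      exact (hF'.comp h3).clm_apply (contDiff_const.prodMk h2)
    have h6 : ContDiff ℝ ∞ (fun q : (Pl × Pl) × ℝ => ifr (m (gfl m q.2 (q.1.1, q.1.2)).1)
        (dgf m q.2 (q.1.1, q.1.2) (lift m q.1.1 q.1.2 0 a b)).1) :=
      hifr.comp (h4.fst.prodMk h5.fst)
    have h7 : ContDiff ℝ ∞ (fun q : (Pl × Pl) × ℝ => (gfl m q.2 (q.1.1, q.1.2)).2) := h4.snd
    simp only [cq, ip, rot]
    exact (h6.fst.mul h7.snd.neg).add (h6.snd.mul h7.fst)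
  exact ⟨key 1 0, key 0 1⟩

/-- Growth of the Jacobi fields: `K ≤ 0`. -/
theorem JB_ge (hX : Surface Γ D) {m : Pl → Co} (hm : HM Γ m) {x u : Pl} (hu : eu u = 1) {t : ℝ}
    (ht : 0 ≤ t) : t ≤ JB m x u t ∧ 1 ≤ deriv (JB m x u) t ∧ 1 ≤ JA m x u t ∧
      0 ≤ deriv (JA m x u) t := by
  obtain ⟨z1, z2, z3, z4⟩ := J_zero hX hm (x := x) hu
  have hA1 := fun t => (JA_ode hX hm (x := x) hu t).1
  have hA2 := fun t => (JA_ode hX hm (x := x) hu t).2
  have hB1 := fun t => (JB_ode hX hm (x := x) hu t).1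
  have hB2 := fun t => (JB_ode hX hm (x := x) hu t).2
  have hk : ∀ t, 0 ≤ -curv m (gfl m t (x, u)).1 := fun t => by
    have := hm.neg (gfl m t (x, u)).1
    linarith
  have hA3 : ∀ t, 0 ≤ t → 0 ≤ JA m x u t * deriv (JA m x u) t := by
    intro t ht
    have h := H1g_mono (fun t => (hA1 t).mul (hA2 t)) (fun t _ => by
      have h1 := hk t
      have h2 := sq_nonneg (JA m x u t)
      have h3 := sq_nonneg (deriv (JA m x u) t)
      have h4 := mul_nonneg h1 h2
      nlinarith) ht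
    simp only [Pi.mul_apply] at h
    rw [z1, z2, mul_zero] at h
    exact h
  have hB3 : ∀ t, 0 ≤ t → 0 ≤ JB m x u t * deriv (JB m x u) t := by
    intro t ht
    have h := H1g_mono (fun t => (hB1 t).mul (hB2 t)) (fun t _ => by
      have h1 := hk t
      have h2 := sq_nonneg (JB m x u t)
      have h3 := sq_nonneg (deriv (JB m x u) t)
      have h4 := mul_nonneg h1 h2
      nlinarith) ht
    simp only [Pi.mul_apply] at h
    rw [z3, zero_mul] at h
    exact h
  have hA4 : ∀ t, 0 ≤ t → 1 ≤ JA m x u t := by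
    intro t ht
    refine H1g_one (f := JA m x u) (continuous_iff_continuousAt.2 fun t => (hA1 t).continuousAt)
      z1 (fun t ht => ?_) ht
    have h := H1g_mono (fun t => (hA1 t).mul (hA1 t)) (fun t ht => by
      have h1 := hA3 t ht
      nlinarith) ht
    simp only [Pi.mul_apply] at h
    rw [z1] at h
    nlinarith
  have hB4 : ∀ t, 0 ≤ t → 1 ≤ deriv (JB m x u) t := by
    intro t ht
    refine H1g_one (f := deriv (JB m x u))
      (continuous_iff_continuousAt.2 fun t => (hB2 t).continuousAt) z4 (fun t ht => ?_) ht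
    have h := H1g_mono (fun t => (hB2 t).mul (hB2 t)) (fun t ht => by
      have h1 := mul_nonneg (hk t) (hB3 t ht)
      nlinarith) ht
    simp only [Pi.mul_apply] at h
    rw [z4] at h
    nlinarith
  refine ⟨?_, hB4 t ht, hA4 t ht, ?_⟩
  · have h := H1g_mono (fun t => (hB1 t).sub (hasDerivAt_id t)) (fun t ht => by
      have h1 := hB4 t ht
      linarith) ht
    simp only [Pi.sub_apply, id] at h
    rw [z3] at h
    linarith
  · have h := H1g_mono hA2 (fun t ht => mul_nonneg (hk t) (by linarith [hA4 t ht])) ht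
    rw [z2] at h
    exact h

end BR
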