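import Pool.Agent.LibBR70.H1j
import Pool.Agent.LibBR70.H1k
import Pool.Agent.LibBGS.Egr

/-! Row H1l (cites H1g, H1j, H1k; short): equivariance of `Vx`, `JA`, `JB`, curvature.
Plan. `Vx_deck`: apply `Ex m (γ x)` to both sides (`Ex_deck`, injectivity). `eu_Vx_deck`: `Rg_ip`.
`curv_deck`: `curv_inv` in `LibBGS/Egr.lean` is stated for `Sm`: use it with `⟨m, hm.smooth⟩`.
`JB_deck`: `JA`, `JB` are determined by the ODE `J'' = -K J` with their initial values, and `K` along the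
geodesic of `(γ x, Rg v)` is `K` along the geodesic of `(x, v)`: uniqueness (or Wronskian: for two
solutions `y₁, y₂` of the same equation with the same data, `y₁' y₂ - y₁ y₂' = 0`, ...). -/

open MeasureTheory Set Filter Topology
open scoped ContDiff

namespace BR

open BGS

variable {Γ : Type} [Group Γ] [MulAction Γ Pl] {D : Set Pl}

private theorem H1l_wr {y y' z z' K : ℝ → ℝ} (hy : ∀ t, HasDerivAt y (y' t) t)
    (hy' : ∀ t, HasDerivAt y' (-K t * y t) t) (hz : ∀ t, HasDerivAt z (z' t) t)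
    (hz' : ∀ t, HasDerivAt z' (-K t * z t) t) (t : ℝ) :
    y' t * z t - y t * z' t = y' 0 * z 0 - y 0 * z' 0 := by
  have h1 : ∀ t, HasDerivAt (fun t => y' t * z t - y t * z' t) 0 t := by
    intro t
    have h2 := ((hy' t).mul (hz t)).sub ((hy t).mul (hz' t))
    refine h2.congr_deriv ?_
    ring
  exact is_const_of_deriv_eq_zero (fun t => (h1 t).differentiableAt) (fun t => (h1 t).deriv) t 0

private theorem H1l_sol (hX : Surface Γ D) {m : Pl → Co} (hm : HM Γ m) {x u : Pl} (hu : eu u = 1)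
    {y y' : ℝ → ℝ} (hy : ∀ t, HasDerivAt y (y' t) t)
    (hy' : ∀ t, HasDerivAt y' (-curv m (gfl m t (x, u)).1 * y t) t) (t : ℝ) :
    y t = y 0 * JA m x u t + y' 0 * JB m x u t := by
  obtain ⟨a0, a1, b0, b1⟩ := J_zero hX hm (x := x) hu
  have hA := H1l_wr (K := fun t => curv m (gfl m t (x, u)).1) hy hy'
    (fun t => (JA_ode hX hm hu t).1) (fun t => (JA_ode hX hm hu t).2) t
  have hB := H1l_wr (K := fun t => curv m (gfl m t (x, u)).1) hy hy'
    (fun t => (JB_ode hX hm hu t).1) (fun t => (JB_ode hX hm hu t).2) t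
  have hW := wronski hX hm (x := x) hu t
  rw [a0, a1] at hA
  rw [b0, b1] at hB
  linear_combination (-y t) * hW + (-JA m x u t) * hB + JB m x u t * hA

private theorem H1l_eu (hX : Surface Γ D) {m : Pl → Co} (hm : HM Γ m) (γ : Γ) (x v : Pl) :
    eu (Rg m γ x v) = eu v := by
  have h1 : ∀ v : Pl, eu v = √(ip v v) := by
    intro v
    rw [eu, ip]
    congr 1
    ring
  rw [h1, h1, Rg_ip hX hm]

theorem Vx_deck (hX : Surface Γ D) (hO : Ori Γ) {m : Pl → Co} (hm : HM Γ m) (γ : Γ)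
    (x y : Pl) : Vx m (γ • x) (γ • y) = Rg m γ x (Vx m x y) := by
  have h1 := Vx_Ex hX hm (γ • x) (Rg m γ x (Vx m x y))
  rwa [Ex_deck hX hO hm, Ex_Vx hX hm] at h1

theorem eu_Vx_deck (hX : Surface Γ D) (hO : Ori Γ) {m : Pl → Co} (hm : HM Γ m) (γ : Γ)
    (x y : Pl) : eu (Vx m (γ • x) (γ • y)) = eu (Vx m x y) := by
  rw [Vx_deck hX hO hm, H1l_eu hX hm]

theorem curv_deck (hX : Surface Γ D) {m : Pl → Co} (hm : HM Γ m) (γ : Γ) (x : Pl) :
    curv m (γ • x) = curv m x := by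
  exact curv_inv hX ⟨m, hm.smooth⟩ (fun z => (hm.pos z).2) hm.inv γ x

theorem curv_bounds (hX : Surface Γ D) {m : Pl → Co} (hm : HM Γ m) :
    ∃ a b : ℝ, 0 < a ∧ a ≤ b ∧ ∀ z, -b ^ 2 ≤ curv m z ∧ curv m z ≤ -a ^ 2 := by
  have hc : Continuous (curv m) := (curv_smooth hm.smooth hm.pos).continuous
  have hK : IsCompact (closure D) := hX.bdd.isCompact_closure
  obtain ⟨γ0, hγ0, -⟩ := hX.orbit 0
  have hne : (closure D).Nonempty := ⟨_, subset_closure hγ0⟩
  obtain ⟨z0, -, hz0⟩ := hK.exists_isMaxOn hne hc.continuousOn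
  obtain ⟨z1, -, hz1⟩ := hK.exists_isMinOn hne hc.continuousOn
  have n0 : 0 < -curv m z0 := by have := hm.neg z0; linarith
  have n1 : 0 < -curv m z1 := by have := hm.neg z1; linarith
  have hall : ∀ z, curv m z1 ≤ curv m z ∧ curv m z ≤ curv m z0 := by
    intro z
    obtain ⟨γ, hγ, -⟩ := hX.orbit z
    rw [← curv_deck hX hm γ z]
    exact ⟨hz1 (subset_closure hγ), hz0 (subset_closure hγ)⟩
  refine ⟨√(-curv m z0), √(-curv m z1), Real.sqrt_pos.2 n0, Real.sqrt_le_sqrt ?_, fun z => ?_⟩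
  · have := (hall z1).2
    linarith
  · rw [Real.sq_sqrt n0.le, Real.sq_sqrt n1.le, neg_neg, neg_neg]
    exact hall z

theorem JA_deck (hX : Surface Γ D) (hO : Ori Γ) {m : Pl → Co} (hm : HM Γ m) (γ : Γ)
    {x u : Pl} (hu : eu u = 1) (t : ℝ) : JA m (γ • x) (Rg m γ x u) t = JA m x u t := by
  have hu' : eu (Rg m γ x u) = 1 := by rw [H1l_eu hX hm, hu]
  obtain ⟨a0, a1, -, -⟩ := J_zero hX hm (x := γ • x) hu'
  have h1 := H1l_sol hX hm (x := x) hu (y := JA m (γ • x) (Rg m γ x u))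
    (y' := deriv (JA m (γ • x) (Rg m γ x u))) (fun t => (JA_ode hX hm hu' t).1) (fun t => by
      have h2 := (JA_ode hX hm (x := γ • x) hu' t).2
      rw [gfl_deck hX hO hm] at h2
      have h3 : curv m (γ • (gfl m t (x, u)).1) = curv m (gfl m t (x, u)).1 :=
        curv_deck hX hm γ _
      rw [← h3]
      exact h2) t
  rw [h1, a0, a1, one_mul, zero_mul, add_zero]

theorem JB_deck (hX : Surface Γ D) (hO : Ori Γ) {m : Pl → Co} (hm : HM Γ m) (γ : Γ)
    {x u : Pl} (hu : eu u = 1) (t : ℝ) : JB m (γ • x) (Rg m γ x u) t = JB m x u t := by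
  have hu' : eu (Rg m γ x u) = 1 := by rw [H1l_eu hX hm, hu]
  obtain ⟨-, -, a0, a1⟩ := J_zero hX hm (x := γ • x) hu'
  have h1 := H1l_sol hX hm (x := x) hu (y := JB m (γ • x) (Rg m γ x u))
    (y' := deriv (JB m (γ • x) (Rg m γ x u))) (fun t => (JB_ode hX hm hu' t).1) (fun t => by
      have h2 := (JB_ode hX hm (x := γ • x) hu' t).2
      rw [gfl_deck hX hO hm] at h2
      have h3 : curv m (γ • (gfl m t (x, u)).1) = curv m (gfl m t (x, u)).1 :=
        curv_deck hX hm γ _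
      rw [← h3]
      exact h2) t
  rw [h1, a0, a1, one_mul, zero_mul, zero_add]

end BR
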