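import Pool.Agent.LibBR70.JB2

/-! Row JB3 (only Mathlib, cites JB1, JB2): derivatives, inverses and powers.
Plan. `EB_fderiv`: `norm_iteratedFDeriv_fderiv` (the `k`-th derivative of `fderiv` has the norm of the
`(k+1)`-st derivative). `EB_fderiv_apply`: `EB_clm_apply` with `EB_const`.
`EB_scalar`: a FIXED function `g`, smooth on `ℝ` near every positive number, cannot be put into `EB_comp`
directly because `EB` asks for global smoothness; prove `EB_inv` and `EB_rpow` by induction on the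
order instead: `fderiv (f⁻¹) = -(f⁻¹)^2 • fderiv f` and `fderiv (f^p) = p f^(p-1) • fderiv f`; i.e. show by
induction on `k` that for ALL families with the lower bound the `k`-th derivative has the
exponential bound (for `EB_rpow` quantify over `p` in the induction), using
`norm_iteratedFDeriv_fderiv` and the product estimate `norm_iteratedFDeriv_smul_le` with the bounds of
order `≤ k` of the factors. `k = 0`: `|f|⁻¹ ≤ C exp (C ℓ)`; `f ^ p ≤ C' exp (C' ℓ)` from both bounds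
on `f`. -/

open Set Filter Topology
open scoped ContDiff

namespace BR

variable {ι : Type} {E F G : Type} [NormedAddCommGroup E] [NormedSpace ℝ E]
  [NormedAddCommGroup F] [NormedSpace ℝ F] [NormedAddCommGroup G] [NormedSpace ℝ G]
  {ℓ : ι → ℝ} {x : ι → E}

theorem EB_fderiv {f : ι → E → F} (hf : EB ℓ f x) : EB ℓ (fun i => fderiv ℝ (f i)) x := by
  refine ⟨fun i => (hf.smooth i).fderiv_right (m := ∞) (by simp), fun k => ?_⟩
  obtain ⟨C, hC⟩ := hf.bound (k + 1)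
  refine ⟨C, fun i => ?_⟩
  rw [norm_iteratedFDeriv_fderiv]
  exact hC i

theorem EB_fderiv_apply (hℓ : ∀ i, 0 ≤ ℓ i) {f : ι → E → F} (hf : EB ℓ f x) (v : E) :
    EB ℓ (fun i y => fderiv ℝ (f i) y v) x := by
  have h1 : EB ℓ (fun (_ : ι) (_ : E) => v) x :=
    EB_const hℓ (c := fun _ => v) (C := ‖v‖) fun i =>
      le_mul_of_one_le_right (norm_nonneg _)
        (Real.one_le_exp (mul_nonneg (norm_nonneg _) (hℓ i)))
  exact EB_clm_apply hℓ (EB_fderiv hf) h1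

private theorem JB3_exp {A B t : ℝ} (hA : 0 ≤ A) (hB : 0 ≤ B) (ht : 0 ≤ t) :
    A * Real.exp (B * t) ≤ (A + B) * Real.exp ((A + B) * t) :=
  mul_le_mul (by linarith) (Real.exp_le_exp.2 (mul_le_mul_of_nonneg_right (by linarith) ht))
    (Real.exp_pos _).le (by linarith)

/-- Bounds of the orders at most `k`. -/
private def JB3_B (ℓ : ι → ℝ) (f : ι → E → F) (x : ι → E) (k : ℕ) : Prop :=
  ∃ C : ℝ, 0 ≤ C ∧ ∀ j ≤ k, ∀ i, ‖iteratedFDeriv ℝ j (f i) (x i)‖ ≤ C * Real.exp (C * ℓ i)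

private theorem JB3_step (hℓ : ∀ i, 0 ≤ ℓ i) {f : ι → E → ℝ} {g : ι → E → F}
    (sf : ∀ i, ContDiff ℝ ∞ (f i)) (sg : ∀ i, ContDiff ℝ ∞ (g i)) {k : ℕ}
    (hf : JB3_B ℓ f x k) (hg : JB3_B ℓ g x k) : JB3_B ℓ (fun i y => f i y • g i y) x k := by
  obtain ⟨A, hA, hA'⟩ := hf
  obtain ⟨B, hB, hB'⟩ := hg
  refine ⟨2 ^ k * (A * B) + (A + B), by positivity, fun j hj i => ?_⟩
  have h0 := norm_iteratedFDeriv_smul_le (sf i) (sg i) (x i) (n := j) (mod_cast le_top)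
  refine h0.trans ?_
  have h1 : ∀ a ∈ Finset.range (j + 1), (j.choose a : ℝ) * ‖iteratedFDeriv ℝ a (f i) (x i)‖ *
      ‖iteratedFDeriv ℝ (j - a) (g i) (x i)‖ ≤
      (j.choose a : ℝ) * ((A * Real.exp (A * ℓ i)) * (B * Real.exp (B * ℓ i))) := by
    intro a ha
    have ha' : a ≤ j := Nat.lt_succ_iff.1 (Finset.mem_range.1 ha)
    rw [← mul_assoc]
    exact mul_le_mul (mul_le_mul_of_nonneg_left (hA' a (ha'.trans hj) i) (Nat.cast_nonneg _))
      (hB' (j - a) ((Nat.sub_le _ _).trans hj) i) (norm_nonneg _) (by positivity)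
  refine (Finset.sum_le_sum h1).trans ?_
  rw [← Finset.sum_mul, ← Nat.cast_sum, Nat.sum_range_choose]
  have h2 : (A * Real.exp (A * ℓ i)) * (B * Real.exp (B * ℓ i)) =
      A * B * Real.exp ((A + B) * ℓ i) := by
    rw [add_mul, Real.exp_add]
    ring
  have h3 : ((2 ^ j : ℕ) : ℝ) ≤ 2 ^ k := by
    push_cast
    exact pow_le_pow_right₀ one_le_two hj
  rw [h2]
  refine (mul_le_mul_of_nonneg_right h3 (by positivity)).trans ?_
  rw [← mul_assoc]
  exact JB3_exp (by positivity) (by positivity) (hℓ i)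

private theorem JB3_of (hℓ : ∀ i, 0 ≤ ℓ i) {f : ι → E → F} (hf : EB ℓ f x) (k : ℕ) :
    JB3_B ℓ f x k := by
  obtain ⟨C, h1, hC⟩ := EB_bound' hℓ hf k
  exact ⟨C, by linarith, hC⟩

private theorem JB3_zero (hℓ : ∀ i, 0 ≤ ℓ i) {f : ι → E → ℝ} (hf : EB ℓ f x)
    (h0 : ∀ i y, 0 < f i y) {C : ℝ} (hC : ∀ i, |f i (x i)|⁻¹ ≤ C * Real.exp (C * ℓ i)) (p : ℝ) :
    ∃ D : ℝ, 0 ≤ D ∧ ∀ i, ‖f i (x i) ^ p‖ ≤ D * Real.exp (D * ℓ i) := by
  obtain ⟨A, hA1, hA⟩ := EB_bound' hℓ hf 0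
  obtain ⟨M, hM⟩ : ∃ M : ℝ, M = max A (max C 1) := ⟨_, rfl⟩
  have hM1 : 1 ≤ M := by rw [hM]; exact (le_max_right _ _).trans (le_max_right _ _)
  have hMA : A ≤ M := by rw [hM]; exact le_max_left _ _
  have hMC : C ≤ M := by rw [hM]; exact (le_max_left _ _).trans (le_max_right _ _)
  have hM0 : 0 ≤ M := by linarith
  refine ⟨M ^ |p| + |p| * M, by positivity, fun i => ?_⟩
  have hMℓ : 0 ≤ M * ℓ i := mul_nonneg hM0 (hℓ i)
  have hX : 1 ≤ M * Real.exp (M * ℓ i) :=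
    one_le_mul_of_one_le_of_one_le hM1 (Real.one_le_exp hMℓ)
  have hfp := h0 i (x i)
  have h1 : f i (x i) ≤ M * Real.exp (M * ℓ i) := by
    have h2 := hA 0 le_rfl i
    rw [norm_iteratedFDeriv_zero, Real.norm_eq_abs, abs_of_pos hfp] at h2
    exact h2.trans (mul_le_mul hMA (Real.exp_le_exp.2 (mul_le_mul_of_nonneg_right hMA (hℓ i)))
      (Real.exp_pos _).le hM0)
  have h2 : (f i (x i))⁻¹ ≤ M * Real.exp (M * ℓ i) := by
    have h3 := hC i
    rw [abs_of_pos hfp] at h3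
    exact h3.trans (mul_le_mul hMC (Real.exp_le_exp.2 (mul_le_mul_of_nonneg_right hMC (hℓ i)))
      (Real.exp_pos _).le hM0)
  have h3 : f i (x i) ^ p ≤ (M * Real.exp (M * ℓ i)) ^ |p| := by
    rcases le_total 0 p with hp | hp
    · rw [abs_of_nonneg hp]
      exact Real.rpow_le_rpow hfp.le h1 hp
    · rw [abs_of_nonpos hp]
      have h4 : f i (x i) ^ p = (f i (x i))⁻¹ ^ (-p) := by
        rw [Real.inv_rpow hfp.le, Real.rpow_neg hfp.le, inv_inv]
      rw [h4]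
      exact Real.rpow_le_rpow (inv_pos.2 hfp).le h2 (neg_nonneg.2 hp)
  rw [Real.norm_eq_abs, abs_of_pos (Real.rpow_pos_of_pos hfp p)]
  refine h3.trans ?_
  rw [Real.mul_rpow hM0 (Real.exp_pos _).le, ← Real.exp_mul]
  have h5 : M * ℓ i * |p| = |p| * M * ℓ i := by ring
  rw [h5]
  exact JB3_exp (by positivity) (by positivity) (hℓ i)

private theorem JB3_rpow (hℓ : ∀ i, 0 ≤ ℓ i) {f : ι → E → ℝ} (hf : EB ℓ f x)
    (h0 : ∀ i y, 0 < f i y) {C : ℝ} (hC : ∀ i, |f i (x i)|⁻¹ ≤ C * Real.exp (C * ℓ i)) (k : ℕ) :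
    ∀ p : ℝ, JB3_B ℓ (fun i y => f i y ^ p) x k := by
  induction k with
  | zero =>
    intro p
    obtain ⟨D, hD, hD'⟩ := JB3_zero hℓ hf h0 hC p
    refine ⟨D, hD, fun j hj i => ?_⟩
    rw [Nat.le_zero.1 hj, norm_iteratedFDeriv_zero]
    exact hD' i
  | succ k ih =>
    intro p
    obtain ⟨D, hD, hD'⟩ := JB3_zero hℓ hf h0 hC p
    have hs : ∀ q : ℝ, ∀ i, ContDiff ℝ ∞ fun y => f i y ^ q := fun q i =>
      (hf.smooth i).rpow_const_of_ne fun y => (h0 i y).ne'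
    have h1 : JB3_B ℓ (fun i y => f i y ^ (p - 1) • (p • fderiv ℝ (f i) y)) x k := by
      refine JB3_step hℓ (hs (p - 1)) (fun i => ?_) (ih (p - 1)) (JB3_of hℓ ?_ k)
      · exact ContDiff.const_smul p ((hf.smooth i).fderiv_right (m := ∞) (by simp))
      · exact EB_clm hℓ (EB_fderiv hf) (p • ContinuousLinearMap.id ℝ (E →L[ℝ] ℝ))
    have h2 : ∀ i, fderiv ℝ (fun y => f i y ^ p) =
        fun y => f i y ^ (p - 1) • (p • fderiv ℝ (f i) y) := by
      intro i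
      funext y
      have h3 : HasFDerivAt (f i) (fderiv ℝ (f i) y) y :=
        ((hf.smooth i).differentiable (by simp)).differentiableAt.hasFDerivAt
      rw [(h3.rpow_const (p := p) (Or.inl (h0 i y).ne')).fderiv, smul_smul, mul_comm]
    obtain ⟨A, hA, hA'⟩ := h1
    refine ⟨max A D, hA.trans (le_max_left _ _), fun j hj i => ?_⟩
    have hm : ∀ c : ℝ, 0 ≤ c → c ≤ max A D →
        c * Real.exp (c * ℓ i) ≤ max A D * Real.exp (max A D * ℓ i) := fun c hc hcc =>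
      mul_le_mul hcc (Real.exp_le_exp.2 (mul_le_mul_of_nonneg_right hcc (hℓ i)))
        (Real.exp_pos _).le (hc.trans hcc)
    cases j with
    | zero =>
      rw [norm_iteratedFDeriv_zero]
      exact (hD' i).trans (hm D hD (le_max_right _ _))
    | succ j =>
      rw [← norm_iteratedFDeriv_fderiv, h2]
      exact (hA' j (by omega) i).trans (hm A hA (le_max_left _ _))

private theorem JB3_main (hℓ : ∀ i, 0 ≤ ℓ i) {f : ι → E → ℝ} (hf : EB ℓ f x)
    (h0 : ∀ i y, 0 < f i y) {C : ℝ} (hC : ∀ i, |f i (x i)|⁻¹ ≤ C * Real.exp (C * ℓ i)) (p : ℝ) :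
    EB ℓ (fun i y => f i y ^ p) x := by
  refine ⟨fun i => (hf.smooth i).rpow_const_of_ne fun y => (h0 i y).ne', fun k => ?_⟩
  obtain ⟨A, -, hA⟩ := JB3_rpow hℓ hf h0 hC k p
  exact ⟨A, fun i => hA k le_rfl i⟩

theorem EB_inv (hℓ : ∀ i, 0 ≤ ℓ i) {f : ι → E → ℝ} (hf : EB ℓ f x) (h0 : ∀ i y, f i y ≠ 0)
    {C : ℝ} (hC : ∀ i, |f i (x i)|⁻¹ ≤ C * Real.exp (C * ℓ i)) :
    EB ℓ (fun i y => (f i y)⁻¹) x := by
  have h1 : EB ℓ (fun i y => f i y * f i y) x := EB_mul hℓ hf hf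
  have h2 : ∀ i y, 0 < f i y * f i y := fun i y => mul_self_pos.2 (h0 i y)
  have h3 : ∀ i, |f i (x i) * f i (x i)|⁻¹ ≤
      (C * C + (|C| + |C|)) * Real.exp ((C * C + (|C| + |C|)) * ℓ i) := by
    intro i
    rw [abs_mul, mul_inv]
    have h4 := hC i
    have h5 : 0 ≤ |f i (x i)|⁻¹ := inv_nonneg.2 (abs_nonneg _)
    have h6 := mul_le_mul h4 h4 h5 (h5.trans h4)
    refine h6.trans ?_
    have h7 : C * Real.exp (C * ℓ i) * (C * Real.exp (C * ℓ i)) =
        C * C * Real.exp ((C + C) * ℓ i) := by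
      rw [add_mul, Real.exp_add]
      ring
    rw [h7]
    have h8 : Real.exp ((C + C) * ℓ i) ≤ Real.exp ((|C| + |C|) * ℓ i) :=
      Real.exp_le_exp.2 (mul_le_mul_of_nonneg_right
        (add_le_add (le_abs_self C) (le_abs_self C)) (hℓ i))
    exact (mul_le_mul_of_nonneg_left h8 (mul_self_nonneg C)).trans
      (JB3_exp (mul_self_nonneg C) (by positivity) (hℓ i))
  have h4 := EB_mul hℓ hf (JB3_main hℓ h1 h2 h3 (-1))
  have h5 : (fun i y => f i y * (f i y * f i y) ^ (-1 : ℝ)) = fun i y => (f i y)⁻¹ := by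
    funext i y
    rw [Real.rpow_neg_one, mul_inv, ← mul_assoc, mul_inv_cancel₀ (h0 i y), one_mul]
  rw [h5] at h4
  exact h4

theorem EB_rpow (hℓ : ∀ i, 0 ≤ ℓ i) {f : ι → E → ℝ} (hf : EB ℓ f x) (h0 : ∀ i y, 0 < f i y)
    {C : ℝ} (hC : ∀ i, |f i (x i)|⁻¹ ≤ C * Real.exp (C * ℓ i)) (p : ℝ) :
    EB ℓ (fun i y => f i y ^ p) x :=
  JB3_main hℓ hf h0 hC p

end BR
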