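import Pool.Agent.LibBR70.JB_Defs

/-! Row JB5 (only Mathlib): the derivatives of a composition of `n` maps out of a bounded family
are at most exponential in `n`.
Plan. Fix `k`; let `C₀ ≥ 1` bound all derivatives of orders `≤ k` of all `S j` at all points of `P`,
`A = k! * C₀ ≥ 1`. Induction on the list from the right (`List.reverseRecOn`): claim: for
`F_l y = l.foldl (fun y j => S j y) y` and every `i` with `1 ≤ i ≤ k`: `‖D^i F_l (x)‖ ≤ (A ^ (length l)) ^ i`.
Empty list: `F = id`, first derivative has norm `≤ 1`, higher ones are `0`. Step: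
`F_(l ++ [j]) = S j ∘ F_l`, `F_l x ∈ P`, `norm_iteratedFDeriv_comp_le` of order `i ≤ k` with `C = C₀`,
`D = A ^ length l` gives `i! C₀ D ^ i ≤ A D ^ i ≤ (A D) ^ i`. Order `0`: `‖F_l x‖` is bounded when the
list is nonempty: it is `S j (y)` with `y ∈ P` (bound of order `0` of the family), and for the
empty list it is `‖x‖`, which is bounded by the hypothesis `hx`. -/

open Set Filter Topology
open scoped ContDiff

namespace BR

variable {E J : Type} [NormedAddCommGroup E] [NormedSpace ℝ E]

theorem JB5_id (x : E) (i : ℕ) (hi : 1 ≤ i) : ‖iteratedFDeriv ℝ i (fun y : E => y) x‖ ≤ 1 := by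
  obtain ⟨n, rfl⟩ : ∃ n, i = n + 1 := ⟨i - 1, by omega⟩
  rw [← norm_iteratedFDeriv_fderiv]
  have h1 : fderiv ℝ (fun y : E => y) = fun _ => ContinuousLinearMap.id ℝ E := by
    funext y
    exact fderiv_fun_id
  rw [h1]
  rcases Nat.eq_zero_or_pos n with hn | hn
  · subst hn
    rw [norm_iteratedFDeriv_zero]
    exact ContinuousLinearMap.norm_id_le
  · rw [iteratedFDeriv_const_of_ne hn.ne']
    simp

theorem JB5_smooth {S : J → E → E} (hS : ∀ j, ContDiff ℝ ∞ (S j)) (l : List J) :
    ContDiff ℝ ∞ (fun y => l.foldl (fun y j => S j y) y) := by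
  induction l using List.reverseRecOn with
  | nil => exact contDiff_id
  | append_singleton l j ih =>
    simp only [List.foldl_append, List.foldl_cons, List.foldl_nil]
    exact (hS j).comp ih

theorem JB5_pos {S : J → E → E} (hS : ∀ j, ContDiff ℝ ∞ (S j)) {P : Set E} (k : ℕ) {C₀ : ℝ}
    (hC₀ : 1 ≤ C₀) (hC : ∀ i ≤ k, ∀ j, ∀ x ∈ P, ‖iteratedFDeriv ℝ i (S j) x‖ ≤ C₀)
    (x : E) (l : List J)
    (hl : ∀ n < l.length, (l.take n).foldl (fun y j => S j y) x ∈ P) :
    ∀ i, 1 ≤ i → i ≤ k → ‖iteratedFDeriv ℝ i (fun y => l.foldl (fun y j => S j y) y) x‖ ≤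
      (((k.factorial : ℝ) * C₀) ^ l.length) ^ i := by
  have hf1 : (1 : ℝ) ≤ (k.factorial : ℝ) := by exact_mod_cast k.factorial_pos
  have hA : 1 ≤ (k.factorial : ℝ) * C₀ := by nlinarith
  induction l using List.reverseRecOn with
  | nil =>
    intro i hi _
    simp only [List.foldl_nil, List.length_nil, pow_zero, one_pow]
    exact JB5_id x i hi
  | append_singleton l j ih =>
    intro i hi hik
    have hl' : ∀ n < l.length, (l.take n).foldl (fun y j => S j y) x ∈ P := by
      intro n hn
      have h1 := hl n (by rw [List.length_append]; omega)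
      rwa [List.take_append_of_le_length hn.le] at h1
    have hx : l.foldl (fun y j => S j y) x ∈ P := by
      have h1 := hl l.length (by rw [List.length_append, List.length_singleton]; omega)
      rwa [List.take_append_of_le_length le_rfl, List.take_length] at h1
    have ih' := ih hl'
    have hfun : (fun y => (l ++ [j]).foldl (fun y j => S j y) y) =
        S j ∘ (fun y => l.foldl (fun y j => S j y) y) := by
      funext y
      simp only [List.foldl_append, List.foldl_cons, List.foldl_nil, Function.comp]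
    have hD1 : 1 ≤ ((k.factorial : ℝ) * C₀) ^ l.length := one_le_pow₀ hA
    have h2 := norm_iteratedFDeriv_comp_le (hS j) (JB5_smooth hS l)
      (n := i) (by exact_mod_cast le_top) x (C := C₀)
      (D := ((k.factorial : ℝ) * C₀) ^ l.length)
      (fun a ha => hC a (ha.trans hik) j _ hx) (fun a ha ha' => ih' a ha (ha'.trans hik))
    rw [hfun]
    refine h2.trans ?_
    rw [List.length_append, List.length_singleton, pow_succ,
      mul_pow (((k.factorial : ℝ) * C₀) ^ l.length)]
    have h3 : (i.factorial : ℝ) ≤ (k.factorial : ℝ) := by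
      exact_mod_cast Nat.factorial_le hik
    have h4 : (i.factorial : ℝ) * C₀ ≤ (k.factorial : ℝ) * C₀ :=
      mul_le_mul_of_nonneg_right h3 (by linarith)
    have h5 : (k.factorial : ℝ) * C₀ ≤ ((k.factorial : ℝ) * C₀) ^ i :=
      le_self_pow₀ hA (by omega)
    rw [mul_comm ((((k.factorial : ℝ) * C₀) ^ l.length) ^ i)]
    exact mul_le_mul_of_nonneg_right (h4.trans h5) (by positivity)

theorem JB_iter {S : J → E → E} (hS : ∀ j, ContDiff ℝ ∞ (S j)) {P : Set E}
    (hP : ∀ k : ℕ, ∃ C : ℝ, ∀ j, ∀ x ∈ P, ‖iteratedFDeriv ℝ k (S j) x‖ ≤ C)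
    (hb : Bornology.IsBounded P) (k : ℕ) :
    ∃ C : ℝ, ∀ (l : List J) (x : E), x ∈ P →
      (∀ n < l.length, (l.take n).foldl (fun y j => S j y) x ∈ P) →
      ‖iteratedFDeriv ℝ k (fun y => l.foldl (fun y j => S j y) y) x‖ ≤
        C * Real.exp (C * l.length) := by
  choose c hc using hP
  obtain ⟨R, hR⟩ := hb.exists_norm_le
  set C₀ : ℝ := 1 + ∑ i ∈ Finset.range (k + 1), |c i| with hC₀d
  have hsum : 0 ≤ ∑ i ∈ Finset.range (k + 1), |c i| := Finset.sum_nonneg fun i _ => abs_nonneg _
  have hC₀ : 1 ≤ C₀ := by linarith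
  have hC : ∀ i ≤ k, ∀ j, ∀ x ∈ P, ‖iteratedFDeriv ℝ i (S j) x‖ ≤ C₀ := by
    intro i hi j x hx
    have h1 : |c i| ≤ ∑ i ∈ Finset.range (k + 1), |c i| :=
      Finset.single_le_sum (f := fun i => |c i|) (fun i _ => abs_nonneg _)
        (Finset.mem_range.2 (by omega))
    have h2 := hc i j x hx
    have h3 := le_abs_self (c i)
    linarith
  have hf1 : (1 : ℝ) ≤ (k.factorial : ℝ) := by exact_mod_cast k.factorial_pos
  have hA : 1 ≤ (k.factorial : ℝ) * C₀ := by nlinarith
  have hlogA : 0 ≤ Real.log ((k.factorial : ℝ) * C₀) := Real.log_nonneg hA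
  have hklog : 0 ≤ k * Real.log ((k.factorial : ℝ) * C₀) := by positivity
  set C : ℝ := |R| + C₀ + k * Real.log ((k.factorial : ℝ) * C₀) with hCd
  have hR0 := abs_nonneg R
  have hC1 : 1 ≤ C := by linarith
  refine ⟨C, fun l x hx hl => ?_⟩
  have hexp : 1 ≤ Real.exp (C * l.length) := Real.one_le_exp (by positivity)
  have hCe : C ≤ C * Real.exp (C * l.length) := le_mul_of_one_le_right (by linarith) hexp
  rcases Nat.eq_zero_or_pos k with hk | hk
  · refine le_trans ?_ hCe
    have h0 : ‖iteratedFDeriv ℝ k (fun y => l.foldl (fun y j => S j y) y) x‖ =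
        ‖l.foldl (fun y j => S j y) x‖ := by
      rw [hk, norm_iteratedFDeriv_zero]
    rw [h0]
    rcases List.eq_nil_or_concat l with h1 | ⟨l', j, h1⟩
    · rw [h1, List.foldl_nil]
      have h2 := hR x hx
      have h3 := le_abs_self R
      linarith
    · rw [List.concat_eq_append] at h1
      rw [h1] at hl ⊢
      have hx' : l'.foldl (fun y j => S j y) x ∈ P := by
        have h2 := hl l'.length (by rw [List.length_append, List.length_singleton]; omega)
        rwa [List.take_append_of_le_length le_rfl, List.take_length] at h2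
      have h3 := hC 0 (by omega) j _ hx'
      rw [norm_iteratedFDeriv_zero] at h3
      simp only [List.foldl_append, List.foldl_cons, List.foldl_nil]
      linarith
  · have h1 := JB5_pos hS k hC₀ hC x l hl k hk le_rfl
    refine h1.trans ?_
    have h2 : (((k.factorial : ℝ) * C₀) ^ l.length) ^ k =
        Real.exp ((k * Real.log ((k.factorial : ℝ) * C₀)) * l.length) := by
      rw [← Real.exp_log (show 0 < (k.factorial : ℝ) * C₀ by linarith), ← Real.exp_nat_mul,
        ← Real.exp_nat_mul, Real.log_exp]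
      congr 1
      ring
    rw [h2]
    have h3 : Real.exp ((k * Real.log ((k.factorial : ℝ) * C₀)) * l.length) ≤
        Real.exp (C * l.length) := by
      apply Real.exp_le_exp.2
      apply mul_le_mul_of_nonneg_right _ (Nat.cast_nonneg _)
      linarith
    exact h3.trans (le_mul_of_one_le_left (Real.exp_pos _).le hC1)

end BR
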