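import Pool.Agent.LibBR70.H1l
import Pool.Agent.LibBR70.JB3
import Pool.Agent.LibBR70.JB4
import Pool.Agent.LibBR70.JB5

/-! Row H1m: all derivatives of the exponential map have exponential growth, after moving the end
point back to `D`. -/

open MeasureTheory Set Filter Topology
open scoped ContDiff

namespace BR

open BGS

variable {Γ : Type} [Group Γ] [MulAction Γ Pl] {D : Set Pl}

/-- The action on the tangent bundle in the frames. -/
noncomputable def H1m_A (m : Pl → Co) (γ : Γ) (p : Pl × Pl) : Pl × Pl :=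
  (γ • p.1, Rg m γ p.1 p.2)

theorem H1m_A_smooth (hX : Surface Γ D) {m : Pl → Co} (hm : HM Γ m) (γ : Γ) :
    ContDiff ℝ ∞ (H1m_A m γ) :=
  ((hX.smooth γ).comp contDiff_fst).prodMk (Rg_smooth hX hm γ)

theorem H1m_A_mul (hX : Surface Γ D) {m : Pl → Co} (hm : HM Γ m) (γ δ : Γ) (p : Pl × Pl) :
    H1m_A m (γ * δ) p = H1m_A m γ (H1m_A m δ p) := by
  change ((γ * δ) • p.1, Rg m (γ * δ) p.1 p.2) = (γ • δ • p.1, Rg m γ (δ • p.1) (Rg m δ p.1 p.2))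
  rw [mul_smul, Rg_mul hX hm]

theorem H1m_A_one {m : Pl → Co} (hm : HM Γ m) (p : Pl × Pl) : H1m_A m (1 : Γ) p = p := by
  have h : (fun w : Pl => (1 : Γ) • w) = id := funext fun w => one_smul _ w
  change ((1 : Γ) • p.1, ifr (m ((1 : Γ) • p.1))
    (fderiv ℝ (fun w : Pl => (1 : Γ) • w) p.1 (fr (m p.1) p.2))) = p
  rw [h, fderiv_id, one_smul]
  change (p.1, ifr (m p.1) (fr (m p.1) p.2)) = p
  rw [ifr_fr (hm.pos p.1).1 (hm.pos p.1).2]

theorem H1m_deck (hX : Surface Γ D) (hO : Ori Γ) {m : Pl → Co} (hm : HM Γ m) (γ : Γ) (t : ℝ)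
    (p : Pl × Pl) : gfl m t (H1m_A m γ p) = H1m_A m γ (gfl m t p) :=
  gfl_deck hX hO hm γ t p.1 p.2

theorem H1m_eu (hX : Surface Γ D) {m : Pl → Co} (hm : HM Γ m) (γ : Γ) (x v : Pl) :
    eu (Rg m γ x v) = eu v := by
  have h1 := Rg_ip hX hm γ x v v
  unfold ip at h1
  unfold eu
  rw [show (Rg m γ x v).1 ^ 2 + (Rg m γ x v).2 ^ 2 = v.1 ^ 2 + v.2 ^ 2 by nlinarith [h1]]

theorem H1m_norm_le (v : Pl) : ‖v‖ ≤ eu v := by
  unfold eu
  rw [Prod.norm_def]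
  refine max_le ?_ ?_
  · apply Real.le_sqrt_of_sq_le
    rw [Real.norm_eq_abs, sq_abs]
    nlinarith [sq_nonneg v.2]
  · apply Real.le_sqrt_of_sq_le
    rw [Real.norm_eq_abs, sq_abs]
    nlinarith [sq_nonneg v.1]

theorem H1m_eu_le (v : Pl) : eu v ≤ 2 * ‖v‖ := by
  have h1 : |v.1| ≤ ‖v‖ := norm_fst_le v
  have h2 : |v.2| ≤ ‖v‖ := norm_snd_le v
  have h0 : 0 ≤ ‖v‖ := norm_nonneg v
  unfold eu
  rw [Real.sqrt_le_left (by positivity)]
  have h3 : v.1 ^ 2 ≤ ‖v‖ ^ 2 := by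
    rw [← sq_abs v.1]
    exact pow_le_pow_left₀ (abs_nonneg _) h1 2
  have h4 : v.2 ^ 2 ≤ ‖v‖ ^ 2 := by
    rw [← sq_abs v.2]
    exact pow_le_pow_left₀ (abs_nonneg _) h2 2
  nlinarith [sq_nonneg ‖v‖]

theorem H1m_eu_smul (c : ℝ) (v : Pl) : eu (c • v) = |c| * eu v := by
  unfold eu
  rw [show (c • v).1 ^ 2 + (c • v).2 ^ 2 = c ^ 2 * (v.1 ^ 2 + v.2 ^ 2) by
    change (c * v.1) ^ 2 + (c * v.2) ^ 2 = _
    ring]
  rw [Real.sqrt_mul (sq_nonneg c), Real.sqrt_sq_eq_abs]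

theorem H1m_eu_cont : Continuous eu := by
  unfold eu
  fun_prop

/-- The compact set of tangent vectors of norm at most one over the fundamental domain. -/
def H1m_P (D : Set Pl) : Set (Pl × Pl) := closure D ×ˢ {u : Pl | eu u ≤ 1}

theorem H1m_cD (hX : Surface Γ D) : IsCompact (closure D) := hX.bdd.isCompact_closure

theorem H1m_P_compact (hX : Surface Γ D) : IsCompact (H1m_P D) := by
  refine (H1m_cD hX).prod ?_
  refine Metric.isCompact_of_isClosed_isBounded (isClosed_le H1m_eu_cont continuous_const) ?_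
  refine (Metric.isBounded_closedBall (x := (0 : Pl)) (r := 1)).subset fun u hu => ?_
  rw [mem_closedBall_zero_iff]
  exact (H1m_norm_le u).trans hu

theorem H1m_gfl_smooth (hX : Surface Γ D) {m : Pl → Co} (hm : HM Γ m) (t : ℝ) :
    ContDiff ℝ ∞ (gfl m t) :=
  (gfl_smooth hX hm).comp (contDiff_const.prodMk contDiff_id)

/-- One step. -/
noncomputable def H1m_S (m : Pl → Co) {J : Set Γ} (j : J) (p : Pl × Pl) : Pl × Pl :=
  H1m_A m (j : Γ) (gfl m 1 p)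

theorem H1m_S_smooth (hX : Surface Γ D) {m : Pl → Co} (hm : HM Γ m) {J : Set Γ} (j : J) :
    ContDiff ℝ ∞ (H1m_S m j) :=
  (H1m_A_smooth hX hm (j : Γ)).comp (H1m_gfl_smooth hX hm 1)

theorem H1m_foldl (hX : Surface Γ D) (hO : Ori Γ) {m : Pl → Co} (hm : HM Γ m) {J : Set Γ}
    (l : List J) : ∃ g : Γ, ∀ y, l.foldl (fun y j => H1m_S m j y) y =
      H1m_A m g (gfl m (l.length : ℝ) y) := by
  induction l with
  | nil =>
    refine ⟨1, fun y => ?_⟩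
    rw [H1m_A_one hm, List.foldl_nil, List.length_nil, Nat.cast_zero, (gfl_isFlow hX hm).zero]
  | cons j l ih =>
    obtain ⟨g, hg⟩ := ih
    refine ⟨g * j, fun y => ?_⟩
    rw [List.foldl_cons, hg]
    change H1m_A m g (gfl m (l.length : ℝ) (H1m_A m (j : Γ) (gfl m 1 y))) = _
    rw [H1m_deck hX hO hm, List.length_cons, Nat.cast_add, Nat.cast_one, gfl_add hX hm,
      H1m_A_mul hX hm]

theorem H1m_chain (hX : Surface Γ D) {m : Pl → Co} (hm : HM Γ m) {J : Set Γ}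
    (hJ : ∀ p ∈ H1m_P D, ∀ g : Γ, g • (gfl m 1 p).1 ∈ D → g ∈ J) (n : ℕ) :
    ∀ p ∈ H1m_P D, ∃ l : List J, l.length = n ∧
      ∀ k ≤ n, (l.take k).foldl (fun y j => H1m_S m j y) p ∈ H1m_P D := by
  induction n with
  | zero =>
    intro p hp
    refine ⟨[], rfl, fun k _ => ?_⟩
    rw [List.take_nil, List.foldl_nil]
    exact hp
  | succ n ih =>
    intro p hp
    obtain ⟨g, hg, -⟩ := hX.orbit (gfl m 1 p).1
    have hgJ : g ∈ J := hJ p hp g hg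
    have h1 : H1m_S m (⟨g, hgJ⟩ : J) p ∈ H1m_P D := by
      refine ⟨subset_closure hg, ?_⟩
      change eu (Rg m g (gfl m 1 p).1 (gfl m 1 p).2) ≤ 1
      rw [H1m_eu hX hm, gfl_eu hX hm]
      exact hp.2
    obtain ⟨l, hl, hl'⟩ := ih _ h1
    refine ⟨⟨g, hgJ⟩ :: l, by rw [List.length_cons, hl], fun k hk => ?_⟩
    cases k with
    | zero =>
      rw [List.take_zero, List.foldl_nil]
      exact hp
    | succ k =>
      rw [List.take_succ_cons, List.foldl_cons]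
      exact hl' k (by omega)

section EBs

variable {ι : Type} {ℓ : ι → ℝ} {x : ι → Pl × Pl}

theorem H1m_scale (hℓ : ∀ i, 0 ≤ ℓ i) {f : ι → Pl × Pl → Pl × Pl} (hf : EB ℓ f x) {c : ι → ℝ}
    {C : ℝ} (hc : ∀ i, |c i| ≤ C * Real.exp (C * ℓ i)) :
    EB ℓ (fun i y => ((f i y).1, c i • (f i y).2)) x :=
  EB_prod hℓ (EB_clm hℓ hf (ContinuousLinearMap.fst ℝ Pl Pl))
    (EB_smul hℓ (EB_const hℓ hc) (EB_clm hℓ hf (ContinuousLinearMap.snd ℝ Pl Pl)))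

end EBs

theorem H1m_lin {a ℓ : ℝ} (ha : 1 ≤ a) (hℓ : 0 ≤ ℓ) : a + a * ℓ ≤ a * Real.exp (a * ℓ) := by
  have h1 := Real.add_one_le_exp (a * ℓ)
  have h2 : a * ℓ ≤ a * (a * ℓ) := by
    have := mul_nonneg (by linarith : (0 : ℝ) ≤ a) hℓ
    nlinarith
  have h3 : a * (a * ℓ + 1) ≤ a * Real.exp (a * ℓ) :=
    mul_le_mul_of_nonneg_left h1 (by linarith)
  linarith

theorem H1m_exp (C : ℝ) : ∃ C' : ℝ, ∀ n ℓ : ℝ, 0 ≤ ℓ → 0 ≤ n → n ≤ 2 * ℓ + 2 →
    C * Real.exp (C * n) ≤ C' * Real.exp (C' * ℓ) := by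
  set A := max C 0 with hA
  have hA0 : 0 ≤ A := le_max_right _ _
  have hAC : C ≤ A := le_max_left _ _
  refine ⟨A * Real.exp (2 * A) + 2 * A, fun n ℓ hℓ hn h => ?_⟩
  have h1 : C * Real.exp (C * n) ≤ A * Real.exp (A * n) := by
    have h2 : Real.exp (C * n) ≤ Real.exp (A * n) :=
      Real.exp_le_exp.2 (mul_le_mul_of_nonneg_right hAC hn)
    have h3 : C * Real.exp (C * n) ≤ A * Real.exp (C * n) :=
      mul_le_mul_of_nonneg_right hAC (Real.exp_pos _).le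
    exact h3.trans (mul_le_mul_of_nonneg_left h2 hA0)
  have h2 : A * Real.exp (A * n) ≤ A * Real.exp (2 * A) * Real.exp (2 * A * ℓ) := by
    rw [mul_assoc, ← Real.exp_add]
    refine mul_le_mul_of_nonneg_left (Real.exp_le_exp.2 ?_) hA0
    nlinarith
  have h3 : A * Real.exp (2 * A) * Real.exp (2 * A * ℓ) ≤
      (A * Real.exp (2 * A) + 2 * A) * Real.exp ((A * Real.exp (2 * A) + 2 * A) * ℓ) := by
    have h4 : 0 ≤ A * Real.exp (2 * A) := mul_nonneg hA0 (Real.exp_pos _).le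
    refine mul_le_mul (by linarith) (Real.exp_le_exp.2 ?_) (Real.exp_pos _).le (by linarith)
    exact mul_le_mul_of_nonneg_right (by linarith) hℓ
  linarith

theorem H1m_main (hX : Surface Γ D) (hO : Ori Γ) {m : Pl → Co} (hm : HM Γ m) :
    EB (fun i : {q : (Pl × Pl) × Γ // q.1.1 ∈ closure D ∧ q.2⁻¹ • Ex m q.1.1 q.1.2 ∈ closure D} =>
      ‖i.1.1.2‖) (fun i p => H1m_A m i.1.2⁻¹ (gfl m 1 p)) (fun i => i.1.1) := by
  classical
  -- the finite set of steps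
  set K' : Set Pl := closure D ∪ (fun p => (gfl m 1 p).1) '' H1m_P D with hK'
  have hK'c : IsCompact K' := by
    refine (H1m_cD hX).union ((H1m_P_compact hX).image ?_)
    exact continuous_fst.comp (H1m_gfl_smooth hX hm 1).continuous
  set J : Set Γ := {g : Γ | ∃ z ∈ K', g • z ∈ K'} with hJd
  have hJf : Finite J := (hX.proper K' hK'c).to_subtype
  have hJ : ∀ p ∈ H1m_P D, ∀ g : Γ, g • (gfl m 1 p).1 ∈ D → g ∈ J := by
    intro p hp g hg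
    exact ⟨_, Or.inr ⟨p, hp, rfl⟩, Or.inl (subset_closure hg)⟩
  set J' : Set Γ := {g : Γ | ∃ z ∈ closure D, g • z ∈ closure D} with hJ'd
  have hJ'f : Finite J' := (hX.proper (closure D) (H1m_cD hX)).to_subtype
  -- the bounds for one step
  have hPb : ∀ k : ℕ, ∃ C : ℝ, ∀ j : J, ∀ y ∈ H1m_P D, ‖iteratedFDeriv ℝ k (H1m_S m j) y‖ ≤ C := by
    intro k
    have h1 : ∀ j : J, ∃ C : ℝ, ∀ y ∈ H1m_P D, ‖iteratedFDeriv ℝ k (H1m_S m j) y‖ ≤ C := by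
      intro j
      exact (H1m_P_compact hX).exists_bound_of_continuousOn
        ((H1m_S_smooth hX hm j).continuous_iteratedFDeriv (by exact_mod_cast le_top)).continuousOn
    choose C hC using h1
    obtain ⟨M, hM⟩ := (Set.finite_range C).bddAbove
    exact ⟨M, fun j y hy => (hC j y hy).trans (hM ⟨j, rfl⟩)⟩
  -- the choices
  have hch : ∀ i : {q : (Pl × Pl) × Γ //
      q.1.1 ∈ closure D ∧ q.2⁻¹ • Ex m q.1.1 q.1.2 ∈ closure D},
      ∃ (n : ℕ) (l : List J) (δ : J'), 1 ≤ n ∧ (n : ℝ) ≤ 2 * ‖i.1.1.2‖ + 2 ∧ l.length = n ∧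
        (i.1.1.1, (1 / (n : ℝ)) • i.1.1.2) ∈ H1m_P D ∧
        (∀ k ≤ n, (l.take k).foldl (fun y j => H1m_S m j y)
          (i.1.1.1, (1 / (n : ℝ)) • i.1.1.2) ∈ H1m_P D) ∧
        ∀ q, H1m_A m i.1.2⁻¹ (gfl m (n : ℝ) q) =
          H1m_A m (δ : Γ) (l.foldl (fun y j => H1m_S m j y) q) := by
    rintro ⟨⟨⟨x, v⟩, γ⟩, hx, hγ⟩
    have hv0 : 0 ≤ ‖v‖ := norm_nonneg v
    obtain ⟨n, hn⟩ : ∃ n : ℕ, n = ⌊2 * ‖v‖⌋₊ + 1 := ⟨_, rfl⟩
    have hn1 : 1 ≤ n := by omega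
    have hn2 : (n : ℝ) ≤ 2 * ‖v‖ + 2 := by
      have := Nat.floor_le (show 0 ≤ 2 * ‖v‖ by positivity)
      rw [hn]
      push_cast
      linarith
    have hn3 : 2 * ‖v‖ ≤ (n : ℝ) := by
      have := (Nat.lt_floor_add_one (2 * ‖v‖)).le
      rw [hn]
      push_cast
      linarith
    have hnpos : (0 : ℝ) < (n : ℝ) := by exact_mod_cast hn1
    have hxP : ((x, (1 / (n : ℝ)) • v) : Pl × Pl) ∈ H1m_P D := by
      refine ⟨hx, ?_⟩
      change eu ((1 / (n : ℝ)) • v) ≤ 1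
      rw [H1m_eu_smul, abs_of_pos (by positivity), one_div, inv_mul_le_iff₀ hnpos, mul_one]
      exact (H1m_eu_le v).trans hn3
    obtain ⟨l, hl, hl'⟩ := H1m_chain hX hm hJ n _ hxP
    obtain ⟨g, hg⟩ := H1m_foldl hX hO hm l
    have hgq : ∀ q, H1m_A m γ⁻¹ (gfl m (n : ℝ) q) =
        H1m_A m (γ⁻¹ * g⁻¹) (l.foldl (fun y j => H1m_S m j y) q) := by
      intro q
      rw [hg, ← H1m_A_mul hX hm, inv_mul_cancel_right, hl]
    have hEx : (gfl m (n : ℝ) (x, (1 / (n : ℝ)) • v)).1 = Ex m x v := by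
      rw [← Ex_ray hX hm, smul_smul, mul_one_div_cancel hnpos.ne', one_smul]
    have hδ : γ⁻¹ * g⁻¹ ∈ J' := by
      refine ⟨(l.foldl (fun y j => H1m_S m j y) (x, (1 / (n : ℝ)) • v)).1, ?_, ?_⟩
      · have h2 := hl' n le_rfl
        rw [← hl, List.take_length, hl] at h2
        exact h2.1
      · have h2 := congrArg Prod.fst (hgq (x, (1 / (n : ℝ)) • v))
        change γ⁻¹ • (gfl m (n : ℝ) (x, (1 / (n : ℝ)) • v)).1 = (γ⁻¹ * g⁻¹) •
          (l.foldl (fun y j => H1m_S m j y) (x, (1 / (n : ℝ)) • v)).1 at h2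
        rw [← h2, hEx]
        exact hγ
    exact ⟨n, l, ⟨_, hδ⟩, hn1, hn2, hl, hxP, hl', hgq⟩
  choose n l δ hn1 hn2 hlen hxP hlP heq using hch
  -- bounds
  have hℓ : ∀ i : {q : (Pl × Pl) × Γ //
      q.1.1 ∈ closure D ∧ q.2⁻¹ • Ex m q.1.1 q.1.2 ∈ closure D}, 0 ≤ ‖i.1.1.2‖ :=
    fun i => norm_nonneg _
  obtain ⟨B, hB⟩ := (H1m_cD hX).exists_bound_of_continuousOn (f := id) continuous_id.continuousOn
  have hx : ∀ i : {q : (Pl × Pl) × Γ //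
      q.1.1 ∈ closure D ∧ q.2⁻¹ • Ex m q.1.1 q.1.2 ∈ closure D},
      ‖i.1.1‖ ≤ (|B| + 1) * Real.exp ((|B| + 1) * ‖i.1.1.2‖) := by
    intro i
    have h1 : ‖i.1.1.1‖ ≤ B := hB _ i.2.1
    have h2 := H1m_lin (a := |B| + 1) (by linarith [abs_nonneg B]) (hℓ i)
    have h3 := le_abs_self B
    have h4 : 0 ≤ |B| * ‖i.1.1.2‖ := mul_nonneg (abs_nonneg B) (hℓ i)
    have h5 := abs_nonneg B
    rw [Prod.norm_def]
    refine max_le ?_ ?_
    · nlinarith [hℓ i]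
    · nlinarith [hℓ i]
  have hid := EB_id hℓ hx
  have hc1 : ∀ i : {q : (Pl × Pl) × Γ //
      q.1.1 ∈ closure D ∧ q.2⁻¹ • Ex m q.1.1 q.1.2 ∈ closure D},
      |1 / (n i : ℝ)| ≤ 1 * Real.exp (1 * ‖i.1.1.2‖) := by
    intro i
    have h1 : (1 : ℝ) ≤ (n i : ℝ) := by exact_mod_cast hn1 i
    have h2 : |1 / (n i : ℝ)| ≤ 1 := by
      rw [abs_of_pos (by positivity), div_le_one (by linarith)]
      exact h1
    have h3 : 1 ≤ Real.exp (1 * ‖i.1.1.2‖) := Real.one_le_exp (by linarith [hℓ i])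
    linarith
  have hc2 : ∀ i : {q : (Pl × Pl) × Γ //
      q.1.1 ∈ closure D ∧ q.2⁻¹ • Ex m q.1.1 q.1.2 ∈ closure D},
      |(n i : ℝ)| ≤ 2 * Real.exp (2 * ‖i.1.1.2‖) := by
    intro i
    have h2 := H1m_lin (a := 2) (by norm_num) (hℓ i)
    rw [abs_of_nonneg (Nat.cast_nonneg _)]
    linarith [hn2 i]
  have f1 := H1m_scale hℓ hid hc1
  have f2 : EB (fun i : {q : (Pl × Pl) × Γ //
      q.1.1 ∈ closure D ∧ q.2⁻¹ • Ex m q.1.1 q.1.2 ∈ closure D} => ‖i.1.1.2‖)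
      (fun i y => (l i).foldl (fun y j => H1m_S m j y) y)
      (fun i => (i.1.1.1, (1 / (n i : ℝ)) • i.1.1.2)) := by
    refine ⟨fun i => ?_, fun k => ?_⟩
    · obtain ⟨g, hg⟩ := H1m_foldl hX hO hm (l i)
      rw [funext hg]
      exact (H1m_A_smooth hX hm g).comp (H1m_gfl_smooth hX hm _)
    · obtain ⟨C, hC⟩ := JB_iter (fun j : J => H1m_S_smooth hX hm j) hPb
        (H1m_P_compact hX).isBounded k
      obtain ⟨C', hC'⟩ := H1m_exp C
      refine ⟨C', fun i => ?_⟩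
      refine (hC (l i) _ (hxP i) (fun k hk => hlP i k (by
        rw [hlen i] at hk
        exact hk.le))).trans ?_
      rw [hlen i]
      exact hC' _ _ (hℓ i) (Nat.cast_nonneg _) (hn2 i)
  have f21 := EB_comp (f := fun i y => (y.1, (1 / (n i : ℝ)) • y.2)) (x := fun i => i.1.1) hℓ f2 f1
  have f3 : EB (fun i : {q : (Pl × Pl) × Γ //
      q.1.1 ∈ closure D ∧ q.2⁻¹ • Ex m q.1.1 q.1.2 ∈ closure D} => ‖i.1.1.2‖)
      (fun i => H1m_A m ((δ i : J') : Γ))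
      (fun i => (l i).foldl (fun y j => H1m_S m j y)
        ((i.1.1.1, (1 / (n i : ℝ)) • i.1.1.2) : Pl × Pl)) := by
    refine EB_finite hℓ (g := fun d : J' => H1m_A m (d : Γ))
      (fun d => H1m_A_smooth hX hm (d : Γ)) (H1m_P_compact hX) (fun i => ?_) δ
    have h2 := hlP i (n i) le_rfl
    rw [← hlen i, List.take_length, hlen i] at h2
    exact h2
  have f321 := EB_comp (g := fun i => H1m_A m ((δ i : J') : Γ))
    (f := fun i y => (l i).foldl (fun y j => H1m_S m j y)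
      ((y.1, (1 / (n i : ℝ)) • y.2) : Pl × Pl)) (x := fun i => i.1.1) hℓ f3 f21
  have f4 := H1m_scale hℓ f321 hc2
  have hfun : (fun (i : {q : (Pl × Pl) × Γ //
      q.1.1 ∈ closure D ∧ q.2⁻¹ • Ex m q.1.1 q.1.2 ∈ closure D}) (p : Pl × Pl) =>
        H1m_A m i.1.2⁻¹ (gfl m 1 p)) = fun i y =>
      ((H1m_A m ((δ i : J') : Γ) ((l i).foldl (fun y j => H1m_S m j y)
        (y.1, (1 / (n i : ℝ)) • y.2))).1, (n i : ℝ) •
        (H1m_A m ((δ i : J') : Γ) ((l i).foldl (fun y j => H1m_S m j y)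
        (y.1, (1 / (n i : ℝ)) • y.2))).2) := by
    funext i y
    have hnpos : (0 : ℝ) < (n i : ℝ) := by exact_mod_cast hn1 i
    rw [← heq i]
    have h1 := gfl_homog hX hm (n i : ℝ) 1 y.1 ((1 / (n i : ℝ)) • y.2)
    rw [smul_smul, mul_one_div_cancel hnpos.ne', one_smul, mul_one] at h1
    have h2 : gfl m 1 y = ((gfl m (n i : ℝ) (y.1, (1 / (n i : ℝ)) • y.2)).1,
        (n i : ℝ) • (gfl m (n i : ℝ) (y.1, (1 / (n i : ℝ)) • y.2)).2) := h1
    rw [h2]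
    change (i.1.2⁻¹ • (gfl m (n i : ℝ) (y.1, (1 / (n i : ℝ)) • y.2)).1,
      Rg m i.1.2⁻¹ (gfl m (n i : ℝ) (y.1, (1 / (n i : ℝ)) • y.2)).1
        ((n i : ℝ) • (gfl m (n i : ℝ) (y.1, (1 / (n i : ℝ)) • y.2)).2)) = _
    rw [Rg_smul hX hm]
    rfl
  rw [hfun]
  exact f4

theorem EB_Ex (hX : Surface Γ D) (hO : Ori Γ) {m : Pl → Co} (hm : HM Γ m) :
    EB (fun i : {q : (Pl × Pl) × Γ // q.1.1 ∈ closure D ∧ q.2⁻¹ • Ex m q.1.1 q.1.2 ∈ closure D} =>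
      ‖i.1.1.2‖) (fun i p => i.1.2⁻¹ • Ex m p.1 p.2) (fun i => i.1.1) :=
  EB_clm (fun _ => norm_nonneg _) (H1m_main hX hO hm) (ContinuousLinearMap.fst ℝ Pl Pl)

/-- The same for the whole flow. -/
theorem EB_gfl (hX : Surface Γ D) (hO : Ori Γ) {m : Pl → Co} (hm : HM Γ m) :
    EB (fun i : {q : (Pl × Pl) × Γ // q.1.1 ∈ closure D ∧ q.2⁻¹ • Ex m q.1.1 q.1.2 ∈ closure D} =>
      ‖i.1.1.2‖) (fun i p => Rg m i.1.2⁻¹ (gfl m 1 p).1 (gfl m 1 p).2) (fun i => i.1.1) :=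
  EB_clm (fun _ => norm_nonneg _) (H1m_main hX hO hm) (ContinuousLinearMap.snd ℝ Pl Pl)

end BR
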