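import Pool.Agent.LibBR70.FL_Defs

/-! Row FL2 (only Mathlib): local existence, uniform on balls.
Plan. For every `x` in the compact `closedBall 0 B` Mathlib's Picard-Lindelof for `C^1` fields
(`ContDiffAt.exists_forall_mem_closedBall_exists_eq_forall_mem_Ioo_hasDerivAt₀` in
`Mathlib/Analysis/ODE/ExistUnique.lean`) gives `r > 0`, `ε > 0` that work for all initial points in
`closedBall x r`; take a finite subcover and the least `ε`. -/

open Set Filter Topology
open scoped ContDiff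

namespace BR

variable {E : Type} [NormedAddCommGroup E] [NormedSpace ℝ E] [FiniteDimensional ℝ E]

theorem FL_local {f : E → E} (hf : ContDiff ℝ 1 f) (B : ℝ) :
    ∃ ε > 0, ∀ x : E, ‖x‖ ≤ B →
      ∃ c : ℝ → E, c 0 = x ∧ ∀ t ∈ Ioo (-ε) ε, HasDerivAt c (f (c t)) t := by
  have : CompleteSpace E := FiniteDimensional.complete ℝ E
  have : ProperSpace E := FiniteDimensional.proper ℝ E
  have hK : IsCompact (Metric.closedBall (0 : E) B) := isCompact_closedBall 0 B
  have key : ∃ ε > 0, ∀ x ∈ Metric.closedBall (0 : E) B,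
      ∃ c : ℝ → E, c 0 = x ∧ ∀ t ∈ Ioo (-ε) ε, HasDerivAt c (f (c t)) t := by
    refine hK.induction_on (p := fun s => ∃ ε > 0, ∀ x ∈ s,
      ∃ c : ℝ → E, c 0 = x ∧ ∀ t ∈ Ioo (-ε) ε, HasDerivAt c (f (c t)) t) ?_ ?_ ?_ ?_
    · exact ⟨1, one_pos, fun x hx => hx.elim⟩
    · rintro s t hst ⟨ε, hε, h⟩
      exact ⟨ε, hε, fun x hx => h x (hst hx)⟩
    · rintro s t ⟨ε, hε, h⟩ ⟨ε', hε', h'⟩
      refine ⟨min ε ε', lt_min hε hε', fun x hx => ?_⟩
      have hs : Ioo (-(min ε ε')) (min ε ε') ⊆ Ioo (-ε) ε :=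
        Ioo_subset_Ioo (neg_le_neg (min_le_left _ _)) (min_le_left _ _)
      have ht : Ioo (-(min ε ε')) (min ε ε') ⊆ Ioo (-ε') ε' :=
        Ioo_subset_Ioo (neg_le_neg (min_le_right _ _)) (min_le_right _ _)
      rcases hx with hx | hx
      · obtain ⟨c, hc0, hc⟩ := h x hx
        exact ⟨c, hc0, fun t h1 => hc t (hs h1)⟩
      · obtain ⟨c, hc0, hc⟩ := h' x hx
        exact ⟨c, hc0, fun t h1 => hc t (ht h1)⟩
    · intro x _
      obtain ⟨r, hr, ε, hε, H⟩ :=
        ContDiffAt.exists_forall_mem_closedBall_exists_eq_forall_mem_Ioo_hasDerivAt (f := f) (x₀ := x)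
          hf.contDiffAt (0 : ℝ)
      refine ⟨Metric.closedBall x r, mem_nhdsWithin_of_mem_nhds (Metric.closedBall_mem_nhds x hr), ε, hε, ?_⟩
      intro y hy
      obtain ⟨c, hc0, hc⟩ := H y hy
      refine ⟨c, hc0, fun t ht => ?_⟩
      have := hc t (by simpa using ht)
      exact this
  obtain ⟨ε, hε, h⟩ := key
  exact ⟨ε, hε, fun x hx => h x (by simpa using hx)⟩

end BR
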