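import Pool.Agent.LibBR70.FL1
import Pool.Agent.LibBR70.FL2

/-! Row FL3 (cite FL1, FL2): a vector field all of whose solutions are bounded on bounded times is
complete.
Plan. Fix `x`. Claim: for every `R > 0` there is `c` with `c 0 = x` and
`∀ t ∈ Ioo (-R) R, HasDerivAt c (f (c t)) t`. Take `B` from `hb x R` and `ε` from `FL_local` for `B`.
Prove by induction on `n` that a solution exists on `Ioo (-T) T` with `T = min R ((n + 1) * ε / 2)`:
given a solution `c` on `Ioo (-T) T`, `T < R`, put `T' = min R (T + ε / 2)`, `t1 = T - ε / 4` (or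
`T / 2` close enough to `T`), `c t1` has norm `<= B` (by `hb`), take the local solution `d` through
`c t1`, glue `c` on `t < t1 + small` with `fun t => d (t - t1)`: on the overlap they agree by
`FL_unique` (translated). Same on the left. Then define `φ t x := c_R t` with `R = |t| + 1`; for
different `R` the solutions agree on the smaller interval by `FL_unique`; derivative: on a
neighbourhood of `t` the function `s ↦ φ s x` equals `c_R` for one `R`. -/

open Set Filter Topology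
open scoped ContDiff

namespace BR

variable {E : Type} [NormedAddCommGroup E] [NormedSpace ℝ E] [FiniteDimensional ℝ E]

theorem FL3_glue {f : E → E} {c d : ℝ → E} {a b a' b' : ℝ}
    (hc : ∀ t ∈ Ioo a b, HasDerivAt c (f (c t)) t)
    (hd : ∀ t ∈ Ioo a' b', HasDerivAt d (f (d t)) t)
    (hab : a' < b) (heq : ∀ t ∈ Ioo a' b, c t = d t) :
    ∃ e : ℝ → E, (∀ t < b, e t = c t) ∧ (∀ t ∈ Ioo a' b', e t = d t) ∧
      ∀ t ∈ Ioo a b', HasDerivAt e (f (e t)) t := by
  classical
  refine ⟨fun t => if t < b then c t else d t, fun t ht => if_pos ht, ?_, ?_⟩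
  · intro t ht
    by_cases h : t < b
    · show (if t < b then c t else d t) = d t
      rw [if_pos h]
      exact heq t ⟨ht.1, h⟩
    · exact if_neg h
  · intro t ht
    by_cases h : t < b
    · have h1 : (fun t => if t < b then c t else d t) =ᶠ[𝓝 t] c := by
        filter_upwards [Iio_mem_nhds h] with s hs
        exact if_pos hs
      have h2 : (if t < b then c t else d t) = c t := if_pos h
      show HasDerivAt _ (f (if t < b then c t else d t)) t
      rw [h2]
      exact (hc t ⟨ht.1, h⟩).congr_of_eventuallyEq h1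
    · have h3 : t ∈ Ioo a' b' := ⟨lt_of_lt_of_le hab (not_lt.1 h), ht.2⟩
      have h1 : (fun t => if t < b then c t else d t) =ᶠ[𝓝 t] d := by
        filter_upwards [Ioo_mem_nhds h3.1 h3.2] with s hs
        by_cases h' : s < b
        · rw [if_pos h']
          exact heq s ⟨hs.1, h'⟩
        · exact if_neg h'
      have h2 : (if t < b then c t else d t) = d t := if_neg h
      show HasDerivAt _ (f (if t < b then c t else d t)) t
      rw [h2]
      exact (hd t h3).congr_of_eventuallyEq h1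

theorem FL3_step {f : E → E} (hf : ContDiff ℝ 1 f) {x : E} {B ε T : ℝ} (hε : 0 < ε)
    (hT : 0 < T)
    (hl : ∀ y : E, ‖y‖ ≤ B →
      ∃ c : ℝ → E, c 0 = y ∧ ∀ t ∈ Ioo (-ε) ε, HasDerivAt c (f (c t)) t)
    {c : ℝ → E} (hc0 : c 0 = x) (hc : ∀ t ∈ Ioo (-T) T, HasDerivAt c (f (c t)) t)
    (hB : ∀ t ∈ Ioo (-T) T, ‖c t‖ ≤ B) :
    ∃ e : ℝ → E, e 0 = x ∧
      ∀ t ∈ Ioo (-(T + ε / 2)) (T + ε / 2), HasDerivAt e (f (e t)) t := by
  obtain ⟨t1, h1, h2, h3⟩ : ∃ t1 : ℝ, 0 < t1 ∧ t1 < T ∧ T - ε / 4 ≤ t1 := by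
    have hm1 : min (T / 2) (ε / 4) ≤ T / 2 := min_le_left _ _
    have hm2 : min (T / 2) (ε / 4) ≤ ε / 4 := min_le_right _ _
    have hm0 : 0 < min (T / 2) (ε / 4) := lt_min (by linarith) (by linarith)
    exact ⟨T - min (T / 2) (ε / 4), by linarith, by linarith, by linarith⟩
  have hm3 : min ε (T + t1) ≤ ε := min_le_left _ _
  have hm4 : min ε (T + t1) ≤ T + t1 := min_le_right _ _
  have hm5 : 0 < min ε (T + t1) := lt_min hε (by linarith)
  obtain ⟨d, hd0, hd⟩ := hl (c t1) (hB t1 ⟨by linarith, h2⟩)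
  have eqR : ∀ s ∈ Ioo (-(min ε (T + t1))) (T - t1), c (s + t1) = d s := by
    refine FL_unique hf (c := fun s => c (s + t1)) (d := d) (by linarith) (by linarith) ?_ ?_ ?_
    · intro s hs
      exact (hc (s + t1) ⟨by linarith [hs.1], by linarith [hs.2]⟩).comp_add_const s t1
    · intro s hs
      exact hd s ⟨by linarith [hs.1], by linarith [hs.2]⟩
    · show c (0 + t1) = d 0
      rw [zero_add, hd0]
  have hD : ∀ t ∈ Ioo (t1 - min ε (T + t1)) (t1 + ε),
      HasDerivAt (fun t => d (t - t1)) (f ((fun t => d (t - t1)) t)) t := by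
    intro t ht
    exact (hd (t - t1) ⟨by linarith [ht.1], by linarith [ht.2]⟩).comp_sub_const t t1
  obtain ⟨e1, he1a, -, he1c⟩ := FL3_glue hc hD (by linarith) (by
    intro t ht
    have := eqR (t - t1) ⟨by linarith [ht.1], by linarith [ht.2]⟩
    rw [sub_add_cancel] at this
    exact this)
  obtain ⟨d', hd'0, hd'⟩ := hl (c (-t1)) (hB (-t1) ⟨by linarith, by linarith⟩)
  have eqL : ∀ s ∈ Ioo (-(T - t1)) ε, e1 (s - t1) = d' s := by
    refine FL_unique hf (c := fun s => e1 (s - t1)) (d := d') (by linarith) hε ?_ ?_ ?_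
    · intro s hs
      exact (he1c (s - t1) ⟨by linarith [hs.1], by linarith [hs.2]⟩).comp_sub_const s t1
    · intro s hs
      exact hd' s ⟨by linarith [hs.1], by linarith [hs.2]⟩
    · show e1 (0 - t1) = d' 0
      rw [zero_sub, he1a _ (by linarith), hd'0]
  have hD' : ∀ t ∈ Ioo (-t1 - ε) (-t1 + ε),
      HasDerivAt (fun t => d' (t + t1)) (f ((fun t => d' (t + t1)) t)) t := by
    intro t ht
    exact (hd' (t + t1) ⟨by linarith [ht.1], by linarith [ht.2]⟩).comp_add_const t t1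
  obtain ⟨e2, -, he2b, he2c⟩ := FL3_glue hD' he1c (by linarith) (by
    intro t ht
    have := eqL (t + t1) ⟨by linarith [ht.1], by linarith [ht.2]⟩
    rw [add_sub_cancel_right] at this
    exact this.symm)
  refine ⟨e2, ?_, fun t ht => he2c t ⟨by linarith [ht.1], by linarith [ht.2]⟩⟩
  rw [he2b 0 ⟨by linarith, by linarith⟩, he1a 0 hT, hc0]

theorem FL_exists {f : E → E} (hf : ContDiff ℝ 1 f)
    (hb : ∀ (x : E) (R : ℝ), 0 < R → ∃ B : ℝ, ∀ (c : ℝ → E) (T : ℝ), 0 < T → T ≤ R → c 0 = x →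
      (∀ t ∈ Ioo (-T) T, HasDerivAt c (f (c t)) t) → ∀ t ∈ Ioo (-T) T, ‖c t‖ ≤ B) :
    ∃ φ : ℝ → E → E, IsFlow f φ := by
  have hex : ∀ (x : E) (R : ℝ), 0 < R →
      ∃ c : ℝ → E, c 0 = x ∧ ∀ t ∈ Ioo (-R) R, HasDerivAt c (f (c t)) t := by
    intro x R hR
    obtain ⟨B, hB⟩ := hb x R hR
    obtain ⟨ε, hε, hl⟩ := FL_local hf (max B ‖x‖)
    have hP : ∀ n : ℕ, ∃ c : ℝ → E, c 0 = x ∧
        ∀ t ∈ Ioo (-(min R ((n + 1) * (ε / 2)))) (min R ((n + 1) * (ε / 2))),
          HasDerivAt c (f (c t)) t := by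
      intro n
      induction n with
      | zero =>
        obtain ⟨c, h0, h1⟩ := hl x (le_max_right _ _)
        refine ⟨c, h0, fun t ht => h1 t ?_⟩
        have h2 : min R (((0 : ℕ) + 1 : ℝ) * (ε / 2)) ≤ ε / 2 := by
          refine (min_le_right _ _).trans (le_of_eq ?_)
          push_cast
          ring
        exact ⟨by linarith [ht.1], by linarith [ht.2]⟩
      | succ n ih =>
        obtain ⟨c, h0, h1⟩ := ih
        have hT : 0 < min R ((n + 1 : ℝ) * (ε / 2)) := lt_min hR (by positivity)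
        obtain ⟨e, he0, he⟩ := FL3_step hf hε hT hl h0 h1 (fun t ht =>
          (hB c _ hT (min_le_left _ _) h0 h1 t ht).trans (le_max_left _ _))
        refine ⟨e, he0, fun t ht => he t ?_⟩
        have h2 : min R (((n + 1 : ℕ) + 1 : ℝ) * (ε / 2)) ≤
            min R ((n + 1 : ℝ) * (ε / 2)) + ε / 2 := by
          rcases le_total R ((n + 1 : ℝ) * (ε / 2)) with h | h
          · rw [min_eq_left h]
            exact (min_le_left _ _).trans (by linarith)
          · rw [min_eq_right h]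
            refine (min_le_right _ _).trans (le_of_eq ?_)
            push_cast
            ring
        exact ⟨by linarith [ht.1], by linarith [ht.2]⟩
    obtain ⟨n, hn⟩ := exists_nat_ge (R / (ε / 2))
    obtain ⟨c, h0, h1⟩ := hP n
    refine ⟨c, h0, fun t ht => h1 t ?_⟩
    have h2 : R ≤ (n + 1 : ℝ) * (ε / 2) := by
      rw [div_le_iff₀ (by positivity)] at hn
      nlinarith
    rw [min_eq_left h2]
    exact ht
  have hex' : ∀ (x : E) (n : ℕ), ∃ c : ℝ → E, c 0 = x ∧
      ∀ t ∈ Ioo (-((n : ℝ) + 1)) ((n : ℝ) + 1), HasDerivAt c (f (c t)) t :=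
    fun x n => hex x (n + 1) (by positivity)
  choose c hc0 hc using hex'
  have hmono : ∀ (x : E) (n m : ℕ), n ≤ m → ∀ t ∈ Ioo (-((n : ℝ) + 1)) ((n : ℝ) + 1),
      c x n t = c x m t := by
    intro x n m hnm
    have hnm' : (n : ℝ) ≤ m := by exact_mod_cast hnm
    have hn0 : (0 : ℝ) ≤ n := Nat.cast_nonneg n
    refine FL_unique hf (by linarith) (by linarith) (hc x n) ?_ (by rw [hc0, hc0])
    intro t ht
    exact hc x m t ⟨by linarith [ht.1], by linarith [ht.2]⟩
  have hev : ∀ (x : E) (t s : ℝ), |s| < |t| + 1 →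
      c x ⌈|s|⌉₊ s = c x (⌈|t|⌉₊ + 1) s := by
    intro x t s hs
    refine hmono x _ _ ?_ s ?_
    · rw [Nat.ceil_le]
      have := Nat.le_ceil |t|
      push_cast
      linarith
    · have := Nat.le_ceil |s|
      have h3 := abs_lt.1 (lt_of_le_of_lt this (lt_add_one _))
      exact h3
  refine ⟨fun t x => c x ⌈|t|⌉₊ t, fun x => hc0 x _, fun x t => ?_⟩
  have h1 : (fun s => c x ⌈|s|⌉₊ s) =ᶠ[𝓝 t] c x (⌈|t|⌉₊ + 1) := by
    have hopen : IsOpen {s : ℝ | |s| < |t| + 1} := isOpen_lt continuous_abs continuous_const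
    filter_upwards [hopen.mem_nhds (show |t| < |t| + 1 from lt_add_one _)] with s hs
    exact hev x t s hs
  have h2 : c x ⌈|t|⌉₊ t = c x (⌈|t|⌉₊ + 1) t := hev x t t (lt_add_one _)
  show HasDerivAt (fun s => c x ⌈|s|⌉₊ s) (f (c x ⌈|t|⌉₊ t)) t
  rw [h2]
  refine HasDerivAt.congr_of_eventuallyEq (hc x _ t ?_) h1
  have h3 := Nat.le_ceil |t|
  have h4 : |t| < ((⌈|t|⌉₊ + 1 : ℕ) : ℝ) + 1 := by
    push_cast
    linarith
  exact abs_lt.1 h4

end BR
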