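import Pool.Agent.LibBR70.H1h
import Pool.Agent.LibBR70.FL3

/-! Row H1i (strong; cites H1d, FL3): Hadamard's theorem. A smooth map `Φ` from the Euclidean plane to
the cover that does not decrease lengths is bijective.
Plan. `Φ` is a local homeomorphism: `fderiv Φ v` is injective (`eu w ^ 2 ≤ c⁻¹ qf ..`), hence invertible,
inverse function theorem (`ContDiffAt.toOpenPartialHomeomorph`, `IsLocalHomeomorph.mk`).
PATH LIFTING for smooth curves: let `c : ℝ → Pl` be `C^∞`, `Φ v₀ = c 0`. The time-dependent field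
`(t, v) ↦ (1, (fderiv Φ v)⁻¹ (c' t))` on `ℝ × Pl` is smooth (`ContDiff` of the inverse of a linear map:
`contDiffAt_map_inverse`, or write the inverse of a 2 × 2 matrix), and a solution `(t, v t)` satisfies
`(Φ (v t) - c t)' = 0`, so `Φ (v t) = c t`, and for a general initial point `(t₀, v₀)` one has `Φ (v t) = c (t₀ + t) + (Φ v₀ - c t₀)`, a smooth curve
of the plane, so `k eu v'^2 ≤ qf (m (Φ (v t))) (c' (t₀ + t))` is bounded for `|t| ≤ R` by a constant
depending on `(t₀, v₀)` and `R` only: this is exactly the hypothesis of `FL_exists` (row FL3) on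
`ℝ × Pl`. Result: for every smooth `c : ℝ → Pl` and `v₀` with `Φ v₀ = c 0` there is a continuous
`v : ℝ → Pl` with `v 0 = v₀`, `Φ (v t) = c t`.
SURJECTIVE: lift the segment from `Φ 0` to `y`. INJECTIVE: let `Φ a = Φ b = y`, `c_s t = (1-s) Φ (t a) + s Φ (t b)`
(`Φ (t a) = ` the image of the segment from `0` to `a`), smooth in `t`, `c_s 0 = Φ 0`, `c_s 1 = y`. Lift
each `c_s` from `0`; by `IsLocalHomeomorph.monodromy_theorem` (Mathlib,
`Topology/Homotopy/Lifting.lean`; `IsSeparatedMap` holds since the plane is Hausdorff: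
`T2Space.isSeparatedMap`) the end points of the lifts agree; for `s = 0` and `s = 1` the lifts are
`t a` and `t b` (uniqueness of lifts: `IsSeparatedMap.eq_of_comp_eq` with
`IsLocalHomeomorph.isLocallyInjective`; or choose these lifts for `s = 0, 1` in the family `Γ`). -/

open MeasureTheory Set Filter Topology
open scoped ContDiff

namespace BR

open BGS

private theorem H1i_eu (w : Pl) : ‖w‖ ^ 2 ≤ eu w ^ 2 := by
  unfold eu
  rw [Real.sq_sqrt (by positivity), Prod.norm_def]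
  rcases max_cases ‖w.1‖ ‖w.2‖ with h | h
  · rw [h.1, Real.norm_eq_abs, sq_abs]
    nlinarith [sq_nonneg w.2]
  · rw [h.1, Real.norm_eq_abs, sq_abs]
    nlinarith [sq_nonneg w.1]

/-- the derivative is invertible -/
private theorem H1i_equiv {m : Pl → Co} {Φ : Pl → Pl} {k : ℝ} (hk : 0 < k)
    (h : ∀ v w : Pl, k * eu w ^ 2 ≤ qf (m (Φ v)) (fderiv ℝ Φ v w)) (v : Pl) :
    ∃ e : Pl ≃L[ℝ] Pl, (e : Pl →L[ℝ] Pl) = fderiv ℝ Φ v := by
  have hinj : Function.Injective (fderiv ℝ Φ v : Pl →ₗ[ℝ] Pl) := by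
    rw [← LinearMap.ker_eq_bot, LinearMap.ker_eq_bot']
    intro w hw
    have h1 := h v w
    have h2 : fderiv ℝ Φ v w = 0 := hw
    rw [h2] at h1
    have h3 : qf (m (Φ v)) 0 = 0 := by simp [qf]
    rw [h3] at h1
    have h4 := H1i_eu w
    have h5 : ‖w‖ ^ 2 ≤ 0 := by nlinarith
    have h6 : ‖w‖ = 0 := by
      have := sq_nonneg ‖w‖
      exact pow_eq_zero_iff (two_ne_zero) |>.1 (le_antisymm h5 this)
    exact norm_eq_zero.1 h6
  refine ⟨(LinearEquiv.ofInjectiveEndo _ hinj).toContinuousLinearEquiv, ?_⟩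
  refine ContinuousLinearMap.ext fun w => ?_
  rfl

private theorem H1i_local {m : Pl → Co} {Φ : Pl → Pl} (hΦ : ContDiff ℝ ∞ Φ) {k : ℝ} (hk : 0 < k)
    (h : ∀ v w : Pl, k * eu w ^ 2 ≤ qf (m (Φ v)) (fderiv ℝ Φ v w)) : IsLocalHomeomorph Φ := by
  refine IsLocalHomeomorph.mk _ fun v => ?_
  obtain ⟨e, he⟩ := H1i_equiv hk h v
  have h1 : HasFDerivAt Φ (e : Pl →L[ℝ] Pl) v := by
    rw [he]
    exact ((hΦ.differentiable (by simp)) v).hasFDerivAt
  have h2 : ContDiffAt ℝ ∞ Φ v := hΦ.contDiffAt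
  refine ⟨h2.toOpenPartialHomeomorph Φ h1 (by simp), ?_, fun _ _ => rfl⟩
  exact h2.mem_toOpenPartialHomeomorph_source h1 (by simp)

private theorem H1i_two : (1 : WithTop ℕ∞) + 1 ≤ ∞ := by
  have h1 : (1 : WithTop ℕ∞) + 1 = ((2 : ℕ∞) : WithTop ℕ∞) := by
    rw [one_add_one_eq_two]
    rfl
  rw [h1]
  exact WithTop.coe_le_coe.2 le_top

private theorem H1i_fst {C : ℝ → ℝ × Pl} {v : ℝ × Pl} {t : ℝ} (h : HasDerivAt C v t) :
    HasDerivAt (fun s => (C s).1) v.1 t :=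
  (ContinuousLinearMap.fst ℝ ℝ Pl).hasFDerivAt.comp_hasDerivAt t h

private theorem H1i_snd {C : ℝ → ℝ × Pl} {v : ℝ × Pl} {t : ℝ} (h : HasDerivAt C v t) :
    HasDerivAt (fun s => (C s).2) v.2 t :=
  (ContinuousLinearMap.snd ℝ ℝ Pl).hasFDerivAt.comp_hasDerivAt t h

/-- the vector field -/
private noncomputable def H1i_f (Φ : Pl → Pl) (c : ℝ → Pl) (p : ℝ × Pl) : ℝ × Pl :=
  (1, (fderiv ℝ Φ p.2).inverse (deriv c p.1))

private theorem H1i_smooth {m : Pl → Co} {Φ : Pl → Pl} (hΦ : ContDiff ℝ ∞ Φ) {k : ℝ} (hk : 0 < k)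
    (h : ∀ v w : Pl, k * eu w ^ 2 ≤ qf (m (Φ v)) (fderiv ℝ Φ v w)) {c : ℝ → Pl}
    (hc : ContDiff ℝ ∞ c) : ContDiff ℝ 1 (H1i_f Φ c) := by
  have h1 : ContDiff ℝ 1 (fderiv ℝ Φ) := hΦ.fderiv_right H1i_two
  have h2 : ContDiff ℝ 1 fun v => (fderiv ℝ Φ v).inverse := by
    rw [contDiff_iff_contDiffAt]
    intro v
    obtain ⟨e, he⟩ := H1i_equiv hk h v
    have h3 : ContDiffAt ℝ 1 ContinuousLinearMap.inverse (fderiv ℝ Φ v) := by
      rw [← he]
      exact contDiffAt_map_inverse e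
    exact h3.comp v h1.contDiffAt
  have h4 : ContDiff ℝ 1 (deriv c) := by
    have h5 : ContDiff ℝ 1 (fderiv ℝ c) := hc.fderiv_right H1i_two
    have h6 : deriv c = fun t => fderiv ℝ c t 1 := by
      funext t
      exact (fderiv_apply_one_eq_deriv).symm
    rw [h6]
    exact h5.clm_apply contDiff_const
  exact contDiff_const.prodMk ((h2.comp contDiff_snd).clm_apply (h4.comp contDiff_fst))

private theorem H1i_A {m : Pl → Co} {Φ : Pl → Pl} {k : ℝ} (hk : 0 < k)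
    (h : ∀ v w : Pl, k * eu w ^ 2 ≤ qf (m (Φ v)) (fderiv ℝ Φ v w)) (v w : Pl) :
    fderiv ℝ Φ v ((fderiv ℝ Φ v).inverse w) = w := by
  obtain ⟨e, he⟩ := H1i_equiv hk h v
  rw [← he, ContinuousLinearMap.inverse_equiv]
  exact e.apply_symm_apply w

/-- solutions are lifts -/
private theorem H1i_sol {m : Pl → Co} {Φ : Pl → Pl} (hΦ : ContDiff ℝ ∞ Φ) {k : ℝ} (hk : 0 < k)
    (h : ∀ v w : Pl, k * eu w ^ 2 ≤ qf (m (Φ v)) (fderiv ℝ Φ v w)) {c : ℝ → Pl}
    (hc : ContDiff ℝ ∞ c) {C : ℝ → ℝ × Pl} {T : ℝ} (hT : 0 < T)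
    (hC : ∀ t ∈ Ioo (-T) T, HasDerivAt C (H1i_f Φ c (C t)) t) {t : ℝ} (ht : t ∈ Ioo (-T) T) :
    (C t).1 = (C 0).1 + t ∧ Φ (C t).2 = c ((C 0).1 + t) + (Φ (C 0).2 - c (C 0).1) := by
  have h0 : (0 : ℝ) ∈ Ioo (-T) T := ⟨by linarith, hT⟩
  have hd1 : ∀ s ∈ Ioo (-T) T, HasDerivAt (fun s => (C s).1 - s) (1 - 1) s := fun s hs =>
    (H1i_fst (hC s hs)).sub (hasDerivAt_id' s)
  have hd2 : ∀ s ∈ Ioo (-T) T,
      HasDerivAt (fun s => Φ (C s).2 - c (C s).1) (0 : Pl) s := by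
    intro s hs
    have e1 : HasDerivAt (fun s => (C s).2)
        ((fderiv ℝ Φ (C s).2).inverse (deriv c (C s).1)) s := H1i_snd (hC s hs)
    have e2 : HasDerivAt (fun s => (C s).1) 1 s := H1i_fst (hC s hs)
    have e3 : HasFDerivAt Φ (fderiv ℝ Φ (C s).2) (C s).2 :=
      ((hΦ.differentiable (by simp)) _).hasFDerivAt
    have e4 : HasDerivAt (fun s => Φ (C s).2)
        (fderiv ℝ Φ (C s).2 ((fderiv ℝ Φ (C s).2).inverse (deriv c (C s).1))) s :=
      e3.comp_hasDerivAt s e1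
    rw [H1i_A hk h] at e4
    have e5 : HasDerivAt c (deriv c (C s).1) (C s).1 :=
      ((hc.differentiable (by simp)) _).hasDerivAt
    have e6 : HasDerivAt (fun s => c (C s).1) ((1 : ℝ) • deriv c (C s).1) s :=
      HasDerivAt.scomp s e5 e2
    rw [one_smul] at e6
    have e7 := e4.sub e6
    rw [sub_self] at e7
    exact e7
  have k1 := isOpen_Ioo.is_const_of_deriv_eq_zero (𝕜 := ℝ) isPreconnected_Ioo
    (fun s hs => (hd1 s hs).differentiableAt.differentiableWithinAt)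
    (fun s hs => by rw [(hd1 s hs).deriv]; simp) ht h0
  have k2 := isOpen_Ioo.is_const_of_deriv_eq_zero (𝕜 := ℝ) isPreconnected_Ioo
    (fun s hs => (hd2 s hs).differentiableAt.differentiableWithinAt)
    (fun s hs => by rw [(hd2 s hs).deriv]; simp) ht h0
  have k3 : (C t).1 = (C 0).1 + t := by
    have : (C t).1 - t = (C 0).1 - 0 := k1
    linarith
  refine ⟨k3, ?_⟩
  have k4 : Φ (C t).2 - c (C t).1 = Φ (C 0).2 - c (C 0).1 := k2
  rw [← k4, ← k3]
  abel

private theorem H1i_bound {m : Pl → Co} (hms : Continuous m) {Φ : Pl → Pl}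
    (hΦ : ContDiff ℝ ∞ Φ) {k : ℝ} (hk : 0 < k)
    (h : ∀ v w : Pl, k * eu w ^ 2 ≤ qf (m (Φ v)) (fderiv ℝ Φ v w)) {c : ℝ → Pl}
    (hc : ContDiff ℝ ∞ c) (x : ℝ × Pl) (R : ℝ) :
    ∃ B : ℝ, ∀ (C : ℝ → ℝ × Pl) (T : ℝ), 0 < T → T ≤ R → C 0 = x →
      (∀ t ∈ Ioo (-T) T, HasDerivAt C (H1i_f Φ c (C t)) t) → ∀ t ∈ Ioo (-T) T, ‖C t‖ ≤ B := by
  obtain ⟨t₀, v₀⟩ := x
  have hdc : Continuous (deriv c) := hc.continuous_deriv (by simp)
  set q : ℝ → ℝ := fun t => qf (m (c (t₀ + t) + (Φ v₀ - c t₀))) (deriv c (t₀ + t)) with hq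
  have hqc : Continuous q := by
    have h1 : Continuous fun t : ℝ => m (c (t₀ + t) + (Φ v₀ - c t₀)) :=
      hms.comp ((hc.continuous.comp (by fun_prop)).add continuous_const)
    have h2 : Continuous fun t : ℝ => deriv c (t₀ + t) := hdc.comp (by fun_prop)
    rw [hq]
    unfold qf
    fun_prop
  obtain ⟨M, hM⟩ := isCompact_Icc.exists_bound_of_continuousOn (s := Icc (-R) R)
    hqc.continuousOn
  refine ⟨(|t₀| + R) + (‖v₀‖ + Real.sqrt (M / k) * R), ?_⟩
  intro C T hT hTR hC0 hC t ht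
  have hR : 0 < R := by linarith
  have h0 : (0 : ℝ) ∈ Ioo (-T) T := ⟨by linarith, hT⟩
  have hC01 : (C 0).1 = t₀ := by rw [hC0]
  have hC02 : (C 0).2 = v₀ := by rw [hC0]
  have htR : |t| ≤ R := by
    rw [abs_le]
    constructor <;> linarith [ht.1, ht.2]
  have hspeed : ∀ s ∈ Ioo (-T) T,
      ‖(fderiv ℝ Φ (C s).2).inverse (deriv c (C s).1)‖ ≤ Real.sqrt (M / k) := by
    intro s hs
    obtain ⟨k1, k2⟩ := H1i_sol hΦ hk h hc hT hC hs
    rw [hC01] at k1 k2
    rw [hC02] at k2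
    have h1 := h (C s).2 ((fderiv ℝ Φ (C s).2).inverse (deriv c (C s).1))
    rw [H1i_A hk h, k2, k1] at h1
    have h2 := hM s ⟨by linarith [hs.1], by linarith [hs.2]⟩
    have h3 := (le_abs_self _).trans h2
    have h4 := H1i_eu ((fderiv ℝ Φ (C s).2).inverse (deriv c (C s).1))
    rw [k1] at h4 ⊢
    apply Real.le_sqrt_of_sq_le
    rw [le_div_iff₀ hk]
    have h5 : k * eu ((fderiv ℝ Φ (C s).2).inverse (deriv c (t₀ + s))) ^ 2 ≤ M := h1.trans h3
    nlinarith
  have hmv := (convex_Ioo (-T) T).norm_image_sub_le_of_norm_hasDerivWithin_le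
    (f := fun s => (C s).2) (fun s hs => (H1i_snd (hC s hs)).hasDerivWithinAt) hspeed h0 ht
  have h6 : ‖(C t).2‖ ≤ ‖v₀‖ + Real.sqrt (M / k) * R := by
    have h7 : ‖(C t).2 - v₀‖ ≤ Real.sqrt (M / k) * R := by
      have h8 : ‖(C t).2 - (C 0).2‖ ≤ Real.sqrt (M / k) * ‖t - 0‖ := hmv
      rw [hC02] at h8
      refine h8.trans (mul_le_mul_of_nonneg_left ?_ (Real.sqrt_nonneg _))
      rw [sub_zero, Real.norm_eq_abs]
      exact htR
    have h9 : (C t).2 = v₀ + ((C t).2 - v₀) := by abel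
    rw [h9]
    exact (norm_add_le _ _).trans (by linarith)
  have h10 : ‖(C t).1‖ ≤ |t₀| + R := by
    rw [(H1i_sol hΦ hk h hc hT hC ht).1, hC01, Real.norm_eq_abs]
    exact (abs_add_le _ _).trans (by linarith)
  have h11 : 0 ≤ ‖(C t).2‖ := norm_nonneg _
  have h12 : 0 ≤ ‖(C t).1‖ := norm_nonneg _
  rw [Prod.norm_def]
  exact max_le (by linarith) (by linarith)

/-- path lifting -/
private theorem H1i_lift {m : Pl → Co} (hms : Continuous m) {Φ : Pl → Pl}
    (hΦ : ContDiff ℝ ∞ Φ) {k : ℝ} (hk : 0 < k)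
    (h : ∀ v w : Pl, k * eu w ^ 2 ≤ qf (m (Φ v)) (fderiv ℝ Φ v w)) {c : ℝ → Pl}
    (hc : ContDiff ℝ ∞ c) {v₀ : Pl} (h0 : Φ v₀ = c 0) :
    ∃ v : ℝ → Pl, Continuous v ∧ v 0 = v₀ ∧ ∀ t, Φ (v t) = c t := by
  obtain ⟨φ, hφ⟩ := FL_exists (H1i_smooth hΦ hk h hc)
    (fun x R _ => H1i_bound hms hΦ hk h hc x R)
  set C : ℝ → ℝ × Pl := fun t => φ t (0, v₀) with hCd
  have hC0 : C 0 = (0, v₀) := hφ.zero _
  have hC : ∀ t, HasDerivAt C (H1i_f Φ c (C t)) t := fun t => hφ.deriv (0, v₀) t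
  have hCc : Continuous C := continuous_iff_continuousAt.2 fun t => (hC t).continuousAt
  refine ⟨fun t => (C t).2, continuous_snd.comp hCc, congrArg Prod.snd hC0, fun t => ?_⟩
  have h1 := (H1i_sol hΦ hk h hc (C := C) (T := |t| + 1) (by positivity) (fun s _ => hC s)
    (t := t) ⟨by linarith [neg_abs_le t], by linarith [le_abs_self t]⟩).2
  rw [hC0] at h1
  simp only [zero_add] at h1
  rw [h1, h0, sub_self, add_zero]

variable {Γ : Type} [Group Γ] [MulAction Γ Pl] {D : Set Pl}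

theorem hadamard (hX : Surface Γ D) {m : Pl → Co} (hm : HM Γ m) {Φ : Pl → Pl}
    (hΦ : ContDiff ℝ ∞ Φ) {k : ℝ} (hk : 0 < k)
    (h : ∀ v w : Pl, k * eu w ^ 2 ≤ qf (m (Φ v)) (fderiv ℝ Φ v w)) : Function.Bijective Φ := by
  classical
  have hms : Continuous m := hm.smooth.continuous
  have hloc := H1i_local hΦ hk h
  constructor
  · intro a b hab
    have hsm : ∀ z : Pl, ContDiff ℝ ∞ fun t : ℝ => Φ (t • z) := fun z =>
      hΦ.comp (contDiff_id.smul contDiff_const)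
    have hcs : ∀ s : ℝ, ContDiff ℝ ∞ fun t : ℝ =>
        (1 - s) • Φ (t • a) + s • Φ (t • b) := fun s =>
      ((hsm a).const_smul (1 - s)).add ((hsm b).const_smul s)
    have hcs0 : ∀ s : ℝ, Φ 0 = (fun t : ℝ => (1 - s) • Φ (t • a) + s • Φ (t • b)) 0 := by
      intro s
      simp only [zero_smul]
      rw [← add_smul, sub_add_cancel, one_smul]
    choose v hvc hv0 hv using fun s : ℝ => H1i_lift hms hΦ hk h (hcs s) (hcs0 s)
    -- the homotopy
    let γ₀ : C(unitInterval, Pl) :=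
      ⟨fun t => Φ ((t : ℝ) • a), hΦ.continuous.comp (by fun_prop)⟩
    let γ₁ : C(unitInterval, Pl) :=
      ⟨fun t => Φ ((t : ℝ) • b), hΦ.continuous.comp (by fun_prop)⟩
    let γ : γ₀.HomotopyRel γ₁ {0, 1} :=
      { toFun := fun p => (1 - (p.1 : ℝ)) • Φ ((p.2 : ℝ) • a) + (p.1 : ℝ) • Φ ((p.2 : ℝ) • b)
        continuous_toFun := by
          have e1 : Continuous fun p : unitInterval × unitInterval => Φ ((p.2 : ℝ) • a) :=
            hΦ.continuous.comp (by fun_prop)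
          have e2 : Continuous fun p : unitInterval × unitInterval => Φ ((p.2 : ℝ) • b) :=
            hΦ.continuous.comp (by fun_prop)
          fun_prop
        map_zero_left := fun t => by
          simp [γ₀]
        map_one_left := fun t => by
          simp [γ₁]
        prop' := fun t x hx => by
          rcases hx with hx | hx
          · rw [hx]
            simp only [γ₀, ContinuousMap.coe_mk, Set.Icc.coe_zero, zero_smul]
            rw [← add_smul, sub_add_cancel, one_smul]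
          · rw [Set.mem_singleton_iff] at hx
            rw [hx]
            simp only [γ₀, ContinuousMap.coe_mk, Set.Icc.coe_one, one_smul]
            rw [← hab, ← add_smul, sub_add_cancel, one_smul] }
    let G : unitInterval → C(unitInterval, Pl) := fun s =>
      if s = 0 then ⟨fun t => (t : ℝ) • a, by fun_prop⟩
      else if s = 1 then ⟨fun t => (t : ℝ) • b, by fun_prop⟩
      else ⟨fun t => v s t, (hvc s).comp continuous_subtype_val⟩
    have hG0 : G 0 = ⟨fun t => (t : ℝ) • a, by fun_prop⟩ := if_pos rfl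
    have hG1 : G 1 = ⟨fun t => (t : ℝ) • b, by fun_prop⟩ := by
      have h1 : (1 : unitInterval) ≠ 0 := one_ne_zero
      exact (if_neg h1).trans (if_pos rfl)
    have hG : ∀ s, s ≠ 0 → s ≠ 1 →
        G s = ⟨fun t => v s t, (hvc s).comp continuous_subtype_val⟩ := fun s h1 h2 =>
      (if_neg h1).trans (if_neg h2)
    have hmono := hloc.monodromy_theorem (T2Space.isSeparatedMap Φ) γ G ?_ ?_ 1
    · rw [hG0, hG1] at hmono
      simp only [ContinuousMap.coe_mk, Set.Icc.coe_one, one_smul] at hmono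
      exact hmono.symm
    · intro s t
      change Φ (G s t) = (1 - (s : ℝ)) • Φ ((t : ℝ) • a) + (s : ℝ) • Φ ((t : ℝ) • b)
      by_cases h1 : s = 0
      · rw [h1, hG0]
        simp
      by_cases h2 : s = 1
      · rw [h2, hG1]
        simp
      rw [hG s h1 h2]
      exact hv s t
    · intro s
      by_cases h1 : s = 0
      · rw [h1]
      by_cases h2 : s = 1
      · rw [h2, hG1, hG0]
        simp
      rw [hG s h1 h2, hG0]
      simp only [ContinuousMap.coe_mk, Set.Icc.coe_zero, zero_smul]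
      exact hv0 s
  · intro y
    have hc : ContDiff ℝ ∞ fun t : ℝ => Φ 0 + t • (y - Φ 0) :=
      contDiff_const.add (contDiff_id.smul contDiff_const)
    obtain ⟨v, -, -, hv⟩ := H1i_lift hms hΦ hk h hc (v₀ := 0) (by simp)
    refine ⟨v 1, ?_⟩
    rw [hv 1, one_smul]
    abel

end BR
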