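import Pool.Agent.LibBR70.AB1

/-! Row AB2 (only Mathlib, cites AB1): the identities of the transforms.
Plan. `Ab_deriv`: `Ab (j+1)' = -FI (j+1) (deriv (Pq q)) / (√π Γ(j+3/2)) = (j+1/2) FI j (Pq q) / (√π Γ(j+3/2))`
(`FI_hasDerivAt`, `FI_parts`) and `Γ(j+3/2) = (j+1/2) Γ(j+1/2)` (`Real.Gamma_add_one`).
`Pq_wave`: on `s > 0`: with `Q s = q (√s)`, `Pq q = Q'` there, `q''(√s) = 2 Q'(s) + 4 s Q''(s)`,
hence `Pq q'' = 6 (Pq q)' + 4 s (Pq q)''`. Direct proof: differentiate `q'(√s)/(2 √s)` twice.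
`Ab_wave`: `FI j (6 P' + 4 s P'') σ` with `P = Pq q`: write `(σ + v) P''(σ+v) v^(j-1/2)
= σ P'' v^(j-1/2) + P'' v^(j+1/2)`, so `FI j (s P'') σ = σ FI j P'' σ + FI (j+1) P'' σ
= σ FI j P'' σ - (j+1/2) FI j P' σ` (`FI_parts` for `deriv P`). Total:
`6 FI j P' + 4 σ FI j P'' - 4 (j+1/2) FI j P' = 4 σ FI j P'' - 4 (j-1) FI j P'`. -/

open Set Filter Topology MeasureTheory
open scoped ContDiff

namespace BR

private theorem AB2_int {P : ℝ → ℝ} {M : ℝ} (h : Pf P M) (j : ℕ) {σ : ℝ} (hσ : 0 < σ) :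
    IntegrableOn (fun v : ℝ => P (σ + v) * v ^ ((j : ℝ) - 1 / 2)) (Ioi (0 : ℝ)) := by
  have hN : (0 : ℝ) ≤ |M| + 1 := by positivity
  rw [← Ioc_union_Ioi_eq_Ioi hN]
  refine IntegrableOn.union ?_ ?_
  · rw [← intervalIntegrable_iff_integrableOn_Ioc_of_le hN]
    have h1 : IntervalIntegrable (fun v : ℝ => v ^ ((j : ℝ) - 1 / 2)) volume 0 (|M| + 1) := by
      apply intervalIntegral.intervalIntegrable_rpow'
      have : (0 : ℝ) ≤ (j : ℝ) := Nat.cast_nonneg j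
      linarith
    have h2 : ContinuousOn (fun v : ℝ => P (σ + v)) (uIcc 0 (|M| + 1)) := by
      rw [uIcc_of_le hN]
      refine h.smooth.continuousOn.comp (by fun_prop) ?_
      intro v hv
      exact add_pos_of_pos_of_nonneg hσ hv.1
    exact h1.continuousOn_mul h2
  · refine IntegrableOn.congr_fun integrableOn_zero ?_ measurableSet_Ioi
    intro v hv
    have h1 : M < σ + v := by
      have h2 : |M| + 1 < v := hv
      have h3 := le_abs_self M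
      linarith
    simp only [h.supp _ h1, zero_mul]

private theorem AB2_tl_deriv {q : ℝ → ℝ} {ρ : ℝ} (h : Tl q ρ) : Tl (deriv q) ρ := by
  refine ⟨(contDiff_infty_iff_deriv.mp h.smooth).2, ?_⟩
  intro t ht
  have he : q =ᶠ[𝓝 t] fun _ => 0 := by
    filter_upwards [lt_mem_nhds ht] with s hs
    exact h.supp s hs
  rw [he.deriv_eq]
  simp

private theorem AB2_dab {q : ℝ → ℝ} {ρ : ℝ} (hρ : 0 ≤ ρ) (h : Tl q ρ) (j : ℕ) {σ : ℝ} (hσ : 0 < σ) :
    HasDerivAt (Ab j q) (-(FI j (deriv (Pq q)) σ / (√Real.pi * Real.Gamma ((j : ℝ) + 1 / 2)))) σ :=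
  ((FI_hasDerivAt (Pf_Pq hρ h) j hσ).div_const _).neg

private theorem AB2_dab2 {q : ℝ → ℝ} {ρ : ℝ} (hρ : 0 ≤ ρ) (h : Tl q ρ) (j : ℕ) {σ : ℝ} (hσ : 0 < σ) :
    HasDerivAt (deriv (Ab j q)) (-(FI j (deriv (deriv (Pq q))) σ /
      (√Real.pi * Real.Gamma ((j : ℝ) + 1 / 2)))) σ := by
  have h1 := ((FI_hasDerivAt (Pf_deriv (Pf_Pq hρ h)) j hσ).div_const
    (√Real.pi * Real.Gamma ((j : ℝ) + 1 / 2))).neg
  refine h1.congr_of_eventuallyEq ?_
  filter_upwards [lt_mem_nhds hσ] with s hs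
  exact (AB2_dab hρ h j hs).deriv

theorem Ab_deriv {q : ℝ → ℝ} {ρ : ℝ} (hρ : 0 ≤ ρ) (h : Tl q ρ) (j : ℕ) {σ : ℝ} (hσ : 0 < σ) :
    HasDerivAt (Ab (j + 1) q) (-(Ab j q σ)) σ := by
  have h1 := AB2_dab hρ h (j + 1) hσ
  rw [FI_parts (Pf_Pq hρ h) j hσ] at h1
  convert h1 using 1
  have hj : (0 : ℝ) ≤ (j : ℝ) := Nat.cast_nonneg j
  have hG : Real.Gamma (((j + 1 : ℕ) : ℝ) + 1 / 2) = ((j : ℝ) + 1 / 2) * Real.Gamma ((j : ℝ) + 1 / 2) := by
    rw [← Real.Gamma_add_one (by positivity)]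
    congr 1
    push_cast
    ring
  rw [hG]
  unfold Ab
  have hG0 : Real.Gamma ((j : ℝ) + 1 / 2) ≠ 0 := (Real.Gamma_pos_of_pos (by positivity)).ne'
  have hp : √Real.pi ≠ 0 := (Real.sqrt_pos.mpr Real.pi_pos).ne'
  have hj2 : (j : ℝ) + 1 / 2 ≠ 0 := by positivity
  field_simp

theorem Ab_contDiffOn {q : ℝ → ℝ} {ρ : ℝ} (hρ : 0 ≤ ρ) (h : Tl q ρ) (j : ℕ) :
    ContDiffOn ℝ ∞ (Ab j q) (Ioi 0) :=
  ((FI_contDiffOn (Pf_Pq hρ h) j).div_const _).neg

theorem Ab_supp {q : ℝ → ℝ} {ρ : ℝ} (hρ : 0 ≤ ρ) (h : Tl q ρ) (j : ℕ) {σ : ℝ} (h0 : 0 < σ)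
    (hσ : ρ ^ 2 < σ) : Ab j q σ = 0 := by
  unfold Ab
  rw [FI_supp (Pf_Pq hρ h) j hσ h0]
  simp

private theorem AB2_dsq {g : ℝ → ℝ} (hg : ContDiff ℝ ∞ g) {s : ℝ} (hs : 0 < s) :
    HasDerivAt (fun x => g (√x)) (deriv g (√s) * (1 / (2 * √s))) s := by
  have h1 : HasDerivAt g (deriv g (√s)) (√s) :=
    ((hg.differentiable (by simp)).differentiableAt).hasDerivAt
  exact h1.comp s (Real.hasDerivAt_sqrt hs.ne')

theorem Pq_wave {q : ℝ → ℝ} {ρ : ℝ} (h : Tl q ρ) {s : ℝ} (hs : 0 < s) :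
    Pq (deriv (deriv q)) s = 6 * deriv (Pq q) s + 4 * s * deriv (deriv (Pq q)) s := by
  have g1 : ContDiff ℝ ∞ (deriv q) := (AB2_tl_deriv h).smooth
  have g2 : ContDiff ℝ ∞ (deriv (deriv q)) := (AB2_tl_deriv (AB2_tl_deriv h)).smooth
  have e1 : ∀ t : ℝ, 0 < t → HasDerivAt (Pq q)
      (deriv (deriv q) (√t) / (4 * t) - deriv q (√t) / (4 * t * √t)) t := by
    intro t ht
    have hr : 0 < √t := Real.sqrt_pos.mpr ht
    have hr2 : √t * √t = t := Real.mul_self_sqrt ht.le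
    have k1 := AB2_dsq g1 ht
    have k2 := (Real.hasDerivAt_sqrt ht.ne').const_mul 2
    have k3 := k1.div k2 (by positivity)
    refine k3.congr_deriv ?_
    rw [← hr2]
    simp only [Real.sqrt_mul_self hr.le]
    field_simp
    ring
  have e2 : deriv (Pq q) =ᶠ[𝓝 s] fun t =>
      deriv (deriv q) (√t) / (4 * t) - deriv q (√t) / (4 * t * √t) := by
    filter_upwards [lt_mem_nhds hs] with t ht
    exact (e1 t ht).deriv
  have hr : 0 < √s := Real.sqrt_pos.mpr hs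
  have hr2 : √s * √s = s := Real.mul_self_sqrt hs.le
  have e3 : deriv (deriv (Pq q)) s = deriv (deriv (deriv q)) (√s) / (8 * s * √s) -
      3 * deriv (deriv q) (√s) / (8 * s ^ 2) + 3 * deriv q (√s) / (8 * s ^ 2 * √s) := by
    rw [e2.deriv_eq]
    have k1 := AB2_dsq g1 hs
    have k2 := AB2_dsq g2 hs
    have k3 : HasDerivAt (fun y : ℝ => 4 * y) (4 * 1) s := (hasDerivAt_id s).const_mul 4
    have k4 := k2.div k3 (by simp [hs.ne'])
    have k6 : HasDerivAt (fun y : ℝ => 4 * y * √y) (4 * 1 * √s + 4 * s * (1 / (2 * √s))) s :=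
      k3.mul (Real.hasDerivAt_sqrt hs.ne')
    have k5 := k1.div k6 (by positivity)
    refine HasDerivAt.deriv ((k4.sub k5).congr_deriv ?_)
    rw [← hr2]
    simp only [Real.sqrt_mul_self hr.le]
    field_simp
    ring
  rw [e3, (e1 s hs).deriv]
  unfold Pq
  have hr3 : √s ^ 2 = s := Real.sq_sqrt hs.le
  field_simp
  ring

theorem Ab_wave {q : ℝ → ℝ} {ρ : ℝ} (hρ : 0 ≤ ρ) (h : Tl q ρ) (j : ℕ) {σ : ℝ} (hσ : 0 < σ) :
    Ab j (deriv (deriv q)) σ = 4 * σ * deriv (deriv (Ab j q)) σ -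
      4 * ((j : ℝ) - 1) * deriv (Ab j q) σ := by
  have hP1 : Pf (deriv (Pq q)) (ρ ^ 2) := Pf_deriv (Pf_Pq hρ h)
  have hP2 : Pf (deriv (deriv (Pq q))) (ρ ^ 2) := Pf_deriv hP1
  have i1 := AB2_int hP1 j hσ
  have i2 := AB2_int hP2 j hσ
  have i3 := AB2_int hP2 (j + 1) hσ
  have key : FI j (Pq (deriv (deriv q))) σ = 6 * FI j (deriv (Pq q)) σ +
      4 * σ * FI j (deriv (deriv (Pq q))) σ + 4 * FI (j + 1) (deriv (deriv (Pq q))) σ := by
    unfold FI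
    rw [← integral_const_mul, ← integral_const_mul, ← integral_const_mul,
      ← integral_add (i1.const_mul 6) (i2.const_mul (4 * σ))]
    refine Eq.trans ?_ (integral_add ((i1.const_mul 6).add (i2.const_mul (4 * σ)))
      (i3.const_mul 4))
    refine setIntegral_congr_fun measurableSet_Ioi ?_
    intro v hv
    have hv0 : (0 : ℝ) < v := hv
    have hpow : v ^ (((j + 1 : ℕ) : ℝ) - 1 / 2) = v * v ^ ((j : ℝ) - 1 / 2) := by
      have : (((j + 1 : ℕ) : ℝ) - 1 / 2) = 1 + ((j : ℝ) - 1 / 2) := by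
        push_cast
        ring
      rw [this, Real.rpow_add hv0, Real.rpow_one]
    simp only []
    rw [hpow, Pq_wave h (add_pos hσ hv0)]
    ring
  rw [(AB2_dab2 hρ h j hσ).deriv, (AB2_dab hρ h j hσ).deriv]
  rw [FI_parts hP1 j hσ] at key
  unfold Ab
  rw [key]
  ring

theorem Ab_add {q r : ℝ → ℝ} {ρ : ℝ} (hρ : 0 ≤ ρ) (hq : Tl q ρ) (hr : Tl r ρ) (j : ℕ) {σ : ℝ}
    (hσ : 0 < σ) : Ab j (fun t => q t + r t) σ = Ab j q σ + Ab j r σ := by
  have hd : ∀ t, deriv (fun t => q t + r t) t = deriv q t + deriv r t := by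
    intro t
    exact deriv_fun_add ((hq.smooth.differentiable (by simp)).differentiableAt)
      ((hr.smooth.differentiable (by simp)).differentiableAt)
  have i1 := AB2_int (Pf_Pq hρ hq) j hσ
  have i2 := AB2_int (Pf_Pq hρ hr) j hσ
  have key : FI j (Pq (fun t => q t + r t)) σ = FI j (Pq q) σ + FI j (Pq r) σ := by
    unfold FI
    rw [← integral_add i1 i2]
    refine setIntegral_congr_fun measurableSet_Ioi ?_
    intro v _
    simp only [Pq, hd]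
    ring
  unfold Ab
  rw [key]
  ring

theorem Ab_smul {q : ℝ → ℝ} {ρ : ℝ} (h : Tl q ρ) (j : ℕ) (c : ℝ) (σ : ℝ) :
    Ab j (fun t => c * q t) σ = c * Ab j q σ := by
  have hd : ∀ t, deriv (fun t => c * q t) t = c * deriv q t := by
    intro t
    exact deriv_const_mul c ((h.smooth.differentiable (by simp)).differentiableAt)
  have key : FI j (Pq (fun t => c * q t)) σ = c * FI j (Pq q) σ := by
    unfold FI
    rw [← integral_const_mul]
    congr 1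
    funext v
    simp only [Pq, hd]
    ring
  unfold Ab
  rw [key]
  ring

end BR
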