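import Pool.Agent.LibBR70.AB_Defs

open Set Filter Topology MeasureTheory
open scoped ContDiff

namespace BR

theorem Pf_deriv {P : ℝ → ℝ} {M : ℝ} (h : Pf P M) : Pf (deriv P) M where
  smooth := h.smooth.deriv_of_isOpen isOpen_Ioi (by simp)
  supp := fun s hs => by
    have h1 : P =ᶠ[𝓝 s] fun _ => (0 : ℝ) := by
      filter_upwards [Ioi_mem_nhds hs] with x hx
      exact h.supp x hx
    rw [h1.deriv_eq, deriv_const]

theorem Pf_Pq {q : ℝ → ℝ} {ρ : ℝ} (hρ : 0 ≤ ρ) (h : Tl q ρ) : Pf (Pq q) (ρ ^ 2) where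
  smooth := by
    have h1 : ContDiffOn ℝ ∞ (fun s : ℝ => √s) (Ioi 0) :=
      contDiffOn_id.sqrt (fun x hx => (ne_of_gt hx : x ≠ 0))
    have h2 : ContDiff ℝ ∞ (deriv q) := by
      have h3 := h.smooth
      rw [← contDiffOn_univ] at h3 ⊢
      exact h3.deriv_of_isOpen isOpen_univ (by simp)
    have h4 : ContDiffOn ℝ ∞ (fun s : ℝ => deriv q (√s)) (Ioi 0) := h2.comp_contDiffOn h1
    unfold Pq
    exact h4.div (contDiffOn_const.mul h1) (fun x hx => by
      have : 0 < √x := Real.sqrt_pos.mpr hx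
      positivity)
  supp := fun s hs => by
    have h1 : ρ < √s := Real.lt_sqrt_of_sq_lt hs
    have h2 : q =ᶠ[𝓝 (√s)] fun _ => (0 : ℝ) := by
      filter_upwards [Ioi_mem_nhds h1] with x hx
      exact h.supp x hx
    unfold Pq
    rw [h2.deriv_eq, deriv_const, zero_div]

private theorem AB1_bdd {P : ℝ → ℝ} {M : ℝ} (h : Pf P M) {a : ℝ} (ha : 0 < a) :
    ∃ C : ℝ, 0 ≤ C ∧ ∀ s, a ≤ s → |P s| ≤ C := by
  have hc : ContinuousOn P (Icc a (max a M)) :=
    h.smooth.continuousOn.mono fun x hx => lt_of_lt_of_le ha hx.1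
  obtain ⟨C, hC⟩ := isCompact_Icc.exists_bound_of_continuousOn hc
  refine ⟨max C 0, le_max_right _ _, fun s hs => ?_⟩
  rcases le_or_gt s (max a M) with h1 | h1
  · exact (hC s ⟨hs, h1⟩).trans (le_max_left _ _)
  · rw [h.supp s (lt_of_le_of_lt (le_max_right _ _) h1), abs_zero]
    exact le_max_right _ _

private theorem AB1_meas {P : ℝ → ℝ} {M : ℝ} (h : Pf P M) {x : ℝ} (hx : 0 < x) (r : ℝ) :
    AEStronglyMeasurable (fun v : ℝ => P (x + v) * v ^ r) (volume.restrict (Ioi 0)) := by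
  refine ContinuousOn.aestronglyMeasurable ?_ measurableSet_Ioi
  refine ContinuousOn.mul ?_ ?_
  · refine h.smooth.continuousOn.comp (by fun_prop) fun v hv => ?_
    have : (0 : ℝ) < v := hv
    show 0 < x + v
    linarith
  · exact ContinuousOn.rpow_const continuousOn_id fun v hv => Or.inl (ne_of_gt hv)

private theorem AB1_bint {C r M' : ℝ} (hr : -1 < r) (hM : 0 ≤ M') :
    Integrable (fun v : ℝ => (Ioc (0 : ℝ) M').indicator (fun v => C * v ^ r) v)
      (volume.restrict (Ioi 0)) := by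
  have h1 : IntegrableOn (fun v : ℝ => C * v ^ r) (Ioc 0 M') := by
    have h2 := (intervalIntegral.intervalIntegrable_rpow' (a := 0) (b := M') hr).const_mul C
    rwa [intervalIntegrable_iff_integrableOn_Ioc_of_le hM] at h2
  have h3 : Integrable ((Ioc (0 : ℝ) M').indicator (fun v => C * v ^ r)) volume :=
    (integrable_indicator_iff measurableSet_Ioc).mpr h1
  exact h3.integrableOn

private theorem AB1_bound {P : ℝ → ℝ} {M : ℝ} (h : Pf P M) {a C : ℝ} (ha : 0 < a)
    (hC : ∀ s, a ≤ s → |P s| ≤ C) {x v : ℝ} (hx : a ≤ x) (hv : 0 < v) (r : ℝ) :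
    ‖P (x + v) * v ^ r‖ ≤ (Ioc (0 : ℝ) (max M 0)).indicator (fun v => C * v ^ r) v := by
  by_cases h1 : v ≤ max M 0
  · rw [indicator_of_mem (show v ∈ Ioc (0 : ℝ) (max M 0) from ⟨hv, h1⟩), norm_mul, Real.norm_eq_abs,
      Real.norm_of_nonneg (Real.rpow_nonneg hv.le r)]
    exact mul_le_mul_of_nonneg_right (hC _ (by linarith)) (Real.rpow_nonneg hv.le r)
  · rw [indicator_of_notMem (fun hh => h1 hh.2)]
    push Not at h1
    have h2 : M < x + v := by
      have := le_max_left M 0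
      linarith
    rw [h.supp _ h2, zero_mul, norm_zero]

private theorem AB1_int {P : ℝ → ℝ} {M : ℝ} (h : Pf P M) {x : ℝ} (hx : 0 < x) {r : ℝ}
    (hr : -1 < r) : Integrable (fun v : ℝ => P (x + v) * v ^ r) (volume.restrict (Ioi 0)) := by
  obtain ⟨C, hC0, hC⟩ := AB1_bdd h hx
  refine Integrable.mono' (AB1_bint (C := C) hr (le_max_right M 0)) (AB1_meas h hx r) ?_
  rw [ae_restrict_iff' measurableSet_Ioi]
  exact ae_of_all _ fun v hv => AB1_bound h hx hC le_rfl hv r

private theorem AB1_hasDeriv {P : ℝ → ℝ} {M : ℝ} (h : Pf P M) {s : ℝ} (hs : 0 < s) :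
    HasDerivAt P (deriv P s) s := by
  have h1 : DifferentiableOn ℝ P (Ioi 0) := h.smooth.differentiableOn (by simp)
  exact (h1.differentiableAt (Ioi_mem_nhds hs)).hasDerivAt

theorem FI_hasDerivAt {P : ℝ → ℝ} {M : ℝ} (h : Pf P M) (j : ℕ) {σ : ℝ} (hσ : 0 < σ) :
    HasDerivAt (FI j P) (FI j (deriv P) σ) σ := by
  have hr : -1 < (j : ℝ) - 1 / 2 := by
    have : (0 : ℝ) ≤ j := Nat.cast_nonneg j
    linarith
  have h2 : 0 < σ / 2 := by linarith
  obtain ⟨C, hC0, hC⟩ := AB1_bdd (Pf_deriv h) h2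
  have hball : ∀ x ∈ Metric.ball σ (σ / 2), σ / 2 ≤ x := by
    intro x hx
    rw [Metric.mem_ball, Real.dist_eq, abs_lt] at hx
    linarith [hx.1]
  refine (hasDerivAt_integral_of_dominated_loc_of_deriv_le
    (F := fun x v => P (x + v) * v ^ ((j : ℝ) - 1 / 2))
    (F' := fun x v => deriv P (x + v) * v ^ ((j : ℝ) - 1 / 2))
    (bound := fun v => (Ioc (0 : ℝ) (max M 0)).indicator (fun v => C * v ^ ((j : ℝ) - 1 / 2)) v)
    (Metric.ball_mem_nhds σ h2) ?_ (AB1_int h hσ hr) (AB1_meas (Pf_deriv h) hσ _) ?_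
    (AB1_bint hr (le_max_right M 0)) ?_).2
  · filter_upwards [Ioi_mem_nhds hσ] with x hx
    exact AB1_meas h hx _
  · rw [ae_restrict_iff' measurableSet_Ioi]
    exact ae_of_all _ fun v hv x hx => AB1_bound (Pf_deriv h) h2 hC (hball x hx) hv _
  · rw [ae_restrict_iff' measurableSet_Ioi]
    refine ae_of_all _ fun v hv x hx => ?_
    have hv0 : (0 : ℝ) < v := hv
    have hx0 := hball x hx
    have h3 := AB1_hasDeriv h (s := x + v) (by linarith)
    have h4 : HasDerivAt (fun x => P (x + v)) (deriv P (x + v)) x := by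
      simpa using h3.comp_add_const x v
    exact h4.mul_const _

theorem FI_parts {P : ℝ → ℝ} {M : ℝ} (h : Pf P M) (j : ℕ) {σ : ℝ} (hσ : 0 < σ) :
    FI (j + 1) (deriv P) σ = -((j : ℝ) + 1 / 2) * FI j P σ := by
  have hj : (0 : ℝ) ≤ j := Nat.cast_nonneg j
  have hr : -1 < (j : ℝ) - 1 / 2 := by linarith
  have hr' : -1 < (j : ℝ) + 1 / 2 := by linarith
  have i1 := AB1_int (Pf_deriv h) hσ hr'
  have i2 := AB1_int h hσ hr
  have hd : ∀ v ∈ Ioi (0 : ℝ), HasDerivAt (fun v => P (σ + v) * v ^ ((j : ℝ) + 1 / 2))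
      (deriv P (σ + v) * v ^ ((j : ℝ) + 1 / 2) +
        ((j : ℝ) + 1 / 2) * (P (σ + v) * v ^ ((j : ℝ) - 1 / 2))) v := by
    intro v hv
    have hv0 : (0 : ℝ) < v := hv
    have h3 := AB1_hasDeriv h (s := σ + v) (by linarith)
    have h4 : HasDerivAt (fun v => P (σ + v)) (deriv P (σ + v)) v := by
      simpa using h3.comp_const_add σ v
    have h5 := Real.hasDerivAt_rpow_const (x := v) (p := (j : ℝ) + 1 / 2) (Or.inl hv0.ne')
    have e : (j : ℝ) + 1 / 2 - 1 = (j : ℝ) - 1 / 2 := by ring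
    rw [e] at h5
    exact (h4.mul h5).congr_deriv (by ring)
  have hcont : ContinuousWithinAt (fun v => P (σ + v) * v ^ ((j : ℝ) + 1 / 2)) (Ici 0) 0 := by
    refine ContinuousAt.continuousWithinAt (ContinuousAt.mul ?_ ?_)
    · have h3 := (AB1_hasDeriv h (s := σ + 0) (by linarith)).continuousAt
      exact ContinuousAt.comp (f := fun v : ℝ => σ + v) h3 (by fun_prop)
    · exact Real.continuousAt_rpow_const _ _ (Or.inr (by linarith))
  have hlim : Tendsto (fun v => P (σ + v) * v ^ ((j : ℝ) + 1 / 2)) atTop (𝓝 0) := by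
    refine tendsto_const_nhds.congr' ?_
    filter_upwards [eventually_gt_atTop (M - σ)] with v hv
    rw [h.supp _ (by linarith), zero_mul]
  have key := integral_Ioi_of_hasDerivAt_of_tendsto hcont hd (i1.add (i2.const_mul _)) hlim
  have h0 : P (σ + 0) * (0 : ℝ) ^ ((j : ℝ) + 1 / 2) = 0 := by
    rw [Real.zero_rpow (by linarith), mul_zero]
  rw [h0, sub_zero, integral_add i1 (i2.const_mul _), integral_const_mul] at key
  unfold FI
  have e : (((j + 1 : ℕ) : ℝ) - 1 / 2) = (j : ℝ) + 1 / 2 := by push_cast; ring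
  rw [e]
  linarith

theorem FI_contDiffOn {P : ℝ → ℝ} {M : ℝ} (h : Pf P M) (j : ℕ) :
    ContDiffOn ℝ ∞ (FI j P) (Ioi 0) := by
  have key : ∀ (n : ℕ) (P : ℝ → ℝ), Pf P M → ContDiffOn ℝ n (FI j P) (Ioi 0) := by
    intro n
    induction n with
    | zero =>
      intro P hP
      rw [Nat.cast_zero, contDiffOn_zero]
      exact fun x hx => (FI_hasDerivAt hP j hx).continuousAt.continuousWithinAt
    | succ n ih =>
      intro P hP
      rw [Nat.cast_succ, contDiffOn_succ_iff_deriv_of_isOpen isOpen_Ioi]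
      refine ⟨fun x hx => (FI_hasDerivAt hP j hx).differentiableAt.differentiableWithinAt,
        by simp, ?_⟩
      refine (ih (deriv P) (Pf_deriv hP)).congr fun x hx => ?_
      exact (FI_hasDerivAt hP j hx).deriv
  exact contDiffOn_infty.mpr fun n => key n P h

theorem FI_supp {P : ℝ → ℝ} {M : ℝ} (h : Pf P M) (j : ℕ) {σ : ℝ} (hσ : M < σ) (h0 : 0 < σ) :
    FI j P σ = 0 := by
  unfold FI
  have h1 : ∀ v ∈ Ioi (0 : ℝ), P (σ + v) * v ^ ((j : ℝ) - 1 / 2) = 0 := by
    intro v hv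
    have hv0 : (0 : ℝ) < v := hv
    rw [h.supp _ (by linarith), zero_mul]
  rw [setIntegral_congr_fun measurableSet_Ioi h1, integral_zero]

end BR
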