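import Pool.Agent.LibBR70.AB2

/-! Row AB3 (only Mathlib, cites AB1, AB2, strong): the logarithmic singularity at `σ = 0` produces a
Dirac mass.
Plan. With `P = Pq q`: on `0 < s ≤ M = ρ^2 + 1` one has `|P s| ≤ C s^(-1/2)`, `|P' s| ≤ C s^(-3/2)`,
`|P'' s| ≤ C s^(-5/2)` (derivatives of `q` are bounded on `[0, ρ + 1]`; explicit formulas).
`Ab_bound2`: `(Ab 0 q)'' = c FI 0 P''`, `|FI 0 P'' σ| ≤ C ∫_0^∞ (σ + v)^(-5/2) v^(-1/2) dv = C' σ^(-2)`
(substitute `v = σ w`; or bound by `∫_0^σ σ^(-5/2) v^(-1/2) + ∫_σ^∞ v^(-3)`); for `j ≥ 1`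
`(Ab j q)'' ` is `-(Ab (j-1) q)'`, `(Ab 1 q)'' = -(Ab 0 q)' `: `|FI 0 P' σ| ≤ C σ^(-1)`; `j ≥ 2`:
`(Ab j q)'' = Ab (j-2) q`, `|FI j' P σ| ≤ C (1 + |log σ|) ≤ C σ^(-1)` for `0 < σ ≤ M`.
`Ab_lim`: `ε (Ab 0 q)' ε → q' 0 / (2 π)`: `Γ(1/2) = √π`, so `(Ab 0 q)' = -(1/π) FI 0 P'`, and
`ε FI 0 P' ε = ∫_0^∞ ε^(3/2) P'(ε (1 + w)) w^(-1/2) dw` (substitution `v = ε w`) tends by dominated
convergence (bound `C (1+w)^(-3/2) w^(-1/2)`) to `-(q' 0 / 4) ∫_0^∞ (1+w)^(-3/2) w^(-1/2) dw = -(q' 0)/2`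
because `s^(3/2) P' s = (√s) q''(√s)/4 - q'(√s)/4 → -q' 0/4` as `s → 0` and the integral is `2`
(antiderivative `2 √(w / (1 + w))`).
`Ab_dirac` (`j = 0`): in polar coordinates (`integral_comp_polarCoord_symm`) or by the
substitution `v = √ε w`: `∫ 4 ε (Ab 0 q)''(|v|² + ε) dv = 4 π ∫_0^∞ ε (Ab 0 q)''(s + ε) ds
= -4 π ε (Ab 0 q)'(ε) → -2 q' 0`; and `∫ 4 ε |(Ab 0 q)''(|v|² + ε)| |ψ v - ψ 0| dv ≤ C ∫ 4 ε (|v|² + ε)^(-2) |ψ v - ψ 0| dv
→ 0` (split at `|v| = δ`; `ψ` is continuous at `0` and bounded). `j ≥ 1`: `∫_{|v|² ≤ M} 4 ε C (|v|² + ε)^(-1) dv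
≤ C' ε log(1/ε) → 0`. Everything vanishes for `|v|² + ε > ρ²` (`Ab_supp`). -/

open Set Filter Topology MeasureTheory
open scoped ContDiff

namespace BR

private theorem AB3_Tl_deriv {q : ℝ → ℝ} {ρ : ℝ} (h : Tl q ρ) : Tl (deriv q) ρ := by
  refine ⟨((contDiff_infty_iff_deriv).1 h.smooth).2, fun t ht => ?_⟩
  have : q =ᶠ[𝓝 t] fun _ => (0 : ℝ) := by
    filter_upwards [isOpen_Ioi.mem_nhds ht] with x hx using h.supp x hx
  rw [this.deriv_eq, deriv_const]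

private theorem AB3_bdd {q : ℝ → ℝ} {ρ : ℝ} (h : Tl q ρ) :
    ∃ C : ℝ, 0 ≤ C ∧ ∀ t, 0 ≤ t → |q t| ≤ C := by
  obtain ⟨C, hC⟩ := (isCompact_Icc (a := (0 : ℝ)) (b := |ρ|)).exists_bound_of_continuousOn
    h.smooth.continuous.continuousOn
  refine ⟨max C 0, le_max_right _ _, fun t ht => ?_⟩
  by_cases h1 : t ≤ |ρ|
  · exact (hC t ⟨ht, h1⟩).trans (le_max_left _ _)
  · rw [h.supp t (lt_of_le_of_lt (le_abs_self ρ) (not_le.1 h1)), abs_zero]
    exact le_max_right _ _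

private theorem AB3_lip {q : ℝ → ℝ} {ρ : ℝ} (h : Tl q ρ) :
    ∃ C : ℝ, 0 ≤ C ∧ (∀ t, 0 ≤ t → |q t| ≤ C) ∧ (∀ t, 0 ≤ t → |deriv q t| ≤ C) ∧
      ∀ t, 0 ≤ t → |q t - q 0| ≤ C * t := by
  obtain ⟨C1, h10, h1⟩ := AB3_bdd h
  obtain ⟨C2, h20, h2⟩ := AB3_bdd (AB3_Tl_deriv h)
  refine ⟨max C1 C2, h10.trans (le_max_left _ _), fun t ht => (h1 t ht).trans (le_max_left _ _),
    fun t ht => (h2 t ht).trans (le_max_right _ _), fun t ht => ?_⟩
  have := Convex.norm_image_sub_le_of_norm_deriv_le (𝕜 := ℝ) (f := q) (s := Ici (0 : ℝ))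
    (C := C2) (x := 0) (y := t)
    (fun x _ => (h.smooth.differentiable (by simp)).differentiableAt)
    (fun x hx => h2 x hx) (convex_Ici 0) (by simp) ht
  rw [sub_zero, Real.norm_eq_abs, Real.norm_eq_abs, abs_of_nonneg ht] at this
  exact this.trans (mul_le_mul_of_nonneg_right (le_max_right _ _) ht)

private theorem AB3_dPq {q : ℝ → ℝ} {ρ : ℝ} (h : Tl q ρ) {s : ℝ} (hs : 0 < s) :
    deriv (Pq q) s = (deriv (deriv q) (√s) - deriv q (√s) / √s) / (4 * s) := by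
  have hr : 0 < √s := Real.sqrt_pos.2 hs
  have h1 : HasDerivAt (fun s : ℝ => √s) (1 / (2 * √s)) s := Real.hasDerivAt_sqrt hs.ne'
  have h2 : HasDerivAt (deriv q) (deriv (deriv q) (√s)) (√s) :=
    ((AB3_Tl_deriv h).smooth.differentiable (by simp)).differentiableAt.hasDerivAt
  have h3 : HasDerivAt (fun s : ℝ => deriv q (√s)) (deriv (deriv q) (√s) * (1 / (2 * √s))) s :=
    h2.comp s h1
  have h4 : HasDerivAt (fun s : ℝ => 2 * √s) (2 * (1 / (2 * √s))) s := h1.const_mul 2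
  have h5 := h3.div h4 (by positivity)
  have h6 : HasDerivAt (Pq q) _ s := h5
  rw [h6.deriv]
  have h7 : s = √s ^ 2 := (Real.sq_sqrt hs.le).symm
  set r := √s with hrdef
  rw [h7]
  field_simp
  ring

private theorem AB3_Pbound {q : ℝ → ℝ} {ρ : ℝ} (h : Tl q ρ) :
    ∃ C : ℝ, 0 ≤ C ∧ (∀ s, 0 < s → |Pq q s| ≤ C * (√s)⁻¹) ∧
      (∀ s, 0 < s → |deriv (Pq q) s + deriv q 0 / 4 * (s * √s)⁻¹| ≤ C * s⁻¹) := by
  obtain ⟨C, hC0, h1, h2, h3⟩ := AB3_lip (AB3_Tl_deriv h)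
  refine ⟨C, hC0, fun s hs => ?_, fun s hs => ?_⟩
  · have hr : 0 < √s := Real.sqrt_pos.2 hs
    unfold Pq
    rw [abs_div, abs_of_pos (by positivity : 0 < 2 * √s), div_le_iff₀ (by positivity)]
    have := h1 (√s) hr.le
    calc |deriv q (√s)| ≤ C := this
      _ ≤ C * (√s)⁻¹ * (2 * √s) := by
        have e : C * (√s)⁻¹ * (2 * √s) = 2 * C := by field_simp
        rw [e]
        linarith
  · have hr : 0 < √s := Real.sqrt_pos.2 hs
    rw [AB3_dPq h hs]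
    have e1 : (deriv (deriv q) (√s) - deriv q (√s) / √s) / (4 * s) +
        deriv q 0 / 4 * (s * √s)⁻¹ =
        (deriv (deriv q) (√s) - (deriv q (√s) - deriv q 0) / √s) / (4 * s) := by
      field_simp
      ring
    rw [e1, abs_div, abs_of_pos (by positivity : 0 < 4 * s), div_le_iff₀ (by positivity)]
    have h4 := h2 (√s) hr.le
    have h5 : |(deriv q (√s) - deriv q 0) / √s| ≤ C := by
      rw [abs_div, abs_of_pos hr, div_le_iff₀ hr]
      exact h3 (√s) hr.le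
    have h6 : |deriv (deriv q) (√s) - (deriv q (√s) - deriv q 0) / √s| ≤ C + C :=
      (abs_sub _ _).trans (add_le_add h4 h5)
    have e2 : C * s⁻¹ * (4 * s) = 4 * C := by field_simp
    rw [e2]
    linarith

private theorem AB3_k3 {σ : ℝ} (hσ : 0 < σ) :
    IntegrableOn (fun v : ℝ => ((σ + v) * √(σ + v))⁻¹ * (√v)⁻¹) (Ioi 0) ∧
      ∫ v in Ioi (0 : ℝ), ((σ + v) * √(σ + v))⁻¹ * (√v)⁻¹ = 2 / σ := by
  have hcont : ContinuousWithinAt (fun v : ℝ => 2 / σ * (√v / √(σ + v))) (Ici 0) 0 := by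
    apply ContinuousAt.continuousWithinAt
    have h0 : √(σ + 0) ≠ 0 := by
      rw [add_zero]
      exact (Real.sqrt_pos.2 hσ).ne'
    exact continuousAt_const.mul ((Real.continuous_sqrt.continuousAt).div
      ((Real.continuous_sqrt.comp (continuous_const.add continuous_id)).continuousAt) h0)
  have hderiv : ∀ v ∈ Ioi (0 : ℝ), HasDerivAt (fun v : ℝ => 2 / σ * (√v / √(σ + v)))
      (((σ + v) * √(σ + v))⁻¹ * (√v)⁻¹) v := by
    intro v hv
    have hv : 0 < v := hv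
    have hsv : 0 < σ + v := by linarith
    have h1 : HasDerivAt (fun v : ℝ => √v) (1 / (2 * √v)) v := Real.hasDerivAt_sqrt hv.ne'
    have h2 : HasDerivAt (fun v : ℝ => √(σ + v)) (1 / (2 * √(σ + v))) v := by
      have := ((hasDerivAt_id v).const_add σ).sqrt (by simpa using hsv.ne')
      simpa using this
    have h3 := (h1.div h2 (Real.sqrt_pos.2 hsv).ne').const_mul (2 / σ)
    refine h3.congr_deriv ?_
    have e1 : v = √v ^ 2 := (Real.sq_sqrt hv.le).symm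
    have e2 : σ + v = √(σ + v) ^ 2 := (Real.sq_sqrt hsv.le).symm
    have p1 : 0 < √v := Real.sqrt_pos.2 hv
    have p2 : 0 < √(σ + v) := Real.sqrt_pos.2 hsv
    have e3 : σ = √(σ + v) ^ 2 - √v ^ 2 := by
      rw [← e1, ← e2]; ring
    have e4 : ((σ + v) * √(σ + v))⁻¹ * (√v)⁻¹ = (√(σ + v) ^ 3 * √v)⁻¹ := by
      rw [pow_succ, Real.sq_sqrt hsv.le, mul_inv, mul_inv, mul_inv]
    rw [e4]
    generalize √(σ + v) = b at *
    generalize √v = a at *
    have hba : b ^ 2 - a ^ 2 ≠ 0 := by rw [← e3]; exact hσ.ne'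
    rw [e3]
    field_simp
    try ring
  have hpos : ∀ v ∈ Ioi (0 : ℝ), 0 ≤ ((σ + v) * √(σ + v))⁻¹ * (√v)⁻¹ := by
    intro v hv
    have hv : 0 < v := hv
    positivity
  have hlim : Tendsto (fun v : ℝ => 2 / σ * (√v / √(σ + v))) atTop (𝓝 (2 / σ * 1)) := by
    apply Tendsto.const_mul
    have h1 : Tendsto (fun v : ℝ => v / (σ + v)) atTop (𝓝 1) := by
      have h2 : Tendsto (fun v : ℝ => 1 - σ / (σ + v)) atTop (𝓝 (1 - 0)) := by
        apply Tendsto.const_sub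
        exact Tendsto.div_atTop tendsto_const_nhds (tendsto_atTop_add_const_left _ _ tendsto_id)
      rw [sub_zero] at h2
      refine h2.congr' ?_
      filter_upwards [eventually_gt_atTop 0] with v hv
      have : σ + v ≠ 0 := by linarith
      field_simp
      ring
    have h3 : Tendsto (fun v : ℝ => √(v / (σ + v))) atTop (𝓝 (√1)) :=
      (Real.continuous_sqrt.tendsto 1).comp h1
    rw [Real.sqrt_one] at h3
    refine h3.congr' ?_
    filter_upwards [eventually_gt_atTop 0] with v hv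
    rw [Real.sqrt_div hv.le]
  refine ⟨integrableOn_Ioi_deriv_of_nonneg hcont hderiv hpos hlim, ?_⟩
  rw [integral_Ioi_of_hasDerivAt_of_nonneg hcont hderiv hpos hlim]
  simp

private theorem AB3_k2 {σ : ℝ} (hσ : 0 < σ) :
    IntegrableOn (fun v : ℝ => (σ + v)⁻¹ * (√v)⁻¹) (Ioi 0) ∧
      ∫ v in Ioi (0 : ℝ), (σ + v)⁻¹ * (√v)⁻¹ = Real.pi / √σ := by
  have hsσ : 0 < √σ := Real.sqrt_pos.2 hσ
  have hcont : ContinuousWithinAt (fun v : ℝ => 2 / √σ * Real.arctan (√v / √σ)) (Ici 0) 0 := by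
    apply Continuous.continuousWithinAt
    exact continuous_const.mul (Real.continuous_arctan.comp (Real.continuous_sqrt.div_const _))
  have hderiv : ∀ v ∈ Ioi (0 : ℝ), HasDerivAt (fun v : ℝ => 2 / √σ * Real.arctan (√v / √σ))
      ((σ + v)⁻¹ * (√v)⁻¹) v := by
    intro v hv
    have hv : 0 < v := hv
    have hsv : 0 < σ + v := by linarith
    have h1 : HasDerivAt (fun v : ℝ => √v) (1 / (2 * √v)) v := Real.hasDerivAt_sqrt hv.ne'
    have h3 := ((h1.div_const (√σ)).arctan).const_mul (2 / √σ)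
    refine h3.congr_deriv ?_
    have p1 : 0 < √v := Real.sqrt_pos.2 hv
    have e1 : (√v / √σ) ^ 2 = v / σ := by
      rw [div_pow, Real.sq_sqrt hv.le, Real.sq_sqrt hσ.le]
    rw [e1]
    have e2 : 1 + v / σ = (σ + v) / σ := by field_simp
    rw [e2]
    have e5 : σ = √σ ^ 2 := (Real.sq_sqrt hσ.le).symm
    have e6 : 2 / √σ * (1 / ((σ + v) / σ) * (1 / (2 * √v) / √σ)) =
        (σ / √σ ^ 2) * ((σ + v)⁻¹ * (√v)⁻¹) := by
      field_simp
    rw [e6, Real.sq_sqrt hσ.le, div_self hσ.ne', one_mul]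
  have hpos : ∀ v ∈ Ioi (0 : ℝ), 0 ≤ (σ + v)⁻¹ * (√v)⁻¹ := by
    intro v hv
    have hv : 0 < v := hv
    positivity
  have hlim : Tendsto (fun v : ℝ => 2 / √σ * Real.arctan (√v / √σ)) atTop
      (𝓝 (2 / √σ * (Real.pi / 2))) := by
    apply Tendsto.const_mul
    have h1 : Tendsto (fun v : ℝ => √v / √σ) atTop atTop :=
      Real.tendsto_sqrt_atTop.atTop_div_const hsσ
    exact (tendsto_nhds_of_tendsto_nhdsWithin Real.tendsto_arctan_atTop).comp h1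
  refine ⟨integrableOn_Ioi_deriv_of_nonneg hcont hderiv hpos hlim, ?_⟩
  rw [integral_Ioi_of_hasDerivAt_of_nonneg hcont hderiv hpos hlim]
  simp
  try field_simp

private theorem AB3_k1 {σ M : ℝ} (hσ : 0 < σ) (hM : 0 < M) :
    IntegrableOn (fun v : ℝ => (√(σ + v))⁻¹ * (√v)⁻¹) (Ioc 0 M) ∧
      ∫ v in Ioc (0 : ℝ) M, (√(σ + v))⁻¹ * (√v)⁻¹ =
        2 * Real.log (√M + √(σ + M)) - Real.log σ := by
  have hcont : ContinuousOn (fun v : ℝ => 2 * Real.log (√v + √(σ + v))) (Icc 0 M) := by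
    intro v hv
    apply ContinuousAt.continuousWithinAt
    have hp : √v + √(σ + v) ≠ 0 := by
      have : 0 < √(σ + v) := Real.sqrt_pos.2 (by linarith [hv.1])
      have := Real.sqrt_nonneg v
      positivity
    apply ContinuousAt.mul continuousAt_const
    have hc : ContinuousAt (fun v : ℝ => √v + √(σ + v)) v :=
      (Real.continuous_sqrt.add (Real.continuous_sqrt.comp
        (continuous_const.add continuous_id))).continuousAt
    exact hc.log hp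
  have hderiv : ∀ v ∈ Ioo (0 : ℝ) M, HasDerivAt (fun v : ℝ => 2 * Real.log (√v + √(σ + v)))
      ((√(σ + v))⁻¹ * (√v)⁻¹) v := by
    intro v hv
    have hv : 0 < v := hv.1
    have hsv : 0 < σ + v := by linarith
    have h1 : HasDerivAt (fun v : ℝ => √v) (1 / (2 * √v)) v := Real.hasDerivAt_sqrt hv.ne'
    have h2 : HasDerivAt (fun v : ℝ => √(σ + v)) (1 / (2 * √(σ + v))) v := by
      have := ((hasDerivAt_id v).const_add σ).sqrt (by simpa using hsv.ne')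
      simpa using this
    have p1 : 0 < √v := Real.sqrt_pos.2 hv
    have p2 : 0 < √(σ + v) := Real.sqrt_pos.2 hsv
    have h3 := ((h1.add h2).log (by show √v + √(σ + v) ≠ 0; positivity)).const_mul 2
    refine h3.congr_deriv ?_
    show 2 * ((1 / (2 * √v) + 1 / (2 * √(σ + v))) / (√v + √(σ + v))) = _
    field_simp
    try ring
  have hpos : ∀ v ∈ Ioo (0 : ℝ) M, 0 ≤ (√(σ + v))⁻¹ * (√v)⁻¹ := by
    intro v hv
    positivity
  have hint := intervalIntegral.integrableOn_deriv_of_nonneg hcont hderiv hpos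
  refine ⟨hint, ?_⟩
  rw [← intervalIntegral.integral_of_le hM.le,
    intervalIntegral.integral_eq_sub_of_hasDerivAt_of_le hM.le hcont hderiv
      ((intervalIntegrable_iff_integrableOn_Ioc_of_le hM.le).2 hint)]
  simp only [Real.sqrt_zero, zero_add, add_zero]
  rw [Real.log_sqrt hσ.le]
  ring

private theorem AB3_pow {v : ℝ} (hv : 0 < v) (j : ℕ) :
    v ^ ((j : ℝ) - 1 / 2) = v ^ j * (√v)⁻¹ := by
  rw [Real.rpow_sub hv, Real.rpow_natCast, Real.sqrt_eq_rpow, div_eq_mul_inv]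

private theorem AB3_pow0 {v : ℝ} (hv : 0 < v) :
    v ^ (((0 : ℕ) : ℝ) - 1 / 2) = (√v)⁻¹ := by
  rw [AB3_pow hv, pow_zero, one_mul]

private theorem AB3_log0 {q : ℝ → ℝ} {ρ : ℝ} (hρ : 0 ≤ ρ) (h : Tl q ρ) (j : ℕ) :
    ∃ C : ℝ, 0 ≤ C ∧ ∀ σ : ℝ, 0 < σ → |Ab j q σ| ≤ C * (1 + |Real.log σ|) := by
  obtain ⟨C, hC0, hP, -⟩ := AB3_Pbound h
  set M : ℝ := ρ ^ 2 + 1 with hMdef
  have hM : 0 < M := by positivity
  set G : ℝ := √Real.pi * Real.Gamma ((j : ℝ) + 1 / 2) with hG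
  have hGpos : 0 < G := mul_pos (Real.sqrt_pos.2 Real.pi_pos)
    (Real.Gamma_pos_of_pos (by positivity))
  set L : ℝ := 2 * |Real.log (√M + √(M + M))| with hL
  have hL0 : 0 ≤ L := by positivity
  refine ⟨C * M ^ j * (L + 1) / G, by positivity, fun σ hσ => ?_⟩
  by_cases hσM : σ ≤ M
  swap
  · rw [Ab_supp hρ h j hσ (by linarith), abs_zero]
    positivity
  have hbound : ∀ v ∈ Ioi (0 : ℝ), ‖Pq q (σ + v) * v ^ ((j : ℝ) - 1 / 2)‖ ≤
      (Ioc (0 : ℝ) M).indicator (fun v => C * M ^ j * ((√(σ + v))⁻¹ * (√v)⁻¹)) v := by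
    intro v hv
    have hv : 0 < v := hv
    by_cases hvM : v ≤ M
    · rw [indicator_of_mem (show v ∈ Ioc (0 : ℝ) M from ⟨hv, hvM⟩), Real.norm_eq_abs, abs_mul,
        AB3_pow hv]
      have h1 := hP (σ + v) (by linarith)
      have h2 : |v ^ j * (√v)⁻¹| = v ^ j * (√v)⁻¹ := abs_of_nonneg (by positivity)
      rw [h2]
      have h3 : v ^ j ≤ M ^ j := pow_le_pow_left₀ hv.le hvM j
      calc |Pq q (σ + v)| * (v ^ j * (√v)⁻¹) ≤ (C * (√(σ + v))⁻¹) * (M ^ j * (√v)⁻¹) := by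
            apply mul_le_mul h1 _ (by positivity) (by positivity)
            exact mul_le_mul_of_nonneg_right h3 (by positivity)
        _ = _ := by ring
    · have h1 : Pq q (σ + v) = 0 := (Pf_Pq hρ h).supp _ (by linarith [not_le.1 hvM])
      rw [h1, zero_mul, norm_zero]
      rw [indicator_of_notMem (by intro hh; exact hvM hh.2)]
  obtain ⟨hi, he⟩ := AB3_k1 hσ hM
  have hint : Integrable ((Ioc (0 : ℝ) M).indicator
      (fun v => C * M ^ j * ((√(σ + v))⁻¹ * (√v)⁻¹))) volume :=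
    (integrable_indicator_iff measurableSet_Ioc).2 (hi.const_mul _)
  have h4 : |FI j (Pq q) σ| ≤ C * M ^ j * (2 * Real.log (√M + √(σ + M)) - Real.log σ) := by
    unfold FI
    rw [← Real.norm_eq_abs]
    refine (norm_integral_le_of_norm_le hint.integrableOn
      ((ae_restrict_iff' measurableSet_Ioi).2 (Eventually.of_forall hbound))).trans ?_
    rw [setIntegral_indicator measurableSet_Ioc,
      inter_eq_self_of_subset_right Ioc_subset_Ioi_self, integral_const_mul, he]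
  have h5 : 2 * Real.log (√M + √(σ + M)) - Real.log σ ≤ (L + 1) * (1 + |Real.log σ|) := by
    have p2 : 0 < √(σ + M) := Real.sqrt_pos.2 (by linarith)
    have p1 : 0 < √M := Real.sqrt_pos.2 hM
    have h6 : Real.log (√M + √(σ + M)) ≤ Real.log (√M + √(M + M)) := by
      apply Real.log_le_log (by positivity)
      have := Real.sqrt_le_sqrt (show σ + M ≤ M + M by linarith)
      linarith
    have h7 : Real.log (√M + √(M + M)) ≤ |Real.log (√M + √(M + M))| := le_abs_self _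
    have h8 : -Real.log σ ≤ |Real.log σ| := neg_le_abs _
    have h9 : 0 ≤ L * |Real.log σ| := by positivity
    nlinarith
  unfold Ab
  rw [abs_neg, abs_div, ← hG, abs_of_pos hGpos, div_le_iff₀ hGpos]
  have e : C * M ^ j * (L + 1) / G * (1 + |Real.log σ|) * G =
      C * M ^ j * ((L + 1) * (1 + |Real.log σ|)) := by
    field_simp
  rw [e]
  exact h4.trans (mul_le_mul_of_nonneg_left h5 (by positivity))

private theorem AB3_loginv {M : ℝ} (hM : 1 ≤ M) {σ : ℝ} (hσ : 0 < σ) (hσM : σ ≤ M) :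
    1 + |Real.log σ| ≤ (M + M ^ 2) / σ := by
  rw [le_div_iff₀ hσ]
  have h1 : |Real.log σ| * σ ≤ M ^ 2 := by
    rcases le_total σ 1 with h | h
    · rw [abs_of_nonpos (Real.log_nonpos hσ.le h)]
      have h2 : Real.log σ⁻¹ ≤ σ⁻¹ - 1 := Real.log_le_sub_one_of_pos (inv_pos.2 hσ)
      rw [Real.log_inv] at h2
      have h3 : -Real.log σ * σ ≤ (σ⁻¹ - 1) * σ := mul_le_mul_of_nonneg_right h2 hσ.le
      have h4 : (σ⁻¹ - 1) * σ = 1 - σ := by field_simp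
      nlinarith
    · rw [abs_of_nonneg (Real.log_nonneg h)]
      have h2 : Real.log σ ≤ σ - 1 := Real.log_le_sub_one_of_pos hσ
      have h3 : 0 ≤ Real.log σ := Real.log_nonneg h
      nlinarith
  nlinarith

private theorem AB3_inv {q : ℝ → ℝ} {ρ : ℝ} (hρ : 0 ≤ ρ) (h : Tl q ρ) (j : ℕ) :
    ∃ C : ℝ, 0 ≤ C ∧ ∀ σ : ℝ, 0 < σ → |Ab j q σ| ≤ C / σ := by
  obtain ⟨C, hC0, hC⟩ := AB3_log0 hρ h j
  set M : ℝ := ρ ^ 2 + 1 with hMdef
  have hM : 1 ≤ M := by nlinarith [sq_nonneg ρ]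
  refine ⟨C * (M + M ^ 2), by positivity, fun σ hσ => ?_⟩
  by_cases hσM : σ ≤ M
  · refine (hC σ hσ).trans ?_
    rw [mul_div_assoc]
    exact mul_le_mul_of_nonneg_left (AB3_loginv hM hσ hσM) hC0
  · rw [Ab_supp hρ h j hσ (by linarith [not_le.1 hσM]), abs_zero]
    positivity

private theorem AB3_dAb0 {q : ℝ → ℝ} {ρ : ℝ} (hρ : 0 ≤ ρ) (h : Tl q ρ) {σ : ℝ} (hσ : 0 < σ) :
    deriv (Ab 0 q) σ = -(FI 0 (deriv (Pq q)) σ / Real.pi) := by
  have h1 := (FI_hasDerivAt (Pf_Pq hρ h) 0 hσ)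
  have h2 : HasDerivAt (Ab 0 q) (-(FI 0 (deriv (Pq q)) σ /
      (√Real.pi * Real.Gamma (((0 : ℕ) : ℝ) + 1 / 2)))) σ := (h1.div_const _).neg
  rw [h2.deriv]
  have h3 : √Real.pi * Real.Gamma (((0 : ℕ) : ℝ) + 1 / 2) = Real.pi := by
    rw [Nat.cast_zero, zero_add, Real.Gamma_one_half_eq, Real.mul_self_sqrt Real.pi_pos.le]
  rw [h3]

/-- The expansion of `FI 0 P'` at zero. -/
private theorem AB3_FI {q : ℝ → ℝ} {ρ : ℝ} (hρ : 0 ≤ ρ) (h : Tl q ρ) :
    ∃ C : ℝ, 0 ≤ C ∧ ∀ σ : ℝ, 0 < σ →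
      |FI 0 (deriv (Pq q)) σ + deriv q 0 / 4 * (2 / σ)| ≤ C / √σ := by
  obtain ⟨C, hC0, -, hP⟩ := AB3_Pbound h
  refine ⟨C * Real.pi, by positivity, fun σ hσ => ?_⟩
  obtain ⟨hi2, he2⟩ := AB3_k2 hσ
  obtain ⟨hi3, he3⟩ := AB3_k3 hσ
  have hb : ∀ v ∈ Ioi (0 : ℝ), ‖(deriv (Pq q) (σ + v) +
      deriv q 0 / 4 * ((σ + v) * √(σ + v))⁻¹) * (√v)⁻¹‖ ≤ C * ((σ + v)⁻¹ * (√v)⁻¹) := by
    intro v hv
    have hv : 0 < v := hv
    rw [norm_mul, Real.norm_eq_abs, Real.norm_eq_abs, abs_of_nonneg (by positivity : 0 ≤ (√v)⁻¹),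
      ← mul_assoc]
    exact mul_le_mul_of_nonneg_right (hP (σ + v) (by linarith)) (by positivity)
  have hPc : ContinuousOn (deriv (Pq q)) (Ioi 0) := (Pf_deriv (Pf_Pq hρ h)).smooth.continuousOn
  have hc1 : ContinuousOn (fun v : ℝ => deriv (Pq q) (σ + v)) (Ioi 0) := by
    apply hPc.comp (continuous_const.add continuous_id).continuousOn
    intro v hv
    have hv : 0 < v := hv
    show 0 < σ + v
    linarith
  have hc2 : ContinuousOn (fun v : ℝ => ((σ + v) * √(σ + v))⁻¹) (Ioi 0) := by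
    intro v hv
    have hv : 0 < v := hv
    have hsv : 0 < σ + v := by linarith
    apply ContinuousAt.continuousWithinAt
    apply ContinuousAt.inv₀
    · exact ((continuous_const.add continuous_id).mul (Real.continuous_sqrt.comp
        (continuous_const.add continuous_id))).continuousAt
    · have := Real.sqrt_pos.2 hsv
      positivity
  have hc3 : ContinuousOn (fun v : ℝ => (√v)⁻¹) (Ioi 0) := by
    intro v hv
    exact (Real.continuous_sqrt.continuousAt.inv₀ (Real.sqrt_pos.2 hv).ne').continuousWithinAt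
  have hmeas : AEStronglyMeasurable (fun v : ℝ => (deriv (Pq q) (σ + v) +
      deriv q 0 / 4 * ((σ + v) * √(σ + v))⁻¹) * (√v)⁻¹) (volume.restrict (Ioi 0)) :=
    ((hc1.add (continuousOn_const.mul hc2)).mul hc3).aestronglyMeasurable measurableSet_Ioi
  have hint : IntegrableOn (fun v : ℝ => (deriv (Pq q) (σ + v) +
      deriv q 0 / 4 * ((σ + v) * √(σ + v))⁻¹) * (√v)⁻¹) (Ioi 0) :=
    Integrable.mono' (hi2.const_mul C) hmeas
      ((ae_restrict_iff' measurableSet_Ioi).2 (Eventually.of_forall hb))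
  have e1 : FI 0 (deriv (Pq q)) σ + deriv q 0 / 4 * (2 / σ) =
      ∫ v in Ioi (0 : ℝ), (deriv (Pq q) (σ + v) +
      deriv q 0 / 4 * ((σ + v) * √(σ + v))⁻¹) * (√v)⁻¹ := by
    have e2 : FI 0 (deriv (Pq q)) σ = ∫ v in Ioi (0 : ℝ), ((deriv (Pq q) (σ + v) +
      deriv q 0 / 4 * ((σ + v) * √(σ + v))⁻¹) * (√v)⁻¹ -
        deriv q 0 / 4 * (((σ + v) * √(σ + v))⁻¹ * (√v)⁻¹)) := by
      unfold FI
      apply setIntegral_congr_fun measurableSet_Ioi
      intro v hv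
      show deriv (Pq q) (σ + v) * v ^ (((0 : ℕ) : ℝ) - 1 / 2) = _
      rw [AB3_pow0 hv]
      ring
    rw [e2, integral_sub hint (hi3.const_mul _), integral_const_mul, he3]
    ring
  rw [e1, ← Real.norm_eq_abs]
  refine (norm_integral_le_of_norm_le (hi2.const_mul C)
    ((ae_restrict_iff' measurableSet_Ioi).2 (Eventually.of_forall hb))).trans ?_
  rw [integral_const_mul, he2, mul_div_assoc]

private theorem AB3_dbound {q : ℝ → ℝ} {ρ : ℝ} (hρ : 0 ≤ ρ) (h : Tl q ρ) :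
    ∃ C : ℝ, 0 ≤ C ∧ ∀ σ : ℝ, 0 < σ → |deriv (Ab 0 q) σ| ≤ C / σ := by
  obtain ⟨C, hC0, hC⟩ := AB3_FI hρ h
  set M : ℝ := ρ ^ 2 + 1 with hMdef
  have hM : 1 ≤ M := by nlinarith [sq_nonneg ρ]
  refine ⟨(C * √M + |deriv q 0| / 2) / Real.pi, by positivity, fun σ hσ => ?_⟩
  by_cases hσM : σ ≤ M
  · rw [AB3_dAb0 hρ h hσ, abs_neg, abs_div, abs_of_pos Real.pi_pos]
    have h1 := hC σ hσ
    have h2 : |FI 0 (deriv (Pq q)) σ| ≤ C / √σ + |deriv q 0 / 4 * (2 / σ)| := by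
      have := abs_sub_abs_le_abs_sub (FI 0 (deriv (Pq q)) σ) (-(deriv q 0 / 4 * (2 / σ)))
      rw [sub_neg_eq_add, abs_neg] at this
      linarith
    have h3 : C / √σ ≤ C * √M / σ := by
      have p1 : 0 < √σ := Real.sqrt_pos.2 hσ
      rw [div_le_div_iff₀ p1 hσ]
      have h4 : √σ ≤ √M := Real.sqrt_le_sqrt hσM
      have h5 : σ = √σ * √σ := (Real.mul_self_sqrt hσ.le).symm
      calc C * σ = C * √σ * √σ := by rw [mul_assoc, ← h5]
        _ ≤ C * √M * √σ := by gcongr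
    have h4 : |deriv q 0 / 4 * (2 / σ)| = |deriv q 0| / 2 / σ := by
      rw [abs_mul, abs_div, abs_div, abs_of_pos hσ]
      norm_num
      ring
    rw [div_div, div_le_div_iff₀ Real.pi_pos (by positivity)]
    rw [h4] at h2
    have h5 : |FI 0 (deriv (Pq q)) σ| ≤ (C * √M + |deriv q 0| / 2) / σ := by
      rw [add_div]
      linarith
    rw [le_div_iff₀ hσ] at h5
    nlinarith [Real.pi_pos]
  · have hz : Ab 0 q =ᶠ[𝓝 σ] fun _ => (0 : ℝ) := by
      have : Ioi M ∈ 𝓝 σ := isOpen_Ioi.mem_nhds (not_le.1 hσM)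
      filter_upwards [this] with x hx
      have hx : M < x := hx
      exact Ab_supp hρ h 0 (by linarith) (by linarith)
    rw [hz.deriv_eq, deriv_const, abs_zero]
    positivity

private theorem AB3_Pf {q : ℝ → ℝ} {ρ : ℝ} (hρ : 0 ≤ ρ) (h : Tl q ρ) (j : ℕ) :
    Pf (Ab j q) (ρ ^ 2) :=
  ⟨Ab_contDiffOn hρ h j, fun _ hs => Ab_supp hρ h j (lt_of_le_of_lt (sq_nonneg ρ) hs) hs⟩

private theorem AB3_ddsucc {q : ℝ → ℝ} {ρ : ℝ} (hρ : 0 ≤ ρ) (h : Tl q ρ) (j : ℕ) {σ : ℝ}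
    (hσ : 0 < σ) : deriv (deriv (Ab (j + 1) q)) σ = -deriv (Ab j q) σ := by
  have h1 : deriv (Ab (j + 1) q) =ᶠ[𝓝 σ] fun x => -(Ab j q x) := by
    filter_upwards [isOpen_Ioi.mem_nhds hσ] with x hx
    exact (Ab_deriv hρ h j hx).deriv
  rw [h1.deriv_eq, deriv.fun_neg]

theorem Ab_bound2 {q : ℝ → ℝ} {ρ : ℝ} (hρ : 0 ≤ ρ) (h : Tl q ρ) :
    ∃ C : ℝ, ∀ σ : ℝ, 0 < σ → |deriv (deriv (Ab 0 q)) σ| ≤ C / σ ^ 2 := by
  obtain ⟨C1, h10, h1⟩ := AB3_dbound hρ h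
  obtain ⟨C2, h20, h2⟩ := AB3_inv hρ (AB3_Tl_deriv (AB3_Tl_deriv h)) 0
  refine ⟨C1 + C2 / 4, fun σ hσ => ?_⟩
  have hw := Ab_wave hρ h 0 hσ
  have e : deriv (deriv (Ab 0 q)) σ =
      (Ab 0 (deriv (deriv q)) σ / 4 - deriv (Ab 0 q) σ) / σ := by
    rw [hw]
    push_cast
    field_simp
    ring
  rw [e, abs_div, abs_of_pos hσ, div_le_iff₀ hσ]
  have h3 : |Ab 0 (deriv (deriv q)) σ / 4 - deriv (Ab 0 q) σ| ≤ C2 / σ / 4 + C1 / σ := by
    refine (abs_sub _ _).trans (add_le_add ?_ (h1 σ hσ))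
    rw [abs_div]
    norm_num
    exact div_le_div_of_nonneg_right (h2 σ hσ) (by norm_num)
  refine h3.trans (le_of_eq ?_)
  field_simp
  ring

theorem Ab_bound2' {q : ℝ → ℝ} {ρ : ℝ} (hρ : 0 ≤ ρ) (h : Tl q ρ) {j : ℕ} (hj : 1 ≤ j) :
    ∃ C : ℝ, ∀ σ : ℝ, 0 < σ → |deriv (deriv (Ab j q)) σ| ≤ C / σ := by
  obtain ⟨k, rfl⟩ := Nat.exists_eq_add_of_le' hj
  rcases k with _ | k
  · obtain ⟨C1, h10, h1⟩ := AB3_dbound hρ h
    refine ⟨C1, fun σ hσ => ?_⟩
    rw [AB3_ddsucc hρ h 0 hσ, abs_neg]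
    exact h1 σ hσ
  · obtain ⟨C2, h20, h2⟩ := AB3_inv hρ h k
    refine ⟨C2, fun σ hσ => ?_⟩
    rw [AB3_ddsucc hρ h (k + 1) hσ, abs_neg, (Ab_deriv hρ h k hσ).deriv, abs_neg]
    exact h2 σ hσ

theorem Ab_lim {q : ℝ → ℝ} {ρ : ℝ} (hρ : 0 ≤ ρ) (h : Tl q ρ) :
    Tendsto (fun ε : ℝ => ε * deriv (Ab 0 q) ε) (𝓝[>] 0) (𝓝 (deriv q 0 / (2 * Real.pi))) := by
  obtain ⟨C, hC0, hC⟩ := AB3_FI hρ h
  rw [tendsto_iff_norm_sub_tendsto_zero]
  have hlim : Tendsto (fun ε : ℝ => C / Real.pi * √ε) (𝓝[>] 0) (𝓝 0) := by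
    have h1 : Tendsto (fun ε : ℝ => C / Real.pi * √ε) (𝓝 0) (𝓝 (C / Real.pi * √0)) :=
      (continuous_const.mul Real.continuous_sqrt).tendsto 0
    rw [Real.sqrt_zero, mul_zero] at h1
    exact h1.mono_left nhdsWithin_le_nhds
  refine squeeze_zero' (Eventually.of_forall fun _ => norm_nonneg _) ?_ hlim
  filter_upwards [self_mem_nhdsWithin] with ε hε
  have hε : 0 < ε := hε
  rw [AB3_dAb0 hρ h hε, Real.norm_eq_abs]
  have e : ε * -(FI 0 (deriv (Pq q)) ε / Real.pi) - deriv q 0 / (2 * Real.pi) =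
      -(ε / Real.pi * (FI 0 (deriv (Pq q)) ε + deriv q 0 / 4 * (2 / ε))) := by
    have := Real.pi_pos
    field_simp
    ring
  rw [e, abs_neg, abs_mul, abs_of_pos (by have := Real.pi_pos; positivity : 0 < ε / Real.pi)]
  have h2 := hC ε hε
  have p1 : 0 < √ε := Real.sqrt_pos.2 hε
  have h3 : ε = √ε * √ε := (Real.mul_self_sqrt hε.le).symm
  calc ε / Real.pi * |FI 0 (deriv (Pq q)) ε + deriv q 0 / 4 * (2 / ε)|
      ≤ ε / Real.pi * (C / √ε) :=
        mul_le_mul_of_nonneg_left h2 (by have := Real.pi_pos; positivity)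
    _ = C / Real.pi * (ε / √ε) := by
        have := Real.pi_pos
        field_simp
    _ = C / Real.pi * √ε := by rw [Real.div_sqrt]

private theorem AB3_lim2 {q : ℝ → ℝ} {ρ : ℝ} (hρ : 0 ≤ ρ) (h : Tl q ρ) (j : ℕ) :
    Tendsto (fun σ : ℝ => σ ^ 2 * deriv (deriv (Ab j q)) σ) (𝓝[>] 0)
      (𝓝 (if j = 0 then -(deriv q 0 / (2 * Real.pi)) else 0)) := by
  split_ifs with hj
  · subst hj
    obtain ⟨C, hC0, hC⟩ := AB3_log0 hρ (AB3_Tl_deriv (AB3_Tl_deriv h)) 0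
    have h1 := Ab_lim hρ h
    have h2 : Tendsto (fun σ : ℝ => σ * Ab 0 (deriv (deriv q)) σ / 4) (𝓝[>] 0) (𝓝 0) := by
      rw [tendsto_zero_iff_norm_tendsto_zero]
      have h3 : Tendsto (fun σ : ℝ => C * (σ + |σ * Real.log σ|)) (𝓝[>] 0) (𝓝 0) := by
        have h4 : Tendsto (fun σ : ℝ => C * (σ + |σ * Real.log σ|)) (𝓝 0)
            (𝓝 (C * (0 + |0 * Real.log 0|))) :=
          (continuous_const.mul (continuous_id.add (Real.continuous_mul_log.abs))).tendsto 0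
        simp only [zero_mul, abs_zero, add_zero, mul_zero] at h4
        exact h4.mono_left nhdsWithin_le_nhds
      refine squeeze_zero' (Eventually.of_forall fun _ => norm_nonneg _) ?_ h3
      filter_upwards [self_mem_nhdsWithin] with σ hσ
      have hσ : 0 < σ := hσ
      rw [Real.norm_eq_abs, abs_div, abs_mul, abs_of_pos hσ, abs_mul, abs_of_pos hσ]
      have h5 := hC σ hσ
      have h6 : σ * |Ab 0 (deriv (deriv q)) σ| ≤ σ * (C * (1 + |Real.log σ|)) :=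
        mul_le_mul_of_nonneg_left h5 hσ.le
      have h7 : 0 ≤ σ * |Ab 0 (deriv (deriv q)) σ| := by positivity
      have h8 : |(4 : ℝ)| = 4 := by norm_num
      rw [h8]
      calc σ * |Ab 0 (deriv (deriv q)) σ| / 4 ≤ σ * |Ab 0 (deriv (deriv q)) σ| := by linarith
        _ ≤ σ * (C * (1 + |Real.log σ|)) := h6
        _ = _ := by ring
    have h9 := h2.sub h1
    rw [zero_sub] at h9
    refine h9.congr' ?_
    filter_upwards [self_mem_nhdsWithin] with σ hσ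
    have hσ : 0 < σ := hσ
    rw [Ab_wave hρ h 0 hσ]
    push_cast
    ring
  · obtain ⟨C, hC⟩ := Ab_bound2' hρ h (Nat.one_le_iff_ne_zero.2 hj)
    rw [tendsto_zero_iff_norm_tendsto_zero]
    have h3 : Tendsto (fun σ : ℝ => C * σ) (𝓝[>] 0) (𝓝 0) := by
      have h4 : Tendsto (fun σ : ℝ => C * σ) (𝓝 0) (𝓝 (C * 0)) :=
        (continuous_const.mul continuous_id).tendsto 0
      rw [mul_zero] at h4
      exact h4.mono_left nhdsWithin_le_nhds
    refine squeeze_zero' (Eventually.of_forall fun _ => norm_nonneg _) ?_ h3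
    filter_upwards [self_mem_nhdsWithin] with σ hσ
    have hσ : 0 < σ := hσ
    rw [Real.norm_eq_abs, abs_mul, abs_of_pos (by positivity : 0 < σ ^ 2)]
    calc σ ^ 2 * |deriv (deriv (Ab j q)) σ| ≤ σ ^ 2 * (C / σ) :=
          mul_le_mul_of_nonneg_left (hC σ hσ) (by positivity)
      _ = C * σ := by field_simp

private theorem AB3_bd {q : ℝ → ℝ} {ρ : ℝ} (hρ : 0 ≤ ρ) (h : Tl q ρ) (j : ℕ) :
    ∃ C : ℝ, 0 ≤ C ∧ ∀ σ : ℝ, 0 < σ → |deriv (deriv (Ab j q)) σ| ≤ C / σ ^ 2 := by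
  by_cases hj : j = 0
  · subst hj
    obtain ⟨C, hC⟩ := Ab_bound2 hρ h
    refine ⟨C, ?_, hC⟩
    have := (abs_nonneg _).trans (hC 1 one_pos)
    simpa using this
  · obtain ⟨C, hC⟩ := Ab_bound2' hρ h (Nat.one_le_iff_ne_zero.2 hj)
    have hC0 : 0 ≤ C := by
      have := (abs_nonneg _).trans (hC 1 one_pos)
      simpa using this
    refine ⟨C * (ρ ^ 2 + 1), by positivity, fun σ hσ => ?_⟩
    by_cases hσM : σ ≤ ρ ^ 2 + 1
    · refine (hC σ hσ).trans ?_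
      rw [div_le_div_iff₀ hσ (by positivity)]
      have : σ * σ ≤ (ρ ^ 2 + 1) * σ := mul_le_mul_of_nonneg_right hσM hσ.le
      nlinarith
    · have hz := (Pf_deriv (Pf_deriv (AB3_Pf hρ h j))).supp σ (by linarith [not_le.1 hσM])
      rw [hz, abs_zero]
      positivity

private theorem AB3_ring : Integrable (fun w : ℝ × ℝ => ((1 + w.1 ^ 2 + w.2 ^ 2) ^ 2)⁻¹) ∧
    ∫ w : ℝ × ℝ, ((1 + w.1 ^ 2 + w.2 ^ 2) ^ 2)⁻¹ = Real.pi := by
  constructor
  · have h1 : Integrable (fun w : ℝ × ℝ => (1 + ‖w‖ ^ 2) ^ (-(4 : ℝ) / 2)) := by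
      apply integrable_rpow_neg_one_add_norm_sq
      simp
      norm_num
    refine h1.mono' ?_ (Eventually.of_forall fun w => ?_)
    · apply Continuous.aestronglyMeasurable
      apply Continuous.inv₀ (by fun_prop)
      intro w
      positivity
    · rw [Real.norm_eq_abs, abs_of_nonneg (by positivity)]
      have h2 : (1 + ‖w‖ ^ 2) ^ (-(4 : ℝ) / 2) = ((1 + ‖w‖ ^ 2) ^ 2)⁻¹ := by
        rw [show (-(4 : ℝ) / 2) = -((2 : ℕ) : ℝ) by norm_num, Real.rpow_neg (by positivity),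
          Real.rpow_natCast]
      rw [h2]
      apply inv_anti₀ (by positivity)
      apply pow_le_pow_left₀ (by positivity)
      have h3 : ‖w‖ ^ 2 ≤ w.1 ^ 2 + w.2 ^ 2 := by
        rw [Prod.norm_def]
        rcases max_cases ‖w.1‖ ‖w.2‖ with ⟨hm, -⟩ | ⟨hm, -⟩ <;> rw [hm, Real.norm_eq_abs, sq_abs]
        · linarith [sq_nonneg w.2]
        · linarith [sq_nonneg w.1]
      linarith
  · rw [← integral_comp_polarCoord_symm]
    have e1 : ∀ p ∈ polarCoord.target, p.1 • ((1 + (polarCoord.symm p).1 ^ 2 +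
        (polarCoord.symm p).2 ^ 2) ^ 2)⁻¹ = (p.1 * ((1 + p.1 ^ 2) ^ 2)⁻¹) * (1 : ℝ) := by
      intro p _
      rw [polarCoord_symm_apply]
      have : 1 + (p.1 * Real.cos p.2) ^ 2 + (p.1 * Real.sin p.2) ^ 2 = 1 + p.1 ^ 2 := by
        have := Real.sin_sq_add_cos_sq p.2
        linear_combination (p.1 ^ 2) * this
      simp only [this, smul_eq_mul, mul_one]
    rw [setIntegral_congr_fun polarCoord.open_target.measurableSet e1, polarCoord_target,
      Measure.volume_eq_prod, setIntegral_prod_mul (fun r : ℝ => r * ((1 + r ^ 2) ^ 2)⁻¹)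
        (fun _ => (1 : ℝ))]
    have h2 : ∫ r in Ioi (0 : ℝ), r * ((1 + r ^ 2) ^ 2)⁻¹ = 1 / 2 := by
      have hderiv : ∀ x ∈ Ici (0 : ℝ), HasDerivAt (fun r : ℝ => -(1 / 2) * (1 + r ^ 2)⁻¹)
          (x * ((1 + x ^ 2) ^ 2)⁻¹) x := by
        intro x _
        have h3 : HasDerivAt (fun r : ℝ => 1 + r ^ 2) (2 * x) x := by
          simpa using (hasDerivAt_pow 2 x).const_add 1
        have h4 := (h3.inv (by positivity)).const_mul (-(1 / 2))
        refine h4.congr_deriv ?_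
        field_simp
      have hlim : Tendsto (fun r : ℝ => -(1 / 2) * (1 + r ^ 2)⁻¹) atTop
          (𝓝 (-(1 / 2) * 0)) := by
        apply Tendsto.const_mul
        apply Tendsto.inv_tendsto_atTop
        exact tendsto_atTop_add_const_left _ _ (tendsto_pow_atTop two_ne_zero)
      have hpos : ∀ x ∈ Ioi (0 : ℝ), 0 ≤ x * ((1 + x ^ 2) ^ 2)⁻¹ := by
        intro x hx
        have hx : 0 < x := hx
        positivity
      rw [integral_Ioi_of_hasDerivAt_of_nonneg' hderiv hpos hlim]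
      norm_num
    rw [h2]
    have hpi := Real.pi_pos
    simp
    rw [max_eq_left (by linarith)]
    ring

theorem Ab_dirac {q : ℝ → ℝ} {ρ : ℝ} (hρ : 0 ≤ ρ) (h : Tl q ρ) (j : ℕ) {ψ : ℝ × ℝ → ℝ}
    (hψ : Continuous ψ) :
    Tendsto (fun ε : ℝ => ∫ v : ℝ × ℝ,
      4 * ε * deriv (deriv (Ab j q)) (v.1 ^ 2 + v.2 ^ 2 + ε) * ψ v) (𝓝[>] 0)
      (𝓝 (if j = 0 then -2 * deriv q 0 * ψ 0 else 0)) := by
  obtain ⟨C, hC0, hC⟩ := AB3_bd hρ h j
  have hlim := AB3_lim2 hρ h j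
  set c : ℝ := if j = 0 then -(deriv q 0 / (2 * Real.pi)) else 0 with hc
  set B : ℝ → ℝ := deriv (deriv (Ab j q)) with hB
  have hPf := Pf_deriv (Pf_deriv (AB3_Pf hρ h j))
  have hBc : ContinuousOn B (Ioi 0) := hPf.smooth.continuousOn
  have hBs : ∀ s, ρ ^ 2 < s → B s = 0 := hPf.supp
  obtain ⟨K, hK⟩ := (isCompact_closedBall (0 : ℝ × ℝ) ρ).exists_bound_of_continuousOn
    hψ.continuousOn
  obtain ⟨hri, hre⟩ := AB3_ring
  have hval : (if j = 0 then -2 * deriv q 0 * ψ 0 else 0) =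
      ∫ w : ℝ × ℝ, 4 * c * ψ 0 * ((1 + w.1 ^ 2 + w.2 ^ 2) ^ 2)⁻¹ := by
    rw [integral_const_mul, hre, hc]
    split_ifs
    · have := Real.pi_pos
      field_simp
      ring
    · ring
  rw [hval]
  have hchange : ∀ ε : ℝ, 0 < ε → ∫ v : ℝ × ℝ, 4 * ε * B (v.1 ^ 2 + v.2 ^ 2 + ε) * ψ v =
      ∫ w : ℝ × ℝ, 4 * (ε ^ 2 * B (ε * (1 + w.1 ^ 2 + w.2 ^ 2))) * ψ (√ε • w) := by
    intro ε hε
    have h1 := Measure.integral_comp_smul (volume : Measure (ℝ × ℝ))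
      (fun v : ℝ × ℝ => 4 * ε * B (v.1 ^ 2 + v.2 ^ 2 + ε) * ψ v) (√ε)
    have h2 : Module.finrank ℝ (ℝ × ℝ) = 2 := by simp
    rw [h2, Real.sq_sqrt hε.le, abs_of_pos (inv_pos.2 hε), smul_eq_mul] at h1
    have h3 : ∫ v : ℝ × ℝ, 4 * ε * B (v.1 ^ 2 + v.2 ^ 2 + ε) * ψ v =
        ε * ∫ w : ℝ × ℝ, 4 * ε * B ((√ε • w).1 ^ 2 + (√ε • w).2 ^ 2 + ε) * ψ (√ε • w) := by
      rw [h1, ← mul_assoc, mul_inv_cancel₀ hε.ne', one_mul]
    rw [h3, ← integral_const_mul]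
    congr 1
    funext w
    have h4 : (√ε • w).1 ^ 2 + (√ε • w).2 ^ 2 + ε = ε * (1 + w.1 ^ 2 + w.2 ^ 2) := by
      have h5 := Real.sq_sqrt hε.le
      simp only [Prod.smul_fst, Prod.smul_snd, smul_eq_mul]
      linear_combination (w.1 ^ 2 + w.2 ^ 2) * h5
    rw [h4]
    ring
  refine Tendsto.congr' (f₁ := fun ε : ℝ => ∫ w : ℝ × ℝ,
    4 * (ε ^ 2 * B (ε * (1 + w.1 ^ 2 + w.2 ^ 2))) * ψ (√ε • w)) ?_ ?_
  · filter_upwards [self_mem_nhdsWithin] with ε hε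
    exact (hchange ε hε).symm
  apply tendsto_integral_filter_of_dominated_convergence
    (fun w : ℝ × ℝ => 4 * C * K * ((1 + w.1 ^ 2 + w.2 ^ 2) ^ 2)⁻¹)
  · filter_upwards [self_mem_nhdsWithin] with ε hε
    have hε : 0 < ε := hε
    apply Continuous.aestronglyMeasurable
    apply Continuous.mul
    · apply continuous_const.mul (continuous_const.mul _)
      apply hBc.comp_continuous (by fun_prop)
      intro w
      show 0 < ε * (1 + w.1 ^ 2 + w.2 ^ 2)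
      positivity
    · exact hψ.comp (continuous_const_smul _)
  · filter_upwards [self_mem_nhdsWithin] with ε hε
    have hε : 0 < ε := hε
    refine Eventually.of_forall fun w => ?_
    set u : ℝ := 1 + w.1 ^ 2 + w.2 ^ 2 with hu
    have hu1 : 0 < u := by positivity
    by_cases hs : ρ ^ 2 < ε * u
    · rw [hBs _ hs]
      have hK0 : 0 ≤ K := (norm_nonneg _).trans (hK 0 (by simpa using hρ))
      simp only [mul_zero, zero_mul, norm_zero]
      positivity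
    · have hw : √ε • w ∈ Metric.closedBall (0 : ℝ × ℝ) ρ := by
        rw [mem_closedBall_zero_iff]
        have h6 : ‖√ε • w‖ ^ 2 ≤ ρ ^ 2 := by
          have h7 : ‖w‖ ^ 2 ≤ w.1 ^ 2 + w.2 ^ 2 := by
            rw [Prod.norm_def]
            rcases max_cases ‖w.1‖ ‖w.2‖ with ⟨hm, -⟩ | ⟨hm, -⟩ <;>
              rw [hm, Real.norm_eq_abs, sq_abs]
            · linarith [sq_nonneg w.2]
            · linarith [sq_nonneg w.1]
          rw [norm_smul, mul_pow, Real.norm_eq_abs, sq_abs, Real.sq_sqrt hε.le]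
          have h8 : ε * u ≤ ρ ^ 2 := not_lt.1 hs
          have h9 : ε * ‖w‖ ^ 2 ≤ ε * (w.1 ^ 2 + w.2 ^ 2) := mul_le_mul_of_nonneg_left h7 hε.le
          rw [hu] at h8
          nlinarith
        exact le_of_sq_le_sq h6 hρ
      have h5 := hK _ hw
      have h6 := hC (ε * u) (by positivity)
      rw [norm_mul, norm_mul, norm_mul, Real.norm_eq_abs, Real.norm_eq_abs, Real.norm_eq_abs]
      have h7 : |(4 : ℝ)| = 4 := by norm_num
      rw [h7, abs_of_pos (by positivity : 0 < ε ^ 2)]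
      have h8 : ε ^ 2 * |B (ε * u)| ≤ C * (u ^ 2)⁻¹ := by
        calc ε ^ 2 * |B (ε * u)| ≤ ε ^ 2 * (C / (ε * u) ^ 2) :=
              mul_le_mul_of_nonneg_left h6 (by positivity)
          _ = C * (u ^ 2)⁻¹ := by field_simp
      have h9 : 0 ≤ ε ^ 2 * |B (ε * u)| := by positivity
      calc 4 * (ε ^ 2 * |B (ε * u)|) * ‖ψ (√ε • w)‖ ≤ 4 * (C * (u ^ 2)⁻¹) * K := by
            apply mul_le_mul _ h5 (norm_nonneg _) (by positivity)
            linarith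
        _ = _ := by ring
  · exact hri.const_mul _
  · refine Eventually.of_forall fun w => ?_
    set u : ℝ := 1 + w.1 ^ 2 + w.2 ^ 2 with hu
    have hu1 : 0 < u := by positivity
    have h1 : Tendsto (fun ε : ℝ => ε * u) (𝓝[>] 0) (𝓝[>] 0) := by
      apply tendsto_nhdsWithin_of_tendsto_nhds_of_eventually_within
      · have : Tendsto (fun ε : ℝ => ε * u) (𝓝 0) (𝓝 (0 * u)) :=
          (continuous_id.mul continuous_const).tendsto 0
        rw [zero_mul] at this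
        exact this.mono_left nhdsWithin_le_nhds
      · filter_upwards [self_mem_nhdsWithin] with ε hε
        have hε : 0 < ε := hε
        exact mul_pos hε hu1
    have h2 := hlim.comp h1
    have h3 : Tendsto (fun ε : ℝ => ψ (√ε • w)) (𝓝[>] 0) (𝓝 (ψ 0)) := by
      have h4 : Tendsto (fun ε : ℝ => ψ (√ε • w)) (𝓝 0) (𝓝 (ψ (√0 • w))) :=
        (hψ.comp (Real.continuous_sqrt.smul continuous_const)).tendsto 0
      rw [Real.sqrt_zero, zero_smul] at h4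
      exact h4.mono_left nhdsWithin_le_nhds
    have h5 := ((h2.const_mul (4 * (u ^ 2)⁻¹)).mul h3)
    have e1 : 4 * c * ψ 0 * (u ^ 2)⁻¹ = 4 * (u ^ 2)⁻¹ * c * ψ 0 := by ring
    rw [e1]
    refine h5.congr' ?_
    filter_upwards [self_mem_nhdsWithin] with ε hε
    simp only [Function.comp]
    have : 4 * (u ^ 2)⁻¹ * ((ε * u) ^ 2 * B (ε * u)) = 4 * (ε ^ 2 * B (ε * u)) := by
      field_simp
    rw [this]

/-- The singularity of the transforms is at most logarithmic. -/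
theorem Ab_log {q : ℝ → ℝ} {ρ : ℝ} (hρ : 0 ≤ ρ) (h : Tl q ρ) (j : ℕ) :
    ∃ C : ℝ, ∀ σ : ℝ, 0 < σ → |Ab j q σ| ≤ C * (1 + |Real.log σ|) := by
  obtain ⟨C, -, hC⟩ := AB3_log0 hρ h j
  exact ⟨C, hC⟩

end BR
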