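import Pool.Agent.LibBR70.AB2

/-! Row AB4 (only Mathlib, strong): for even `g` the function `A_j g (|v|²)` is smooth on the plane.
Plan. `even_div`: for `g` smooth and even, `g'` is odd, `Dg t = ∫ s in 0..1, g''(s t)` is smooth
(parameter integral of a smooth function), even, and `g' t = t * Dg t`; `Dg t = g' t / t` for
`t ≠ 0`; same support. `radial_smooth'`: for `k` smooth and even the function `x ↦ k ‖x‖` on a
Euclidean (inner product, finite-dimensional) space is smooth: show `ContDiff ℝ n` for all `n : ℕ`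
and all even smooth `k` by induction on `n`: it has the derivative `x ↦ (Dk ‖x‖) • ⟪x, ·⟫`
(for `x ≠ 0` chain rule; at `0`: `|k ‖x‖ - k 0| ≤ C ‖x‖ ^ 2`), to which the induction hypothesis
applies. `Ab_even`: substitute `v = t^2` in `FI`: for `σ ≥ 0`
`FI j (Pq g) σ = ∫_0^∞ (1/2) Dg(√(σ + t²)) 2 t^(2j) dt = ∫_0^∞ Dg(√(σ + t²)) t^(2j) dt`. With
`σ = |v|²` the integrand is the smooth radial function `Dg(‖(v, t)‖)` on `ℝ³` times `t^(2j)`,
supported in `t ≤ ρ`: differentiate under the integral (compactly supported parameter integral;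
e.g. write it as an interval integral over `[0, ρ + 1]` of a smooth function and induct on the order
as in row JB7, or use `contDiff_parametric...` if available in Mathlib). -/

open Set Filter Topology MeasureTheory
open scoped ContDiff

namespace BR

private theorem AB4_param {P : Type*} [NormedAddCommGroup P] [NormedSpace ℝ P] {h : P → ℝ → ℝ}
    (hh : ContDiff ℝ ∞ (fun q : P × ℝ => h q.1 q.2)) (a b : ℝ) (hab : a ≤ b) :
    ContDiff ℝ ∞ (fun p => ∫ t in a..b, h p t) := by
  have hR : (0 : ℝ) < |a| + |b| + 1 := by positivity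
  let χ : ContDiffBump (0 : ℝ) := ⟨|a| + |b| + 1, |a| + |b| + 2, hR, by linarith⟩
  let f : ℝ → ℝ := indicator (Ioc a b) (fun _ => (1 : ℝ))
  let g : P → ℝ → ℝ := fun p y => χ (-y) * h p (-y)
  have hf : LocallyIntegrable f volume := by
    apply Integrable.locallyIntegrable
    exact (integrable_indicator_iff measurableSet_Ioc).2
      (integrableOn_const (by simp) (by simp))
  have hgs : ∀ p, ∀ x, p ∈ (univ : Set P) → x ∉ Metric.closedBall (0 : ℝ) (|a| + |b| + 2) →
      g p x = 0 := by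
    intro p x _ hx
    have : χ (-x) = 0 := by
      apply χ.zero_of_le_dist
      simp only [Metric.mem_closedBall, dist_zero_right, Real.norm_eq_abs, not_le] at hx
      simp only [dist_zero_right, norm_neg, Real.norm_eq_abs]
      exact hx.le
    simp only [g, this, zero_mul]
  have hg : ContDiffOn ℝ ∞ (Function.uncurry g) (univ ×ˢ univ) := by
    apply ContDiff.contDiffOn
    have h1 : ContDiff ℝ ∞ (fun q : P × ℝ => χ (-q.2)) :=
      χ.contDiff.comp (contDiff_snd.neg)
    have h2 : ContDiff ℝ ∞ (fun q : P × ℝ => h q.1 (-q.2)) :=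
      hh.comp (contDiff_fst.prodMk contDiff_snd.neg)
    exact h1.mul h2
  have key := contDiffOn_convolution_right_with_param (𝕜 := ℝ) (n := ⊤)
    (ContinuousLinearMap.mul ℝ ℝ) (isOpen_univ) (isCompact_closedBall (0 : ℝ) (|a| + |b| + 2))
    hgs hf hg
  have key2 : ContDiff ℝ ∞ (fun q : P × ℝ =>
      (convolution f (g q.1) (ContinuousLinearMap.mul ℝ ℝ) volume) q.2) := by
    rw [← contDiffOn_univ, ← univ_prod_univ]
    exact key
  have key3 : ContDiff ℝ ∞ (fun p : P =>
      (convolution f (g p) (ContinuousLinearMap.mul ℝ ℝ) volume) (0 : ℝ)) :=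
    key2.comp (contDiff_id.prodMk contDiff_const)
  convert key3 using 2 with p
  rw [convolution_def, intervalIntegral.integral_of_le hab, ← integral_indicator measurableSet_Ioc]
  refine integral_congr_ae (Eventually.of_forall fun t => ?_)
  by_cases ht : t ∈ Ioc a b
  · have hχ : χ t = 1 := by
      apply χ.one_of_mem_closedBall
      simp only [Metric.mem_closedBall, dist_zero_right, Real.norm_eq_abs]
      show |t| ≤ |a| + |b| + 1
      rw [abs_le]
      constructor
      · have := neg_abs_le a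
        have := abs_nonneg b
        linarith [ht.1]
      · have := le_abs_self b
        have := abs_nonneg a
        linarith [ht.2]
    simp [f, g, ht, hχ]
  · simp [f, ht]

private theorem AB4_div0 {g : ℝ → ℝ} (hg : ContDiff ℝ ∞ g) (he : ∀ t, g (-t) = g t) :
    ∃ Dg : ℝ → ℝ, ContDiff ℝ ∞ Dg ∧ (∀ t, Dg (-t) = Dg t) ∧ (∀ t, deriv g t = t * Dg t) := by
  have hg' : ContDiff ℝ ∞ (deriv g) := by
    have := (contDiff_infty_iff_deriv).1 hg
    exact this.2
  have hg'' : ContDiff ℝ ∞ (deriv (deriv g)) := ((contDiff_infty_iff_deriv).1 hg').2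
  have hodd : ∀ t, deriv g (-t) = -deriv g t := by
    intro t
    have h1 : deriv (fun t => g (-t)) t = -deriv g (-t) := deriv_comp_neg g t
    have h2 : (fun t => g (-t)) = g := funext he
    rw [h2] at h1
    linarith
  have hev : ∀ t, deriv (deriv g) (-t) = deriv (deriv g) t := by
    intro t
    have h1 : deriv (fun t => deriv g (-t)) t = -deriv (deriv g) (-t) :=
      deriv_comp_neg (deriv g) t
    have h2 : (fun t => deriv g (-t)) = fun t => -deriv g t := funext hodd
    rw [h2, deriv.fun_neg] at h1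
    linarith
  refine ⟨fun t => ∫ s in (0 : ℝ)..1, deriv (deriv g) (s * t), ?_, ?_, ?_⟩
  · apply AB4_param (h := fun t s => deriv (deriv g) (s * t)) _ 0 1 zero_le_one
    exact hg''.comp (contDiff_snd.mul contDiff_fst)
  · intro t
    simp only [mul_neg, hev]
  · intro t
    have h0 : deriv g 0 = 0 := by
      have := hodd 0
      rw [neg_zero] at this
      linarith
    have h1 : t * ∫ s in (0 : ℝ)..1, deriv (deriv g) (s * t) =
        ∫ s in (0 : ℝ) * t..1 * t, deriv (deriv g) s := by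
      rw [← smul_eq_mul, intervalIntegral.smul_integral_comp_mul_right]
    show deriv g t = t * ∫ s in (0 : ℝ)..1, deriv (deriv g) (s * t)
    rw [h1, zero_mul, one_mul, intervalIntegral.integral_deriv_eq_sub]
    · rw [h0, sub_zero]
    · intro x _
      exact (hg'.differentiable (by simp)).differentiableAt
    · exact (hg''.continuous).intervalIntegrable _ _

theorem even_div {g : ℝ → ℝ} (hg : ContDiff ℝ ∞ g) (he : ∀ t, g (-t) = g t) {ρ : ℝ}
    (hs : ∀ t, ρ < |t| → g t = 0) :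
    ∃ Dg : ℝ → ℝ, ContDiff ℝ ∞ Dg ∧ (∀ t, Dg (-t) = Dg t) ∧ (∀ t, deriv g t = t * Dg t) ∧
      ∀ t, ρ < |t| → Dg t = 0 := by
  obtain ⟨D, h1, h2, h3⟩ := AB4_div0 hg he
  have hz : ∀ t, ρ < |t| → deriv g t = 0 := by
    intro t ht
    have : g =ᶠ[𝓝 t] fun _ => (0 : ℝ) := by
      have : {x : ℝ | ρ < |x|} ∈ 𝓝 t :=
        (isOpen_lt continuous_const continuous_abs).mem_nhds ht
      filter_upwards [this] with x hx using hs x hx
    rw [this.deriv_eq, deriv_const]
  refine ⟨D, h1, h2, h3, ?_⟩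
  have hz2 : ∀ t, ρ < |t| → t ≠ 0 → D t = 0 := by
    intro t ht h0
    have := h3 t
    rw [hz t ht] at this
    rcases mul_eq_zero.1 this.symm with h | h
    · exact absurd h h0
    · exact h
  intro t ht
  by_cases h0 : t = 0
  · -- approach by nearby points
    subst h0
    have hopen : {x : ℝ | ρ < |x|} ∈ 𝓝 (0 : ℝ) :=
      (isOpen_lt continuous_const continuous_abs).mem_nhds ht
    have hev : D =ᶠ[𝓝[≠] (0 : ℝ)] fun _ => (0 : ℝ) := by
      filter_upwards [mem_nhdsWithin_of_mem_nhds hopen, self_mem_nhdsWithin] with x hx hx0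
      exact hz2 x hx hx0
    have hc : Tendsto D (𝓝[≠] (0 : ℝ)) (𝓝 (D 0)) :=
      (h1.continuous.tendsto 0).mono_left nhdsWithin_le_nhds
    have hc2 : Tendsto D (𝓝[≠] (0 : ℝ)) (𝓝 0) :=
      (tendsto_const_nhds).congr' hev.symm
    exact tendsto_nhds_unique hc hc2
  · exact hz2 t ht h0

private theorem AB4_radial {F : Type} [NormedAddCommGroup F] [InnerProductSpace ℝ F] (n : ℕ) :
    ∀ {k : ℝ → ℝ}, ContDiff ℝ ∞ k → (∀ t, k (-t) = k t) →
      ContDiff ℝ n (fun x : F => k ‖x‖) := by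
  induction n with
  | zero =>
    intro k hk _
    rw [Nat.cast_zero, contDiff_zero]
    exact hk.continuous.comp continuous_norm
  | succ n ih =>
    intro k hk he
    obtain ⟨D, h1, h2, h3⟩ := AB4_div0 hk he
    have hD := ih h1 h2
    rw [Nat.cast_succ, contDiff_succ_iff_hasFDerivAt]
    refine ⟨fun x => D ‖x‖ • innerSL ℝ x, ?_, ?_⟩
    · exact hD.smul (innerSL ℝ (E := F)).contDiff
    · intro x
      by_cases hx : x = 0
      · subst hx
        have hd : HasDerivAt k 0 0 := by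
          have := (hk.differentiable (by simp)).differentiableAt (x := (0 : ℝ)) |>.hasDerivAt
          rw [h3 0, zero_mul] at this
          exact this
        have e0 : D ‖(0 : F)‖ • innerSL ℝ (0 : F) = (0 : F →L[ℝ] ℝ) := by simp
        show HasFDerivAt (fun x : F => k ‖x‖) (D ‖(0 : F)‖ • innerSL ℝ (0 : F)) 0
        rw [e0, hasFDerivAt_iff_isLittleO_nhds_zero]
        have ho := hd.hasFDerivAt
        rw [hasFDerivAt_iff_isLittleO_nhds_zero] at ho
        have ht : Tendsto (fun y : F => ‖y‖) (𝓝 0) (𝓝 0) := by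
          simpa using (continuous_norm (E := F)).tendsto 0
        have := ho.comp_tendsto ht
        rw [Asymptotics.isLittleO_iff] at this ⊢
        intro c hc
        filter_upwards [this hc] with y hy
        simpa using hy
      · have hn : HasFDerivAt (fun y : F => ‖y‖) ((‖x‖)⁻¹ • innerSL ℝ x) x := by
          have h4 := (hasStrictFDerivAt_norm_sq (F := F) x).hasFDerivAt
          have hx0 : ‖x‖ ≠ 0 := norm_ne_zero_iff.2 hx
          have h5 : HasFDerivAt (fun y : F => √(‖y‖ ^ 2)) ((1 / (2 * √(‖x‖ ^ 2))) • (2 • innerSL ℝ x)) x :=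
            h4.sqrt (pow_ne_zero 2 hx0)
          have e1 : (fun y : F => √(‖y‖ ^ 2)) = fun y : F => ‖y‖ := by
            funext y
            exact Real.sqrt_sq (norm_nonneg y)
          rw [e1, Real.sqrt_sq (norm_nonneg x)] at h5
          convert h5 using 1
          ext z
          simp only [smul_apply, smul_eq_mul, nsmul_eq_mul]
          push_cast
          field_simp
        have hd : HasDerivAt k (‖x‖ * D ‖x‖) ‖x‖ := by
          have := (hk.differentiable (by simp)).differentiableAt (x := ‖x‖) |>.hasDerivAt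
          rw [h3] at this
          exact this
        have := hd.comp_hasFDerivAt x hn
        have hx0 : ‖x‖ ≠ 0 := norm_ne_zero_iff.2 hx
        have e3 : (‖x‖ * D ‖x‖) • (‖x‖)⁻¹ • innerSL ℝ x = D ‖x‖ • innerSL ℝ x := by
          rw [smul_smul]
          congr 1
          field_simp
        rw [e3] at this
        exact this

theorem radial_even {F : Type} [NormedAddCommGroup F] [InnerProductSpace ℝ F] {k : ℝ → ℝ}
    (hk : ContDiff ℝ ∞ k) (he : ∀ t, k (-t) = k t) : ContDiff ℝ ∞ (fun x : F => k ‖x‖) :=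
  contDiff_infty.2 fun n => AB4_radial n hk he

theorem Ab_even {g : ℝ → ℝ} (hg : ContDiff ℝ ∞ g) (he : ∀ t, g (-t) = g t) {ρ : ℝ}
    (hs : ∀ t, ρ < |t| → g t = 0) (j : ℕ) :
    ContDiff ℝ ∞ (fun v : ℝ × ℝ => Ab j g (v.1 ^ 2 + v.2 ^ 2)) := by
  obtain ⟨D, h1, h2, h3, h4⟩ := even_div hg he hs
  set R : ℝ := |ρ| + 1 with hR
  have hR0 : 0 ≤ R := by positivity
  have hRρ : ρ < R := by have := le_abs_self ρ; linarith
  have hFI : ∀ σ : ℝ, 0 ≤ σ → FI j (Pq g) σ = ∫ t in (0 : ℝ)..R, D (√(σ + t ^ 2)) * t ^ (2 * j) := by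
    intro σ hσ
    have e1 := MeasureTheory.integral_comp_rpow_Ioi_of_pos
      (g := fun v : ℝ => Pq g (σ + v) * v ^ ((j : ℝ) - 1 / 2)) (p := 2) two_pos
    unfold FI
    rw [← e1, intervalIntegral.integral_of_le hR0]
    have e2 : ∀ t ∈ Ioi (0 : ℝ), ((2 : ℝ) * t ^ ((2 : ℝ) - 1)) •
        (Pq g (σ + t ^ (2 : ℝ)) * (t ^ (2 : ℝ)) ^ ((j : ℝ) - 1 / 2)) =
        D (√(σ + t ^ 2)) * t ^ (2 * j) := by
      intro t ht
      have ht : 0 < t := ht
      have hst : 0 < σ + t ^ 2 := by positivity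
      have hsq : 0 < √(σ + t ^ 2) := Real.sqrt_pos.2 hst
      rw [show t ^ (2 : ℝ) = t ^ 2 from Real.rpow_two t]
      rw [show ((2 : ℝ) - 1) = 1 by norm_num, Real.rpow_one]
      have e3 : (t ^ 2) ^ ((j : ℝ) - 1 / 2) = t ^ (2 * j) / t := by
        rw [← Real.rpow_two, ← Real.rpow_mul ht.le, ← Real.rpow_natCast t (2 * j)]
        rw [show (2 : ℝ) * ((j : ℝ) - 1 / 2) = ((2 * j : ℕ) : ℝ) - 1 by push_cast; ring]
        rw [Real.rpow_sub ht, Real.rpow_one]
      rw [e3]
      unfold Pq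
      rw [h3]
      simp only [smul_eq_mul]
      field_simp
    rw [setIntegral_congr_fun measurableSet_Ioi e2]
    apply setIntegral_eq_of_subset_of_forall_sdiff_eq_zero measurableSet_Ioi Ioc_subset_Ioi_self
    intro t ht
    have ht0 : 0 < t := ht.1
    have htR : R < t := by
      by_contra hcon
      exact ht.2 ⟨ht0, not_lt.1 hcon⟩
    have h5 : ρ < |√(σ + t ^ 2)| := by
      rw [abs_of_nonneg (Real.sqrt_nonneg _)]
      have : t ≤ √(σ + t ^ 2) := by
        apply Real.le_sqrt_of_sq_le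
        linarith
      linarith
    rw [h4 _ h5, zero_mul]
  have hA : ∀ v : ℝ × ℝ, Ab j g (v.1 ^ 2 + v.2 ^ 2) =
      -((∫ t in (0 : ℝ)..R, D (√(v.1 ^ 2 + v.2 ^ 2 + t ^ 2)) * t ^ (2 * j)) /
        (√Real.pi * Real.Gamma ((j : ℝ) + 1 / 2))) := by
    intro v
    unfold Ab
    rw [hFI _ (by positivity)]
  have hrad := radial_even (F := EuclideanSpace ℝ (Fin 3)) h1 h2
  have hmap : ContDiff ℝ ∞ (fun q : (ℝ × ℝ) × ℝ =>
      (!₂[q.1.1, q.1.2, q.2] : EuclideanSpace ℝ (Fin 3))) := by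
    rw [contDiff_euclidean]
    intro i
    fin_cases i
    · exact contDiff_fst.fst
    · exact contDiff_fst.snd
    · exact contDiff_snd
  have hint : ContDiff ℝ ∞ (fun q : (ℝ × ℝ) × ℝ =>
      D (√(q.1.1 ^ 2 + q.1.2 ^ 2 + q.2 ^ 2)) * q.2 ^ (2 * j)) := by
    have h6 := hrad.comp hmap
    have h7 : (fun q : (ℝ × ℝ) × ℝ => D (√(q.1.1 ^ 2 + q.1.2 ^ 2 + q.2 ^ 2))) =
        (fun x : EuclideanSpace ℝ (Fin 3) => D ‖x‖) ∘ (fun q : (ℝ × ℝ) × ℝ =>
          (!₂[q.1.1, q.1.2, q.2] : EuclideanSpace ℝ (Fin 3))) := by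
      funext q
      simp only [Function.comp]
      rw [EuclideanSpace.norm_eq]
      simp [Fin.sum_univ_three]
    have h8 : ContDiff ℝ ∞ (fun q : (ℝ × ℝ) × ℝ => D (√(q.1.1 ^ 2 + q.1.2 ^ 2 + q.2 ^ 2))) := by
      rw [h7]
      exact h6
    exact h8.mul (contDiff_snd.pow _)
  have hfin := AB4_param (h := fun (v : ℝ × ℝ) t =>
    D (√(v.1 ^ 2 + v.2 ^ 2 + t ^ 2)) * t ^ (2 * j)) hint 0 R hR0
  have : (fun v : ℝ × ℝ => Ab j g (v.1 ^ 2 + v.2 ^ 2)) = fun v : ℝ × ℝ =>
      -((∫ t in (0 : ℝ)..R, D (√(v.1 ^ 2 + v.2 ^ 2 + t ^ 2)) * t ^ (2 * j)) /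
        (√Real.pi * Real.Gamma ((j : ℝ) + 1 / 2))) := funext hA
  rw [this]
  exact (hfin.div_const _).neg

/-- One-dimensional version: `A_j g (t²)` is smooth and even in `t`. -/
theorem Ab_even_line {g : ℝ → ℝ} (hg : ContDiff ℝ ∞ g) (he : ∀ t, g (-t) = g t) {ρ : ℝ}
    (hs : ∀ t, ρ < |t| → g t = 0) (j : ℕ) : ContDiff ℝ ∞ (fun t : ℝ => Ab j g (t ^ 2)) := by
  have h1 := (Ab_even hg he hs j).comp
    (contDiff_id.prodMk contDiff_const : ContDiff ℝ ∞ (fun t : ℝ => (t, (0 : ℝ))))
  have h2 : (fun t : ℝ => Ab j g (t ^ 2)) =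
      (fun v : ℝ × ℝ => Ab j g (v.1 ^ 2 + v.2 ^ 2)) ∘ (fun t : ℝ => (t, (0 : ℝ))) := by
    funext t
    simp
  rw [h2]
  exact h1

end BR
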