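import Pool.Agent.LibBR70.FL_Defs

/-! Row FL1 (only Mathlib): uniqueness and the group law.
Plan. `FL_unique`: `ODE_solution_unique_of_mem_Ioo` or the connectedness argument (the set of
`t` in `Ioo a b` with `c t = d t` is closed in `Ioo a b`, nonempty, and open because `f` is locally
Lipschitz: `ContDiffAt.exists_lipschitzOnWith`, `ODE_solution_unique_of_eventually`).
Simplest: fix `t` in `Ioo a b`, say `0 <= t`; `c` and `d` are continuous on the compact `Icc 0 t`, so
both stay in one closed ball `B` (compact and convex since `E` is finite-dimensional), on which `f`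
is Lipschitz (`fderiv` bounded on the compact `B`, `Convex.lipschitzOnWith_of_nnnorm_fderiv_le`);
then `ODE_solution_unique_of_mem_Icc_right`; for `t < 0` reverse the time or use
`ODE_solution_unique_of_mem_Icc_left`.
`FL_eq`: apply it to `c` and `fun t => φ t (c 0)` on `Ioo (-R) R`. `FL_add`: apply `FL_eq` to
`fun s => φ (s + t) x`. -/

open Set Filter Topology
open scoped ContDiff

namespace BR

variable {E : Type} [NormedAddCommGroup E] [NormedSpace ℝ E] [FiniteDimensional ℝ E]

theorem FL_unique {f : E → E} (hf : ContDiff ℝ 1 f) {c d : ℝ → E} {a b : ℝ} (ha : a < 0)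
    (hb : 0 < b) (hc : ∀ t ∈ Ioo a b, HasDerivAt c (f (c t)) t)
    (hd : ∀ t ∈ Ioo a b, HasDerivAt d (f (d t)) t) (h0 : c 0 = d 0) :
    ∀ t ∈ Ioo a b, c t = d t := by
  intro t ht
  -- a compact interval around `0` and `t`
  obtain ⟨a', ha1, ha2⟩ : ∃ a', a < a' ∧ a' < min t 0 := exists_between (lt_min ht.1 ha)
  obtain ⟨b', hb1, hb2⟩ : ∃ b', max t 0 < b' ∧ b' < b := exists_between (max_lt ht.2 hb)
  have hat : a' < t := lt_of_lt_of_le ha2 (min_le_left _ _)
  have ha0 : a' < 0 := lt_of_lt_of_le ha2 (min_le_right _ _)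
  have hbt : t < b' := lt_of_le_of_lt (le_max_left _ _) hb1
  have hb0 : 0 < b' := lt_of_le_of_lt (le_max_right _ _) hb1
  have hsub : Icc a' b' ⊆ Ioo a b := fun s hs => ⟨lt_of_lt_of_le ha1 hs.1, lt_of_le_of_lt hs.2 hb2⟩
  have hcc : ContinuousOn c (Icc a' b') :=
    HasDerivAt.continuousOn fun s hs => hc s (hsub hs)
  have hdc : ContinuousOn d (Icc a' b') :=
    HasDerivAt.continuousOn fun s hs => hd s (hsub hs)
  have hbd : Bornology.IsBounded (c '' Icc a' b' ∪ d '' Icc a' b') :=
    ((isCompact_Icc.image_of_continuousOn hcc).isBounded).union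
      ((isCompact_Icc.image_of_continuousOn hdc).isBounded)
  obtain ⟨R, hR⟩ := hbd.subset_closedBall (0 : E)
  obtain ⟨K, hK⟩ := ContDiffOn.exists_lipschitzOnWith (hf.contDiffOn (s := Metric.closedBall (0 : E) R))
    one_ne_zero (convex_closedBall 0 R) (isCompact_closedBall 0 R)
  have h := ODE_solution_unique_of_mem_Icc (v := fun _ => f) (s := fun _ => Metric.closedBall (0 : E) R)
    (K := K) (f := c) (g := d) (a := a') (b := b') (t₀ := 0)
    (fun _ _ => hK) ⟨ha0, hb0⟩ hcc (fun s hs => hc s (hsub (Ioo_subset_Icc_self hs)))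
    (fun s hs => hR (Or.inl ⟨s, Ioo_subset_Icc_self hs, rfl⟩)) hdc
    (fun s hs => hd s (hsub (Ioo_subset_Icc_self hs)))
    (fun s hs => hR (Or.inr ⟨s, Ioo_subset_Icc_self hs, rfl⟩)) h0
  exact h ⟨hat.le, hbt.le⟩

theorem FL_eq {f : E → E} (hf : ContDiff ℝ 1 f) {φ : ℝ → E → E} (hφ : IsFlow f φ) {c : ℝ → E}
    (hc : ∀ t, HasDerivAt c (f (c t)) t) (t : ℝ) : c t = φ t (c 0) := by
  have hR : |t| < |t| + 1 := by linarith
  have hpos : 0 < |t| + 1 := by positivity
  exact FL_unique hf (c := c) (d := fun s => φ s (c 0)) (a := -(|t| + 1)) (b := |t| + 1)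
    (by linarith) hpos (fun s _ => hc s) (fun s _ => hφ.deriv (c 0) s)
    (by simp [hφ.zero]) t ⟨(abs_lt.1 hR).1, (abs_lt.1 hR).2⟩

theorem FL_add {f : E → E} (hf : ContDiff ℝ 1 f) {φ : ℝ → E → E} (hφ : IsFlow f φ) (s t : ℝ)
    (x : E) : φ (s + t) x = φ s (φ t x) := by
  have h := FL_eq hf hφ (c := fun s => φ (s + t) x)
    (fun s => (hφ.deriv x (s + t)).comp_add_const s t) s
  simpa using h

end BR
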