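import Pool.Agent.LibBR70.FL1

/-! Row FL4 (cite FL1): flows are locally Lipschitz in the initial point, and continuous.
Plan. `FL_lip`: the trajectory `t ↦ φ t x₀`, `|t| ≤ T`, is compact, so it lies in `closedBall 0 (R-1)`
for some `R`; `f` is Lipschitz with constant `L` on `closedBall 0 R` (convex, `fderiv` bounded on a
compact set). Let `δ = exp (-L T) / 2`. For `‖x - x₀‖ ≤ δ` the set of `t ∈ Icc 0 T` such that
`‖φ s x - φ s x₀‖ ≤ ‖x - x₀‖ exp (L s)` for all `s ≤ t` is closed, contains `0`, and is open in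
`Icc 0 T` (as long as it holds the trajectory is inside `closedBall 0 (R - 1/2)`, so for a short
time more it is in `closedBall 0 R`, where `dist_le_of_trajectories_ODE_of_mem` (Mathlib,
`Analysis/ODE/Gronwall.lean`) applies). Constant `C = exp (L T)`. Negative times: apply the result
to `-f` and `fun t => φ (-t)`.
`FL_cont`: at `(t₀, x₀)`: `‖φ t x - φ t₀ x₀‖ ≤ ‖φ t x - φ t x₀‖ + ‖φ t x₀ - φ t₀ x₀‖`, the first is
`≤ C ‖x - x₀‖` (with `T = |t₀| + 1`), the second tends to `0` (differentiable in `t`). -/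

open Set Filter Topology
open scoped ContDiff

namespace BR

variable {E : Type} [NormedAddCommGroup E] [NormedSpace ℝ E] [FiniteDimensional ℝ E]

private theorem FL4_cont_t {f : E → E} {φ : ℝ → E → E} (hφ : IsFlow f φ) (x : E) :
    Continuous fun t => φ t x :=
  continuous_iff_continuousAt.2 fun t => (hφ.deriv x t).continuousAt

private theorem FL4_pos {f : E → E} (hf : ContDiff ℝ 1 f) {φ : ℝ → E → E} (hφ : IsFlow f φ)
    (x₀ : E) {T : ℝ} (hT : 0 ≤ T) : ∃ δ > 0, ∃ C : ℝ, ∀ x : E, ‖x - x₀‖ ≤ δ → ∀ t : ℝ, 0 ≤ t →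
      t ≤ T → ‖φ t x - φ t x₀‖ ≤ C * ‖x - x₀‖ := by
  -- a ball containing the trajectory
  obtain ⟨R, hR⟩ : ∃ R : ℝ, ∀ t ∈ Icc (0 : ℝ) T, ‖φ t x₀‖ ≤ R := by
    obtain ⟨R, hR⟩ := (isCompact_Icc.image (FL4_cont_t hφ x₀)).isBounded.exists_norm_le
    exact ⟨R, fun t ht => hR _ (mem_image_of_mem _ ht)⟩
  have hcomp : IsCompact (Metric.closedBall (0 : E) (R + 1)) := isCompact_closedBall _ _
  -- the Lipschitz constant
  obtain ⟨K, hK⟩ : ∃ K : NNReal, LipschitzOnWith K f (Metric.closedBall (0 : E) (R + 1)) := by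
    have hc : Continuous fun x => ‖fderiv ℝ f x‖ := (hf.continuous_fderiv (by norm_num)).norm
    obtain ⟨M, hM⟩ := (hcomp.image hc).isBounded.exists_norm_le
    refine ⟨Real.toNNReal M, ?_⟩
    refine (convex_closedBall (0 : E) (R + 1)).lipschitzOnWith_of_nnnorm_fderiv_le
      (fun x _ => (hf.differentiable (by norm_num)) x) fun x hx => ?_
    have h1 : ‖‖fderiv ℝ f x‖‖ ≤ M := hM _ (mem_image_of_mem _ hx)
    rw [norm_norm] at h1
    rw [← NNReal.coe_le_coe, coe_nnnorm]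
    exact h1.trans (Real.le_coe_toNNReal M)
  have hexp : 0 < Real.exp (K * T) := Real.exp_pos _
  refine ⟨1 / (2 * Real.exp (K * T)), by positivity, Real.exp (K * T), fun x hx => ?_⟩
  have hx' : ‖x - x₀‖ * Real.exp (K * T) ≤ 1 / 2 := by
    have := mul_le_mul_of_nonneg_right hx hexp.le
    refine this.trans (le_of_eq ?_)
    field_simp
  -- the comparison on an interval on which the distance is less than one
  have key : ∀ S : ℝ, 0 ≤ S → S ≤ T → (∀ s ∈ Ico (0 : ℝ) S, ‖φ s x - φ s x₀‖ < 1) →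
      ∀ t ∈ Icc (0 : ℝ) S, ‖φ t x - φ t x₀‖ ≤ ‖x - x₀‖ * Real.exp (K * T) := by
    intro S hS hST h1 t ht
    have h2 := dist_le_of_trajectories_ODE_of_mem (v := fun _ => f)
      (s := fun _ => Metric.closedBall (0 : E) (R + 1)) (K := K)
      (f := fun t => φ t x) (g := fun t => φ t x₀) (a := 0) (b := S) (δ := ‖x - x₀‖)
      (fun _ _ => hK) (FL4_cont_t hφ x).continuousOn
      (fun s _ => (hφ.deriv x s).hasDerivWithinAt)
      (fun s hs => by
        rw [mem_closedBall_zero_iff]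
        have h3 := h1 s hs
        have h4 := hR s ⟨hs.1, hs.2.le.trans hST⟩
        have h5 : φ s x = (φ s x - φ s x₀) + φ s x₀ := by abel
        rw [h5]
        refine (norm_add_le _ _).trans ?_
        linarith)
      (FL4_cont_t hφ x₀).continuousOn
      (fun s _ => (hφ.deriv x₀ s).hasDerivWithinAt)
      (fun s hs => by
        rw [mem_closedBall_zero_iff]
        have h4 := hR s ⟨hs.1, hs.2.le.trans hST⟩
        linarith)
      (by rw [hφ.zero, hφ.zero, dist_eq_norm]) t ht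
    rw [dist_eq_norm, sub_zero] at h2
    refine h2.trans (mul_le_mul_of_nonneg_left ?_ (norm_nonneg _))
    exact Real.exp_le_exp.2 (mul_le_mul_of_nonneg_left (ht.2.trans hST) K.coe_nonneg)
  -- the distance is less than one on the whole interval
  have hg : Continuous fun t => ‖φ t x - φ t x₀‖ :=
    ((FL4_cont_t hφ x).sub (FL4_cont_t hφ x₀)).norm
  have hlt : ∀ s ∈ Icc (0 : ℝ) T, ‖φ s x - φ s x₀‖ < 1 := by
    by_contra hcon
    push Not at hcon
    obtain ⟨s, hs, hs1⟩ := hcon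
    have hcl : IsCompact (Icc (0 : ℝ) T ∩ {t | 1 ≤ ‖φ t x - φ t x₀‖}) :=
      isCompact_Icc.inter_right (isClosed_le continuous_const hg)
    obtain ⟨S, ⟨hS, hS1⟩, hmin⟩ := hcl.exists_isLeast ⟨s, hs, hs1⟩
    have h1 : ∀ t ∈ Ico (0 : ℝ) S, ‖φ t x - φ t x₀‖ < 1 := by
      intro t ht
      by_contra h2
      push Not at h2
      have h3 : S ≤ t := hmin ⟨⟨ht.1, ht.2.le.trans hS.2⟩, h2⟩
      exact absurd ht.2 (not_lt.2 h3)
    have h2 := key S hS.1 hS.2 h1 S ⟨hS.1, le_rfl⟩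
    have h3 : (1 : ℝ) ≤ ‖φ S x - φ S x₀‖ := hS1
    linarith
  intro t ht0 htT
  have h1 := key T hT le_rfl (fun s hs => hlt s ⟨hs.1, hs.2.le⟩) t ⟨ht0, htT⟩
  rw [mul_comm]
  exact h1

private theorem FL4_neg {f : E → E} {φ : ℝ → E → E} (hφ : IsFlow f φ) :
    IsFlow (fun x => -f x) (fun t => φ (-t)) := by
  refine ⟨fun x => ?_, fun x t => ?_⟩
  · show φ (-0) x = x
    rw [neg_zero]
    exact hφ.zero x
  · have h1 : HasDerivAt (fun s : ℝ => -s) (-1) t := hasDerivAt_neg t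
    have h2 := (hφ.deriv x (-t)).scomp t h1
    rw [neg_one_smul] at h2
    exact h2

theorem FL_lip {f : E → E} (hf : ContDiff ℝ 1 f) {φ : ℝ → E → E} (hφ : IsFlow f φ) (x₀ : E)
    (T : ℝ) : ∃ δ > 0, ∃ C : ℝ, ∀ x : E, ‖x - x₀‖ ≤ δ → ∀ t : ℝ, |t| ≤ T →
      ‖φ t x - φ t x₀‖ ≤ C * ‖x - x₀‖ := by
  rcases lt_or_ge T 0 with hT | hT
  · exact ⟨1, one_pos, 0, fun x _ t ht => absurd ht (not_le.2 (hT.trans_le (abs_nonneg t)))⟩
  obtain ⟨δ₁, hδ₁, C₁, h1⟩ := FL4_pos hf hφ x₀ hT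
  obtain ⟨δ₂, hδ₂, C₂, h2⟩ := FL4_pos hf.neg (FL4_neg hφ) x₀ hT
  refine ⟨min δ₁ δ₂, lt_min hδ₁ hδ₂, max C₁ C₂, fun x hx t ht => ?_⟩
  rcases le_total 0 t with ht0 | ht0
  · rw [abs_of_nonneg ht0] at ht
    exact (h1 x (hx.trans (min_le_left _ _)) t ht0 ht).trans
      (mul_le_mul_of_nonneg_right (le_max_left _ _) (norm_nonneg _))
  · rw [abs_of_nonpos ht0] at ht
    have h3 := h2 x (hx.trans (min_le_right _ _)) (-t) (by linarith) ht
    simp only [neg_neg] at h3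
    exact h3.trans (mul_le_mul_of_nonneg_right (le_max_right _ _) (norm_nonneg _))

theorem FL_cont {f : E → E} (hf : ContDiff ℝ 1 f) {φ : ℝ → E → E} (hφ : IsFlow f φ) :
    Continuous fun p : ℝ × E => φ p.1 p.2 := by
  rw [continuous_iff_continuousAt]
  rintro ⟨t₀, x₀⟩
  obtain ⟨δ, hδ, C, hC⟩ := FL_lip hf hφ x₀ (|t₀| + 1)
  show Tendsto (fun p : ℝ × E => φ p.1 p.2) (𝓝 (t₀, x₀)) (𝓝 (φ t₀ x₀))
  rw [tendsto_iff_norm_sub_tendsto_zero]
  have hlim : Tendsto (fun p : ℝ × E => C * ‖p.2 - x₀‖ + ‖φ p.1 x₀ - φ t₀ x₀‖) (𝓝 (t₀, x₀))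
      (𝓝 0) := by
    have hc : Continuous fun p : ℝ × E => C * ‖p.2 - x₀‖ + ‖φ p.1 x₀ - φ t₀ x₀‖ :=
      (continuous_const.mul (continuous_snd.sub continuous_const).norm).add
        (((FL4_cont_t hφ x₀).comp continuous_fst).sub continuous_const).norm
    have h1 := hc.tendsto (t₀, x₀)
    simp only [sub_self, norm_zero, mul_zero, add_zero] at h1
    exact h1
  refine squeeze_zero' (Eventually.of_forall fun p => norm_nonneg _) ?_ hlim
  have e1 : ∀ᶠ p : ℝ × E in 𝓝 (t₀, x₀), |p.1| ≤ |t₀| + 1 := by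
    have h1 : Continuous fun p : ℝ × E => |p.1| := continuous_fst.abs
    have h2 : ∀ᶠ p : ℝ × E in 𝓝 (t₀, x₀), |p.1| < |t₀| + 1 :=
      h1.continuousAt.eventually_lt continuousAt_const (by simp)
    exact h2.mono fun p hp => hp.le
  have e2 : ∀ᶠ p : ℝ × E in 𝓝 (t₀, x₀), ‖p.2 - x₀‖ ≤ δ := by
    have h1 : Continuous fun p : ℝ × E => ‖p.2 - x₀‖ := (continuous_snd.sub continuous_const).norm
    have h2 : ∀ᶠ p : ℝ × E in 𝓝 (t₀, x₀), ‖p.2 - x₀‖ < δ :=
      h1.continuousAt.eventually_lt continuousAt_const (by simpa using hδ)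
    exact h2.mono fun p hp => hp.le
  filter_upwards [e1, e2] with p hp1 hp2
  have h1 := hC p.2 hp2 p.1 hp1
  have h2 : φ p.1 p.2 - φ t₀ x₀ = (φ p.1 p.2 - φ p.1 x₀) + (φ p.1 x₀ - φ t₀ x₀) := by abel
  rw [h2]
  exact (norm_add_le _ _).trans (by linarith)

end BR
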