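import Pool.Agent.LibBR70.FL3
import Pool.Agent.LibBR70.FL4

/-! Row FL5 (cite FL1, FL3): the linearised field is complete and its flow is linear in the second
variable.
Plan. `FL_ext_exists`: `FL_exists` for `ext f` on `E × E`. A solution `c = (c₁, c₂)` of `ext f` on
`Ioo (-T) T` with `c 0 = (x, v)`: `c₁ t = φ t x` there (`FL_unique`), which is bounded on
`Icc (-R) R` (continuous), so `‖fderiv ℝ f (φ t x)‖ ≤ M` for `|t| ≤ R`, and Gronwall
(`norm_le_gronwallBound_of_norm_deriv_right_le`, both directions of time) gives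
`‖c₂ t‖ ≤ ‖v‖ exp (M R)`. `(Φ t p).1 = φ t p.1` by `FL_eq` (first component of the equation).
`FL_ext_lin`: for fixed `t`, `x` the map `v ↦ (Φ t (x, v)).2` is additive and homogeneous: both sides
(as functions of `t`, together with `φ t x` in the first component) solve the same equation
`ext f` with the same initial value: `FL_eq`. In finite dimension `LinearMap.toContinuousLinearMap`. -/

open Set Filter Topology
open scoped ContDiff

namespace BR

variable {E : Type} [NormedAddCommGroup E] [NormedSpace ℝ E] [FiniteDimensional ℝ E]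

theorem FL5_gron_pos {F : Type} [NormedAddCommGroup F] [NormedSpace ℝ F] {g g' : ℝ → F}
    {M T : ℝ} (hg : ∀ t ∈ Ioo (-T) T, HasDerivAt g (g' t) t)
    (hb : ∀ t ∈ Ioo (-T) T, ‖g' t‖ ≤ M * ‖g t‖) :
    ∀ t, 0 ≤ t → t < T → ‖g t‖ ≤ ‖g 0‖ * Real.exp (M * t) := by
  intro t h0 h1
  have hmem : ∀ s ∈ Icc 0 t, s ∈ Ioo (-T) T := fun s hs =>
    ⟨by linarith [hs.1], lt_of_le_of_lt hs.2 h1⟩
  have h2 := norm_le_gronwallBound_of_norm_deriv_right_le (f := g) (f' := g') (δ := ‖g 0‖)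
    (K := M) (ε := 0) (a := 0) (b := t)
    (fun s hs => (hg s (hmem s hs)).continuousAt.continuousWithinAt)
    (fun s hs => (hg s (hmem s (Ico_subset_Icc_self hs))).hasDerivWithinAt) le_rfl
    (fun s hs => by
      rw [add_zero]
      exact hb s (hmem s (Ico_subset_Icc_self hs))) t ⟨h0, le_rfl⟩
  rwa [sub_zero, gronwallBound_ε0] at h2

theorem FL5_gron {F : Type} [NormedAddCommGroup F] [NormedSpace ℝ F] {g g' : ℝ → F}
    {M T : ℝ} (hg : ∀ t ∈ Ioo (-T) T, HasDerivAt g (g' t) t)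
    (hb : ∀ t ∈ Ioo (-T) T, ‖g' t‖ ≤ M * ‖g t‖) :
    ∀ t ∈ Ioo (-T) T, ‖g t‖ ≤ ‖g 0‖ * Real.exp (M * |t|) := by
  intro t ht
  rcases le_total 0 t with h | h
  · rw [abs_of_nonneg h]
    exact FL5_gron_pos hg hb t h ht.2
  · rw [abs_of_nonpos h]
    have h1 := FL5_gron_pos (g := fun s => g (-s)) (g' := fun s => (-1 : ℝ) • g' (-s)) (M := M)
      (T := T) (fun s hs => by
        have h2 := (hg (-s) ⟨by linarith [hs.2], by linarith [hs.1]⟩).scomp s (hasDerivAt_neg s)
        exact h2) (fun s hs => by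
        rw [norm_smul, norm_neg, norm_one, one_mul]
        exact hb (-s) ⟨by linarith [hs.2], by linarith [hs.1]⟩) (-t) (by linarith)
        (by linarith [ht.1])
    simp only [neg_neg, neg_zero] at h1
    exact h1

theorem FL5_fst {f : E → E} {c : ℝ → E × E} {t : ℝ} (h : HasDerivAt c (ext f (c t)) t) :
    HasDerivAt (fun s => (c s).1) (f (c t).1) t :=
  (hasFDerivAt_fst (𝕜 := ℝ) (E := E) (F := E) (p := c t)).comp_hasDerivAt t h

theorem FL5_snd {f : E → E} {c : ℝ → E × E} {t : ℝ} (h : HasDerivAt c (ext f (c t)) t) :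
    HasDerivAt (fun s => (c s).2) (fderiv ℝ f (c t).1 (c t).2) t :=
  (hasFDerivAt_snd (𝕜 := ℝ) (E := E) (F := E) (p := c t)).comp_hasDerivAt t h

theorem FL_ext_contDiff {f : E → E} (hf : ContDiff ℝ ∞ f) : ContDiff ℝ ∞ (ext f) := by
  have h1 : ContDiff ℝ ∞ (fderiv ℝ f) := (contDiff_infty_iff_fderiv.1 hf).2
  exact (hf.comp contDiff_fst).prodMk ((h1.comp contDiff_fst).clm_apply contDiff_snd)

theorem FL_ext_exists {f : E → E} (hf : ContDiff ℝ ∞ f) {φ : ℝ → E → E} (hφ : IsFlow f φ) :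
    ∃ Φ : ℝ → E × E → E × E, IsFlow (ext f) Φ ∧ ∀ t p, (Φ t p).1 = φ t p.1 := by
  have hf1 : ContDiff ℝ 1 f := hf.of_le (by exact_mod_cast le_top)
  have hcont : ∀ x, Continuous fun t => φ t x := fun x =>
    continuous_iff_continuousAt.2 fun t => (hφ.deriv x t).continuousAt
  have hfd : Continuous (fderiv ℝ f) := hf1.continuous_fderiv one_ne_zero
  obtain ⟨Φ, hΦ⟩ : ∃ Φ : ℝ → E × E → E × E, IsFlow (ext f) Φ := by
    refine FL_exists ((FL_ext_contDiff hf).of_le (by exact_mod_cast le_top)) ?_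
    rintro ⟨x, v⟩ R hR
    obtain ⟨M1, hM1⟩ := (isCompact_Icc (a := -R) (b := R)).exists_bound_of_continuousOn
      (hcont x).continuousOn
    obtain ⟨M2, hM2⟩ := (isCompact_Icc (a := -R) (b := R)).exists_bound_of_continuousOn
      (f := fun t => fderiv ℝ f (φ t x)) (hfd.comp (hcont x)).continuousOn
    have hM20 : 0 ≤ M2 := (norm_nonneg _).trans (hM2 0 ⟨by linarith, hR.le⟩)
    refine ⟨max M1 (‖v‖ * Real.exp (M2 * R)), fun c T hT hTR hc0 hc t ht => ?_⟩
    have h3 : ∀ t ∈ Ioo (-T) T, (c t).1 = φ t x :=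
      FL_unique hf1 (by linarith) hT (fun t ht => FL5_fst (hc t ht))
        (fun t _ => hφ.deriv x t) (by rw [hc0, hφ.zero])
    have h4 := FL5_gron (M := M2) (fun t ht => FL5_snd (hc t ht)) (fun s hs => by
      refine ((fderiv ℝ f (c s).1).le_opNorm (c s).2).trans
        (mul_le_mul_of_nonneg_right ?_ (norm_nonneg _))
      rw [h3 s hs]
      exact hM2 s ⟨by linarith [hs.1], by linarith [hs.2]⟩) t ht
    rw [Prod.norm_def]
    refine max_le_max ?_ ?_
    · rw [h3 t ht]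
      exact hM1 t ⟨by linarith [ht.1], by linarith [ht.2]⟩
    · refine h4.trans ?_
      rw [hc0]
      have h5 : |t| ≤ R := abs_le.2 ⟨by linarith [ht.1], by linarith [ht.2]⟩
      have h6 : Real.exp (M2 * |t|) ≤ Real.exp (M2 * R) :=
        Real.exp_le_exp.2 (mul_le_mul_of_nonneg_left h5 hM20)
      exact mul_le_mul_of_nonneg_left h6 (norm_nonneg _)
  refine ⟨Φ, hΦ, fun t p => ?_⟩
  have h := FL_eq hf1 hφ (c := fun s => (Φ s p).1) (fun s => FL5_fst (hΦ.deriv p s)) t
  simp only [hΦ.zero] at h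
  exact h

theorem FL_ext_lin {f : E → E} (hf : ContDiff ℝ ∞ f) {φ : ℝ → E → E} (hφ : IsFlow f φ) :
    ∃ W : ℝ → E → E →L[ℝ] E, IsFlow (ext f) (fun t p => (φ t p.1, W t p.1 p.2)) := by
  have hf1 : ContDiff ℝ 1 f := hf.of_le (by exact_mod_cast le_top)
  have he1 : ContDiff ℝ 1 (ext f) := (FL_ext_contDiff hf).of_le (by exact_mod_cast le_top)
  obtain ⟨Φ, hΦ, h1⟩ := FL_ext_exists hf hφ
  have hd2 : ∀ (x v : E) (t : ℝ), HasDerivAt (fun s => (Φ s (x, v)).2)
      (fderiv ℝ f (φ t x) (Φ t (x, v)).2) t := by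
    intro x v t
    have := FL5_snd (hΦ.deriv (x, v) t)
    rwa [h1] at this
  have hadd : ∀ (t : ℝ) (x v w : E), (Φ t (x, v + w)).2 = (Φ t (x, v)).2 + (Φ t (x, w)).2 := by
    intro t x v w
    have h2 := FL_eq he1 hΦ (c := fun s => (φ s x, (Φ s (x, v)).2 + (Φ s (x, w)).2)) (by
      intro s
      have h3 : ext f (φ s x, (Φ s (x, v)).2 + (Φ s (x, w)).2) =
          (f (φ s x), fderiv ℝ f (φ s x) (Φ s (x, v)).2 +
            fderiv ℝ f (φ s x) (Φ s (x, w)).2) := by
        unfold ext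
        rw [map_add]
      rw [h3]
      exact (hφ.deriv x s).prodMk ((hd2 x v s).add (hd2 x w s))) t
    simp only [hΦ.zero, hφ.zero] at h2
    exact (congrArg Prod.snd h2).symm
  have hsmul : ∀ (t : ℝ) (x : E) (a : ℝ) (v : E), (Φ t (x, a • v)).2 = a • (Φ t (x, v)).2 := by
    intro t x a v
    have h2 := FL_eq he1 hΦ (c := fun s => (φ s x, a • (Φ s (x, v)).2)) (by
      intro s
      have h3 : ext f (φ s x, a • (Φ s (x, v)).2) =
          (f (φ s x), a • fderiv ℝ f (φ s x) (Φ s (x, v)).2) := by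
        unfold ext
        rw [map_smul]
      rw [h3]
      exact (hφ.deriv x s).prodMk ((hd2 x v s).const_smul a)) t
    simp only [hΦ.zero, hφ.zero] at h2
    exact (congrArg Prod.snd h2).symm
  refine ⟨fun t x => LinearMap.toContinuousLinearMap
    { toFun := fun v => (Φ t (x, v)).2
      map_add' := hadd t x
      map_smul' := hsmul t x }, ?_⟩
  have key : (fun (t : ℝ) (p : E × E) => (φ t p.1, (LinearMap.toContinuousLinearMap
    ({ toFun := fun v => (Φ t (p.1, v)).2
       map_add' := hadd t p.1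
       map_smul' := hsmul t p.1 } : E →ₗ[ℝ] E)) p.2)) = Φ := by
    funext t p
    exact Prod.ext (h1 t p).symm rfl
  rw [key]
  exact hΦ

end BR
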