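import Pool.Agent.LibBR70.FL5

/-! Row FL6 (cite FL1, FL4): the flow is differentiable in the initial point, with the expected
derivative; joint differentiability. -/

open Set Filter Topology
open scoped ContDiff

namespace BR

variable {E : Type} [NormedAddCommGroup E] [NormedSpace ℝ E] [FiniteDimensional ℝ E]

private theorem FL6_pos {f : E → E} (hf : ContDiff ℝ ∞ f) {φ : ℝ → E → E} (hφ : IsFlow f φ)
    {W : ℝ → E → E →L[ℝ] E} (hW : IsFlow (ext f) (fun t p => (φ t p.1, W t p.1 p.2))) (t : ℝ)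
    (ht : 0 ≤ t) (x : E) : HasFDerivAt (φ t) (W t x) x := by
  have hf1 : ContDiff ℝ 1 f := hf.of_le (by exact_mod_cast le_top)
  have hdf : Differentiable ℝ f := hf1.differentiable one_ne_zero
  have hcf : Continuous (fderiv ℝ f) := hf1.continuous_fderiv one_ne_zero
  obtain ⟨δ, hδ, C, hC⟩ := FL_lip hf1 hφ x t
  have hφc : Continuous fun s => φ s x :=
    continuous_iff_continuousAt.2 fun s => (hφ.deriv x s).continuousAt
  have hK : IsCompact ((fun s => φ s x) '' Icc 0 t) := isCompact_Icc.image hφc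
  obtain ⟨M0, hM0⟩ := hK.exists_bound_of_continuousOn hcf.continuousOn
  set M : ℝ := |M0| + 1 with hM
  have hMp : 0 < M := by positivity
  have hMb : ∀ s ∈ Icc 0 t, ‖fderiv ℝ f (φ s x)‖ ≤ M := by
    intro s hs
    refine (hM0 _ ⟨s, hs, rfl⟩).trans ?_
    rw [hM]
    have := le_abs_self M0
    linarith
  set C1 : ℝ := (|C| + 1) * Real.exp (M * t) with hC1
  have hC1p : 0 < C1 := by positivity
  refine HasFDerivAt.of_isLittleO (Asymptotics.isLittleO_iff.2 fun c hc => ?_)
  set η : ℝ := c / C1 with hη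
  have hηp : 0 < η := by positivity
  -- uniform continuity near the trajectory
  have hunif : ∃ ρ > 0, ∀ s ∈ Icc 0 t, ∀ y : E, ‖y - φ s x‖ ≤ ρ →
      ‖fderiv ℝ f y - fderiv ℝ f (φ s x)‖ ≤ η := by
    have h1 := hK.uniformContinuousAt_of_continuousAt (fderiv ℝ f) (fun a _ => hcf.continuousAt)
      (Metric.dist_mem_uniformity hηp)
    obtain ⟨ρ, hρ, hρ2⟩ := Metric.mem_uniformity_dist.1 h1
    refine ⟨ρ / 2, by positivity, fun s hs y hy => ?_⟩
    have h2 : dist (φ s x) y < ρ := by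
      rw [dist_comm, dist_eq_norm]
      linarith
    have h3 := hρ2 h2
    have h4 : dist (fderiv ℝ f (φ s x)) (fderiv ℝ f y) < η := h3 ⟨s, hs, rfl⟩
    rw [dist_comm, dist_eq_norm] at h4
    exact h4.le
  obtain ⟨ρ, hρ, hρ2⟩ := hunif
  have hev : ∀ᶠ y in 𝓝 x, ‖y - x‖ ≤ δ ∧ (|C| + 1) * ‖y - x‖ ≤ ρ := by
    have h1 : ∀ᶠ y in 𝓝 x, dist y x < min δ (ρ / (|C| + 1)) :=
      Metric.ball_mem_nhds x (lt_min hδ (by positivity))
    filter_upwards [h1] with y hy
    rw [dist_eq_norm] at hy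
    have h2 := hy.le.trans (min_le_left _ _)
    have h3 := hy.le.trans (min_le_right _ _)
    rw [le_div_iff₀ (by positivity)] at h3
    exact ⟨h2, by linarith⟩
  filter_upwards [hev] with y hy
  obtain ⟨hy1, hy2⟩ := hy
  -- the error
  set v : E := y - x with hv
  have hWd : ∀ s, HasDerivAt (fun s => W s x v) (fderiv ℝ f (φ s x) (W s x v)) s := by
    intro s
    exact (hW.deriv (x, v) s).snd
  have hW0 : W 0 x v = v := by
    have := hW.zero (x, v)
    exact congrArg Prod.snd this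
  have hed : ∀ s, HasDerivAt (fun s => φ s y - φ s x - W s x v)
      (f (φ s y) - f (φ s x) - fderiv ℝ f (φ s x) (W s x v)) s := fun s =>
    ((hφ.deriv y s).sub (hφ.deriv x s)).sub (hWd s)
  have hlip : ∀ s ∈ Icc 0 t, ‖φ s y - φ s x‖ ≤ (|C| + 1) * ‖v‖ := by
    intro s hs
    have h1 := hC y hy1 s (by rw [abs_of_nonneg hs.1]; exact hs.2)
    refine h1.trans (mul_le_mul_of_nonneg_right ?_ (norm_nonneg _))
    have := le_abs_self C
    linarith
  have hbound : ∀ s ∈ Ico 0 t, ‖f (φ s y) - f (φ s x) - fderiv ℝ f (φ s x) (W s x v)‖ ≤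
      M * ‖φ s y - φ s x - W s x v‖ + η * ((|C| + 1) * ‖v‖) := by
    intro s hs
    have hs' : s ∈ Icc 0 t := ⟨hs.1, hs.2.le⟩
    have h1 : ‖f (φ s y) - f (φ s x) - fderiv ℝ f (φ s x) (φ s y - φ s x)‖ ≤
        η * ‖φ s y - φ s x‖ := by
      refine Convex.norm_image_sub_le_of_norm_fderiv_le' (s := Metric.closedBall (φ s x) ρ)
        (fun z _ => hdf z) (fun z hz => ?_) (convex_closedBall _ _) (Metric.mem_closedBall_self hρ.le) ?_
      · exact hρ2 s hs' z (by rwa [← dist_eq_norm])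
      · rw [Metric.mem_closedBall, dist_eq_norm]
        exact (hlip s hs').trans hy2
    have h2 : f (φ s y) - f (φ s x) - fderiv ℝ f (φ s x) (W s x v) =
        fderiv ℝ f (φ s x) (φ s y - φ s x - W s x v) +
        (f (φ s y) - f (φ s x) - fderiv ℝ f (φ s x) (φ s y - φ s x)) := by
      rw [map_sub (fderiv ℝ f (φ s x)) (φ s y - φ s x) (W s x v)]
      abel
    rw [h2]
    refine (norm_add_le _ _).trans (add_le_add ?_ ?_)
    · exact ((fderiv ℝ f (φ s x)).le_opNorm _).trans
        (mul_le_mul_of_nonneg_right (hMb s hs') (norm_nonneg _))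
    · exact h1.trans (mul_le_mul_of_nonneg_left (hlip s hs') hηp.le)
  have he0 : ‖φ 0 y - φ 0 x - W 0 x v‖ ≤ 0 := by
    rw [hφ.zero y, hφ.zero x, hW0, hv, sub_self, norm_zero]
  have hG := norm_le_gronwallBound_of_norm_deriv_right_le (a := 0) (b := t) (δ := 0) (K := M)
    (ε := η * ((|C| + 1) * ‖v‖))
    (f := fun s => φ s y - φ s x - W s x v)
    (f' := fun s => f (φ s y) - f (φ s x) - fderiv ℝ f (φ s x) (W s x v))
    (fun s _ => (hed s).continuousAt.continuousWithinAt)
    (fun s _ => (hed s).hasDerivWithinAt)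
    he0 hbound t ⟨ht, le_rfl⟩
  refine hG.trans ?_
  rw [gronwallBound_of_K_ne_0 hMp.ne', sub_zero]
  have h3 : 1 ≤ M := by
    rw [hM]
    have := abs_nonneg M0
    linarith
  have h4 : 0 ≤ Real.exp (M * t) - 1 := by
    have : 1 ≤ Real.exp (M * t) := Real.one_le_exp (by positivity)
    linarith
  have h5 : 0 ≤ η * ((|C| + 1) * ‖v‖) := by positivity
  calc 0 * Real.exp (M * t) + η * ((|C| + 1) * ‖v‖) / M * (Real.exp (M * t) - 1)
      ≤ η * ((|C| + 1) * ‖v‖) * Real.exp (M * t) := by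
        rw [zero_mul, zero_add]
        refine mul_le_mul (div_le_self h5 h3) (by linarith) h4 h5
    _ = c * ‖v‖ := by
        rw [hη, hC1]
        have h6 : (|C| + 1) ≠ 0 := by positivity
        have h7 : Real.exp (M * t) ≠ 0 := (Real.exp_pos _).ne'
        field_simp

private theorem FL6_neg_flow {F : Type} [NormedAddCommGroup F] [NormedSpace ℝ F] {f : F → F} {φ : ℝ → F → F}
    (hφ : IsFlow f φ) : IsFlow (fun x => -f x) (fun t => φ (-t)) where
  zero := fun x => by
    rw [neg_zero]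
    exact hφ.zero x
  deriv := fun x t => by
    have h1 := (hφ.deriv x (-t)).scomp t (hasDerivAt_neg t)
    refine h1.congr_deriv ?_
    rw [neg_one_smul]

theorem FL_hasFDerivAt {f : E → E} (hf : ContDiff ℝ ∞ f) {φ : ℝ → E → E} (hφ : IsFlow f φ)
    {W : ℝ → E → E →L[ℝ] E} (hW : IsFlow (ext f) (fun t p => (φ t p.1, W t p.1 p.2))) (t : ℝ)
    (x : E) : HasFDerivAt (φ t) (W t x) x := by
  rcases le_total 0 t with ht | ht
  · exact FL6_pos hf hφ hW t ht x
  · have h1 : IsFlow (ext fun x => -f x) (fun t p => ((fun t => φ (-t)) t p.1, (fun t => W (-t)) t p.1 p.2)) := by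
      have h2 := FL6_neg_flow hW
      have h3 : (fun p : E × E => -ext f p) = ext fun x => -f x := by
        funext p
        unfold ext
        rw [fderiv_fun_neg]
        rfl
      rw [h3] at h2
      exact h2
    have h4 := FL6_pos hf.neg (FL6_neg_flow hφ) (W := fun t => W (-t)) h1 (-t) (by linarith) x
    simpa using h4

theorem FL_strict {f : E → E} (hf : ContDiff ℝ ∞ f) {φ : ℝ → E → E} (hφ : IsFlow f φ)
    {W : ℝ → E → E →L[ℝ] E} (hW : IsFlow (ext f) (fun t p => (φ t p.1, W t p.1 p.2)))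
    (p : ℝ × E) : HasStrictFDerivAt (fun p : ℝ × E => φ p.1 p.2)
      ((ContinuousLinearMap.toSpanSingleton ℝ (f (φ p.1 p.2))).coprod (W p.1 p.2)) p := by
  have hf1 : ContDiff ℝ 1 f := hf.of_le (by exact_mod_cast le_top)
  have he1 : ContDiff ℝ 1 (ext f) := (FL_ext_contDiff hf).of_le (by exact_mod_cast le_top)
  have hc1 : Continuous fun p : ℝ × E => ContinuousLinearMap.toSpanSingleton ℝ (f (φ p.1 p.2)) := by
    rw [continuous_clm_apply]
    intro y
    simp only [ContinuousLinearMap.toSpanSingleton_apply]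
    exact (hf.continuous.comp (FL_cont hf1 hφ)).const_smul y
  have hc2 : Continuous fun p : ℝ × E => W p.1 p.2 := by
    rw [continuous_clm_apply]
    intro v
    have h1 := FL_cont he1 hW
    have h2 : Continuous fun p : ℝ × E => ((p.1, (p.2, v)) : ℝ × E × E) := by fun_prop
    exact continuous_snd.comp (h1.comp h2)
  have h := hasStrictFDerivAt_uncurry_coprod (𝕜 := ℝ) (u := p) (f := φ)
    (f₁ := fun t x => ContinuousLinearMap.toSpanSingleton ℝ (f (φ t x)))
    (f₂ := fun t x => W t x)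
    (Eventually.of_forall fun v => (hφ.deriv v.2 v.1).hasFDerivAt)
    (Eventually.of_forall fun v => FL_hasFDerivAt hf hφ hW v.1 v.2)
    hc1.continuousAt hc2.continuousAt
  exact h

end BR
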