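import Mathlib

/-! Flows of smooth vector fields: definitions. -/

open Set Filter Topology
open scoped ContDiff

namespace BR

section Flow

variable {E : Type} [NormedAddCommGroup E] [NormedSpace ℝ E]

/-- `φ` is the (complete) flow of the vector field `f`. -/
structure IsFlow (f : E → E) (φ : ℝ → E → E) : Prop where
  zero : ∀ x, φ 0 x = x
  deriv : ∀ x t, HasDerivAt (fun s => φ s x) (f (φ t x)) t

/-- The extended (linearised) vector field on `E × E`. -/
noncomputable def ext (f : E → E) (p : E × E) : E × E := (f p.1, fderiv ℝ f p.1 p.2)

end Flow

end BR
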