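import Pool.Agent.LibBGR.Defs
import Pool.Agent.LibBR70.FL_Defs

/-! The universal cover of a closed surface with a metric of negative curvature: definitions.
Everything is expressed in the orthonormal Gram-Schmidt frame `fr1`, `fr2` of the metric
`E dx² + 2 F dx dy + G dy²`. -/

open MeasureTheory Set Filter Topology
open scoped ContDiff

namespace BR

open BGS

/-- The lift to the plane of a smooth metric of negative curvature on the surface. -/
structure HM (Γ : Type) [Group Γ] [MulAction Γ Pl] (m : Pl → Co) : Prop where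
  smooth : ContDiff ℝ ∞ m
  pos : ∀ z, 0 < (m z).1 ∧ 0 < dt (m z)
  inv : ∀ (γ : Γ) (z v : Pl), qf (m (γ • z)) (fderiv ℝ (fun w : Pl => γ • w) z v) = qf (m z) v
  neg : ∀ z, curv m z < 0

/-- Euclidean inner product, norm, area form and rotation by a right angle. -/
def ip (v w : Pl) : ℝ := v.1 * w.1 + v.2 * w.2

noncomputable def eu (v : Pl) : ℝ := √(v.1 ^ 2 + v.2 ^ 2)

def wd (v w : Pl) : ℝ := v.1 * w.2 - v.2 * w.1

def rot (v : Pl) : Pl := (-v.2, v.1)

/-- The bilinear form with coefficients `(E, F, G)`. -/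
def bf (c : Co) (v w : Pl) : ℝ :=
  c.1 * v.1 * w.1 + c.2.1 * (v.1 * w.2 + v.2 * w.1) + c.2.2 * v.2 * w.2

/-- The orthonormal frame. -/
noncomputable def fr1 (c : Co) : Pl := (1 / √c.1, 0)

noncomputable def fr2 (c : Co) : Pl := (-(c.2.1 / (√c.1 * √(dt c))), √c.1 / √(dt c))

/-- The tangent vector with frame coordinates `v`. -/
noncomputable def fr (c : Co) (v : Pl) : Pl := v.1 • fr1 c + v.2 • fr2 c

/-- The frame coordinates of a tangent vector. -/
noncomputable def ifr (c : Co) (w : Pl) : Pl := (bf c w (fr1 c), bf c w (fr2 c))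

/-- Coefficients of the connection form `cA dx + cB dy` of the frame. -/
noncomputable def cA (m : Pl → Co) (z : Pl) : ℝ :=
  (2 * (m z).1 * dx (fun w => (m w).2.1) z - (m z).2.1 * dx (fun w => (m w).1) z -
    (m z).1 * dy (fun w => (m w).1) z) / (2 * (m z).1 * √(dt (m z)))

noncomputable def cB (m : Pl → Co) (z : Pl) : ℝ :=
  ((m z).1 * dx (fun w => (m w).2.2) z - (m z).2.1 * dy (fun w => (m w).1) z) /
    (2 * (m z).1 * √(dt (m z)))

/-- The connection form. -/
noncomputable def om (m : Pl → Co) (z w : Pl) : ℝ := cA m z * w.1 + cB m z * w.2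

/-- The geodesic vector field; a point `(z, v)` is the tangent vector at `z` with frame
coordinates `v`. -/
noncomputable def gf (m : Pl → Co) (p : Pl × Pl) : Pl × Pl :=
  (fr (m p.1) p.2, om m p.1 (fr (m p.1) p.2) • ((p.2.2, -p.2.1) : Pl))

open Classical in
/-- The geodesic flow. -/
noncomputable def gfl (m : Pl → Co) : ℝ → Pl × Pl → Pl × Pl :=
  if h : ∃ φ, IsFlow (gf m) φ then h.choose else fun _ p => p

/-- The exponential map. -/
noncomputable def Ex (m : Pl → Co) (x v : Pl) : Pl := (gfl m 1 (x, v)).1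

/-- Its inverse. -/
noncomputable def Vx (m : Pl → Co) (x y : Pl) : Pl := Function.invFun (Ex m x) y

/-- The derivative of a deck transformation in the frames. -/
noncomputable def Rg {Γ : Type} [Group Γ] [MulAction Γ Pl] (m : Pl → Co) (γ : Γ) (x v : Pl) : Pl :=
  ifr (m (γ • x)) (fderiv ℝ (fun w : Pl => γ • w) x (fr (m x) v))

/-- The derivative of the geodesic flow. -/
noncomputable def dgf (m : Pl → Co) (t : ℝ) (p ξ : Pl × Pl) : Pl × Pl := fderiv ℝ (gfl m t) p ξ

/-- Tangential, normal and angular components of a tangent vector `ξ` of `Pl × Pl` at `(z, v)`. -/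
noncomputable def cp (m : Pl → Co) (p ξ : Pl × Pl) : ℝ := ip (ifr (m p.1) ξ.1) p.2

noncomputable def cq (m : Pl → Co) (p ξ : Pl × Pl) : ℝ := ip (ifr (m p.1) ξ.1) (rot p.2)

noncomputable def cb (m : Pl → Co) (p ξ : Pl × Pl) : ℝ := wd p.2 ξ.2 + om m p.1 ξ.1

/-- The vector at `(x, u)` with components `(p, q, b)`. -/
noncomputable def lift (m : Pl → Co) (x u : Pl) (p q b : ℝ) : Pl × Pl :=
  (fr (m x) (p • u + q • rot u), (b - om m x (fr (m x) (p • u + q • rot u))) • rot u)

/-- The Jacobi fields along the geodesic of `(x, u)`: `JA (0) = 1`, `JA' (0) = 0`. -/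
noncomputable def JA (m : Pl → Co) (x u : Pl) (t : ℝ) : ℝ :=
  cq m (gfl m t (x, u)) (dgf m t (x, u) (lift m x u 0 1 0))

/-- `JB (0) = 0`, `JB' (0) = 1`. -/
noncomputable def JB (m : Pl → Co) (x u : Pl) (t : ℝ) : ℝ :=
  cq m (gfl m t (x, u)) (dgf m t (x, u) (lift m x u 0 0 1))

/-- The coefficients of the metric in normal coordinates at `x`. -/
noncomputable def mE (m : Pl → Co) (p : Pl × Pl) : Co :=
  let A := fderiv ℝ (Ex m p.1) p.2
  (bf (m (Ex m p.1 p.2)) (A (1, 0)) (A (1, 0)), bf (m (Ex m p.1 p.2)) (A (1, 0)) (A (0, 1)),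
    bf (m (Ex m p.1 p.2)) (A (0, 1)) (A (0, 1)))

end BR
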