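import Pool.Agent.LibBR70.Geo

/-! Row H1a: the frame; smoothness of the geodesic vector field.
Plan. `fr1`, `fr2` are orthonormal: `bf c fr1 fr1 = 1`, `bf c fr1 fr2 = 0`, `bf c fr2 fr2 = 1`
(field_simp with `√c.1 ^ 2 = c.1`, `√(dt c) ^ 2 = dt c`, `dt c = c.1 c.2.2 - c.2.1^2`); hence
`ifr (fr v) = v`, `fr (ifr w) = w` (two vectors of the plane), `bf c (fr v) (fr w) = ip v w`,
`qf c w = ip (ifr w) (ifr w)`. Smoothness: everything is a rational expression in `m`, its first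
partial derivatives and the square roots of positive smooth functions
(`ContDiff.sqrt`, `ContDiff.div`, `ContDiff.fderiv_right`, cf. `Egr_smooth_dx`). Here
`dx h z = fderiv ℝ h z (1, 0)`. -/

open MeasureTheory Set Filter Topology
open scoped ContDiff

namespace BR

open BGS

private theorem H1a_par {c : Co} (h0 : 0 < c.1) (h : 0 < dt c) :
    ∃ a s F : ℝ, 0 < a ∧ 0 < s ∧ c = (a ^ 2, F, (s ^ 2 + F ^ 2) / a ^ 2) := by
  obtain ⟨E, F, G⟩ := c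
  have h0' : 0 < E := h0
  have ha : √E ^ 2 = E := Real.sq_sqrt h0'.le
  have hs : √(dt (E, F, G)) ^ 2 = dt (E, F, G) := Real.sq_sqrt h.le
  refine ⟨√E, √(dt (E, F, G)), F, Real.sqrt_pos.2 h0', Real.sqrt_pos.2 h, ?_⟩
  rw [ha, hs]
  have h1 : (dt (E, F, G) + F ^ 2) / E = G := by
    rw [div_eq_iff h0'.ne']
    unfold dt
    ring
  rw [h1]

private theorem H1a_sq1 {a : ℝ} (ha : 0 < a) (y : ℝ × ℝ) : √((a ^ 2, y) : Co).1 = a :=
  Real.sqrt_sq ha.le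

private theorem H1a_dt {a : ℝ} (ha : 0 < a) (s F : ℝ) :
    dt (a ^ 2, F, (s ^ 2 + F ^ 2) / a ^ 2) = s ^ 2 := by
  unfold dt
  simp only
  field_simp
  ring

private theorem H1a_sq2 {a s : ℝ} (ha : 0 < a) (hs : 0 < s) (F : ℝ) :
    √(dt (a ^ 2, F, (s ^ 2 + F ^ 2) / a ^ 2)) = s := by
  rw [H1a_dt ha, Real.sqrt_sq hs.le]

private theorem H1a_fr {a s : ℝ} (ha : 0 < a) (hs : 0 < s) (F : ℝ) (v : Pl) :
    fr (a ^ 2, F, (s ^ 2 + F ^ 2) / a ^ 2) v =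
      (v.1 / a - v.2 * F / (a * s), v.2 * a / s) := by
  unfold fr fr1 fr2
  rw [H1a_sq2 ha hs, H1a_sq1 ha]
  refine Prod.ext ?_ ?_
  · simp only [Prod.fst_add, Prod.smul_fst, smul_eq_mul]
    field_simp
    ring
  · simp only [Prod.snd_add, Prod.smul_snd, smul_eq_mul]
    field_simp
    ring

private theorem H1a_ifr {a s : ℝ} (ha : 0 < a) (hs : 0 < s) (F : ℝ) (w : Pl) :
    ifr (a ^ 2, F, (s ^ 2 + F ^ 2) / a ^ 2) w = (a * w.1 + F * w.2 / a, w.2 * s / a) := by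
  unfold ifr fr1 fr2 bf
  rw [H1a_sq2 ha hs, H1a_sq1 ha]
  refine Prod.ext ?_ ?_
  · simp only
    field_simp
    ring
  · simp only
    field_simp
    ring

theorem ifr_fr {c : Co} (h0 : 0 < c.1) (h : 0 < dt c) (v : Pl) : ifr c (fr c v) = v := by
  obtain ⟨a, s, F, ha, hs, rfl⟩ := H1a_par h0 h
  rw [H1a_fr ha hs, H1a_ifr ha hs]
  refine Prod.ext ?_ ?_
  · simp only
    field_simp
    ring
  · simp only
    field_simp

theorem fr_ifr {c : Co} (h0 : 0 < c.1) (h : 0 < dt c) (w : Pl) : fr c (ifr c w) = w := by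
  obtain ⟨a, s, F, ha, hs, rfl⟩ := H1a_par h0 h
  rw [H1a_ifr ha hs, H1a_fr ha hs]
  refine Prod.ext ?_ ?_
  · simp only
    field_simp
    ring
  · simp only
    field_simp

theorem bf_fr {c : Co} (h0 : 0 < c.1) (h : 0 < dt c) (v w : Pl) :
    bf c (fr c v) (fr c w) = ip v w := by
  obtain ⟨a, s, F, ha, hs, rfl⟩ := H1a_par h0 h
  rw [H1a_fr ha hs, H1a_fr ha hs]
  unfold bf ip
  simp only
  field_simp
  ring

theorem bf_eq_ip {c : Co} (h0 : 0 < c.1) (h : 0 < dt c) (v w : Pl) :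
    bf c v w = ip (ifr c v) (ifr c w) := by
  rw [← bf_fr h0 h, fr_ifr h0 h, fr_ifr h0 h]

theorem qf_eq_bf (c : Co) (v : Pl) : qf c v = bf c v v := by
  unfold qf bf
  ring

theorem qf_fr {c : Co} (h0 : 0 < c.1) (h : 0 < dt c) (v : Pl) : qf c (fr c v) = eu v ^ 2 := by
  rw [qf_eq_bf, bf_fr h0 h]
  unfold ip eu
  rw [Real.sq_sqrt (by positivity)]
  ring

/-- The determinant of the coframe is the area density. -/
theorem wd_ifr {c : Co} (h0 : 0 < c.1) (h : 0 < dt c) (v w : Pl) :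
    wd (ifr c v) (ifr c w) = √(dt c) * wd v w := by
  obtain ⟨a, s, F, ha, hs, rfl⟩ := H1a_par h0 h
  rw [H1a_ifr ha hs, H1a_ifr ha hs, H1a_sq2 ha hs]
  unfold wd
  simp only
  field_simp
  ring

section smooth

variable {m : Pl → Co}

private theorem H1a_sE (hs : ContDiff ℝ ∞ m) (hp : ∀ z, 0 < (m z).1 ∧ 0 < dt (m z)) :
    ContDiff ℝ ∞ (fun z => √(m z).1) := hs.fst.sqrt fun z => (hp z).1.ne'

private theorem H1a_dts (hs : ContDiff ℝ ∞ m) : ContDiff ℝ ∞ (fun z => dt (m z)) :=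
  (hs.fst.mul hs.snd.snd).sub (hs.snd.fst.pow 2)

private theorem H1a_sd (hs : ContDiff ℝ ∞ m) (hp : ∀ z, 0 < (m z).1 ∧ 0 < dt (m z)) :
    ContDiff ℝ ∞ (fun z => √(dt (m z))) := (H1a_dts hs).sqrt fun z => (hp z).2.ne'

private theorem H1a_ne1 (hp : ∀ z, 0 < (m z).1 ∧ 0 < dt (m z)) (z : Pl) : √(m z).1 ≠ 0 :=
  (Real.sqrt_pos.2 (hp z).1).ne'

private theorem H1a_ne2 (hp : ∀ z, 0 < (m z).1 ∧ 0 < dt (m z)) (z : Pl) : √(dt (m z)) ≠ 0 :=
  (Real.sqrt_pos.2 (hp z).2).ne'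

private theorem H1a_fr1 (hs : ContDiff ℝ ∞ m) (hp : ∀ z, 0 < (m z).1 ∧ 0 < dt (m z)) :
    ContDiff ℝ ∞ (fun z => fr1 (m z)) :=
  (contDiff_const.div (H1a_sE hs hp) (H1a_ne1 hp)).prodMk contDiff_const

private theorem H1a_fr2 (hs : ContDiff ℝ ∞ m) (hp : ∀ z, 0 < (m z).1 ∧ 0 < dt (m z)) :
    ContDiff ℝ ∞ (fun z => fr2 (m z)) :=
  ((hs.snd.fst.div ((H1a_sE hs hp).mul (H1a_sd hs hp))
    (fun z => mul_ne_zero (H1a_ne1 hp z) (H1a_ne2 hp z))).neg).prodMk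
    ((H1a_sE hs hp).div (H1a_sd hs hp) (H1a_ne2 hp))

private theorem H1a_bf {X : Type} [NormedAddCommGroup X] [NormedSpace ℝ X] {c : X → Co}
    {v w : X → Pl} (hc : ContDiff ℝ ∞ c) (hv : ContDiff ℝ ∞ v) (hw : ContDiff ℝ ∞ w) :
    ContDiff ℝ ∞ (fun x => bf (c x) (v x) (w x)) :=
  (((hc.fst.mul hv.fst).mul hw.fst).add
    (hc.snd.fst.mul ((hv.fst.mul hw.snd).add (hv.snd.mul hw.fst)))).add
    ((hc.snd.snd.mul hv.snd).mul hw.snd)

end smooth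

theorem fr_smooth {m : Pl → Co} (hs : ContDiff ℝ ∞ m) (hp : ∀ z, 0 < (m z).1 ∧ 0 < dt (m z)) :
    ContDiff ℝ ∞ (fun p : Pl × Pl => fr (m p.1) p.2) :=
  ((contDiff_snd.fst).smul ((H1a_fr1 hs hp).comp contDiff_fst)).add
    ((contDiff_snd.snd).smul ((H1a_fr2 hs hp).comp contDiff_fst))

theorem ifr_smooth {m : Pl → Co} (hs : ContDiff ℝ ∞ m) (hp : ∀ z, 0 < (m z).1 ∧ 0 < dt (m z)) :
    ContDiff ℝ ∞ (fun p : Pl × Pl => ifr (m p.1) p.2) :=
  (H1a_bf (hs.comp contDiff_fst) contDiff_snd ((H1a_fr1 hs hp).comp contDiff_fst)).prodMk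
    (H1a_bf (hs.comp contDiff_fst) contDiff_snd ((H1a_fr2 hs hp).comp contDiff_fst))

private theorem H1a_v {h : Pl → ℝ} (hh : ContDiff ℝ ∞ h) (v : Pl) :
    ContDiff ℝ ∞ (fun z => fderiv ℝ h z v) :=
  (hh.fderiv_right (m := ∞) (by simp)).clm_apply contDiff_const

private theorem H1a_dx {h : Pl → ℝ} (hh : ContDiff ℝ ∞ h) : ContDiff ℝ ∞ (dx h) :=
  H1a_v hh (1, 0)

private theorem H1a_dy {h : Pl → ℝ} (hh : ContDiff ℝ ∞ h) : ContDiff ℝ ∞ (dy h) :=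
  H1a_v hh (0, 1)

private theorem H1a_cA {m : Pl → Co} (hs : ContDiff ℝ ∞ m)
    (hp : ∀ z, 0 < (m z).1 ∧ 0 < dt (m z)) : ContDiff ℝ ∞ (cA m) := by
  have hE : ContDiff ℝ ∞ fun z => (m z).1 := hs.fst
  have hF : ContDiff ℝ ∞ fun z => (m z).2.1 := hs.snd.fst
  refine ContDiff.div ?_ ?_ ?_
  · exact (((contDiff_const.mul hE).mul (H1a_dx hF)).sub
      (hF.mul (H1a_dx hE))).sub (hE.mul (H1a_dy hE))
  · exact (contDiff_const.mul hE).mul (H1a_sd hs hp)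
  · intro z
    exact mul_ne_zero (mul_ne_zero two_ne_zero (hp z).1.ne') (H1a_ne2 hp z)

private theorem H1a_cB {m : Pl → Co} (hs : ContDiff ℝ ∞ m)
    (hp : ∀ z, 0 < (m z).1 ∧ 0 < dt (m z)) : ContDiff ℝ ∞ (cB m) := by
  have hE : ContDiff ℝ ∞ fun z => (m z).1 := hs.fst
  have hF : ContDiff ℝ ∞ fun z => (m z).2.1 := hs.snd.fst
  have hG : ContDiff ℝ ∞ fun z => (m z).2.2 := hs.snd.snd
  refine ContDiff.div ?_ ?_ ?_
  · exact (hE.mul (H1a_dx hG)).sub (hF.mul (H1a_dy hE))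
  · exact (contDiff_const.mul hE).mul (H1a_sd hs hp)
  · intro z
    exact mul_ne_zero (mul_ne_zero two_ne_zero (hp z).1.ne') (H1a_ne2 hp z)

theorem om_smooth {m : Pl → Co} (hs : ContDiff ℝ ∞ m) (hp : ∀ z, 0 < (m z).1 ∧ 0 < dt (m z)) :
    ContDiff ℝ ∞ (fun p : Pl × Pl => om m p.1 p.2) :=
  (((H1a_cA hs hp).comp contDiff_fst).mul contDiff_snd.fst).add
    (((H1a_cB hs hp).comp contDiff_fst).mul contDiff_snd.snd)

theorem gf_smooth {m : Pl → Co} (hs : ContDiff ℝ ∞ m) (hp : ∀ z, 0 < (m z).1 ∧ 0 < dt (m z)) :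
    ContDiff ℝ ∞ (gf m) := by
  have h1 := fr_smooth hs hp
  have h2 : ContDiff ℝ ∞ (fun p : Pl × Pl => om m p.1 (fr (m p.1) p.2)) :=
    (om_smooth hs hp).comp (contDiff_fst.prodMk h1)
  have h3 : ContDiff ℝ ∞ (fun p : Pl × Pl => ((p.2.2, -p.2.1) : Pl)) :=
    contDiff_snd.snd.prodMk contDiff_snd.fst.neg
  exact h1.prodMk (h2.smul h3)

private theorem H1a_det {a b c d e f g h i : Pl → ℝ} (ha : ContDiff ℝ ∞ a) (hb : ContDiff ℝ ∞ b)
    (hc : ContDiff ℝ ∞ c) (hd : ContDiff ℝ ∞ d) (he : ContDiff ℝ ∞ e) (hf : ContDiff ℝ ∞ f)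
    (hg : ContDiff ℝ ∞ g) (hh : ContDiff ℝ ∞ h) (hi : ContDiff ℝ ∞ i) :
    ContDiff ℝ ∞ (fun z => Matrix.det !![a z, b z, c z; d z, e z, f z; g z, h z, i z]) := by
  have h1 : (fun z => Matrix.det !![a z, b z, c z; d z, e z, f z; g z, h z, i z]) = fun z =>
      a z * e z * i z - a z * f z * h z - b z * d z * i z + b z * f z * g z + c z * d z * h z -
        c z * e z * g z := by
    funext z
    rw [Matrix.det_fin_three]
    rfl
  rw [h1]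
  exact ((((((ha.mul he).mul hi).sub ((ha.mul hf).mul hh)).sub ((hb.mul hd).mul hi)).add
    ((hb.mul hf).mul hg)).add ((hc.mul hd).mul hh)).sub ((hc.mul he).mul hg)

theorem curv_smooth {m : Pl → Co} (hs : ContDiff ℝ ∞ m)
    (hp : ∀ z, 0 < (m z).1 ∧ 0 < dt (m z)) : ContDiff ℝ ∞ (curv m) := by
  have hE : ContDiff ℝ ∞ fun z => (m z).1 := hs.fst
  have hF : ContDiff ℝ ∞ fun z => (m z).2.1 := hs.snd.fst
  have hG : ContDiff ℝ ∞ fun z => (m z).2.2 := hs.snd.snd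
  have hEx := H1a_dx hE
  have hEy := H1a_dy hE
  have hFx := H1a_dx hF
  have hFy := H1a_dy hF
  have hGx := H1a_dx hG
  have hGy := H1a_dy hG
  have h1 := H1a_det
    ((((H1a_dy hEy).neg.div_const 2).add (H1a_dy hFx)).sub
      ((H1a_dx hGx).div_const 2)) (hEx.div_const 2) (hFx.sub (hEy.div_const 2))
    (hFy.sub (hGx.div_const 2)) hE hF (hGy.div_const 2) hF hG
  have h2 := H1a_det (contDiff_const (c := (0 : ℝ))) (hEy.div_const 2) (hGx.div_const 2)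
    (hEy.div_const 2) hE hF (hGx.div_const 2) hF hG
  exact (h1.sub h2).div ((H1a_dts hs).pow 2) fun z => pow_ne_zero 2 (hp z).2.ne'

end BR
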