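import Pool.Agent.LibBR70.H1a

/-! Row H1b: the first two structure equations.
With `θ₁(w) = bf (m z) w (fr1 (m z)) = √E w.1 + (F/√E) w.2`, `θ₂(w) = bf (m z) w (fr2 (m z)) = (D/√E) w.2`,
`D = √(dt (m z))`, `ω = om`: `dθ₁ = ω ∧ θ₂`, `dθ₂ = -ω ∧ θ₁`, written with directional derivatives.
Plan. First prove the two explicit formulas for `θ₁`, `θ₂` (both are the components of `ifr`). Their
coefficients are smooth functions of `z`; the left sides are bilinear and alternating in `(w, w')`, so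
equal `(w.1 w'.2 - w.2 w'.1)` times `∂_x(F/√E) - ∂_y √E`, resp. `∂_x(D/√E)`, and with
`D² = E G - F²`, `D_x = (E_x G + E G_x - 2 F F_x)/(2D)` the identities are
`cA D/√E = ∂_x(F/√E) - ∂_y √E` and `cB √E - cA F/√E = ∂_x(D/√E)` (checked by hand: `field_simp; ring`
after substituting `√E² = E`, `D² = E G - F²`). -/

open MeasureTheory Set Filter Topology
open scoped ContDiff

namespace BR

open BGS

theorem H1b_one {c : Co} (h0 : 0 < c.1) (w : Pl) :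
    (ifr c w).1 = √c.1 * w.1 + c.2.1 * (√c.1)⁻¹ * w.2 := by
  obtain ⟨E, F, G⟩ := c
  obtain ⟨s, hs, hE⟩ : ∃ s : ℝ, 0 < s ∧ s ^ 2 = E := ⟨√E, Real.sqrt_pos.2 h0, Real.sq_sqrt (le_of_lt h0)⟩
  subst hE
  simp only [ifr, fr1, bf]
  rw [Real.sqrt_sq hs.le]
  field_simp
  ring

theorem H1b_two {c : Co} (h0 : 0 < c.1) (h : 0 < dt c) (w : Pl) :
    (ifr c w).2 = √(dt c) * (√c.1)⁻¹ * w.2 := by
  obtain ⟨D, hD, hD2⟩ : ∃ D : ℝ, 0 < D ∧ D ^ 2 = dt c := ⟨√(dt c), Real.sqrt_pos.2 h, Real.sq_sqrt h.le⟩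
  have hD3 : √(dt c) = D := by rw [← hD2, Real.sqrt_sq hD.le]
  obtain ⟨E, F, G⟩ := c
  obtain ⟨s, hs, hE⟩ : ∃ s : ℝ, 0 < s ∧ s ^ 2 = E := ⟨√E, Real.sqrt_pos.2 h0, Real.sq_sqrt (le_of_lt h0)⟩
  subst hE
  simp only [ifr, fr2, bf]
  rw [hD3, Real.sqrt_sq hs.le]
  simp only [dt] at hD2
  field_simp
  linear_combination (-w.2) * hD2

/-- a linear functional on the plane -/
theorem H1b_lin (L : Pl →L[ℝ] ℝ) (w : Pl) : L w = w.1 * L (1, 0) + w.2 * L (0, 1) := by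
  have : w = w.1 • ((1, 0) : Pl) + w.2 • ((0, 1) : Pl) := by
    ext <;> simp
  conv_lhs => rw [this]
  rw [map_add, map_smul, map_smul, smul_eq_mul, smul_eq_mul]

theorem H1b_inv {f : Pl → ℝ} {f' : Pl →L[ℝ] ℝ} {z : Pl} (hf : HasFDerivAt f f' z) (h : f z ≠ 0) :
    HasFDerivAt (fun y => (f y)⁻¹) ((-(f z ^ 2)⁻¹) • f') z :=
  (hasDerivAt_inv h).comp_hasFDerivAt z hf

section

variable {m : Pl → Co} (hs : ContDiff ℝ ∞ m) (hp : ∀ z, 0 < (m z).1 ∧ 0 < dt (m z)) (z : Pl)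

include hs in
theorem H1b_dE : HasFDerivAt (fun y => (m y).1) (fderiv ℝ (fun y => (m y).1) z) z :=
  ((contDiff_fst.comp hs).differentiable (by simp)).differentiableAt.hasFDerivAt

include hs in
theorem H1b_dF : HasFDerivAt (fun y => (m y).2.1) (fderiv ℝ (fun y => (m y).2.1) z) z :=
  ((contDiff_fst.comp (contDiff_snd.comp hs)).differentiable (by simp)).differentiableAt.hasFDerivAt

include hs in
theorem H1b_dG : HasFDerivAt (fun y => (m y).2.2) (fderiv ℝ (fun y => (m y).2.2) z) z :=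
  ((contDiff_snd.comp (contDiff_snd.comp hs)).differentiable (by simp)).differentiableAt.hasFDerivAt

include hs in
theorem H1b_dD : HasFDerivAt (fun y => dt (m y))
    ((m z).1 • fderiv ℝ (fun y => (m y).2.2) z + (m z).2.2 • fderiv ℝ (fun y => (m y).1) z -
      (2 * (m z).2.1) • fderiv ℝ (fun y => (m y).2.1) z) z := by
  have h1 := ((H1b_dE hs z).mul (H1b_dG hs z)).sub ((H1b_dF hs z).mul (H1b_dF hs z))
  have h2 : (fun y => dt (m y)) = fun y => (m y).1 * (m y).2.2 - (m y).2.1 * (m y).2.1 := by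
    funext y; simp only [dt]; ring
  rw [h2]
  refine HasFDerivAt.congr_fderiv h1 ?_
  rw [two_mul, add_smul]

include hs hp in
theorem H1b_d1 (w' : Pl) : HasFDerivAt (fun y => (ifr (m y) w').1)
    (w'.1 • ((1 / (2 * √(m z).1)) • fderiv ℝ (fun y => (m y).1) z) +
      w'.2 • ((m z).2.1 • ((-(√(m z).1 ^ 2)⁻¹) • ((1 / (2 * √(m z).1)) • fderiv ℝ (fun y => (m y).1) z)) +
        (√(m z).1)⁻¹ • fderiv ℝ (fun y => (m y).2.1) z)) z := by
  have hE := (H1b_dE hs z).sqrt (hp z).1.ne'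
  have hs0 : √(m z).1 ≠ 0 := (Real.sqrt_pos.2 (hp z).1).ne'
  have hI := H1b_inv hE hs0
  have h1 := (hE.mul_const w'.1).add (((H1b_dF hs z).mul hI).mul_const w'.2)
  have h2 : (fun y => (ifr (m y) w').1) = fun y => √(m y).1 * w'.1 + (m y).2.1 * (√(m y).1)⁻¹ * w'.2 := by
    funext y; exact H1b_one (hp y).1 w'
  rw [h2]
  exact h1

include hs hp in
theorem H1b_d2 (w' : Pl) : HasFDerivAt (fun y => (ifr (m y) w').2)
    (w'.2 • (√(dt (m z)) • ((-(√(m z).1 ^ 2)⁻¹) • ((1 / (2 * √(m z).1)) • fderiv ℝ (fun y => (m y).1) z)) +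
        (√(m z).1)⁻¹ • ((1 / (2 * √(dt (m z)))) • ((m z).1 • fderiv ℝ (fun y => (m y).2.2) z +
          (m z).2.2 • fderiv ℝ (fun y => (m y).1) z - (2 * (m z).2.1) • fderiv ℝ (fun y => (m y).2.1) z)))) z := by
  have hE := (H1b_dE hs z).sqrt (hp z).1.ne'
  have hD := (H1b_dD hs z).sqrt (hp z).2.ne'
  have hs0 : √(m z).1 ≠ 0 := (Real.sqrt_pos.2 (hp z).1).ne'
  have hI := H1b_inv hE hs0
  have h1 := (hD.mul hI).mul_const w'.2
  have h2 : (fun y => (ifr (m y) w').2) = fun y => √(dt (m y)) * (√(m y).1)⁻¹ * w'.2 := by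
    funext y; exact H1b_two (hp y).1 (hp y).2 w'
  rw [h2]
  exact h1

end

theorem struct1 {m : Pl → Co} (hs : ContDiff ℝ ∞ m) (hp : ∀ z, 0 < (m z).1 ∧ 0 < dt (m z))
    (z w w' : Pl) :
    fderiv ℝ (fun y => (ifr (m y) w').1) z w - fderiv ℝ (fun y => (ifr (m y) w).1) z w' =
      om m z w * (ifr (m z) w').2 - om m z w' * (ifr (m z) w).2 := by
  rw [(H1b_d1 hs hp z w').fderiv, (H1b_d1 hs hp z w).fderiv, H1b_two (hp z).1 (hp z).2, H1b_two (hp z).1 (hp z).2]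
  simp only [add_apply, smul_apply, smul_eq_mul]
  rw [H1b_lin (fderiv ℝ (fun y => (m y).1) z) w, H1b_lin (fderiv ℝ (fun y => (m y).1) z) w',
    H1b_lin (fderiv ℝ (fun y => (m y).2.1) z) w, H1b_lin (fderiv ℝ (fun y => (m y).2.1) z) w']
  simp only [om, cA, cB, dx, dy]
  obtain ⟨s, hs0, hE⟩ : ∃ s : ℝ, 0 < s ∧ s ^ 2 = (m z).1 :=
    ⟨√(m z).1, Real.sqrt_pos.2 (hp z).1, Real.sq_sqrt (hp z).1.le⟩
  have hD : 0 < √(dt (m z)) := Real.sqrt_pos.2 (hp z).2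
  rw [← hE, Real.sqrt_sq hs0.le]
  generalize √(dt (m z)) = D at *
  field_simp
  ring

theorem struct2 {m : Pl → Co} (hs : ContDiff ℝ ∞ m) (hp : ∀ z, 0 < (m z).1 ∧ 0 < dt (m z))
    (z w w' : Pl) :
    fderiv ℝ (fun y => (ifr (m y) w').2) z w - fderiv ℝ (fun y => (ifr (m y) w).2) z w' =
      -(om m z w * (ifr (m z) w').1 - om m z w' * (ifr (m z) w).1) := by
  rw [(H1b_d2 hs hp z w').fderiv, (H1b_d2 hs hp z w).fderiv, H1b_one (hp z).1, H1b_one (hp z).1]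
  simp only [add_apply, sub_apply, smul_apply, smul_eq_mul]
  rw [H1b_lin (fderiv ℝ (fun y => (m y).1) z) w, H1b_lin (fderiv ℝ (fun y => (m y).1) z) w',
    H1b_lin (fderiv ℝ (fun y => (m y).2.1) z) w, H1b_lin (fderiv ℝ (fun y => (m y).2.1) z) w',
    H1b_lin (fderiv ℝ (fun y => (m y).2.2) z) w, H1b_lin (fderiv ℝ (fun y => (m y).2.2) z) w']
  simp only [om, cA, cB, dx, dy]
  obtain ⟨s, hs0, hE⟩ : ∃ s : ℝ, 0 < s ∧ s ^ 2 = (m z).1 :=
    ⟨√(m z).1, Real.sqrt_pos.2 (hp z).1, Real.sq_sqrt (hp z).1.le⟩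
  have hD : 0 < √(dt (m z)) := Real.sqrt_pos.2 (hp z).2
  have hD2 : √(dt (m z)) ^ 2 = s ^ 2 * (m z).2.2 - (m z).2.1 ^ 2 := by
    rw [Real.sq_sqrt (hp z).2.le, hE, dt]
  rw [← hE, Real.sqrt_sq hs0.le]
  generalize √(dt (m z)) = D at *
  generalize (m z).2.2 = G at *
  generalize (m z).2.1 = F at *
  generalize fderiv ℝ (fun y => (m y).1) z = LE at *
  generalize fderiv ℝ (fun y => (m y).2.1) z = LF at *
  generalize fderiv ℝ (fun y => (m y).2.2) z = LG at *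
  field_simp
  linear_combination (-(w'.2 * (w.1 * LE (1, 0) + w.2 * LE (0, 1)) -
    w.2 * (LE (1, 0) * w'.1 + w'.2 * LE (0, 1)))) * hD2

end BR
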