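import Pool.Agent.LibBR70.H1a
import Pool.Agent.LibBGS.Egr

/-! Row H1c (strong, algebra): the third structure equation `dω = -K θ₁ ∧ θ₂`, where `K = curv m` is
given by Brioschi's formula.
Plan. Both sides are alternating in `(w, w')`: it is enough that
`dx (cB m) z - dy (cA m) z = -curv m z * √(dt (m z))` (and `(ifr w).1 (ifr w').2 - (ifr w').1 (ifr w).2 = D wd w w'`,
row H1a `wd_ifr`). Write `D = √(dt m)`, `D² = E G - F²`, `D_x = (E_x G + E G_x - 2 F F_x)/(2D)`, the
same for `y`. `cA = (2 E F_x - F E_x - E E_y)/(2 E D)`, `cB = (E G_x - F E_y)/(2 E D)`. Differentiate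
(quotient rule, `fderiv` of products as in `LibBGS/Egr.lean`, mixed partial derivatives commute:
`Egr_symm`), multiply by `4 E² D³` and compare with Brioschi's formula (expand the two
`3 × 3` determinants with `Matrix.det_fin_three`): a polynomial identity in
`E, F, G, E_x, E_y, F_x, F_y, G_x, G_y, E_yy, F_xy, G_xx` (and `E_xx`, `E_xy`, which must cancel) and
`D` modulo `D² = E G - F²`: `field_simp; ring_nf` or `linear_combination`. Known as Liouville's formula
`K = (1/2D) (∂_x (F E_y/(E D) - G_x/D) + ∂_y (2 F_x/D - E_y/D - F E_x/(E D)))`. -/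

open MeasureTheory Set Filter Topology
open scoped ContDiff

namespace BR

open BGS

private theorem H1c_line {h : Pl → ℝ} (hh : ContDiff ℝ ∞ h) (z v : Pl) :
    HasDerivAt (fun t : ℝ => h (z + t • v)) (fderiv ℝ h z v) 0 := by
  have h0 : HasFDerivAt h (fderiv ℝ h z) z := ((hh.differentiable (by simp)) z).hasFDerivAt
  exact h0.hasLineDerivAt v

/-- The algebraic identity. -/
private theorem H1c_alg (e f g d ex ey fx fy gx gy eyy exy fxy gxx : ℝ) (he : e ≠ 0) (hd : d ≠ 0)
    (h : d ^ 2 = e * g - f ^ 2) :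
    ((ex * gx + e * gxx - (fx * ey + f * exy)) * (2 * e * d) -
        (e * gx - f * ey) * (2 * ex * d + 2 * e * ((ex * g + e * gx - 2 * f * fx) / (2 * d)))) /
          (2 * e * d) ^ 2 -
      ((2 * ey * fx + 2 * e * fxy - (fy * ex + f * exy) - (ey * ey + e * eyy)) * (2 * e * d) -
        (2 * e * fx - f * ex - e * ey) *
          (2 * ey * d + 2 * e * ((ey * g + e * gy - 2 * f * fy) / (2 * d)))) / (2 * e * d) ^ 2 =
    -((((-eyy / 2 + fxy - gxx / 2) * e * g - (-eyy / 2 + fxy - gxx / 2) * f * f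
        - ex / 2 * (fy - gx / 2) * g + ex / 2 * f * (gy / 2)
        + (fx - ey / 2) * (fy - gx / 2) * f - (fx - ey / 2) * e * (gy / 2)) -
       (0 * e * g - 0 * f * f - ey / 2 * (ey / 2) * g + ey / 2 * f * (gx / 2)
        + gx / 2 * (ey / 2) * f - gx / 2 * e * (gx / 2))) / (d ^ 2) ^ 2) * d := by
  have hg : g = (d ^ 2 + f ^ 2) / e := by
    field_simp
    linarith
  subst hg
  field_simp
  ring

private theorem H1c_main {m : Pl → Co} (hs : ContDiff ℝ ∞ m) (hp : ∀ z, 0 < (m z).1 ∧ 0 < dt (m z)) :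
    ContDiff ℝ ∞ (cA m) ∧ ContDiff ℝ ∞ (cB m) ∧
      ∀ z, dx (cB m) z - dy (cA m) z = -curv m z * √(dt (m z)) := by
  have hE : ContDiff ℝ ∞ (fun w => (m w).1) := hs.fst
  have hF : ContDiff ℝ ∞ (fun w => (m w).2.1) := hs.snd.fst
  have hG : ContDiff ℝ ∞ (fun w => (m w).2.2) := hs.snd.snd
  have hdt : ContDiff ℝ ∞ (fun w => dt (m w)) := by
    unfold dt
    exact (hE.mul hG).sub (hF.pow 2)
  have hD : ContDiff ℝ ∞ (fun w => √(dt (m w))) := hdt.sqrt fun w => (hp w).2.ne'
  have hden : ContDiff ℝ ∞ (fun w => 2 * (m w).1 * √(dt (m w))) := (contDiff_const.mul hE).mul hD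
  have hden0 : ∀ w, 2 * (m w).1 * √(dt (m w)) ≠ 0 := fun w =>
    mul_ne_zero (mul_ne_zero two_ne_zero (hp w).1.ne') (Real.sqrt_pos.2 (hp w).2).ne'
  have hcA : ContDiff ℝ ∞ (cA m) := by
    unfold cA
    exact ((((contDiff_const.mul hE).mul (Egr_smooth_dx hF)).sub
      (hF.mul (Egr_smooth_dx hE))).sub (hE.mul (Egr_smooth_dy hE))).div hden hden0
  have hcB : ContDiff ℝ ∞ (cB m) := by
    unfold cB
    exact ((hE.mul (Egr_smooth_dx hG)).sub (hF.mul (Egr_smooth_dy hE))).div hden hden0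
  refine ⟨hcA, hcB, fun z => ?_⟩
  -- the derivative of the area density
  have hDv : ∀ v : Pl, HasDerivAt (fun t : ℝ => √(dt (m (z + t • v))))
      ((fderiv ℝ (fun w => (m w).1) z v * (m z).2.2 + (m z).1 * fderiv ℝ (fun w => (m w).2.2) z v -
        2 * (m z).2.1 * fderiv ℝ (fun w => (m w).2.1) z v) / (2 * √(dt (m z)))) 0 := by
    intro v
    have h1 := ((H1c_line hE z v).mul (H1c_line hG z v)).sub ((H1c_line hF z v).pow 2)
    have h2 : HasDerivAt (fun t : ℝ => dt (m (z + t • v)))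
        (fderiv ℝ (fun w => (m w).1) z v * (m z).2.2 + (m z).1 * fderiv ℝ (fun w => (m w).2.2) z v -
        2 * (m z).2.1 * fderiv ℝ (fun w => (m w).2.1) z v) 0 := by
      refine h1.congr_deriv ?_
      simp only [zero_smul, add_zero, Nat.cast_ofNat]
      ring
    have h3 := h2.sqrt (by
      simp only [zero_smul, add_zero]
      exact (hp z).2.ne')
    refine h3.congr_deriv ?_
    simp only [zero_smul, add_zero]
  have hdenv : ∀ v : Pl, HasDerivAt (fun t : ℝ => 2 * (m (z + t • v)).1 * √(dt (m (z + t • v))))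
      (2 * fderiv ℝ (fun w => (m w).1) z v * √(dt (m z)) + 2 * (m z).1 *
        ((fderiv ℝ (fun w => (m w).1) z v * (m z).2.2 + (m z).1 * fderiv ℝ (fun w => (m w).2.2) z v -
        2 * (m z).2.1 * fderiv ℝ (fun w => (m w).2.1) z v) / (2 * √(dt (m z))))) 0 := by
    intro v
    have h1 := ((H1c_line hE z v).const_mul 2).mul (hDv v)
    refine h1.congr_deriv ?_
    simp only [zero_smul, add_zero]
  have eB : dx (cB m) z =
      (((dx (fun w => (m w).1) z) * (dx (fun w => (m w).2.2) z) +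
          (m z).1 * dx (dx (fun w => (m w).2.2)) z -
          (dx (fun w => (m w).2.1) z * dy (fun w => (m w).1) z +
            (m z).2.1 * dx (dy (fun w => (m w).1)) z)) * (2 * (m z).1 * √(dt (m z))) -
        ((m z).1 * dx (fun w => (m w).2.2) z - (m z).2.1 * dy (fun w => (m w).1) z) *
          (2 * dx (fun w => (m w).1) z * √(dt (m z)) + 2 * (m z).1 *
        ((dx (fun w => (m w).1) z * (m z).2.2 + (m z).1 * dx (fun w => (m w).2.2) z -
        2 * (m z).2.1 * dx (fun w => (m w).2.1) z) / (2 * √(dt (m z)))))) /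
        (2 * (m z).1 * √(dt (m z))) ^ 2 := by
    have h1 := ((H1c_line hE z (1, 0)).mul (H1c_line (Egr_smooth_dx hG) z (1, 0))).sub
      ((H1c_line hF z (1, 0)).mul (H1c_line (Egr_smooth_dy hE) z (1, 0)))
    have h2 := h1.div (hdenv (1, 0)) (by
      simp only [zero_smul, add_zero]
      exact hden0 z)
    have h3 := (H1c_line hcB z (1, 0)).unique h2
    simp only [Pi.mul_apply, Pi.sub_apply, zero_smul, add_zero] at h3
    exact h3
  have eA : dy (cA m) z =
      ((2 * dy (fun w => (m w).1) z * dx (fun w => (m w).2.1) z +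
          2 * (m z).1 * dy (dx (fun w => (m w).2.1)) z -
          (dy (fun w => (m w).2.1) z * dx (fun w => (m w).1) z +
            (m z).2.1 * dy (dx (fun w => (m w).1)) z) -
          (dy (fun w => (m w).1) z * dy (fun w => (m w).1) z +
            (m z).1 * dy (dy (fun w => (m w).1)) z)) * (2 * (m z).1 * √(dt (m z))) -
        (2 * (m z).1 * dx (fun w => (m w).2.1) z - (m z).2.1 * dx (fun w => (m w).1) z -
          (m z).1 * dy (fun w => (m w).1) z) *
          (2 * dy (fun w => (m w).1) z * √(dt (m z)) + 2 * (m z).1 *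
        ((dy (fun w => (m w).1) z * (m z).2.2 + (m z).1 * dy (fun w => (m w).2.2) z -
        2 * (m z).2.1 * dy (fun w => (m w).2.1) z) / (2 * √(dt (m z)))))) /
        (2 * (m z).1 * √(dt (m z))) ^ 2 := by
    have h1 := ((((H1c_line hE z (0, 1)).const_mul 2).mul (H1c_line (Egr_smooth_dx hF) z (0, 1))).sub
      ((H1c_line hF z (0, 1)).mul (H1c_line (Egr_smooth_dx hE) z (0, 1)))).sub
      ((H1c_line hE z (0, 1)).mul (H1c_line (Egr_smooth_dy hE) z (0, 1)))
    have h2 := h1.div (hdenv (0, 1)) (by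
      simp only [zero_smul, add_zero]
      exact hden0 z)
    have h3 := (H1c_line hcA z (0, 1)).unique h2
    simp only [Pi.mul_apply, Pi.sub_apply, zero_smul, add_zero] at h3
    exact h3
  have hsE : dy (dx (fun w => (m w).1)) z = dx (dy (fun w => (m w).1)) z := Egr_symm hE z
  have hd2 : √(dt (m z)) ^ 2 = (m z).1 * (m z).2.2 - (m z).2.1 ^ 2 := by
    rw [Real.sq_sqrt (hp z).2.le]
    rfl
  have hd2' : dt (m z) = √(dt (m z)) ^ 2 := (Real.sq_sqrt (hp z).2.le).symm
  rw [eB, eA, hsE]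
  have hfin := H1c_alg (m z).1 (m z).2.1 (m z).2.2 (√(dt (m z))) (dx (fun w => (m w).1) z)
    (dy (fun w => (m w).1) z) (dx (fun w => (m w).2.1) z) (dy (fun w => (m w).2.1) z)
    (dx (fun w => (m w).2.2) z) (dy (fun w => (m w).2.2) z) (dy (dy (fun w => (m w).1)) z)
    (dx (dy (fun w => (m w).1)) z) (dy (dx (fun w => (m w).2.1)) z)
    (dx (dx (fun w => (m w).2.2)) z) (hp z).1.ne' (Real.sqrt_pos.2 (hp z).2).ne' hd2
  rw [hfin]
  have hcurv : curv m z = ((((-(dy (dy (fun w => (m w).1)) z) / 2 + dy (dx (fun w => (m w).2.1)) z - dx (dx (fun w => (m w).2.2)) z / 2) * (m z).1 * (m z).2.2 - (-(dy (dy (fun w => (m w).1)) z) / 2 + dy (dx (fun w => (m w).2.1)) z - dx (dx (fun w => (m w).2.2)) z / 2) * (m z).2.1 * (m z).2.1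
        - dx (fun w => (m w).1) z / 2 * (dy (fun w => (m w).2.1) z - dx (fun w => (m w).2.2) z / 2) * (m z).2.2 + dx (fun w => (m w).1) z / 2 * (m z).2.1 * (dy (fun w => (m w).2.2) z / 2)
        + (dx (fun w => (m w).2.1) z - dy (fun w => (m w).1) z / 2) * (dy (fun w => (m w).2.1) z - dx (fun w => (m w).2.2) z / 2) * (m z).2.1 - (dx (fun w => (m w).2.1) z - dy (fun w => (m w).1) z / 2) * (m z).1 * (dy (fun w => (m w).2.2) z / 2)) -
       (0 * (m z).1 * (m z).2.2 - 0 * (m z).2.1 * (m z).2.1 - dy (fun w => (m w).1) z / 2 * (dy (fun w => (m w).1) z / 2) * (m z).2.2 + dy (fun w => (m w).1) z / 2 * (m z).2.1 * (dx (fun w => (m w).2.2) z / 2)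
        + dx (fun w => (m w).2.2) z / 2 * (dy (fun w => (m w).1) z / 2) * (m z).2.1 - dx (fun w => (m w).2.2) z / 2 * (m z).1 * (dx (fun w => (m w).2.2) z / 2))) / (√(dt (m z)) ^ 2) ^ 2) := by
    rw [← hd2']
    unfold curv
    simp only [Matrix.det_fin_three, Matrix.of_apply, Matrix.cons_val]
  rw [hcurv]

private theorem H1c_lin {h : Pl → ℝ} (z v : Pl) :
    fderiv ℝ h z v = dx h z * v.1 + dy h z * v.2 := by
  have h5 : v = v.1 • ((1 : ℝ), (0 : ℝ)) + v.2 • ((0 : ℝ), (1 : ℝ)) := by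
    ext <;> simp
  conv_lhs => rw [h5]
  rw [map_add, map_smul, map_smul]
  simp only [dx, dy, smul_eq_mul]
  ring

private theorem H1c_om {m : Pl → Co} (hA : ContDiff ℝ ∞ (cA m)) (hB : ContDiff ℝ ∞ (cB m)) (z w w' : Pl) :
    fderiv ℝ (fun y => om m y w') z w =
      (dx (cA m) z * w.1 + dy (cA m) z * w.2) * w'.1 +
        (dx (cB m) z * w.1 + dy (cB m) z * w.2) * w'.2 := by
  have h0 : HasFDerivAt (cA m) (fderiv ℝ (cA m) z) z := ((hA.differentiable (by simp)) z).hasFDerivAt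
  have h1 : HasFDerivAt (cB m) (fderiv ℝ (cB m) z) z := ((hB.differentiable (by simp)) z).hasFDerivAt
  have h2 : HasFDerivAt (fun y => om m y w')
      (w'.1 • fderiv ℝ (cA m) z + w'.2 • fderiv ℝ (cB m) z) z :=
    (h0.mul_const w'.1).add (h1.mul_const w'.2)
  rw [h2.fderiv]
  show w'.1 * fderiv ℝ (cA m) z w + w'.2 * fderiv ℝ (cB m) z w = _
  rw [H1c_lin z w, H1c_lin z w]
  ring

theorem struct3 {m : Pl → Co} (hs : ContDiff ℝ ∞ m) (hp : ∀ z, 0 < (m z).1 ∧ 0 < dt (m z))
    (z w w' : Pl) :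
    fderiv ℝ (fun y => om m y w') z w - fderiv ℝ (fun y => om m y w) z w' =
      -curv m z * ((ifr (m z) w).1 * (ifr (m z) w').2 - (ifr (m z) w').1 * (ifr (m z) w).2) := by
  obtain ⟨hA, hB, hmain⟩ := H1c_main hs hp
  have h1 := wd_ifr (hp z).1 (hp z).2 w w'
  have h2 : (ifr (m z) w).1 * (ifr (m z) w').2 - (ifr (m z) w').1 * (ifr (m z) w).2 =
      √(dt (m z)) * (w.1 * w'.2 - w.2 * w'.1) := by
    have e : (ifr (m z) w).1 * (ifr (m z) w').2 - (ifr (m z) w').1 * (ifr (m z) w).2 =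
      wd (ifr (m z) w) (ifr (m z) w') := by
      unfold wd
      ring
    rw [e, h1]
    rfl
  rw [h2, H1c_om hA hB, H1c_om hA hB]
  have h3 := hmain z
  linear_combination (w.1 * w'.2 - w.2 * w'.1) * h3

end BR
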