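import Pool.Agent.LibBR70.H1b
import Pool.Agent.LibBR70.H1c
import Pool.Agent.LibBR70.H1e

/-! Row H1f (cites H1b, H1c, H1e; the heart): the derivative of the geodesic flow in the frames.
For a unit vector `u` at `x` and a tangent vector `ξ` with `ip u ξ.2 = 0` (variation through unit
vectors) put `P t = gfl m t (x, u) = (z, v)`, `X t = dgf m t (x, u) ξ = (δz, δv)`. Then
`cp` is constant, `cq' = cb`, `cb' = -K cq`.
Plan. `X' = fderiv (gf m) P X` (`FL_ext_lin`/`FL_hasFDerivAt`: the derivative of the flow solves the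
linearised equation; or differentiate the smooth map of H1e and exchange the derivatives). Write
`ω' = om m z z'`, `Ω = D_{δz} ω(z') + ω(δz')` (the derivative of `om m z (fr (m z) v)` in the
direction `X`), `X₁ = (ifr (m z) δz).1`, `X₂ = (ifr (m z) δz).2`. Since `ifr (m z) z' = v`
identically in the variation parameter, the linearised equations are
`D_{δz} θ(z') + θ(δz') = δv`, `δv₁' = Ω v₂ + ω' δv₂`, `δv₂' = -Ω v₁ - ω' δv₁`. Hence
(struct1, struct2 with `w = z'`, `w' = δz`): `X₁' = ω' X₂ - ω(δz) v₂ + δv₁`,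
`X₂' = -ω' X₁ + ω(δz) v₁ + δv₂`. With `p = X₁ v₁ + X₂ v₂`, `q = -X₁ v₂ + X₂ v₁`,
`b = v₁ δv₂ - v₂ δv₁ + ω(δz)`, `v₁² + v₂² = 1`, `v₁ δv₁ + v₂ δv₂ = 0` (preserved: derivative of `gfl_eu`):
`p' = v₁ δv₁ + v₂ δv₂ = 0`; `q' = b`; `b' = -Ω + D_{z'} ω(δz) + ω(δz') = D_{z'} ω(δz) - D_{δz} ω(z')
= -K (v₁ X₂ - v₂ X₁) = -K q` (struct3). -/

open MeasureTheory Set Filter Topology
open scoped ContDiff

namespace BR

open BGS

variable {Γ : Type} [Group Γ] [MulAction Γ Pl] {D : Set Pl}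

private theorem H1f_fst {E F : Type} [NormedAddCommGroup E] [NormedSpace ℝ E]
    [NormedAddCommGroup F] [NormedSpace ℝ F] {f : ℝ → E × F} {f' : E × F} {t : ℝ}
    (h : HasDerivAt f f' t) : HasDerivAt (fun s => (f s).1) f'.1 t :=
  (ContinuousLinearMap.fst ℝ E F).hasFDerivAt.comp_hasDerivAt t h

private theorem H1f_snd {E F : Type} [NormedAddCommGroup E] [NormedSpace ℝ E]
    [NormedAddCommGroup F] [NormedSpace ℝ F] {f : ℝ → E × F} {f' : E × F} {t : ℝ}
    (h : HasDerivAt f f' t) : HasDerivAt (fun s => (f s).2) f'.2 t :=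
  (ContinuousLinearMap.snd ℝ E F).hasFDerivAt.comp_hasDerivAt t h

private theorem H1f_W (hX : Surface Γ D) {m : Pl → Co} (hm : HM Γ m) :
    ∃ W : ℝ → (Pl × Pl) → (Pl × Pl) →L[ℝ] (Pl × Pl),
      IsFlow (ext (gf m)) (fun t p => (gfl m t p.1, W t p.1 p.2)) ∧
      (∀ t p, HasFDerivAt (gfl m t) (W t p) p) := by
  obtain ⟨W, hW⟩ := FL_ext_lin (gf_smooth hm.smooth hm.pos) (gfl_isFlow hX hm)
  exact ⟨W, hW, fun t p =>
    FL_hasFDerivAt (gf_smooth hm.smooth hm.pos) (gfl_isFlow hX hm) hW t p⟩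

theorem dgf_deriv (hX : Surface Γ D) {m : Pl → Co} (hm : HM Γ m) (t : ℝ) (p ξ : Pl × Pl) :
    HasDerivAt (fun s => dgf m s p ξ) (fderiv ℝ (gf m) (gfl m t p) (dgf m t p ξ)) t := by
  obtain ⟨W, hW, hD⟩ := H1f_W hX hm
  have h1 : ∀ s, dgf m s p ξ = W s p ξ := fun s => by
    unfold dgf
    rw [(hD s p).fderiv]
  have h2 := H1f_snd (hW.deriv (p, ξ) t)
  have h3 : (fun s => dgf m s p ξ) = fun s => W s p ξ := funext h1
  rw [h3, h1 t]
  exact h2

private theorem H1f_diff (hX : Surface Γ D) {m : Pl → Co} (hm : HM Γ m) (t : ℝ) (p : Pl × Pl) :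
    HasFDerivAt (gfl m t) (fderiv ℝ (gfl m t) p) p := by
  obtain ⟨W, hW, hD⟩ := H1f_W hX hm
  exact (hD t p).differentiableAt.hasFDerivAt

private theorem H1f_line (hX : Surface Γ D) {m : Pl → Co} (hm : HM Γ m) (t : ℝ)
    (p ξ : Pl × Pl) :
    HasDerivAt (fun s : ℝ => gfl m t (p + s • ξ)) (dgf m t p ξ) 0 := by
  have h1 : HasDerivAt (fun s : ℝ => p + s • ξ) ξ 0 := by
    have := ((hasDerivAt_id (0 : ℝ)).smul_const ξ).const_add p
    simpa using this
  have h2 : HasFDerivAt (gfl m t) (fderiv ℝ (gfl m t) p) (p + (0 : ℝ) • ξ) := by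
    simpa using H1f_diff hX hm t p
  exact h2.comp_hasDerivAt (0 : ℝ) h1

private theorem H1f_eu (v : Pl) : eu v ^ 2 = v.1 ^ 2 + v.2 ^ 2 := by
  unfold eu
  rw [Real.sq_sqrt (by positivity)]

theorem dgf_perp (hX : Surface Γ D) {m : Pl → Co} (hm : HM Γ m) (t : ℝ) {x u : Pl} {ξ : Pl × Pl}
    (hξ : ip u ξ.2 = 0) : ip (gfl m t (x, u)).2 (dgf m t (x, u) ξ).2 = 0 := by
  have h1 := H1f_snd (H1f_line hX hm t (x, u) ξ)
  have ha := (H1f_fst h1).pow 2
  have hb := (H1f_snd h1).pow 2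
  have hab := ha.add hb
  have hc : HasDerivAt (fun s : ℝ => (u.1 + s * ξ.2.1) ^ 2 + (u.2 + s * ξ.2.2) ^ 2)
      (2 * (u.1 * ξ.2.1 + u.2 * ξ.2.2)) 0 := by
    have e1 : HasDerivAt (fun s : ℝ => u.1 + s * ξ.2.1) ξ.2.1 0 := by
      simpa using ((hasDerivAt_id (0 : ℝ)).mul_const ξ.2.1).const_add u.1
    have e2 : HasDerivAt (fun s : ℝ => u.2 + s * ξ.2.2) ξ.2.2 0 := by
      simpa using ((hasDerivAt_id (0 : ℝ)).mul_const ξ.2.2).const_add u.2
    have e3 := (e1.pow 2).add (e2.pow 2)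
    refine e3.congr_deriv ?_
    simp
    ring
  have heq : (fun s : ℝ => (u.1 + s * ξ.2.1) ^ 2 + (u.2 + s * ξ.2.2) ^ 2) =
      fun s : ℝ => ((gfl m t ((x, u) + s • ξ)).2).1 ^ 2 + ((gfl m t ((x, u) + s • ξ)).2).2 ^ 2 := by
    funext s
    have := gfl_eu hX hm t ((x, u) + s • ξ)
    have h2 : eu (gfl m t ((x, u) + s • ξ)).2 ^ 2 = eu ((x, u) + s • ξ).2 ^ 2 := by rw [this]
    rw [H1f_eu, H1f_eu] at h2
    rw [h2]
    simp
  rw [heq] at hc
  have := hab.unique hc
  simp only [zero_smul, add_zero] at this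
  unfold ip at hξ ⊢
  rw [hξ] at this
  have h4 : 2 * ((gfl m t (x, u)).2.1 * (dgf m t (x, u) ξ).2.1 +
      (gfl m t (x, u)).2.2 * (dgf m t (x, u) ξ).2.2) = 0 := by
    rw [mul_zero] at this
    rw [← this]
    push_cast
    ring
  linarith

/-- derivative of a function which is linear in the second variable -/
private theorem H1f_split {F : Type} [NormedAddCommGroup F] [NormedSpace ℝ F] (G : Pl × Pl → F)
    (hG : Differentiable ℝ G) (hadd : ∀ (z w : Pl) (c : Pl) (s : ℝ), G (z, w + s • c) =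
      G (z, w) + s • G (z, c)) (z w a b : Pl) :
    fderiv ℝ G (z, w) (a, b) = fderiv ℝ (fun y => G (y, w)) z a + G (z, b) := by
  have h0 : ((a, b) : Pl × Pl) = (a, 0) + (0, b) := by simp
  rw [h0, map_add]
  congr 1
  · have h1 : HasFDerivAt (fun y : Pl => (y, w)) (ContinuousLinearMap.inl ℝ Pl Pl) z := by
      exact hasFDerivAt_prodMk_left z w
    have h2 := ((hG (z, w)).hasFDerivAt).comp z h1
    have h3 : fderiv ℝ (fun y => G (y, w)) z = (fderiv ℝ G (z, w)).comp
      (ContinuousLinearMap.inl ℝ Pl Pl) := h2.fderiv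
    rw [h3]
    rfl
  · have h1 : HasDerivAt (fun s : ℝ => ((z, w + s • b) : Pl × Pl)) (0, b) 0 := by
      have e1 : HasDerivAt (fun s : ℝ => w + s • b) b 0 := by
        simpa using ((hasDerivAt_id (0 : ℝ)).smul_const b).const_add w
      exact (hasDerivAt_const (0 : ℝ) z).prodMk e1
    have h2 : HasFDerivAt G (fderiv ℝ G (z, w)) (z, w + (0 : ℝ) • b) := by
      simpa using (hG (z, w)).hasFDerivAt
    have h3 := h2.comp_hasDerivAt (0 : ℝ) h1
    have h4 : HasDerivAt (fun s : ℝ => G (z, w + s • b)) (G (z, b)) 0 := by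
      have : (fun s : ℝ => G (z, w + s • b)) = fun s : ℝ => G (z, w) + s • G (z, b) :=
        funext fun s => hadd z w b s
      rw [this]
      simpa using ((hasDerivAt_id (0 : ℝ)).smul_const (G (z, b))).const_add (G (z, w))
    exact h3.unique h4

private theorem H1f_ifr_lin (c : Co) (w b : Pl) (s : ℝ) :
    ifr c (w + s • b) = ifr c w + s • ifr c b := by
  ext
  · simp only [ifr, bf, Prod.fst_add, Prod.snd_add, Prod.smul_fst, Prod.smul_snd, smul_eq_mul]
    ring
  · simp only [ifr, bf, Prod.fst_add, Prod.snd_add, Prod.smul_fst, Prod.smul_snd, smul_eq_mul]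
    ring

private theorem H1f_om_lin (m : Pl → Co) (z w b : Pl) (s : ℝ) :
    om m z (w + s • b) = om m z w + s • om m z b := by
  simp only [om, Prod.fst_add, Prod.snd_add, Prod.smul_fst, Prod.smul_snd, smul_eq_mul]
  ring

/-- all the derivatives in one statement -/
private theorem H1f_main (hX : Surface Γ D) {m : Pl → Co} (hm : HM Γ m) (t : ℝ) (x u : Pl)
    (ξ : Pl × Pl) :
    ∃ Ω : ℝ,
    let z := fun s => (gfl m s (x, u)).1
    let v := fun s => (gfl m s (x, u)).2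
    let δz := fun s => (dgf m s (x, u) ξ).1
    let δv := fun s => (dgf m s (x, u) ξ).2
    let X := fun s => ifr (m (z s)) (δz s)
    let w₀ := om m (z t) (fr (m (z t)) (v t))
    HasDerivAt v (w₀ • (((v t).2, -(v t).1) : Pl)) t ∧
    HasDerivAt X ((w₀ * (X t).2 - om m (z t) (δz t) * (v t).2 + (δv t).1,
      -(w₀ * (X t).1) + om m (z t) (δz t) * (v t).1 + (δv t).2) : Pl) t ∧
    HasDerivAt δv (Ω • (((v t).2, -(v t).1) : Pl) + w₀ • (((δv t).2, -(δv t).1) : Pl)) t ∧
    HasDerivAt (fun s => om m (z s) (δz s))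
      (Ω + -curv m (z t) * ((v t).1 * (X t).2 - (X t).1 * (v t).2)) t := by
  have hs := hm.smooth
  have hp := hm.pos
  set z := fun s => (gfl m s (x, u)).1 with hz
  set v := fun s => (gfl m s (x, u)).2 with hv
  set δz := fun s => (dgf m s (x, u) ξ).1 with hδz
  set δv := fun s => (dgf m s (x, u) ξ).2 with hδv
  set X := fun s => ifr (m (z s)) (δz s) with hXX
  -- the smooth maps
  have hIF : Differentiable ℝ (fun p : Pl × Pl => ifr (m p.1) p.2) :=
    (ifr_smooth hs hp).differentiable (by simp)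
  have hOM : Differentiable ℝ (fun p : Pl × Pl => om m p.1 p.2) :=
    (om_smooth hs hp).differentiable (by simp)
  have hFR : Differentiable ℝ (fun p : Pl × Pl => fr (m p.1) p.2) :=
    (fr_smooth hs hp).differentiable (by simp)
  have hOF : Differentiable ℝ (fun p : Pl × Pl => om m p.1 (fr (m p.1) p.2)) := by
    have : (fun p : Pl × Pl => om m p.1 (fr (m p.1) p.2)) =
      (fun p : Pl × Pl => om m p.1 p.2) ∘ (fun p : Pl × Pl => (p.1, fr (m p.1) p.2)) := rfl
    rw [this]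
    exact hOM.comp (differentiable_fst.prodMk hFR)
  set z' : Pl := fr (m (z t)) (v t) with hz'
  set dz' : Pl := fderiv ℝ (fun p : Pl × Pl => fr (m p.1) p.2) (z t, v t) (δz t, δv t) with hdz'
  set Ω : ℝ := fderiv ℝ (fun p : Pl × Pl => om m p.1 (fr (m p.1) p.2)) (z t, v t) (δz t, δv t)
    with hΩ
  -- derivative of the flow
  have hflow : HasDerivAt (fun s => gfl m s (x, u)) (gf m (gfl m t (x, u))) t :=
    (gfl_isFlow hX hm).deriv (x, u) t
  have hzd : HasDerivAt z z' t := H1f_fst hflow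
  have hvd : HasDerivAt v (om m (z t) z' • (((v t).2, -(v t).1) : Pl)) t := H1f_snd hflow
  -- derivative of the linearised flow
  have hlin := dgf_deriv hX hm t (x, u) ξ
  have hgfd : HasFDerivAt (gf m)
      ((fderiv ℝ (fun p : Pl × Pl => fr (m p.1) p.2) (z t, v t)).prod
        (fderiv ℝ (fun p : Pl × Pl => om m p.1 (fr (m p.1) p.2) • ((p.2.2, -p.2.1) : Pl))
          (z t, v t))) (z t, v t) := by
    refine HasFDerivAt.prodMk (hFR _).hasFDerivAt ?_
    refine DifferentiableAt.hasFDerivAt ?_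
    refine (hOF _).smul ?_
    fun_prop
  have hval : fderiv ℝ (gf m) (gfl m t (x, u)) (dgf m t (x, u) ξ) =
      (dz', Ω • (((v t).2, -(v t).1) : Pl) + om m (z t) z' • (((δv t).2, -(δv t).1) : Pl)) := by
    have e0 : gfl m t (x, u) = (z t, v t) := rfl
    have e1 : dgf m t (x, u) ξ = (δz t, δv t) := rfl
    rw [e0, e1, hgfd.fderiv]
    refine Prod.ext rfl ?_
    show fderiv ℝ (fun p : Pl × Pl => om m p.1 (fr (m p.1) p.2) • ((p.2.2, -p.2.1) : Pl))
          (z t, v t) (δz t, δv t) = _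
    have hrotd : HasFDerivAt (fun p : Pl × Pl => ((p.2.2, -p.2.1) : Pl))
        (((ContinuousLinearMap.snd ℝ ℝ ℝ).comp (ContinuousLinearMap.snd ℝ Pl Pl)).prod
          (-((ContinuousLinearMap.fst ℝ ℝ ℝ).comp (ContinuousLinearMap.snd ℝ Pl Pl))))
        (z t, v t) := by
      refine HasFDerivAt.prodMk ?_ ?_
      · exact ((ContinuousLinearMap.snd ℝ ℝ ℝ).comp (ContinuousLinearMap.snd ℝ Pl Pl)).hasFDerivAt
      · exact ((ContinuousLinearMap.fst ℝ ℝ ℝ).comp
          (ContinuousLinearMap.snd ℝ Pl Pl)).hasFDerivAt.neg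
    have := ((hOF (z t, v t)).hasFDerivAt.smul hrotd).fderiv
    have h2 : fderiv ℝ (fun p : Pl × Pl => om m p.1 (fr (m p.1) p.2) • ((p.2.2, -p.2.1) : Pl))
        (z t, v t) = _ := this
    rw [h2]
    refine (add_comm _ _).trans ?_
    rfl
  rw [hval] at hlin
  have hδzd : HasDerivAt δz dz' t := H1f_fst hlin
  have hδvd : HasDerivAt δv (Ω • (((v t).2, -(v t).1) : Pl) +
      om m (z t) z' • (((δv t).2, -(δv t).1) : Pl)) t := H1f_snd hlin
  refine ⟨Ω, hvd, ?_, hδvd, ?_⟩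
  · -- derivative of X
    have hpair : HasDerivAt (fun s => ((z s, δz s) : Pl × Pl)) (z', dz') t := hzd.prodMk hδzd
    have h1 : HasDerivAt X (fderiv ℝ (fun p : Pl × Pl => ifr (m p.1) p.2) (z t, δz t) (z', dz'))
        t := HasFDerivAt.comp_hasDerivAt (l := fun p : Pl × Pl => ifr (m p.1) p.2)
          (f := fun s => ((z s, δz s) : Pl × Pl)) t (hIF (z t, δz t)).hasFDerivAt hpair
    rw [H1f_split _ hIF (fun z w c s => H1f_ifr_lin (m z) w c s)] at h1
    -- the identity ifr (fr w) = w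
    have h2 : ifr (m (z t)) dz' = δv t - fderiv ℝ (fun y => ifr (m y) z') (z t) (δz t) := by
      have hid : (fun p : Pl × Pl => ifr (m p.1) (fr (m p.1) p.2)) = fun p : Pl × Pl => p.2 := by
        funext p
        exact ifr_fr (hp p.1).1 (hp p.1).2 p.2
      have h3 : HasFDerivAt (fun p : Pl × Pl => ((p.1, fr (m p.1) p.2) : Pl × Pl))
          ((ContinuousLinearMap.fst ℝ Pl Pl).prod
            (fderiv ℝ (fun p : Pl × Pl => fr (m p.1) p.2) (z t, v t))) (z t, v t) :=
        HasFDerivAt.prodMk hasFDerivAt_fst (hFR _).hasFDerivAt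
      have h4 := HasFDerivAt.comp (g := fun p : Pl × Pl => ifr (m p.1) p.2) (z t, v t)
        (hIF (z t, z')).hasFDerivAt h3
      have h5 : HasFDerivAt (fun p : Pl × Pl => ifr (m p.1) (fr (m p.1) p.2))
          (ContinuousLinearMap.snd ℝ Pl Pl) (z t, v t) := by
        rw [hid]
        exact hasFDerivAt_snd
      have h6 := h4.unique h5
      have h7 := congrArg (fun L : (Pl × Pl) →L[ℝ] Pl => L (δz t, δv t)) h6
      have h8 : fderiv ℝ (fun p : Pl × Pl => ifr (m p.1) p.2) (z t, z') (δz t, dz') = δv t := h7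
      rw [H1f_split _ hIF (fun z w c s => H1f_ifr_lin (m z) w c s)] at h8
      rw [← h8]
      abel
    have hfrv : ifr (m (z t)) z' = v t := ifr_fr (hp (z t)).1 (hp (z t)).2 (v t)
    have s1 := struct1 hs hp (z t) z' (δz t)
    have s2 := struct2 hs hp (z t) z' (δz t)
    rw [hfrv] at s1 s2
    have hc1 : ∀ (w : Pl) (a : Pl), (fderiv ℝ (fun y => ifr (m y) w) (z t) a).1 =
        fderiv ℝ (fun y => (ifr (m y) w).1) (z t) a := by
      intro w a
      have hd : DifferentiableAt ℝ (fun y => ifr (m y) w) (z t) := by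
        have : (fun y => ifr (m y) w) = (fun p : Pl × Pl => ifr (m p.1) p.2) ∘
          (fun y : Pl => (y, w)) := rfl
        rw [this]
        exact (hIF _).comp _ (by fun_prop)
      rw [(hd.hasFDerivAt.fst).fderiv]
      rfl
    have hc2 : ∀ (w : Pl) (a : Pl), (fderiv ℝ (fun y => ifr (m y) w) (z t) a).2 =
        fderiv ℝ (fun y => (ifr (m y) w).2) (z t) a := by
      intro w a
      have hd : DifferentiableAt ℝ (fun y => ifr (m y) w) (z t) := by
        have : (fun y => ifr (m y) w) = (fun p : Pl × Pl => ifr (m p.1) p.2) ∘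
          (fun y : Pl => (y, w)) := rfl
        rw [this]
        exact (hIF _).comp _ (by fun_prop)
      rw [(hd.hasFDerivAt.snd).fderiv]
      rfl
    refine h1.congr_deriv ?_
    show fderiv ℝ (fun y => ifr (m y) (δz t)) (z t) z' + ifr (m (z t)) dz' = _
    rw [h2]
    refine Prod.ext ?_ ?_
    · simp only [Prod.fst_add, Prod.fst_sub, hc1]
      linarith
    · simp only [Prod.snd_add, Prod.snd_sub, hc2]
      linarith
  · have hpair : HasDerivAt (fun s => ((z s, δz s) : Pl × Pl)) (z', dz') t := hzd.prodMk hδzd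
    have h1 : HasDerivAt (fun s => om m (z s) (δz s))
        (fderiv ℝ (fun p : Pl × Pl => om m p.1 p.2) (z t, δz t) (z', dz'))
        t := HasFDerivAt.comp_hasDerivAt (l := fun p : Pl × Pl => om m p.1 p.2)
          (f := fun s => ((z s, δz s) : Pl × Pl)) t (hOM (z t, δz t)).hasFDerivAt hpair
    rw [H1f_split _ hOM (fun z w c s => H1f_om_lin m z w c s)] at h1
    have hΩ2 : Ω = fderiv ℝ (fun y => om m y z') (z t) (δz t) + om m (z t) dz' := by
      have h3 : HasFDerivAt (fun p : Pl × Pl => ((p.1, fr (m p.1) p.2) : Pl × Pl))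
          ((ContinuousLinearMap.fst ℝ Pl Pl).prod
            (fderiv ℝ (fun p : Pl × Pl => fr (m p.1) p.2) (z t, v t))) (z t, v t) :=
        HasFDerivAt.prodMk hasFDerivAt_fst (hFR _).hasFDerivAt
      have h4 := HasFDerivAt.comp (g := fun p : Pl × Pl => om m p.1 p.2) (z t, v t)
        (hOM (z t, z')).hasFDerivAt h3
      have h5 : Ω = fderiv ℝ (fun p : Pl × Pl => om m p.1 p.2) (z t, z') (δz t, dz') := by
        rw [hΩ]
        have h6 : fderiv ℝ (fun p : Pl × Pl => om m p.1 (fr (m p.1) p.2)) (z t, v t) = _ :=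
          h4.fderiv
        rw [h6]
        rfl
      rw [h5, H1f_split _ hOM (fun z w c s => H1f_om_lin m z w c s)]
    have hfrv : ifr (m (z t)) z' = v t := ifr_fr (hp (z t)).1 (hp (z t)).2 (v t)
    have s3 := struct3 hs hp (z t) z' (δz t)
    rw [hfrv] at s3
    refine h1.congr_deriv ?_
    show fderiv ℝ (fun y => om m y (δz t)) (z t) z' + om m (z t) dz' = _
    rw [hΩ2]
    have e : (ifr (m (z t)) (δz t)) = X t := rfl
    rw [e] at s3
    linarith

private theorem H1f_unit (hX : Surface Γ D) {m : Pl → Co} (hm : HM Γ m) (t : ℝ) {x u : Pl}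
    (hu : eu u = 1) : (gfl m t (x, u)).2.1 ^ 2 + (gfl m t (x, u)).2.2 ^ 2 = 1 := by
  rw [← H1f_eu, gfl_eu hX hm, show ((x, u) : Pl × Pl).2 = u from rfl, hu]
  norm_num

theorem jac_p (hX : Surface Γ D) {m : Pl → Co} (hm : HM Γ m) (t : ℝ) {x u : Pl} (hu : eu u = 1)
    {ξ : Pl × Pl} (hξ : ip u ξ.2 = 0) :
    cp m (gfl m t (x, u)) (dgf m t (x, u) ξ) = cp m (x, u) ξ := by
  have hd : ∀ t, HasDerivAt (fun s => cp m (gfl m s (x, u)) (dgf m s (x, u) ξ)) 0 t := by
    intro t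
    obtain ⟨Ω, hv, hXd, hδv, hom⟩ := H1f_main hX hm t x u ξ
    have h1 := ((H1f_fst hXd).mul (H1f_fst hv)).add ((H1f_snd hXd).mul (H1f_snd hv))
    have h2 := dgf_perp hX hm t (x := x) hξ
    unfold ip at h2
    refine HasDerivAt.congr_deriv h1 ?_
    simp only [Prod.smul_fst, Prod.smul_snd, smul_eq_mul]
    linear_combination h2
  have hc := is_const_of_deriv_eq_zero (fun t => (hd t).differentiableAt)
    (fun t => (hd t).deriv) t 0
  have hc2 : cp m (gfl m t (x, u)) (dgf m t (x, u) ξ) =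
    cp m (gfl m 0 (x, u)) (dgf m 0 (x, u) ξ) := hc
  rw [hc2]
  have h0 : gfl m 0 (x, u) = (x, u) := (gfl_isFlow hX hm).zero (x, u)
  have h00 : gfl m 0 = id := funext fun p => (gfl_isFlow hX hm).zero p
  have h1 : dgf m 0 (x, u) ξ = ξ := by
    unfold dgf
    rw [h00, fderiv_id]
    rfl
  simp only [h0, h1]

theorem jac_q (hX : Surface Γ D) {m : Pl → Co} (hm : HM Γ m) (t : ℝ) {x u : Pl} (hu : eu u = 1)
    {ξ : Pl × Pl} (hξ : ip u ξ.2 = 0) :
    HasDerivAt (fun s => cq m (gfl m s (x, u)) (dgf m s (x, u) ξ))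
      (cb m (gfl m t (x, u)) (dgf m t (x, u) ξ)) t := by
  obtain ⟨Ω, hv, hXd, hδv, hom⟩ := H1f_main hX hm t x u ξ
  have h1 := ((H1f_fst hXd).mul (H1f_snd hv).neg).add ((H1f_snd hXd).mul (H1f_fst hv))
  have h3 := H1f_unit hX hm t (x := x) hu
  refine HasDerivAt.congr_deriv h1 ?_
  simp only [Prod.smul_fst, Prod.smul_snd, smul_eq_mul, cb, wd, Pi.neg_apply]
  linear_combination (om m (gfl m t (x, u)).1 (dgf m t (x, u) ξ).1) * h3

theorem jac_b (hX : Surface Γ D) {m : Pl → Co} (hm : HM Γ m) (t : ℝ) {x u : Pl} (hu : eu u = 1)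
    {ξ : Pl × Pl} (hξ : ip u ξ.2 = 0) :
    HasDerivAt (fun s => cb m (gfl m s (x, u)) (dgf m s (x, u) ξ))
      (-curv m (gfl m t (x, u)).1 * cq m (gfl m t (x, u)) (dgf m t (x, u) ξ)) t := by
  obtain ⟨Ω, hv, hXd, hδv, hom⟩ := H1f_main hX hm t x u ξ
  have h1 := (((H1f_fst hv).mul (H1f_snd hδv)).sub ((H1f_snd hv).mul (H1f_fst hδv))).add hom
  have h3 := H1f_unit hX hm t (x := x) hu
  refine HasDerivAt.congr_deriv h1 ?_
  simp only [Prod.smul_fst, Prod.smul_snd, Prod.fst_add, Prod.snd_add, smul_eq_mul, cq, ip, rot]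
  linear_combination (-Ω) * h3

end BR
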