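import Pool.Agent.LibBR70.JB_Defs

/-! Row JB1 (only Mathlib): first closure properties of `EB`.
Plan. `EB_bound'`: take the maximum of the constants of the orders `0, ..., k` and `1`
(`C exp (C ℓ)` is monotone in `C ≥ 0` because `0 ≤ ℓ`). `EB_const`: all derivatives of order `≥ 1`
vanish (`iteratedFDeriv_const_of_ne`). `EB_clm`: `ContinuousLinearMap.norm_iteratedFDeriv_comp_left`
(norm `≤ ‖L‖ ...`). `EB_prod`: `norm_iteratedFDeriv_prodMk`-type lemma, or write
`(f, g) = inl ∘ f + inr ∘ g` and use `EB_clm`, `EB_add`. `EB_add`: `iteratedFDeriv_add_apply` (or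
`norm_iteratedFDeriv_add_le`-like), both functions are `C^∞`. `EB_id`: the hypothesis bounds `‖x i‖`;
the first derivative is the identity, the higher ones vanish (use `EB_clm`-like facts for a linear
map: `ContinuousLinearMap.iteratedFDeriv...` or `iteratedFDeriv_succ_eq_comp_left`, `fderiv_id`). -/

open Set Filter Topology
open scoped ContDiff

namespace BR

variable {ι : Type} {E F G : Type} [NormedAddCommGroup E] [NormedSpace ℝ E]
  [NormedAddCommGroup F] [NormedSpace ℝ F] [NormedAddCommGroup G] [NormedSpace ℝ G]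
  {ℓ : ι → ℝ} {x : ι → E}

private theorem JB1_mono {C D t : ℝ} (hCD : C ≤ D) (hD : 0 ≤ D) (ht : 0 ≤ t) :
    C * Real.exp (C * t) ≤ D * Real.exp (D * t) := by
  have h1 : Real.exp (C * t) ≤ Real.exp (D * t) :=
    Real.exp_le_exp.2 (mul_le_mul_of_nonneg_right hCD ht)
  calc C * Real.exp (C * t) ≤ D * Real.exp (C * t) :=
        mul_le_mul_of_nonneg_right hCD (Real.exp_pos _).le
    _ ≤ D * Real.exp (D * t) := mul_le_mul_of_nonneg_left h1 hD

theorem EB_bound' (hℓ : ∀ i, 0 ≤ ℓ i) {f : ι → E → F} (hf : EB ℓ f x) (k : ℕ) :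
    ∃ C : ℝ, 1 ≤ C ∧ ∀ j ≤ k, ∀ i,
      ‖iteratedFDeriv ℝ j (f i) (x i)‖ ≤ C * Real.exp (C * ℓ i) := by
  choose C hC using hf.bound
  have h0 : 0 ≤ ∑ j ∈ Finset.range (k + 1), |C j| := Finset.sum_nonneg fun j _ => abs_nonneg _
  refine ⟨1 + ∑ j ∈ Finset.range (k + 1), |C j|, by linarith, fun j hj i => ?_⟩
  refine (hC j i).trans (JB1_mono ?_ (by linarith) (hℓ i))
  have h1 : |C j| ≤ ∑ j ∈ Finset.range (k + 1), |C j| :=
    Finset.single_le_sum (f := fun j => |C j|) (fun j _ => abs_nonneg _)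
      (Finset.mem_range.2 (Nat.lt_succ_of_le hj))
  linarith [le_abs_self (C j)]

private theorem JB1_bound (hℓ : ∀ i, 0 ≤ ℓ i) {f : ι → E → F} (hf : EB ℓ f x) (k : ℕ) :
    ∃ C : ℝ, 1 ≤ C ∧ ∀ i, ‖iteratedFDeriv ℝ k (f i) (x i)‖ ≤ C * Real.exp (C * ℓ i) := by
  obtain ⟨C, hC, h⟩ := EB_bound' hℓ hf k
  exact ⟨C, hC, h k le_rfl⟩

theorem EB_const (hℓ : ∀ i, 0 ≤ ℓ i) {c : ι → F} {C : ℝ}
    (hc : ∀ i, ‖c i‖ ≤ C * Real.exp (C * ℓ i)) : EB ℓ (fun i _ => c i) x := by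
  refine ⟨fun i => contDiff_const, fun k => ?_⟩
  cases k with
  | zero =>
    refine ⟨C, fun i => ?_⟩
    rw [norm_iteratedFDeriv_zero]
    exact hc i
  | succ k =>
    refine ⟨0, fun i => ?_⟩
    rw [iteratedFDeriv_succ_const]
    simp

theorem EB_id (hℓ : ∀ i, 0 ≤ ℓ i) {C : ℝ} (hx : ∀ i, ‖x i‖ ≤ C * Real.exp (C * ℓ i)) :
    EB ℓ (fun _ y => y) x := by
  refine ⟨fun i => contDiff_id, fun k => ?_⟩
  cases k with
  | zero =>
    refine ⟨C, fun i => ?_⟩
    rw [norm_iteratedFDeriv_zero]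
    exact hx i
  | succ k =>
    refine ⟨1, fun i => ?_⟩
    rw [← norm_iteratedFDeriv_fderiv]
    have e : fderiv ℝ (fun y : E => y) = fun _ => ContinuousLinearMap.id ℝ E := by
      funext y
      exact fderiv_id'
    rw [e]
    have h1 : (1 : ℝ) ≤ 1 * Real.exp (1 * ℓ i) := by
      rw [one_mul, one_mul]
      exact Real.one_le_exp (hℓ i)
    cases k with
    | zero =>
      rw [norm_iteratedFDeriv_zero]
      exact ContinuousLinearMap.norm_id_le.trans h1
    | succ k =>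
      rw [iteratedFDeriv_succ_const]
      simp only [Pi.zero_apply, norm_zero]
      linarith

theorem EB_add (hℓ : ∀ i, 0 ≤ ℓ i) {f g : ι → E → F} (hf : EB ℓ f x) (hg : EB ℓ g x) :
    EB ℓ (fun i y => f i y + g i y) x := by
  refine ⟨fun i => (hf.smooth i).add (hg.smooth i), fun k => ?_⟩
  obtain ⟨C, hC, h1⟩ := JB1_bound hℓ hf k
  obtain ⟨D, hD, h2⟩ := JB1_bound hℓ hg k
  refine ⟨C + D, fun i => ?_⟩
  have e : iteratedFDeriv ℝ k (fun y => f i y + g i y) (x i) =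
      iteratedFDeriv ℝ k (f i) (x i) + iteratedFDeriv ℝ k (g i) (x i) :=
    iteratedFDeriv_add_apply ((hf.smooth i).contDiffAt.of_le (by exact_mod_cast le_top))
      ((hg.smooth i).contDiffAt.of_le (by exact_mod_cast le_top))
  rw [e]
  have h3 : C * Real.exp (C * ℓ i) ≤ C * Real.exp ((C + D) * ℓ i) := by
    apply mul_le_mul_of_nonneg_left _ (by linarith)
    rw [Real.exp_le_exp]
    exact mul_le_mul_of_nonneg_right (by linarith) (hℓ i)
  have h4 : D * Real.exp (D * ℓ i) ≤ D * Real.exp ((C + D) * ℓ i) := by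
    apply mul_le_mul_of_nonneg_left _ (by linarith)
    rw [Real.exp_le_exp]
    exact mul_le_mul_of_nonneg_right (by linarith) (hℓ i)
  calc _ ≤ ‖iteratedFDeriv ℝ k (f i) (x i)‖ + ‖iteratedFDeriv ℝ k (g i) (x i)‖ := norm_add_le _ _
    _ ≤ C * Real.exp ((C + D) * ℓ i) + D * Real.exp ((C + D) * ℓ i) := by
        linarith [h1 i, h2 i]
    _ = (C + D) * Real.exp ((C + D) * ℓ i) := by ring

theorem EB_clm (hℓ : ∀ i, 0 ≤ ℓ i) {f : ι → E → F} (hf : EB ℓ f x) (L : F →L[ℝ] G) :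
    EB ℓ (fun i y => L (f i y)) x := by
  refine ⟨fun i => L.contDiff.comp (hf.smooth i), fun k => ?_⟩
  obtain ⟨C, hC, h1⟩ := JB1_bound hℓ hf k
  refine ⟨(‖L‖ + 1) * C, fun i => ?_⟩
  have h2 := L.norm_iteratedFDeriv_comp_left (n := k) (N := ∞) (hf.smooth i).contDiffAt
    (x := x i) (by exact_mod_cast le_top)
  have hL := norm_nonneg L
  have h3 : Real.exp (C * ℓ i) ≤ Real.exp ((‖L‖ + 1) * C * ℓ i) := by
    rw [Real.exp_le_exp]
    apply mul_le_mul_of_nonneg_right _ (hℓ i)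
    nlinarith
  calc _ ≤ ‖L‖ * ‖iteratedFDeriv ℝ k (f i) (x i)‖ := h2
    _ ≤ ‖L‖ * (C * Real.exp (C * ℓ i)) := mul_le_mul_of_nonneg_left (h1 i) hL
    _ ≤ ‖L‖ * (C * Real.exp ((‖L‖ + 1) * C * ℓ i)) := by
        apply mul_le_mul_of_nonneg_left _ hL
        exact mul_le_mul_of_nonneg_left h3 (by linarith)
    _ ≤ (‖L‖ + 1) * C * Real.exp ((‖L‖ + 1) * C * ℓ i) := by
        have h4 : 0 ≤ C * Real.exp ((‖L‖ + 1) * C * ℓ i) :=
          mul_nonneg (by linarith) (Real.exp_pos _).le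
        nlinarith

theorem EB_sub (hℓ : ∀ i, 0 ≤ ℓ i) {f g : ι → E → F} (hf : EB ℓ f x) (hg : EB ℓ g x) :
    EB ℓ (fun i y => f i y - g i y) x := by
  have h := EB_add hℓ hf (EB_clm hℓ hg (-(ContinuousLinearMap.id ℝ F)))
  have e : (fun i y => f i y - g i y) =
      fun i y => f i y + (-(ContinuousLinearMap.id ℝ F)) (g i y) := by
    funext i y
    simp [sub_eq_add_neg]
  rw [e]
  exact h

theorem EB_prod (hℓ : ∀ i, 0 ≤ ℓ i) {f : ι → E → F} {g : ι → E → G} (hf : EB ℓ f x)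
    (hg : EB ℓ g x) : EB ℓ (fun i y => (f i y, g i y)) x := by
  have h := EB_add hℓ (EB_clm hℓ hf (ContinuousLinearMap.inl ℝ F G))
    (EB_clm hℓ hg (ContinuousLinearMap.inr ℝ F G))
  have e : (fun i y => (f i y, g i y)) =
      fun i y => ContinuousLinearMap.inl ℝ F G (f i y) + ContinuousLinearMap.inr ℝ F G (g i y) := by
    funext i y
    simp
  rw [e]
  exact h

theorem EB_sum (hℓ : ∀ i, 0 ≤ ℓ i) {κ : Type} (s : Finset κ) {f : κ → ι → E → F}
    (hf : ∀ a ∈ s, EB ℓ (f a) x) : EB ℓ (fun i y => ∑ a ∈ s, f a i y) x := by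
  classical
  induction s using Finset.induction_on with
  | empty =>
    simp only [Finset.sum_empty]
    exact EB_const hℓ (C := 0) fun i => by simp
  | insert a s ha ih =>
    have h := EB_add hℓ (hf a (Finset.mem_insert_self _ _))
      (ih fun b hb => hf b (Finset.mem_insert_of_mem hb))
    simp only [Finset.sum_insert ha]
    exact h

end BR
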