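import Pool.Agent.LibBR70.JB1

/-! Row JB2 (only Mathlib, cites JB1): composition and products.
Plan. `EB_comp`: fix `k`; by `EB_bound'` there is `C ≥ 1` for all orders `≤ k` for both families; apply
`norm_iteratedFDeriv_comp_le` (`Mathlib/Analysis/Calculus/ContDiff/Bounds.lean`) with its constants
`C exp (C ℓ i)` and `D = C exp (C ℓ i)` (`D ≥ 1`, so `D ≤ D ^ j` for `j ≥ 1`); the result is
`k! * C exp (C ℓ) * (C exp (C ℓ)) ^ k ≤ C' exp (C' ℓ)` with `C' = k! * C ^ (k + 1) + C (k + 1)`.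
`EB_smul`, `EB_mul`: `norm_iteratedFDeriv_smul_le`/`norm_iteratedFDeriv_mul_le` and `EB_bound'`;
`EB_clm_apply`: `norm_iteratedFDeriv_clm_apply`. -/

open Set Filter Topology
open scoped ContDiff

namespace BR

variable {ι : Type} {E F G : Type} [NormedAddCommGroup E] [NormedSpace ℝ E]
  [NormedAddCommGroup F] [NormedSpace ℝ F] [NormedAddCommGroup G] [NormedSpace ℝ G]
  {ℓ : ι → ℝ} {x : ι → E}

private theorem JB2_exp {A B t : ℝ} (hA : 0 ≤ A) (hB : 0 ≤ B) (ht : 0 ≤ t) :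
    A * Real.exp (B * t) ≤ (A + B) * Real.exp ((A + B) * t) :=
  mul_le_mul (by linarith) (Real.exp_le_exp.2 (mul_le_mul_of_nonneg_right (by linarith) ht))
    (Real.exp_pos _).le (by linarith)

private theorem JB2_pow {A C : ℝ} (hA : 0 ≤ A) (hC : 0 ≤ C) (n : ℕ) :
    ∃ C' : ℝ, ∀ t : ℝ, 0 ≤ t → A * (C * Real.exp (C * t)) ^ n ≤ C' * Real.exp (C' * t) := by
  refine ⟨A * C ^ n + n * C, fun t ht => ?_⟩
  have h : A * (C * Real.exp (C * t)) ^ n = A * C ^ n * Real.exp (n * C * t) := by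
    rw [mul_pow, ← Real.exp_nat_mul, mul_assoc, ← mul_assoc (n : ℝ) C t]
  rw [h]
  exact JB2_exp (by positivity) (by positivity) ht

private theorem JB2_common {E' : Type} [NormedAddCommGroup E'] [NormedSpace ℝ E']
    (hℓ : ∀ i, 0 ≤ ℓ i) {f : ι → E → F} {g : ι → E' → G} {y : ι → E'}
    (hf : EB ℓ f x) (hg : EB ℓ g y) (k : ℕ) :
    ∃ C : ℝ, 1 ≤ C ∧ ∀ j ≤ k, ∀ i,
      ‖iteratedFDeriv ℝ j (f i) (x i)‖ ≤ C * Real.exp (C * ℓ i) ∧
      ‖iteratedFDeriv ℝ j (g i) (y i)‖ ≤ C * Real.exp (C * ℓ i) := by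
  obtain ⟨C₁, h1, hC₁⟩ := EB_bound' hℓ hf k
  obtain ⟨C₂, h2, hC₂⟩ := EB_bound' hℓ hg k
  have hm : ∀ (c c' : ℝ), 1 ≤ c → c ≤ c' → ∀ i,
      c * Real.exp (c * ℓ i) ≤ c' * Real.exp (c' * ℓ i) := fun c c' hc hcc i =>
    mul_le_mul hcc (Real.exp_le_exp.2 (mul_le_mul_of_nonneg_right hcc (hℓ i)))
      (Real.exp_pos _).le (by linarith)
  exact ⟨max C₁ C₂, h1.trans (le_max_left _ _), fun j hj i =>
    ⟨(hC₁ j hj i).trans (hm _ _ h1 (le_max_left _ _) i),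
      (hC₂ j hj i).trans (hm _ _ h2 (le_max_right _ _) i)⟩⟩

private theorem JB2_sum (hℓ : ∀ i, 0 ≤ ℓ i) {H : Type} [NormedAddCommGroup H] [NormedSpace ℝ H]
    {f : ι → E → F} {g : ι → E → G} {h : ι → E → H} (hf : EB ℓ f x) (hg : EB ℓ g x)
    (hs : ∀ i, ContDiff ℝ ∞ (h i))
    (hh : ∀ (k : ℕ) (i : ι), ‖iteratedFDeriv ℝ k (h i) (x i)‖ ≤ ∑ j ∈ Finset.range (k + 1),
      (k.choose j : ℝ) * ‖iteratedFDeriv ℝ j (f i) (x i)‖ *
        ‖iteratedFDeriv ℝ (k - j) (g i) (x i)‖) : EB ℓ h x := by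
  refine ⟨hs, fun k => ?_⟩
  obtain ⟨C, hC1, hC⟩ := JB2_common hℓ hf hg k
  obtain ⟨C', hC'⟩ := JB2_pow (A := (2 : ℝ) ^ k) (C := C) (by positivity) (by linarith) 2
  refine ⟨C', fun i => (hh k i).trans (le_trans ?_ (hC' (ℓ i) (hℓ i)))⟩
  have h1 : ∀ j ∈ Finset.range (k + 1), (k.choose j : ℝ) * ‖iteratedFDeriv ℝ j (f i) (x i)‖ *
      ‖iteratedFDeriv ℝ (k - j) (g i) (x i)‖ ≤
      (k.choose j : ℝ) * (C * Real.exp (C * ℓ i)) ^ 2 := by
    intro j hj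
    have hj' : j ≤ k := Nat.lt_succ_iff.1 (Finset.mem_range.1 hj)
    rw [pow_two, ← mul_assoc]
    exact mul_le_mul (mul_le_mul_of_nonneg_left (hC j hj' i).1 (Nat.cast_nonneg _))
      (hC (k - j) (Nat.sub_le _ _) i).2 (norm_nonneg _) (by positivity)
  refine (Finset.sum_le_sum h1).trans (le_of_eq ?_)
  rw [← Finset.sum_mul, ← Nat.cast_sum, Nat.sum_range_choose]
  push_cast
  rfl

theorem EB_comp (hℓ : ∀ i, 0 ≤ ℓ i) {g : ι → F → G} {f : ι → E → F}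
    (hg : EB ℓ g (fun i => f i (x i))) (hf : EB ℓ f x) : EB ℓ (fun i y => g i (f i y)) x := by
  refine ⟨fun i => (hg.smooth i).comp (hf.smooth i), fun k => ?_⟩
  obtain ⟨C, hC1, hC⟩ := JB2_common hℓ hf hg k
  obtain ⟨C', hC'⟩ := JB2_pow (A := (k.factorial : ℝ)) (C := C) (by positivity) (by linarith)
    (k + 1)
  refine ⟨C', fun i => ?_⟩
  have hC0 : 0 ≤ C * ℓ i := mul_nonneg (by linarith) (hℓ i)
  have hM : 1 ≤ C * Real.exp (C * ℓ i) :=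
    one_le_mul_of_one_le_of_one_le hC1 (Real.one_le_exp hC0)
  have h := norm_iteratedFDeriv_comp_le (hg.smooth i) (hf.smooth i) (n := k)
    (mod_cast le_top) (x i) (C := C * Real.exp (C * ℓ i)) (D := C * Real.exp (C * ℓ i))
    (fun j hj => (hC j hj i).2)
    (fun j hj1 hj => ((hC j hj i).1).trans (le_self_pow₀ hM (by omega)))
  refine le_trans h (le_trans (le_of_eq ?_) (hC' (ℓ i) (hℓ i)))
  rw [pow_succ]
  ring

theorem EB_mul (hℓ : ∀ i, 0 ≤ ℓ i) {f g : ι → E → ℝ} (hf : EB ℓ f x) (hg : EB ℓ g x) :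
    EB ℓ (fun i y => f i y * g i y) x :=
  JB2_sum hℓ hf hg (fun i => (hf.smooth i).mul (hg.smooth i)) fun k i =>
    norm_iteratedFDeriv_mul_le (hf.smooth i) (hg.smooth i) (x i) (n := k) (mod_cast le_top)

theorem EB_smul (hℓ : ∀ i, 0 ≤ ℓ i) {f : ι → E → ℝ} {g : ι → E → F} (hf : EB ℓ f x)
    (hg : EB ℓ g x) : EB ℓ (fun i y => f i y • g i y) x :=
  JB2_sum hℓ hf hg (fun i => (hf.smooth i).smul (hg.smooth i)) fun k i =>
    norm_iteratedFDeriv_smul_le (hf.smooth i) (hg.smooth i) (x i) (n := k) (mod_cast le_top)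

theorem EB_clm_apply (hℓ : ∀ i, 0 ≤ ℓ i) {f : ι → E → F →L[ℝ] G} {g : ι → E → F}
    (hf : EB ℓ f x) (hg : EB ℓ g x) : EB ℓ (fun i y => f i y (g i y)) x :=
  JB2_sum hℓ hf hg (fun i => (hf.smooth i).clm_apply (hg.smooth i)) fun k i =>
    norm_iteratedFDeriv_clm_apply (hf.smooth i) (hg.smooth i) (x i) (n := k) (mod_cast le_top)

end BR
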