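import Pool.Agent.LibBR70.PX_Defs

/-! Row PX1: the Laplacian of `u φ(|v|² + ε)` in normal coordinates.
Plan. `wt` is smooth and positive (`Real.sqrt` of a positive smooth function), `wt ^ 2 = dt`. From
`g1`, `g2` (`G v = v`) and `det`: `(G22 v₁ - G12 v₂) = dt v₁`, `(G11 v₂ - G12 v₁) = dt v₂`. Flux of `u`:
`fl u = ((G22 u₁ - G12 u₂)/w, (G11 u₂ - G12 u₁)/w)`. So the flux of `sg` is `2 w v` and `v · fl u = w (v · ∇ u)`.
`LL_sg`: `div (2 w v)/w = 4 + 2 (v · ∇ w)/w`. `LL_mul`: `fl (u φ) = φ fl u + u φ' 2 w v` with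
`φ = φ(sg + ε)`, `∇ φ = φ' 2 v`; `div`: `φ div fl u + 2 φ' w (v·∇u) + 2 φ' w (v·∇u) + u 2 w (v·∇(φ')) + u φ' div(2 w v)`,
`v·∇(φ'(sg + ε)) = 2 sg φ''`. `LL_add`, `LL_sum`: linearity. `φ` is smooth on `(0, ∞)` and `ε > 0`. -/

open MeasureTheory Set Filter Topology
open scoped ContDiff

namespace BR

open BGS

theorem PX1_diff {f : Pl → ℝ} (hf : ContDiff ℝ ∞ f) (z : Pl) : DifferentiableAt ℝ f z :=
  (hf.differentiable (by simp)) z

theorem PX1_smooth_v {h : Pl → ℝ} (hh : ContDiff ℝ ∞ h) (v : Pl) :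
    ContDiff ℝ ∞ fun z => fderiv ℝ h z v :=
  ((contDiff_infty_iff_fderiv.1 hh).2).clm_apply contDiff_const

theorem PX1_smooth_dx {h : Pl → ℝ} (hh : ContDiff ℝ ∞ h) : ContDiff ℝ ∞ (dx h) :=
  PX1_smooth_v hh (1, 0)

theorem PX1_smooth_dy {h : Pl → ℝ} (hh : ContDiff ℝ ∞ h) : ContDiff ℝ ∞ (dy h) :=
  PX1_smooth_v hh (0, 1)

theorem PX1_mul {f g : Pl → ℝ} (hf : ContDiff ℝ ∞ f) (hg : ContDiff ℝ ∞ g) (z w : Pl) :
    fderiv ℝ (fun y => f y * g y) z w = fderiv ℝ f z w * g z + f z * fderiv ℝ g z w := by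
  rw [fderiv_fun_mul (PX1_diff hf z) (PX1_diff hg z)]
  show f z * fderiv ℝ g z w + g z * fderiv ℝ f z w = _
  ring

theorem PX1_add {f g : Pl → ℝ} (hf : ContDiff ℝ ∞ f) (hg : ContDiff ℝ ∞ g) (z w : Pl) :
    fderiv ℝ (fun y => f y + g y) z w = fderiv ℝ f z w + fderiv ℝ g z w := by
  rw [fderiv_fun_add (PX1_diff hf z) (PX1_diff hg z)]
  rfl

theorem PX1_fst (z w : Pl) : fderiv ℝ (fun y : Pl => y.1) z w = w.1 := by
  rw [fderiv_fst]
  rfl

theorem PX1_snd (z w : Pl) : fderiv ℝ (fun y : Pl => y.2) z w = w.2 := by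
  rw [fderiv_snd]
  rfl

theorem PX1_two {f : Pl → ℝ} (hf : ContDiff ℝ ∞ f) (z w : Pl) :
    fderiv ℝ (fun y => 2 * f y) z w = 2 * fderiv ℝ f z w := by
  rw [fderiv_const_mul (PX1_diff hf z)]
  rfl

theorem PX1_sg_smooth : ContDiff ℝ ∞ sg :=
  (contDiff_fst.pow 2).add (contDiff_snd.pow 2)

theorem PX1_sg (z w : Pl) : fderiv ℝ sg z w = 2 * (z.1 * w.1 + z.2 * w.2) := by
  have h0 : sg = fun y : Pl => y.1 * y.1 + y.2 * y.2 := by
    funext y
    unfold sg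
    ring
  rw [h0, PX1_add (contDiff_fst.mul contDiff_fst) (contDiff_snd.mul contDiff_snd),
    PX1_mul contDiff_fst contDiff_fst, PX1_mul contDiff_snd contDiff_snd, PX1_fst, PX1_snd]
  ring

theorem PX1_dt_smooth {G : Pl → Co} (hG : PMt G) : ContDiff ℝ ∞ fun z => dt (G z) :=
  ((contDiff_fst.comp hG.smooth).mul
    (contDiff_snd.comp (contDiff_snd.comp hG.smooth))).sub
    ((contDiff_fst.comp (contDiff_snd.comp hG.smooth)).pow 2)

theorem wt_smooth {G : Pl → Co} (hG : PMt G) : ContDiff ℝ ∞ (wt G) :=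
  (PX1_dt_smooth hG).sqrt fun v => (hG.pos v).2.ne'

theorem wt_pos {G : Pl → Co} (hG : PMt G) (v : Pl) : 0 < wt G v :=
  Real.sqrt_pos.2 (hG.pos v).2

theorem PX1_wt_sq {G : Pl → Co} (hG : PMt G) (v : Pl) : wt G v * wt G v = dt (G v) :=
  Real.mul_self_sqrt (hG.pos v).2.le

/-- the flux -/
noncomputable def PX1_X (G : Pl → Co) (u : Pl → ℝ) (z : Pl) : ℝ :=
  ((G z).2.2 * dx u z - (G z).2.1 * dy u z) / wt G z

noncomputable def PX1_Y (G : Pl → Co) (u : Pl → ℝ) (z : Pl) : ℝ :=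
  ((G z).1 * dy u z - (G z).2.1 * dx u z) / wt G z

theorem PX1_LL (G : Pl → Co) (u : Pl → ℝ) (v : Pl) :
    LL G u v = (dx (PX1_X G u) v + dy (PX1_Y G u) v) / wt G v := rfl

theorem PX1_X_smooth {G : Pl → Co} (hG : PMt G) {u : Pl → ℝ} (hu : ContDiff ℝ ∞ u) :
    ContDiff ℝ ∞ (PX1_X G u) :=
  (((contDiff_snd.comp (contDiff_snd.comp hG.smooth)).mul (PX1_smooth_dx hu)).sub
    ((contDiff_fst.comp (contDiff_snd.comp hG.smooth)).mul (PX1_smooth_dy hu))).div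
    (wt_smooth hG) fun v => (wt_pos hG v).ne'

theorem PX1_Y_smooth {G : Pl → Co} (hG : PMt G) {u : Pl → ℝ} (hu : ContDiff ℝ ∞ u) :
    ContDiff ℝ ∞ (PX1_Y G u) :=
  (((contDiff_fst.comp hG.smooth).mul (PX1_smooth_dy hu)).sub
    ((contDiff_fst.comp (contDiff_snd.comp hG.smooth)).mul (PX1_smooth_dx hu))).div
    (wt_smooth hG) fun v => (wt_pos hG v).ne'

theorem LL_smooth1 {G : Pl → Co} (hG : PMt G) {u : Pl → ℝ} (hu : ContDiff ℝ ∞ u) :
    ContDiff ℝ ∞ (LL G u) :=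
  ((PX1_smooth_dx (PX1_X_smooth hG hu)).add (PX1_smooth_dy (PX1_Y_smooth hG hu))).div
    (wt_smooth hG) fun v => (wt_pos hG v).ne'

theorem PX1_id1 {G : Pl → Co} (hG : PMt G) (v : Pl) :
    (G v).2.2 * v.1 - (G v).2.1 * v.2 = wt G v * wt G v * v.1 := by
  rw [PX1_wt_sq hG]
  have h1 := hG.g1 v
  have h2 := hG.g2 v
  unfold dt
  calc (G v).2.2 * v.1 - (G v).2.1 * v.2
      = (G v).2.2 * ((G v).1 * v.1 + (G v).2.1 * v.2) -
        (G v).2.1 * ((G v).2.1 * v.1 + (G v).2.2 * v.2) := by rw [h1, h2]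
    _ = _ := by ring

theorem PX1_id2 {G : Pl → Co} (hG : PMt G) (v : Pl) :
    (G v).1 * v.2 - (G v).2.1 * v.1 = wt G v * wt G v * v.2 := by
  rw [PX1_wt_sq hG]
  have h1 := hG.g1 v
  have h2 := hG.g2 v
  unfold dt
  calc (G v).1 * v.2 - (G v).2.1 * v.1
      = (G v).1 * ((G v).2.1 * v.1 + (G v).2.2 * v.2) -
        (G v).2.1 * ((G v).1 * v.1 + (G v).2.1 * v.2) := by rw [h1, h2]
    _ = _ := by ring

theorem LL_sg {G : Pl → Co} (hG : PMt G) (v : Pl) :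
    LL G sg v = 4 + 2 * (v.1 * dx (wt G) v + v.2 * dy (wt G) v) / wt G v := by
  have hw := wt_smooth hG
  have hX : PX1_X G sg = fun z => 2 * (wt G z * z.1) := by
    funext z
    have hw0 := (wt_pos hG z).ne'
    unfold PX1_X dx dy
    rw [PX1_sg, PX1_sg, div_eq_iff hw0]
    have h1 := PX1_id1 hG z
    linear_combination 2 * h1
  have hY : PX1_Y G sg = fun z => 2 * (wt G z * z.2) := by
    funext z
    have hw0 := (wt_pos hG z).ne'
    unfold PX1_Y dx dy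
    rw [PX1_sg, PX1_sg, div_eq_iff hw0]
    have h1 := PX1_id2 hG z
    linear_combination 2 * h1
  have hw0 := (wt_pos hG v).ne'
  rw [PX1_LL, hX, hY]
  unfold dx dy
  rw [PX1_two (hw.mul contDiff_fst), PX1_two (hw.mul contDiff_snd), PX1_mul hw contDiff_fst,
    PX1_mul hw contDiff_snd, PX1_fst, PX1_snd]
  field_simp
  ring

theorem PX1_comp {φ : ℝ → ℝ} (hφ : ContDiffOn ℝ ∞ φ (Ioi 0)) {ε : ℝ} (hε : 0 < ε) :
    ContDiff ℝ ∞ (fun z => φ (sg z + ε)) := by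
  have hs : ContDiff ℝ ∞ (fun z : Pl => sg z + ε) := PX1_sg_smooth.add contDiff_const
  refine hφ.comp_contDiff hs fun z => ?_
  show 0 < sg z + ε
  have h1 : 0 ≤ sg z := add_nonneg (sq_nonneg _) (sq_nonneg _)
  linarith

theorem PX1_comp_fderiv {φ : ℝ → ℝ} (hφ : ContDiffOn ℝ ∞ φ (Ioi 0)) {ε : ℝ} (hε : 0 < ε)
    (z w : Pl) : fderiv ℝ (fun z => φ (sg z + ε)) z w =
      deriv φ (sg z + ε) * (2 * (z.1 * w.1 + z.2 * w.2)) := by
  have h1 : 0 ≤ sg z := add_nonneg (sq_nonneg _) (sq_nonneg _)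
  have h2 : 0 < sg z + ε := by linarith
  have hd : DifferentiableAt ℝ φ (sg z + ε) :=
    ((hφ.differentiableOn (by simp)) _ h2).differentiableAt (Ioi_mem_nhds h2)
  have hs : HasFDerivAt (fun z : Pl => sg z + ε) (fderiv ℝ sg z) z :=
    (PX1_diff PX1_sg_smooth z).hasFDerivAt.add_const ε
  have h3 := (hd.hasDerivAt.comp_hasFDerivAt z hs).fderiv
  have h4 : fderiv ℝ (fun z => φ (sg z + ε)) z = deriv φ (sg z + ε) • fderiv ℝ sg z := h3
  rw [h4]
  show deriv φ (sg z + ε) * fderiv ℝ sg z w = _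
  rw [PX1_sg]

theorem LL_mul {G : Pl → Co} (hG : PMt G) {u : Pl → ℝ} (hu : ContDiff ℝ ∞ u) {φ : ℝ → ℝ}
    (hφ : ContDiffOn ℝ ∞ φ (Ioi 0)) {ε : ℝ} (hε : 0 < ε) (v : Pl) :
    LL G (fun z => u z * φ (sg z + ε)) v =
      4 * sg v * deriv (deriv φ) (sg v + ε) * u v +
      deriv φ (sg v + ε) * (u v * LL G sg v + 4 * (v.1 * dx u v + v.2 * dy u v)) +
      φ (sg v + ε) * LL G u v := by
  have hw := wt_smooth hG
  have hφ' : ContDiffOn ℝ ∞ (deriv φ) (Ioi 0) := hφ.deriv_of_isOpen isOpen_Ioi (by simp)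
  have hP := PX1_comp hφ hε
  have hP' := PX1_comp hφ' hε
  have hXs := PX1_X_smooth hG hu
  have hYs := PX1_Y_smooth hG hu
  have hX : PX1_X G (fun z => u z * φ (sg z + ε)) =
      fun z => φ (sg z + ε) * PX1_X G u z + 2 * (u z * deriv φ (sg z + ε) * (wt G z * z.1)) := by
    funext z
    have hw0 := (wt_pos hG z).ne'
    unfold PX1_X dx dy
    rw [PX1_mul hu hP, PX1_mul hu hP, PX1_comp_fderiv hφ hε, PX1_comp_fderiv hφ hε,
      div_eq_iff hw0]
    have h1 := PX1_id1 hG z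
    field_simp
    linear_combination 2 * u z * deriv φ (sg z + ε) * h1
  have hY : PX1_Y G (fun z => u z * φ (sg z + ε)) =
      fun z => φ (sg z + ε) * PX1_Y G u z + 2 * (u z * deriv φ (sg z + ε) * (wt G z * z.2)) := by
    funext z
    have hw0 := (wt_pos hG z).ne'
    unfold PX1_Y dx dy
    rw [PX1_mul hu hP, PX1_mul hu hP, PX1_comp_fderiv hφ hε, PX1_comp_fderiv hφ hε,
      div_eq_iff hw0]
    have h1 := PX1_id2 hG z
    field_simp
    linear_combination 2 * u z * deriv φ (sg z + ε) * h1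
  have hw0 := (wt_pos hG v).ne'
  have hid : v.1 * PX1_X G u v + v.2 * PX1_Y G u v =
      wt G v * (v.1 * dx u v + v.2 * dy u v) := by
    unfold PX1_X PX1_Y
    have h1 := PX1_id1 hG v
    have h2 := PX1_id2 hG v
    field_simp
    linear_combination dx u v * h1 + dy u v * h2
  have hsgv : sg v = v.1 * v.1 + v.2 * v.2 := by
    unfold sg
    ring
  rw [LL_sg hG, PX1_LL, PX1_LL, hX, hY]
  have e1 : dx (fun z => φ (sg z + ε) * PX1_X G u z +
      2 * (u z * deriv φ (sg z + ε) * (wt G z * z.1))) v =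
      deriv φ (sg v + ε) * (2 * v.1) * PX1_X G u v + φ (sg v + ε) * dx (PX1_X G u) v +
      2 * ((dx u v * deriv φ (sg v + ε) + u v * (deriv (deriv φ) (sg v + ε) * (2 * v.1))) *
        (wt G v * v.1) + u v * deriv φ (sg v + ε) * (dx (wt G) v * v.1 + wt G v)) := by
    unfold dx
    rw [PX1_add (hP.mul hXs) (contDiff_const.mul ((hu.mul hP').mul (hw.mul contDiff_fst))),
      PX1_mul hP hXs, PX1_two ((hu.mul hP').mul (hw.mul contDiff_fst)),
      PX1_mul (hu.mul hP') (hw.mul contDiff_fst), PX1_mul hu hP', PX1_mul hw contDiff_fst,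
      PX1_comp_fderiv hφ hε, PX1_comp_fderiv hφ' hε, PX1_fst]
    ring
  have e2 : dy (fun z => φ (sg z + ε) * PX1_Y G u z +
      2 * (u z * deriv φ (sg z + ε) * (wt G z * z.2))) v =
      deriv φ (sg v + ε) * (2 * v.2) * PX1_Y G u v + φ (sg v + ε) * dy (PX1_Y G u) v +
      2 * ((dy u v * deriv φ (sg v + ε) + u v * (deriv (deriv φ) (sg v + ε) * (2 * v.2))) *
        (wt G v * v.2) + u v * deriv φ (sg v + ε) * (dy (wt G) v * v.2 + wt G v)) := by
    unfold dy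
    rw [PX1_add (hP.mul hYs) (contDiff_const.mul ((hu.mul hP').mul (hw.mul contDiff_snd))),
      PX1_mul hP hYs, PX1_two ((hu.mul hP').mul (hw.mul contDiff_snd)),
      PX1_mul (hu.mul hP') (hw.mul contDiff_snd), PX1_mul hu hP', PX1_mul hw contDiff_snd,
      PX1_comp_fderiv hφ hε, PX1_comp_fderiv hφ' hε, PX1_snd]
    ring
  rw [e1, e2, hsgv]
  rw [← hsgv]
  rw [div_eq_iff hw0]
  have e3 : (4 * (v.1 * v.1 + v.2 * v.2) * deriv (deriv φ) (sg v + ε) * u v +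
      deriv φ (sg v + ε) * (u v * (4 + 2 * (v.1 * dx (wt G) v + v.2 * dy (wt G) v) / wt G v) +
        4 * (v.1 * dx u v + v.2 * dy u v)) +
      φ (sg v + ε) * ((dx (PX1_X G u) v + dy (PX1_Y G u) v) / wt G v)) * wt G v =
      4 * (v.1 * v.1 + v.2 * v.2) * deriv (deriv φ) (sg v + ε) * u v * wt G v +
      deriv φ (sg v + ε) * (u v * (4 * wt G v + 2 * (v.1 * dx (wt G) v + v.2 * dy (wt G) v)) +
        4 * (v.1 * dx u v + v.2 * dy u v) * wt G v) +
      φ (sg v + ε) * (dx (PX1_X G u) v + dy (PX1_Y G u) v) := by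
    field_simp
  rw [hsgv] at e3 ⊢
  rw [e3]
  linear_combination 2 * deriv φ (v.1 * v.1 + v.2 * v.2 + ε) * hid

theorem PX1_LL_add {G : Pl → Co} (hG : PMt G) {u u' : Pl → ℝ} (hu : ContDiff ℝ ∞ u)
    (hu' : ContDiff ℝ ∞ u') (v : Pl) :
    LL G (fun z => u z + u' z) v = LL G u v + LL G u' v := by
  have hX : PX1_X G (fun z => u z + u' z) = fun z => PX1_X G u z + PX1_X G u' z := by
    funext z
    unfold PX1_X dx dy
    rw [PX1_add hu hu', PX1_add hu hu']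
    ring
  have hY : PX1_Y G (fun z => u z + u' z) = fun z => PX1_Y G u z + PX1_Y G u' z := by
    funext z
    unfold PX1_Y dx dy
    rw [PX1_add hu hu', PX1_add hu hu']
    ring
  rw [PX1_LL, PX1_LL, PX1_LL, hX, hY]
  unfold dx dy
  rw [PX1_add (PX1_X_smooth hG hu) (PX1_X_smooth hG hu'),
    PX1_add (PX1_Y_smooth hG hu) (PX1_Y_smooth hG hu')]
  ring

theorem PX1_LL_zero {G : Pl → Co} (hG : PMt G) (v : Pl) : LL G (fun _ => 0) v = 0 := by
  have h := PX1_LL_add hG (u := fun _ => 0) (u' := fun _ => 0) contDiff_const contDiff_const v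
  simp only [add_zero] at h
  linarith

theorem LL_sum {G : Pl → Co} (hG : PMt G) {κ : Type} (s : Finset κ) {u : κ → Pl → ℝ}
    (hu : ∀ i ∈ s, ContDiff ℝ ∞ (u i)) (v : Pl) :
    LL G (fun z => ∑ i ∈ s, u i z) v = ∑ i ∈ s, LL G (u i) v := by
  classical
  induction s using Finset.induction_on with
  | empty =>
    simp only [Finset.sum_empty]
    exact PX1_LL_zero hG v
  | insert i s hi ih =>
    simp only [Finset.sum_insert hi]
    rw [PX1_LL_add hG (hu i (Finset.mem_insert_self i s))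
      (ContDiff.sum fun j hj => hu j (Finset.mem_insert_of_mem hj)),
      ih fun j hj => hu j (Finset.mem_insert_of_mem hj)]

end BR
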