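import Pool.Agent.LibBR70.PX1
import Pool.Agent.LibBR70.JB7

/-! Row PX2 (cites PX1, JB7): the coefficients are smooth and satisfy the transport equations.
Plan. `UU_smooth1`: induction on `j`; the radial integral is `radial_smooth` (JB7) with a dummy first
variable (`E = Pl`), `LL_smooth1`, `wt ^ (-1/2)` smooth (`ContDiff.rpow_const_of_ne`).
`transport_zero`: `u₀ = w^(-1/2)`: `4 v·∇u₀ = -2 w^(-3/2) v·∇w` and `(LL sg - 4) u₀ = 2 (v·∇w)/w · w^(-1/2)`.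
`transport`: `u_{j+1} = u₀ W`, `W v = ∫_0^1 s^j Q(s v) ds`, `Q = LL u_j/(4 u₀)`. `v·∇W = Q - (j+1) W`
(differentiate under the integral: `v·∇ (Q(s v)) = s d/ds (Q(s v))` and integrate by parts in `s`; or:
`t ↦ t^(j+1) W(t v) = ∫_0^t s^j Q(s v) ds`, derivative at `t = 1`). Then combine with `transport_zero`. -/

open MeasureTheory Set Filter Topology
open scoped ContDiff

namespace BR

open BGS

theorem PX2_diff {f : Pl → ℝ} (hf : ContDiff ℝ ∞ f) (z : Pl) : DifferentiableAt ℝ f z :=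
  (hf.differentiable (by simp)) z

theorem PX2_mul {f g : Pl → ℝ} (hf : ContDiff ℝ ∞ f) (hg : ContDiff ℝ ∞ g) (z w : Pl) :
    fderiv ℝ (fun y => f y * g y) z w = fderiv ℝ f z w * g z + f z * fderiv ℝ g z w := by
  rw [fderiv_fun_mul (PX2_diff hf z) (PX2_diff hg z)]
  show f z * fderiv ℝ g z w + g z * fderiv ℝ f z w = _
  ring

theorem PX2_w0 {G : Pl → Co} (hG : PMt G) : ContDiff ℝ ∞ (fun v => (wt G v) ^ (-(1 / 2) : ℝ)) :=
  (wt_smooth hG).rpow_const_of_ne fun v => (wt_pos hG v).ne'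

theorem PX2_pos {G : Pl → Co} (hG : PMt G) (v : Pl) : 0 < (wt G v) ^ (-(1 / 2) : ℝ) :=
  Real.rpow_pos_of_pos (wt_pos hG v) _

/-- the right hand side of the transport equation -/
noncomputable def PX2_Q (G : Pl → Co) (j : ℕ) (v : Pl) : ℝ :=
  LL G (UU G j) v / (4 * (wt G v) ^ (-(1 / 2) : ℝ))

theorem PX2_Q_smooth {G : Pl → Co} (hG : PMt G) (j : ℕ) (h : ContDiff ℝ ∞ (UU G j)) :
    ContDiff ℝ ∞ (PX2_Q G j) :=
  (LL_smooth1 hG h).div (contDiff_const.mul (PX2_w0 hG)) fun v =>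
    (mul_pos (by norm_num) (PX2_pos hG v)).ne'

/-- the radial average -/
noncomputable def PX2_W (G : Pl → Co) (j : ℕ) (v : Pl) : ℝ :=
  ∫ s in (0 : ℝ)..1, s ^ j * PX2_Q G j (s • v)

theorem PX2_W_smooth {G : Pl → Co} (hG : PMt G) (j : ℕ) (h : ContDiff ℝ ∞ (UU G j)) :
    ContDiff ℝ ∞ (PX2_W G j) := by
  have hf : ContDiff ℝ ∞ (fun p : Pl × Pl => PX2_Q G j p.2) :=
    (PX2_Q_smooth hG j h).comp contDiff_snd
  have h1 : ContDiff ℝ ∞ (fun p : Pl × Pl => ∫ s in (0 : ℝ)..1, s ^ j * PX2_Q G j (s • p.2)) :=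
    radial_smooth hf j
  have h2 : ContDiff ℝ ∞ (fun v : Pl => ((0 : Pl), v)) := contDiff_const.prodMk contDiff_id
  have h3 : PX2_W G j = (fun p : Pl × Pl => ∫ s in (0 : ℝ)..1, s ^ j * PX2_Q G j (s • p.2)) ∘
      (fun v : Pl => ((0 : Pl), v)) := rfl
  rw [h3]
  exact h1.comp h2

theorem UU_smooth1 {G : Pl → Co} (hG : PMt G) (j : ℕ) : ContDiff ℝ ∞ (UU G j) := by
  induction j with
  | zero => exact PX2_w0 hG
  | succ j ih => exact (PX2_w0 hG).mul (PX2_W_smooth hG j ih)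

theorem UU_zero_zero {G : Pl → Co} (hG : PMt G) : UU G 0 0 = 1 ∧ wt G 0 = 1 := by
  have h1 : wt G 0 = 1 := by
    unfold wt dt
    rw [hG.zero]
    norm_num
  refine ⟨?_, h1⟩
  show (wt G 0) ^ (-(1 / 2) : ℝ) = 1
  rw [h1, Real.one_rpow]

theorem PX2_fderiv {G : Pl → Co} (hG : PMt G) (v w : Pl) :
    fderiv ℝ (UU G 0) v w =
      -(1 / 2) * ((wt G v) ^ (-(1 / 2) : ℝ) / wt G v) * fderiv ℝ (wt G) v w := by
  have hw0 := (wt_pos hG v).ne'
  have h1 : HasFDerivAt (wt G) (fderiv ℝ (wt G) v) v :=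
    (PX2_diff (wt_smooth hG) v).hasFDerivAt
  have h2 := (h1.rpow_const (p := (-(1 / 2) : ℝ)) (Or.inl hw0)).fderiv
  have h3 : fderiv ℝ (UU G 0) v =
      ((-(1 / 2) : ℝ) * wt G v ^ ((-(1 / 2) : ℝ) - 1)) • fderiv ℝ (wt G) v := h2
  rw [h3]
  show ((-(1 / 2) : ℝ) * wt G v ^ ((-(1 / 2) : ℝ) - 1)) * fderiv ℝ (wt G) v w = _
  rw [Real.rpow_sub_one hw0]

theorem transport_zero {G : Pl → Co} (hG : PMt G) (v : Pl) :
    (LL G sg v - 4) * UU G 0 v + 4 * (v.1 * dx (UU G 0) v + v.2 * dy (UU G 0) v) = 0 := by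
  have hw0 := (wt_pos hG v).ne'
  have h0 : UU G 0 v = (wt G v) ^ (-(1 / 2) : ℝ) := rfl
  have h1 : dx (UU G 0) v = -(1 / 2) * ((wt G v) ^ (-(1 / 2) : ℝ) / wt G v) * dx (wt G) v :=
    PX2_fderiv hG v (1, 0)
  have h2 : dy (UU G 0) v = -(1 / 2) * ((wt G v) ^ (-(1 / 2) : ℝ) / wt G v) * dy (wt G) v :=
    PX2_fderiv hG v (0, 1)
  rw [h0, h1, h2, LL_sg hG]
  ring

theorem PX2_dir {W : Pl → ℝ} (v : Pl) : fderiv ℝ W v v = v.1 * dx W v + v.2 * dy W v := by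
  have h1 : v = v.1 • ((1, 0) : Pl) + v.2 • ((0, 1) : Pl) := by
    ext <;> simp
  have h2 : ∀ L : Pl →L[ℝ] ℝ, L v = v.1 * L (1, 0) + v.2 * L (0, 1) := by
    intro L
    calc L v = L (v.1 • ((1, 0) : Pl) + v.2 • ((0, 1) : Pl)) := by rw [← h1]
      _ = v.1 * L (1, 0) + v.2 * L (0, 1) := by
        rw [map_add, map_smul, map_smul, smul_eq_mul, smul_eq_mul]
  exact h2 _

theorem PX2_euler {G : Pl → Co} (hG : PMt G) (j : ℕ) (h : ContDiff ℝ ∞ (UU G j)) (v : Pl) :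
    v.1 * dx (PX2_W G j) v + v.2 * dy (PX2_W G j) v =
      PX2_Q G j v - ((j : ℝ) + 1) * PX2_W G j v := by
  have hQ := PX2_Q_smooth hG j h
  have hW := PX2_W_smooth hG j h
  have hcont : Continuous fun r : ℝ => r ^ j * PX2_Q G j (r • v) :=
    (continuous_pow j).mul (hQ.continuous.comp (continuous_id.smul continuous_const))
  have hfun : ∀ t : ℝ, t ^ (j + 1) * PX2_W G j (t • v) =
      ∫ r in (0 : ℝ)..t, r ^ j * PX2_Q G j (r • v) := by
    intro t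
    have h1 := intervalIntegral.smul_integral_comp_mul_left
      (fun r : ℝ => r ^ j * PX2_Q G j (r • v)) (a := 0) (b := 1) t
    rw [mul_zero, mul_one] at h1
    rw [← h1]
    unfold PX2_W
    rw [smul_eq_mul, pow_succ, mul_comm (t ^ j) t, mul_assoc, ← intervalIntegral.integral_const_mul]
    congr 2
    funext s
    rw [smul_smul, mul_pow, mul_comm s t]
    ring
  have hd1 : HasDerivAt (fun t : ℝ => ∫ r in (0 : ℝ)..t, r ^ j * PX2_Q G j (r • v))
      ((1 : ℝ) ^ j * PX2_Q G j ((1 : ℝ) • v)) 1 :=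
    intervalIntegral.integral_hasDerivAt_right (hcont.intervalIntegrable _ _)
      (hcont.stronglyMeasurableAtFilter _ _) hcont.continuousAt
  have hsm : HasDerivAt (fun t : ℝ => t • v) v 1 := by
    have h1 := (hasDerivAt_id (1 : ℝ)).smul_const v
    simpa using h1
  have hd2 : HasDerivAt (fun t : ℝ => PX2_W G j (t • v)) (fderiv ℝ (PX2_W G j) v v) 1 := by
    have h1 : HasFDerivAt (PX2_W G j) (fderiv ℝ (PX2_W G j) v) ((1 : ℝ) • v) := by
      rw [one_smul]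
      exact (PX2_diff hW v).hasFDerivAt
    exact h1.comp_hasDerivAt (1 : ℝ) hsm
  have hd3 : HasDerivAt (fun t : ℝ => t ^ (j + 1) * PX2_W G j (t • v))
      ((((j + 1 : ℕ) : ℝ) * (1 : ℝ) ^ j) * PX2_W G j ((1 : ℝ) • v) +
        (1 : ℝ) ^ (j + 1) * fderiv ℝ (PX2_W G j) v v) 1 :=
    (hasDerivAt_pow (j + 1) (1 : ℝ)).mul hd2
  have hfe : (fun t : ℝ => t ^ (j + 1) * PX2_W G j (t • v)) =
      fun t : ℝ => ∫ r in (0 : ℝ)..t, r ^ j * PX2_Q G j (r • v) := funext hfun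
  rw [hfe] at hd3
  have h5 := hd3.unique hd1
  rw [one_pow, one_pow, one_smul, mul_one, one_mul, one_mul, PX2_dir] at h5
  push_cast at h5
  linarith

theorem transport {G : Pl → Co} (hG : PMt G) (j : ℕ) (v : Pl) :
    (4 * ((j : ℝ) + 1) - 4 + LL G sg v) * UU G (j + 1) v +
      4 * (v.1 * dx (UU G (j + 1)) v + v.2 * dy (UU G (j + 1)) v) = LL G (UU G j) v := by
  have hu := UU_smooth1 hG j
  have h0 := UU_smooth1 hG 0
  have hW := PX2_W_smooth hG j hu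
  have hfun : UU G (j + 1) = fun z => UU G 0 z * PX2_W G j z := rfl
  have hx : dx (UU G (j + 1)) v = dx (UU G 0) v * PX2_W G j v + UU G 0 v * dx (PX2_W G j) v := by
    rw [hfun]
    exact PX2_mul h0 hW v (1, 0)
  have hy : dy (UU G (j + 1)) v = dy (UU G 0) v * PX2_W G j v + UU G 0 v * dy (PX2_W G j) v := by
    rw [hfun]
    exact PX2_mul h0 hW v (0, 1)
  have hval : UU G (j + 1) v = UU G 0 v * PX2_W G j v := rfl
  have h1 := transport_zero hG v
  have h2 := PX2_euler hG j hu v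
  have hpos : 0 < UU G 0 v := PX2_pos hG v
  have hQ : LL G (UU G j) v = 4 * UU G 0 v * PX2_Q G j v := by
    have h3 : PX2_Q G j v = LL G (UU G j) v / (4 * UU G 0 v) := rfl
    rw [h3]
    field_simp
  rw [hx, hy, hval, hQ]
  linear_combination PX2_W G j v * h1 + 4 * UU G 0 v * h2

end BR
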