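import Pool.Agent.LibBR70.PX2
import Pool.Agent.LibBR70.AB2

/-! Row PX3 (cites PX1, PX2, AB2): the wave identity of the regularised kernel.
Plan. Apply `LL_sum`, `LL_mul` with `φ = Ab j q` (smooth on `(0, ∞)`: `Ab_contDiffOn`). With `A_j` at
`sg v + ε`: `4 sg A_j'' = 4 (sg + ε) A_j'' - 4 ε A_j''` and by `Ab_wave` `4 (sg + ε) A_j'' = A_j[q''] + 4 (j - 1) A_j'`.
So the `j`-th term is `A_j[q''] u_j - 4 ε A_j'' u_j + A_j' ((4 j - 4 + LL sg) u_j + 4 v·∇u_j) + A_j LL u_j`.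
By the transport equations the third summand is `0` for `j = 0` and `A_j' LL u_{j-1} = -A_{j-1} LL u_{j-1}`
(`Ab_deriv`) for `j ≥ 1`: the sum telescopes to `A_N LL u_N`. -/

open MeasureTheory Set Filter Topology
open scoped ContDiff

namespace BR

open BGS

theorem PX3_sg_smooth : ContDiff ℝ ∞ sg := by
  unfold sg
  fun_prop

theorem PX3_sg_nonneg (v : Pl) : 0 ≤ sg v := by
  unfold sg
  positivity

theorem PX3_term_smooth {G : Pl → Co} (hG : PMt G) {q : ℝ → ℝ} {ρ : ℝ} (hρ : 0 ≤ ρ)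
    (hq : Tl q ρ) {ε : ℝ} (hε : 0 < ε) (j : ℕ) :
    ContDiff ℝ ∞ (fun v => UU G j v * Ab j q (sg v + ε)) := by
  have h2 : ContDiff ℝ ∞ fun v : Pl => Ab j q (sg v + ε) := by
    rw [contDiff_iff_contDiffAt]
    intro v
    have h0 : 0 < sg v + ε := by
      have := PX3_sg_nonneg v
      linarith
    have h1 : ContDiffAt ℝ ∞ (Ab j q) (sg v + ε) :=
      (Ab_contDiffOn hρ hq j).contDiffAt (Ioi_mem_nhds h0)
    have h3 : ContDiffAt ℝ ∞ (fun v : Pl => sg v + ε) v :=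
      (PX3_sg_smooth.add contDiff_const).contDiffAt
    exact ContDiffAt.comp (g := Ab j q) (f := fun v : Pl => sg v + ε) v h1 h3
  exact (UU_smooth1 hG j).mul h2

theorem KKe_smooth {G : Pl → Co} (hG : PMt G) (N : ℕ) {q : ℝ → ℝ} {ρ : ℝ} (hρ : 0 ≤ ρ)
    (hq : Tl q ρ) {ε : ℝ} (hε : 0 < ε) : ContDiff ℝ ∞ (KKe G N q ε) := by
  unfold KKe
  exact ContDiff.sum fun j _ => PX3_term_smooth hG hρ hq hε j

theorem KKe_compact {G : Pl → Co} (N : ℕ) {q : ℝ → ℝ} {ρ : ℝ} (hρ : 0 ≤ ρ)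
    (hq : Tl q ρ) {ε : ℝ} (hε : 0 < ε) : HasCompactSupport (KKe G N q ε) := by
  refine HasCompactSupport.intro (isCompact_closedBall (0 : Pl) ρ) fun v hv => ?_
  rw [mem_closedBall_zero_iff, not_le, Prod.norm_def, lt_max_iff, Real.norm_eq_abs,
    Real.norm_eq_abs] at hv
  have h1 : ρ ^ 2 < sg v := by
    unfold sg
    rcases hv with h | h
    · have h2 : ρ ^ 2 < |v.1| ^ 2 := by gcongr
      rw [sq_abs] at h2
      nlinarith [sq_nonneg v.2]
    · have h2 : ρ ^ 2 < |v.2| ^ 2 := by gcongr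
      rw [sq_abs] at h2
      nlinarith [sq_nonneg v.1]
  unfold KKe
  refine Finset.sum_eq_zero fun j _ => ?_
  rw [Ab_supp hρ hq j (by nlinarith [PX3_sg_nonneg v]) (by linarith), mul_zero]

theorem PX3_third {G : Pl → Co} (hG : PMt G) {q : ℝ → ℝ} {ρ : ℝ} (hρ : 0 ≤ ρ)
    (hq : Tl q ρ) {ε : ℝ} (hε : 0 < ε) (v : Pl) (j : ℕ) :
    LL G (fun z => UU G j z * Ab j q (sg z + ε)) v =
      UU G j v * Ab j (deriv (deriv q)) (sg v + ε) -
      4 * ε * (UU G j v * deriv (deriv (Ab j q)) (sg v + ε)) +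
      deriv (Ab j q) (sg v + ε) * ((4 * (j : ℝ) - 4 + LL G sg v) * UU G j v +
        4 * (v.1 * dx (UU G j) v + v.2 * dy (UU G j) v)) +
      Ab j q (sg v + ε) * LL G (UU G j) v := by
  have h0 : 0 < sg v + ε := by
    have := PX3_sg_nonneg v
    linarith
  rw [LL_mul hG (UU_smooth1 hG j) (Ab_contDiffOn hρ hq j) hε v, Ab_wave hρ hq j h0]
  ring

theorem KKe_wave {G : Pl → Co} (hG : PMt G) (N : ℕ) {q : ℝ → ℝ} {ρ : ℝ} (hρ : 0 ≤ ρ)
    (hq : Tl q ρ) {ε : ℝ} (hε : 0 < ε) (v : Pl) :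
    LL G (KKe G N q ε) v = KKe G N (deriv (deriv q)) ε v -
      4 * ε * ∑ j ∈ Finset.range (N + 1), UU G j v * deriv (deriv (Ab j q)) (sg v + ε) +
      Ab N q (sg v + ε) * LL G (UU G N) v := by
  have h0 : 0 < sg v + ε := by
    have := PX3_sg_nonneg v
    linarith
  have h1 : LL G (KKe G N q ε) v
      = ∑ j ∈ Finset.range (N + 1), LL G (fun z => UU G j z * Ab j q (sg z + ε)) v := by
    have h2 : KKe G N q ε = fun z => ∑ j ∈ Finset.range (N + 1),
        (fun (j : ℕ) (z : Pl) => UU G j z * Ab j q (sg z + ε)) j z := by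
      ext z
      rfl
    rw [h2, LL_sum hG (Finset.range (N + 1))
      (u := fun (j : ℕ) (z : Pl) => UU G j z * Ab j q (sg z + ε))
      fun j _ => PX3_term_smooth hG hρ hq hε j]
  rw [h1]
  unfold KKe
  clear h1
  induction N with
  | zero =>
    rw [zero_add, Finset.sum_range_one, Finset.sum_range_one, Finset.sum_range_one,
      PX3_third hG hρ hq hε]
    have h3 := transport_zero hG v
    have h4 : (4 * ((0 : ℕ) : ℝ) - 4 + LL G sg v) * UU G 0 v +
        4 * (v.1 * dx (UU G 0) v + v.2 * dy (UU G 0) v) = 0 := by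
      rw [← h3]
      push_cast
      ring
    rw [h4]
    ring
  | succ N ih =>
    rw [Finset.sum_range_succ, ih, Finset.sum_range_succ _ (N + 1), Finset.sum_range_succ _ (N + 1),
      PX3_third hG hρ hq hε]
    have h3 := transport hG N v
    have h4 : (4 * ((N + 1 : ℕ) : ℝ) - 4 + LL G sg v) * UU G (N + 1) v +
        4 * (v.1 * dx (UU G (N + 1)) v + v.2 * dy (UU G (N + 1)) v) = LL G (UU G N) v := by
      rw [← h3]
      push_cast
      ring
    rw [h4, (Ab_deriv hρ hq N h0).deriv]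
    ring

end BR
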