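import Pool.Agent.LibBR70.PX1

/-! Row PX4 (cites PX1): Green's formulas on the plane.
Plan. `green1`: `wf2 (G v) p q p' q' = (p (G22 p' - G12 q') + q (G11 q' - G12 p'))/w`, so the left side is
`∫ ∇U · fl F`, `fl F` compactly supported and `C¹`; integrate by parts in each variable
(`integral_mul_fderiv_eq_neg_fderiv_mul_of_integrable` or its relatives in
`Mathlib/Analysis/Calculus/LineDeriv/IntegrationByParts.lean`): `= -∫ U div (fl F) = -∫ U LL F w`.
`green2`: `wf2` is symmetric: `green1` and the same with the roles exchanged (the flux of the smooth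
`U` times the compactly supported `F`). `strong`: from `WkEig` and `green2`: `∫ (LL U + lam2 U) F w = 0` for
all test functions `F`; the bracket is continuous, so it vanishes (take `F` = bump times the bracket, or
`ae_eq_zero_of_integral_contDiff_smul_eq_zero`). `sb`: `green1`, `green2` for `f` of class `C²`. -/

open MeasureTheory Set Filter Topology
open scoped ContDiff

namespace BR

open BGS

/-- The components of the flux. -/
noncomputable def PX4_fl1 (G : Pl → Co) (u : Pl → ℝ) (z : Pl) : ℝ :=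
  ((G z).2.2 * dx u z - (G z).2.1 * dy u z) / wt G z

noncomputable def PX4_fl2 (G : Pl → Co) (u : Pl → ℝ) (z : Pl) : ℝ :=
  ((G z).1 * dy u z - (G z).2.1 * dx u z) / wt G z

theorem PX4_LL (G : Pl → Co) (u : Pl → ℝ) (v : Pl) :
    LL G u v = (dx (PX4_fl1 G u) v + dy (PX4_fl2 G u) v) / wt G v := rfl

theorem PX4_LLw {G : Pl → Co} (hG : PMt G) (u : Pl → ℝ) (v : Pl) :
    LL G u v * wt G v = dx (PX4_fl1 G u) v + dy (PX4_fl2 G u) v := by
  rw [PX4_LL, div_mul_cancel₀ _ (wt_pos hG v).ne']

theorem PX4_dx {n : WithTop ℕ∞} {u : Pl → ℝ} (h : ContDiff ℝ (n + 1) u) : ContDiff ℝ n (dx u) :=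
  (h.fderiv_right le_rfl).clm_apply contDiff_const

theorem PX4_dy {n : WithTop ℕ∞} {u : Pl → ℝ} (h : ContDiff ℝ (n + 1) u) : ContDiff ℝ n (dy u) :=
  (h.fderiv_right le_rfl).clm_apply contDiff_const

theorem PX4_fl1_c1 {G : Pl → Co} (hG : PMt G) {u : Pl → ℝ} (h : ContDiff ℝ 2 u) :
    ContDiff ℝ 1 (PX4_fl1 G u) := by
  have h1 : ContDiff ℝ 1 (dx u) := PX4_dx (by simpa [one_add_one_eq_two] using h)
  have h2 : ContDiff ℝ 1 (dy u) := PX4_dy (by simpa [one_add_one_eq_two] using h)
  have h3 : ContDiff ℝ 1 G := hG.smooth.of_le (by exact_mod_cast le_top)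
  have h4 : ContDiff ℝ 1 (wt G) := (wt_smooth hG).of_le (by exact_mod_cast le_top)
  unfold PX4_fl1
  exact ((h3.snd.snd.mul h1).sub (h3.snd.fst.mul h2)).div h4 fun z => (wt_pos hG z).ne'

theorem PX4_fl2_c1 {G : Pl → Co} (hG : PMt G) {u : Pl → ℝ} (h : ContDiff ℝ 2 u) :
    ContDiff ℝ 1 (PX4_fl2 G u) := by
  have h1 : ContDiff ℝ 1 (dx u) := PX4_dx (by simpa [one_add_one_eq_two] using h)
  have h2 : ContDiff ℝ 1 (dy u) := PX4_dy (by simpa [one_add_one_eq_two] using h)
  have h3 : ContDiff ℝ 1 G := hG.smooth.of_le (by exact_mod_cast le_top)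
  have h4 : ContDiff ℝ 1 (wt G) := (wt_smooth hG).of_le (by exact_mod_cast le_top)
  unfold PX4_fl2
  exact ((h3.fst.mul h2).sub (h3.snd.fst.mul h1)).div h4 fun z => (wt_pos hG z).ne'

theorem PX4_dx_supp {u : Pl → ℝ} (h : HasCompactSupport u) : HasCompactSupport (dx u) := by
  have h1 := h.fderiv (𝕜 := ℝ)
  exact h1.comp_left (g := fun A : Pl →L[ℝ] ℝ => A (1, 0)) (by simp)

theorem PX4_dy_supp {u : Pl → ℝ} (h : HasCompactSupport u) : HasCompactSupport (dy u) := by
  have h1 := h.fderiv (𝕜 := ℝ)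
  exact h1.comp_left (g := fun A : Pl →L[ℝ] ℝ => A (0, 1)) (by simp)

theorem PX4_fl1_supp {G : Pl → Co} {u : Pl → ℝ} (h : HasCompactSupport u) :
    HasCompactSupport (PX4_fl1 G u) := by
  have h1 : HasCompactSupport fun z => (G z).2.2 * dx u z := (PX4_dx_supp h).mul_left
  have h2 : HasCompactSupport fun z => (G z).2.1 * dy u z := (PX4_dy_supp h).mul_left
  have h3 : HasCompactSupport fun z => ((G z).2.2 * dx u z - (G z).2.1 * dy u z) := h1.sub h2
  have h4 : HasCompactSupport fun z => ((G z).2.2 * dx u z - (G z).2.1 * dy u z) * (wt G z)⁻¹ :=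
    h3.mul_right
  unfold PX4_fl1
  simpa [div_eq_mul_inv] using h4

theorem PX4_fl2_supp {G : Pl → Co} {u : Pl → ℝ} (h : HasCompactSupport u) :
    HasCompactSupport (PX4_fl2 G u) := by
  have h1 : HasCompactSupport fun z => (G z).1 * dy u z := (PX4_dy_supp h).mul_left
  have h2 : HasCompactSupport fun z => (G z).2.1 * dx u z := (PX4_dx_supp h).mul_left
  have h3 : HasCompactSupport fun z => ((G z).1 * dy u z - (G z).2.1 * dx u z) := h1.sub h2
  have h4 : HasCompactSupport fun z => ((G z).1 * dy u z - (G z).2.1 * dx u z) * (wt G z)⁻¹ :=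
    h3.mul_right
  unfold PX4_fl2
  simpa [div_eq_mul_inv] using h4

/-- Integration by parts. -/
theorem PX4_ibp {f g : Pl → ℝ} (hf : ContDiff ℝ 1 f) (hg : ContDiff ℝ 1 g)
    (hc : HasCompactSupport f) (e : Pl) :
    ∫ x, f x * fderiv ℝ g x e = -∫ x, fderiv ℝ f x e * g x := by
  have h1 : Continuous fun x => fderiv ℝ f x e := (hf.continuous_fderiv one_ne_zero).clm_apply
    continuous_const
  have h2 : Continuous fun x => fderiv ℝ g x e := (hg.continuous_fderiv one_ne_zero).clm_apply
    continuous_const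
  have h3 : HasCompactSupport fun x => fderiv ℝ f x e :=
    (hc.fderiv (𝕜 := ℝ)).comp_left (g := fun A : Pl →L[ℝ] ℝ => A e) (by simp)
  refine integral_mul_fderiv_eq_neg_fderiv_mul_of_integrable ?_ ?_ ?_
    (fun x _ => hf.differentiable one_ne_zero x) (fun x _ => hg.differentiable one_ne_zero x)
  · exact (h1.mul hg.continuous).integrable_of_hasCompactSupport h3.mul_right
  · exact (hf.continuous.mul h2).integrable_of_hasCompactSupport hc.mul_right
  · exact (hf.continuous.mul hg.continuous).integrable_of_hasCompactSupport hc.mul_right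

theorem PX4_int_mul {f g : Pl → ℝ} (hf : Continuous f) (hg : Continuous g)
    (hc : HasCompactSupport f) : Integrable fun x => f x * g x :=
  (hf.mul hg).integrable_of_hasCompactSupport hc.mul_right

theorem PX4_wf1 (G : Pl → Co) (U F : Pl → ℝ) (v : Pl) :
    wf2 (G v) (dx U v) (dy U v) (dx F v) (dy F v)
      = PX4_fl1 G F v * dx U v + PX4_fl2 G F v * dy U v := by
  unfold wf2 PX4_fl1 PX4_fl2 wt
  ring

theorem PX4_wf2 (G : Pl → Co) (U F : Pl → ℝ) (v : Pl) :
    wf2 (G v) (dx U v) (dy U v) (dx F v) (dy F v)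
      = dx F v * PX4_fl1 G U v + dy F v * PX4_fl2 G U v := by
  unfold wf2 PX4_fl1 PX4_fl2 wt
  ring

theorem green1 {G : Pl → Co} (hG : PMt G) {U F : Pl → ℝ} (hU : ContDiff ℝ ∞ U)
    (hF : ContDiff ℝ 2 F) (hc : HasCompactSupport F) :
    ∫ v, wf2 (G v) (dx U v) (dy U v) (dx F v) (dy F v) = -∫ v, U v * LL G F v * wt G v := by
  have hU1 : ContDiff ℝ 1 U := hU.of_le (by exact_mod_cast le_top)
  have c1 := PX4_fl1_c1 hG hF
  have c2 := PX4_fl2_c1 hG hF
  have s1 := PX4_fl1_supp (G := G) hc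
  have s2 := PX4_fl2_supp (G := G) hc
  have d1 : Continuous (dx U) := (hU1.continuous_fderiv one_ne_zero).clm_apply continuous_const
  have d2 : Continuous (dy U) := (hU1.continuous_fderiv one_ne_zero).clm_apply continuous_const
  have d3 : Continuous (dx (PX4_fl1 G F)) :=
    (c1.continuous_fderiv one_ne_zero).clm_apply continuous_const
  have d4 : Continuous (dy (PX4_fl2 G F)) :=
    (c2.continuous_fderiv one_ne_zero).clm_apply continuous_const
  have i1 := PX4_ibp c1 hU1 s1 (1, 0)
  have i2 := PX4_ibp c2 hU1 s2 (0, 1)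
  have e1 : ∫ v, wf2 (G v) (dx U v) (dy U v) (dx F v) (dy F v)
      = (∫ v, PX4_fl1 G F v * dx U v) + ∫ v, PX4_fl2 G F v * dy U v := by
    rw [← integral_add (PX4_int_mul c1.continuous d1 s1) (PX4_int_mul c2.continuous d2 s2)]
    exact integral_congr_ae (Eventually.of_forall fun v => PX4_wf1 G U F v)
  have e2 : ∫ v, U v * LL G F v * wt G v
      = (∫ v, dx (PX4_fl1 G F) v * U v) + ∫ v, dy (PX4_fl2 G F) v * U v := by
    rw [← integral_add (PX4_int_mul d3 hU.continuous (PX4_dx_supp s1))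
      (PX4_int_mul d4 hU.continuous (PX4_dy_supp s2))]
    refine integral_congr_ae (Eventually.of_forall fun v => ?_)
    dsimp only
    rw [mul_assoc, PX4_LLw hG]
    ring
  rw [e1, e2, neg_add]
  exact congrArg₂ (· + ·) i1 i2

theorem green2 {G : Pl → Co} (hG : PMt G) {U F : Pl → ℝ} (hU : ContDiff ℝ ∞ U)
    (hF : ContDiff ℝ 2 F) (hc : HasCompactSupport F) :
    ∫ v, wf2 (G v) (dx U v) (dy U v) (dx F v) (dy F v) = -∫ v, F v * LL G U v * wt G v := by
  have hU2 : ContDiff ℝ 2 U := hU.of_le (mod_cast le_top : ((2 : ℕ∞) : WithTop ℕ∞) ≤ ∞)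
  have hF1 : ContDiff ℝ 1 F := hF.of_le (by norm_num)
  have c1 := PX4_fl1_c1 hG hU2
  have c2 := PX4_fl2_c1 hG hU2
  have d1 : Continuous (dx F) := (hF1.continuous_fderiv one_ne_zero).clm_apply continuous_const
  have d2 : Continuous (dy F) := (hF1.continuous_fderiv one_ne_zero).clm_apply continuous_const
  have d3 : Continuous (dx (PX4_fl1 G U)) :=
    (c1.continuous_fderiv one_ne_zero).clm_apply continuous_const
  have d4 : Continuous (dy (PX4_fl2 G U)) :=
    (c2.continuous_fderiv one_ne_zero).clm_apply continuous_const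
  have i1 := PX4_ibp hF1 c1 hc (1, 0)
  have i2 := PX4_ibp hF1 c2 hc (0, 1)
  have e1 : ∫ v, wf2 (G v) (dx U v) (dy U v) (dx F v) (dy F v)
      = (∫ v, dx F v * PX4_fl1 G U v) + ∫ v, dy F v * PX4_fl2 G U v := by
    rw [← integral_add (PX4_int_mul d1 c1.continuous (PX4_dx_supp hc))
      (PX4_int_mul d2 c2.continuous (PX4_dy_supp hc))]
    exact integral_congr_ae (Eventually.of_forall fun v => PX4_wf2 G U F v)
  have e2 : ∫ v, F v * LL G U v * wt G v
      = (∫ v, F v * dx (PX4_fl1 G U) v) + ∫ v, F v * dy (PX4_fl2 G U) v := by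
    rw [← integral_add (PX4_int_mul hF.continuous d3 hc) (PX4_int_mul hF.continuous d4 hc)]
    refine integral_congr_ae (Eventually.of_forall fun v => ?_)
    dsimp only
    rw [mul_assoc, PX4_LLw hG]
    ring
  have i1' : ∫ v, F v * dx (PX4_fl1 G U) v = -∫ v, dx F v * PX4_fl1 G U v := i1
  have i2' : ∫ v, F v * dy (PX4_fl2 G U) v = -∫ v, dy F v * PX4_fl2 G U v := i2
  rw [e1, e2, i1', i2']
  ring

theorem strong {G : Pl → Co} (hG : PMt G) {lam2 : ℝ} {U : Pl → ℝ} (hU : ContDiff ℝ ∞ U)
    (h : WkEig G lam2 U) (v : Pl) : LL G U v = -(lam2 * U v) := by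
  have hc : Continuous fun v => (LL G U v + lam2 * U v) * wt G v :=
    (((LL_smooth1 hG hU).continuous).add (continuous_const.mul hU.continuous)).mul
      (wt_smooth hG).continuous
  have h1 : ∀ᵐ v : Pl, (LL G U v + lam2 * U v) * wt G v = 0 := by
    refine ae_eq_zero_of_integral_contDiff_smul_eq_zero hc.locallyIntegrable ?_
    intro F hF hFc
    have h2 := h F hF hFc
    rw [green2 hG hU (hF.of_le (mod_cast le_top : ((2 : ℕ∞) : WithTop ℕ∞) ≤ ∞)) hFc] at h2
    have i1 : Integrable fun v => F v * (LL G U v * wt G v) :=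
      PX4_int_mul hF.continuous ((LL_smooth1 hG hU).continuous.mul (wt_smooth hG).continuous) hFc
    have i2 : Integrable fun v => F v * (U v * wt G v) :=
      PX4_int_mul hF.continuous (hU.continuous.mul (wt_smooth hG).continuous) hFc
    have e1 : ∫ v, F v • ((LL G U v + lam2 * U v) * wt G v)
        = (∫ v, F v * (LL G U v * wt G v)) + lam2 * ∫ v, F v * (U v * wt G v) := by
      rw [← integral_const_mul, ← integral_add i1 (i2.const_mul _)]
      refine integral_congr_ae (Eventually.of_forall fun v => ?_)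
      dsimp only
      rw [smul_eq_mul]
      ring
    have e2 : ∫ v, F v * (LL G U v * wt G v) = ∫ v, F v * LL G U v * wt G v :=
      integral_congr_ae (Eventually.of_forall fun v => by dsimp only; ring)
    have e3 : ∫ v, F v * (U v * wt G v) = ∫ v, U v * F v * wt G v :=
      integral_congr_ae (Eventually.of_forall fun v => by dsimp only; ring)
    rw [e1, e2, e3, ← h2]
    ring
  have h2 : (fun v => (LL G U v + lam2 * U v) * wt G v) = fun _ => (0 : ℝ) :=
    (hc.ae_eq_iff_eq (μ := (volume : Measure Pl)) continuous_const).1 h1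
  have h3 := congrFun h2 v
  rcases mul_eq_zero.1 h3 with h4 | h4
  · linarith
  · exact absurd h4 (wt_pos hG v).ne'

theorem sb {G : Pl → Co} (hG : PMt G) {lam2 : ℝ} {U : Pl → ℝ} (hU : ContDiff ℝ ∞ U)
    (h : WkEig G lam2 U) {f : Pl → ℝ} (hf : ContDiff ℝ 2 f) (hc : HasCompactSupport f) :
    ∫ v, LL G f v * U v * wt G v = -(lam2 * ∫ v, f v * U v * wt G v) := by
  have h1 := green1 hG hU hf hc
  have h2 := green2 hG hU hf hc
  have e1 : ∫ v, LL G f v * U v * wt G v = ∫ v, U v * LL G f v * wt G v :=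
    integral_congr_ae (Eventually.of_forall fun v => by dsimp only; ring)
  have e2 : ∫ v, f v * LL G U v * wt G v = -(lam2 * ∫ v, f v * U v * wt G v) := by
    rw [← integral_const_mul, ← integral_neg]
    refine integral_congr_ae (Eventually.of_forall fun v => ?_)
    dsimp only
    rw [strong hG hU h v]
    ring
  rw [e1, ← e2]
  linarith

end BR
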