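import Pool.Agent.LibBR70.PX3
import Pool.Agent.LibBR70.PX4
import Pool.Agent.LibBR70.AB3
import Pool.Agent.LibBR70.AB8

/-! Row PX5 (cites PX1-PX4, AB2, AB3, AB8; the main identity): the exact formula for eigenfunctions.
Plan. Let `q = ql lam g` (`Tl q ρ`, `q'' + lam² q = g`: AB8). Apply `sb` (or `WkEig` and `green1`) to
`f = KKe G N q ε` (PX3) and `KKe_wave`: since `Ab` is linear (`Ab_add`, `Ab_smul`),
`KKe (q'') + lam² KKe q = KKe g`, hence
`∫ KKe g U w + ∫ Ab N q (sg + ε) LL u_N U w = ∑_j ∫ 4 ε (Ab j q)''(sg + ε) u_j U w`.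
Let `ε → 0+`. Right side: `Ab_dirac` with `ψ = u_j U w`: limit `-2 q'(0) u₀(0) U(0) w(0) = 2 pl lam g 0 U 0`
(`ql_deriv`, `UU_zero_zero`) `= hh g lam U 0` (`pl_zero`). Left side: dominated convergence: `Ab j` is continuous on
`(0, ∞)`, `|Ab j q (sg v + ε)| ≤ C (1 + |log (sg v + ε)|) ≤ C' (1 + |log (sg v)|)` for `sg v + ε ≤ ρ² + 1` (`Ab_log`; it is `0`
otherwise), and `1 + |log (sg v)|` is integrable on bounded sets of the plane. -/

open MeasureTheory Set Filter Topology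
open scoped ContDiff

namespace BR

open BGS

theorem PX5_sg_cont : Continuous sg := by
  unfold sg
  fun_prop

theorem PX5_sg_nonneg (v : Pl) : 0 ≤ sg v := by
  unfold sg
  positivity

theorem PX5_cont {q : ℝ → ℝ} {ρ : ℝ} (hρ : 0 ≤ ρ) (h : Tl q ρ) (j : ℕ) {ε : ℝ} (hε : 0 < ε) :
    Continuous (fun v : Pl => Ab j q (sg v + ε)) := by
  have h1 := (Ab_contDiffOn hρ h j).continuousOn
  refine h1.comp_continuous (PX5_sg_cont.add continuous_const) (fun v => ?_)
  have := PX5_sg_nonneg v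
  show 0 < sg v + ε
  linarith

theorem PX5_cont2 {q : ℝ → ℝ} {ρ : ℝ} (hρ : 0 ≤ ρ) (h : Tl q ρ) (j : ℕ) {ε : ℝ} (hε : 0 < ε) :
    Continuous (fun v : Pl => deriv (deriv (Ab j q)) (sg v + ε)) := by
  have h1 := Ab_contDiffOn hρ h j
  have h2 : ContDiffOn ℝ ∞ (deriv (Ab j q)) (Ioi 0) := h1.deriv_of_isOpen isOpen_Ioi (by simp)
  have h3 : ContDiffOn ℝ ∞ (deriv (deriv (Ab j q))) (Ioi 0) :=
    h2.deriv_of_isOpen isOpen_Ioi (by simp)
  refine h3.continuousOn.comp_continuous (PX5_sg_cont.add continuous_const) (fun v => ?_)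
  have := PX5_sg_nonneg v
  show 0 < sg v + ε
  linarith

theorem PX5_supp2 {q : ℝ → ℝ} {ρ : ℝ} (hρ : 0 ≤ ρ) (h : Tl q ρ) (j : ℕ) {σ : ℝ} (h0 : 0 < σ)
    (hσ : ρ ^ 2 < σ) : deriv (deriv (Ab j q)) σ = 0 := by
  have h1 : ∀ t, 0 < t → ρ ^ 2 < t → deriv (Ab j q) t = 0 := by
    intro t ht ht'
    have h2 : Ab j q =ᶠ[𝓝 t] fun _ => 0 := by
      filter_upwards [lt_mem_nhds ht, lt_mem_nhds ht'] with s hs hs'
      exact Ab_supp hρ h j hs hs'
    rw [h2.deriv_eq]
    simp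
  have h2 : deriv (Ab j q) =ᶠ[𝓝 σ] fun _ => 0 := by
    filter_upwards [lt_mem_nhds h0, lt_mem_nhds hσ] with s hs hs'
    exact h1 s hs hs'
  rw [h2.deriv_eq]
  simp

/-- Outside the square the squared norm is large. -/
theorem PX5_out {ρ : ℝ} (hρ : 0 ≤ ρ) {v : Pl} (hv : v ∉ Icc (-ρ) ρ ×ˢ Icc (-ρ) ρ) :
    ρ ^ 2 < sg v := by
  by_contra hcon
  apply hv
  have h1 : v.1 ^ 2 + v.2 ^ 2 ≤ ρ ^ 2 := not_lt.1 hcon
  have h2 : |v.1| ≤ ρ := abs_le_of_sq_le_sq (by nlinarith [sq_nonneg v.2]) hρ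
  have h3 : |v.2| ≤ ρ := abs_le_of_sq_le_sq (by nlinarith [sq_nonneg v.1]) hρ
  exact ⟨abs_le.1 h2, abs_le.1 h3⟩

theorem PX5_compact (ρ : ℝ) : IsCompact (Icc (-ρ) ρ ×ˢ Icc (-ρ) ρ : Set Pl) :=
  isCompact_Icc.prod isCompact_Icc

theorem PX5_int {q : ℝ → ℝ} {ρ : ℝ} (hρ : 0 ≤ ρ) (h : Tl q ρ) (j : ℕ) {ε : ℝ} (hε : 0 < ε)
    {ψ : Pl → ℝ} (hψ : Continuous ψ) : Integrable (fun v : Pl => Ab j q (sg v + ε) * ψ v) := by
  refine ((PX5_cont hρ h j hε).mul hψ).integrable_of_hasCompactSupport ?_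
  refine HasCompactSupport.intro (PX5_compact ρ) (fun v hv => ?_)
  have h1 := PX5_out hρ hv
  show Ab j q (sg v + ε) * ψ v = 0
  rw [Ab_supp hρ h j (by nlinarith [sq_nonneg ρ]) (by linarith), zero_mul]

theorem PX5_int2 {q : ℝ → ℝ} {ρ : ℝ} (hρ : 0 ≤ ρ) (h : Tl q ρ) (j : ℕ) {ε : ℝ} (hε : 0 < ε)
    {ψ : Pl → ℝ} (hψ : Continuous ψ) :
    Integrable (fun v : Pl => 4 * ε * deriv (deriv (Ab j q)) (sg v + ε) * ψ v) := by
  refine ((continuous_const.mul (PX5_cont2 hρ h j hε)).mul hψ).integrable_of_hasCompactSupport ?_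
  refine HasCompactSupport.intro (PX5_compact ρ) (fun v hv => ?_)
  have h1 := PX5_out hρ hv
  show 4 * ε * deriv (deriv (Ab j q)) (sg v + ε) * ψ v = 0
  rw [PX5_supp2 hρ h j (by nlinarith [sq_nonneg ρ]) (by linarith), mul_zero, zero_mul]

/-- The dominating function. -/
theorem PX5_bound {q : ℝ → ℝ} {ρ : ℝ} (hρ : 0 ≤ ρ) (h : Tl q ρ) (j : ℕ) {ψ : Pl → ℝ}
    (hψ : Continuous ψ) :
    ∃ B : Pl → ℝ, Integrable B ∧ ∀ ε : ℝ, 0 ≤ ε → ∀ v : Pl, v.1 ≠ 0 →
      ‖Ab j q (sg v + ε) * ψ v‖ ≤ B v := by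
  obtain ⟨C, hC⟩ := Ab_log hρ h j
  obtain ⟨M, hM⟩ := (PX5_compact ρ).exists_bound_of_continuousOn hψ.continuousOn
  set L := |Real.log (ρ ^ 2)| with hL
  set b1 : ℝ → ℝ := (Icc (-ρ) ρ).indicator (fun x => |C| * |M| * (1 + L + 2 * |Real.log x|)) with hb1
  set b2 : ℝ → ℝ := (Icc (-ρ) ρ).indicator (fun _ => (1 : ℝ)) with hb2
  have hi1 : Integrable b1 := by
    rw [hb1, integrable_indicator_iff measurableSet_Icc]
    refine Integrable.const_mul ?_ _
    refine Integrable.add (integrable_const _) (Integrable.const_mul ?_ _)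
    have h1 : IntervalIntegrable Real.log volume (-ρ) ρ := intervalIntegral.intervalIntegrable_log'
    have h2 := (intervalIntegrable_iff_integrableOn_Icc_of_le (by linarith : -ρ ≤ ρ)).1 h1
    exact h2.abs
  have hi2 : Integrable b2 := by
    rw [hb2, integrable_indicator_iff measurableSet_Icc]
    exact integrable_const _
  refine ⟨fun v => b1 v.1 * b2 v.2, hi1.mul_prod hi2, fun ε hε v hv => ?_⟩
  have hv2 : 0 < v.1 ^ 2 := by positivity
  have hs : v.1 ^ 2 ≤ sg v + ε := by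
    unfold sg
    nlinarith [sq_nonneg v.2]
  have hσ : 0 < sg v + ε := by linarith
  by_cases hbig : ρ ^ 2 < sg v + ε
  · rw [Ab_supp hρ h j hσ hbig, zero_mul, norm_zero]
    refine mul_nonneg (indicator_nonneg (fun x _ => ?_) _) (indicator_nonneg (fun x _ => ?_) _)
    · positivity
    · exact zero_le_one
  · have hle := not_lt.1 hbig
    have hin : v ∈ Icc (-ρ) ρ ×ˢ Icc (-ρ) ρ := by
      by_contra hcon
      have := PX5_out hρ hcon
      linarith
    have e1 : b1 v.1 = |C| * |M| * (1 + L + 2 * |Real.log v.1|) := by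
      rw [hb1]
      exact indicator_of_mem hin.1 _
    have e2 : b2 v.2 = 1 := by
      rw [hb2]
      exact indicator_of_mem hin.2 _
    show _ ≤ b1 v.1 * b2 v.2
    rw [e1, e2, mul_one, norm_mul, Real.norm_eq_abs]
    have h3 := hC _ hσ
    have h4 : ‖ψ v‖ ≤ |M| := (hM v hin).trans (le_abs_self _)
    have h5 : |Real.log (sg v + ε)| ≤ L + 2 * |Real.log v.1| := by
      have h6 : Real.log (v.1 ^ 2) ≤ Real.log (sg v + ε) := Real.log_le_log hv2 hs
      have h7 : Real.log (sg v + ε) ≤ Real.log (ρ ^ 2) := Real.log_le_log hσ hle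
      have h8 : Real.log (v.1 ^ 2) = 2 * Real.log v.1 := by
        rw [Real.log_pow]
        norm_num
      rw [h8] at h6
      have h9 := neg_abs_le (Real.log v.1)
      have h10 := abs_nonneg (Real.log v.1)
      have h11 := le_abs_self (Real.log (ρ ^ 2))
      have h12 := abs_nonneg (Real.log (ρ ^ 2))
      rw [abs_le]
      constructor <;> rw [hL] <;> linarith
    have h13 : |Ab j q (sg v + ε)| ≤ |C| * (1 + L + 2 * |Real.log v.1|) := by
      refine h3.trans ?_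
      have h14 : C * (1 + |Real.log (sg v + ε)|) ≤ |C| * (1 + |Real.log (sg v + ε)|) :=
        mul_le_mul_of_nonneg_right (le_abs_self C) (by positivity)
      refine h14.trans (mul_le_mul_of_nonneg_left ?_ (abs_nonneg C))
      linarith
    calc |Ab j q (sg v + ε)| * ‖ψ v‖ ≤ (|C| * (1 + L + 2 * |Real.log v.1|)) * |M| :=
          mul_le_mul h13 h4 (norm_nonneg _) (by positivity)
      _ = |C| * |M| * (1 + L + 2 * |Real.log v.1|) := by ring

theorem PX5_ae : ∀ᵐ v : Pl, v.1 ≠ 0 := by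
  have h1 : ∀ᵐ x : ℝ, x ≠ 0 := by
    have : ({0} : Set ℝ)ᶜ ∈ ae (volume : Measure ℝ) := compl_mem_ae_iff.2 (measure_singleton 0)
    exact this
  have h2 : (volume : Measure Pl) = (volume : Measure ℝ).prod (volume : Measure ℝ) := rfl
  rw [h2]
  exact Measure.quasiMeasurePreserving_fst.ae h1

theorem PX5_sg_pos {v : Pl} (hv : v.1 ≠ 0) : 0 < sg v := by
  unfold sg
  have : 0 < v.1 ^ 2 := by positivity
  nlinarith [sq_nonneg v.2]

theorem PX5_pt {q : ℝ → ℝ} {ρ : ℝ} (hρ : 0 ≤ ρ) (h : Tl q ρ) (j : ℕ) (ψ : Pl → ℝ) {v : Pl}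
    (hv : v.1 ≠ 0) :
    Tendsto (fun ε : ℝ => Ab j q (sg v + ε) * ψ v) (𝓝 0) (𝓝 (Ab j q (sg v) * ψ v)) := by
  refine Tendsto.mul_const _ ?_
  have h1 : ContinuousAt (Ab j q) (sg v + 0) := by
    rw [add_zero]
    exact (Ab_contDiffOn hρ h j).continuousOn.continuousAt (Ioi_mem_nhds (PX5_sg_pos hv))
  have h2 : Tendsto (fun ε : ℝ => sg v + ε) (𝓝 0) (𝓝 (sg v + 0)) :=
    (continuous_const.add continuous_id).tendsto 0
  have h3 := h1.tendsto.comp h2
  rw [add_zero] at h3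
  exact h3

theorem PX5_intlim {q : ℝ → ℝ} {ρ : ℝ} (hρ : 0 ≤ ρ) (h : Tl q ρ) (j : ℕ) {ψ : Pl → ℝ}
    (hψ : Continuous ψ) : Integrable (fun v : Pl => Ab j q (sg v) * ψ v) := by
  obtain ⟨B, hB, hbd⟩ := PX5_bound hρ h j hψ
  refine hB.mono' ?_ ?_
  · refine aestronglyMeasurable_of_tendsto_ae atTop
      (f := fun (n : ℕ) (v : Pl) => Ab j q (sg v + 1 / ((n : ℝ) + 1)) * ψ v)
      (fun n => ((PX5_cont hρ h j (by positivity)).mul hψ).aestronglyMeasurable) ?_
    filter_upwards [PX5_ae] with v hv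
    exact (PX5_pt hρ h j ψ hv).comp tendsto_one_div_add_atTop_nhds_zero_nat
  · filter_upwards [PX5_ae] with v hv
    have := hbd 0 le_rfl v hv
    rwa [add_zero] at this

theorem PX5_lim {q : ℝ → ℝ} {ρ : ℝ} (hρ : 0 ≤ ρ) (h : Tl q ρ) (j : ℕ) {ψ : Pl → ℝ}
    (hψ : Continuous ψ) :
    Tendsto (fun ε : ℝ => ∫ v : Pl, Ab j q (sg v + ε) * ψ v) (𝓝[>] 0)
      (𝓝 (∫ v : Pl, Ab j q (sg v) * ψ v)) := by
  obtain ⟨B, hB, hbd⟩ := PX5_bound hρ h j hψ
  refine tendsto_integral_filter_of_dominated_convergence B ?_ ?_ hB ?_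
  · filter_upwards [self_mem_nhdsWithin] with ε hε
    exact ((PX5_cont hρ h j hε).mul hψ).aestronglyMeasurable
  · filter_upwards [self_mem_nhdsWithin] with ε hε
    filter_upwards [PX5_ae] with v hv
    exact hbd ε (le_of_lt hε) v hv
  · filter_upwards [PX5_ae] with v hv
    exact (PX5_pt hρ h j ψ hv).mono_left nhdsWithin_le_nhds

theorem main_identity {G : Pl → Co} (hG : PMt G) (N : ℕ) {lam : ℝ} {U : Pl → ℝ}
    (hU : ContDiff ℝ ∞ U) (hw : WkEig G (lam ^ 2) U) {g : ℝ → ℝ} (hg : ContDiff ℝ ∞ g)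
    (he : ∀ t, g (-t) = g t) {ρ : ℝ} (hρ : 0 ≤ ρ) (hs : ∀ t, ρ < |t| → g t = 0) :
    hh g lam * U 0 = (∫ v, KK G N g v * U v * wt G v) +
      ∫ v, LL G (UU G N) v * Ab N (ql lam g) (sg v) * U v * wt G v := by
  have hgT : Tl g ρ := ⟨hg, fun t ht => hs t (ht.trans_le (le_abs_self t))⟩
  set q := ql lam g with hqdef
  have hqT : Tl q ρ := ql_Tl hgT lam
  have hq2T : Tl (deriv (deriv q)) ρ := by
    refine ⟨?_, ?_⟩
    · have h1 : ContDiff ℝ ∞ (deriv q) := by
        have := hqT.smooth.iterate_deriv 1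
        simpa using this
      have := h1.iterate_deriv 1
      simpa using this
    · have h1 : ∀ t, ρ < t → deriv q t = 0 := by
        intro t ht
        have h2 : q =ᶠ[𝓝 t] fun _ => 0 := by
          filter_upwards [lt_mem_nhds ht] with s hs
          exact hqT.supp s hs
        rw [h2.deriv_eq]
        simp
      intro t ht
      have h2 : deriv q =ᶠ[𝓝 t] fun _ => 0 := by
        filter_upwards [lt_mem_nhds ht] with s hs
        exact h1 s hs
      rw [h2.deriv_eq]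
      simp
  have hlqT : Tl (fun t => lam ^ 2 * q t) ρ :=
    ⟨contDiff_const.mul hqT.smooth, fun t ht => by rw [hqT.supp t ht, mul_zero]⟩
  have hAbeq : ∀ (j : ℕ) (σ : ℝ), 0 < σ →
      Ab j (deriv (deriv q)) σ + lam ^ 2 * Ab j q σ = Ab j g σ := by
    intro j σ hσ
    rw [← Ab_smul hqT j (lam ^ 2) σ, ← Ab_add hρ hq2T hlqT j hσ]
    congr 1
    funext t
    exact ql_eq hgT lam t
  have hUc : Continuous U := hU.continuous
  have hwc : Continuous (wt G) := (wt_smooth hG).continuous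
  have huc : ∀ j, Continuous (UU G j) := fun j => (UU_smooth1 hG j).continuous
  have hLc : Continuous (LL G (UU G N)) := (LL_smooth1 hG (UU_smooth1 hG N)).continuous
  have hψj : ∀ j, Continuous (fun v => UU G j v * U v * wt G v) := fun j =>
    ((huc j).mul hUc).mul hwc
  have hψL : Continuous (fun v => LL G (UU G N) v * U v * wt G v) := (hLc.mul hUc).mul hwc
  -- the identity for positive ε
  have hid : ∀ ε : ℝ, 0 < ε →
      (∑ j ∈ Finset.range (N + 1), ∫ v : Pl, Ab j g (sg v + ε) * (UU G j v * U v * wt G v)) +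
        (∫ v : Pl, Ab N q (sg v + ε) * (LL G (UU G N) v * U v * wt G v)) =
      ∑ j ∈ Finset.range (N + 1), ∫ v : Pl, 4 * ε * deriv (deriv (Ab j q)) (sg v + ε) *
        (UU G j v * U v * wt G v) := by
    intro ε hε
    have hsb := sb hG hU hw ((KKe_smooth hG N hρ hqT hε).of_le (by norm_cast))
      (KKe_compact (G := G) N hρ hqT hε)
    have e1 : ∫ v : Pl, LL G (KKe G N q ε) v * U v * wt G v =
        (∑ j ∈ Finset.range (N + 1), ∫ v : Pl, Ab j (deriv (deriv q)) (sg v + ε) *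
          (UU G j v * U v * wt G v)) -
        (∑ j ∈ Finset.range (N + 1), ∫ v : Pl, 4 * ε * deriv (deriv (Ab j q)) (sg v + ε) *
          (UU G j v * U v * wt G v)) +
        ∫ v : Pl, Ab N q (sg v + ε) * (LL G (UU G N) v * U v * wt G v) := by
      have hI1 : Integrable (fun v : Pl => ∑ j ∈ Finset.range (N + 1),
          Ab j (deriv (deriv q)) (sg v + ε) * (UU G j v * U v * wt G v)) :=
        integrable_finset_sum _ (fun j _ => PX5_int hρ hq2T j hε (hψj j))
      have hI2 : Integrable (fun v : Pl => ∑ j ∈ Finset.range (N + 1),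
          4 * ε * deriv (deriv (Ab j q)) (sg v + ε) * (UU G j v * U v * wt G v)) :=
        integrable_finset_sum _ (fun j _ => PX5_int2 hρ hqT j hε (hψj j))
      have hI3 : Integrable (fun v : Pl => (∑ j ∈ Finset.range (N + 1),
          Ab j (deriv (deriv q)) (sg v + ε) * (UU G j v * U v * wt G v)) -
          ∑ j ∈ Finset.range (N + 1),
          4 * ε * deriv (deriv (Ab j q)) (sg v + ε) * (UU G j v * U v * wt G v)) := hI1.sub hI2
      rw [← integral_finset_sum _ (fun j _ => PX5_int hρ hq2T j hε (hψj j)),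
        ← integral_finset_sum _ (fun j _ => PX5_int2 hρ hqT j hε (hψj j)),
        ← integral_sub hI1 hI2, ← integral_add hI3 (PX5_int hρ hqT N hε hψL)]
      congr 1
      funext v
      rw [KKe_wave hG N hρ hqT hε v]
      unfold KKe
      rw [add_mul, add_mul, sub_mul, sub_mul, Finset.sum_mul, Finset.sum_mul, Finset.mul_sum,
        Finset.sum_mul, Finset.sum_mul]
      congr 1
      · congr 1
        · refine Finset.sum_congr rfl fun j _ => ?_
          ring
        · refine Finset.sum_congr rfl fun j _ => ?_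
          ring
      · ring
    have e2 : ∫ v : Pl, KKe G N q ε v * U v * wt G v =
        ∑ j ∈ Finset.range (N + 1), ∫ v : Pl, Ab j q (sg v + ε) *
          (UU G j v * U v * wt G v) := by
      rw [← integral_finset_sum _ (fun j _ => PX5_int hρ hqT j hε (hψj j))]
      congr 1
      funext v
      unfold KKe
      rw [Finset.sum_mul, Finset.sum_mul]
      refine Finset.sum_congr rfl fun j _ => ?_
      ring
    have e3 : ∀ j, ∫ v : Pl, Ab j g (sg v + ε) * (UU G j v * U v * wt G v) =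
        (∫ v : Pl, Ab j (deriv (deriv q)) (sg v + ε) * (UU G j v * U v * wt G v)) +
          lam ^ 2 * ∫ v : Pl, Ab j q (sg v + ε) * (UU G j v * U v * wt G v) := by
      intro j
      rw [← integral_const_mul, ← integral_add (PX5_int hρ hq2T j hε (hψj j))
        ((PX5_int hρ hqT j hε (hψj j)).const_mul _)]
      congr 1
      funext v
      rw [← hAbeq j (sg v + ε) (by have := PX5_sg_nonneg v; linarith)]
      ring
    rw [e1, e2] at hsb
    rw [Finset.sum_congr rfl (fun j _ => e3 j), Finset.sum_add_distrib, ← Finset.mul_sum]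
    linarith
  -- the limit
  have hL : Tendsto (fun ε : ℝ =>
      (∑ j ∈ Finset.range (N + 1), ∫ v : Pl, Ab j g (sg v + ε) * (UU G j v * U v * wt G v)) +
        (∫ v : Pl, Ab N q (sg v + ε) * (LL G (UU G N) v * U v * wt G v))) (𝓝[>] 0)
      (𝓝 ((∑ j ∈ Finset.range (N + 1), ∫ v : Pl, Ab j g (sg v) * (UU G j v * U v * wt G v)) +
        (∫ v : Pl, Ab N q (sg v) * (LL G (UU G N) v * U v * wt G v)))) :=
    (tendsto_finset_sum _ fun j _ => PX5_lim hρ hgT j (hψj j)).add (PX5_lim hρ hqT N hψL)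
  have hR : Tendsto (fun ε : ℝ => ∑ j ∈ Finset.range (N + 1), ∫ v : Pl,
      4 * ε * deriv (deriv (Ab j q)) (sg v + ε) * (UU G j v * U v * wt G v)) (𝓝[>] 0)
      (𝓝 (∑ j ∈ Finset.range (N + 1), if j = 0 then -2 * deriv q 0 *
        (UU G j 0 * U 0 * wt G 0) else 0)) :=
    tendsto_finset_sum _ fun j _ => Ab_dirac hρ hqT j (hψj j)
  have hLR := tendsto_nhds_unique (hL.congr' (by
    filter_upwards [self_mem_nhdsWithin] with ε hε
    exact hid ε hε)) hR
  rw [Finset.sum_ite_eq' (Finset.range (N + 1)) 0, if_pos (Finset.mem_range.2 (Nat.succ_pos N)),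
    (UU_zero_zero hG).1, (UU_zero_zero hG).2, ql_deriv hgT lam 0] at hLR
  have hpz : hh g lam = 2 * pl lam g 0 := (pl_zero hgT he lam).symm
  have e4 : ∫ v, KK G N g v * U v * wt G v =
      ∑ j ∈ Finset.range (N + 1), ∫ v : Pl, Ab j g (sg v) * (UU G j v * U v * wt G v) := by
    rw [← integral_finset_sum _ (fun j _ => PX5_intlim hρ hgT j (hψj j))]
    congr 1
    funext v
    unfold KK
    rw [Finset.sum_mul, Finset.sum_mul]
    refine Finset.sum_congr rfl fun j _ => ?_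
    ring
  have e5 : ∫ v, LL G (UU G N) v * Ab N q (sg v) * U v * wt G v =
      ∫ v : Pl, Ab N q (sg v) * (LL G (UU G N) v * U v * wt G v) := by
    congr 1
    funext v
    ring
  rw [e4, e5, hLR, hpz]
  ring

end BR
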